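import Pool.Agent.MP_305420_co.Mg.SC
import Mathlib

-- part MP_305420_co.Config
section

/-! Configurations: a valid partial splitting with four terminals that cannot be completed. -/

set_option linter.unusedSectionVars false

namespace Pool.Agent.CSG

open Finset

variable {V : Type*} [Fintype V] [DecidableEq V]

/-- residual demand -/
def rs (p : Finset V → ℤ) (G : Multiset (V × V)) (X : Finset V) : ℤ := p X - dG G X

/-- a valid configuration that cannot be completed, even after rearranging the edges -/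
structure Cfg (p : Finset V → ℤ) (G : Multiset (V × V)) (a b c d : V) : Prop where
  cs : CS p
  valid : Valid p G {a, b, c, d}
  uns : ¬ Solvable p (ends G + {a, b, c, d})

/-- configuration with a triangle `a b c` of members and root `d` -/
structure Tri (p : Finset V → ℤ) (G : Multiset (V × V)) (a b c d : V) : Prop
    extends Cfg p G a b c d where
  top : ∀ X, rs p G X ≤ 1
  ab : a ≠ b
  ac : a ≠ c
  ad : a ≠ d
  bc : b ≠ c
  bd : b ≠ d
  cd : c ≠ d
  noloop : ∀ e ∈ G, e.1 ≠ e.2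
  mab : ∃ X, a ∈ X ∧ b ∈ X ∧ c ∉ X ∧ d ∉ X ∧ rs p G X = 1
  mac : ∃ X, a ∈ X ∧ b ∉ X ∧ c ∈ X ∧ d ∉ X ∧ rs p G X = 1
  mbc : ∃ X, a ∉ X ∧ b ∈ X ∧ c ∈ X ∧ d ∉ X ∧ rs p G X = 1

/-- anchor status of the terminal `s` (other terminals `x y z`): members with trace `s` meet only
edges at `s`, and contain a neighbour of `s` unless they are `{s}` -/
def Anchor (p : Finset V → ℤ) (G : Multiset (V × V)) (s x y z : V) : Prop :=
  ∀ X, s ∈ X → x ∉ X → y ∉ X → z ∉ X → rs p G X = 1 →
    (∀ e ∈ G, e.1 ∈ X ∨ e.2 ∈ X → e.1 = s ∨ e.2 = s) ∧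
    (X = {s} ∨ ∃ v ∈ X, v ≠ s ∧ ((s, v) ∈ G ∨ (v, s) ∈ G))

/-- two anchors -/
structure TwoA (p : Finset V → ℤ) (G : Multiset (V × V)) (a b c d : V) : Prop
    extends Tri p G a b c d where
  sa : rs p G {a} = 1
  sb : rs p G {b} = 1
  sab : rs p G {a, b} = 1
  anca : Anchor p G a b c d
  ancb : Anchor p G b a c d

/-- heavy state: `b` has an edge, no member has trace `ad`, `bd` or `cd` -/
structure HState (p : Finset V → ℤ) (G : Multiset (V × V)) (a b c d : V) : Prop
    extends TwoA p G a b c d where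
  heavy : ∃ e ∈ G, e.1 = b ∨ e.2 = b
  nad : ∀ X, a ∈ X → b ∉ X → c ∉ X → d ∈ X → rs p G X ≤ 0
  nbd : ∀ X, a ∉ X → b ∈ X → c ∉ X → d ∈ X → rs p G X ≤ 0
  ncd : ∀ X, a ∉ X → b ∉ X → c ∈ X → d ∈ X → rs p G X ≤ 0

/-- light state: no edge at `a` or `b` -/
structure LLState (p : Finset V → ℤ) (G : Multiset (V × V)) (a b c d : V) : Prop
    extends TwoA p G a b c d where
  light : ∀ e ∈ G, e.1 ≠ a ∧ e.2 ≠ a ∧ e.1 ≠ b ∧ e.2 ≠ b
  extra : ((∀ X, a ∈ X → b ∉ X → c ∉ X → d ∈ X → rs p G X ≤ 0) ∧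
      (∀ X, a ∉ X → b ∈ X → c ∉ X → d ∈ X → rs p G X ≤ 0)) ∨
    (rs p G {a}ᶜ = 1 ∧ rs p G {b}ᶜ = 1)

/-- the points other than `b` and its neighbours -/
def farSet (G : Multiset (V × V)) (b : V) : Finset V :=
  univ.filter (fun v => v ≠ b ∧ (b, v) ∉ G ∧ (v, b) ∉ G)

/-- the edges not at `b` -/
def offEdges (G : Multiset (V × V)) (b : V) : Multiset (V × V) :=
  G.filter (fun e => e.1 ≠ b ∧ e.2 ≠ b)

/-- local exactness in the heavy state -/
def HLocal (V : Type*) [Fintype V] [DecidableEq V] : Prop :=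
  ∀ (p : Finset V → ℤ) (G : Multiset (V × V)) (a b c d : V), HState p G a b c d →
    ∃ S, SubP (farSet G b) S ∧
      (Multiset.card (offEdges G b) : ℤ) + 2 ≤ val (fun X => p (insert b X) - p {b}) S

/-- local to global in the heavy state -/
def HGlobal (V : Type*) [Fintype V] [DecidableEq V] : Prop :=
  ∀ (p : Finset V → ℤ) (G : Multiset (V × V)) (a b c d : V), HState p G a b c d →
    ∀ S, SubP (farSet G b) S →
      (Multiset.card (offEdges G b) : ℤ) + 2 ≤ val (fun X => p (insert b X) - p {b}) S →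
      Obst p (Multiset.card G + 3)

/-- the light case -/
def LLThm (V : Type*) [Fintype V] [DecidableEq V] : Prop :=
  ∀ (p : Finset V → ℤ) (G : Multiset (V × V)) (a b c d : V), LLState p G a b c d →
    Obst p (Multiset.card G + 3)

end Pool.Agent.CSG

end

-- part MP_305420_co.Rup
section

/-! A small reflective checker for resolution (reverse unit propagation) certificates.
Clauses and assignments are bit masks over literals `0 .. 2V-1`. -/

namespace Pool.Agent.CSG.Rup

noncomputable def force {β : Type} (n : ℕ) (k : ℕ → β) : β :=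
  Nat.rec (k 0) (fun m _ => k m) (Nat.add n 1)

theorem force_eq {β : Type} (n : ℕ) (k : ℕ → β) : force n k = k n := by
  cases n <;> rfl

/-- kernel friendly `if` -/
noncomputable def ite' {β : Type} (b : Bool) (x y : β) : β := Bool.rec y x b

@[simp] theorem ite'_true {β : Type} (x y : β) : ite' true x y = x := rfl
@[simp] theorem ite'_false {β : Type} (x y : β) : ite' false x y = y := rfl
theorem ite'_eq {β : Type} (b : Bool) (x y : β) : ite' b x y = if b = true then x else y := by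
  cases b <;> rfl

/-- kernel friendly bit test -/
def tb (s i : ℕ) : Bool := Nat.beq (Nat.land (Nat.shiftRight s i) 1) 1

theorem land_eq (a b : ℕ) : Nat.land a b = a &&& b := rfl
theorem lor_eq (a b : ℕ) : Nat.lor a b = a ||| b := rfl
theorem xor_eq (a b : ℕ) : Nat.xor a b = a ^^^ b := rfl
theorem shl_eq (a b : ℕ) : Nat.shiftLeft a b = a <<< b := rfl
theorem shr_eq (a b : ℕ) : Nat.shiftRight a b = a >>> b := rfl
theorem pow_eq (a b : ℕ) : Nat.pow a b = a ^ b := rfl

theorem tb_eq (s i : ℕ) : tb s i = s.testBit i := by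
  unfold tb Nat.testBit
  rw [land_eq, shr_eq, Nat.and_comm]
  have h : 1 &&& (s >>> i) = (s >>> i) % 2 := Nat.one_and_eq_mod_two _
  rw [h]
  rcases Nat.mod_two_eq_zero_or_one (s >>> i) with h | h <;> rw [h] <;> rfl

inductive Tr : Type
  | nil : Tr
  | node : Tr → ℕ → Tr → Tr

noncomputable def Tr.get (d : ℕ) (t : Tr) : ℕ → ℕ :=
  Tr.rec (motive := fun _ => ℕ → ℕ) (fun _ => d)
    (fun _ v _ gl gr i => Nat.rec v (fun j _ =>
      Nat.rec gl (fun _ _ => gr) (Nat.land j 1) (Nat.shiftRight j 1)) i) t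

noncomputable def Tr.ins (w : ℕ) (t : Tr) : ℕ → (Tr → Bool) → Bool :=
  Tr.rec (motive := fun _ => ℕ → (Tr → Bool) → Bool) (fun _ k => k (Tr.node Tr.nil w Tr.nil))
    (fun l v r il ir i k => Nat.rec (k (Tr.node l w r)) (fun j _ =>
      Nat.rec (il (Nat.shiftRight j 1) (fun l' => k (Tr.node l' v r)))
        (fun _ _ => ir (Nat.shiftRight j 1) (fun r' => k (Tr.node l v r'))) (Nat.land j 1)) i) t

def Tr.All (P : ℕ → Prop) : Tr → Prop
  | Tr.nil => True
  | Tr.node l v r => Tr.All P l ∧ P v ∧ Tr.All P r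

theorem Tr.get_ok {P : ℕ → Prop} {d : ℕ} (hd : P d) :
    ∀ (t : Tr), t.All P → ∀ i, P (t.get d i)
  | Tr.nil, _, _ => hd
  | Tr.node l v r, h, i => by
    cases i with
    | zero => exact h.2.1
    | succ j =>
      change P ((Nat.rec (l.get d) (fun _ _ => r.get d) (Nat.land j 1) : ℕ → ℕ)
        (Nat.shiftRight j 1))
      cases Nat.land j 1
      · exact Tr.get_ok hd l h.1 _
      · exact Tr.get_ok hd r h.2.2 _

theorem Tr.ins_ok {P : ℕ → Prop} {w : ℕ} (hw : P w) :
    ∀ (t : Tr), t.All P → ∀ (i : ℕ) (k : Tr → Bool), t.ins w i k = true →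
      ∃ t', Tr.All P t' ∧ k t' = true
  | Tr.nil, _, _, k, h => ⟨Tr.node Tr.nil w Tr.nil, ⟨trivial, hw, trivial⟩, h⟩
  | Tr.node l v r, ht, i, k, h => by
    cases i with
    | zero => exact ⟨Tr.node l w r, ⟨ht.1, hw, ht.2.2⟩, h⟩
    | succ j =>
      change (Nat.rec (l.ins w (Nat.shiftRight j 1) (fun l' => k (Tr.node l' v r)))
        (fun _ _ => r.ins w (Nat.shiftRight j 1) (fun r' => k (Tr.node l v r')))
        (Nat.land j 1) : Bool) = true at h
      cases hb : Nat.land j 1
      · rw [hb] at h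
        obtain ⟨l', h1, h2⟩ := Tr.ins_ok hw l ht.1 _ _ h
        exact ⟨Tr.node l' v r, ⟨h1, ht.2.1, ht.2.2⟩, h2⟩
      · rw [hb] at h
        obtain ⟨r', h1, h2⟩ := Tr.ins_ok hw r ht.2.2 _ _ h
        exact ⟨Tr.node l v r', ⟨ht.1, ht.2.1, h1⟩, h2⟩

/-- truth of a literal -/
def Lit (V : ℕ) (σ : ℕ → Prop) (l : ℕ) : Prop :=
  (l < V ∧ σ l) ∨ (V ≤ l ∧ l < 2 * V ∧ ¬ σ (l - V))

/-- truth of a clause -/
def Holds (V : ℕ) (σ : ℕ → Prop) (C : ℕ) : Prop := ∃ l, C.testBit l = true ∧ Lit V σ l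

/-- all literals of the mask are false -/
def AllFalse (V : ℕ) (σ : ℕ → Prop) (A : ℕ) : Prop := ∀ l, A.testBit l = true → ¬ Lit V σ l

theorem holds_or_allFalse (V : ℕ) (σ : ℕ → Prop) (C : ℕ) : Holds V σ C ∨ AllFalse V σ C := by
  by_contra h
  rw [not_or] at h
  exact h.2 (fun l hl hL => h.1 ⟨l, hl, hL⟩)

theorem AllFalse.lor {V : ℕ} {σ : ℕ → Prop} {A B : ℕ} (hA : AllFalse V σ A)
    (hB : AllFalse V σ B) : AllFalse V σ (Nat.lor A B) := by
  intro l hl
  rw [lor_eq, Nat.testBit_or, Bool.or_eq_true] at hl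
  rcases hl with h | h
  · exact hA l h
  · exact hB l h

theorem allFalse_zero {V : ℕ} {σ : ℕ → Prop} : AllFalse V σ 0 := by
  intro l hl; simp at hl

theorem allFalse_pow {V : ℕ} {σ : ℕ → Prop} {l : ℕ} (h : ¬ Lit V σ l) :
    AllFalse V σ (Nat.pow 2 l) := by
  intro j hj
  rw [pow_eq, Nat.testBit_two_pow] at hj
  have : l = j := by simpa using hj
  rwa [← this]

theorem Holds.lor_left {V : ℕ} {σ : ℕ → Prop} {A : ℕ} (hA : Holds V σ A) (B : ℕ) :
    Holds V σ (Nat.lor A B) := by
  obtain ⟨l, h1, h2⟩ := hA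
  exact ⟨l, by rw [lor_eq, Nat.testBit_or, h1]; rfl, h2⟩

theorem Holds.lor_right {V : ℕ} {σ : ℕ → Prop} {B : ℕ} (hB : Holds V σ B) (A : ℕ) :
    Holds V σ (Nat.lor A B) := by
  obtain ⟨l, h1, h2⟩ := hB
  exact ⟨l, by rw [lor_eq, Nat.testBit_or, h1]; simp, h2⟩

theorem holds_pow {V : ℕ} {σ : ℕ → Prop} {l : ℕ} (h : Lit V σ l) :
    Holds V σ (Nat.pow 2 l) := ⟨l, by rw [pow_eq, Nat.testBit_two_pow]; simp, h⟩

theorem holds_taut {V : ℕ} (hV : 0 < V) (σ : ℕ → Prop) :
    Holds V σ (Nat.lor 1 (Nat.pow 2 V)) := by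
  by_cases h : σ 0
  · exact ⟨0, by simp, Or.inl ⟨hV, h⟩⟩
  · exact (holds_pow (Or.inr ⟨le_rfl, by omega, by simpa using h⟩)).lor_right _

/-- negation of a literal -/
noncomputable def neg (V l : ℕ) : ℕ := ite' (Nat.ble V l) (Nat.sub l V) (Nat.add l V)

theorem not_lit_neg {V : ℕ} {σ : ℕ → Prop} {l : ℕ} (h : Lit V σ l) : ¬ Lit V σ (neg V l) := by
  unfold neg
  cases hb : Nat.ble V l
  · have hl : l < V := by
      have : ¬ V ≤ l := fun h => by rw [Nat.ble_eq.symm] at h; simp [hb] at h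
      omega
    change ¬ Lit V σ (l + V)
    rcases h with ⟨_, h⟩ | ⟨h, _⟩
    · rintro (⟨h1, _⟩ | ⟨_, _, h1⟩)
      · omega
      · exact h1 (by simpa using h)
    · omega
  · have hl : V ≤ l := Nat.le_of_ble_eq_true hb
    change ¬ Lit V σ (l - V)
    rcases h with ⟨h, _⟩ | ⟨_, h1, h2⟩
    · omega
    · rintro (⟨_, h3⟩ | ⟨h3, _⟩)
      · exact h2 h3
      · omega

/-- negation of a literal given as a mask -/
noncomputable def flip (V R : ℕ) : ℕ :=
  Nat.rec (Nat.shiftLeft R V) (fun m _ => Nat.succ m) (Nat.shiftRight R V)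

theorem flip_pow (V l : ℕ) : flip V (2 ^ l) = Nat.pow 2 (neg V l) := by
  unfold flip neg
  cases hb : Nat.ble V l
  · have hl : l < V := by
      have : ¬ V ≤ l := fun h => by rw [Nat.ble_eq.symm] at h; simp [hb] at h
      omega
    have : Nat.shiftRight (2 ^ l) V = 0 := by
      rw [shr_eq, Nat.shiftRight_eq_div_pow]
      exact Nat.div_eq_of_lt (Nat.pow_lt_pow_right (by norm_num) hl)
    rw [this]
    change (2 ^ l) <<< V = 2 ^ (l + V)
    rw [Nat.shiftLeft_eq, Nat.pow_add]
  · have hl : V ≤ l := Nat.le_of_ble_eq_true hb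
    have : Nat.shiftRight (2 ^ l) V = 2 ^ (l - V) := by
      rw [shr_eq, Nat.shiftRight_eq_div_pow, Nat.pow_div hl (by norm_num)]
    rw [this]
    change _ = 2 ^ (l - V)
    generalize hq : 2 ^ (l - V) = q
    cases q with
    | zero => exact absurd hq (by positivity)
    | succ q => rfl

/-- masks carry a tag in their low 64 bits -/
def hi (x : ℕ) : ℕ := Nat.shiftRight x 64

/-- attach a tag -/
def tag (x t : ℕ) : ℕ := Nat.lor (Nat.shiftLeft x 64) (Nat.land t 18446744073709551615)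

theorem testBit_hi (x l : ℕ) : (hi x).testBit l = x.testBit (64 + l) := by
  unfold hi; rw [shr_eq, Nat.testBit_shiftRight]

theorem hi_tag (x t : ℕ) : hi (tag x t) = x := by
  apply Nat.eq_of_testBit_eq
  intro l
  rw [testBit_hi, tag, lor_eq, shl_eq, land_eq, Nat.testBit_or, Nat.testBit_and,
    Nat.testBit_shiftLeft, show 18446744073709551615 = 2 ^ 64 - 1 by norm_num,
    Nat.testBit_two_pow_sub_one]
  simp

theorem hi_lor (x y : ℕ) : hi (Nat.lor x y) = Nat.lor (hi x) (hi y) := by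
  apply Nat.eq_of_testBit_eq
  intro l
  simp only [testBit_hi, lor_eq, Nat.testBit_or]

theorem hi_shl (x : ℕ) : hi (Nat.shiftLeft x 64) = x := by
  apply Nat.eq_of_testBit_eq
  intro l
  rw [testBit_hi, shl_eq, Nat.testBit_shiftLeft]
  simp

/-- Unit propagation along `n` hints read from the stream `s` (20 bits each);
the last hint must be a conflict; the continuation gets the rest of the stream. -/
noncomputable def prop (V d : ℕ) (t : Tr) (k : ℕ → Bool) (n : ℕ) : ℕ → ℕ → Bool :=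
  Nat.rec (motive := fun _ => ℕ → ℕ → Bool) (fun _ _ => false)
    (fun m ih s A =>
      force (t.get d (Nat.land s 1048575)) fun C =>
      force (Nat.xor C (Nat.land C A)) fun R =>
      force (Nat.shiftRight s 20) fun s' =>
      ite' (Nat.beq (hi R) 0) (ite' (Nat.beq m 0) (k s') false)
        (ite' (Nat.beq (Nat.land (hi R) (Nat.sub (hi R) 1)) 0)
          (force (Nat.lor A (Nat.shiftLeft (flip V (hi R)) 64)) fun A' => ih s' A') false)) n

theorem prop_ok {V d : ℕ} {σ : ℕ → Prop} {t : Tr} (hd : Holds V σ (hi d))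
    (ht : t.All (fun C => Holds V σ (hi C)))
    (k : ℕ → Bool) : ∀ (n s A : ℕ), prop V d t k n s A = true →
      ¬ AllFalse V σ (hi A) ∧ ∃ s', k s' = true := by
  intro n
  induction n with
  | zero => intro s A h; exact absurd h (by simp [prop])
  | succ m ih =>
    intro s A h
    change (force (t.get d (Nat.land s 1048575)) fun C =>
      force (Nat.xor C (Nat.land C A)) fun R =>
      force (Nat.shiftRight s 20) fun s' =>
      ite' (Nat.beq (hi R) 0) (ite' (Nat.beq m 0) (k s') false)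
        (ite' (Nat.beq (Nat.land (hi R) (Nat.sub (hi R) 1)) 0)
          (force (Nat.lor A (Nat.shiftLeft (flip V (hi R)) 64)) fun A' => prop V d t k m s' A')
          false)) = true at h
    simp only [force_eq] at h
    obtain ⟨l, hl1, hl2⟩ := Tr.get_ok (P := fun C => Holds V σ (hi C)) hd t ht
      (Nat.land s 1048575)
    generalize t.get d (Nat.land s 1048575) = C at h hl1
    have key : AllFalse V σ (hi A) → (hi (Nat.xor C (Nat.land C A))).testBit l = true := by
      intro hA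
      rw [testBit_hi] at hl1
      rw [testBit_hi, xor_eq, land_eq, Nat.testBit_xor, Nat.testBit_and, hl1]
      cases hA' : A.testBit (64 + l)
      · rfl
      · exact absurd hl2 (hA l (by rwa [testBit_hi]))
    generalize hi (Nat.xor C (Nat.land C A)) = R at h key
    cases h0 : Nat.beq R 0
    · rw [h0, ite'_false] at h
      cases h1 : Nat.beq (Nat.land R (Nat.sub R 1)) 0
      · rw [h1] at h; simp at h
      · rw [h1, ite'_true] at h
        obtain ⟨h2, h3⟩ := ih _ _ h
        have hR : R ≠ 0 := fun hx => by rw [hx] at h0; simp at h0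
        obtain ⟨j, hj⟩ := (Nat.and_sub_one_eq_zero_iff_isPowerOfTwo hR).1
          (Nat.eq_of_beq_eq_true h1)
        refine ⟨fun hA => h2 ?_, h3⟩
        rw [hi_lor, hi_shl]
        refine hA.lor ?_
        have h4 := key hA
        rw [hj, Nat.testBit_two_pow] at h4
        have : j = l := by simpa using h4
        rw [hj, this, flip_pow]
        exact allFalse_pow (not_lit_neg hl2)
    · rw [h0, ite'_true] at h
      have hR : R = 0 := Nat.eq_of_beq_eq_true h0
      refine ⟨fun hA => ?_, ?_⟩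
      · have := key hA; rw [hR] at this; simp at this
      · cases h1 : Nat.beq m 0
        · rw [h1] at h; simp at h
        · rw [h1, ite'_true] at h; exact ⟨_, h⟩

/-- read `n` literals (16 bits each) into a tagged clause mask -/
noncomputable def rdClause (k : ℕ → ℕ → Bool) (n : ℕ) : ℕ → ℕ → Bool :=
  Nat.rec (motive := fun _ => ℕ → ℕ → Bool) (fun s C => k s C)
    (fun _ ih s C =>
      force (Nat.lor C (Nat.pow 2 (Nat.add (Nat.land s 65535) 64))) fun C' =>
      force (Nat.shiftRight s 16) fun s' => ih s' C') n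

theorem rdClause_ok (k : ℕ → ℕ → Bool) : ∀ (n s C : ℕ), rdClause k n s C = true →
    ∃ s' C', k s' C' = true := by
  intro n
  induction n with
  | zero => intro s C h; exact ⟨s, C, h⟩
  | succ m ih =>
    intro s C h
    change (force (Nat.lor C (Nat.pow 2 (Nat.add (Nat.land s 65535) 64))) fun C' =>
      force (Nat.shiftRight s 16) fun s' => rdClause k m s' C') = true at h
    simp only [force_eq] at h
    exact ih _ _ h

/-- One step.  The low 16 bits are the kind: `0` is a derived clause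
(16 bits length, literals, 16 bits number of hints, hints); any other kind is passed to
the axiom generator `ax kind stream k`, which calls `k` on the rest of the stream and a clause. -/
noncomputable def step (V d A0 : ℕ) (ax : ℕ → ℕ → (ℕ → ℕ → Bool) → Bool) (t : Tr) (i s : ℕ)
    (k : ℕ → ℕ → Bool) : Bool :=
  Nat.rec
    (rdClause (fun s1 C =>
        force (tag (Nat.lor (hi A0) (hi C)) (Nat.shiftLeft i 32)) fun A =>
        prop V d t (fun s2 => k s2 C) (Nat.land s1 65535) (Nat.shiftRight s1 16) A)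
      (Nat.land (Nat.shiftRight s 16) 65535) (Nat.shiftRight s 32) i)
    (fun j _ => force (Nat.shiftRight s 16) fun s1 => ax j s1 (fun s2 C => k s2 (tag C i)))
    (Nat.land s 65535)

/-- correctness of an axiom generator -/
def AxOK (V : ℕ) (σ : ℕ → Prop) (ax : ℕ → ℕ → (ℕ → ℕ → Bool) → Bool) : Prop :=
  ∀ j s k, ax j s k = true → ∃ s' C, Holds V σ C ∧ k s' C = true

theorem step_ok {V d A0 : ℕ} {σ : ℕ → Prop} {ax : ℕ → ℕ → (ℕ → ℕ → Bool) → Bool} {t : Tr}
    (hd : Holds V σ (hi d)) (ht : t.All (fun C => Holds V σ (hi C)))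
    (hA : AllFalse V σ (hi A0)) (hax : AxOK V σ ax)
    (i s : ℕ) (k : ℕ → ℕ → Bool) (h : step V d A0 ax t i s k = true) :
    ∃ s' C, Holds V σ (hi C) ∧ k s' C = true := by
  unfold step at h
  generalize Nat.land s 65535 = j at h
  cases j with
  | zero =>
    obtain ⟨s1, C, h1⟩ := rdClause_ok _ _ _ _ h
    rw [force_eq] at h1
    obtain ⟨h2, s2, h3⟩ := prop_ok hd ht _ _ _ _ h1
    rw [hi_tag] at h2
    refine ⟨s2, C, ?_, h3⟩
    rcases holds_or_allFalse V σ (hi C) with h | h
    · exact h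
    · exact absurd (hA.lor h) h2
  | succ j =>
    change force (Nat.shiftRight s 16) (fun s1 => ax j s1 (fun s2 C => k s2 (tag C i))) = true at h
    rw [force_eq] at h
    obtain ⟨s', C, c1, c2⟩ := hax _ _ _ h
    exact ⟨s', tag C i, by rwa [hi_tag], c2⟩

/-- all steps of a block; succeeds at once when the empty clause is derived -/
noncomputable def block (V d A0 : ℕ) (ax : ℕ → ℕ → (ℕ → ℕ → Bool) → Bool)
    (k : Tr → ℕ → Bool) (n : ℕ) : ℕ → Tr → ℕ → Bool :=
  Nat.rec (motive := fun _ => ℕ → Tr → ℕ → Bool) (fun _ t i => k t i)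
    (fun _ ih s t i => step V d A0 ax t i s fun s' C =>
      force C fun C' => ite' (Nat.beq (hi C') 0) true
        (t.ins C' i fun t' => force (Nat.add i 1) fun i' => ih s' t' i')) n

theorem block_ok {V d A0 : ℕ} {σ : ℕ → Prop} {ax : ℕ → ℕ → (ℕ → ℕ → Bool) → Bool}
    (hd : Holds V σ (hi d)) (hA : AllFalse V σ (hi A0)) (hax : AxOK V σ ax) (k : Tr → ℕ → Bool) :
    ∀ (n s : ℕ) (t : Tr) (i : ℕ), t.All (fun C => Holds V σ (hi C)) →
      block V d A0 ax k n s t i = true →
      ∃ t' i', Tr.All (fun C => Holds V σ (hi C)) t' ∧ k t' i' = true := by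
  intro n
  induction n with
  | zero => intro s t i ht h; exact ⟨t, i, ht, h⟩
  | succ m ih =>
    intro s t i ht h
    change (step V d A0 ax t i s fun s' C =>
      force C fun C' => ite' (Nat.beq (hi C') 0) true
        (t.ins C' i fun t' => force (Nat.add i 1) fun i' => block V d A0 ax k m s' t' i')) = true
      at h
    obtain ⟨s', C, h1, h2⟩ := step_ok hd ht hA hax _ _ _ h
    rw [force_eq] at h2
    cases h0 : Nat.beq (hi C) 0
    · rw [h0, ite'_false] at h2
      obtain ⟨t', h3, h4⟩ := Tr.ins_ok (P := fun C => Holds V σ (hi C)) h1 t ht _ _ h2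
      rw [force_eq] at h4
      exact ih _ _ _ h3 h4
    · obtain ⟨l, hl, _⟩ := h1
      rw [Nat.eq_of_beq_eq_true h0] at hl
      simp at hl

/-- run the list of blocks; the low 16 bits of a block give its number of steps -/
noncomputable def run (V d A0 : ℕ) (ax : ℕ → ℕ → (ℕ → ℕ → Bool) → Bool) (L : List ℕ) :
    Tr → ℕ → Bool :=
  List.rec (motive := fun _ => Tr → ℕ → Bool) (fun _ _ => false)
    (fun b _ ih t i => block V d A0 ax ih (Nat.land b 65535) (Nat.shiftRight b 16) t i) L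

theorem run_ok {V d A0 : ℕ} {σ : ℕ → Prop} {ax : ℕ → ℕ → (ℕ → ℕ → Bool) → Bool}
    (hd : Holds V σ (hi d)) (hA : AllFalse V σ (hi A0)) (hax : AxOK V σ ax) :
    ∀ (L : List ℕ) (t : Tr) (i : ℕ), t.All (fun C => Holds V σ (hi C)) →
      run V d A0 ax L t i = true → False := by
  intro L
  induction L with
  | nil => intro t i _ h; exact absurd h (by simp [run])
  | cons b L ih =>
    intro t i ht h
    obtain ⟨t', i', h1, h2⟩ := block_ok hd hA hax _ _ _ _ _ ht h
    exact ih _ _ h1 h2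

/-- the checker -/
noncomputable def check (V A0 : ℕ) (ax : ℕ → ℕ → (ℕ → ℕ → Bool) → Bool) (L : List ℕ) : Bool :=
  force V fun V' => force (tag A0 0) fun A => force (tag (Nat.lor 1 (Nat.pow 2 V')) 0) fun d =>
    run V' d A ax L Tr.nil 0

theorem check_ok {V A0 : ℕ} {σ : ℕ → Prop} {ax : ℕ → ℕ → (ℕ → ℕ → Bool) → Bool} (hV : 0 < V)
    (hA : AllFalse V σ A0) (hax : AxOK V σ ax) (L : List ℕ) (h : check V A0 ax L = true) :
    False := by
  simp only [check, force_eq] at h
  exact run_ok (by rw [hi_tag]; exact holds_taut hV σ) (by rwa [hi_tag]) hax L Tr.nil _ trivial h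

end Pool.Agent.CSG.Rup

end

-- part MP_305420_co.Trace
section

/-! Trace abstraction: finitely many named points and named sets; atoms say that some set with a
given trace has value at least a given level.  Certificates refute finite configurations. -/

set_option linter.unusedSectionVars false

namespace Pool.Agent.CSG.Rup

open Finset

variable {W : Type*} [DecidableEq W]

/-- `s` records the named sets met by `X`, `t` those contained in `X` -/
def Abs (n : ℕ) (Z : ℕ → Finset W) (X : Finset W) (s t : ℕ) : Prop :=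
  ∀ i < n, (s.testBit i = true ↔ ∃ x ∈ Z i, x ∈ X) ∧ (t.testBit i = true ↔ ∀ x ∈ Z i, x ∈ X)

def sm (n c : ℕ) : ℕ := Nat.land c (Nat.sub (Nat.pow 2 n) 1)
def tm (np n c : ℕ) : ℕ :=
  Nat.lor (Nat.land c (Nat.sub (Nat.pow 2 np) 1)) (Nat.shiftLeft (Nat.shiftRight c n) np)
def mkc (np n s t : ℕ) : ℕ := Nat.lor s (Nat.shiftLeft (Nat.shiftRight t np) n)

/-- semantics of the variables -/
def sem (np n D : ℕ) (Z : ℕ → Finset W) (f : Finset W → ℤ) (lo : ℤ) (v : ℕ) : Prop :=
  ∃ X, Abs n Z X (sm n (v / D)) (tm np n (v / D)) ∧ lo + (v % D : ℕ) ≤ f X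

theorem sub_eq (a b : ℕ) : Nat.sub a b = a - b := rfl
theorem add_eq (a b : ℕ) : Nat.add a b = a + b := rfl
theorem mul_eq (a b : ℕ) : Nat.mul a b = a * b := rfl

theorem testBit_sm (n c i : ℕ) : (sm n c).testBit i = (decide (i < n) && c.testBit i) := by
  unfold sm
  rw [land_eq, sub_eq, pow_eq, Nat.testBit_and, Nat.testBit_two_pow_sub_one, Bool.and_comm]

theorem testBit_tm (np n c i : ℕ) : (tm np n c).testBit i =
    ((decide (i < np) && c.testBit i) || (decide (np ≤ i) && c.testBit (n + (i - np)))) := by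
  unfold tm
  rw [lor_eq, land_eq, sub_eq, pow_eq, shl_eq, shr_eq, Nat.testBit_or, Nat.testBit_and,
    Nat.testBit_two_pow_sub_one, Nat.testBit_shiftLeft, Nat.testBit_shiftRight, Bool.and_comm]

theorem testBit_mkc (np n s t i : ℕ) : (mkc np n s t).testBit i =
    (s.testBit i || (decide (n ≤ i) && t.testBit (np + (i - n)))) := by
  unfold mkc
  rw [lor_eq, shl_eq, shr_eq, Nat.testBit_or, Nat.testBit_shiftLeft, Nat.testBit_shiftRight]

theorem testBit_false_of_lt {s n i : ℕ} (hs : s < 2 ^ n) (hi : n ≤ i) : s.testBit i = false :=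
  Nat.testBit_lt_two_pow (hs.trans_le (Nat.pow_le_pow_right (by norm_num) hi))

theorem mkc_lt {np r s t : ℕ} (hs : s < 2 ^ (np + r)) (ht : t < 2 ^ (np + r)) :
    mkc np (np + r) s t < 2 ^ (np + r + r) := by
  apply Nat.lt_pow_two_of_testBit
  intro i hi
  rw [testBit_mkc, testBit_false_of_lt hs (by omega), testBit_false_of_lt ht (by omega)]
  simp

theorem exists_bits (n : ℕ) (P : ℕ → Prop) :
    ∃ s < 2 ^ n, ∀ i < n, (s.testBit i = true ↔ P i) := by
  classical
  induction n with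
  | zero => exact ⟨0, by simp, by simp⟩
  | succ n ih =>
    obtain ⟨s, hs, h⟩ := ih
    by_cases hP : P n
    · refine ⟨2 ^ n + s, by omega, fun i hi => ?_⟩
      rcases Nat.lt_succ_iff_lt_or_eq.1 hi with hi | rfl
      · rw [Nat.testBit_two_pow_add_gt hi]; exact h i hi
      · rw [Nat.testBit_two_pow_add_eq, Nat.testBit_lt_two_pow hs]; simpa using hP
    · refine ⟨s, by omega, fun i hi => ?_⟩
      rcases Nat.lt_succ_iff_lt_or_eq.1 hi with hi | rfl
      · exact h i hi
      · rw [Nat.testBit_lt_two_pow hs]; simpa using hP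

theorem exists_abs (n : ℕ) (Z : ℕ → Finset W) (X : Finset W) :
    ∃ s t, s < 2 ^ n ∧ t < 2 ^ n ∧ Abs n Z X s t := by
  obtain ⟨s, hs, h1⟩ := exists_bits n (fun i => ∃ x ∈ Z i, x ∈ X)
  obtain ⟨t, ht, h2⟩ := exists_bits n (fun i => ∀ x ∈ Z i, x ∈ X)
  exact ⟨s, t, hs, ht, fun i hi => ⟨h1 i hi, h2 i hi⟩⟩

/-- the data and hypotheses of a trace problem -/
structure Setup (np r D : ℕ) (Z : ℕ → Finset W) (f : Finset W → ℤ) (lo : ℤ)
    (E : List (ℕ × ℕ)) : Prop where
  pos : 0 < D
  ne : ∀ i < np + r, (Z i).Nonempty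
  pt : ∀ i < np, ∀ x ∈ Z i, ∀ y ∈ Z i, x = y
  top : ∀ X, f X < lo + D
  sup : ∀ (X Y : Finset W) (a d : W) (L : List (ℕ × ℕ)), a ∈ X → a ∈ Y → d ∉ X → d ∉ Y →
    L.Sublist E → (∀ e ∈ L, ∃ x ∈ Z e.1, ∃ y ∈ Z e.2,
      (x ∈ X ∧ x ∉ Y ∧ y ∈ Y ∧ y ∉ X) ∨ (x ∈ Y ∧ x ∉ X ∧ y ∈ X ∧ y ∉ Y)) →
    f X + f Y + 2 * L.length ≤ f (X ∩ Y) + f (X ∪ Y)

def nvars (np r D : ℕ) : ℕ := Nat.mul (Nat.pow 2 (Nat.add (Nat.add np r) r)) D

section
variable {np r D : ℕ} {Z : ℕ → Finset W} {f : Finset W → ℤ} {lo : ℤ} {E : List (ℕ × ℕ)}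

theorem Setup.abs_mkc (h : Setup np r D Z f lo E) {X : Finset W} {s t : ℕ}
    (hs : s < 2 ^ (np + r)) (hX : Abs (np + r) Z X s t) :
    Abs (np + r) Z X (sm (np + r) (mkc np (np + r) s t)) (tm np (np + r) (mkc np (np + r) s t)) := by
  intro i hi
  have h1 : (sm (np + r) (mkc np (np + r) s t)).testBit i = s.testBit i := by
    rw [testBit_sm, testBit_mkc]
    have : ¬ np + r ≤ i := by omega
    simp [hi, this]
  have h2 : (tm np (np + r) (mkc np (np + r) s t)).testBit i = t.testBit i := by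
    rw [testBit_tm, testBit_mkc, testBit_mkc]
    by_cases hp : i < np
    · have a1 : ¬ np + r ≤ i := by omega
      have a2 : ¬ np ≤ i := by omega
      simp only [hp, a1, a2, decide_true, decide_false, Bool.true_and, Bool.false_and,
        Bool.or_false]
      rw [Bool.eq_iff_iff, (hX i hi).1, (hX i hi).2]
      obtain ⟨z, hz⟩ := h.ne i hi
      constructor
      · rintro ⟨x, hx, hx'⟩ y hy; rw [← h.pt i hp x hx y hy]; exact hx'
      · intro hh; exact ⟨z, hz, hh z hz⟩
    · have a2 : np ≤ i := by omega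
      rw [testBit_false_of_lt hs (show np + r ≤ np + r + (i - np) by omega)]
      have a3 : np + (np + r + (i - np) - (np + r)) = i := by omega
      simp [hp, a2]
  rw [h1, h2]; exact hX i hi

theorem Setup.lit_code (h : Setup np r D Z f lo E) {X : Finset W} {c lev : ℕ}
    (hc : c < 2 ^ (np + r + r)) (hX : Abs (np + r) Z X (sm (np + r) c) (tm np (np + r) c))
    (hl : lev < D) (hf : lo + lev ≤ f X) :
    Lit (nvars np r D) (sem np (np + r) D Z f lo) (Nat.add (Nat.mul c D) lev) := by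
  left
  have e1 : (c * D + lev) / D = c := by
    rw [Nat.add_comm, Nat.add_mul_div_right _ _ h.pos, Nat.div_eq_of_lt hl]; simp
  have e2 : (c * D + lev) % D = lev := by
    rw [Nat.add_comm, Nat.add_mul_mod_self_right, Nat.mod_eq_of_lt hl]
  refine ⟨?_, X, ?_, ?_⟩
  · change c * D + lev < 2 ^ (np + r + r) * D
    calc c * D + lev < c * D + D := by omega
      _ = (c + 1) * D := by ring
      _ ≤ _ := Nat.mul_le_mul_right _ hc
  · change Abs _ _ _ (sm _ ((c * D + lev) / D)) (tm _ _ ((c * D + lev) / D))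
    rw [e1]; exact hX
  · change lo + (((c * D + lev) % D : ℕ) : ℤ) ≤ f X
    rw [e2]; exact hf

theorem lit_neg {V : ℕ} {σ : ℕ → Prop} {v : ℕ} (hv : v < V) (h : ¬ σ v) :
    Lit V σ (Nat.add v V) := by
  right
  change V ≤ v + V ∧ v + V < 2 * V ∧ ¬ σ (v + V - V)
  refine ⟨by omega, by omega, by simpa using h⟩

end

/-- bitwise or of `g c` for `c < m`; the accumulator is tagged -/
noncomputable def orLoop (g : ℕ → ℕ) (m : ℕ) : ℕ → ℕ :=
  Nat.rec (motive := fun _ => ℕ → ℕ) (fun acc => hi acc)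
    (fun c ih acc => force (tag (Nat.lor (hi acc) (g c)) (Nat.add acc 1)) ih) m

theorem testBit_orLoop (g : ℕ → ℕ) (l : ℕ) : ∀ (m acc : ℕ), (orLoop g m acc).testBit l = true ↔
    ((hi acc).testBit l = true ∨ ∃ c < m, (g c).testBit l = true) := by
  intro m
  induction m with
  | zero => intro acc; simp [orLoop]
  | succ m ih =>
    intro acc
    change (force (tag (Nat.lor (hi acc) (g m)) (Nat.add acc 1)) (orLoop g m)).testBit l = true ↔ _
    rw [force_eq, ih, hi_tag, lor_eq, Nat.testBit_or, Bool.or_eq_true]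
    constructor
    · rintro ((h | h) | ⟨c, hc, h⟩)
      · exact Or.inl h
      · exact Or.inr ⟨m, by omega, h⟩
      · exact Or.inr ⟨c, by omega, h⟩
    · rintro (h | ⟨c, hc, h⟩)
      · exact Or.inl (Or.inl h)
      · rcases Nat.lt_succ_iff_lt_or_eq.1 hc with hc | rfl
        · exact Or.inr ⟨c, hc, h⟩
        · exact Or.inl (Or.inr h)

/-- or of `g (base ||| sub)` over the submasks `sub` of `und` inside the soft positions -/
noncomputable def orSubs (np und : ℕ) (g : ℕ → ℕ) (m : ℕ) : ℕ → ℕ :=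
  Nat.rec (motive := fun _ => ℕ → ℕ) g
    (fun j ih base => ite' (tb und (Nat.add np j))
      (Nat.lor (ih base) (ih (Nat.lor base (Nat.pow 2 (Nat.add np j))))) (ih base)) m

theorem testBit_orSubs (np und : ℕ) (g : ℕ → ℕ) (l : ℕ) : ∀ (m base s : ℕ),
    (∀ i, base.testBit i = true → s.testBit i = true) →
    (∀ i, s.testBit i = true → base.testBit i = true ∨
      (und.testBit i = true ∧ np ≤ i ∧ i < np + m)) →
    (g s).testBit l = true → (orSubs np und g m base).testBit l = true := by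
  intro m
  induction m with
  | zero =>
    intro base s h1 h2 h3
    have : base = s := by
      apply Nat.eq_of_testBit_eq
      intro i
      rw [Bool.eq_iff_iff]
      exact ⟨h1 i, fun h => (h2 i h).resolve_right (by omega)⟩
    rw [this]; exact h3
  | succ m ih =>
    intro base s h1 h2 h3
    change (ite' (tb und (np + m))
      (Nat.lor (orSubs np und g m base) (orSubs np und g m (Nat.lor base (2 ^ (np + m)))))
      (orSubs np und g m base)).testBit l = true
    by_cases hs : s.testBit (np + m) = true ∧ und.testBit (np + m) = true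
    · rw [tb_eq, hs.2, ite'_true, lor_eq, Nat.testBit_or, ih (Nat.lor base (2 ^ (np + m))) s _ _ h3]
      · simp
      · intro i hi
        rw [lor_eq, Nat.testBit_or, Bool.or_eq_true, Nat.testBit_two_pow] at hi
        rcases hi with hi | hi
        · exact h1 i hi
        · have : np + m = i := by simpa using hi
          rw [← this]; exact hs.1
      · intro i hi
        rw [lor_eq, Nat.testBit_or, Bool.or_eq_true, Nat.testBit_two_pow]
        rcases h2 i hi with h | ⟨a, b, c⟩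
        · exact Or.inl (Or.inl h)
        · by_cases he : np + m = i
          · exact Or.inl (Or.inr (by simpa using he))
          · exact Or.inr ⟨a, b, by omega⟩
    · have key : (orSubs np und g m base).testBit l = true := by
        refine ih base s h1 (fun i hi => ?_) h3
        rcases h2 i hi with h | ⟨a, b, c⟩
        · exact Or.inl h
        · by_cases he : np + m = i
          · exact absurd ⟨he ▸ hi, he ▸ a⟩ hs
          · exact Or.inr ⟨a, b, by omega⟩
      cases tb und (np + m)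
      · exact key
      · rw [ite'_true, lor_eq, Nat.testBit_or, key]; rfl

/-- number of listed edges that certainly join the two differences -/
noncomputable def bonus (wA wB : ℕ) (E : List (ℕ × ℕ)) : ℕ :=
  List.rec 0 (fun e _ ih =>
    ite' (ite' (tb wA e.1) (ite' (tb wB e.2) true (ite' (tb wB e.1) (tb wA e.2) false))
      (ite' (tb wB e.1) (tb wA e.2) false)) (Nat.succ ih) ih) E

theorem bonus_spec (wA wB : ℕ) (E : List (ℕ × ℕ)) : ∃ L : List (ℕ × ℕ), L.Sublist E ∧
    L.length = bonus wA wB E ∧ ∀ e ∈ L, (wA.testBit e.1 = true ∧ wB.testBit e.2 = true) ∨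
      (wB.testBit e.1 = true ∧ wA.testBit e.2 = true) := by
  induction E with
  | nil => exact ⟨[], by simp, rfl, by simp⟩
  | cons e E ih =>
    obtain ⟨L, h1, h2, h3⟩ := ih
    have hb : bonus wA wB (e :: E) =
      ite' (ite' (tb wA e.1) (ite' (tb wB e.2) true (ite' (tb wB e.1) (tb wA e.2) false))
      (ite' (tb wB e.1) (tb wA e.2) false)) (Nat.succ (bonus wA wB E)) (bonus wA wB E) := rfl
    by_cases hc : (wA.testBit e.1 = true ∧ wB.testBit e.2 = true) ∨
      (wB.testBit e.1 = true ∧ wA.testBit e.2 = true)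
    · refine ⟨e :: L, h1.cons_cons e, ?_, ?_⟩
      · rw [hb, List.length_cons, h2]
        simp only [tb_eq]
        rcases hc with ⟨a, b⟩ | ⟨a, b⟩
        · rw [a, b]; rfl
        · rw [a, b]; cases wA.testBit e.1 <;> cases wB.testBit e.2 <;> rfl
      · intro x hx
        rcases List.mem_cons.1 hx with rfl | hx
        · exact hc
        · exact h3 x hx
    · refine ⟨L, h1.cons e, ?_, h3⟩
      rw [hb, h2]
      simp only [tb_eq]
      revert hc
      cases wA.testBit e.1 <;> cases wB.testBit e.2 <;> cases wB.testBit e.1 <;>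
        cases wA.testBit e.2 <;> simp

/-- positive literal for a trace and a level (nothing if the level is too high) -/
noncomputable def posLit (np n D lev s t : ℕ) : ℕ :=
  ite' (Nat.ble D lev) 0 (Nat.pow 2 (Nat.add (Nat.mul (mkc np n s t) D) lev))

/-- the clause of the supermodular inequality -/
noncomputable def crossAx (np r D : ℕ) (E : List (ℕ × ℕ)) (cX cY a b c : ℕ)
    (k : ℕ → Bool) : Bool :=
  force (Nat.add np r) fun n =>
  force (Nat.sub (Nat.pow 2 n) 1) fun F =>
  force (sm n cX) fun sX => force (Nat.land F (tm np n cX)) fun tX =>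
  force (sm n cY) fun sY => force (Nat.land F (tm np n cY)) fun tY =>
  force (Nat.xor F sX) fun nsX => force (Nat.xor F tX) fun ntX =>
  force (Nat.xor F sY) fun nsY => force (Nat.xor F tY) fun ntY =>
  force (Nat.lor (Nat.land tX sY) (Nat.land sX tY)) fun com =>
  ite' (Nat.beq com 0) false <|
  ite' (Nat.beq (Nat.lor (Nat.land nsX ntY) (Nat.land ntX nsY)) 0) false <|
  force (Nat.land (Nat.land sX sY) (Nat.land ntX ntY)) fun und =>
  force (Nat.lor (Nat.land sX nsY) (Nat.land tX ntY)) fun wA =>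
  force (Nat.lor (Nat.land sY nsX) (Nat.land tY ntX)) fun wB =>
  force (Nat.add (Nat.add (Nat.add a b) (Nat.mul 2 (bonus wA wB E))) 1) fun tot =>
  ite' (Nat.ble c tot) (
    force (nvars np r D) fun V =>
    force (Nat.add (Nat.mul cX D) a) fun vX => force (Nat.add (Nat.mul cY D) b) fun vY =>
    ite' (Nat.ble V vX) false <| ite' (Nat.ble V vY) false <|
    ite' (Nat.ble D a) false <| ite' (Nat.ble D b) false <|
    force (Nat.land tX tY) fun tI => force (Nat.lor sX sY) fun sU =>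
    force (Nat.sub tot c) fun e =>
    k (Nat.lor (Nat.lor (Nat.pow 2 (Nat.add vX V)) (Nat.pow 2 (Nat.add vY V)))
      (Nat.lor (orSubs np und (fun s => posLit np n D c s tI) r com)
        (orSubs np und (fun t => posLit np n D e sU t) r (Nat.lor tX tY))))) false

theorem ne_zero_bit {x : ℕ} (h : Nat.beq x 0 = false) : ∃ i, x.testBit i = true := by
  have : x ≠ 0 := fun hx => by rw [hx] at h; simp at h
  exact Nat.exists_testBit_of_ne_zero this

theorem lt_of_ble_false {a b : ℕ} (h : Nat.ble a b = false) : b < a := by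
  by_contra hc
  have : Nat.ble a b = true := Nat.ble_eq_true_of_le (by omega)
  rw [h] at this; simp at this

section
variable {np r D : ℕ} {Z : ℕ → Finset W} {f : Finset W → ℤ} {lo : ℤ} {E : List (ℕ × ℕ)}

theorem Setup.posLit_holds (h : Setup np r D Z f lo E) {X : Finset W} {s t lev : ℕ}
    (hs : s < 2 ^ (np + r)) (ht : t < 2 ^ (np + r)) (hX : Abs (np + r) Z X s t)
    (hf : lo + lev ≤ f X) :
    Holds (nvars np r D) (sem np (np + r) D Z f lo) (posLit np (np + r) D lev s t) := by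
  have hl : lev < D := by have := h.top X; omega
  unfold posLit
  have : Nat.ble D lev = false := by
    cases hb : Nat.ble D lev
    · rfl
    · have := Nat.le_of_ble_eq_true hb; omega
  rw [this, ite'_false]
  exact holds_pow (h.lit_code (mkc_lt hs ht) (h.abs_mkc hs hX) hl hf)

theorem sem_code (hD : 0 < D) {c a : ℕ} (ha : a < D)
    (h : sem np (np + r) D Z f lo (Nat.add (Nat.mul c D) a)) :
    ∃ X, Abs (np + r) Z X (sm (np + r) c) (tm np (np + r) c) ∧ lo + a ≤ f X := by
  have e1 : (c * D + a) / D = c := by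
    rw [Nat.add_comm, Nat.add_mul_div_right _ _ hD, Nat.div_eq_of_lt ha]; simp
  have e2 : (c * D + a) % D = a := by
    rw [Nat.add_comm, Nat.add_mul_mod_self_right, Nat.mod_eq_of_lt ha]
  obtain ⟨X, h1, h2⟩ := h
  change Abs _ _ _ (sm _ ((c * D + a) / D)) (tm _ _ ((c * D + a) / D)) at h1
  change lo + (((c * D + a) % D : ℕ) : ℤ) ≤ f X at h2
  rw [e1] at h1; rw [e2] at h2
  exact ⟨X, h1, h2⟩

theorem Setup.cross_ok (h : Setup np r D Z f lo E) (cX cY a b c : ℕ) (k : ℕ → Bool)
    (hk : crossAx np r D E cX cY a b c k = true) :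
    ∃ C, Holds (nvars np r D) (sem np (np + r) D Z f lo) C ∧ k C = true := by
  unfold crossAx at hk
  simp only [force_eq] at hk
  change ite' _ false _ = true at hk
  set n := Nat.add np r with hn
  have hn' : n = np + r := rfl
  set F := Nat.sub (Nat.pow 2 n) 1 with hF
  have bF : ∀ i, F.testBit i = decide (i < n) := fun i => by
    rw [hF, sub_eq, pow_eq, Nat.testBit_two_pow_sub_one]
  set sX := sm n cX with hsX
  set sY := sm n cY with hsY
  set tX := Nat.land F (tm np n cX) with htX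
  set tY := Nat.land F (tm np n cY) with htY
  cases h1 : Nat.beq (Nat.lor (Nat.land tX sY) (Nat.land sX tY)) 0
  swap
  · rw [h1] at hk; simp at hk
  rw [h1, ite'_false] at hk
  cases h2 : Nat.beq (Nat.lor (Nat.land (Nat.xor F sX) (Nat.xor F tY))
    (Nat.land (Nat.xor F tX) (Nat.xor F sY))) 0
  swap
  · rw [h2] at hk; simp at hk
  rw [h2, ite'_false] at hk
  set wA := Nat.lor (Nat.land sX (Nat.xor F sY)) (Nat.land tX (Nat.xor F tY)) with hwA
  set wB := Nat.lor (Nat.land sY (Nat.xor F sX)) (Nat.land tY (Nat.xor F tX)) with hwB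
  cases h3 : Nat.ble c (Nat.succ (Nat.add (Nat.add a b) (Nat.mul 2 (bonus wA wB E))))
  · rw [h3] at hk; simp at hk
  rw [h3, ite'_true] at hk
  cases h4 : Nat.ble (nvars np r D) (Nat.add (Nat.mul cX D) a)
  swap
  · rw [h4] at hk; simp at hk
  rw [h4, ite'_false] at hk
  cases h5 : Nat.ble (nvars np r D) (Nat.add (Nat.mul cY D) b)
  swap
  · rw [h5] at hk; simp at hk
  rw [h5, ite'_false] at hk
  cases h6 : Nat.ble D a
  swap
  · rw [h6] at hk; simp at hk
  rw [h6, ite'_false] at hk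
  cases h7 : Nat.ble D b
  swap
  · rw [h7] at hk; simp at hk
  rw [h7, ite'_false] at hk
  refine ⟨_, ?_, hk⟩
  by_cases gX : sem np (np + r) D Z f lo (Nat.add (Nat.mul cX D) a)
  swap
  · exact ((holds_pow (lit_neg (lt_of_ble_false h4) gX)).lor_left _).lor_left _
  by_cases gY : sem np (np + r) D Z f lo (Nat.add (Nat.mul cY D) b)
  swap
  · exact ((holds_pow (lit_neg (lt_of_ble_false h5) gY)).lor_right _).lor_left _
  obtain ⟨X, aX, fX⟩ := sem_code h.pos (lt_of_ble_false h6) gX
  obtain ⟨Y, aY, fY⟩ := sem_code h.pos (lt_of_ble_false h7) gY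
  have bsX : ∀ i, sX.testBit i = true ↔ i < n ∧ ∃ x ∈ Z i, x ∈ X := fun i => by
    by_cases hi : i < n
    · simp only [hi, true_and]; exact (aX i hi).1
    · rw [hsX, testBit_sm]; simp [hi]
  have bsY : ∀ i, sY.testBit i = true ↔ i < n ∧ ∃ x ∈ Z i, x ∈ Y := fun i => by
    by_cases hi : i < n
    · simp only [hi, true_and]; exact (aY i hi).1
    · rw [hsY, testBit_sm]; simp [hi]
  have btX : ∀ i, tX.testBit i = true ↔ i < n ∧ ∀ x ∈ Z i, x ∈ X := fun i => by
    rw [htX, land_eq, Nat.testBit_and, bF]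
    by_cases hi : i < n
    · simp only [hi, true_and, decide_true, Bool.true_and]; exact (aX i hi).2
    · simp [hi]
  have btY : ∀ i, tY.testBit i = true ↔ i < n ∧ ∀ x ∈ Z i, x ∈ Y := fun i => by
    rw [htY, land_eq, Nat.testBit_and, bF]
    by_cases hi : i < n
    · simp only [hi, true_and, decide_true, Bool.true_and]; exact (aY i hi).2
    · simp [hi]
  have bN : ∀ m i, (m.testBit i = true → i < n) →
      ((Nat.xor F m).testBit i = true ↔ i < n ∧ ¬ m.testBit i = true) := fun m i hm => by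
    rw [xor_eq, Nat.testBit_xor, bF]
    by_cases hi : i < n
    · simp [hi]
    · have : ¬ m.testBit i = true := fun hh => hi (hm hh)
      simp [hi, this]
  have nsX := fun i => bN sX i (fun hh => ((bsX i).1 hh).1)
  have nsY := fun i => bN sY i (fun hh => ((bsY i).1 hh).1)
  have ntX := fun i => bN tX i (fun hh => ((btX i).1 hh).1)
  have ntY := fun i => bN tY i (fun hh => ((btY i).1 hh).1)
  obtain ⟨p, hp1, hp2⟩ : ∃ p, p ∈ X ∧ p ∈ Y := by
    obtain ⟨i, hi⟩ := ne_zero_bit h1
    simp only [lor_eq, land_eq, Nat.testBit_or, Nat.testBit_and, Bool.or_eq_true,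
      Bool.and_eq_true, bsX, bsY, btX, btY] at hi
    rcases hi with ⟨⟨_, u⟩, _, x, v, w⟩ | ⟨⟨_, x, v, w⟩, _, u⟩
    · exact ⟨x, u x v, w⟩
    · exact ⟨x, w, u x v⟩
  obtain ⟨q, hq1, hq2⟩ : ∃ q, q ∉ X ∧ q ∉ Y := by
    obtain ⟨i, hi⟩ := ne_zero_bit h2
    simp only [lor_eq, land_eq, Nat.testBit_or, Nat.testBit_and, Bool.or_eq_true,
      Bool.and_eq_true, nsX, nsY, ntX, ntY, bsX, bsY, btX, btY] at hi
    rcases hi with ⟨⟨u, v⟩, _, w⟩ | ⟨⟨u, w⟩, _, v⟩
    · push Not at v w
      obtain ⟨x, x1, x2⟩ := w u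
      exact ⟨x, v u x x1, x2⟩
    · push Not at v w
      obtain ⟨x, x1, x2⟩ := w u
      exact ⟨x, x2, v u x x1⟩
  have witA : ∀ i, wA.testBit i = true → ∃ x ∈ Z i, x ∈ X ∧ x ∉ Y := fun i hi => by
    simp only [hwA, lor_eq, land_eq, Nat.testBit_or, Nat.testBit_and, Bool.or_eq_true,
      Bool.and_eq_true, nsY, ntY, bsX, bsY, btX, btY] at hi
    rcases hi with ⟨⟨u, x, x1, x2⟩, _, v⟩ | ⟨⟨u, w⟩, _, v⟩
    · push Not at v; exact ⟨x, x1, x2, v u x x1⟩
    · push Not at v; obtain ⟨x, x1, x2⟩ := v u; exact ⟨x, x1, w x x1, x2⟩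
  have witB : ∀ i, wB.testBit i = true → ∃ x ∈ Z i, x ∈ Y ∧ x ∉ X := fun i hi => by
    simp only [hwB, lor_eq, land_eq, Nat.testBit_or, Nat.testBit_and, Bool.or_eq_true,
      Bool.and_eq_true, nsX, ntX, bsX, bsY, btX, btY] at hi
    rcases hi with ⟨⟨u, x, x1, x2⟩, _, v⟩ | ⟨⟨u, w⟩, _, v⟩
    · push Not at v; exact ⟨x, x1, x2, v u x x1⟩
    · push Not at v; obtain ⟨x, x1, x2⟩ := v u; exact ⟨x, x1, w x x1, x2⟩
  obtain ⟨L, l1, l2, l3⟩ := bonus_spec wA wB E
  have hsup := h.sup X Y p q L hp1 hp2 hq1 hq2 l1 (fun e he => by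
    rcases l3 e he with ⟨u, v⟩ | ⟨u, v⟩
    · obtain ⟨x, x1, x2, x3⟩ := witA _ u
      obtain ⟨y, y1, y2, y3⟩ := witB _ v
      exact ⟨x, x1, y, y1, Or.inl ⟨x2, x3, y2, y3⟩⟩
    · obtain ⟨x, x1, x2, x3⟩ := witB _ u
      obtain ⟨y, y1, y2, y3⟩ := witA _ v
      exact ⟨x, x1, y, y1, Or.inr ⟨x2, x3, y2, y3⟩⟩)
  have hc : c ≤ a + b + 2 * bonus wA wB E + 1 := Nat.le_of_ble_eq_true h3
  have hund : ∀ i, i < n → (∃ x ∈ Z i, x ∈ X) → (∃ x ∈ Z i, x ∈ Y) → (¬ ∀ x ∈ Z i, x ∈ X) →
      (¬ ∀ x ∈ Z i, x ∈ Y) → (Nat.land (Nat.land sX sY)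
        (Nat.land (Nat.xor F tX) (Nat.xor F tY))).testBit i = true ∧ np ≤ i ∧ i < np + r := by
    intro i hi u1 u2 u3 u4
    refine ⟨?_, ?_, hi⟩
    · simp only [land_eq, Nat.testBit_and, Bool.and_eq_true, ntX, ntY, bsX, bsY, btX, btY]
      exact ⟨⟨⟨hi, u1⟩, hi, u2⟩, ⟨hi, fun hh => u3 hh.2⟩, hi, fun hh => u4 hh.2⟩
    · by_contra hlt
      obtain ⟨x, x1, x2⟩ := u1
      exact u3 (fun y hy => by rw [← h.pt i (by omega) x x1 y hy]; exact x2)
  have ltb : ∀ m : ℕ, (∀ i, m.testBit i = true → i < n) → m < 2 ^ (np + r) := fun m hm => by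
    apply Nat.lt_pow_two_of_testBit
    intro i hi
    cases hb : m.testBit i
    · rfl
    · have := hm i hb; omega
  apply Holds.lor_right
  by_cases hI : lo + c ≤ f (X ∩ Y)
  · apply Holds.lor_left
    obtain ⟨s, t, hs, _, hA⟩ := exists_abs (np + r) Z (X ∩ Y)
    have hA' : Abs (np + r) Z (X ∩ Y) s (Nat.land tX tY) := fun i hi => ⟨(hA i hi).1, by
      simp only [land_eq, Nat.testBit_and, Bool.and_eq_true, btX, btY, mem_inter]
      constructor
      · rintro ⟨⟨_, u⟩, _, v⟩ x hx; exact ⟨u x hx, v x hx⟩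
      · intro u; exact ⟨⟨hi, fun x hx => (u x hx).1⟩, hi, fun x hx => (u x hx).2⟩⟩
    obtain ⟨l, m1, m2⟩ := h.posLit_holds hs (ltb _ (fun i hi => by
      simp only [land_eq, Nat.testBit_and, Bool.and_eq_true, btX] at hi; exact hi.1.1)) hA' hI
    refine ⟨l, testBit_orSubs _ _ _ _ _ _ s (fun i hi => ?_) (fun i hi => ?_) m1, m2⟩
    · simp only [lor_eq, land_eq, Nat.testBit_or, Nat.testBit_and, Bool.or_eq_true,
        Bool.and_eq_true, bsX, bsY, btX, btY] at hi
      rcases hi with ⟨⟨u0, u⟩, _, x, v, w⟩ | ⟨⟨u0, x, v, w⟩, _, u⟩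
      · exact (hA i u0).1.2 ⟨x, v, mem_inter.2 ⟨u x v, w⟩⟩
      · exact (hA i u0).1.2 ⟨x, v, mem_inter.2 ⟨w, u x v⟩⟩
    · have hi' : i < n := by
        by_contra hc'
        rw [testBit_false_of_lt hs (by omega)] at hi; simp at hi
      obtain ⟨x, x1, x2⟩ := (hA i hi').1.1 hi
      obtain ⟨x2, x3⟩ := mem_inter.1 x2
      by_cases u3 : ∀ x ∈ Z i, x ∈ X
      · left
        simp only [lor_eq, land_eq, Nat.testBit_or, Nat.testBit_and, Bool.or_eq_true,
          Bool.and_eq_true, bsX, bsY, btX, btY]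
        exact Or.inl ⟨⟨hi', u3⟩, hi', x, x1, x3⟩
      by_cases u4 : ∀ x ∈ Z i, x ∈ Y
      · left
        simp only [lor_eq, land_eq, Nat.testBit_or, Nat.testBit_and, Bool.or_eq_true,
          Bool.and_eq_true, bsX, bsY, btX, btY]
        exact Or.inr ⟨⟨hi', x, x1, x2⟩, hi', u4⟩
      exact Or.inr (hund i hi' ⟨x, x1, x2⟩ ⟨x, x1, x3⟩ u3 u4)
  · apply Holds.lor_right
    obtain ⟨s, t, _, ht, hA⟩ := exists_abs (np + r) Z (X ∪ Y)
    have hA' : Abs (np + r) Z (X ∪ Y) (Nat.lor sX sY) t := fun i hi => ⟨by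
      simp only [lor_eq, Nat.testBit_or, Bool.or_eq_true, bsX, bsY, mem_union]
      constructor
      · rintro (⟨_, x, u, v⟩ | ⟨_, x, u, v⟩)
        · exact ⟨x, u, Or.inl v⟩
        · exact ⟨x, u, Or.inr v⟩
      · rintro ⟨x, u, v | v⟩
        · exact Or.inl ⟨hi, x, u, v⟩
        · exact Or.inr ⟨hi, x, u, v⟩, (hA i hi).2⟩
    have hU : lo + ((Nat.sub (Nat.succ (Nat.add (Nat.add a b) (Nat.mul 2 (bonus wA wB E)))) c : ℕ)
        : ℤ) ≤ f (X ∪ Y) := by
      change lo + ((a + b + 2 * bonus wA wB E + 1 - c : ℕ) : ℤ) ≤ _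
      rw [l2] at hsup
      omega
    obtain ⟨l, m1, m2⟩ := h.posLit_holds (ltb _ (fun i hi => by
      simp only [lor_eq, Nat.testBit_or, Bool.or_eq_true, bsX, bsY] at hi
      rcases hi with hi | hi <;> exact hi.1)) ht hA' hU
    refine ⟨l, testBit_orSubs _ _ _ _ _ _ t (fun i hi => ?_) (fun i hi => ?_) m1, m2⟩
    · simp only [lor_eq, Nat.testBit_or, Bool.or_eq_true, btX, btY] at hi
      rcases hi with ⟨u0, u⟩ | ⟨u0, u⟩
      · exact (hA i u0).2.2 (fun x hx => mem_union_left _ (u x hx))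
      · exact (hA i u0).2.2 (fun x hx => mem_union_right _ (u x hx))
    · have hi' : i < n := by
        by_contra hc'
        rw [testBit_false_of_lt ht (by omega)] at hi; simp at hi
      have hall := (hA i hi').2.1 hi
      by_cases u3 : ∀ x ∈ Z i, x ∈ X
      · left
        simp only [lor_eq, Nat.testBit_or, Bool.or_eq_true, btX, btY]
        exact Or.inl ⟨hi', u3⟩
      by_cases u4 : ∀ x ∈ Z i, x ∈ Y
      · left
        simp only [lor_eq, Nat.testBit_or, Bool.or_eq_true, btX, btY]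
        exact Or.inr ⟨hi', u4⟩
      refine Or.inr (hund i hi' ?_ ?_ u3 u4)
      · push Not at u4
        obtain ⟨x, x1, x2⟩ := u4
        exact ⟨x, x1, (mem_union.1 (hall x x1)).resolve_right x2⟩
      · push Not at u3
        obtain ⟨x, x1, x2⟩ := u3
        exact ⟨x, x1, (mem_union.1 (hall x x1)).resolve_left x2⟩

end

/-- read `n` variables (16 bits each), producing the list of decoded atoms and the clause of
their negations -/
noncomputable def rdAtoms (np n D V : ℕ) (k : ℕ → List (ℕ × ℕ × ℕ) → ℕ → Bool) (m : ℕ) :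
    ℕ → List (ℕ × ℕ × ℕ) → ℕ → Bool :=
  Nat.rec (motive := fun _ => ℕ → List (ℕ × ℕ × ℕ) → ℕ → Bool) (fun s L C => k s L C)
    (fun _ ih s L C =>
      force (Nat.land s 65535) fun v =>
      ite' (Nat.ble V v) false <|
      force (Nat.div v D) fun c => force (sm n c) fun a => force (tm np n c) fun b =>
      force (Nat.mod v D) fun l =>
      force (Nat.lor C (Nat.pow 2 (Nat.add v V))) fun C' =>
      force (Nat.shiftRight s 16) fun s' => ih s' ((a, b, l) :: L) C') m

/-- the axiom generator: kinds `0` monotonicity, `1` crossing, `2` existential, `3` forbidden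
tuple -/
noncomputable def axGen (np r D : ℕ) (E : List (ℕ × ℕ)) (exOK : ℕ → Bool) (ex : ℕ → ℕ → ℕ → ℕ)
    (mvOK : ℕ → Bool) (mvx : ℕ → ℕ)
    (ng : List (ℕ × ℕ × ℕ) → Bool) (j s : ℕ) (k : ℕ → ℕ → Bool) : Bool :=
  ite' (Nat.beq j 1)
    (force (Nat.land s 65535) fun cX =>
      force (Nat.land (Nat.shiftRight s 16) 65535) fun cY =>
      force (Nat.land (Nat.shiftRight s 32) 255) fun a =>
      force (Nat.land (Nat.shiftRight s 40) 255) fun b =>
      force (Nat.land (Nat.shiftRight s 48) 255) fun c =>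
      crossAx np r D E cX cY a b c (k (Nat.shiftRight s 56))) <|
  ite' (Nat.beq j 0)
    (force (Nat.land s 65535) fun v => force (nvars np r D) fun V =>
      ite' (Nat.ble V (Nat.succ v)) false <|
      ite' (Nat.beq (Nat.mod (Nat.succ v) D) 0) false <|
      k (Nat.shiftRight s 16) (Nat.lor (Nat.pow 2 v) (Nat.pow 2 (Nat.add (Nat.succ v) V)))) <|
  ite' (Nat.beq j 2)
    (force (Nat.land s 4294967295) fun i => force (Nat.add np r) fun n =>
      ite' (exOK i) (k (Nat.shiftRight s 32)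
        (orLoop (fun c => force (sm n c) fun a => force (tm np n c) fun b =>
            Nat.rec 0 (fun e _ => ite' (Nat.ble D e) 0
              (Nat.pow 2 (Nat.add (Nat.mul c D) e))) (ex i a b))
          (Nat.pow 2 (Nat.add n r)) (tag 0 (Nat.shiftLeft (Nat.add i 1) 24)))) false) <|
  ite' (Nat.beq j 4)
    (force (Nat.land s 65535) fun i => ite' (mvOK i) (k (Nat.shiftRight s 16) (mvx i)) false) <|
  force (Nat.add np r) fun n => force (nvars np r D) fun V =>
    rdAtoms np n D V (fun s' L C => ite' (ng L) (k s' C) false)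
      (Nat.land s 65535) (Nat.shiftRight s 16) [] 0

/-- mask of the forbidden atoms -/
noncomputable def forbid (np r D : ℕ) (bnd : ℕ → ℕ → ℕ) : ℕ :=
  force (Nat.add np r) fun n =>
  orLoop (fun c => force (sm n c) fun a => force (tm np n c) fun b =>
    Nat.shiftLeft (Nat.sub (Nat.pow 2 D) (Nat.pow 2 (bnd a b))) (Nat.mul c D))
    (Nat.pow 2 (Nat.add n r)) 0

/-- the complete checker -/
noncomputable def refute (np r D : ℕ) (E : List (ℕ × ℕ)) (bnd : ℕ → ℕ → ℕ) (exOK : ℕ → Bool)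
    (ex : ℕ → ℕ → ℕ → ℕ) (mvOK : ℕ → Bool) (mvx : ℕ → ℕ) (ng : List (ℕ × ℕ × ℕ) → Bool)
    (L : List ℕ) : Bool :=
  check (nvars np r D) (forbid np r D bnd) (axGen np r D E exOK ex mvOK mvx ng) L

section
variable {np r D : ℕ} {Z : ℕ → Finset W} {f : Finset W → ℤ} {lo : ℤ} {E : List (ℕ × ℕ)}

theorem rdAtoms_ok (V : ℕ) (k : ℕ → List (ℕ × ℕ × ℕ) → ℕ → Bool) :
    ∀ (m s : ℕ) (L : List (ℕ × ℕ × ℕ)) (C : ℕ),
    (Holds V (sem np (np + r) D Z f lo) C ∨
      ∀ x ∈ L, ∃ X, Abs (np + r) Z X x.1 x.2.1 ∧ lo + x.2.2 ≤ f X) →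
    rdAtoms np (np + r) D V k m s L C = true → ∃ s' L' C',
      (Holds V (sem np (np + r) D Z f lo) C' ∨
        ∀ x ∈ L', ∃ X, Abs (np + r) Z X x.1 x.2.1 ∧ lo + x.2.2 ≤ f X) ∧ k s' L' C' = true := by
  intro m
  induction m with
  | zero => intro s L C h1 h2; exact ⟨s, L, C, h1, h2⟩
  | succ m ih =>
    intro s L C h1 h2
    change (force (Nat.land s 65535) fun v =>
      ite' (Nat.ble V v) false <|
      force (Nat.div v D) fun c => force (sm (np + r) c) fun a =>
      force (tm np (np + r) c) fun b =>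
      force (Nat.mod v D) fun l =>
      force (Nat.lor C (Nat.pow 2 (Nat.add v V))) fun C' =>
      force (Nat.shiftRight s 16) fun s' =>
        rdAtoms np (np + r) D V k m s' ((a, b, l) :: L) C') = true at h2
    simp only [force_eq] at h2
    generalize Nat.land s 65535 = v at h2
    cases hb : Nat.ble V v
    swap
    · rw [hb] at h2; simp at h2
    rw [hb, ite'_false] at h2
    refine ih _ _ _ ?_ h2
    rcases h1 with h1 | h1
    · exact Or.inl (h1.lor_left _)
    by_cases g : sem np (np + r) D Z f lo v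
    · right
      intro x hx
      rcases List.mem_cons.1 hx with rfl | hx
      · exact g
      · exact h1 x hx
    · exact Or.inl ((holds_pow (lit_neg (lt_of_ble_false hb) g)).lor_right _)

theorem Setup.refute (h : Setup np r D Z f lo E) {bnd : ℕ → ℕ → ℕ} {exOK : ℕ → Bool}
    {ex : ℕ → ℕ → ℕ → ℕ} {mvOK : ℕ → Bool} {mvx : ℕ → ℕ} {ng : List (ℕ × ℕ × ℕ) → Bool}
    (hb : ∀ X s t, Abs (np + r) Z X s t → f X < lo + bnd s t)
    (hex : ∀ i, exOK i = true → ∃ X, ∀ s t, Abs (np + r) Z X s t →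
      ∃ e, ex i s t = e + 1 ∧ lo + e ≤ f X)
    (hmv : ∀ i, mvOK i = true → ∃ X, ∀ c < 2 ^ (np + r + r),
      Abs (np + r) Z X (sm (np + r) c) (tm np (np + r) c) →
      ∃ e : ℕ, lo + e ≤ f X ∧ (mvx i).testBit (c * D + e) = true)
    (hng : ∀ L, ng L = true →
      ¬ ∀ x ∈ L, ∃ X, Abs (np + r) Z X x.1 x.2.1 ∧ lo + x.2.2 ≤ f X)
    (L : List ℕ) (hL : refute np r D E bnd exOK ex mvOK mvx ng L = true) : False := by
  refine check_ok (σ := sem np (np + r) D Z f lo) ?_ ?_ ?_ L hL
  · change 0 < 2 ^ (np + r + r) * D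
    exact Nat.mul_pos (by positivity) h.pos
  · intro l hl
    unfold forbid at hl
    rw [force_eq, testBit_orLoop] at hl
    rcases hl with hl | ⟨c, hc, hl⟩
    · simp [hi] at hl
    simp only [force_eq, shl_eq, sub_eq, pow_eq, mul_eq, Nat.testBit_shiftLeft,
      Bool.and_eq_true, decide_eq_true_eq] at hl
    obtain ⟨l1, l2⟩ := hl
    set β := bnd (sm (Nat.add np r) c) (tm np (Nat.add np r) c) with hβ
    have l3 : l - c * D < D := by
      by_contra hh
      rw [testBit_false_of_lt (show 2 ^ D - 2 ^ β < 2 ^ D from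
        Nat.sub_lt (by positivity) (by positivity)) (by omega)] at l2
      simp at l2
    have l4 : β ≤ l - c * D := by
      by_contra hh
      have hβD : β < D := by
        by_contra h5
        rw [Nat.sub_eq_zero_of_le (Nat.pow_le_pow_right (by norm_num) (by omega))] at l2
        simp at l2
      have : 2 ^ D - 2 ^ β = 2 ^ β * (2 ^ (D - β) - 1) := by
        rw [Nat.mul_sub, ← Nat.pow_add, Nat.add_sub_cancel' hβD.le]; simp
      rw [this, Nat.testBit_two_pow_mul] at l2
      simp at l2; omega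
    have e : l = Nat.add (Nat.mul c D) (l - c * D) := by
      change l = c * D + (l - c * D); omega
    rintro (⟨_, g⟩ | ⟨g, _⟩)
    · rw [e] at g
      obtain ⟨X, x1, x2⟩ := sem_code h.pos l3 g
      have := hb X _ _ x1
      change f X < lo + (β : ℤ) at this
      omega
    · change 2 ^ (np + r + r) * D ≤ l at g
      have : (c + 1) * D ≤ 2 ^ (np + r + r) * D := Nat.mul_le_mul_right _ hc
      rw [Nat.add_mul] at this
      omega
  · intro j s k hk
    unfold axGen at hk
    cases j1 : Nat.beq j 1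
    swap
    · rw [j1, ite'_true] at hk
      simp only [force_eq] at hk
      obtain ⟨C, c1, c2⟩ := h.cross_ok _ _ _ _ _ _ hk
      exact ⟨_, C, c1, c2⟩
    rw [j1, ite'_false] at hk
    cases j0 : Nat.beq j 0
    swap
    · rw [j0, ite'_true] at hk
      simp only [force_eq] at hk
      generalize Nat.land s 65535 = v at hk
      cases h1 : Nat.ble (nvars np r D) (Nat.succ v)
      swap
      · rw [h1] at hk; simp at hk
      rw [h1, ite'_false] at hk
      cases h2 : Nat.beq (Nat.mod (Nat.succ v) D) 0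
      swap
      · rw [h2] at hk; simp at hk
      rw [h2, ite'_false] at hk
      refine ⟨_, _, ?_, hk⟩
      have hv := lt_of_ble_false h1
      by_cases g : sem np (np + r) D Z f lo (Nat.succ v)
      · refine (holds_pow (Or.inl ⟨by omega, ?_⟩)).lor_left _
        obtain ⟨X, x1, x2⟩ := g
        have h3 : (v + 1) % D ≠ 0 := fun hh => by
          change Nat.beq ((v + 1) % D) 0 = false at h2
          rw [hh] at h2; simp at h2
        have h4 : (v + 1) / D = v / D := by
          rw [Nat.succ_div]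
          have : ¬ D ∣ v + 1 := fun hd => h3 (Nat.mod_eq_zero_of_dvd hd)
          simp [this]
        have h5 := Nat.div_add_mod (v + 1) D
        have h6 := Nat.div_add_mod v D
        rw [h4] at h5
        refine ⟨X, ?_, ?_⟩
        · change Abs _ _ _ (sm _ ((v + 1) / D)) (tm _ _ ((v + 1) / D)) at x1
          rwa [h4] at x1
        · change lo + (((v + 1) % D : ℕ) : ℤ) ≤ f X at x2
          omega
      · exact (holds_pow (lit_neg hv g)).lor_right _
    rw [j0, ite'_false] at hk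
    cases j2 : Nat.beq j 2
    swap
    · rw [j2, ite'_true] at hk
      simp only [force_eq] at hk
      generalize Nat.land s 4294967295 = i at hk
      cases h1 : exOK i
      · rw [h1] at hk; simp at hk
      rw [h1, ite'_true] at hk
      refine ⟨_, _, ?_, hk⟩
      obtain ⟨X, hX⟩ := hex i h1
      obtain ⟨a, b, ha, hb', hA⟩ := exists_abs (np + r) Z X
      have hA' := h.abs_mkc ha hA
      obtain ⟨e, e1, e2⟩ := hX _ _ hA'
      have hl : e < D := by have := h.top X; omega
      have hlit := h.lit_code (mkc_lt ha hb') hA' hl e2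
      refine ⟨_, (testBit_orLoop _ _ _ _).2 (Or.inr ⟨mkc np (np + r) a b, mkc_lt ha hb', ?_⟩), hlit⟩
      change (Nat.rec 0 (fun e _ => ite' (Nat.ble D e) 0
        (Nat.pow 2 (Nat.add (Nat.mul (mkc np (np + r) a b) D) e)))
        (ex i (sm (np + r) (mkc np (np + r) a b)) (tm np (np + r) (mkc np (np + r) a b))) : ℕ).testBit
          _ = true
      rw [e1]
      change (ite' (Nat.ble D e) 0
        (Nat.pow 2 (Nat.add (Nat.mul (mkc np (np + r) a b) D) e))).testBit _ = true
      have : Nat.ble D e = false := by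
        cases hb : Nat.ble D e
        · rfl
        · have := Nat.le_of_ble_eq_true hb; omega
      rw [this, ite'_false, pow_eq, Nat.testBit_two_pow]; simp
    rw [j2, ite'_false] at hk
    cases j4 : Nat.beq j 4
    swap
    · rw [j4, ite'_true] at hk
      simp only [force_eq] at hk
      generalize Nat.land s 65535 = i at hk
      cases h1 : mvOK i
      · rw [h1] at hk; simp at hk
      rw [h1, ite'_true] at hk
      refine ⟨_, _, ?_, hk⟩
      obtain ⟨X, hX⟩ := hmv i h1
      obtain ⟨a, b, ha, hb', hA⟩ := exists_abs (np + r) Z X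
      have hA' := h.abs_mkc ha hA
      obtain ⟨e, e1, e2⟩ := hX _ (mkc_lt ha hb') hA'
      have hl : e < D := by have := h.top X; omega
      exact ⟨_, e2, h.lit_code (mkc_lt ha hb') hA' hl e1⟩
    rw [j4, ite'_false] at hk
    simp only [force_eq] at hk
    obtain ⟨s', L', C', c1, c2⟩ := rdAtoms_ok (Z := Z) (f := f) (lo := lo) _ _ _ _ _ _
      (Or.inr (by simp)) hk
    cases h1 : ng L'
    · rw [h1] at c2; simp at c2
    rw [h1, ite'_true] at c2
    exact ⟨s', C', c1.resolve_right (hng L' h1), c2⟩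

end

/-- bit `c * D` is set for all `c < 2 ^ m` -/
noncomputable def allM (D m : ℕ) : ℕ :=
  Nat.rec 1 (fun j ih => Nat.lor ih (Nat.shiftLeft ih (Nat.mul D (Nat.pow 2 j)))) m

/-- bit `c * D` is set iff bit `i` of `c` is set -/
noncomputable def bitM (D i m : ℕ) : ℕ :=
  Nat.rec 0 (fun j ih => ite' (Nat.beq j i) (Nat.shiftLeft (allM D j) (Nat.mul D (Nat.pow 2 j)))
    (Nat.lor ih (Nat.shiftLeft ih (Nat.mul D (Nat.pow 2 j))))) m

theorem allM_succ (D j : ℕ) : allM D (j + 1) = allM D j ||| (allM D j <<< (D * 2 ^ j)) := rfl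

theorem bitM_succ (D i j : ℕ) : bitM D i (j + 1) = ite' (Nat.beq j i) (allM D j <<< (D * 2 ^ j))
    (bitM D i j ||| (bitM D i j <<< (D * 2 ^ j))) := rfl

theorem allM_high {D : ℕ} (hD : 0 < D) (m : ℕ) : ∀ l, D * 2 ^ m ≤ l →
    (allM D m).testBit l = false := by
  induction m with
  | zero =>
    intro l hl
    change Nat.testBit 1 l = false
    exact testBit_false_of_lt (n := 1) (by norm_num) (by simp at hl; omega)
  | succ m ih =>
    intro l hl
    rw [allM_succ, Nat.testBit_or, Nat.testBit_shiftLeft, ih l (by rw [pow_succ, ← Nat.mul_assoc] at hl; omega),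
      ih _ (by rw [pow_succ, ← Nat.mul_assoc] at hl; omega)]
    simp

theorem allM_bit {D : ℕ} (m : ℕ) : ∀ c < 2 ^ m, (allM D m).testBit (c * D) = true := by
  induction m with
  | zero => intro c hc; have : c = 0 := by omega
            subst this; simp [allM]
  | succ m ih =>
    intro c hc
    rw [allM_succ, Nat.testBit_or, Nat.testBit_shiftLeft]
    by_cases h : c < 2 ^ m
    · rw [ih c h]; rfl
    · obtain ⟨c', rfl⟩ : ∃ c', c = 2 ^ m + c' := ⟨c - 2 ^ m, by omega⟩
      rw [show (2 ^ m + c') * D - D * 2 ^ m = c' * D by rw [Nat.add_mul, Nat.mul_comm D]; omega,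
        ih c' (by rw [pow_succ] at hc; omega)]
      have : (2 ^ m + c') * D ≥ D * 2 ^ m := by rw [Nat.add_mul, Nat.mul_comm D]; omega
      simp [this]

theorem bitM_high {D : ℕ} (hD : 0 < D) (i m : ℕ) : ∀ l, D * 2 ^ m ≤ l →
    (bitM D i m).testBit l = false := by
  induction m with
  | zero => intro l _; simp [bitM]
  | succ m ih =>
    intro l hl
    rw [bitM_succ]
    cases Nat.beq m i
    · rw [ite'_false, Nat.testBit_or, Nat.testBit_shiftLeft,
        ih l (by rw [pow_succ, ← Nat.mul_assoc] at hl; omega), ih _ (by rw [pow_succ, ← Nat.mul_assoc] at hl; omega)]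
      simp
    · rw [ite'_true, Nat.testBit_shiftLeft, allM_high hD _ _ (by rw [pow_succ, ← Nat.mul_assoc] at hl; omega)]
      simp

theorem bitM_bit {D : ℕ} (hD : 0 < D) (i m : ℕ) : ∀ c < 2 ^ m,
    (bitM D i m).testBit (c * D) = c.testBit i := by
  induction m with
  | zero => intro c hc; have : c = 0 := by omega
            subst this; simp [bitM]
  | succ m ih =>
    intro c hc
    rw [bitM_succ]
    by_cases h : c < 2 ^ m
    · have hlt : ¬ c * D ≥ D * 2 ^ m := by
        have := Nat.mul_lt_mul_of_pos_right h hD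
        rw [Nat.mul_comm D]; omega
      cases hb : Nat.beq m i
      · rw [ite'_false, Nat.testBit_or, Nat.testBit_shiftLeft, ih c h]; simp [hlt]
      · rw [ite'_true, Nat.testBit_shiftLeft, ← Nat.eq_of_beq_eq_true hb,
          Nat.testBit_lt_two_pow h]
        simp [hlt]
    · obtain ⟨c', rfl⟩ : ∃ c', c = 2 ^ m + c' := ⟨c - 2 ^ m, by omega⟩
      have hc' : c' < 2 ^ m := by rw [pow_succ] at hc; omega
      have e1 : (2 ^ m + c') * D - D * 2 ^ m = c' * D := by
        rw [Nat.add_mul, Nat.mul_comm D]; omega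
      have e2 : (2 ^ m + c') * D ≥ D * 2 ^ m := by rw [Nat.add_mul, Nat.mul_comm D]; omega
      cases hb : Nat.beq m i
      · have hne : m ≠ i := fun hx => by rw [hx] at hb; simp at hb
        rw [ite'_false, Nat.testBit_or, Nat.testBit_shiftLeft, e1, ih c' hc', bitM_high hD _ _ _ e2]
        rcases Nat.lt_or_gt_of_ne hne with hh | hh
        · rw [testBit_false_of_lt hc' hh.le, testBit_false_of_lt hc hh]; simp
        · rw [Nat.testBit_two_pow_add_gt hh]; simp [e2]
      · rw [ite'_true, Nat.testBit_shiftLeft, e1, allM_bit _ _ hc', ← Nat.eq_of_beq_eq_true hb,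
          Nat.testBit_two_pow_add_eq, Nat.testBit_lt_two_pow hc']
        simp [e2]

end Pool.Agent.CSG.Rup

end

-- part MP_305420_co.Cert
section

/-! Problem layer for the trace checker: patterns, blocked matchings, forbidden tuples. -/

set_option linter.unusedSectionVars false

namespace Pool.Agent.CSG

open Finset Rup

variable {V : Type*} [Fintype V] [DecidableEq V]

/-- edges joining the two differences -/
def sepE (e : V × V) (X Y : Finset V) : Prop :=
  (e.1 ∈ X ∧ e.1 ∉ Y ∧ e.2 ∈ Y ∧ e.2 ∉ X) ∨ (e.1 ∈ Y ∧ e.1 ∉ X ∧ e.2 ∈ X ∧ e.2 ∉ Y)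

theorem cut_sepE {e : V × V} {X Y : Finset V} (h : sepE e X Y) :
    cut e (X ∩ Y) + cut e (X ∪ Y) + 2 ≤ cut e X + cut e Y := by
  unfold cut
  rcases h with ⟨h1, h2, h3, h4⟩ | ⟨h1, h2, h3, h4⟩ <;> simp [h1, h2, h3, h4]

theorem dG_bonus {G H : Multiset (V × V)} (hH : H ≤ G) {X Y : Finset V}
    (h : ∀ e ∈ H, sepE e X Y) :
    dG G (X ∩ Y) + dG G (X ∪ Y) + 2 * Multiset.card H ≤ dG G X + dG G Y := by
  obtain ⟨K, rfl⟩ := Multiset.le_iff_exists_add.1 hH
  have h1 := dG_submod K X Y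
  have h2 : dG H (X ∩ Y) + dG H (X ∪ Y) + 2 * Multiset.card H ≤ dG H X + dG H Y := by
    clear hH h1
    induction H using Multiset.induction_on with
    | empty => simp
    | cons e H ih =>
      have a1 := cut_sepE (h e (Multiset.mem_cons_self _ _))
      have a2 := ih (fun x hx => h x (Multiset.mem_cons_of_mem hx))
      simp only [dG_cons, Multiset.card_cons]
      push_cast
      omega
  simp only [dG_add]
  omega

/-- supermodularity of the residual demand, with the bonus of separated edges -/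
theorem CS.rs_bonus {p : Finset V → ℤ} (hp : CS p) {G H : Multiset (V × V)} (hH : H ≤ G)
    {X Y : Finset V} {a d : V} (ha : a ∈ X) (ha' : a ∈ Y) (hd : d ∉ X) (hd' : d ∉ Y)
    (h : ∀ e ∈ H, sepE e X Y) :
    rs p G X + rs p G Y + 2 * Multiset.card H ≤ rs p G (X ∩ Y) + rs p G (X ∪ Y) := by
  have h1 := hp.super ha ha' hd hd'
  have h2 := dG_bonus hH h
  unfold rs
  omega

theorem CS.rs_super {p : Finset V → ℤ} (hp : CS p) (G : Multiset (V × V))
    {X Y : Finset V} {a d : V} (ha : a ∈ X) (ha' : a ∈ Y) (hd : d ∉ X) (hd' : d ∉ Y) :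
    rs p G X + rs p G Y ≤ rs p G (X ∩ Y) + rs p G (X ∪ Y) := by
  have := hp.rs_bonus (Multiset.zero_le G) ha ha' hd hd' (by simp)
  simpa using this

/-- a pattern: named sets contained in, disjoint from, met by, not contained in the set;
and a level -/
structure Pat where
  inc : List ℕ
  exc : List ℕ
  tch : List ℕ
  nal : List ℕ
  lev : ℕ

def Pat.Fits (Z : ℕ → Finset V) (P : Pat) (X : Finset V) : Prop :=
  (∀ i ∈ P.inc, ∀ x ∈ Z i, x ∈ X) ∧ (∀ i ∈ P.exc, ∀ x ∈ Z i, x ∉ X) ∧
  (∀ i ∈ P.tch, ∃ x ∈ Z i, x ∈ X) ∧ (∀ i ∈ P.nal, ∃ x ∈ Z i, x ∉ X)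

noncomputable def allB (g : ℕ → Bool) (L : List ℕ) : Bool :=
  List.rec true (fun i _ ih => ite' (g i) ih false) L

theorem allB_iff (g : ℕ → Bool) (L : List ℕ) : allB g L = true ↔ ∀ i ∈ L, g i = true := by
  induction L with
  | nil => simp [allB]
  | cons i L ih =>
    change ite' (g i) (allB g L) false = true ↔ _
    cases h : g i <;> simp [h, ih]

noncomputable def nb (s i : ℕ) : Bool := ite' (tb s i) false true

theorem nb_iff (s i : ℕ) : nb s i = true ↔ ¬ s.testBit i = true := by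
  unfold nb; rw [tb_eq]; cases s.testBit i <;> simp

noncomputable def Pat.hit (P : Pat) (s t : ℕ) : Bool :=
  ite' (allB (tb t) P.inc) (ite' (allB (nb s) P.exc) (ite' (allB (tb s) P.tch)
    (allB (nb t) P.nal) false) false) false

def Pat.ok (n : ℕ) (P : Pat) : Prop :=
  (∀ i ∈ P.inc, i < n) ∧ (∀ i ∈ P.exc, i < n) ∧ (∀ i ∈ P.tch, i < n) ∧ (∀ i ∈ P.nal, i < n)

instance (n : ℕ) (P : Pat) : Decidable (P.ok n) := by unfold Pat.ok; infer_instance

theorem Pat.hit_iff {n : ℕ} {Z : ℕ → Finset V} {X : Finset V} {s t : ℕ} (hX : Abs n Z X s t)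
    {P : Pat} (hP : P.ok n) : P.hit s t = true ↔ P.Fits Z X := by
  obtain ⟨o1, o2, o3, o4⟩ := hP
  have e : P.hit s t = true ↔ (allB (tb t) P.inc = true ∧ allB (nb s) P.exc = true ∧
      allB (tb s) P.tch = true ∧ allB (nb t) P.nal = true) := by
    unfold Pat.hit
    cases allB (tb t) P.inc <;> cases allB (nb s) P.exc <;> cases allB (tb s) P.tch <;> simp
  rw [e]
  simp only [allB_iff, nb_iff, tb_eq, Pat.Fits]
  refine and_congr (forall₂_congr fun i hi => (hX i (o1 i hi)).2)
    (and_congr (forall₂_congr fun i hi => ?_) (and_congr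
      (forall₂_congr fun i hi => (hX i (o3 i hi)).1) (forall₂_congr fun i hi => ?_)))
  · rw [(hX i (o2 i hi)).1]; push Not; rfl
  · rw [(hX i (o4 i hi)).2]; push Not; rfl

/-- number of listed pairs cut by the mask -/
noncomputable def cutN (s : ℕ) (L : List (ℕ × ℕ)) : ℕ :=
  List.rec 0 (fun e _ ih => ite' (tb s e.1) (ite' (tb s e.2) ih (Nat.succ ih))
    (ite' (tb s e.2) (Nat.succ ih) ih)) L

/-- the multigraph of a list of index pairs -/
def gr (x : ℕ → V) (L : List (ℕ × ℕ)) : Multiset (V × V) :=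
  (L.map (fun e => (x e.1, x e.2)) : List (V × V))

theorem gr_cons (x : ℕ → V) (e : ℕ × ℕ) (L : List (ℕ × ℕ)) :
    gr x (e :: L) = (x e.1, x e.2) ::ₘ gr x L := rfl

theorem gr_le (x : ℕ → V) {L L' : List (ℕ × ℕ)} (h : L.Sublist L') : gr x L ≤ gr x L' :=
  Multiset.coe_le.2 (h.map _).subperm

theorem card_gr (x : ℕ → V) (L : List (ℕ × ℕ)) : Multiset.card (gr x L) = L.length := by
  simp [gr]

theorem cutN_eq (x : ℕ → V) (np s : ℕ) (X : Finset V)
    (h : ∀ i < np, (s.testBit i = true ↔ x i ∈ X)) (L : List (ℕ × ℕ))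
    (hL : ∀ e ∈ L, e.1 < np ∧ e.2 < np) : (cutN s L : ℤ) = dG (gr x L) X := by
  induction L with
  | nil => simp [cutN, gr]
  | cons e L ih =>
    have ih' := ih (fun y hy => hL y (List.mem_cons_of_mem _ hy))
    obtain ⟨h1, h2⟩ := hL e List.mem_cons_self
    have hb : cutN s (e :: L) = ite' (tb s e.1) (ite' (tb s e.2) (cutN s L) (Nat.succ (cutN s L)))
      (ite' (tb s e.2) (Nat.succ (cutN s L)) (cutN s L)) := rfl
    rw [hb, gr_cons, dG_cons, ← ih', tb_eq, tb_eq]
    have a1 := h _ h1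
    have a2 := h _ h2
    unfold cut
    cases b1 : s.testBit e.1 <;> cases b2 : s.testBit e.2 <;> simp_all <;> omega

/-- ends of a list of index pairs -/
def endsL (L : List (ℕ × ℕ)) : List ℕ := L.map Prod.fst ++ L.map Prod.snd

theorem ends_gr (x : ℕ → V) (L : List (ℕ × ℕ)) :
    ends (gr x L) = ((endsL L).map x : List V) := by
  simp [ends, gr, endsL, Function.comp_def]

/-- a legal rearrangement: remove the edges `m.1`, insert the pairs `m.2` -/
def MoveOK (np k : ℕ) (EN : List (ℕ × ℕ)) (m : List (ℕ × ℕ) × List (ℕ × ℕ)) : Prop :=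
  m.1.Sublist EN ∧ (endsL m.2).Perm (endsL m.1 ++ [0, 1, 2, 3]) ∧ m.1.length ≤ k + 1 ∧
    ∀ e ∈ m.2, e.1 < np ∧ e.2 < np

instance (np k : ℕ) (EN : List (ℕ × ℕ)) (m : List (ℕ × ℕ) × List (ℕ × ℕ)) :
    Decidable (MoveOK np k EN m) := by unfold MoveOK; infer_instance

/-- every complete rearrangement is blocked -/
theorem Cfg.blocked {p : Finset V → ℤ} {G : Multiset (V × V)} {a b c d : V}
    (h : Cfg p G a b c d) {H M : Multiset (V × V)} (hH : H ≤ G)
    (hM : ends M = ends H + {a, b, c, d}) :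
    ∃ X, dG M X - dG H X + 1 ≤ rs p G X := by
  obtain ⟨K, rfl⟩ := Multiset.le_iff_exists_add.1 hH
  by_contra hc
  push Not at hc
  refine h.uns ⟨K + M, ?_, fun X => ?_⟩
  · rw [ends_add, ends_add, hM]; abel
  · have := hc X
    simp only [rs, dG_add] at this ⊢
    omega

noncomputable def bndUB (s t : ℕ) (b : ℕ) (UB : List Pat) : ℕ :=
  List.rec b (fun P _ ih => ite' (P.hit s t) (ite' (Nat.ble P.lev ih) P.lev ih) ih) UB

noncomputable def bndF (n k : ℕ) (UB : List Pat) (s t : ℕ) : ℕ :=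
  ite' (Nat.beq (Nat.land (sm n t) s) (sm n t))
    (force (Nat.land s 15) fun q =>
      bndUB s t (ite' (Nat.beq q 0) (Nat.succ k)
        (ite' (Nat.beq q 15) (Nat.succ k) (Nat.succ (Nat.succ k)))) UB) 0

noncomputable def nthD {β : Type} (d : β) (L : List β) : ℕ → β :=
  List.rec (fun _ => d) (fun y _ ih i => Nat.rec y (fun j _ => ih j) i) L

theorem nthD_mem {β : Type} (d : β) (L : List β) : ∀ i < L.length, nthD d L i ∈ L := by
  induction L with
  | nil => simp
  | cons y L ih =>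
    intro i hi
    cases i with
    | zero => exact List.mem_cons_self
    | succ j => exact List.mem_cons_of_mem _ (ih j (by simpa using hi))

/-- lowest level of a pattern that is hit, plus one -/
noncomputable def exPat (s t : ℕ) (C : List Pat) : ℕ :=
  List.rec 0 (fun P _ ih => ite' (P.hit s t)
    (ite' (Nat.beq ih 0) (Nat.succ P.lev) (ite' (Nat.ble (Nat.succ P.lev) ih) (Nat.succ P.lev) ih))
    ih) C

theorem exPat_spec (s t : ℕ) (C : List Pat) (P : Pat) (hP : P ∈ C) (hh : P.hit s t = true) :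
    ∃ e, exPat s t C = e + 1 ∧ e ≤ P.lev := by
  induction C with
  | nil => simp at hP
  | cons Q C ih =>
    have hb : exPat s t (Q :: C) = ite' (Q.hit s t) (ite' (Nat.beq (exPat s t C) 0)
      (Nat.succ Q.lev) (ite' (Nat.ble (Nat.succ Q.lev) (exPat s t C)) (Nat.succ Q.lev)
        (exPat s t C))) (exPat s t C) := rfl
    rw [hb]
    rcases List.mem_cons.1 hP with rfl | hP
    · rw [hh, ite'_true]
      cases h0 : Nat.beq (exPat s t C) 0
      · rw [ite'_false]
        cases h1 : Nat.ble (Nat.succ P.lev) (exPat s t C)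
        · have := lt_of_ble_false h1
          have h2 : exPat s t C ≠ 0 := fun hx => by rw [hx] at h0; simp at h0
          exact ⟨exPat s t C - 1, by rw [ite'_false]; omega, by omega⟩
        · exact ⟨_, rfl, le_rfl⟩
      · exact ⟨_, rfl, le_rfl⟩
    · obtain ⟨e, e1, e2⟩ := ih hP
      rw [e1]
      cases Q.hit s t
      · exact ⟨e, rfl, e2⟩
      · rw [ite'_true]
        change ∃ e', ite' (Nat.ble (Nat.succ Q.lev) (e + 1)) (Nat.succ Q.lev) (e + 1) = e' + 1 ∧ _
        cases h1 : Nat.ble (Nat.succ Q.lev) (e + 1)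
        · exact ⟨e, rfl, e2⟩
        · have := Nat.le_of_ble_eq_true h1
          exact ⟨Q.lev, rfl, by omega⟩

noncomputable def exF (EX : List (List Pat)) (i s t : ℕ) : ℕ := exPat s t (nthD [] EX i)

/-- codes for which exactly `j` pairs of the list are cut -/
noncomputable def exM (D m : ℕ) (L : List (ℕ × ℕ)) : ℕ → ℕ :=
  List.rec (fun j => Nat.rec (allM D m) (fun _ _ => 0) j)
    (fun e _ ih j => Nat.lor
      (Nat.land (Nat.xor (allM D m) (Nat.xor (bitM D e.1 m) (bitM D e.2 m))) (ih j))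
      (Nat.rec 0 (fun j' _ => Nat.land (Nat.xor (bitM D e.1 m) (bitM D e.2 m)) (ih j')) j)) L

theorem exM_bit {D : ℕ} (hD : 0 < D) (m c : ℕ) (hc : c < 2 ^ m) (L : List (ℕ × ℕ)) :
    (exM D m L (cutN c L)).testBit (c * D) = true := by
  induction L with
  | nil => exact allM_bit m c hc
  | cons e L ih =>
    have hb : cutN c (e :: L) = ite' (tb c e.1) (ite' (tb c e.2) (cutN c L) (Nat.succ (cutN c L)))
      (ite' (tb c e.2) (Nat.succ (cutN c L)) (cutN c L)) := rfl
    have h0 : ∀ j, exM D m (e :: L) j = Nat.lor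
      (Nat.land (Nat.xor (allM D m) (Nat.xor (bitM D e.1 m) (bitM D e.2 m))) (exM D m L j))
      (Nat.rec 0 (fun j' _ => Nat.land (Nat.xor (bitM D e.1 m) (bitM D e.2 m)) (exM D m L j')) j) :=
      fun _ => rfl
    have b0 := allM_bit (D := D) m c hc
    have b1 := bitM_bit hD e.1 m c hc
    have b2 := bitM_bit hD e.2 m c hc
    rw [hb, h0, tb_eq, tb_eq]
    cases a1 : c.testBit e.1 <;> cases a2 : c.testBit e.2 <;>
      simp only [ite'_true, ite'_false, lor_eq, land_eq, xor_eq, Nat.testBit_or, Nat.testBit_and,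
        Nat.testBit_xor, b0, b1, b2, a1, a2, ih] <;> simp

/-- or of `g j` for `j < n` -/
noncomputable def orN (g : ℕ → ℕ) (n : ℕ) : ℕ := Nat.rec 0 (fun j ih => Nat.lor ih (g j)) n

theorem orN_bit (g : ℕ → ℕ) (l j : ℕ) (h : (g j).testBit l = true) :
    ∀ n, j < n → (orN g n).testBit l = true := by
  intro n
  induction n with
  | zero => intro h; omega
  | succ n ih =>
    intro hj
    change (Nat.lor (orN g n) (g n)).testBit l = true
    rw [lor_eq, Nat.testBit_or]
    rcases Nat.lt_succ_iff_lt_or_eq.1 hj with hj | rfl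
    · rw [ih hj]; rfl
    · rw [h]; simp

/-- the clause of a blocked rearrangement -/
noncomputable def mvF (m k : ℕ) (y : List (ℕ × ℕ) × List (ℕ × ℕ)) : ℕ :=
  orN (fun l => Nat.shiftLeft (orN (fun j =>
    ite' (Nat.ble (Nat.succ k) (Nat.add l j))
      (Nat.land (exM (Nat.succ (Nat.succ k)) m y.1 j)
        (exM (Nat.succ (Nat.succ k)) m y.2 (Nat.sub (Nat.add l j) (Nat.succ k)))) 0)
    (Nat.succ (Nat.succ k))) l) (Nat.succ (Nat.succ k))

theorem mvF_bit (m k c : ℕ) (hc : c < 2 ^ m) (y : List (ℕ × ℕ) × List (ℕ × ℕ))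
    (h1 : cutN c y.1 ≤ k + 1) (h2 : cutN c y.2 + k + 1 - cutN c y.1 < k + 2) :
    (mvF m k y).testBit (c * Nat.succ (Nat.succ k) + (cutN c y.2 + k + 1 - cutN c y.1)) = true := by
  refine orN_bit _ _ _ ?_ _ h2
  rw [shl_eq, Nat.testBit_shiftLeft, Nat.add_sub_cancel]
  rw [orN_bit _ _ (cutN c y.1) ?_ _ (by omega)]
  · simp
  have : Nat.ble (Nat.succ k) (Nat.add (cutN c y.2 + k + 1 - cutN c y.1) (cutN c y.1)) = true :=
    Nat.ble_eq_true_of_le (by rw [add_eq]; omega)
  rw [this, ite'_true, land_eq, Nat.testBit_and, exM_bit (by omega) m c hc,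
    show Nat.sub (Nat.add (cutN c y.2 + k + 1 - cutN c y.1) (cutN c y.1)) (Nat.succ k)
      = cutN c y.2 by rw [sub_eq, add_eq]; omega, exM_bit (by omega) m c hc]
  rfl

/-- the atoms match the patterns one by one -/
noncomputable def ngOne (C : List Pat) : List (ℕ × ℕ × ℕ) → Bool :=
  List.rec (fun L => List.rec true (fun _ _ _ => false) L)
    (fun P _ ih L => List.rec false (fun y L' _ =>
      ite' (P.hit y.1 y.2.1) (ite' (Nat.ble P.lev y.2.2) (ih L') false) false) L) C

noncomputable def ngF (NG : List (List Pat)) (L : List (ℕ × ℕ × ℕ)) : Bool :=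
  List.rec false (fun C _ ih => ite' (ngOne C L) true ih) NG

/-- all patterns of the list are realised -/
def AllReal (Z : ℕ → Finset V) (f : Finset V → ℤ) (k : ℕ) (C : List Pat) : Prop :=
  ∀ P ∈ C, ∃ X, P.Fits Z X ∧ (P.lev : ℤ) - k ≤ f X

theorem ngOne_spec {n k : ℕ} {Z : ℕ → Finset V} {f : Finset V → ℤ} (C : List Pat)
    (hC : ∀ P ∈ C, P.ok n) : ∀ L, ngOne C L = true →
      (∀ y ∈ L, ∃ X, Abs n Z X y.1 y.2.1 ∧ -(k : ℤ) + y.2.2 ≤ f X) → AllReal Z f k C := by
  induction C with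
  | nil => intro L _ _ P hP; simp at hP
  | cons Q C ih =>
    intro L h1 h2
    cases L with
    | nil => exact absurd h1 (by simp [ngOne])
    | cons y L =>
      change ite' (Q.hit y.1 y.2.1) (ite' (Nat.ble Q.lev y.2.2) (ngOne C L) false) false = true
        at h1
      cases a1 : Q.hit y.1 y.2.1
      · rw [a1] at h1; simp at h1
      cases a2 : Nat.ble Q.lev y.2.2
      · rw [a1, a2] at h1; simp at h1
      rw [a1, a2] at h1
      intro P hP
      rcases List.mem_cons.1 hP with rfl | hP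
      · obtain ⟨X, x1, x2⟩ := h2 y List.mem_cons_self
        have := Nat.le_of_ble_eq_true a2
        exact ⟨X, (Pat.hit_iff x1 (hC _ List.mem_cons_self)).1 a1, by omega⟩
      · exact ih (fun P hP => hC P (List.mem_cons_of_mem _ hP)) L h1
          (fun z hz => h2 z (List.mem_cons_of_mem _ hz)) P hP

/-- a finite specification -/
structure Spec where
  np : ℕ
  r : ℕ
  k : ℕ
  EN : List (ℕ × ℕ)
  ES : List (ℕ × ℕ)
  UB : List Pat
  EX : List (List Pat)
  NG : List (List Pat)
  MV : List (List (ℕ × ℕ) × List (ℕ × ℕ))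

def Spec.ok (S : Spec) : Prop :=
  4 ≤ S.np ∧ (∀ e ∈ S.EN, e.1 < S.np ∧ e.2 < S.np) ∧ (∀ P ∈ S.UB, P.ok (S.np + S.r)) ∧
  (∀ C ∈ S.EX, ∀ P ∈ C, P.ok (S.np + S.r)) ∧ (∀ C ∈ S.NG, ∀ P ∈ C, P.ok (S.np + S.r)) ∧
  ∀ m ∈ S.MV, MoveOK S.np S.k S.EN m

instance (S : Spec) : Decidable S.ok := by unfold Spec.ok; infer_instance

noncomputable def Spec.check (S : Spec) (L : List ℕ) : Bool :=
  refute S.np S.r (Nat.succ (Nat.succ S.k)) (S.EN ++ S.ES) (bndF (Nat.add S.np S.r) S.k S.UB) 
    (fun i => Nat.ble (Nat.succ i) S.EX.length) (exF S.EX)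
    (fun i => Nat.ble (Nat.succ i) S.MV.length)
    (fun i => mvF (Nat.add (Nat.add S.np S.r) S.r) S.k (nthD ([], []) S.MV i)) (ngF S.NG) L

theorem bndUB_spec {n k : ℕ} {Z : ℕ → Finset V} {X : Finset V} {s t : ℕ} (hX : Abs n Z X s t)
    {v : ℤ} {b : ℕ} (hb : v < -(k : ℤ) + b) (UB : List Pat) (hok : ∀ P ∈ UB, P.ok n)
    (hUB : ∀ P ∈ UB, P.Fits Z X → v < (P.lev : ℤ) - k) : v < -(k : ℤ) + bndUB s t b UB := by
  induction UB with
  | nil => exact hb
  | cons P UB ih =>
    have ih' := ih (fun Q hQ => hok Q (List.mem_cons_of_mem _ hQ))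
      (fun Q hQ => hUB Q (List.mem_cons_of_mem _ hQ))
    change v < -(k : ℤ) + (ite' (P.hit s t) (ite' (Nat.ble P.lev (bndUB s t b UB)) P.lev
      (bndUB s t b UB)) (bndUB s t b UB) : ℕ)
    cases a1 : P.hit s t
    · exact ih'
    · have := hUB P List.mem_cons_self ((Pat.hit_iff hX (hok _ List.mem_cons_self)).1 a1)
      cases Nat.ble P.lev (bndUB s t b UB)
      · exact ih'
      · change v < -(k : ℤ) + P.lev
        omega

theorem ms_four (a b c d : V) (X : Finset V) :
    ms {a, b, c, d} X = ind a X + ind b X + ind c X + ind d X := by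
  simp only [Multiset.insert_eq_cons, ms_cons, ms_singleton]; ring

/-- general form: the bonus for the extra pairs `ES` is supplied by the user -/
theorem Spec.refuteG (S : Spec) (hS : S.ok) {p : Finset V → ℤ} {G : Multiset (V × V)}
    (x : ℕ → V) (Z : ℕ → Finset V) (h : Cfg p G (x 0) (x 1) (x 2) (x 3))
    (top : ∀ X, rs p G X ≤ 1) (hZ : ∀ i < S.np, Z i = {x i})
    (hne : ∀ i < S.r, (Z (S.np + i)).Nonempty) (hE : gr x S.EN ≤ G)
    (hB : ∀ (X Y : Finset V) (L : List (ℕ × ℕ)), L.Sublist (S.EN ++ S.ES) →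
      (∀ e ∈ L, ∃ u ∈ Z e.1, ∃ v ∈ Z e.2, sepE (u, v) X Y) →
      ∃ H ≤ G, Multiset.card H = L.length ∧ ∀ e ∈ H, sepE e X Y)
    (hUB : ∀ P ∈ S.UB, ∀ X, P.Fits Z X → rs p G X < (P.lev : ℤ) - S.k)
    (hEX : ∀ C ∈ S.EX, ∃ P ∈ C, ∃ X, P.Fits Z X ∧ (P.lev : ℤ) - S.k ≤ rs p G X)
    (hNG : ∀ C ∈ S.NG, ¬ AllReal Z (rs p G) S.k C)
    (L : List ℕ) (hL : S.check L = true) : False := by
  obtain ⟨o1, o2, o3, o4, o5, o6⟩ := hS
  have hset : Setup S.np S.r (Nat.succ (Nat.succ S.k)) Z (rs p G) (-(S.k : ℤ)) (S.EN ++ S.ES) := by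
    refine ⟨by omega, fun i hi => ?_, fun i hi u hu v hv => ?_, fun X => ?_, ?_⟩
    · by_cases hp : i < S.np
      · rw [hZ i hp]; simp
      · have := hne (i - S.np) (by omega)
        rwa [show S.np + (i - S.np) = i by omega] at this
    · rw [hZ i hi] at hu hv
      rw [mem_singleton.1 hu, mem_singleton.1 hv]
    · have := top X; push_cast; omega
    · intro X Y a d L ha ha' hd hd' hL hs
      obtain ⟨H, h1, h2, h3⟩ := hB X Y L hL hs
      have := h.cs.rs_bonus h1 ha ha' hd hd' h3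
      rwa [h2] at this
  have hpt : ∀ {X s t}, Abs (S.np + S.r) Z X s t → ∀ i < S.np, (s.testBit i = true ↔ x i ∈ X) := by
    intro X s t hX i hi
    rw [(hX i (by omega)).1, hZ i hi]; simp
  refine hset.refute ?_ ?_ ?_ ?_ L hL
  · intro X s t hX
    unfold bndF
    cases h0 : Nat.beq (Nat.land (sm (Nat.add S.np S.r) t) s) (sm (Nat.add S.np S.r) t)
    · exfalso
      have : Nat.land (sm (Nat.add S.np S.r) t) s = sm (Nat.add S.np S.r) t := by
        apply Nat.eq_of_testBit_eq
        intro i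
        rw [land_eq, Nat.testBit_and, testBit_sm]
        by_cases hi : i < Nat.add S.np S.r
        · cases ht : t.testBit i
          · simp
          · obtain ⟨z, hz⟩ := hset.ne i hi
            rw [(hX i hi).1.2 ⟨z, hz, (hX i hi).2.1 ht z hz⟩]; simp
        · rw [decide_eq_false hi]; simp
      rw [this] at h0; simp at h0
    rw [ite'_true, force_eq]
    refine bndUB_spec hX ?_ _ o3 (fun P hP hf => hUB P hP X hf)
    have b0 := hpt hX 0 (by omega)
    have b1 := hpt hX 1 (by omega)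
    have b2 := hpt hX 2 (by omega)
    have b3 := hpt hX 3 (by omega)
    have t1 := top X
    have v1 := h.valid.le X
    have v2 := h.valid.le_compl X
    rw [ms_four] at v1 v2
    cases q0 : Nat.beq (Nat.land s 15) 0
    · rw [ite'_false]
      cases q1 : Nat.beq (Nat.land s 15) 15
      · rw [ite'_false]; push_cast; omega
      · rw [ite'_true]
        have q := Nat.eq_of_beq_eq_true q1
        have g : ∀ i < 4, s.testBit i = true := by
          intro i hi
          have : (Nat.land s 15).testBit i = true := by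
            rw [q]; interval_cases i <;> rfl
          rw [land_eq, Nat.testBit_and] at this
          exact (Bool.and_eq_true_iff.1 this).1
        rw [ind_of_notMem (by simpa using b0.1 (g 0 (by omega))),
          ind_of_notMem (by simpa using b1.1 (g 1 (by omega))),
          ind_of_notMem (by simpa using b2.1 (g 2 (by omega))),
          ind_of_notMem (by simpa using b3.1 (g 3 (by omega)))] at v2
        unfold rs; push_cast; omega
    · rw [ite'_true]
      have q := Nat.eq_of_beq_eq_true q0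
      have g : ∀ i < 4, ¬ s.testBit i = true := by
        intro i hi hs
        have : (Nat.land s 15).testBit i = true := by
          rw [land_eq, Nat.testBit_and, hs]; interval_cases i <;> rfl
        rw [q] at this; simp at this
      rw [ind_of_notMem (fun hh => g 0 (by omega) (b0.2 hh)),
        ind_of_notMem (fun hh => g 1 (by omega) (b1.2 hh)),
        ind_of_notMem (fun hh => g 2 (by omega) (b2.2 hh)),
        ind_of_notMem (fun hh => g 3 (by omega) (b3.2 hh))] at v1
      unfold rs; push_cast; omega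
  · intro i hi
    have hm := nthD_mem [] S.EX i (Nat.le_of_ble_eq_true hi)
    obtain ⟨P, hP, X, x1, x2⟩ := hEX _ hm
    refine ⟨X, fun s t hX => ?_⟩
    obtain ⟨e, e1, e2⟩ := exPat_spec s t _ P hP ((Pat.hit_iff hX (o4 _ hm P hP)).2 x1)
    exact ⟨e, e1, by omega⟩
  · intro i hi
    have hm := nthD_mem ([], []) S.MV _ (Nat.le_of_ble_eq_true hi)
    obtain ⟨m1, m2, m3, m4⟩ := o6 _ hm
    generalize nthD ([], []) S.MV i = m at hm m1 m2 m3 m4
    obtain ⟨X, hX⟩ := h.blocked ((gr_le x m1).trans hE) (M := gr x m.2) (by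
      rw [ends_gr, ends_gr, Multiset.coe_eq_coe.2 (m2.map x)]
      simp only [List.map_append, List.map_cons, List.map_nil, ← Multiset.coe_add]
      rfl)
    refine ⟨X, fun c hc hA => ?_⟩
    have hp' : ∀ i < S.np, (c.testBit i = true ↔ x i ∈ X) := by
      intro i hi
      rw [← hpt hA i hi, testBit_sm, decide_eq_true (show i < S.np + S.r by omega)]
      simp
    have c1 := cutN_eq x S.np c X hp' m.1 (fun e he => o2 e (m1.subset he))
    have c2 := cutN_eq x S.np c X hp' m.2 m4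
    have c3 := dG_le_card (gr x m.1) X
    have c4 := top X
    rw [card_gr] at c3
    exact ⟨cutN c m.2 + S.k + 1 - cutN c m.1, by omega,
      mvF_bit _ _ _ hc m (by omega) (by omega)⟩
  · intro L' h1 h2
    have : ∃ C ∈ S.NG, ngOne C L' = true := by
      generalize S.NG = NG at h1
      induction NG with
      | nil => exact absurd h1 (by simp [ngF])
      | cons C NG ih =>
        change ite' (ngOne C L') true (ngF NG L') = true at h1
        cases a : ngOne C L'
        · rw [a] at h1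
          obtain ⟨C', c1, c2⟩ := ih h1
          exact ⟨C', List.mem_cons_of_mem _ c1, c2⟩
        · exact ⟨C, List.mem_cons_self, a⟩
    obtain ⟨C, c1, c2⟩ := this
    exact hNG C c1 (ngOne_spec C (o5 C c1) L' c2 h2)

/-- the sets of a specification: named points, then the listed sets -/
def zs (np : ℕ) (x : ℕ → V) (Y : ℕ → Finset V) (i : ℕ) : Finset V :=
  if i < np then {x i} else Y (i - np)

/-- the usual form: only named edges give a bonus -/
theorem Spec.refute (S : Spec) (hS : S.ok) (hES : S.ES = []) {p : Finset V → ℤ}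
    {G : Multiset (V × V)} (x : ℕ → V) (Y : ℕ → Finset V) (h : Cfg p G (x 0) (x 1) (x 2) (x 3))
    (top : ∀ X, rs p G X ≤ 1) (hne : ∀ i < S.r, (Y i).Nonempty) (hE : gr x S.EN ≤ G)
    (hUB : ∀ P ∈ S.UB, ∀ X, P.Fits (zs S.np x Y) X → rs p G X < (P.lev : ℤ) - S.k)
    (hEX : ∀ C ∈ S.EX, ∃ P ∈ C, ∃ X, P.Fits (zs S.np x Y) X ∧ (P.lev : ℤ) - S.k ≤ rs p G X)
    (hNG : ∀ C ∈ S.NG, ¬ AllReal (zs S.np x Y) (rs p G) S.k C)
    (L : List ℕ) (hL : S.check L = true) : False := by
  refine S.refuteG hS x (zs S.np x Y) h top (fun i hi => by simp [zs, hi])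
    (fun i hi => by simpa [zs] using hne i hi) hE ?_ hUB hEX hNG L hL
  intro X X' L hL hs
  rw [hES, List.append_nil] at hL
  refine ⟨gr x L, (gr_le x hL).trans hE, card_gr x L, fun e he => ?_⟩
  obtain ⟨y, hy, rfl⟩ := List.mem_map.1 (Multiset.mem_coe.1 he)
  obtain ⟨u, hu, v, hv, h3⟩ := hs y hy
  obtain ⟨l1, l2⟩ := hS.2.1 y (hL.subset hy)
  simp only [zs, l1, l2, if_true, mem_singleton] at hu hv
  rwa [hu, hv] at h3

end Pool.Agent.CSG

end

-- part MP_305420_co.Stuck
section

/-! The stuck lemma: shape of a configuration. -/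

set_option linter.unusedSectionVars false

namespace Pool.Agent.CSG

open Finset

variable {V : Type*} [Fintype V] [DecidableEq V] {p : Finset V → ℤ} {G : Multiset (V × V)}
  {a b c d : V}

theorem Cfg.of_eq (h : Cfg p G a b c d) {a' b' c' d' : V}
    (e : ({a', b', c', d'} : Multiset V) = {a, b, c, d}) : Cfg p G a' b' c' d' :=
  ⟨h.cs, e ▸ h.valid, e ▸ h.uns⟩

theorem quad_12 (a b c d : V) : ({b, a, c, d} : Multiset V) = {a, b, c, d} :=
  Multiset.cons_swap _ _ _
theorem quad_23 (a b c d : V) : ({a, c, b, d} : Multiset V) = {a, b, c, d} := by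
  simp only [Multiset.insert_eq_cons]; rw [Multiset.cons_swap c b]
theorem quad_34 (a b c d : V) : ({a, b, d, c} : Multiset V) = {a, b, c, d} := by
  rw [Multiset.pair_comm d c]

theorem Cfg.s12 (h : Cfg p G a b c d) : Cfg p G b a c d := h.of_eq (quad_12 _ _ _ _)
theorem Cfg.s23 (h : Cfg p G a b c d) : Cfg p G a c b d := h.of_eq (quad_23 _ _ _ _)
theorem Cfg.s34 (h : Cfg p G a b c d) : Cfg p G a b d c := h.of_eq (quad_34 _ _ _ _)

theorem rs_refl (p : Finset V → ℤ) (G : Multiset (V × V)) (X : Finset V) :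
    rs (refl p) G X = rs p G Xᶜ := by simp [rs, refl, dG_compl]

theorem Cfg.refl (h : Cfg p G a b c d) : Cfg (refl p) G a b c d :=
  ⟨h.cs.refl, h.valid.refl, fun hs => h.uns (solvable_refl.1 hs)⟩

theorem Cfg.le_in (h : Cfg p G a b c d) (X : Finset V) :
    rs p G X ≤ ind a X + ind b X + ind c X + ind d X := by
  have := h.valid.le X
  rw [ms_four] at this
  unfold rs; omega

theorem Cfg.le_out (h : Cfg p G a b c d) (X : Finset V) :
    rs p G X ≤ 4 - (ind a X + ind b X + ind c X + ind d X) := by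
  have := h.valid.le_compl X
  rw [ms_four] at this
  simp only [ind_compl] at this
  unfold rs; omega

/-- sets without terminals -/
theorem Cfg.le_none (h : Cfg p G a b c d) {X : Finset V} (ha : a ∉ X) (hb : b ∉ X) (hc : c ∉ X)
    (hd : d ∉ X) : rs p G X ≤ 0 := by
  have := h.le_in X
  rwa [ind_of_notMem ha, ind_of_notMem hb, ind_of_notMem hc, ind_of_notMem hd] at this

/-- sets with all terminals -/
theorem Cfg.le_all (h : Cfg p G a b c d) {X : Finset V} (ha : a ∈ X) (hb : b ∈ X) (hc : c ∈ X)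
    (hd : d ∈ X) : rs p G X ≤ 0 := by
  have := h.le_out X
  rwa [ind_of_mem ha, ind_of_mem hb, ind_of_mem hc, ind_of_mem hd] at this

theorem Cfg.match_blocked (h : Cfg p G a b c d) :
    ∃ X, cut (a, b) X + cut (c, d) X + 1 ≤ rs p G X := by
  obtain ⟨X, hX⟩ := h.blocked (Multiset.zero_le G) (M := {(a, b), (c, d)}) (by
    simp only [Multiset.insert_eq_cons, ends, Multiset.map_cons, Multiset.map_singleton,
      Multiset.map_zero, Multiset.cons_add, Multiset.singleton_add, add_zero, zero_add,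
      Multiset.cons_swap c b])
  refine ⟨X, ?_⟩
  simpa using hX

theorem Cfg.two_two (h : Cfg p G a b c d) {X : Finset V} (ha : a ∈ X) (hb : b ∈ X) (hc : c ∉ X)
    (hd : d ∉ X) : rs p G X ≤ 1 := by
  obtain ⟨Y, hY⟩ := h.s23.match_blocked
  have y1 := h.le_in Y
  have y2 := h.le_out Y
  have i1 := h.le_in (X ∩ Y)
  have i2 := h.le_out (X ∪ Y)
  by_cases a1 : a ∈ Y <;> by_cases b1 : b ∈ Y <;> by_cases c1 : c ∈ Y <;> by_cases d1 : d ∈ Y <;>
    simp [cut, ind, *] at hY y1 y2 i1 i2 <;> try omega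
  · have := h.cs.rs_super G ha a1 hd d1; omega
  · have := h.cs.rs_super G hb b1 hc c1; omega

theorem Cfg.top (h : Cfg p G a b c d) (X : Finset V) : rs p G X ≤ 1 := by
  have y1 := h.le_in X
  have y2 := h.le_out X
  by_cases a1 : a ∈ X <;> by_cases b1 : b ∈ X <;> by_cases c1 : c ∈ X <;> by_cases d1 : d ∈ X <;>
    simp [ind, *] at y1 y2 <;> try omega
  · exact h.two_two a1 b1 c1 d1
  · exact h.s23.two_two a1 c1 b1 d1
  · exact h.s34.s23.two_two a1 d1 b1 c1
  · exact h.s12.s23.two_two b1 c1 a1 d1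
  · exact h.s12.s34.s23.two_two b1 d1 a1 c1
  · exact h.s23.s12.s34.s23.two_two c1 d1 a1 b1

/-- each pairing is the trace of a member -/
theorem Cfg.pairing (h : Cfg p G a b c d) : ∃ X, rs p G X = 1 ∧
    ((a ∈ X ∧ b ∈ X ∧ c ∉ X ∧ d ∉ X) ∨ (a ∉ X ∧ b ∉ X ∧ c ∈ X ∧ d ∈ X)) := by
  obtain ⟨Y, hY⟩ := h.match_blocked
  have y0 := h.top Y
  have y1 := h.le_in Y
  have y2 := h.le_out Y
  refine ⟨Y, ?_⟩
  by_cases a1 : a ∈ Y <;> by_cases b1 : b ∈ Y <;> by_cases c1 : c ∈ Y <;> by_cases d1 : d ∈ Y <;>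
    simp [cut, ind, *] at hY y1 y2 ⊢ <;> omega

theorem Cfg.ne12 (h : Cfg p G a b c d) : a ≠ b := by
  rintro rfl
  obtain ⟨X, _, h1 | h1⟩ := h.s23.pairing
  · exact h1.2.2.1 h1.1
  · exact h1.1 h1.2.2.1

def loopS : Spec where
  np := 5
  r := 0
  k := 0
  EN := [(4, 4)]
  ES := []
  UB := []
  EX := []
  NG := []
  MV := [([(4, 4)], [(0, 1), (2, 4), (3, 4)]),
    ([(4, 4)], [(0, 2), (1, 4), (3, 4)]),
    ([(4, 4)], [(0, 3), (1, 4), (2, 4)]),
    ([(4, 4)], [(0, 4), (1, 2), (3, 4)]),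
    ([(4, 4)], [(0, 4), (1, 3), (2, 4)]),
    ([(4, 4)], [(0, 4), (1, 4), (2, 3)])]

def loopL : List ℕ := [
  0x2600034000320003100040000000000033000300002006300010000010101001a00110002000100002f0002003300010000000040002d00020027000100000000b0002b00020035000100000002e0001a000290003004d000100000201010006000300020002c0001c000280003005900010000020101000c000900020002a0001c000280003004b000100000201010009000500020000e000280002004f0001000000006000270002001300010000000260000400010000250002400008000230001f0001e0009006d00010000010101001900130002020101000c000a0002020101000a00060002000220000400021000200001f000180006006d006b000200000201010014000c00020101010016001500020101010015001300020101010016001100020001d0001a0002005d00010000020101000e000300020001b0001a0002005b00010000020101000d0003000200019000180002000700010000000000050001700010000040001600015000140000600012000130000b0000a00000000c007900010000020101000c00060002010101001c00190002010101001600130002010101001800160002020101000e000500020001100010000080000f000090000e0000d0000c0000b0000a000a007900530002000001010100190015000200030005020101000600050002020101000900070002010101001c00110002020101000b000500020001000500009000080000700006000050000400003000020000100000000a0079007500020000020101000a0009000200040005020101000c000b000200020005010101001c0015000200050005010101001a00160002010101001a00140002010101001a00130002010101001c001200020036]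

theorem loop_ok : loopS.ok := by decide +kernel

theorem loop_chk : loopS.check loopL = true := by decide +kernel

theorem Cfg.noloop (h : Cfg p G a b c d) : ∀ e ∈ G, e.1 ≠ e.2 := by
  rintro ⟨u, v⟩ he huv
  simp only at huv
  subst huv
  refine loopS.refute loop_ok rfl (fun i => [a, b, c, d, u].getD i a) (fun _ => ∅) h h.top
    (by simp [loopS]) ?_ (by simp [loopS]) (by simp [loopS]) (by simp [loopS]) _ loop_chk
  simpa [loopS, gr] using he

theorem Cfg.tri (h : Cfg p G a b c d)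
    (mab : ∃ X, a ∈ X ∧ b ∈ X ∧ c ∉ X ∧ d ∉ X ∧ rs p G X = 1)
    (mac : ∃ X, a ∈ X ∧ b ∉ X ∧ c ∈ X ∧ d ∉ X ∧ rs p G X = 1)
    (mbc : ∃ X, a ∉ X ∧ b ∈ X ∧ c ∈ X ∧ d ∉ X ∧ rs p G X = 1) : Tri p G a b c d :=
  { h with
    top := h.top
    ab := h.ne12
    ac := h.s23.ne12
    ad := h.s34.s23.ne12
    bc := h.s12.s23.ne12
    bd := h.s12.s34.s23.ne12
    cd := h.s23.s12.s34.s23.ne12
    noloop := h.noloop
    mab := mab
    mac := mac
    mbc := mbc }

/-- a star of members is a triangle for the reflected function -/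
theorem Cfg.tri_of_star (h : Cfg p G a b c d)
    (mda : ∃ X, a ∈ X ∧ b ∉ X ∧ c ∉ X ∧ d ∈ X ∧ rs p G X = 1)
    (mdb : ∃ X, a ∉ X ∧ b ∈ X ∧ c ∉ X ∧ d ∈ X ∧ rs p G X = 1)
    (mdc : ∃ X, a ∉ X ∧ b ∉ X ∧ c ∈ X ∧ d ∈ X ∧ rs p G X = 1) : Tri (CSG.refl p) G a b c d := by
  obtain ⟨X, x⟩ := mda
  obtain ⟨Y, y⟩ := mdb
  obtain ⟨Z, z⟩ := mdc
  refine h.refl.tri ⟨Zᶜ, ?_⟩ ⟨Yᶜ, ?_⟩ ⟨Xᶜ, ?_⟩ <;> simp [rs_refl, *]

theorem Cfg.exists_tri (h : Cfg p G a b c d) : ∃ p' a' b' c' d', (p' = p ∨ p' = CSG.refl p) ∧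
    ({a', b', c', d'} : Multiset V) = {a, b, c, d} ∧ Tri p' G a' b' c' d' := by
  obtain ⟨X, x0, x⟩ := h.pairing
  obtain ⟨Y, y0, y⟩ := h.s23.pairing
  obtain ⟨Z, z0, z⟩ := h.s34.s23.pairing
  have e1 : ({b, c, d, a} : Multiset V) = {a, b, c, d} := by
    rw [quad_34, quad_23, quad_12]
  have e2 : ({a, c, d, b} : Multiset V) = {a, b, c, d} := by rw [quad_34, quad_23]
  have e3 : ({a, b, d, c} : Multiset V) = {a, b, c, d} := quad_34 _ _ _ _
  rcases x with x | x <;> rcases y with y | y <;> rcases z with z | z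
  · exact ⟨_, _, _, _, _, Or.inr rfl, e1, (h.of_eq e1).tri_of_star ⟨X, by tauto⟩ ⟨Y, by tauto⟩
      ⟨Z, by tauto⟩⟩
  · exact ⟨_, _, _, _, _, Or.inl rfl, rfl, h.tri ⟨X, by tauto⟩ ⟨Y, by tauto⟩ ⟨Z, by tauto⟩⟩
  · exact ⟨_, _, _, _, _, Or.inl rfl, e3, (h.of_eq e3).tri ⟨X, by tauto⟩ ⟨Z, by tauto⟩
      ⟨Y, by tauto⟩⟩
  · exact ⟨_, _, _, _, _, Or.inr rfl, e2, (h.of_eq e2).tri_of_star ⟨X, by tauto⟩ ⟨Z, by tauto⟩
      ⟨Y, by tauto⟩⟩
  · exact ⟨_, _, _, _, _, Or.inl rfl, e2, (h.of_eq e2).tri ⟨Y, by tauto⟩ ⟨Z, by tauto⟩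
      ⟨X, by tauto⟩⟩
  · exact ⟨_, _, _, _, _, Or.inr rfl, e3, (h.of_eq e3).tri_of_star ⟨Y, by tauto⟩ ⟨Z, by tauto⟩
      ⟨X, by tauto⟩⟩
  · exact ⟨_, _, _, _, _, Or.inr rfl, rfl, h.tri_of_star ⟨Z, by tauto⟩ ⟨Y, by tauto⟩
      ⟨X, by tauto⟩⟩
  · exact ⟨_, _, _, _, _, Or.inl rfl, e1, (h.of_eq e1).tri ⟨Z, by tauto⟩ ⟨Y, by tauto⟩
      ⟨X, by tauto⟩⟩

end Pool.Agent.CSG

end

-- part MP_305420_co.AncBase
section

/-! Anchor theorem: definitions and basic tools. -/

set_option linter.unusedSectionVars false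

namespace Pool.Agent.CSG.An

open Finset

variable {V : Type*} [Fintype V] [DecidableEq V] {p : Finset V → ℤ} {G : Multiset (V × V)}
  {a b c d : V}

/-- the points `x, y` are joined by an edge -/
def Ed (G : Multiset (V × V)) (x y : V) : Prop := (x, y) ∈ G ∨ (y, x) ∈ G

theorem Ed.symm {x y : V} (h : Ed G x y) : Ed G y x := Or.symm h

/-- tight sets are small -/
def R1 (p : Finset V → ℤ) (M : Multiset V) : Prop :=
  ∀ Z : Finset V, 2 ≤ Z.card → symmMax p Z < ms M Z

theorem R1.refl {M : Multiset V} (h : R1 p M) : R1 (refl p) M := fun Z hZ => by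
  rw [symmMax_refl]; exact h Z hZ

/-- the conclusion of the anchor theorem -/
def Fin1 (p : Finset V → ℤ) (M : Multiset V) : Prop :=
  ∃ (p1 : Finset V → ℤ) (G1 : Multiset (V × V)) (a1 b1 c1 d1 : V), (p1 = p ∨ p1 = refl p) ∧
    ends G1 + {a1, b1, c1, d1} = M ∧ (HState p1 G1 a1 b1 c1 d1 ∨ LLState p1 G1 a1 b1 c1 d1)

theorem refl_refl (p : Finset V → ℤ) : refl (refl p) = p := by
  funext X; simp [refl]

theorem Fin1.of_refl {M : Multiset V} (h : Fin1 (refl p) M) : Fin1 p M := by
  obtain ⟨p1, G1, a1, b1, c1, d1, h1, h2⟩ := h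
  rw [refl_refl] at h1
  exact ⟨p1, G1, a1, b1, c1, d1, h1.symm, h2⟩

/-- some member has the trace `a b` -/
def Mb (p : Finset V → ℤ) (G : Multiset (V × V)) (a b c d : V) : Prop :=
  ∃ X, a ∈ X ∧ b ∈ X ∧ c ∉ X ∧ d ∉ X ∧ 1 ≤ rs p G X

/-- a triangle `a b c` in which `a` and `b` are not hubs -/
structure S1 (p : Finset V → ℤ) (G : Multiset (V × V)) (a b c d : V) : Prop
    extends Cfg p G a b c d where
  mab : Mb p G a b c d
  mac : Mb p G a c b d
  mbc : Mb p G b c a d
  nad : ¬ Mb p G a d b c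
  nbd : ¬ Mb p G b d a c

/-- the point lies in a member with trace `a` -/
def InP (p : Finset V → ℤ) (G : Multiset (V × V)) (a b c d z : V) : Prop :=
  ∃ X, a ∈ X ∧ b ∉ X ∧ c ∉ X ∧ d ∉ X ∧ 1 ≤ rs p G X ∧ z ∈ X

open Classical in
/-- the union of the members with trace `a` or `b` -/
noncomputable def PP (p : Finset V → ℤ) (G : Multiset (V × V)) (a b c d : V) : Finset V :=
  univ.filter (fun z => InP p G a b c d z ∨ InP p G b a c d z)

theorem mem_PP {z : V} : z ∈ PP p G a b c d ↔ InP p G a b c d z ∨ InP p G b a c d z := by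
  simp [PP]

theorem Mb.s12 (h : Mb p G a b c d) : Mb p G b a c d := by
  obtain ⟨X, h1, h2, h3⟩ := h; exact ⟨X, h2, h1, h3⟩

theorem Mb.s34 (h : Mb p G a b c d) : Mb p G a b d c := by
  obtain ⟨X, h1, h2, h3, h4, h5⟩ := h; exact ⟨X, h1, h2, h4, h3, h5⟩

theorem mb_refl : Mb (refl p) G a b c d ↔ Mb p G c d a b := by
  constructor
  · rintro ⟨X, h1, h2, h3, h4, h5⟩
    exact ⟨Xᶜ, by simpa, by simpa, by simpa, by simpa, by rwa [rs_refl] at h5⟩
  · rintro ⟨X, h1, h2, h3, h4, h5⟩
    exact ⟨Xᶜ, by simpa, by simpa, by simpa, by simpa, by rwa [rs_refl, compl_compl]⟩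

theorem pairing (h : Cfg p G a b c d) : Mb p G a b c d ∨ Mb p G c d a b := by
  obtain ⟨X, h0, h1 | h1⟩ := h.pairing
  · exact Or.inl ⟨X, h1.1, h1.2.1, h1.2.2.1, h1.2.2.2, h0.ge⟩
  · exact Or.inr ⟨X, h1.2.2.1, h1.2.2.2, h1.1, h1.2.1, h0.ge⟩

theorem S1.swap (h : S1 p G a b c d) : S1 p G b a c d :=
  ⟨h.toCfg.s12, h.mab.s12, h.mbc, h.mac, h.nbd, h.nad⟩

theorem PP_swap : PP p G b a c d = PP p G a b c d := by
  ext z; rw [mem_PP, mem_PP, or_comm]

theorem tri_of (h : Cfg p G a b c d) (h1 : Mb p G a b c d) (h2 : Mb p G a c b d)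
    (h3 : Mb p G b c a d) : Tri p G a b c d := by
  obtain ⟨X, x1, x2, x3, x4, x5⟩ := h1
  obtain ⟨Y, y1, y2, y3, y4, y5⟩ := h2
  obtain ⟨Z, z1, z2, z3, z4, z5⟩ := h3
  exact h.tri ⟨X, x1, x2, x3, x4, le_antisymm (h.top _) x5⟩
    ⟨Y, y1, y3, y2, y4, le_antisymm (h.top _) y5⟩ ⟨Z, z3, z1, z2, z4, le_antisymm (h.top _) z5⟩

theorem sup (h : Cfg p G a b c d) (X Y : Finset V) (s t : V) (hs : s ∈ X)
    (hs' : s ∈ Y) (ht : t ∉ X) (ht' : t ∉ Y) :
    rs p G X + rs p G Y ≤ rs p G (X ∩ Y) + rs p G (X ∪ Y) := h.cs.rs_super G hs hs' ht ht'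

/-- uncrossing with the bonus of one edge -/
theorem bon (h : Cfg p G a b c d) (X Y : Finset V) (s t : V) {x y : V} (he : Ed G x y) (hs : s ∈ X)
    (hs' : s ∈ Y) (ht : t ∉ X) (ht' : t ∉ Y) (h1 : x ∈ X) (h2 : x ∉ Y) (h3 : y ∈ Y) (h4 : y ∉ X) :
    rs p G X + rs p G Y + 2 ≤ rs p G (X ∩ Y) + rs p G (X ∪ Y) := by
  rcases he with he | he
  · have := h.cs.rs_bonus (Multiset.singleton_le.2 he) hs hs' ht ht'
      (fun e h => by rw [Multiset.mem_singleton.1 h]; exact Or.inl ⟨h1, h2, h3, h4⟩)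
    simpa using this
  · have := h.cs.rs_bonus (Multiset.singleton_le.2 he) hs hs' ht ht'
      (fun e h => by rw [Multiset.mem_singleton.1 h]; exact Or.inr ⟨h3, h4, h1, h2⟩)
    simpa using this

/-- removing an edge -/
theorem Ed.split {u v : V} (h : Ed G u v) : ∃ R : Multiset (V × V),
    (∀ X, dG G X = cut (u, v) X + dG R X) ∧ ends G = u ::ₘ v ::ₘ ends R ∧
    ∀ e ∈ G, e ∈ R ∨ e = (u, v) ∨ e = (v, u) := by
  rcases h with h | h <;> obtain ⟨R, rfl⟩ := Multiset.exists_cons_of_mem h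
  · refine ⟨R, fun X => dG_cons _ _ _, ends_cons _ _, fun e he => ?_⟩
    rcases Multiset.mem_cons.1 he with h1 | h1
    exacts [Or.inr (Or.inl h1), Or.inl h1]
  · refine ⟨R, fun X => ?_, ?_, fun e he => ?_⟩
    · rw [dG_cons]; simp only [cut, iff_comm]
    · rw [ends_cons, Multiset.cons_swap]
    · rcases Multiset.mem_cons.1 he with h1 | h1
      exacts [Or.inr (Or.inr h1), Or.inl h1]

/-- replacing the edge `u v` by the edge `x y` -/
theorem Ed.move {u v : V} (h : Ed G u v) (p : Finset V → ℤ) (x y : V) : ∃ G' : Multiset (V × V),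
    (∀ X, rs p G' X = rs p G X + cut (u, v) X - cut (x, y) X) ∧
    ends G' + {u, v} = ends G + {x, y} ∧ ∀ e ∈ G, e ∈ G' ∨ e = (u, v) ∨ e = (v, u) := by
  obtain ⟨R, h1, h2, h3⟩ := h.split
  refine ⟨(x, y) ::ₘ R, fun X => ?_, ?_, fun e he => ?_⟩
  · unfold rs; rw [dG_cons, h1]; ring
  · rw [ends_cons, h2]
    simp only [Multiset.insert_eq_cons, ← Multiset.singleton_add]
    abel
  · rcases h3 e he with h4 | h4
    exacts [Or.inl (Multiset.mem_cons_of_mem h4), Or.inr h4]

/-- a new configuration with the same ends -/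
theorem mkCfg (h : Cfg p G a b c d) {G' : Multiset (V × V)} {a' b' c' d' : V}
    (he : ends G' + {a', b', c', d'} = ends G + {a, b, c, d})
    (hv : ∀ X, rs p G' X ≤ ind a' X + ind b' X + ind c' X + ind d' X ∧
      rs p G' X ≤ 4 - (ind a' X + ind b' X + ind c' X + ind d' X)) : Cfg p G' a' b' c' d' := by
  refine ⟨h.cs, fun X => ?_, he ▸ h.uns⟩
  have h1 := (hv X).1
  have h2 := (hv Xᶜ).2
  simp only [ind_compl] at h2
  unfold rs at h1 h2
  rw [dG_compl] at h2
  rw [ms_four]
  omega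

/-- a large member with one terminal contains an edge -/
theorem inner_edge (hR : R1 p (ends G + {a, b, c, d})) {X : Finset V}
    (h1 : ind a X + ind b X + ind c X + ind d X ≤ 1) (h2 : 1 ≤ rs p G X) (h3 : 2 ≤ X.card) :
    ∃ u v, Ed G u v ∧ u ∈ X ∧ v ∈ X := by
  have k := hR X h3
  have k1 := le_symmMax p X
  rw [ms_add, ms_four] at k
  unfold rs at h2
  obtain ⟨e, he, e1, e2⟩ := exists_inner_edge G X (by omega)
  exact ⟨e.1, e.2, Or.inl he, e1, e2⟩

/-- at least five of the six pairs are traces of members -/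
def Five (p : Finset V → ℤ) (G : Multiset (V × V)) (a b c d : V) : Prop :=
  Mb p G a b c d ∧ Mb p G a c b d ∧ Mb p G b c a d ∧ Mb p G a d b c ∧ Mb p G b d a c

end Pool.Agent.CSG.An

end
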