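import Pool.Agent.MP_305420_co.Basic

-- part MP_305420_co.LemA1
section

/-! Subpartition toolkit, counting, uncrossing and the rooted Helly lemma. -/

set_option linter.unusedSectionVars false

namespace Pool.Agent.CSG

open Finset

variable {V : Type*} [Fintype V] [DecidableEq V]

/-- full supermodularity on the subsets of `W` -/
def SupOn (W : Finset V) (z : Finset V → ℤ) : Prop :=
  ∀ X ⊆ W, ∀ Y ⊆ W, z X + z Y ≤ z (X ∩ Y) + z (X ∪ Y)

/-- a subpartition of `W` into nonempty parts -/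
structure SubP (W : Finset V) (S : Finset (Finset V)) : Prop where
  sub : ∀ X ∈ S, X ⊆ W
  ne : ∀ X ∈ S, X.Nonempty
  disj : ∀ X ∈ S, ∀ Y ∈ S, X ≠ Y → Disjoint X Y

/-- the local value of a subpartition -/
def val (z : Finset V → ℤ) (S : Finset (Finset V)) : ℤ := ∑ X ∈ S, (1 + z X)

/-- `φ + d_H` -/
def zt (φ : Finset V → ℤ) (H : Multiset (V × V)) (X : Finset V) : ℤ := φ X + dG H X

/-- the point `v` is covered by a part of `S` -/
def Cov (S : Finset (Finset V)) (v : V) : Prop := ∃ P ∈ S, v ∈ P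

theorem SupOn.mono {W W' : Finset V} {z : Finset V → ℤ} (h : SupOn W z) (hW : W' ⊆ W) :
    SupOn W' z := fun X hX Y hY => h X (hX.trans hW) Y (hY.trans hW)

theorem SupOn.of_add {W : Finset V} {φ : Finset V → ℤ} {H G : Multiset (V × V)}
    (h : SupOn W (zt φ (H + G))) : SupOn W (zt φ H) := by
  intro X hX Y hY
  have h1 := h X hX Y hY
  have h2 := dG_submod G X Y
  simp only [zt, dG_add] at h1 ⊢
  omega

theorem SupOn.of_le {W : Finset V} {φ : Finset V → ℤ} {H G : Multiset (V × V)}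
    (h : SupOn W (zt φ G)) (hle : H ≤ G) : SupOn W (zt φ H) := by
  obtain ⟨K, rfl⟩ := Multiset.le_iff_exists_add.1 hle
  exact h.of_add

theorem zt_empty {φ : Finset V → ℤ} (h0 : φ ∅ = 0) (H : Multiset (V × V)) : zt φ H ∅ = 0 := by
  simp [zt, h0, dG_empty]

theorem SubP.mono {W W' : Finset V} {S : Finset (Finset V)} (h : SubP W S) (hW : W ⊆ W') :
    SubP W' S := ⟨fun X hX => (h.sub X hX).trans hW, h.ne, h.disj⟩

theorem SubP.subset {W : Finset V} {S S' : Finset (Finset V)} (h : SubP W S) (hS : S' ⊆ S) :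
    SubP W S' := ⟨fun X hX => h.sub X (hS hX), fun X hX => h.ne X (hS hX),
      fun X hX Y hY => h.disj X (hS hX) Y (hS hY)⟩

theorem SubP.empty (W : Finset V) : SubP W ∅ := ⟨by simp, by simp, by simp⟩

theorem SubP.single {W X : Finset V} (hX : X ⊆ W) (hne : X.Nonempty) : SubP W {X} :=
  ⟨by simpa using hX, by simpa using hne, by simp⟩

theorem SubP.eq_of_mem {W : Finset V} {S : Finset (Finset V)} (h : SubP W S) {X Y : Finset V}
    (hX : X ∈ S) (hY : Y ∈ S) {v : V} (hvX : v ∈ X) (hvY : v ∈ Y) : X = Y := by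
  by_contra hne
  exact Finset.disjoint_left.1 (h.disj X hX Y hY hne) hvX hvY

theorem SubP.erase_root {W : Finset V} {S : Finset (Finset V)} (h : SubP W S) {r : V}
    (hr : ¬ Cov S r) : SubP (W.erase r) S :=
  ⟨fun X hX _ hv => Finset.mem_erase.2 ⟨fun hvr => hr ⟨X, hX, hvr ▸ hv⟩, h.sub X hX hv⟩,
    h.ne, h.disj⟩

theorem SubP.union {W : Finset V} {S A : Finset (Finset V)} (hS : SubP W S) (hA : SubP W A)
    (hd : ∀ X ∈ S, ∀ Y ∈ A, Disjoint X Y) (z : Finset V → ℤ) :
    SubP W (S ∪ A) ∧ val z (S ∪ A) = val z S + val z A := by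
  refine ⟨⟨?_, ?_, ?_⟩, ?_⟩
  · intro X hX
    rcases Finset.mem_union.1 hX with h | h
    exacts [hS.sub X h, hA.sub X h]
  · intro X hX
    rcases Finset.mem_union.1 hX with h | h
    exacts [hS.ne X h, hA.ne X h]
  · intro X hX Y hY hne
    rcases Finset.mem_union.1 hX with h | h <;> rcases Finset.mem_union.1 hY with h' | h'
    exacts [hS.disj X h Y h' hne, hd X h Y h', (hd Y h' X h).symm, hA.disj X h Y h' hne]
  · unfold val
    apply Finset.sum_union
    rw [Finset.disjoint_left]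
    intro X hX hX'
    obtain ⟨v, hv⟩ := hS.ne X hX
    exact Finset.disjoint_left.1 (hd X hX X hX') hv hv

theorem val_single (z : Finset V → ℤ) (X : Finset V) : val z {X} = 1 + z X := by simp [val]

theorem val_erase (z : Finset V → ℤ) {S : Finset (Finset V)} {X : Finset V} (hX : X ∈ S) :
    val z (S.erase X) = val z S - (1 + z X) := by
  unfold val
  rw [← Finset.add_sum_erase S _ hX]; ring

theorem val_cons (φ : Finset V → ℤ) (e : V × V) (G : Multiset (V × V)) (S : Finset (Finset V)) :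
    val (zt φ (e ::ₘ G)) S = val (zt φ G) S + ∑ X ∈ S, cut e X := by
  unfold val zt
  rw [← Finset.sum_add_distrib]
  refine Finset.sum_congr rfl fun X _ => ?_
  rw [dG_cons]; ring

theorem val_add_of_uncut (φ : Finset V → ℤ) (H G : Multiset (V × V)) (S : Finset (Finset V))
    (h : ∀ e ∈ G, ∀ X ∈ S, cut e X = 0) : val (zt φ (H + G)) S = val (zt φ H) S := by
  induction G using Multiset.induction_on with
  | empty => simp
  | cons e G ih =>
    rw [Multiset.add_cons, val_cons, ih (fun e' he' => h e' (Multiset.mem_cons_of_mem he')),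
      Finset.sum_eq_zero (h e (Multiset.mem_cons_self _ _))]
    simp

theorem mem_sup_id {I : Finset (Finset V)} {v : V} : v ∈ I.sup id ↔ Cov I v := by
  simp [Cov, Finset.mem_sup]

theorem sum_core {W : Finset V} {z : Finset V → ℤ} (hz : SupOn W z) {I : Finset (Finset V)}
    (hI : SubP W I) {Y : Finset V} (hY : Y ⊆ W) :
    z Y + ∑ P ∈ I, z P ≤ ∑ P ∈ I, z (Y ∩ P) + z (Y ∪ I.sup id) := by
  induction I using Finset.induction_on with
  | empty => simp
  | insert P I hP ih =>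
    have hI' : SubP W I := hI.subset (Finset.subset_insert _ _)
    have h1 := ih hI'
    have hsub : Y ∪ I.sup id ⊆ W := by
      intro v hv
      rcases Finset.mem_union.1 hv with h | h
      · exact hY h
      · obtain ⟨Q, hQ, hv⟩ := mem_sup_id.1 h
        exact hI'.sub Q hQ hv
    have h2 := hz _ hsub P (hI.sub P (Finset.mem_insert_self _ _))
    have e1 : (Y ∪ I.sup id) ∩ P = Y ∩ P := by
      ext v
      simp only [Finset.mem_inter, Finset.mem_union, mem_sup_id]
      constructor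
      · rintro ⟨h | ⟨Q, hQ, hv⟩, hvP⟩
        · exact ⟨h, hvP⟩
        · have := hI.eq_of_mem (Finset.mem_insert_of_mem hQ) (Finset.mem_insert_self _ _) hv hvP
          exact absurd (this ▸ hQ) hP
      · rintro ⟨h, hvP⟩
        exact ⟨Or.inl h, hvP⟩
    have e2 : (Y ∪ I.sup id) ∪ P = Y ∪ (insert P I).sup id := by
      rw [Finset.sup_insert]
      ext v
      simp only [Finset.mem_union, id, Finset.sup_eq_union]
      tauto
    rw [e1, e2] at h2
    rw [Finset.sum_insert hP, Finset.sum_insert hP]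
    omega

theorem sum_le_sup {W : Finset V} {z : Finset V → ℤ} (hz : SupOn W z) (h0 : z ∅ = 0)
    {I : Finset (Finset V)} (hI : SubP W I) : ∑ P ∈ I, z P ≤ z (I.sup id) := by
  have := sum_core hz hI (Finset.empty_subset W)
  simpa [h0] using this

theorem cut_eq_one {e : V × V} {X : Finset V} :
    cut e X = 1 ↔ (e.1 ∈ X ∧ e.2 ∉ X) ∨ (e.1 ∉ X ∧ e.2 ∈ X) := by
  unfold cut
  by_cases h1 : e.1 ∈ X <;> by_cases h2 : e.2 ∈ X <;> simp [h1, h2]

theorem cut_eq_zero {e : V × V} {X : Finset V} : cut e X = 0 ↔ (e.1 ∈ X ↔ e.2 ∈ X) := by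
  unfold cut
  by_cases h1 : e.1 ∈ X <;> by_cases h2 : e.2 ∈ X <;> simp [h1, h2]

theorem cut_zero_or_one (e : V × V) (X : Finset V) : cut e X = 0 ∨ cut e X = 1 := by
  unfold cut; split_ifs <;> simp

theorem uncut_of_root {S : Finset (Finset V)} {e : V × V} (h1 : ¬ Cov S e.1) (h2 : ¬ Cov S e.2) :
    ∀ X ∈ S, cut e X = 0 := fun X hX =>
  cut_eq_zero.2 ⟨fun h => absurd ⟨X, hX, h⟩ h1, fun h => absurd ⟨X, hX, h⟩ h2⟩

theorem uncut_of_part {W : Finset V} {S : Finset (Finset V)} (hS : SubP W S) {e : V × V}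
    {P : Finset V} (hP : P ∈ S) (h1 : e.1 ∈ P) (h2 : e.2 ∈ P) : ∀ X ∈ S, cut e X = 0 :=
  fun _ hX => cut_eq_zero.2
    ⟨fun h => hS.eq_of_mem hP hX h1 h ▸ h2, fun h => hS.eq_of_mem hP hX h2 h ▸ h1⟩

theorem kind_of (S : Finset (Finset V)) (e : V × V) :
    (∃ X ∈ S, cut e X = 1) ∨ (¬ Cov S e.1 ∧ ¬ Cov S e.2) ∨ (∃ X ∈ S, e.1 ∈ X ∧ e.2 ∈ X) := by
  by_cases h : ∃ X ∈ S, cut e X = 1
  · exact Or.inl h
  right
  have h' : ∀ X ∈ S, (e.1 ∈ X ↔ e.2 ∈ X) := fun X hX => by
    rcases cut_zero_or_one e X with h0 | h0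
    · exact cut_eq_zero.1 h0
    · exact absurd ⟨X, hX, h0⟩ h
  by_cases h1 : Cov S e.1
  · obtain ⟨X, hX, hv⟩ := h1
    exact Or.inr ⟨X, hX, hv, (h' X hX).1 hv⟩
  · exact Or.inl ⟨h1, fun ⟨X, hX, hv⟩ => h1 ⟨X, hX, (h' X hX).2 hv⟩⟩

/-- merging two parts loses at most one unit -/
theorem merge_parts {W : Finset V} {z : Finset V → ℤ} (hz : SupOn W z) (h0 : z ∅ = 0)
    {S : Finset (Finset V)} (hS : SubP W S) {X Y : Finset V} (hX : X ∈ S) (hY : Y ∈ S)
    (hne : X ≠ Y) :
    SubP W (((S.erase X).erase Y) ∪ {X ∪ Y}) ∧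
      val z S ≤ val z (((S.erase X).erase Y) ∪ {X ∪ Y}) + 1 := by
  have hS' : SubP W ((S.erase X).erase Y) :=
    hS.subset ((Finset.erase_subset _ _).trans (Finset.erase_subset _ _))
  have hA : SubP W {X ∪ Y} := SubP.single (Finset.union_subset (hS.sub X hX) (hS.sub Y hY))
    ((hS.ne X hX).mono Finset.subset_union_left)
  obtain ⟨h1, h2⟩ := hS'.union hA (fun P hP Q hQ => by
    rw [Finset.mem_singleton.1 hQ]
    simp only [Finset.mem_erase] at hP
    exact Finset.disjoint_union_right.2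
      ⟨hS.disj P hP.2.2 X hX hP.2.1, hS.disj P hP.2.2 Y hY hP.1⟩) z
  refine ⟨h1, ?_⟩
  rw [h2, val_single, val_erase z (Finset.mem_erase.2 ⟨hne.symm, hY⟩), val_erase z hX]
  have h3 := hz X (hS.sub X hX) Y (hS.sub Y hY)
  rw [Finset.disjoint_iff_inter_eq_empty.1 (hS.disj X hX Y hY hne), h0] at h3
  omega

/-- counting: the value of a subpartition is at most the number of edges -/
theorem cnt0 {W : Finset V} {φ : Finset V → ℤ} (h0 : φ ∅ = 0)
    (hb : ∀ X ⊆ W, X.Nonempty → φ X ≤ -1) (H : Multiset (V × V)) (hz : SupOn W (zt φ H))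
    {S : Finset (Finset V)} (hS : SubP W S) : val (zt φ H) S ≤ Multiset.card H := by
  induction H using Multiset.induction_on generalizing S with
  | empty =>
    simp only [val, zt, dG_zero, add_zero, Multiset.card_zero, Nat.cast_zero]
    apply Finset.sum_nonpos
    intro X hX
    have := hb X (hS.sub X hX) (hS.ne X hX)
    omega
  | cons e G ih =>
    have hz' : SupOn W (zt φ G) := hz.of_le (Multiset.le_cons_self _ _)
    rw [Multiset.card_cons]
    push_cast
    by_cases hc : ∃ X ∈ S, ∃ Y ∈ S, X ≠ Y ∧ e.1 ∈ X ∧ e.2 ∈ Y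
    · obtain ⟨X, hX, Y, hY, hne, h1, h2⟩ := hc
      obtain ⟨hS', hv⟩ := merge_parts hz (zt_empty h0 _) hS hX hY hne
      have h3 := ih hz' hS'
      have h4 := val_cons φ e G (((S.erase X).erase Y) ∪ {X ∪ Y})
      rw [Finset.sum_eq_zero (uncut_of_part hS' (P := X ∪ Y) (by simp)
        (Finset.mem_union_left _ h1) (Finset.mem_union_right _ h2))] at h4
      omega
    · have h3 := ih hz' hS
      rw [val_cons]
      have h4 : ∑ X ∈ S, cut e X ≤ 1 := by
        by_cases hx : ∃ X ∈ S, cut e X = 1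
        · obtain ⟨X, hX, hcX⟩ := hx
          rw [← Finset.add_sum_erase S _ hX, Finset.sum_eq_zero]
          · omega
          · intro Y hY
            obtain ⟨hne, hY⟩ := Finset.mem_erase.1 hY
            rcases cut_zero_or_one e Y with h | h
            · exact h
            · exfalso
              rcases cut_eq_one.1 hcX with ⟨a1, a2⟩ | ⟨a1, a2⟩ <;>
                rcases cut_eq_one.1 h with ⟨b1, b2⟩ | ⟨b1, b2⟩
              · exact hne (hS.eq_of_mem hY hX b1 a1)
              · exact hc ⟨X, hX, Y, hY, hne.symm, a1, b2⟩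
              · exact hc ⟨Y, hY, X, hX, hne, b1, a2⟩
              · exact hne (hS.eq_of_mem hY hX b2 a2)
        · rw [Finset.sum_eq_zero]
          · omega
          · intro Y hY
            rcases cut_zero_or_one e Y with h | h
            · exact h
            · exact absurd ⟨Y, hY, h⟩ hx
      omega

/-- counting with uncut edges -/
theorem cnt {W : Finset V} {φ : Finset V → ℤ} (h0 : φ ∅ = 0)
    (hb : ∀ X ⊆ W, X.Nonempty → φ X ≤ -1) (H G : Multiset (V × V)) (hz : SupOn W (zt φ (H + G)))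
    {S : Finset (Finset V)} (hS : SubP W S) (hG : ∀ e ∈ G, ∀ X ∈ S, cut e X = 0) :
    val (zt φ (H + G)) S ≤ Multiset.card H := by
  rw [val_add_of_uncut φ H G S hG]
  exact cnt0 h0 hb H hz.of_add hS

/-- uncrossing a subpartition with one set -/
theorem ins {W : Finset V} {z : Finset V → ℤ} (hz : SupOn W z) {S : Finset (Finset V)}
    (hS : SubP W S) {Y : Finset V} (hY : Y ⊆ W) (hne : Y.Nonempty) :
    ∃ L U : Finset (Finset V), SubP W L ∧ SubP W U ∧ val z S + (1 + z Y) ≤ val z L + val z U ∧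
      (∀ v, Cov L v → v ∈ Y ∧ Cov S v) ∧ (∀ v, Cov U v → v ∈ Y ∨ Cov S v) ∧
      (∀ P ∈ S, ∃ X ∈ U, P ⊆ X) ∧ (∃ X ∈ U, Y ⊆ X) := by
  classical
  set T := S.filter (fun P => ¬ Disjoint Y P) with hT
  set N := S.filter (fun P => Disjoint Y P) with hN
  have hTS : SubP W T := hS.subset (Finset.filter_subset _ _)
  have hNS : SubP W N := hS.subset (Finset.filter_subset _ _)
  have hinj : Set.InjOn (fun P => Y ∩ P) (T : Set (Finset V)) := by
    intro P hP Q hQ hPQ
    have hP' := Finset.mem_filter.1 (Finset.mem_coe.1 hP)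
    have hQ' := Finset.mem_filter.1 (Finset.mem_coe.1 hQ)
    obtain ⟨v, hv1, hv2⟩ := Finset.not_disjoint_iff.1 hP'.2
    have : v ∈ Y ∩ Q := by
      have h : v ∈ Y ∩ P := Finset.mem_inter.2 ⟨hv1, hv2⟩
      simp only at hPQ
      exact hPQ ▸ h
    exact hS.eq_of_mem hP'.1 hQ'.1 hv2 (Finset.mem_inter.1 this).2
  have hL : SubP W (T.image (fun P => Y ∩ P)) := by
    refine ⟨?_, ?_, ?_⟩
    · intro X hX
      obtain ⟨P, _, rfl⟩ := Finset.mem_image.1 hX
      exact Finset.inter_subset_left.trans hY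
    · intro X hX
      obtain ⟨P, hP, rfl⟩ := Finset.mem_image.1 hX
      obtain ⟨v, hv1, hv2⟩ := Finset.not_disjoint_iff.1 (Finset.mem_filter.1 hP).2
      exact ⟨v, Finset.mem_inter.2 ⟨hv1, hv2⟩⟩
    · intro X hX X' hX' hne'
      obtain ⟨P, hP, rfl⟩ := Finset.mem_image.1 hX
      obtain ⟨Q, hQ, rfl⟩ := Finset.mem_image.1 hX'
      have : P ≠ Q := fun h => hne' (by rw [h])
      exact (hTS.disj P hP Q hQ this).mono Finset.inter_subset_right Finset.inter_subset_right
  have hbig : Y ∪ T.sup id ⊆ W := by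
    intro v hv
    rcases Finset.mem_union.1 hv with h | h
    · exact hY h
    · obtain ⟨Q, hQ, hv⟩ := mem_sup_id.1 h
      exact hTS.sub Q hQ hv
  obtain ⟨hU, hvU⟩ := hNS.union (SubP.single hbig (hne.mono Finset.subset_union_left))
    (fun P hP Q hQ => by
      rw [Finset.mem_singleton.1 hQ]
      have hP' := Finset.mem_filter.1 hP
      rw [Finset.disjoint_left]
      intro v hv hv'
      rcases Finset.mem_union.1 hv' with h | h
      · exact Finset.disjoint_left.1 hP'.2 h hv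
      · obtain ⟨Q', hQ', hvQ⟩ := mem_sup_id.1 h
        have hQ'' := Finset.mem_filter.1 hQ'
        exact hQ''.2 (hS.eq_of_mem hP'.1 hQ''.1 hv hvQ ▸ hP'.2)) z
  refine ⟨_, _, hL, hU, ?_, ?_, ?_, ?_, ?_⟩
  · rw [hvU, val_single]
    have h1 : val z (T.image (fun P => Y ∩ P)) = ∑ P ∈ T, (1 + z (Y ∩ P)) := by
      unfold val; rw [Finset.sum_image hinj]
    have h2 : val z S = val z N + val z T := by
      unfold val; rw [hN, hT, Finset.sum_filter_add_sum_filter_not]
    have h3 := sum_core hz hTS hY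
    have h4 : val z T = T.card + ∑ P ∈ T, z P := by
      unfold val; rw [Finset.sum_add_distrib]; simp
    have h5 : ∑ P ∈ T, (1 + z (Y ∩ P)) = T.card + ∑ P ∈ T, z (Y ∩ P) := by
      rw [Finset.sum_add_distrib]; simp
    omega
  · rintro v ⟨X, hX, hv⟩
    obtain ⟨P, hP, rfl⟩ := Finset.mem_image.1 hX
    exact ⟨(Finset.mem_inter.1 hv).1, P, (Finset.mem_filter.1 hP).1, (Finset.mem_inter.1 hv).2⟩
  · rintro v ⟨X, hX, hv⟩
    rcases Finset.mem_union.1 hX with h | h
    · exact Or.inr ⟨X, (Finset.mem_filter.1 h).1, hv⟩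
    · rw [Finset.mem_singleton.1 h] at hv
      rcases Finset.mem_union.1 hv with h' | h'
      · exact Or.inl h'
      · obtain ⟨Q, hQ, hvQ⟩ := mem_sup_id.1 h'
        exact Or.inr ⟨Q, (Finset.mem_filter.1 hQ).1, hvQ⟩
  · intro P hP
    by_cases hd : Disjoint Y P
    · exact ⟨P, Finset.mem_union_left _ (Finset.mem_filter.2 ⟨hP, hd⟩), Finset.Subset.refl _⟩
    · refine ⟨_, Finset.mem_union_right _ (Finset.mem_singleton_self _), fun v hv => ?_⟩
      exact Finset.mem_union_right _ (mem_sup_id.2 ⟨P, Finset.mem_filter.2 ⟨hP, hd⟩, hv⟩)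
  · exact ⟨_, Finset.mem_union_right _ (Finset.mem_singleton_self _), Finset.subset_union_left⟩

/-- uncrossing two subpartitions -/
theorem unc {W : Finset V} {z : Finset V → ℤ} (hz : SupOn W z) {S S' : Finset (Finset V)}
    (hS : SubP W S) (hS' : SubP W S') :
    ∃ L U : Finset (Finset V), SubP W L ∧ SubP W U ∧ val z S + val z S' ≤ val z L + val z U ∧
      (∀ v, Cov L v → Cov S v ∧ Cov S' v) ∧ (∀ v, Cov U v → Cov S v ∨ Cov S' v) ∧
      (∀ P ∈ S, ∃ X ∈ U, P ⊆ X) ∧ (∀ P ∈ S', ∃ X ∈ U, P ⊆ X) := by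
  induction S' using Finset.induction_on with
  | empty =>
    refine ⟨∅, S, SubP.empty W, hS, by simp [val], ?_, fun v hv => Or.inl hv,
      fun P hP => ⟨P, hP, Finset.Subset.refl _⟩, by simp⟩
    rintro v ⟨X, hX, _⟩
    simp at hX
  | insert Y S' hY ih =>
    obtain ⟨L0, U0, hL0, hU0, hv0, a1, a2, a3, a4⟩ := ih (hS'.subset (Finset.subset_insert _ _))
    have hYm : Y ∈ insert Y S' := Finset.mem_insert_self _ _
    obtain ⟨L1, U1, hL1, hU1, hv1, b1, b2, b3, b4⟩ := ins hz hU0 (hS'.sub Y hYm) (hS'.ne Y hYm)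
    have hYS : ∀ v, v ∈ Y → ¬ Cov S' v := by
      rintro v hv ⟨Q, hQ, hvQ⟩
      exact hY (hS'.eq_of_mem (Finset.mem_insert_of_mem hQ) hYm hvQ hv ▸ hQ)
    obtain ⟨hL, hvL⟩ := hL0.union hL1 (fun X hX X' hX' => by
      rw [Finset.disjoint_left]
      intro v hv hv'
      exact hYS v (b1 v ⟨X', hX', hv'⟩).1 (a1 v ⟨X, hX, hv⟩).2) z
    have hins : ∀ v, Cov S' v → Cov (insert Y S') v :=
      fun v ⟨Q, hQ, hvQ⟩ => ⟨Q, Finset.mem_insert_of_mem hQ, hvQ⟩
    refine ⟨_, U1, hL, hU1, ?_, ?_, ?_, ?_, ?_⟩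
    · have : val z (insert Y S') = 1 + z Y + val z S' := by
        unfold val; rw [Finset.sum_insert hY]
      omega
    · rintro v ⟨X, hX, hv⟩
      rcases Finset.mem_union.1 hX with h | h
      · exact ⟨(a1 v ⟨X, h, hv⟩).1, hins v (a1 v ⟨X, h, hv⟩).2⟩
      · obtain ⟨c1, c2⟩ := b1 v ⟨X, h, hv⟩
        rcases a2 v c2 with c3 | c3
        · exact ⟨c3, Y, hYm, c1⟩
        · exact absurd c3 (hYS v c1)
    · intro v hv
      rcases b2 v hv with c | c
      · exact Or.inr ⟨Y, hYm, c⟩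
      · rcases a2 v c with c3 | c3
        · exact Or.inl c3
        · exact Or.inr (hins v c3)
    · intro P hP
      obtain ⟨X, hX, h1⟩ := a3 P hP
      obtain ⟨X', hX', h2⟩ := b3 X hX
      exact ⟨X', hX', h1.trans h2⟩
    · intro P hP
      rcases Finset.mem_insert.1 hP with rfl | hP
      · exact b4
      · obtain ⟨X, hX, h1⟩ := a4 P hP
        obtain ⟨X', hX', h2⟩ := b3 X hX
        exact ⟨X', hX', h1.trans h2⟩

/-- the two kinds of uncut edges -/
def RootKind (S : Finset (Finset V)) (e : V × V) : Prop := ¬ Cov S e.1 ∧ ¬ Cov S e.2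

/-- both ends in one part -/
def PartKind (S : Finset (Finset V)) (e : V × V) : Prop := ∃ X ∈ S, e.1 ∈ X ∧ e.2 ∈ X

/-- pigeonhole: among three edges two are uncut of the same kind, unless we are done -/
theorem two_of_a_kind (φ : Finset V → ℤ) (Q : Finset (Finset V) → Prop) (H0 H : Multiset (V × V))
    (n : ℤ) (h3 : 3 ≤ Multiset.card H)
    (ih : ∀ e R, H = e ::ₘ R → ∃ S, Q S ∧ n - 1 ≤ val (zt φ (H0 + R)) S) :
    (∃ S, Q S ∧ n ≤ val (zt φ (H0 + H)) S) ∨
      ∃ e e' R S S', H = e ::ₘ e' ::ₘ R ∧ Q S ∧ Q S' ∧ n - 1 ≤ val (zt φ (H0 + H)) S ∧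
        n - 1 ≤ val (zt φ (H0 + H)) S' ∧
        ((RootKind S e ∧ RootKind S' e') ∨ (PartKind S e ∧ PartKind S' e')) := by
  by_cases hdone : ∃ S, Q S ∧ n ≤ val (zt φ (H0 + H)) S
  · exact Or.inl hdone
  right
  have key : ∀ e R, H = e ::ₘ R → ∃ S, Q S ∧ n - 1 ≤ val (zt φ (H0 + H)) S ∧
      (RootKind S e ∨ PartKind S e) := by
    intro e R hR
    obtain ⟨S, hQ, hv⟩ := ih e R hR
    have h1 : val (zt φ (H0 + H)) S = val (zt φ (H0 + R)) S + ∑ X ∈ S, cut e X := by
      rw [hR, Multiset.add_cons, val_cons]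
    have h2 : 0 ≤ ∑ X ∈ S, cut e X := Finset.sum_nonneg fun X _ => cut_nonneg e X
    refine ⟨S, hQ, by omega, ?_⟩
    rcases kind_of S e with ⟨X, hX, hc⟩ | h
    · exfalso
      have h4 : cut e X ≤ ∑ X ∈ S, cut e X :=
        Finset.single_le_sum (f := fun X => cut e X) (fun X _ => cut_nonneg e X) hX
      exact hdone ⟨S, hQ, by omega⟩
    · exact h
  obtain ⟨e1, R1, h1⟩ : ∃ e R, H = e ::ₘ R := by
    obtain ⟨e, he⟩ := Multiset.card_pos_iff_exists_mem.1 (show 0 < Multiset.card H by omega)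
    obtain ⟨R, hR⟩ := Multiset.exists_cons_of_mem he
    exact ⟨e, R, hR⟩
  have c1 : 2 ≤ Multiset.card R1 := by rw [h1, Multiset.card_cons] at h3; omega
  obtain ⟨e2, R2, h2⟩ : ∃ e R, R1 = e ::ₘ R := by
    obtain ⟨e, he⟩ := Multiset.card_pos_iff_exists_mem.1 (show 0 < Multiset.card R1 by omega)
    obtain ⟨R, hR⟩ := Multiset.exists_cons_of_mem he
    exact ⟨e, R, hR⟩
  have c2 : 1 ≤ Multiset.card R2 := by rw [h2, Multiset.card_cons] at c1; omega
  obtain ⟨e3, R3, h3'⟩ : ∃ e R, R2 = e ::ₘ R := by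
    obtain ⟨e, he⟩ := Multiset.card_pos_iff_exists_mem.1 (show 0 < Multiset.card R2 by omega)
    obtain ⟨R, hR⟩ := Multiset.exists_cons_of_mem he
    exact ⟨e, R, hR⟩
  have E123 : H = e1 ::ₘ e2 ::ₘ e3 ::ₘ R3 := by rw [h1, h2, h3']
  have E213 : H = e2 ::ₘ e1 ::ₘ e3 ::ₘ R3 := by rw [E123, Multiset.cons_swap]
  have E132 : H = e1 ::ₘ e3 ::ₘ e2 ::ₘ R3 := by rw [E123, Multiset.cons_swap e2]
  have E312 : H = e3 ::ₘ e1 ::ₘ e2 ::ₘ R3 := by rw [E132, Multiset.cons_swap]
  have E231 : H = e2 ::ₘ e3 ::ₘ e1 ::ₘ R3 := by rw [E213, Multiset.cons_swap e1]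
  obtain ⟨S1, q1, v1, k1⟩ := key _ _ E123
  obtain ⟨S2, q2, v2, k2⟩ := key _ _ E213
  obtain ⟨S3, q3, v3, k3⟩ := key _ _ E312
  rcases k1 with k1 | k1 <;> rcases k2 with k2 | k2 <;> rcases k3 with k3 | k3
  · exact ⟨_, _, _, S1, S2, E123, q1, q2, v1, v2, Or.inl ⟨k1, k2⟩⟩
  · exact ⟨_, _, _, S1, S2, E123, q1, q2, v1, v2, Or.inl ⟨k1, k2⟩⟩
  · exact ⟨_, _, _, S1, S3, E132, q1, q3, v1, v3, Or.inl ⟨k1, k3⟩⟩
  · exact ⟨_, _, _, S2, S3, E231, q2, q3, v2, v3, Or.inr ⟨k2, k3⟩⟩
  · exact ⟨_, _, _, S2, S3, E231, q2, q3, v2, v3, Or.inl ⟨k2, k3⟩⟩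
  · exact ⟨_, _, _, S1, S3, E132, q1, q3, v1, v3, Or.inr ⟨k1, k3⟩⟩
  · exact ⟨_, _, _, S1, S2, E123, q1, q2, v1, v2, Or.inr ⟨k1, k2⟩⟩
  · exact ⟨_, _, _, S1, S2, E123, q1, q2, v1, v2, Or.inr ⟨k1, k2⟩⟩

theorem cons_cons_eq (H0 R : Multiset (V × V)) (e e' : V × V) :
    H0 + e ::ₘ e' ::ₘ R = (H0 + R) + {e, e'} := by
  rw [Multiset.insert_eq_cons, ← Multiset.cons_zero e', Multiset.add_cons, Multiset.add_cons,
    Multiset.add_cons, Multiset.add_cons, add_zero]

theorem uncut_pair {S : Finset (Finset V)} {e e' : V × V} (h : ∀ X ∈ S, cut e X = 0)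
    (h' : ∀ X ∈ S, cut e' X = 0) : ∀ g ∈ ({e, e'} : Multiset (V × V)), ∀ X ∈ S, cut g X = 0 := by
  intro g hg
  simp only [Multiset.insert_eq_cons, Multiset.mem_cons, Multiset.mem_singleton] at hg
  rcases hg with rfl | rfl
  exacts [h, h']

/-- **Rooted Lemma A** (Helly number two, relative to a fixed edge set `H0`). -/
theorem lemmaA_rooted {W : Finset V} {φ : Finset V → ℤ} (h0 : φ ∅ = 0)
    (hb : ∀ X ⊆ W, X.Nonempty → φ X ≤ -1) (H0 H : Multiset (V × V))
    (hz : SupOn W (zt φ (H0 + H)))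
    (hpair : ∀ E ≤ H, Multiset.card E ≤ 2 → ∃ S, SubP W S ∧
      (Multiset.card H0 : ℤ) + Multiset.card E ≤ val (zt φ (H0 + E)) S) :
    ∃ S, SubP W S ∧ (Multiset.card H0 : ℤ) + Multiset.card H ≤ val (zt φ (H0 + H)) S := by
  induction hn : Multiset.card H using Nat.strong_induction_on generalizing H with
  | _ n ihn =>
  subst hn
  by_cases h3 : Multiset.card H ≤ 2
  · exact hpair H le_rfl h3
  rcases two_of_a_kind φ (SubP W) H0 H ((Multiset.card H0 : ℤ) + Multiset.card H) (by omega)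
    (fun e R hR => by
      have hle : R ≤ H := hR ▸ Multiset.le_cons_self _ _
      have hc : Multiset.card H = Multiset.card R + 1 := by rw [hR, Multiset.card_cons]
      obtain ⟨S, hS, hv⟩ := ihn (Multiset.card R) (by omega) R
        (hz.of_le (add_le_add_right hle _)) (fun E hE => hpair E (hE.trans hle)) rfl
      exact ⟨S, hS, by rw [hc]; push_cast; omega⟩) with h | h
  · exact h
  obtain ⟨e, e', R, S, S', hH, hS, hS', hv, hv', hk⟩ := h
  obtain ⟨L, U, hL, hU, hLU, a1, _, a3, a4⟩ := unc hz hS hS'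
  have hc : (Multiset.card H : ℤ) = Multiset.card R + 2 := by
    rw [hH, Multiset.card_cons, Multiset.card_cons]; push_cast; ring
  have hE : H0 + H = (H0 + R) + {e, e'} := by rw [hH, cons_cons_eq]
  have hcnt : ∀ T, SubP W T → (∀ X ∈ T, cut e X = 0) → (∀ X ∈ T, cut e' X = 0) →
      val (zt φ (H0 + H)) T ≤ Multiset.card H0 + Multiset.card R := by
    intro T hT c1 c2
    have := cnt h0 hb (H0 + R) {e, e'} (hE ▸ hz) hT (uncut_pair c1 c2)
    rw [← hE, Multiset.card_add] at this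
    push_cast at this
    exact this
  rcases hk with ⟨k, k'⟩ | ⟨⟨X, hX, x1, x2⟩, ⟨X', hX', y1, y2⟩⟩
  · have := hcnt L hL
      (uncut_of_root (fun h => k.1 (a1 _ h).1) (fun h => k.2 (a1 _ h).1))
      (uncut_of_root (fun h => k'.1 (a1 _ h).2) (fun h => k'.2 (a1 _ h).2))
    exact ⟨U, hU, by omega⟩
  · obtain ⟨P, hP, hXP⟩ := a3 X hX
    obtain ⟨P', hP', hXP'⟩ := a4 X' hX'
    have := hcnt U hU (uncut_of_part hU hP (hXP x1) (hXP x2))
      (uncut_of_part hU hP' (hXP' y1) (hXP' y2))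
    exact ⟨L, hL, by omega⟩

end Pool.Agent.CSG

end

-- part MP_305420_co.Reduce
section

set_option linter.unusedSectionVars false

namespace Pool.Agent.CSG

open Finset

variable {V : Type*} [Fintype V] [DecidableEq V]

theorem IsSubpartition.mono {P Q : Finset (Finset V)} (h : IsSubpartition P) (hQ : Q ⊆ P) :
    IsSubpartition Q := fun X hX Y hY hne => h X (hQ hX) Y (hQ hY) hne

theorem mem_supId {I : Finset (Finset V)} {v : V} : v ∈ I.sup id ↔ ∃ X ∈ I, v ∈ X := by
  simp [Finset.mem_sup]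

/-- number of edges between `X` and `R` -/
def btw (e : V × V) (X R : Finset V) : Prop := (e.1 ∈ X ∧ e.2 ∈ R) ∨ (e.2 ∈ X ∧ e.1 ∈ R)

instance (e : V × V) (X R : Finset V) : Decidable (btw e X R) := by unfold btw; infer_instance

theorem dG_sup_le (G : Multiset (V × V)) (P : Finset (Finset V)) :
    dG G (P.sup id) ≤ ∑ X ∈ P, (Multiset.card (G.filter (fun e => btw e X (P.sup id)ᶜ)) : ℤ) := by
  induction G using Multiset.induction_on with
  | empty => simp
  | cons e G ih =>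
    rw [dG_cons]
    have h1 : ∀ X ∈ P, (Multiset.card ((e ::ₘ G).filter (fun e => btw e X (P.sup id)ᶜ)) : ℤ) =
        (if btw e X (P.sup id)ᶜ then 1 else 0) +
          Multiset.card (G.filter (fun e => btw e X (P.sup id)ᶜ)) := by
      intro X _
      rw [Multiset.filter_cons]
      split_ifs <;> simp [add_comm]
    rw [Finset.sum_congr rfl h1, Finset.sum_add_distrib]
    have h2 : cut e (P.sup id) ≤ ∑ X ∈ P, (if btw e X (P.sup id)ᶜ then (1:ℤ) else 0) := by
      have h0 : ∀ X ∈ P, (0:ℤ) ≤ (if btw e X (P.sup id)ᶜ then (1:ℤ) else 0) := by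
        intro X _; split_ifs <;> simp
      unfold cut
      split_ifs with h
      · exact Finset.sum_nonneg h0
      · have : ∃ X ∈ P, btw e X (P.sup id)ᶜ := by
          by_cases h3 : e.1 ∈ P.sup id
          · obtain ⟨X, hX, hm⟩ := mem_supId.1 h3
            exact ⟨X, hX, Or.inl ⟨hm, by rw [mem_compl]; tauto⟩⟩
          · have h4 : e.2 ∈ P.sup id := by tauto
            obtain ⟨X, hX, hm⟩ := mem_supId.1 h4
            exact ⟨X, hX, Or.inr ⟨hm, by rw [mem_compl]; tauto⟩⟩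
        obtain ⟨X, hX, hb⟩ := this
        have := Finset.single_le_sum h0 hX
        rwa [if_pos hb] at this
    omega

theorem dG_filter_of_cut_zero (G : Multiset (V × V)) (r : V × V → Prop) [DecidablePred r]
    (X : Finset V) (h : ∀ e ∈ G, ¬ r e → cut e X = 0) : dG (G.filter r) X = dG G X := by
  induction G using Multiset.induction_on with
  | empty => simp
  | cons e G ih =>
    rw [Multiset.filter_cons, dG_add, dG_cons, ih (fun e he => h e (by simp [he]))]
    split_ifs with hr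
    · simp
    · rw [h e (by simp) hr]; simp

/-- the counting lemma for star structures -/
theorem star_count (P : Finset (Finset V)) (w : Finset V → ℤ) (hP : IsSubpartition P)
    (G : Multiset (V × V))
    (h : ∀ I ⊆ P, I.Nonempty → 1 + ∑ X ∈ I, w X ≤ dG G (I.sup id)) :
    ∑ X ∈ P, (1 + w X) ≤ Multiset.card G := by
  induction' hn : P.card with n ih generalizing P G
  · rw [Finset.card_eq_zero.1 hn]; simp
  have hne : P.Nonempty := Finset.card_pos.1 (by omega)
  have h1 := (h P subset_rfl hne).trans (dG_sup_le G P)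
  obtain ⟨X, hX, hlt⟩ : ∃ X ∈ P,
      w X < (Multiset.card (G.filter (fun e => btw e X (P.sup id)ᶜ)) : ℤ) := by
    by_contra hc
    push Not at hc
    have := Finset.sum_le_sum hc
    omega
  have h2 := ih (P.erase X) (hP.mono (erase_subset _ _))
    (G.filter (fun e => ¬ btw e X (P.sup id)ᶜ)) (by
      intro I hI hIne
      rw [dG_filter_of_cut_zero]
      · exact h I (hI.trans (erase_subset _ _)) hIne
      · intro e _ he
        have he' : btw e X (P.sup id)ᶜ := not_not.1 he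
        have k1 : ∀ v ∈ X, v ∉ I.sup id := by
          intro v hv hv'
          obtain ⟨Y, hY, hm⟩ := mem_supId.1 hv'
          have hY' := mem_erase.1 (hI hY)
          exact Finset.disjoint_left.1 (hP Y hY'.2 X hX hY'.1) hm hv
        have k2 : ∀ v ∈ (P.sup id)ᶜ, v ∉ I.sup id := by
          intro v hv hv'
          obtain ⟨Y, hY, hm⟩ := mem_supId.1 hv'
          exact (mem_compl.1 hv) (mem_supId.2 ⟨Y, (mem_erase.1 (hI hY)).2, hm⟩)
        unfold cut
        rcases he' with ⟨a, b⟩ | ⟨a, b⟩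
        · rw [if_pos]; exact iff_of_false (k1 _ a) (k2 _ b)
        · rw [if_pos]; exact iff_of_false (k2 _ b) (k1 _ a))
    (by rw [card_erase_of_mem hX]; omega)
  have h3 := Finset.add_sum_erase P (fun X => 1 + w X) hX
  have h4 : Multiset.card (G.filter (fun e => btw e X (P.sup id)ᶜ)) +
      Multiset.card (G.filter (fun e => ¬ btw e X (P.sup id)ᶜ)) = Multiset.card G := by
    rw [← Multiset.card_add, Multiset.filter_add_not]
  omega

theorem sum_ms_le (M : Multiset V) (P : Finset (Finset V)) (hP : IsSubpartition P) :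
    ∑ X ∈ P, ms M X ≤ Multiset.card M := by
  induction M using Multiset.induction_on with
  | empty => simp
  | cons v M ih =>
    simp only [ms_cons, Finset.sum_add_distrib, Multiset.card_cons]
    have : ∑ X ∈ P, ind v X ≤ 1 := by
      by_cases h : ∃ X ∈ P, v ∈ X
      · obtain ⟨X, hX, hv⟩ := h
        rw [Finset.sum_eq_single_of_mem X hX]
        · exact ind_le_one _ _
        · intro Y hY hne
          exact ind_of_notMem (fun hv' => Finset.disjoint_left.1 (hP Y hY X hX hne) hv' hv)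
      · push Not at h
        rw [Finset.sum_eq_zero (fun X hX => ind_of_notMem (h X hX))]; simp
    push_cast; omega

theorem card_le_sum_ms (M : Multiset V) (P : Finset (Finset V))
    (h : ∀ v ∈ M, ∃ X ∈ P, v ∈ X) : (Multiset.card M : ℤ) ≤ ∑ X ∈ P, ms M X := by
  induction M using Multiset.induction_on with
  | empty => simp
  | cons v M ih =>
    simp only [ms_cons, Finset.sum_add_distrib, Multiset.card_cons]
    obtain ⟨X, hX, hv⟩ := h v (by simp)
    have h1 := Finset.single_le_sum (f := fun X => ind v X) (fun X _ => ind_nonneg v X) hX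
    simp only [ind_of_mem hv] at h1
    have := ih (fun u hu => h u (by simp [hu]))
    push_cast; omega

theorem lower_alpha {p : Finset V → ℤ} {G : Multiset (V × V)} (hG : ∀ X, p X ≤ dG G X)
    {P : Finset (Finset V)} (hP : IsSubpartition P) :
    ∑ X ∈ P, symmMax p X ≤ 2 * Multiset.card G := by
  have h1 : ∀ X ∈ P, symmMax p X ≤ ms (ends G) X := by
    intro X _
    have a := hG X
    have b := hG Xᶜ
    rw [dG_compl] at b
    have := dG_le_ms G X
    simp only [symmMax]; omega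
  have h2 := Finset.sum_le_sum h1
  have h3 := sum_ms_le (ends G) P hP
  rw [card_ends] at h3
  push_cast at h3; omega

theorem lower_beta {p : Finset V → ℤ} {G : Multiset (V × V)} (hG : ∀ X, p X ≤ dG G X)
    {n : ℤ} (h : Obst p n) : n ≤ Multiset.card G := by
  obtain ⟨P, w, h1, _, h3, h4⟩ := h
  refine h4.trans (star_count P w h1 G (fun I hI hne => (h3 I hI hne).trans ?_))
  have a := hG (I.sup id)
  have b := hG (I.sup id)ᶜ
  rw [dG_compl] at b
  simp only [symmMax]; omega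

theorem tight_uncross {p : Finset V → ℤ} (hp : CS p) {M : Multiset V} (hM : Valid p 0 M)
    {X Y : Finset V} (hX : symmMax p X = ms M X) (hY : symmMax p Y = ms M Y)
    (hne : (X ∩ Y).Nonempty) :
    symmMax p (X ∪ Y) = ms M (X ∪ Y) ∨
      (symmMax p (X \ Y) = ms M (X \ Y) ∧ symmMax p (Y \ X) = ms M (Y \ X) ∧
        ms M (X ∩ Y) = 0) := by
  have hv : ∀ Z, symmMax p Z ≤ ms M Z := by
    intro Z; have := valid_iff.1 hM Z; simpa using this
  by_cases h1 : X ⊆ Y
  · left; rw [union_eq_right.2 h1]; exact hY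
  by_cases h2 : Y ⊆ X
  · left; rw [union_eq_left.2 h2]; exact hX
  obtain ⟨b, hb, hb'⟩ := not_subset.1 h1
  obtain ⟨c, hc, hc'⟩ := not_subset.1 h2
  obtain ⟨a, ha⟩ := hne
  obtain ⟨ha1, ha2⟩ := mem_inter.1 ha
  have e1 := ms_sdiff M X Y
  have e2 := ms_sdiff M Y X
  rw [inter_comm] at e2
  have e3 := ms_inter_union M X Y
  have e4 := ms_nonneg M (X ∩ Y)
  have v1 := hv (X \ Y)
  have v2 := hv (Y \ X)
  have v3 := hv (X ∩ Y)
  have v4 := hv (X ∪ Y)
  by_cases h3 : X ∪ Y = univ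
  · right
    have k1 : Y \ X = Xᶜ := by
      ext v; have : v ∈ X ∪ Y := by rw [h3]; simp
      simp only [mem_union, mem_sdiff, mem_compl] at this ⊢; tauto
    have k2 : X \ Y = Yᶜ := by
      ext v; have : v ∈ X ∪ Y := by rw [h3]; simp
      simp only [mem_union, mem_sdiff, mem_compl] at this ⊢; tauto
    have k3 : symmMax p (Y \ X) = symmMax p X := by rw [k1, symmMax_compl]
    have k4 : symmMax p (X \ Y) = symmMax p Y := by rw [k2, symmMax_compl]
    omega
  obtain ⟨d, hd⟩ : ∃ d, d ∉ X ∪ Y := by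
    by_contra hc; push Not at hc; exact h3 (eq_univ_iff_forall.2 hc)
  rw [mem_union, not_or] at hd
  have s11 := hp.super ha1 ha2 hd.1 hd.2
  have s22 := hp.refl.super ha1 ha2 hd.1 hd.2
  have s12 := hp.super (X := X) (Y := Yᶜ) hb (mem_compl.2 hb') hc' (by simpa using hc)
  have s21 := hp.super (X := Y) (Y := Xᶜ) hc (mem_compl.2 hc') hb' (by simpa using hb)
  have r1 : X ∩ Yᶜ = X \ Y := by ext v; simp
  have r2 : X ∪ Yᶜ = (Y \ X)ᶜ := by ext v; simp; tauto
  have r3 : Y ∩ Xᶜ = Y \ X := by ext v; simp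
  have r4 : Y ∪ Xᶜ = (X \ Y)ᶜ := by ext v; simp; tauto
  rw [r1, r2] at s12
  rw [r3, r4] at s21
  simp only [refl, symmMax] at *
  omega

theorem exists_mass {p : Finset V → ℤ} (hp : CS p) [Nonempty V] (n : ℕ)
    (hα : ∀ P : Finset (Finset V), IsSubpartition P → ∑ X ∈ P, symmMax p X ≤ 2 * n) :
    ∃ M : Multiset V, Multiset.card M = 2 * n ∧ Valid p 0 M := by
  classical
  have hex : ∃ k, ∃ M : Multiset V, Multiset.card M = k ∧ Valid p 0 M := by
    obtain ⟨K, hK⟩ : ∃ K : ℕ, ∀ X, symmMax p X ≤ K := by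
      refine ⟨univ.sup (fun X => (symmMax p X).toNat), fun X => ?_⟩
      have := Finset.le_sup (f := fun X => (symmMax p X).toNat) (mem_univ X)
      omega
    refine ⟨_, K • (univ : Finset V).val, rfl, valid_iff.2 fun X => ?_⟩
    rcases X.eq_empty_or_nonempty with rfl | ⟨v, hv⟩
    · simp [symmMax, hp.empty, hp.univ, ms_empty]
    · have h1 : ∀ k : ℕ, (k : ℤ) ≤ ms (k • (univ : Finset V).val) X := by
        intro k
        induction k with
        | zero => simp
        | succ k ih =>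
          rw [succ_nsmul, ms_add]
          have := ms_pos_of_mem (M := (univ : Finset V).val) (by simp) hv
          push_cast; omega
      have := h1 K
      have := hK X
      simp only [dG_zero]; omega
  obtain ⟨M, hMk, hM⟩ := Nat.find_spec hex
  have hv : ∀ Z, symmMax p Z ≤ ms M Z := by
    intro Z; have := valid_iff.1 hM Z; simpa using this
  have htight : ∀ v ∈ M, ∃ X, v ∈ X ∧ symmMax p X = ms M X := by
    intro v hvM
    by_contra hc
    push Not at hc
    obtain ⟨N, rfl⟩ := Multiset.exists_cons_of_mem hvM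
    have : Valid p 0 N := by
      refine valid_iff.2 fun X => ?_
      have h1 := hv X
      rw [ms_cons] at h1
      by_cases hX : v ∈ X
      · have := hc X hX
        rw [ms_cons] at this
        rw [ind_of_mem hX] at h1 this
        simp only [dG_zero]; omega
      · rw [ind_of_notMem hX] at h1
        simp only [dG_zero]; omega
    have h2 := Nat.find_min' hex ⟨N, rfl, this⟩
    rw [Multiset.card_cons] at hMk
    omega
  have hfam : ∃ k, ∃ F : Finset (Finset V), (∑ X ∈ F, X.card) = k ∧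
      (∀ X ∈ F, symmMax p X = ms M X) ∧ ∀ v ∈ M, ∃ X ∈ F, v ∈ X := by
    refine ⟨_, univ.filter (fun X => symmMax p X = ms M X), rfl, by simp, fun v hvM => ?_⟩
    obtain ⟨X, h1, h2⟩ := htight v hvM
    exact ⟨X, by simp [h2], h1⟩
  obtain ⟨F, hFk, hF1, hF2⟩ := Nat.find_spec hfam
  have hsub : IsSubpartition F := by
    intro X hX Y hY hne
    by_contra hd
    have hne' : (X ∩ Y).Nonempty := by
      rwa [Finset.disjoint_iff_inter_eq_empty, ← ne_eq, ← nonempty_iff_ne_empty] at hd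
    have key : ∀ S : Finset (Finset V), (∀ Z ∈ S, symmMax p Z = ms M Z) →
        (∀ v ∈ M, v ∈ X ∪ Y → ∃ Z ∈ S, v ∈ Z) → X.card + Y.card ≤ ∑ Z ∈ S, Z.card := by
      intro S hS1 hS2
      have h1 := Nat.find_min' hfam ⟨S ∪ (F.erase X).erase Y, rfl, by
        intro Z hZ
        rcases mem_union.1 hZ with h | h
        · exact hS1 Z h
        · exact hF1 Z (mem_of_mem_erase (mem_of_mem_erase h)), by
        intro v hvM
        obtain ⟨Z, hZ, hvZ⟩ := hF2 v hvM
        by_cases h : v ∈ X ∪ Y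
        · obtain ⟨Z', a, b⟩ := hS2 v hvM h
          exact ⟨Z', mem_union_left _ a, b⟩
        · rw [mem_union, not_or] at h
          refine ⟨Z, mem_union_right _ (mem_erase.2 ⟨?_, mem_erase.2 ⟨?_, hZ⟩⟩), hvZ⟩
          · rintro rfl; exact h.2 hvZ
          · rintro rfl; exact h.1 hvZ⟩
      have h2 : ∑ Z ∈ S ∪ (F.erase X).erase Y, Z.card ≤
          ∑ Z ∈ S, Z.card + ∑ Z ∈ (F.erase X).erase Y, Z.card := by
        rw [← Finset.sum_union_inter]; omega
      have h3 := Finset.add_sum_erase F (fun Z => Z.card) hX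
      have h4 := Finset.add_sum_erase (F.erase X) (fun Z => Z.card)
        (mem_erase.2 ⟨hne.symm, hY⟩)
      omega
    have hc := Finset.card_pos.2 hne'
    rcases tight_uncross hp hM (hF1 X hX) (hF1 Y hY) hne' with h | ⟨h1, h2, h3⟩
    · have := key {X ∪ Y} (by simpa using h) (fun v _ hv => ⟨_, mem_singleton_self _, hv⟩)
      rw [sum_singleton] at this
      have := card_union_add_card_inter X Y
      omega
    · have := key {X \ Y, Y \ X} (by simp [h1, h2]) (by
        intro v hvM hv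
        have : v ∉ X ∩ Y := fun hh => by have := ms_pos_of_mem hvM hh; omega
        simp only [mem_union, mem_inter] at hv this
        by_cases hx : v ∈ X
        · exact ⟨X \ Y, by simp, by simp; tauto⟩
        · exact ⟨Y \ X, by simp, by simp; tauto⟩)
      have h5 : ∑ Z ∈ ({X \ Y, Y \ X} : Finset (Finset V)), Z.card ≤
          (X \ Y).card + (Y \ X).card := by
        by_cases he : X \ Y = Y \ X
        · rw [he]; simp
        · rw [sum_pair he]
      have h6 := card_sdiff_add_card_inter X Y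
      have h7 := card_sdiff_add_card_inter Y X
      rw [inter_comm] at h7
      omega
  have h1 := card_le_sum_ms M F hF2
  have h2 := hα F hsub
  have h3 : ∑ X ∈ F, symmMax p X = ∑ X ∈ F, ms M X := Finset.sum_congr rfl hF1
  obtain ⟨v0⟩ := ‹Nonempty V›
  refine ⟨M + Multiset.replicate (2 * n - Multiset.card M) v0, ?_, valid_iff.2 fun X => ?_⟩
  · rw [Multiset.card_add, Multiset.card_replicate]; omega
  · have := hv X
    have := ms_nonneg (Multiset.replicate (2 * n - Multiset.card M) v0) X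
    simp only [dG_zero, ms_add]; omega

theorem exists_ends (n : ℕ) (M : Multiset V) (h : Multiset.card M = 2 * n) :
    ∃ G : Multiset (V × V), ends G = M := by
  induction n generalizing M with
  | zero => exact ⟨0, by rw [Multiset.card_eq_zero.1 h]; simp⟩
  | succ n ih =>
    obtain ⟨a, ha⟩ := Multiset.card_pos_iff_exists_mem.1 (show 0 < Multiset.card M by omega)
    obtain ⟨N, rfl⟩ := Multiset.exists_cons_of_mem ha
    rw [Multiset.card_cons] at h
    obtain ⟨b, hb⟩ := Multiset.card_pos_iff_exists_mem.1 (show 0 < Multiset.card N by omega)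
    obtain ⟨N', rfl⟩ := Multiset.exists_cons_of_mem hb
    rw [Multiset.card_cons] at h
    obtain ⟨G, hG⟩ := ih N' (by omega)
    exact ⟨(a, b) ::ₘ G, by rw [ends_cons, hG]⟩

theorem exists_inner_edge (G : Multiset (V × V)) (X : Finset V)
    (h : dG G X < ms (ends G) X) : ∃ e ∈ G, e.1 ∈ X ∧ e.2 ∈ X := by
  induction G using Multiset.induction_on with
  | empty => simp at h
  | cons e G ih =>
    by_cases he : e.1 ∈ X ∧ e.2 ∈ X
    · exact ⟨e, by simp, he⟩
    · rw [dG_cons, ends_cons, ms_cons, ms_cons] at h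
      have : cut e X = ind e.1 X + ind e.2 X := by
        unfold cut ind
        by_cases h1 : e.1 ∈ X <;> by_cases h2 : e.2 ∈ X <;> simp_all
      obtain ⟨e', he', h'⟩ := ih (by omega)
      exact ⟨e', by simp [he'], h'⟩

theorem near_edge {p : Finset V → ℤ} (hp : CS p) {H : Multiset (V × V)}
    (hM : Valid p 0 (ends H)) {u v : V} (hH : ∀ X, p X - cut (u, v) X ≤ dG H X)
    (hne : ∃ X, u ∈ X ∧ v ∉ X ∧ dG H X < symmMax p X) :
    ∃ e ∈ H, ∀ X, u ∈ X → v ∉ X → dG H X < symmMax p X → e.1 ∈ X ∧ e.2 ∈ X := by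
  classical
  obtain ⟨N, hN, hmin⟩ := Finset.exists_min_image
    (univ.filter (fun X : Finset V => u ∈ X ∧ v ∉ X ∧ dG H X < symmMax p X)) Finset.card
    (by obtain ⟨X, hX⟩ := hne; exact ⟨X, by simpa using hX⟩)
  simp only [mem_filter, mem_univ, true_and] at hN hmin
  have hf := hp.sub_dG H
  have hle : ∀ X, p X - dG H X ≤ 1 := fun X => by
    have := hH X; have := cut_le_one (u, v) X; omega
  have hle0 : ∀ X, (u ∈ X ↔ v ∈ X) → p X - dG H X ≤ 0 := fun X hX => by
    have := hH X; simp only [cut, hX, if_true] at this; simpa using this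
  have hsub : ∀ X, u ∈ X → v ∉ X → dG H X < symmMax p X → N ⊆ X := by
    intro X hu hv hX
    by_contra hc
    obtain ⟨b, hb, hb'⟩ := not_subset.1 hc
    have hlt : (N ∩ X).card < N.card :=
      card_lt_card ⟨inter_subset_left, fun h => hb' (mem_inter.1 (h hb)).2⟩
    have hno : ¬ dG H (N ∩ X) < symmMax p (N ∩ X) := fun h => by
      have := hmin (N ∩ X) ⟨mem_inter.2 ⟨hN.1, hu⟩, fun h => hv (mem_inter.1 h).2, h⟩
      omega
    have hXN : ¬ X ⊆ N := fun h => by
      rw [inter_eq_right.2 h] at hno; exact hno hX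
    obtain ⟨c, hc1, hc2⟩ := not_subset.1 hXN
    have s11 := hf.super hN.1 hu hN.2.1 hv
    have s22 := hf.refl.super hN.1 hu hN.2.1 hv
    have s12 := hf.super (X := N) (Y := Xᶜ) hb (mem_compl.2 hb') hc2 (by simpa using hc1)
    have s21 := hf.super (X := X) (Y := Nᶜ) hc1 (mem_compl.2 hc2) hb' (by simpa using hb)
    have a1 := hle0 (N ∩ Xᶜ) (by simp [hu, hN.2.1])
    have a2 := hle0 (N ∪ Xᶜ) (by simp [hv, hN.1])
    have a3 := hle0 (X ∩ Nᶜ) (by simp [hv, hN.1])
    have a4 := hle0 (X ∪ Nᶜ) (by simp [hu, hN.2.1])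
    have a5 := hle (N ∪ X)
    have a6 := hle (N ∪ X)ᶜ
    have h1 := hN.2.2
    simp only [refl, symmMax, dG_compl] at *
    omega
  have h1 := valid_iff.1 hM N
  obtain ⟨e, he, he1, he2⟩ := exists_inner_edge H N (by
    have := hN.2.2; simp only [dG_zero] at h1; omega)
  exact ⟨e, he, fun X a b c => ⟨hsub X a b c he1, hsub X a b c he2⟩⟩

/-- The four-terminal statement. -/
def K2 (V : Type*) [Fintype V] [DecidableEq V] : Prop :=
  ∀ (p : Finset V → ℤ) (G : Multiset (V × V)) (a b c d : V), CS p →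
    Valid p G {a, b, c, d} → ¬ Solvable p (ends G + {a, b, c, d}) →
    Obst p (Multiset.card G + 3)

theorem degree_specified (hK : K2 V) (n : ℕ) (M : Multiset V) (hMn : Multiset.card M = 2 * n)
    (p : Finset V → ℤ) (hp : CS p) (hM : Valid p 0 M) (hβ : ¬ Obst p (n + 1)) :
    Solvable p M := by
  induction' hμ : (∑ X : Finset V, (p X).toNat) using Nat.strong_induction_on with μ ih
    generalizing p
  by_cases hpos : ∀ X, p X ≤ 0
  · obtain ⟨G, hG⟩ := exists_ends n M hMn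
    exact ⟨G, hG, fun X => (hpos X).trans (dG_nonneg G X)⟩
  push Not at hpos
  obtain ⟨X0, hX0⟩ := hpos
  obtain ⟨u, hu⟩ : X0.Nonempty := by
    rw [nonempty_iff_ne_empty]; rintro rfl; rw [hp.empty] at hX0; omega
  obtain ⟨v, hv⟩ : ∃ v, v ∉ X0 := by
    by_contra hc; push Not at hc
    rw [eq_univ_iff_forall.2 hc, hp.univ] at hX0; omega
  have hp' := hp.sub_dG {(u, v)}
  obtain ⟨H, hH1, hH2⟩ := ih (∑ X : Finset V, (p X - dG {(u, v)} X).toNat) (by
      rw [← hμ]
      refine Finset.sum_lt_sum (fun X _ => ?_) ⟨X0, mem_univ _, ?_⟩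
      · have := dG_nonneg {(u, v)} X; omega
      · have : dG {(u, v)} X0 = 1 := by simp [cut, hu, hv]
        omega) _ hp' (by
      intro X
      have := hM X
      have := dG_nonneg {(u, v)} X
      have := dG_nonneg {(u, v)} Xᶜ
      simp only [dG_zero] at *; omega)
    (fun h => hβ (h.mono (fun X => by have := dG_nonneg {(u, v)} X; omega) le_rfl)) rfl
  simp only [dG_singleton] at hH2
  by_contra hns
  have hsep : ∀ X, dG H X < symmMax p X → ¬ (u ∈ X ↔ v ∈ X) := by
    intro X hX hiff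
    have a := hH2 X
    have b := hH2 Xᶜ
    rw [cut_compl, dG_compl] at b
    have : cut (u, v) X = 0 := by simp [cut, hiff]
    simp only [symmMax] at hX; omega
  obtain ⟨X1, hX1⟩ : ∃ X, u ∈ X ∧ v ∉ X ∧ dG H X < symmMax p X := by
    have : ∃ X, dG H X < p X := by
      by_contra hc; push Not at hc; exact hns ⟨H, hH1, hc⟩
    obtain ⟨X, hX⟩ := this
    have h1 : dG H X < symmMax p X := hX.trans_le (le_symmMax p X)
    have h2 := hsep X h1
    by_cases h3 : u ∈ X
    · exact ⟨X, h3, by tauto, h1⟩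
    · refine ⟨Xᶜ, mem_compl.2 h3, by simp; tauto, ?_⟩
      rwa [dG_compl, symmMax_compl]
  obtain ⟨e1, he1, k1⟩ := near_edge hp (hH1 ▸ hM) hH2 ⟨X1, hX1⟩
  obtain ⟨e2, he2, k2⟩ := near_edge hp (hH1 ▸ hM) (u := v) (v := u) (by
      intro X; have := hH2 X
      have : cut (v, u) X = cut (u, v) X := by simp [cut, iff_comm]
      omega)
    ⟨X1ᶜ, mem_compl.2 hX1.2.1, by simpa using hX1.1, by
      rw [dG_compl, symmMax_compl]; exact hX1.2.2⟩
  have hne : e2 ≠ e1 := by
    rintro rfl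
    have a := (k1 X1 hX1.1 hX1.2.1 hX1.2.2).1
    have b := (k2 X1ᶜ (mem_compl.2 hX1.2.1) (by simpa using hX1.1) (by
      rw [dG_compl, symmMax_compl]; exact hX1.2.2)).1
    exact (mem_compl.1 b) a
  obtain ⟨H1, rfl⟩ := Multiset.exists_cons_of_mem he1
  have he2' : e2 ∈ H1 := by
    rcases Multiset.mem_cons.1 he2 with h | h
    · exact absurd h hne
    · exact h
  obtain ⟨G, rfl⟩ := Multiset.exists_cons_of_mem he2'
  have hMe : ends G + {e1.1, e1.2, e2.1, e2.2} = M := by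
    rw [← hH1, ends_cons, ends_cons, add_comm]
    simp [Multiset.insert_eq_cons]
  have hcard : Multiset.card G + 2 = n := by
    have := card_ends (e1 ::ₘ e2 ::ₘ G)
    rw [hH1, hMn, Multiset.card_cons, Multiset.card_cons] at this
    omega
  have := hK p G e1.1 e1.2 e2.1 e2.2 hp (valid_iff.2 fun X => by
    have c1 := cut_le_ind e1 X
    have c2 := cut_le_ind e2 X
    simp only [Multiset.insert_eq_cons, ms_cons, ms_singleton]
    by_cases hX : dG (e1 ::ₘ e2 ::ₘ G) X < symmMax p X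
    · have b1 := hH2 X
      have b2 := hH2 Xᶜ
      rw [cut_compl, dG_compl] at b2
      have b3 := cut_le_one (u, v) X
      have h2 := hsep X hX
      by_cases h3 : u ∈ X
      · obtain ⟨a, b⟩ := k1 X h3 (by tauto) hX
        have : cut e1 X = 0 := by simp [cut, a, b]
        rw [ind_of_mem a, ind_of_mem b] at *
        simp only [dG_cons, symmMax] at *; omega
      · obtain ⟨a, b⟩ := k2 X (by tauto) h3 hX
        have : cut e2 X = 0 := by simp [cut, a, b]
        rw [ind_of_mem a, ind_of_mem b] at *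
        simp only [dG_cons, symmMax] at *; omega
    · simp only [dG_cons] at hX; omega) (hMe ▸ hns)
  exact hβ (this.mono (fun _ => le_rfl) (by omega))

theorem cutDeg_map (G : Multiset (V × V)) (X : Finset V) :
    (cutDeg (G.map (fun e => s(e.1, e.2))) X : ℤ) = dG G X := by
  classical
  induction G using Multiset.induction_on with
  | empty => simp [cutDeg]
  | cons e G ih =>
    rw [dG_cons, ← ih]
    simp only [cutDeg, Multiset.map_cons, Multiset.filter_cons, Multiset.card_add]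
    have : (∃ u ∈ X, ∃ v, v ∉ X ∧ s(e.1, e.2) = s(u, v)) ↔ ¬ (e.1 ∈ X ↔ e.2 ∈ X) := by
      constructor
      · rintro ⟨u, hu, v, hv, h⟩
        rcases Sym2.eq_iff.1 h with ⟨rfl, rfl⟩ | ⟨rfl, rfl⟩ <;> tauto
      · intro h
        by_cases h1 : e.1 ∈ X
        · exact ⟨e.1, h1, e.2, by tauto, rfl⟩
        · exact ⟨e.2, by tauto, e.1, h1, Sym2.eq_swap⟩
    unfold cut
    by_cases h : (e.1 ∈ X ↔ e.2 ∈ X)
    · rw [if_neg (by rw [this]; tauto), if_pos h]; simp
    · rw [if_pos (by rw [this]; tauto), if_neg h]; simp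

theorem exists_pairs (G : Multiset (Sym2 V)) :
    ∃ G' : Multiset (V × V), G = G'.map (fun e => s(e.1, e.2)) := by
  induction G using Multiset.induction_on with
  | empty => exact ⟨0, by simp⟩
  | cons e G ih =>
    obtain ⟨G', rfl⟩ := ih
    induction e using Sym2.ind with
    | h a b => exact ⟨(a, b) ::ₘ G', by simp⟩

theorem obst_of_star {p : Finset V → ℤ} {b : ℕ} (h : b ∈ starValues p) : Obst p b := by
  obtain ⟨P, w, h1, h2, rfl⟩ := h
  exact ⟨P, fun X => w X, h1, fun X _ => by positivity, h2, by push_cast; exact le_rfl⟩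

theorem star_of_obst {p : Finset V → ℤ} {n : ℤ} (h : Obst p n) :
    ∃ b ∈ starValues p, n ≤ b := by
  obtain ⟨P, w, h1, h2, h3, h4⟩ := h
  refine ⟨_, ⟨P, fun X => (w X).toNat, h1, fun I hI hne => ?_, rfl⟩, ?_⟩
  · rw [Finset.sum_congr rfl (fun X hX => Int.toNat_of_nonneg (h2 X (hI hX)))]
    exact h3 I hI hne
  · push_cast
    rw [Finset.sum_congr rfl (fun X hX => by rw [Int.toNat_of_nonneg (h2 X hX)])]
    exact h4

theorem min_max_of_K2 (hK : K2 V) (p : Finset V → ℤ) (hp : CrossingSupermodular p)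
    (h0 : p ∅ = 0) (h1 : p univ = 0) :
    ∃ α β : ℕ, IsGreatest (subpartitionValues p) (α : ℤ) ∧ IsGreatest (starValues p) β ∧
      IsLeast {n : ℕ | ∃ G : Multiset (Sym2 V), (∀ e ∈ G, ¬ e.IsDiag) ∧
        Multiset.card G = n ∧ Covers G p} (max ((α + 1) / 2) β) := by
  classical
  have hcs : CS p := ⟨hp, h0, h1⟩
  obtain ⟨P0, hP0, hmax⟩ := Finset.exists_max_image
    (univ.filter (fun P : Finset (Finset V) => IsSubpartition P))
    (fun P => ∑ X ∈ P, symmMax p X) ⟨∅, by simp [IsSubpartition]⟩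
  simp only [mem_filter, mem_univ, true_and] at hP0 hmax
  have hα0 : 0 ≤ ∑ X ∈ P0, symmMax p X := by
    simpa using hmax ∅ (by simp [IsSubpartition])
  obtain ⟨α, hα⟩ := Int.eq_ofNat_of_zero_le hα0
  have hbdd : BddAbove (starValues p) := by
    refine ⟨α, fun b hb => ?_⟩
    obtain ⟨P, w, k1, k2, rfl⟩ := hb
    have := hmax P k1
    have h3 : ∀ X ∈ P, (1 + w X : ℤ) ≤ symmMax p X := fun X hX => by
      simpa using k2 {X} (by simpa using hX) (by simp)
    have := Finset.sum_le_sum h3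
    have h4 : ((∑ X ∈ P, (1 + w X) : ℕ) : ℤ) ≤ α := by push_cast; omega
    exact_mod_cast h4
  have hne : (starValues p).Nonempty := ⟨0, ∅, fun _ => 0, by simp [IsSubpartition], by simp, by simp⟩
  have hβ : IsGreatest (starValues p) (sSup (starValues p)) :=
    ⟨Nat.sSup_mem hne hbdd, fun b hb => le_csSup hbdd hb⟩
  set β := sSup (starValues p)
  have hlow : ∀ G : Multiset (Sym2 V), Covers G p → max ((α + 1) / 2) β ≤ Multiset.card G := by
    intro G hG
    obtain ⟨G', rfl⟩ := exists_pairs G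
    have hG' : ∀ X, p X ≤ dG G' X := fun X => by rw [← cutDeg_map]; exact hG X
    have a := lower_alpha hG' hP0
    have b := lower_beta hG' (obst_of_star hβ.1)
    rw [Multiset.card_map]
    omega
  refine ⟨α, β, ⟨⟨P0, hP0, hα.symm⟩, ?_⟩, hβ, ?_, ?_⟩
  · rintro a ⟨P, hP, rfl⟩; rw [← hα]; exact hmax P hP
  · obtain ⟨G, hG1, hG2⟩ : ∃ G : Multiset (V × V),
        Multiset.card G ≤ max ((α + 1) / 2) β ∧ ∀ X, p X ≤ dG G X := by
      rcases isEmpty_or_nonempty V with hV | hV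
      · refine ⟨0, by simp, fun X => ?_⟩
        rw [Finset.eq_empty_of_isEmpty X, h0]; simp
      obtain ⟨M, hM1, hM2⟩ := exists_mass hcs (max ((α + 1) / 2) β) (fun P hP => by
        have := hmax P hP; omega)
      obtain ⟨G, hG1, hG2⟩ := degree_specified hK _ M hM1 p hcs hM2 (fun h => by
        obtain ⟨b, hb, hle⟩ := star_of_obst h
        have := hβ.2 hb
        omega)
      refine ⟨G, ?_, hG2⟩
      have := card_ends G
      rw [hG1, hM1] at this; omega
    have hcov : Covers ((G.filter (fun e => e.1 ≠ e.2)).map (fun e => s(e.1, e.2))) p := by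
      intro X
      rw [cutDeg_map, dG_filter_of_cut_zero]
      · exact hG2 X
      · intro e _ he
        have : e.1 = e.2 := not_not.1 he
        simp [cut, this]
    refine ⟨_, ?_, ?_, hcov⟩
    · intro e he
      obtain ⟨e', he', rfl⟩ := Multiset.mem_map.1 he
      simpa using (Multiset.mem_filter.1 he').2
    · have a := hlow _ hcov
      have b := Multiset.card_le_card (Multiset.filter_le (fun e : V × V => e.1 ≠ e.2) G)
      rw [Multiset.card_map] at a ⊢
      omega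
  · rintro n ⟨G, _, rfl, hG⟩
    exact hlow G hG

end Pool.Agent.CSG

end

-- part MP_305420_co.LemA2
section

/-! The unrooted Helly lemma (Lemma A) and its dual. -/

set_option linter.unusedSectionVars false

namespace Pool.Agent.CSG

open Finset

variable {V : Type*} [Fintype V] [DecidableEq V]

/-- some point of `W` is not covered -/
def Rooted (W : Finset V) (S : Finset (Finset V)) : Prop := ∃ r ∈ W, ¬ Cov S r

/-- standing assumptions of Lemma A -/
structure LAHyp (W : Finset V) (φ : Finset V → ℤ) (H : Multiset (V × V)) : Prop where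
  h0 : φ ∅ = 0
  hW : φ W ≤ 0
  hb : ∀ X ⊆ W, X.Nonempty → X ≠ W → φ X ≤ -1
  inW : ∀ e ∈ H, e.1 ∈ W ∧ e.2 ∈ W
  sup : SupOn W (zt φ H)

/-- a proper tight set -/
def Tight (W : Finset V) (φ : Finset V → ℤ) (Z : Finset V) : Prop := Z ⊆ W ∧ Z ≠ W ∧ -1 ≤ φ Z

/-- the edge is cut by tight sets in both directions -/
def Opp (W : Finset V) (φ : Finset V → ℤ) (e : V × V) : Prop :=
  ∃ X Y, Tight W φ X ∧ Tight W φ Y ∧ e.1 ∈ X ∧ e.2 ∉ X ∧ e.1 ∉ Y ∧ e.2 ∈ Y

/-- the edge set `E` has an exact rooted local structure -/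
def Exact (W : Finset V) (φ : Finset V → ℤ) (E : Multiset (V × V)) : Prop :=
  ∃ S, SubP W S ∧ Rooted W S ∧ (Multiset.card E : ℤ) ≤ val (zt φ E) S

/-- a partition of `W` into zero sets -/
structure ZP (W : Finset V) (z : Finset V → ℤ) (U : Finset (Finset V)) : Prop where
  subp : SubP W U
  cov : ∀ v ∈ W, Cov U v
  zero : ∀ P ∈ U, z P = 0

theorem LAHyp.of_le {W : Finset V} {φ : Finset V → ℤ} {H G : Multiset (V × V)}
    (h : LAHyp W φ G) (hle : H ≤ G) : LAHyp W φ H :=
  ⟨h.h0, h.hW, h.hb, fun e he => h.inW e (Multiset.mem_of_le hle he), h.sup.of_le hle⟩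

theorem dG_eq_zero {G : Multiset (V × V)} {X : Finset V} (h : ∀ e ∈ G, cut e X = 0) :
    dG G X = 0 := by
  induction G using Multiset.induction_on with
  | empty => simp
  | cons e G ih =>
    rw [dG_cons, h e (Multiset.mem_cons_self _ _),
      ih (fun e' he' => h e' (Multiset.mem_cons_of_mem he'))]
    simp

theorem exists_cut_of_pos {G : Multiset (V × V)} {X : Finset V} (h : 1 ≤ dG G X) :
    ∃ e ∈ G, cut e X = 1 := by
  by_contra hc
  have : dG G X = 0 := dG_eq_zero fun e he => by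
    rcases cut_zero_or_one e X with h0 | h0
    · exact h0
    · exact absurd ⟨e, he, h0⟩ hc
  omega

theorem cut_le_dG {G : Multiset (V × V)} {e : V × V} (he : e ∈ G) (X : Finset V) :
    cut e X ≤ dG G X := by
  obtain ⟨R, rfl⟩ := Multiset.exists_cons_of_mem he
  have := dG_nonneg R X
  rw [dG_cons]; omega

theorem dG_sdiff {W : Finset V} {G : Multiset (V × V)} (h : ∀ e ∈ G, e.1 ∈ W ∧ e.2 ∈ W)
    (X : Finset V) : dG G (W \ X) = dG G X := by
  induction G using Multiset.induction_on with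
  | empty => simp
  | cons e G ih =>
    rw [dG_cons, dG_cons, ih (fun e' he' => h e' (Multiset.mem_cons_of_mem he'))]
    obtain ⟨h1, h2⟩ := h e (Multiset.mem_cons_self _ _)
    congr 1
    unfold cut
    by_cases a : e.1 ∈ X <;> by_cases b : e.2 ∈ X <;> simp [a, b, h1, h2]

theorem LAHyp.ztW {W : Finset V} {φ : Finset V → ℤ} {H : Multiset (V × V)} (h : LAHyp W φ H) :
    zt φ H W ≤ 0 := by
  have : dG H W = 0 := dG_eq_zero fun e he => cut_eq_zero.2 (by simp [h.inW e he])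
  have := h.hW
  unfold zt; omega

theorem Rooted.ne {W : Finset V} {S : Finset (Finset V)} (h : Rooted W S) {X : Finset V}
    (hX : ∀ v ∈ X, Cov S v) : X ≠ W := by
  rintro rfl
  obtain ⟨r, hr, hc⟩ := h
  exact hc (hX r hr)

theorem cnt_rooted {W : Finset V} {φ : Finset V → ℤ} {H G : Multiset (V × V)}
    (h : LAHyp W φ (H + G)) {S : Finset (Finset V)} (hS : SubP W S) (hr : Rooted W S)
    (hG : ∀ e ∈ G, ∀ X ∈ S, cut e X = 0) : val (zt φ (H + G)) S ≤ Multiset.card H := by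
  obtain ⟨r, hrW, hr⟩ := hr
  refine cnt (W := W.erase r) h.h0 (fun X hX hne => h.hb X (hX.trans (Finset.erase_subset _ _))
    hne ?_) H G (h.sup.mono (Finset.erase_subset _ _)) (hS.erase_root hr) hG
  rintro rfl
  exact Finset.notMem_erase r _ (hX hrW)

theorem sup_eq_of_cov {W : Finset V} {U : Finset (Finset V)} (hU : SubP W U)
    (hc : ∀ v ∈ W, Cov U v) : U.sup id = W := by
  ext v
  rw [mem_sup_id]
  exact ⟨fun ⟨P, hP, hv⟩ => hU.sub P hP hv, hc v⟩

theorem SubP.sup_subset {W : Finset V} {U : Finset (Finset V)} (hU : SubP W U) : U.sup id ⊆ W := by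
  intro v hv
  obtain ⟨P, hP, hv⟩ := mem_sup_id.1 hv
  exact hU.sub P hP hv

theorem erase_rooted {W : Finset V} {U : Finset (Finset V)} (hU : SubP W U) {X : Finset V}
    (hX : X ∈ U) : Rooted W (U.erase X) := by
  obtain ⟨r, hr⟩ := hU.ne X hX
  refine ⟨r, hU.sub X hX hr, ?_⟩
  rintro ⟨P, hP, hv⟩
  obtain ⟨hne, hP⟩ := Finset.mem_erase.1 hP
  exact hne (hU.eq_of_mem hP hX hv hr)

theorem drop_or_zero {W : Finset V} {z : Finset V → ℤ} (hz : SupOn W z) (h0 : z ∅ = 0)
    (hW : z W ≤ 0) {U : Finset (Finset V)} (hU : SubP W U) :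
    (∃ U' ⊆ U, Rooted W U' ∧ val z U ≤ val z U') ∨ ZP W z U := by
  by_cases hr : Rooted W U
  · exact Or.inl ⟨U, Finset.Subset.refl _, hr, le_rfl⟩
  have hc : ∀ v ∈ W, Cov U v := fun v hv => by
    by_contra h; exact hr ⟨v, hv, h⟩
  by_cases hneg : ∃ X ∈ U, z X ≤ -1
  · obtain ⟨X, hX, hzX⟩ := hneg
    refine Or.inl ⟨U.erase X, Finset.erase_subset _ _, erase_rooted hU hX, ?_⟩
    rw [val_erase z hX]; omega
  · right
    have hnn : ∀ X ∈ U, 0 ≤ z X := fun X hX => by
      by_contra h; exact hneg ⟨X, hX, by omega⟩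
    have h1 := sum_le_sup hz h0 hU
    rw [sup_eq_of_cov hU hc] at h1
    have h2 : ∑ P ∈ U, z P = 0 := le_antisymm (h1.trans hW) (Finset.sum_nonneg hnn)
    exact ⟨hU, hc, (Finset.sum_eq_zero_iff_of_nonneg hnn).1 h2⟩

theorem ZP.val_eq {W : Finset V} {z : Finset V → ℤ} {U : Finset (Finset V)} (h : ZP W z U) :
    val z U = U.card := by
  unfold val
  rw [Finset.sum_congr rfl (fun P hP => by rw [h.zero P hP])]
  simp

theorem ZP.split {W : Finset V} {z : Finset V → ℤ} {U : Finset (Finset V)} (h : ZP W z U)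
    (hz : SupOn W z) (hW : z W ≤ 0) {X : Finset V} (hX : X ⊆ W) :
    z X ≤ ∑ P ∈ U, z (X ∩ P) := by
  have h1 := sum_core hz h.subp hX
  rw [Finset.sum_eq_zero h.zero, sup_eq_of_cov h.subp h.cov, Finset.union_eq_right.2 hX] at h1
  omega

theorem ZP.union_nonneg {W : Finset V} {z : Finset V → ℤ} {U : Finset (Finset V)} (h : ZP W z U)
    (hz : SupOn W z) (h0 : z ∅ = 0) {I : Finset (Finset V)} (hI : I ⊆ U) : 0 ≤ z (I.sup id) := by
  have h1 := sum_le_sup hz h0 (h.subp.subset hI)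
  rwa [Finset.sum_eq_zero (fun P hP => h.zero P (hI hP))] at h1

theorem SubP.replace {W : Finset V} {S A : Finset (Finset V)} (hS : SubP W S) {P : Finset V}
    (hP : P ∈ S) (hA : SubP P A) (z : Finset V → ℤ) :
    SubP W (S.erase P ∪ A) ∧ val z (S.erase P ∪ A) = val z S - (1 + z P) + val z A ∧
      ∀ v ∈ P, Cov (S.erase P ∪ A) v → Cov A v := by
  obtain ⟨h1, h2⟩ := (hS.subset (Finset.erase_subset P S)).union (hA.mono (hS.sub P hP))
    (fun X hX Y hY => by
      obtain ⟨hne, hX⟩ := Finset.mem_erase.1 hX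
      exact (hS.disj X hX P hP hne).mono_right (hA.sub Y hY)) z
  refine ⟨h1, by rw [h2, val_erase z hP], ?_⟩
  rintro v hv ⟨X, hX, hvX⟩
  rcases Finset.mem_union.1 hX with h | h
  · obtain ⟨hne, hX⟩ := Finset.mem_erase.1 h
    exact absurd (hS.eq_of_mem hX hP hvX hv) hne
  · exact ⟨X, h, hvX⟩

theorem ZP.win1 {W : Finset V} {z : Finset V → ℤ} {U A : Finset (Finset V)} (h : ZP W z U)
    {P : Finset V} (hP : P ∈ U) (hA : SubP P A) {r : V} (hr : r ∈ P) (hrA : ¬ Cov A r) :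
    ∃ S, SubP W S ∧ Rooted W S ∧ (U.card : ℤ) - 1 + val z A ≤ val z S := by
  obtain ⟨h1, h2, h3⟩ := h.subp.replace hP hA z
  refine ⟨_, h1, ⟨r, h.subp.sub P hP hr, fun hc => hrA (h3 r hr hc)⟩, ?_⟩
  rw [h2, h.val_eq, h.zero P hP]; omega

theorem not_cov_single {Y : Finset V} {r : V} (h : r ∉ Y) : ¬ Cov {Y} r := by
  rintro ⟨X, hX, hv⟩
  exact h (Finset.mem_singleton.1 hX ▸ hv)

theorem ZP.win2 {W : Finset V} {z : Finset V → ℤ} {U A : Finset (Finset V)} (h : ZP W z U)
    {P P' Y : Finset V} (hP : P ∈ U) (hP' : P' ∈ U) (hne : P' ≠ P) (hA : SubP P A) (hY : Y ⊆ P')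
    (hYne : Y.Nonempty) (hzY : 0 ≤ z Y) {r : V} (hr : r ∈ P') (hrY : r ∉ Y) :
    ∃ S, SubP W S ∧ Rooted W S ∧ (U.card : ℤ) - 1 + val z A ≤ val z S := by
  obtain ⟨h1, h2, _⟩ := h.subp.replace hP hA z
  have hm : P' ∈ U.erase P ∪ A := Finset.mem_union_left _ (Finset.mem_erase.2 ⟨hne, hP'⟩)
  obtain ⟨h4, h5, h6⟩ := h1.replace hm (SubP.single hY hYne) z
  refine ⟨_, h4, ⟨r, h.subp.sub P' hP' hr, fun hc => not_cov_single hrY (h6 r hr hc)⟩, ?_⟩
  rw [h5, h2, h.val_eq, h.zero P hP, h.zero P' hP', val_single]; omega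

theorem ZP.piece_zero {W : Finset V} {z : Finset V → ℤ} {U : Finset (Finset V)} (h : ZP W z U)
    (hz : SupOn W z) (hW : z W ≤ 0) (hnp : ∀ P ∈ U, ∀ Y ⊆ P, z Y ≤ 0) {X : Finset V} (hX : X ⊆ W) :
    z X ≤ 0 ∧ (0 ≤ z X → ∀ P ∈ U, z (X ∩ P) = 0) := by
  have h1 := h.split hz hW hX
  have h2 : ∀ P ∈ U, z (X ∩ P) ≤ 0 := fun P hP => hnp P hP _ Finset.inter_subset_right
  have h3 := Finset.sum_nonpos h2
  refine ⟨by omega, fun h4 => (Finset.sum_eq_zero_iff_of_nonpos h2).1 (by omega)⟩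

theorem SubP.pair {W X Y : Finset V} (hX : X ⊆ W) (hY : Y ⊆ W) (hXne : X.Nonempty)
    (hYne : Y.Nonempty) (hd : Disjoint X Y) (z : Finset V → ℤ) :
    SubP W ({X} ∪ {Y}) ∧ val z ({X} ∪ {Y}) = 2 + z X + z Y ∧
      ∀ v, Cov ({X} ∪ {Y}) v → v ∈ X ∨ v ∈ Y := by
  obtain ⟨h1, h2⟩ := (SubP.single hX hXne).union (SubP.single hY hYne) (fun A hA B hB => by
    rw [Finset.mem_singleton.1 hA, Finset.mem_singleton.1 hB]; exact hd) z
  refine ⟨h1, by rw [h2, val_single, val_single]; ring, ?_⟩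
  rintro v ⟨A, hA, hv⟩
  rcases Finset.mem_union.1 hA with h | h
  · exact Or.inl (Finset.mem_singleton.1 h ▸ hv)
  · exact Or.inr (Finset.mem_singleton.1 h ▸ hv)

theorem val_le_card_filter {z : Finset V → ℤ} {S : Finset (Finset V)} (h : ∀ X ∈ S, z X ≤ 0) :
    val z S ≤ (S.filter (fun X => 0 ≤ z X)).card := by
  unfold val
  rw [← Finset.sum_filter_add_sum_filter_not S (fun X => 0 ≤ z X)]
  have h1 : ∑ X ∈ S.filter (fun X => ¬ 0 ≤ z X), (1 + z X) ≤ 0 :=
    Finset.sum_nonpos fun X hX => by have := (Finset.mem_filter.1 hX).2; omega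
  have h2 : ∑ X ∈ S.filter (fun X => 0 ≤ z X), (1 + z X) ≤
      ∑ X ∈ S.filter (fun X => 0 ≤ z X), (1 : ℤ) :=
    Finset.sum_le_sum fun X hX => by have := h X (Finset.mem_filter.1 hX).1; omega
  simp only [Finset.sum_const, nsmul_eq_mul, mul_one] at h2
  omega

theorem Tight.zt_nonneg {W : Finset V} {φ : Finset V → ℤ} {H : Multiset (V × V)} {Z : Finset V}
    (hZ : Tight W φ Z) {e : V × V} (he : e ∈ H) (hc : cut e Z = 1) : 0 ≤ zt φ H Z := by
  have := cut_le_dG he Z
  have := hZ.2.2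
  unfold zt; omega

/-- root-root case with a zero partition -/
theorem rr_case {W : Finset V} {φ : Finset V → ℤ} {H : Multiset (V × V)} (h : LAHyp W φ H)
    {U S : Finset (Finset V)} (hU : ZP W (zt φ H) U) (hk : (Multiset.card H : ℤ) ≤ U.card)
    {e : V × V} (he : e ∈ H) (hT : ∃ Z, Tight W φ Z ∧ cut e Z = 1) (hS : SubP W S)
    (hv : (Multiset.card H : ℤ) - 1 ≤ val (zt φ H) S) (hr : RootKind S e) : Exact W φ H := by
  by_contra hno
  have hat : ∀ P ∈ U, ∀ Y ⊆ P, Y.Nonempty → Y ≠ P → zt φ H Y ≤ -1 := by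
    intro P hP Y hY hne hYP
    by_contra hc
    obtain ⟨r, hrP, hrY⟩ := Finset.exists_of_ssubset (Finset.ssubset_iff_subset_ne.2 ⟨hY, hYP⟩)
    obtain ⟨S', a, b, c⟩ := hU.win1 hP (SubP.single hY hne) hrP (not_cov_single hrY)
    rw [val_single] at c
    exact hno ⟨S', a, b, by omega⟩
  have hnp : ∀ P ∈ U, ∀ Y ⊆ P, zt φ H Y ≤ 0 := by
    intro P hP Y hY
    rcases Y.eq_empty_or_nonempty with rfl | hne
    · exact (zt_empty h.h0 H).le
    by_cases hYP : Y = P
    · rw [hYP, hU.zero P hP]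
    · have := hat P hP Y hY hne hYP; omega
  have hcl : ∀ X ⊆ W, 0 ≤ zt φ H X → ∀ P ∈ U, ∀ v ∈ X, v ∈ P → P ⊆ X := by
    intro X hX h0 P hP v hvX hvP
    have h1 := (hU.piece_zero h.sup h.ztW hnp hX).2 h0 P hP
    by_contra hc
    have := hat P hP (X ∩ P) Finset.inter_subset_right ⟨v, Finset.mem_inter.2 ⟨hvX, hvP⟩⟩
      (fun heq => hc (Finset.inter_eq_right.1 heq))
    omega
  obtain ⟨P1, hP1, x1⟩ := hU.cov _ (h.inW e he).1
  obtain ⟨P2, hP2, x2⟩ := hU.cov _ (h.inW e he).2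
  by_cases h12 : P1 = P2
  · subst h12
    obtain ⟨Z, hZ, hc⟩ := hT
    have h0 := hZ.zt_nonneg he hc
    rcases cut_eq_one.1 hc with ⟨a, b⟩ | ⟨a, b⟩
    · exact b (hcl Z hZ.1 h0 P1 hP1 _ a x1 x2)
    · exact a (hcl Z hZ.1 h0 P1 hP1 _ b x2 x1)
  · have hk' : (U.card : ℤ) ≤ Multiset.card H := by
      by_contra hc
      refine hno ⟨U.erase P1, hU.subp.subset (Finset.erase_subset _ _),
        erase_rooted hU.subp hP1, ?_⟩
      rw [val_erase _ hP1, hU.val_eq, hU.zero P1 hP1]; omega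
    have h1 := val_le_card_filter (z := zt φ H) (S := S)
      (fun X hX => (hU.piece_zero h.sup h.ztW hnp (hS.sub X hX)).1)
    have hex : ∀ X ∈ S.filter (fun X => 0 ≤ zt φ H X),
        ∃ Q ∈ (U.erase P1).erase P2, Q ⊆ X := by
      intro X hX
      obtain ⟨hX, h0⟩ := Finset.mem_filter.1 hX
      obtain ⟨v, hv⟩ := hS.ne X hX
      obtain ⟨Q, hQ, hvQ⟩ := hU.cov v (hS.sub X hX hv)
      have hQX := hcl X (hS.sub X hX) h0 Q hQ v hv hvQ
      refine ⟨Q, Finset.mem_erase.2 ⟨?_, Finset.mem_erase.2 ⟨?_, hQ⟩⟩, hQX⟩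
      · rintro rfl; exact hr.2 ⟨X, hX, hQX x2⟩
      · rintro rfl; exact hr.1 ⟨X, hX, hQX x1⟩
    choose! f hf1 hf2 using hex
    have h2 : (S.filter (fun X => 0 ≤ zt φ H X)).card ≤ ((U.erase P1).erase P2).card := by
      refine Finset.card_le_card_of_injOn f (fun X hX => hf1 X (Finset.mem_coe.1 hX)) ?_
      intro X hX Y hY hXY
      have hX' := Finset.mem_coe.1 hX
      have hY' := Finset.mem_coe.1 hY
      obtain ⟨v, hv⟩ := hU.subp.ne _
        (Finset.mem_of_mem_erase (Finset.mem_of_mem_erase (hf1 X hX')))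
      exact hS.eq_of_mem (Finset.mem_filter.1 hX').1 (Finset.mem_filter.1 hY').1
        (hf2 X hX' hv) (hf2 Y hY' (hXY ▸ hv))
    have h3 : ((U.erase P1).erase P2).card + 2 = U.card := by
      have a := Finset.card_erase_add_one hP1
      have b := Finset.card_erase_add_one (Finset.mem_erase.2 ⟨Ne.symm h12, hP2⟩)
      omega
    omega

/-- number of edges inside a set -/
def inn (R : Multiset (V × V)) (B : Finset V) : ℤ := (R.map (fun g => ind g.1 B * ind g.2 B)).sum

theorem inn_cons (g : V × V) (R : Multiset (V × V)) (B : Finset V) :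
    inn (g ::ₘ R) B = ind g.1 B * ind g.2 B + inn R B := by simp [inn]

theorem inn_nonneg (R : Multiset (V × V)) (B : Finset V) : 0 ≤ inn R B := by
  induction R using Multiset.induction_on with
  | empty => simp [inn]
  | cons g R ih =>
    rw [inn_cons]
    have := mul_nonneg (ind_nonneg g.1 B) (ind_nonneg g.2 B)
    omega

theorem inn_mono (R : Multiset (V × V)) {B B' : Finset V} (h : B ⊆ B') : inn R B ≤ inn R B' := by
  induction R using Multiset.induction_on with
  | empty => simp [inn]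
  | cons g R ih =>
    rw [inn_cons, inn_cons]
    have := mul_le_mul (ind_mono g.1 h) (ind_mono g.2 h) (ind_nonneg _ _) (ind_nonneg _ _)
    omega

theorem inn_grow {R : Multiset (V × V)} {g : V × V} (hg : g ∈ R) {B B' : Finset V} (h : B ⊆ B')
    (h1 : g.1 ∈ B') (h2 : g.2 ∈ B') (h3 : g.1 ∉ B ∨ g.2 ∉ B) : inn R B + 1 ≤ inn R B' := by
  obtain ⟨R', rfl⟩ := Multiset.exists_cons_of_mem hg
  rw [inn_cons, inn_cons, ind_of_mem h1, ind_of_mem h2]
  have := inn_mono R' h
  rcases h3 with h3 | h3 <;> rw [ind_of_notMem h3] <;> omega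

theorem inn_count (R : Multiset (V × V)) {B B' : Finset V} (h : Disjoint B B') :
    dG R B + inn R B + inn R B' ≤ Multiset.card R := by
  induction R using Multiset.induction_on with
  | empty => simp [inn]
  | cons g R ih =>
    rw [inn_cons, inn_cons, dG_cons, Multiset.card_cons]
    have : cut g B + ind g.1 B * ind g.2 B + ind g.1 B' * ind g.2 B' ≤ 1 := by
      have d1 : g.1 ∈ B → g.1 ∉ B' := fun a => Finset.disjoint_left.1 h a
      have d2 : g.2 ∈ B → g.2 ∉ B' := fun a => Finset.disjoint_left.1 h a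
      unfold cut ind
      by_cases a : g.1 ∈ B <;> by_cases b : g.2 ∈ B <;> by_cases c : g.1 ∈ B' <;>
        by_cases d : g.2 ∈ B' <;> simp_all
    push_cast
    omega

theorem grow_step {W : Finset V} {U I : Finset (Finset V)} (hU : SubP W U) (hI : I ⊆ U)
    {R : Multiset (V × V)} {g : V × V} (hg : g ∈ R) {Q Q' : Finset V} (hQ : Q ∈ U) (hQI : Q ∉ I)
    (hQ' : Q' ∈ I) (hgQ : (g.1 ∈ Q ∧ g.2 ∈ Q') ∨ (g.1 ∈ Q' ∧ g.2 ∈ Q))
    (hinv : (I.card : ℤ) - 1 ≤ inn R (I.sup id)) :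
    ((insert Q I).card : ℤ) - 1 ≤ inn R ((insert Q I).sup id) := by
  have hout : ∀ v ∈ Q, v ∉ I.sup id := by
    intro v hv hc
    obtain ⟨P, hP, hvP⟩ := mem_sup_id.1 hc
    exact hQI (hU.eq_of_mem (hI hP) hQ hvP hv ▸ hP)
  have hin : ∀ v ∈ Q, v ∈ (insert Q I).sup id :=
    fun v hv => mem_sup_id.2 ⟨Q, Finset.mem_insert_self _ _, hv⟩
  have hin' : ∀ v ∈ Q', v ∈ (insert Q I).sup id :=
    fun v hv => mem_sup_id.2 ⟨Q', Finset.mem_insert_of_mem hQ', hv⟩
  have hsub : I.sup id ⊆ (insert Q I).sup id := Finset.sup_mono (Finset.subset_insert _ _)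
  rw [Finset.card_insert_of_notMem hQI]
  rcases hgQ with ⟨a, b⟩ | ⟨a, b⟩
  · have := inn_grow hg hsub (hin _ a) (hin' _ b) (Or.inl (hout _ a))
    push_cast; omega
  · have := inn_grow hg hsub (hin' _ a) (hin _ b) (Or.inr (hout _ b))
    push_cast; omega

/-- in a connected graph with fewer edges than nodes any two nodes are separated by a unit cut -/
theorem unit_cut {W : Finset V} {U : Finset (Finset V)} (hU : SubP W U) (hc : ∀ v ∈ W, Cov U v)
    {R : Multiset (V × V)} (hR : ∀ e ∈ R, e.1 ∈ W ∧ e.2 ∈ W)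
    (hk : (Multiset.card R : ℤ) + 1 ≤ U.card)
    (hconn : ∀ I ⊆ U, I.Nonempty → (U \ I).Nonempty → 1 ≤ dG R (I.sup id))
    {P1 P2 : Finset V} (h1 : P1 ∈ U) (h2 : P2 ∈ U) (h12 : P1 ≠ P2) :
    ∃ I ⊆ U, P1 ∈ I ∧ P2 ∉ I ∧ dG R (I.sup id) ≤ 1 := by
  have key : ∀ m : ℕ, ∀ I J : Finset (Finset V), (U \ (I ∪ J)).card = m → I ⊆ U → J ⊆ U →
      Disjoint I J → P1 ∈ I → P2 ∈ J → (I.card : ℤ) - 1 ≤ inn R (I.sup id) →
      (J.card : ℤ) - 1 ≤ inn R (J.sup id) → ∃ I ⊆ U, P1 ∈ I ∧ P2 ∉ I ∧ dG R (I.sup id) ≤ 1 := by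
    intro m
    induction m with
    | zero =>
      intro I J hm hI hJ hd a1 a2 b1 b2
      refine ⟨I, hI, a1, fun h => Finset.disjoint_left.1 hd h a2, ?_⟩
      have hsub : U ⊆ I ∪ J := Finset.sdiff_eq_empty_iff_subset.1 (Finset.card_eq_zero.1 hm)
      have hcard := (Finset.card_le_card hsub).trans (Finset.card_union_le I J)
      have hdis : Disjoint (I.sup id) (J.sup id) := by
        rw [Finset.disjoint_left]
        intro v hv hv'
        obtain ⟨P, hP, hvP⟩ := mem_sup_id.1 hv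
        obtain ⟨Q, hQ, hvQ⟩ := mem_sup_id.1 hv'
        exact Finset.disjoint_left.1 hd hP (hU.eq_of_mem (hJ hQ) (hI hP) hvQ hvP ▸ hQ)
      have := inn_count R hdis
      omega
    | succ m ih =>
      intro I J hm hI hJ hd a1 a2 b1 b2
      have hne : (U \ (I ∪ J)).Nonempty := Finset.card_pos.1 (by omega)
      obtain ⟨g, hg, hcut⟩ := exists_cut_of_pos (hconn (U \ (I ∪ J)) Finset.sdiff_subset hne
        ⟨P1, by simp [h1, a1]⟩)
      obtain ⟨Q, Q', hQ, hQ', hgQ⟩ : ∃ Q Q', Q ∈ U \ (I ∪ J) ∧ Q' ∈ I ∪ J ∧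
          ((g.1 ∈ Q ∧ g.2 ∈ Q') ∨ (g.1 ∈ Q' ∧ g.2 ∈ Q)) := by
        rcases cut_eq_one.1 hcut with ⟨a, b⟩ | ⟨a, b⟩
        · obtain ⟨Q, hQ, hv⟩ := mem_sup_id.1 a
          obtain ⟨Q', hQ', hv'⟩ := hc _ (hR g hg).2
          refine ⟨Q, Q', hQ, ?_, Or.inl ⟨hv, hv'⟩⟩
          by_contra hn
          exact b (mem_sup_id.2 ⟨Q', Finset.mem_sdiff.2 ⟨hQ', hn⟩, hv'⟩)
        · obtain ⟨Q, hQ, hv⟩ := mem_sup_id.1 b
          obtain ⟨Q', hQ', hv'⟩ := hc _ (hR g hg).1
          refine ⟨Q, Q', hQ, ?_, Or.inr ⟨hv', hv⟩⟩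
          by_contra hn
          exact a (mem_sup_id.2 ⟨Q', Finset.mem_sdiff.2 ⟨hQ', hn⟩, hv'⟩)
      obtain ⟨hQU, hQn⟩ := Finset.mem_sdiff.1 hQ
      have hQI : Q ∉ I := fun h => hQn (Finset.mem_union_left _ h)
      have hQJ : Q ∉ J := fun h => hQn (Finset.mem_union_right _ h)
      have hcard : (U \ insert Q (I ∪ J)).card = m := by
        rw [Finset.sdiff_insert]
        have := Finset.card_erase_add_one hQ
        omega
      rcases Finset.mem_union.1 hQ' with hq | hq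
      · exact ih (insert Q I) J (by rwa [Finset.insert_union]) (Finset.insert_subset hQU hI) hJ
          (Finset.disjoint_insert_left.2 ⟨hQJ, hd⟩) (Finset.mem_insert_of_mem a1) a2
          (grow_step hU hI hg hQU hQI hq hgQ b1) b2
      · exact ih I (insert Q J) (by rwa [Finset.union_insert]) hI (Finset.insert_subset hQU hJ)
          (Finset.disjoint_insert_right.2 ⟨hQI, hd⟩) a1 (Finset.mem_insert_of_mem a2) b1
          (grow_step hU hJ hg hQU hQJ hq hgQ b2)
  refine key _ {P1} {P2} rfl (by simpa using h1) (by simpa using h2) (by simpa using h12)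
    (by simp) (by simp) ?_ ?_
  · have := inn_nonneg R (({P1} : Finset (Finset V)).sup id)
    simpa using this
  · have := inn_nonneg R (({P2} : Finset (Finset V)).sup id)
    simpa using this

theorem opp_disjoint {W : Finset V} {φ : Finset V → ℤ} {H : Multiset (V × V)} (h : LAHyp W φ H)
    {e : V × V} (he : e ∈ H) {X Y : Finset V} (hX : Tight W φ X) (hY : Tight W φ Y)
    (a1 : e.1 ∈ X) (a2 : e.2 ∉ X) (b1 : e.1 ∉ Y) (b2 : e.2 ∈ Y) : Disjoint X Y := by
  have hs := (h.sup.of_le (Multiset.singleton_le.2 he)) X hX.1 Y hY.1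
  simp only [zt, dG_singleton] at hs
  have c1 : cut e X = 1 := cut_eq_one.2 (Or.inl ⟨a1, a2⟩)
  have c2 : cut e Y = 1 := cut_eq_one.2 (Or.inr ⟨b1, b2⟩)
  have c3 : cut e (X ∩ Y) = 0 := cut_eq_zero.2 (by simp [a2, b1])
  have c4 : cut e (X ∪ Y) = 0 := cut_eq_zero.2 (by simp [a1, b2])
  have c5 : φ (X ∪ Y) ≤ 0 := by
    by_cases hw : X ∪ Y = W
    · rw [hw]; exact h.hW
    · have := h.hb _ (Finset.union_subset hX.1 hY.1) ⟨_, Finset.mem_union_left _ a1⟩ hw
      omega
  rw [Finset.disjoint_iff_inter_eq_empty]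
  by_contra hne
  have := h.hb (X ∩ Y) (Finset.inter_subset_left.trans hX.1) (Finset.nonempty_iff_ne_empty.2 hne)
    (fun hw => a2 (Finset.mem_inter.1 (hw ▸ (h.inW e he).2)).1)
  have := hX.2.2
  have := hY.2.2
  omega

theorem opp_win {W : Finset V} {φ : Finset V → ℤ} {H : Multiset (V × V)} (h : LAHyp W φ H)
    {U : Finset (Finset V)} (hU : ZP W (zt φ H) U) (hk : (Multiset.card H : ℤ) - 1 ≤ U.card)
    (hnp : ∀ P ∈ U, ∀ Y ⊆ P, zt φ H Y ≤ 0) {e e' : V × V} (he : e ∈ H) (he' : e' ∈ H)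
    {P P' : Finset V} (hP : P ∈ U) (hP' : P' ∈ U) (hne : P' ≠ P) (x1 : e.1 ∈ P) (x2 : e.2 ∈ P)
    (y1 : e'.1 ∈ P') (y2 : e'.2 ∈ P') (hT : ∃ Z, Tight W φ Z ∧ cut e' Z = 1) (hO : Opp W φ e) :
    Exact W φ H := by
  obtain ⟨X, Y, hX, hY, a1, a2, b1, b2⟩ := hO
  obtain ⟨Z, hZ, hcZ⟩ := hT
  have hd := opp_disjoint h he hX hY a1 a2 b1 b2
  have zX := (hU.piece_zero h.sup h.ztW hnp hX.1).2
    (hX.zt_nonneg he (cut_eq_one.2 (Or.inl ⟨a1, a2⟩))) P hP
  have zY := (hU.piece_zero h.sup h.ztW hnp hY.1).2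
    (hY.zt_nonneg he (cut_eq_one.2 (Or.inr ⟨b1, b2⟩))) P hP
  have zZ := (hU.piece_zero h.sup h.ztW hnp hZ.1).2 (hZ.zt_nonneg he' hcZ) P' hP'
  obtain ⟨hA, hvA, _⟩ := SubP.pair (W := P) (X := X ∩ P) (Y := Y ∩ P) Finset.inter_subset_right
    Finset.inter_subset_right ⟨_, Finset.mem_inter.2 ⟨a1, x1⟩⟩ ⟨_, Finset.mem_inter.2 ⟨b2, x2⟩⟩
    (hd.mono Finset.inter_subset_left Finset.inter_subset_left) (zt φ H)
  rcases cut_eq_one.1 hcZ with ⟨c1, c2⟩ | ⟨c1, c2⟩
  · obtain ⟨S, s1, s2, s3⟩ := hU.win2 hP hP' hne hA (Y := Z ∩ P') Finset.inter_subset_right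
      ⟨_, Finset.mem_inter.2 ⟨c1, y1⟩⟩ zZ.ge y2 (fun hh => c2 (Finset.mem_inter.1 hh).1)
    exact ⟨S, s1, s2, by omega⟩
  · obtain ⟨S, s1, s2, s3⟩ := hU.win2 hP hP' hne hA (Y := Z ∩ P') Finset.inter_subset_right
      ⟨_, Finset.mem_inter.2 ⟨c2, y2⟩⟩ zZ.ge y1 (fun hh => c1 (Finset.mem_inter.1 hh).1)
    exact ⟨S, s1, s2, by omega⟩

/-- the bridge hypothesis: a bridge cannot have singly directed edges on both sides -/
def BrHyp (W : Finset V) (φ : Finset V → ℤ) (H : Multiset (V × V)) : Prop :=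
  ∀ g e e', g ::ₘ e ::ₘ {e'} ≤ H → ∀ B ⊆ W, -1 ≤ φ B → -1 ≤ φ (W \ B) → cut g B = 1 →
    e.1 ∈ B → e.2 ∈ B → e'.1 ∉ B → e'.2 ∉ B → Opp W φ e ∨ Opp W φ e'

theorem dG_pair (e e' : V × V) (X : Finset V) :
    dG ({e, e'} : Multiset (V × V)) X = cut e X + cut e' X := by
  rw [Multiset.insert_eq_cons, dG_cons, dG_singleton]

/-- part-part case with a zero partition -/
theorem pp_case {W : Finset V} {φ : Finset V → ℤ} {e e' : V × V} {R : Multiset (V × V)}
    (h : LAHyp W φ (e ::ₘ e' ::ₘ R)) {U : Finset (Finset V)}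
    (hU : ZP W (zt φ (e ::ₘ e' ::ₘ R)) U) (hk : (Multiset.card R : ℤ) + 1 ≤ U.card)
    (hT : ∃ Z, Tight W φ Z ∧ cut e Z = 1) (hT' : ∃ Z, Tight W φ Z ∧ cut e' Z = 1)
    (hP : Exact W φ {e, e'}) (hB : BrHyp W φ (e ::ₘ e' ::ₘ R)) (k : PartKind U e)
    (k' : PartKind U e') : Exact W φ (e ::ₘ e' ::ₘ R) := by
  by_contra hno
  set H := e ::ₘ e' ::ₘ R with hH
  have hc : (Multiset.card H : ℤ) = Multiset.card R + 2 := by
    rw [hH, Multiset.card_cons, Multiset.card_cons]; push_cast; ring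
  have he : e ∈ H := Multiset.mem_cons_self _ _
  have he' : e' ∈ H := Multiset.mem_cons_of_mem (Multiset.mem_cons_self _ _)
  have hdH : ∀ X, dG H X = cut e X + cut e' X + dG R X := fun X => by
    rw [hH, dG_cons, dG_cons]; ring
  have hnp : ∀ P ∈ U, ∀ Y ⊆ P, zt φ H Y ≤ 0 := by
    intro P hP Y hY
    by_contra hpos
    rcases Y.eq_empty_or_nonempty with rfl | hne
    · exact hpos (zt_empty h.h0 H).le
    have hYP : Y ≠ P := by
      rintro rfl
      exact hpos (hU.zero Y hP).le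
    obtain ⟨r, hrP, hrY⟩ := Finset.exists_of_ssubset (Finset.ssubset_iff_subset_ne.2 ⟨hY, hYP⟩)
    obtain ⟨S', a, b, c⟩ := hU.win1 hP (SubP.single hY hne) hrP (not_cov_single hrY)
    rw [val_single] at c
    exact hno ⟨S', a, b, by omega⟩
  obtain ⟨P1, hP1, x1, x2⟩ := k
  obtain ⟨P2, hP2, y1, y2⟩ := k'
  by_cases h12 : P1 = P2
  · subst h12
    obtain ⟨S, hS, hr, hv⟩ := hP
    have hle : ∀ X ∈ S, zt φ {e, e'} X + dG R X ≤ 0 := fun X hX => by
      have := (hU.piece_zero h.sup h.ztW hnp (hS.sub X hX)).1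
      simp only [zt, dG_pair, hdH] at this ⊢
      omega
    have h1 := val_le_card_filter (z := zt φ {e, e'}) (S := S)
      (fun X hX => by have := hle X hX; have := dG_nonneg R X; omega)
    have h2 : 1 < (S.filter (fun X => 0 ≤ zt φ {e, e'} X)).card := by
      have : Multiset.card ({e, e'} : Multiset (V × V)) = 2 := by simp
      omega
    obtain ⟨X1, hX1, X2, hX2, hne⟩ := Finset.one_lt_card.1 h2
    have prop : ∀ X ∈ S.filter (fun X => 0 ≤ zt φ {e, e'} X),
        dG R X ≤ 0 ∧ 0 ≤ zt φ H X ∧ (X ∩ P1).Nonempty := by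
      intro X hX
      obtain ⟨hX, h0⟩ := Finset.mem_filter.1 hX
      have a := hle X hX
      have b := dG_nonneg R X
      have c := h.hb X (hS.sub X hX) (hS.ne X hX) (hr.ne fun v hv => ⟨X, hX, hv⟩)
      simp only [zt, dG_pair] at h0 a
      refine ⟨by omega, by simp only [zt, hdH]; omega, ?_⟩
      rcases cut_zero_or_one e X with d | d
      · rcases cut_zero_or_one e' X with d' | d'
        · omega
        · rcases cut_eq_one.1 d' with ⟨u, _⟩ | ⟨_, u⟩
          exacts [⟨_, Finset.mem_inter.2 ⟨u, y1⟩⟩, ⟨_, Finset.mem_inter.2 ⟨u, y2⟩⟩]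
      · rcases cut_eq_one.1 d with ⟨u, _⟩ | ⟨_, u⟩
        exacts [⟨_, Finset.mem_inter.2 ⟨u, x1⟩⟩, ⟨_, Finset.mem_inter.2 ⟨u, x2⟩⟩]
    obtain ⟨a1, a2, a3⟩ := prop X1 hX1
    obtain ⟨b1, b2, b3⟩ := prop X2 hX2
    have m1 := (Finset.mem_filter.1 hX1).1
    have m2 := (Finset.mem_filter.1 hX2).1
    have hd := hS.disj X1 m1 X2 m2 hne
    have z1 := (hU.piece_zero h.sup h.ztW hnp (hS.sub X1 m1)).2 a2 P1 hP1
    have z2 := (hU.piece_zero h.sup h.ztW hnp (hS.sub X2 m2)).2 b2 P1 hP1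
    obtain ⟨hA, hvA, hcA⟩ := SubP.pair (W := P1) (X := X1 ∩ P1) (Y := X2 ∩ P1)
      Finset.inter_subset_right Finset.inter_subset_right a3 b3
      (hd.mono Finset.inter_subset_left Finset.inter_subset_left) (zt φ H)
    by_cases hhole : ∃ r ∈ P1, r ∉ X1 ∪ X2
    · obtain ⟨r, hr1, hr2⟩ := hhole
      obtain ⟨S', s1, s2, s3⟩ := hU.win1 hP1 hA hr1 (fun hh => by
        rcases hcA r hh with u | u
        · exact hr2 (Finset.mem_union_left _ (Finset.mem_inter.1 u).1)
        · exact hr2 (Finset.mem_union_right _ (Finset.mem_inter.1 u).1))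
      exact hno ⟨S', s1, s2, by omega⟩
    · have hin : ∀ r ∈ P1, r ∈ X1 ∪ X2 := fun r hr1 => by
        by_contra hr2; exact hhole ⟨r, hr1, hr2⟩
      have q1 := h.sup X1 (hS.sub X1 m1) X2 (hS.sub X2 m2)
      have q2 := dG_submod R X1 X2
      have q3 := dG_nonneg R (X1 ∩ X2)
      rw [Finset.disjoint_iff_inter_eq_empty.1 hd, zt_empty h.h0] at q1
      have q4 : cut e (X1 ∪ X2) = 0 := cut_eq_zero.2 (by simp only [hin _ x1, hin _ x2])
      have q5 : cut e' (X1 ∪ X2) = 0 := cut_eq_zero.2 (by simp only [hin _ y1, hin _ y2])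
      have q6 := h.hb (X1 ∪ X2) (Finset.union_subset (hS.sub X1 m1) (hS.sub X2 m2))
        ⟨_, hin _ x1⟩ (hr.ne fun v hv => by
          rcases Finset.mem_union.1 hv with u | u
          exacts [⟨X1, m1, u⟩, ⟨X2, m2, u⟩])
      have q7 : zt φ H (X1 ∪ X2) = φ (X1 ∪ X2) + dG R (X1 ∪ X2) := by
        simp only [zt, hdH, q4, q5]; ring
      omega
  · have hloop : ∀ I ⊆ U, dG H (I.sup id) = dG R (I.sup id) := by
      intro I hI
      have key : ∀ (g : V × V) (P : Finset V), P ∈ U → g.1 ∈ P → g.2 ∈ P →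
          cut g (I.sup id) = 0 := by
        intro g P hP g1 g2
        refine cut_eq_zero.2 ⟨fun hh => ?_, fun hh => ?_⟩
        · obtain ⟨Q, hQ, hv⟩ := mem_sup_id.1 hh
          exact mem_sup_id.2 ⟨Q, hQ, hU.subp.eq_of_mem hP (hI hQ) g1 hv ▸ g2⟩
        · obtain ⟨Q, hQ, hv⟩ := mem_sup_id.1 hh
          exact mem_sup_id.2 ⟨Q, hQ, hU.subp.eq_of_mem hP (hI hQ) g2 hv ▸ g1⟩
      rw [hdH, key e P1 hP1 x1 x2, key e' P2 hP2 y1 y2]; ring
    have hout : ∀ I ⊆ U, ∀ P ∈ U, P ∉ I → ∀ v ∈ P, v ∉ I.sup id := by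
      intro I hI P hP hPI v hv hh
      obtain ⟨Q, hQ, hvQ⟩ := mem_sup_id.1 hh
      exact hPI (hU.subp.eq_of_mem (hI hQ) hP hvQ hv ▸ hQ)
    have hconn : ∀ I ⊆ U, I.Nonempty → (U \ I).Nonempty → 1 ≤ dG R (I.sup id) := by
      intro I hI ⟨P, hP⟩ ⟨Q, hQ⟩
      obtain ⟨hQU, hQI⟩ := Finset.mem_sdiff.1 hQ
      obtain ⟨u, hu⟩ := hU.subp.ne P (hI hP)
      obtain ⟨w, hw⟩ := hU.subp.ne Q hQU
      have a := hU.union_nonneg h.sup (zt_empty h.h0 H) hI
      have b := h.hb (I.sup id) (hU.subp.subset hI).sup_subset ⟨u, mem_sup_id.2 ⟨P, hP, hu⟩⟩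
        (fun hw' => hout I hI Q hQU hQI w hw (hw' ▸ hU.subp.sub Q hQU hw))
      have c := hloop I hI
      unfold zt at a
      omega
    have hRW : ∀ g ∈ R, g.1 ∈ W ∧ g.2 ∈ W :=
      fun g hg => h.inW g (Multiset.mem_cons_of_mem (Multiset.mem_cons_of_mem hg))
    obtain ⟨I, hI, i1, i2, i3⟩ := unit_cut hU.subp hU.cov hRW hk hconn hP1 hP2 h12
    obtain ⟨g, hg, hcg⟩ := exists_cut_of_pos
      (hconn I hI ⟨P1, i1⟩ ⟨P2, Finset.mem_sdiff.2 ⟨hP2, i2⟩⟩)
    have hcomp : W \ I.sup id = (U \ I).sup id := by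
      ext v
      rw [Finset.mem_sdiff, mem_sup_id (I := U \ I)]
      constructor
      · rintro ⟨hv, hn⟩
        obtain ⟨Q, hQ, hvQ⟩ := hU.cov v hv
        exact ⟨Q, Finset.mem_sdiff.2 ⟨hQ, fun hQI => hn (mem_sup_id.2 ⟨Q, hQI, hvQ⟩)⟩, hvQ⟩
      · rintro ⟨Q, hQ, hvQ⟩
        obtain ⟨hQU, hQI⟩ := Finset.mem_sdiff.1 hQ
        exact ⟨hU.subp.sub Q hQU hvQ, hout I hI Q hQU hQI v hvQ⟩
    have a := hU.union_nonneg h.sup (zt_empty h.h0 H) hI
    have b := hU.union_nonneg h.sup (zt_empty h.h0 H) (Finset.sdiff_subset (s := U) (t := I))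
    rw [← hcomp] at b
    have c := hloop I hI
    have d := dG_sdiff h.inW (I.sup id)
    unfold zt at a b
    have hle : g ::ₘ e ::ₘ {e'} ≤ H := by
      obtain ⟨R', hR'⟩ := Multiset.exists_cons_of_mem hg
      rw [hH, hR', Multiset.cons_swap e' g, Multiset.cons_swap e g]
      exact Multiset.cons_le_cons _ (Multiset.cons_le_cons _
        (Multiset.singleton_le.2 (Multiset.mem_cons_self _ _)))
    rcases hB g e e' hle (I.sup id) (hU.subp.subset hI).sup_subset (by omega) (by omega) hcg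
      (mem_sup_id.2 ⟨P1, i1, x1⟩) (mem_sup_id.2 ⟨P1, i1, x2⟩) (hout I hI P2 hP2 i2 _ y1)
      (hout I hI P2 hP2 i2 _ y2) with hO | hO
    · exact hno (opp_win h hU (by omega) hnp he he' hP1 hP2 (Ne.symm h12) x1 x2 y1 y2 hT' hO)
    · exact hno (opp_win h hU (by omega) hnp he' he hP2 hP1 h12 y1 y2 x1 x2 hT hO)

theorem exact_single {W : Finset V} {φ : Finset V → ℤ} {e : V × V} {Z : Finset V}
    (hZ : Tight W φ Z) (hc : cut e Z = 1) : Exact W φ {e} := by
  obtain ⟨r, hrW, hrZ⟩ := Finset.exists_of_ssubset (Finset.ssubset_iff_subset_ne.2 ⟨hZ.1, hZ.2.1⟩)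
  have hne : Z.Nonempty := by
    rcases cut_eq_one.1 hc with ⟨u, _⟩ | ⟨_, u⟩
    exacts [⟨_, u⟩, ⟨_, u⟩]
  refine ⟨{Z}, SubP.single hZ.1 hne, ⟨r, hrW, not_cov_single hrZ⟩, ?_⟩
  have := hZ.2.2
  simp only [val_single, zt, dG_singleton, Multiset.card_singleton]
  push_cast; omega

/-- (a) one tight set cuts both edges -/
theorem exact_pair_one {W : Finset V} {φ : Finset V → ℤ} {e e' : V × V} {Z : Finset V}
    (hZ : Tight W φ Z) (hc : cut e Z = 1) (hc' : cut e' Z = 1) : Exact W φ {e, e'} := by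
  obtain ⟨r, hrW, hrZ⟩ := Finset.exists_of_ssubset (Finset.ssubset_iff_subset_ne.2 ⟨hZ.1, hZ.2.1⟩)
  have hne : Z.Nonempty := by
    rcases cut_eq_one.1 hc with ⟨u, _⟩ | ⟨_, u⟩
    exacts [⟨_, u⟩, ⟨_, u⟩]
  refine ⟨{Z}, SubP.single hZ.1 hne, ⟨r, hrW, not_cov_single hrZ⟩, ?_⟩
  have := hZ.2.2
  have h2 : Multiset.card ({e, e'} : Multiset (V × V)) = 2 := by simp
  simp only [val_single, zt, dG_pair, h2]
  push_cast; omega

/-- (b), (c): two disjoint sets -/
theorem exact_pair_two {W : Finset V} {φ : Finset V → ℤ} {e e' : V × V} {X Y : Finset V}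
    (hX : X ⊆ W) (hY : Y ⊆ W) (hXne : X.Nonempty) (hYne : Y.Nonempty) (hd : Disjoint X Y)
    {r : V} (hr : r ∈ W) (hrX : r ∉ X) (hrY : r ∉ Y)
    (hv : 0 ≤ φ X + φ Y + (cut e X + cut e' X + cut e Y + cut e' Y)) : Exact W φ {e, e'} := by
  obtain ⟨hA, hvA, hcA⟩ := SubP.pair hX hY hXne hYne hd (zt φ {e, e'})
  refine ⟨_, hA, ⟨r, hr, fun hh => (hcA r hh).elim hrX hrY⟩, ?_⟩
  have h2 : Multiset.card ({e, e'} : Multiset (V × V)) = 2 := by simp
  rw [hvA, h2]
  simp only [zt, dG_pair]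
  push_cast; omega

/-- **Lemma A** (unrooted). -/
theorem lemmaA {W : Finset V} {φ : Finset V → ℤ} (hWne : W.Nonempty) (H : Multiset (V × V))
    (h : LAHyp W φ H) (hT : ∀ e ∈ H, ∃ Z, Tight W φ Z ∧ cut e Z = 1)
    (hP : ∀ e e', {e, e'} ≤ H → Exact W φ {e, e'}) (hB : BrHyp W φ H) : Exact W φ H := by
  induction hn : Multiset.card H using Nat.strong_induction_on generalizing H with
  | _ n ihn =>
  subst hn
  by_cases c0 : Multiset.card H = 0
  · rw [Multiset.card_eq_zero.1 c0]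
    obtain ⟨r, hr⟩ := hWne
    exact ⟨∅, SubP.empty W, ⟨r, hr, by rintro ⟨X, hX, _⟩; simp at hX⟩, by simp [val]⟩
  by_cases c1 : Multiset.card H = 1
  · obtain ⟨e, rfl⟩ := Multiset.card_eq_one.1 c1
    obtain ⟨Z, hZ, hc⟩ := hT e (Multiset.mem_singleton_self _)
    exact exact_single hZ hc
  by_cases c2 : Multiset.card H = 2
  · obtain ⟨e, e', rfl⟩ := Multiset.card_eq_two.1 c2
    exact hP e e' le_rfl
  rcases two_of_a_kind φ (fun S => SubP W S ∧ Rooted W S) 0 H (Multiset.card H) (by omega)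
    (fun e R hR => by
      have hle : R ≤ H := hR ▸ Multiset.le_cons_self _ _
      have hc : Multiset.card H = Multiset.card R + 1 := by rw [hR, Multiset.card_cons]
      obtain ⟨S, hS, hr, hv⟩ := ihn (Multiset.card R) (by omega) R (h.of_le hle)
        (fun g hg => hT g (Multiset.mem_of_le hle hg)) (fun g g' hg => hP g g' (hg.trans hle))
        (fun g a a' hg => hB g a a' (hg.trans hle)) rfl
      exact ⟨S, ⟨hS, hr⟩, by rw [hc, zero_add]; push_cast; omega⟩) with hh | hh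
  · obtain ⟨S, ⟨hS, hr⟩, hv⟩ := hh
    rw [zero_add] at hv
    exact ⟨S, hS, hr, hv⟩
  obtain ⟨e, e', R, S, S', hH, ⟨hS, hr⟩, ⟨hS', _⟩, hv, hv', hk⟩ := hh
  rw [zero_add] at hv hv'
  obtain ⟨L, U, hL, hU, hLU, a1, _, a3, a4⟩ := unc h.sup hS hS'
  have hc : (Multiset.card H : ℤ) = Multiset.card R + 2 := by
    rw [hH, Multiset.card_cons, Multiset.card_cons]; push_cast; ring
  have hE : H = R + {e, e'} := by
    have := cons_cons_eq 0 R e e'
    rwa [zero_add, zero_add, ← hH] at this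
  have he : e ∈ H := hH ▸ Multiset.mem_cons_self _ _
  have he' : e' ∈ H := hH ▸ Multiset.mem_cons_of_mem (Multiset.mem_cons_self _ _)
  have hcnt : ∀ T, SubP W T → Rooted W T → (∀ X ∈ T, cut e X = 0) → (∀ X ∈ T, cut e' X = 0) →
      val (zt φ H) T ≤ Multiset.card R := by
    intro T hT' hrT c1 c2
    have := cnt_rooted (H := R) (G := {e, e'}) (hE ▸ h) hT' hrT (uncut_pair c1 c2)
    rwa [← hE] at this
  have hrL : Rooted W L := by
    obtain ⟨r, hrW, hr⟩ := hr
    exact ⟨r, hrW, fun hh => hr (a1 r hh).1⟩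
  rcases hk with ⟨k, k'⟩ | ⟨⟨X, hX, x1, x2⟩, ⟨X', hX', y1, y2⟩⟩
  · have := hcnt L hL hrL
      (uncut_of_root (fun h => k.1 (a1 _ h).1) (fun h => k.2 (a1 _ h).1))
      (uncut_of_root (fun h => k'.1 (a1 _ h).2) (fun h => k'.2 (a1 _ h).2))
    rcases drop_or_zero h.sup (zt_empty h.h0 H) h.ztW hU with ⟨U', hU', hr', hv''⟩ | hZ
    · exact ⟨U', hU.subset hU', hr', by omega⟩
    · have := hZ.val_eq
      exact rr_case h hZ (by omega) he (hT e he) hS hv k
  · obtain ⟨P, hP', hXP⟩ := a3 X hX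
    obtain ⟨P', hP'', hXP'⟩ := a4 X' hX'
    by_cases hLv : (Multiset.card H : ℤ) ≤ val (zt φ H) L
    · exact ⟨L, hL, hrL, hLv⟩
    rcases drop_or_zero h.sup (zt_empty h.h0 H) h.ztW hU with ⟨U', hU', hr', hv''⟩ | hZ
    · have := hcnt U' (hU.subset hU') hr'
        (fun Y hY => uncut_of_part hU hP' (hXP x1) (hXP x2) Y (hU' hY))
        (fun Y hY => uncut_of_part hU hP'' (hXP' y1) (hXP' y2) Y (hU' hY))
      omega
    · have := hZ.val_eq
      subst hH
      exact pp_case h hZ (by omega) (hT e he) (hT e' he')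
        (hP e e' (by rw [hE]; exact Multiset.le_add_left _ _)) hB
        ⟨P, hP', hXP x1, hXP x2⟩ ⟨P', hP'', hXP' y1, hXP' y2⟩

theorem LAHyp.dual {W : Finset V} {φ : Finset V → ℤ} {H : Multiset (V × V)} (h : LAHyp W φ H)
    (hW : φ W = 0) : LAHyp W (fun X => φ (W \ X)) H := by
  refine ⟨by simpa using hW, by simp [h.h0], ?_, h.inW, ?_⟩
  · intro X hX hne hXW
    refine h.hb _ Finset.sdiff_subset ?_ ?_
    · obtain ⟨r, hrW, hrX⟩ := Finset.exists_of_ssubset (Finset.ssubset_iff_subset_ne.2 ⟨hX, hXW⟩)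
      exact ⟨r, Finset.mem_sdiff.2 ⟨hrW, hrX⟩⟩
    · intro heq
      obtain ⟨v, hv⟩ := hne
      exact (Finset.mem_sdiff.1 (heq.symm ▸ hX hv)).2 hv
  · intro X _ Y _
    have h1 := h.sup (W \ X) Finset.sdiff_subset (W \ Y) Finset.sdiff_subset
    simp only [zt] at h1 ⊢
    rw [← Finset.sdiff_union_distrib, ← Finset.sdiff_inter_distrib_right, dG_sdiff h.inW,
      dG_sdiff h.inW, dG_sdiff h.inW, dG_sdiff h.inW] at h1
    omega

theorem Tight.dual {W Z : Finset V} {φ : Finset V → ℤ} (hZ : Tight W φ Z) {v : V} (hv : v ∈ Z) :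
    Tight W (fun X => φ (W \ X)) (W \ Z) := by
  refine ⟨Finset.sdiff_subset, fun heq => ?_, ?_⟩
  · exact (Finset.mem_sdiff.1 (heq.symm ▸ hZ.1 hv)).2 hv
  · simp only [Finset.sdiff_sdiff_eq_self hZ.1]
    exact hZ.2.2

theorem Opp.dual {W : Finset V} {φ : Finset V → ℤ} {e : V × V} (h1 : e.1 ∈ W) (h2 : e.2 ∈ W)
    (h : Opp W φ e) : Opp W (fun X => φ (W \ X)) e := by
  obtain ⟨X, Y, hX, hY, a1, a2, b1, b2⟩ := h
  exact ⟨W \ Y, W \ X, hY.dual b2, hX.dual a1, by simp [h1, b1], by simp [b2], by simp [a1],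
    by simp [h2, a2]⟩

/-- **Lemma A, dual form**: the same hypotheses `hT`, `hB`, pairs exact for `X ↦ φ (W \ X)`. -/
theorem lemmaA_dual {W : Finset V} {φ : Finset V → ℤ} (hWne : W.Nonempty) (H : Multiset (V × V))
    (h : LAHyp W φ H) (hW : φ W = 0) (hT : ∀ e ∈ H, ∃ Z, Tight W φ Z ∧ cut e Z = 1)
    (hP : ∀ e e', {e, e'} ≤ H → Exact W (fun X => φ (W \ X)) {e, e'}) (hB : BrHyp W φ H) :
    Exact W (fun X => φ (W \ X)) H := by
  refine lemmaA hWne H (h.dual hW) ?_ hP ?_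
  · intro e he
    obtain ⟨Z, hZ, hc⟩ := hT e he
    obtain ⟨w1, w2⟩ := h.inW e he
    rcases cut_eq_one.1 hc with ⟨u1, u2⟩ | ⟨u1, u2⟩
    · exact ⟨W \ Z, hZ.dual u1, cut_eq_one.2 (Or.inr (by simp [u1, u2, w2]))⟩
    · exact ⟨W \ Z, hZ.dual u2, cut_eq_one.2 (Or.inl (by simp [u1, u2, w1]))⟩
  · intro g e e' hle B hBW b1 b2 hc x1 x2 y1 y2
    have me : e ∈ H := Multiset.mem_of_le hle (by simp)
    have me' : e' ∈ H := Multiset.mem_of_le hle (by simp)
    simp only [Finset.sdiff_sdiff_eq_self hBW] at b1 b2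
    rcases hB g e e' hle B hBW b2 b1 hc x1 x2 y1 y2 with hO | hO
    · exact Or.inl (hO.dual (h.inW e me).1 (h.inW e me).2)
    · exact Or.inr (hO.dual (h.inW e' me').1 (h.inW e' me').2)

end Pool.Agent.CSG

end

-- part MP_305420_co.SC
section

/-! Soft contraction of tight sets, pairings, maximal members and finest structures. -/

set_option linter.unusedSectionVars false

namespace Pool.Agent.CSG

open Finset

variable {V : Type*} [Fintype V] [DecidableEq V]

theorem cut_swap (u v : V) (X : Finset V) : cut (u, v) X = cut (v, u) X := by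
  unfold cut
  by_cases h1 : u ∈ X <;> by_cases h2 : v ∈ X <;> simp [h1, h2]

/-- submodularity with an edge between the two differences -/
theorem dG_bonus1 {G : Multiset (V × V)} {e : V × V} (he : e ∈ G) {X Y : Finset V}
    (h : (e.1 ∈ X ∧ e.1 ∉ Y ∧ e.2 ∈ Y ∧ e.2 ∉ X) ∨ (e.2 ∈ X ∧ e.2 ∉ Y ∧ e.1 ∈ Y ∧ e.1 ∉ X)) :
    dG G (X ∩ Y) + dG G (X ∪ Y) + 2 ≤ dG G X + dG G Y := by
  obtain ⟨R, rfl⟩ := Multiset.exists_cons_of_mem he
  have := dG_submod R X Y
  simp only [dG_cons]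
  unfold cut
  rcases h with ⟨h1, h2, h3, h4⟩ | ⟨h1, h2, h3, h4⟩ <;> simp [h1, h2, h3, h4] <;> omega

theorem ms_union_disj (M : Multiset V) {X Y : Finset V} (h : Disjoint X Y) :
    ms M (X ∪ Y) = ms M X + ms M Y := by
  have := ms_inter_union M X Y
  rw [disjoint_iff_inter_eq_empty.1 h, ms_empty] at this
  omega

theorem ms_sup {W : Finset V} (M : Multiset V) {S : Finset (Finset V)} (hS : SubP W S) :
    ms M (S.sup id) = ∑ X ∈ S, ms M X := by
  induction S using Finset.induction_on with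
  | empty => simp [ms_empty]
  | insert X S hX ih =>
    rw [sup_insert, sum_insert hX, ← ih (hS.subset (subset_insert _ _))]
    apply ms_union_disj
    rw [Finset.disjoint_sup_right]
    intro Y hY
    exact hS.disj X (mem_insert_self _ _) Y (mem_insert_of_mem hY) (fun hh => hX (hh ▸ hY))

theorem ms_eq_zero {M : Multiset V} {X : Finset V} (h : ∀ v ∈ M, v ∉ X) : ms M X = 0 := by
  by_contra hne
  obtain ⟨v, hv, hvX⟩ := exists_mem_of_ms_pos (M := M) (X := X)
    (by have := ms_nonneg M X; omega)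
  exact h v hv hvX

theorem ms_le_of_cover {M : Multiset V} {X Y : Finset V} (h : ∀ v ∈ M, v ∈ X → v ∈ Y) :
    ms M X ≤ ms M Y := by
  have h1 := ms_sdiff M X Y
  have h2 : ms M (X \ Y) = 0 :=
    ms_eq_zero (fun v hv hh => (mem_sdiff.1 hh).2 (h v hv (mem_sdiff.1 hh).1))
  have h3 := ms_mono M (inter_subset_right (s₁ := X) (s₂ := Y))
  omega

theorem ms_filter_mem (M : Multiset V) (X : Finset V) :
    (Multiset.card (M.filter (· ∈ X)) : ℤ) = ms M X := by
  induction M using Multiset.induction_on with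
  | empty => simp
  | cons v M ih =>
    rw [ms_cons, ← ih, Multiset.filter_cons]
    by_cases h : v ∈ X
    · simp [h, ind, add_comm]
    · simp [h, ind]

theorem exists_two_of_ms {M : Multiset V} {X : Finset V} (h : 2 ≤ ms M X) :
    ∃ u v N, M = u ::ₘ v ::ₘ N ∧ u ∈ X ∧ v ∈ X := by
  obtain ⟨u, hu, huX⟩ := exists_mem_of_ms_pos (M := M) (X := X) (by omega)
  obtain ⟨N, rfl⟩ := Multiset.exists_cons_of_mem hu
  rw [ms_cons, ind_of_mem huX] at h
  obtain ⟨v, hv, hvX⟩ := exists_mem_of_ms_pos (M := N) (X := X) (by omega)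
  obtain ⟨N', rfl⟩ := Multiset.exists_cons_of_mem hv
  exact ⟨u, v, N', rfl, huX, hvX⟩

theorem exists_pairing (A B : Multiset V) (h : Multiset.card A = Multiset.card B) :
    ∃ H : Multiset (V × V), H.map Prod.fst = A ∧ H.map Prod.snd = B := by
  induction A using Multiset.induction_on generalizing B with
  | empty => exact ⟨0, by simp, by simpa using (Multiset.card_eq_zero.1 h.symm).symm⟩
  | cons a A ih =>
    obtain ⟨b, hb⟩ := Multiset.card_pos_iff_exists_mem.1
      (show 0 < Multiset.card B by rw [← h]; simp)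
    obtain ⟨B', rfl⟩ := Multiset.exists_cons_of_mem hb
    obtain ⟨H, h1, h2⟩ := ih B' (by simpa using h)
    exact ⟨(a, b) ::ₘ H, by simp [h1], by simp [h2]⟩

theorem dG_of_snd_out {H : Multiset (V × V)} {Z : Finset V} (h : ∀ e ∈ H, e.2 ∉ Z) :
    dG H Z = ms (H.map Prod.fst) Z := by
  induction H using Multiset.induction_on with
  | empty => simp
  | cons e H ih =>
    rw [dG_cons, Multiset.map_cons, ms_cons, ih (fun e' he' => h e' (Multiset.mem_cons_of_mem he'))]
    have := h e (Multiset.mem_cons_self _ _)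
    unfold cut ind
    by_cases h1 : e.1 ∈ Z <;> simp [h1, this]

/-- if no edge lies inside `Z`, the same holds for its subsets -/
theorem dG_eq_ms_of_subset {H : Multiset (V × V)} {Z X : Finset V}
    (h : ms (ends H) Z ≤ dG H Z) (hX : X ⊆ Z) : dG H X = ms (ends H) X := by
  induction H using Multiset.induction_on with
  | empty => simp
  | cons e H ih =>
    rw [dG_cons, ends_cons, ms_cons, ms_cons] at h ⊢
    have h1 := dG_le_ms H Z
    have h2 := cut_le_ind e Z
    rw [ih (by omega)]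
    have h3 : cut e Z = ind e.1 Z + ind e.2 Z := by omega
    have h4 : ¬ (e.1 ∈ X ∧ e.2 ∈ X) := by
      rintro ⟨a, b⟩
      rw [ind_of_mem (hX a), ind_of_mem (hX b)] at h3
      have := cut_le_one e Z
      omega
    unfold cut ind
    by_cases h5 : e.1 ∈ X <;> by_cases h6 : e.2 ∈ X <;> simp [h5, h6] at h4 ⊢

/-- `X` splits no member of the family -/
def NoSplit (Zs : Finset (Finset V)) (X : Finset V) : Prop := ∀ Z ∈ Zs, Z ⊆ X ∨ Disjoint Z X

theorem NoSplit.compl {Zs : Finset (Finset V)} {X : Finset V} (h : NoSplit Zs X) :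
    NoSplit Zs Xᶜ := by
  intro Z hZ
  rcases h Z hZ with h1 | h1
  · right
    rw [disjoint_left]; intro v hv hv'
    exact (mem_compl.1 hv') (h1 hv)
  · left
    intro v hv
    exact mem_compl.2 (disjoint_left.1 h1 hv)

theorem NoSplit.sub {Zs : Finset (Finset V)} {X Z : Finset V} (h : NoSplit Zs X) (hZ : Z ∈ Zs)
    {v : V} (hv : v ∈ Z) (hX : v ∈ X) : Z ⊆ X :=
  (h Z hZ).resolve_right (fun hd => disjoint_left.1 hd hv hX)

theorem NoSplit.disj {Zs : Finset (Finset V)} {X Z : Finset V} (h : NoSplit Zs X) (hZ : Z ∈ Zs)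
    {v : V} (hv : v ∈ Z) (hX : v ∉ X) : Disjoint Z X :=
  (h Z hZ).resolve_left (fun hd => hX (hd hv))

/-- **Soft contraction.** A graph with the prescribed ends that covers all sets splitting no member
of a family of disjoint tight sets covers everything. -/
theorem soft_contract {p : Finset V → ℤ} (hp : CS p) {H : Multiset (V × V)}
    (hv : Valid p 0 (ends H)) (Zs : Finset (Finset V))
    (hd : ∀ X ∈ Zs, ∀ Y ∈ Zs, X ≠ Y → Disjoint X Y)
    (ht : ∀ Z ∈ Zs, ms (ends H) Z ≤ symmMax p Z)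
    (hc : ∀ X, NoSplit Zs X → p X ≤ dG H X) : ∀ X, p X ≤ dG H X := by
  induction Zs using Finset.induction_on with
  | empty => exact fun X => hc X (by simp [NoSplit])
  | insert Z Zs hZ ih =>
    refine ih (fun X hX Y hY => hd X (mem_insert_of_mem hX) Y (mem_insert_of_mem hY))
      (fun Y hY => ht Y (mem_insert_of_mem hY)) (fun X hX => ?_)
    have hdZ : ∀ Y ∈ Zs, Disjoint Y Z := fun Y hY =>
      hd Y (mem_insert_of_mem hY) Z (mem_insert_self _ _) (fun hh => hZ (hh ▸ hY))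
    have hZs : NoSplit (insert Z Zs) Z := by
      intro Y hY
      rcases mem_insert.1 hY with rfl | hY
      · exact Or.inl subset_rfl
      · exact Or.inr (hdZ Y hY)
    have h1 := hc Z hZs
    have h2 := hc Zᶜ hZs.compl
    rw [dG_compl] at h2
    have h3 := ht Z (mem_insert_self _ _)
    have hZd : ms (ends H) Z ≤ dG H Z := by
      unfold symmMax at h3; omega
    have hsub : ∀ Y ⊆ Z, dG H Y = ms (ends H) Y := fun Y hY => dG_eq_ms_of_subset hZd hY
    have hv1 : ∀ Y, p Y ≤ ms (ends H) Y := fun Y => by simpa using (hv Y).1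
    have hv2 : ∀ Y, p Yᶜ ≤ ms (ends H) Y := fun Y => by simpa using (hv Y).2
    by_cases s1 : Z ⊆ X
    · refine hc X (fun Y hY => ?_)
      rcases mem_insert.1 hY with rfl | hY
      exacts [Or.inl s1, hX Y hY]
    by_cases s2 : Disjoint Z X
    · refine hc X (fun Y hY => ?_)
      rcases mem_insert.1 hY with rfl | hY
      exacts [Or.inr s2, hX Y hY]
    obtain ⟨z1, hz1, hz1X⟩ := not_subset.1 s1
    obtain ⟨z2, hz2, hz2X⟩ := not_disjoint_iff.1 s2
    by_cases s3 : Xᶜ ⊆ Z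
    · have a1 := hv2 Xᶜ
      have a2 := hsub _ s3
      rw [compl_compl] at a1
      rw [dG_compl] at a2
      omega
    by_cases s4 : X ⊆ Z
    · have a1 := hv1 X
      have a2 := hsub _ s4
      omega
    obtain ⟨z3, hz3, hz3Z⟩ := not_subset.1 s3
    obtain ⟨z4, hz4, hz4Z⟩ := not_subset.1 s4
    have hZe := hsub Z subset_rfl
    by_cases ty : p Zᶜ ≤ p Z
    · have a1 := hp.super hz2X hz2 (mem_compl.1 hz3) hz3Z
      have a2 := hc (X ∪ Z) (fun Y hY => by
        rcases mem_insert.1 hY with rfl | hY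
        · exact Or.inl subset_union_right
        · rcases hX Y hY with h | h
          · exact Or.inl (h.trans subset_union_left)
          · exact Or.inr (disjoint_union_right.2 ⟨h, hdZ Y hY⟩))
      have a3 := hv1 (X ∩ Z)
      have a4 := hsub (X ∩ Z) inter_subset_right
      have a5 := dG_submod H X Z
      unfold symmMax at h3
      omega
    · have a1 := hp.super hz4 (mem_compl.2 hz4Z) hz1X (fun hh => mem_compl.1 hh hz1)
      have a2 := hc (X ∩ Zᶜ) (fun Y hY => by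
        rcases mem_insert.1 hY with rfl | hY
        · right
          rw [disjoint_left]; intro v hv hv'
          exact mem_compl.1 (mem_inter.1 hv').2 hv
        · rcases hX Y hY with h | h
          · left
            intro v hv
            exact mem_inter.2 ⟨h hv, mem_compl.2 (disjoint_left.1 (hdZ Y hY) hv)⟩
          · exact Or.inr (h.mono_right inter_subset_left))
      have a3 := hv2 (X ∪ Zᶜ)ᶜ
      have a4 := hsub (X ∪ Zᶜ)ᶜ (by
        intro v hv
        simp only [mem_compl, mem_union, not_or, not_not] at hv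
        exact hv.2)
      have a5 := dG_submod H X Zᶜ
      rw [compl_compl] at a3
      rw [dG_compl] at a4 a5
      unfold symmMax at h3
      omega

/-- a blocker that splits no tight set -/
theorem exists_blocker {p : Finset V → ℤ} (hp : CS p) {M : Multiset V} (hv : Valid p 0 M)
    (hu : ¬ Solvable p M) {H : Multiset (V × V)} (hH : ends H = M) (Zs : Finset (Finset V))
    (hd : ∀ X ∈ Zs, ∀ Y ∈ Zs, X ≠ Y → Disjoint X Y)
    (ht : ∀ Z ∈ Zs, ms M Z ≤ symmMax p Z) : ∃ X, NoSplit Zs X ∧ dG H X < p X := by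
  by_contra hh
  push Not at hh
  subst hH
  exact hu ⟨H, rfl, soft_contract hp hv Zs hd ht hh⟩

/-- the maximal members of a family closed under intersecting unions -/
theorem exists_max_members {W : Finset V} (F : Finset V → Prop)
    (hF : ∀ L, F L → L ⊆ W ∧ L.Nonempty)
    (hun : ∀ L L', F L → F L' → (L ∩ L').Nonempty → F (L ∪ L')) :
    ∃ S, SubP W S ∧ (∀ L ∈ S, F L) ∧ ∀ L, F L → ∃ L' ∈ S, L ⊆ L' := by
  classical
  refine ⟨univ.filter (fun L => F L ∧ ∀ L', F L' → L ⊆ L' → L' = L), ⟨?_, ?_, ?_⟩, ?_, ?_⟩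
  · intro X hX; exact (hF X (mem_filter.1 hX).2.1).1
  · intro X hX; exact (hF X (mem_filter.1 hX).2.1).2
  · intro X hX Y hY hne
    obtain ⟨x1, x2⟩ := (mem_filter.1 hX).2
    obtain ⟨y1, y2⟩ := (mem_filter.1 hY).2
    by_contra hd
    have := hun X Y x1 y1 (not_disjoint_iff_nonempty_inter.1 hd)
    exact hne ((x2 _ this subset_union_left).symm.trans (y2 _ this subset_union_right))
  · intro L hL; exact (mem_filter.1 hL).2.1
  · intro L hL
    obtain ⟨L', h1, h2⟩ := exists_max_image (univ.filter (fun L' => F L' ∧ L ⊆ L')) card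
      ⟨L, by simp [hL]⟩
    simp only [mem_filter, mem_univ, true_and] at h1 h2
    refine ⟨L', mem_filter.2 ⟨mem_univ _, h1.1, fun L'' a b => ?_⟩, h1.2⟩
    exact (eq_of_subset_of_card_le b (h2 L'' ⟨a, h1.2.trans b⟩)).symm

/-- no part can be refined without loss -/
def Finest (z : Finset V → ℤ) (S : Finset (Finset V)) : Prop :=
  ∀ X ∈ S, ∀ L, SubP X L → X ∉ L → val z L ≤ z X

theorem Finest.nonneg {z : Finset V → ℤ} {S : Finset (Finset V)} (h : Finest z S) {X : Finset V}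
    (hX : X ∈ S) : 0 ≤ z X := by
  simpa [val] using h X hX ∅ (SubP.empty X) (by simp)

theorem Finest.proper {z : Finset V → ℤ} {S : Finset (Finset V)} (h : Finest z S) {X L : Finset V}
    (hX : X ∈ S) (hL : L ⊆ X) (hne : L.Nonempty) (hLX : L ≠ X) : z L + 1 ≤ z X := by
  have := h X hX {L} (SubP.single hL hne) (by simpa using hLX.symm)
  rw [val_single] at this
  omega

theorem SubP.refine {W : Finset V} {S L : Finset (Finset V)} (hS : SubP W S) {X : Finset V}
    (hX : X ∈ S) (hL : SubP X L) (z : Finset V → ℤ) :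
    SubP W (S.erase X ∪ L) ∧ val z (S.erase X ∪ L) = val z S - (1 + z X) + val z L := by
  have h := SubP.union (hS.subset (erase_subset X S)) (hL.mono (hS.sub X hX)) (fun P hP Y hY =>
    (hS.disj P (mem_of_mem_erase hP) X hX (ne_of_mem_erase hP)).mono_right (hL.sub Y hY)) z
  rw [val_erase z hX] at h
  exact h

theorem exists_finest {W : Finset V} (z : Finset V → ℤ) {S0 : Finset (Finset V)}
    (h0 : SubP W S0) : ∃ S, SubP W S ∧ val z S0 ≤ val z S ∧ Finest z S := by
  classical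
  obtain ⟨S, h1, h2⟩ := exists_min_image
    (univ.filter (fun S : Finset (Finset V) => SubP W S ∧ val z S0 ≤ val z S))
    (fun S => val (fun X => 2 * (X.card : ℤ) - 2) S) ⟨S0, by simp [h0]⟩
  simp only [mem_filter, mem_univ, true_and] at h1 h2
  refine ⟨S, h1.1, h1.2, fun X hX L hL hXL => ?_⟩
  by_contra hlt
  have a1 := h1.1.refine hX hL z
  have a2 := (h1.1.refine hX hL (fun X => 2 * (X.card : ℤ) - 2)).2
  have a3 := h2 _ ⟨a1.1, by have := h1.2; omega⟩
  rw [a2] at a3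
  have hXc : (1 : ℤ) ≤ X.card := by exact_mod_cast card_pos.2 (h1.1.ne X hX)
  have a4 : val (fun X => 2 * (X.card : ℤ) - 2) L = 2 * ∑ Y ∈ L, (Y.card : ℤ) - L.card := by
    unfold val
    rw [mul_sum, card_eq_sum_ones L]
    push_cast
    rw [← sum_sub_distrib]
    exact sum_congr rfl (fun Y _ => by ring)
  have a5 : ∑ Y ∈ L, (Y.card : ℤ) ≤ X.card := by
    have b1 : (L.biUnion id).card = ∑ Y ∈ L, Y.card :=
      card_biUnion (fun Y hY Y' hY' hne => hL.disj Y hY Y' hY' hne)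
    have b2 : L.biUnion id ⊆ X := biUnion_subset.2 (fun Y hY => hL.sub Y hY)
    have b3 := card_le_card b2
    rw [b1] at b3
    exact_mod_cast b3
  rcases Nat.lt_or_ge L.card 2 with hc | hc
  · rcases Nat.lt_or_ge L.card 1 with hc' | hc'
    · rw [card_eq_zero.1 (show L.card = 0 by omega)] at a3
      simp [val] at a3
      omega
    · obtain ⟨Y, rfl⟩ := card_eq_one.1 (show L.card = 1 by omega)
      have b1 : Y ⊂ X := Finset.ssubset_iff_subset_ne.2 ⟨hL.sub Y (mem_singleton_self _),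
        fun hh => hXL (by simp [hh])⟩
      have b2 := card_lt_card b1
      rw [val_single] at a3
      omega
  · omega

end Pool.Agent.CSG

end
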