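import Pool.Agent.MP_305420_co.Mg.AncBase
import Pool.Agent.MP_305420_co.Mg.SC

-- part MP_305420_co.AncU
section

/-! Anchor theorem: shrinking along an edge inside a member with trace `b`. -/

set_option linter.unusedSectionVars false

namespace Pool.Agent.CSG.An

open Finset

variable {V : Type*} [Fintype V] [DecidableEq V] {p : Finset V → ℤ} {G : Multiset (V × V)}
  {a b c d u v : V}

/-- there is a state with a smaller potential -/
def Shrink (p : Finset V → ℤ) (G : Multiset (V × V)) (a b c d : V) : Prop :=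
  ∃ (p1 : Finset V → ℤ) (G1 : Multiset (V × V)) (a1 b1 c1 d1 : V), (p1 = p ∨ p1 = refl p) ∧
    ends G1 + {a1, b1, c1, d1} = ends G + {a, b, c, d} ∧ S1 p1 G1 a1 b1 c1 d1 ∧
    (PP p1 G1 a1 b1 c1 d1).card < (PP p G a b c d).card

theorem Shrink.swap (h : Shrink p G b a c d) : Shrink p G a b c d := by
  obtain ⟨p1, G1, a1, b1, c1, d1, h1, h2, h3, h4⟩ := h
  rw [quad_12 a b c d] at h2
  rw [PP_swap (p := p)] at h4
  exact ⟨p1, G1, a1, b1, c1, d1, h1, h2, h3, h4⟩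

theorem card_lt_of {p1 : Finset V → ℤ} {G1 : Multiset (V × V)} {a1 b1 c1 d1 w : V}
    (hw : w ∈ PP p G a b c d)
    (h1 : ∀ X, a1 ∈ X → b1 ∉ X → c1 ∉ X → d1 ∉ X → 1 ≤ rs p1 G1 X →
      w ∉ X ∧ ∀ z ∈ X, z ∈ PP p G a b c d)
    (h2 : ∀ X, b1 ∈ X → a1 ∉ X → c1 ∉ X → d1 ∉ X → 1 ≤ rs p1 G1 X →
      w ∉ X ∧ ∀ z ∈ X, z ∈ PP p G a b c d) :
    (PP p1 G1 a1 b1 c1 d1).card < (PP p G a b c d).card := by
  refine card_lt_card ⟨fun z hz => ?_, fun hs => ?_⟩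
  · rcases mem_PP.1 hz with ⟨X, x1, x2, x3, x4, x5, x6⟩ | ⟨X, x1, x2, x3, x4, x5, x6⟩
    exacts [(h1 X x1 x2 x3 x4 x5).2 z x6, (h2 X x1 x2 x3 x4 x5).2 z x6]
  · rcases mem_PP.1 (hs hw) with ⟨X, x1, x2, x3, x4, x5, x6⟩ | ⟨X, x1, x2, x3, x4, x5, x6⟩
    exacts [(h1 X x1 x2 x3 x4 x5).1 x6, (h2 X x1 x2 x3 x4 x5).1 x6]

theorem pp_a {X : Finset V} (h1 : a ∈ X) (h2 : b ∉ X) (h3 : c ∉ X) (h4 : d ∉ X)
    (h5 : 1 ≤ rs p G X) : ∀ z ∈ X, z ∈ PP p G a b c d :=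
  fun _ hz => mem_PP.2 (Or.inl ⟨X, h1, h2, h3, h4, h5, hz⟩)

theorem pp_b {X : Finset V} (h1 : b ∈ X) (h2 : a ∉ X) (h3 : c ∉ X) (h4 : d ∉ X)
    (h5 : 1 ≤ rs p G X) : ∀ z ∈ X, z ∈ PP p G a b c d :=
  fun _ hz => mem_PP.2 (Or.inr ⟨X, h1, h2, h3, h4, h5, hz⟩)

theorem not_mb (h : ¬ Mb p G a b c d) {X : Finset V} (h1 : a ∈ X) (h2 : b ∈ X) (h3 : c ∉ X)
    (h4 : d ∉ X) : rs p G X ≤ 0 := by
  by_contra hc
  exact h ⟨X, h1, h2, h3, h4, by omega⟩

theorem S1.top (h : S1 p G a b c d) (X : Finset V) : rs p G X ≤ 1 := h.toCfg.top X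

theorem S1.lad (h : S1 p G a b c d) {X : Finset V} (h1 : a ∈ X) (h2 : b ∉ X) (h3 : c ∉ X)
    (h4 : d ∈ X) : rs p G X ≤ 0 := not_mb h.nad h1 h4 h2 h3

theorem S1.lbd (h : S1 p G a b c d) {X : Finset V} (h1 : a ∉ X) (h2 : b ∈ X) (h3 : c ∉ X)
    (h4 : d ∈ X) : rs p G X ≤ 0 := not_mb h.nbd h2 h4 h1 h3

/-- a set without `b` that meets a member with trace `b` -/
theorem meet_b (h : Cfg p G a b c d) {X0 X : Finset V} (a0 : a ∉ X0) (c0 : c ∉ X0) (d0 : d ∉ X0)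
    (m0 : 1 ≤ rs p G X0) {w : V} (w0 : w ∈ X0) (hw : w ∈ X) (hb : b ∉ X)
    (ht : a ∉ X ∨ c ∉ X ∨ d ∉ X) : rs p G X + 1 ≤ rs p G (X ∪ X0) := by
  have k1 := h.le_none (X := X ∩ X0) (by simp [a0]) (by simp [hb]) (by simp [c0]) (by simp [d0])
  rcases ht with t | t | t
  · have := sup h X X0 w a hw w0 t a0; omega
  · have := sup h X X0 w c hw w0 t c0; omega
  · have := sup h X X0 w d hw w0 t d0; omega

/-- an edge inside a member with trace `b`, cut by no member with trace `a b` or `b c` -/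
structure UC (p : Finset V → ℤ) (G : Multiset (V × V)) (a b c d u v : V) (X0 A1 A2 N : Finset V) :
    Prop extends S1 p G a b c d where
  ed : Ed G u v
  x0 : a ∉ X0 ∧ b ∈ X0 ∧ c ∉ X0 ∧ d ∉ X0 ∧ u ∈ X0 ∧ v ∈ X0 ∧ 1 ≤ rs p G X0
  a1 : a ∈ A1 ∧ b ∈ A1 ∧ c ∉ A1 ∧ d ∉ A1 ∧ u ∈ A1 ∧ v ∈ A1 ∧ 1 ≤ rs p G A1
  a2 : a ∉ A2 ∧ b ∈ A2 ∧ c ∈ A2 ∧ d ∉ A2 ∧ u ∈ A2 ∧ v ∈ A2 ∧ 1 ≤ rs p G A2
  n : a ∈ N ∧ b ∉ N ∧ c ∈ N ∧ d ∉ N ∧ u ∉ N ∧ v ∉ N ∧ 1 ≤ rs p G N
  nab : ∀ X, a ∈ X → b ∈ X → c ∉ X → d ∉ X → ¬ (u ∈ X ↔ v ∈ X) → rs p G X ≤ 0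
  nbc : ∀ X, a ∉ X → b ∈ X → c ∈ X → d ∉ X → ¬ (u ∈ X ↔ v ∈ X) → rs p G X ≤ 0

variable {X0 A1 A2 N : Finset V}

theorem UC.symm (h : UC p G a b c d u v X0 A1 A2 N) : UC p G a b c d v u X0 A1 A2 N :=
  { h.toS1 with
    ed := h.ed.symm
    x0 := by have := h.x0; tauto
    a1 := by have := h.a1; tauto
    a2 := by have := h.a2; tauto
    n := by have := h.n; tauto
    nab := fun X h1 h2 h3 h4 h5 => h.nab X h1 h2 h3 h4 (fun e => h5 e.symm)
    nbc := fun X h1 h2 h3 h4 h5 => h.nbc X h1 h2 h3 h4 (fun e => h5 e.symm) }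

theorem UC.cfg (h : UC p G a b c d u v X0 A1 A2 N) : Cfg p G a b c d := h.toS1.toCfg

theorem UC.f1 (h : UC p G a b c d u v X0 A1 A2 N) {X : Finset V} (hu : u ∈ X) (hb : b ∉ X)
    (ht : a ∉ X ∨ c ∉ X ∨ d ∉ X) : rs p G X ≤ 0 := by
  obtain ⟨x1, x2, x3, x4, x5, x6, x7⟩ := h.x0
  have := meet_b h.cfg x1 x3 x4 x7 x5 hu hb ht
  have := h.cfg.top (X ∪ X0)
  omega

theorem UC.f2 (h : UC p G a b c d u v X0 A1 A2 N) {X : Finset V} (hu : u ∈ X) (ha : a ∉ X)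
    (hb : b ∉ X) (hc : c ∉ X) (hd : d ∈ X) : rs p G X ≤ -1 := by
  obtain ⟨x1, x2, x3, x4, x5, x6, x7⟩ := h.x0
  have := meet_b h.cfg x1 x3 x4 x7 x5 hu hb (Or.inl ha)
  have := h.toS1.lbd (X := X ∪ X0) (by simp [*]) (by simp [*]) (by simp [*]) (by simp [*])
  omega

theorem UC.f5 (h : UC p G a b c d u v X0 A1 A2 N) {X : Finset V} (hu : u ∉ X) (hb : b ∈ X)
    (hd : d ∈ X) : rs p G X ≤ 0 := by
  obtain ⟨n1, n2, n3, n4, n5, n6, n7⟩ := h.n
  have k1 := h.cfg.top (X ∩ N)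
  have k2 := h.cfg.le_all (X := X ∪ N) (by simp [*]) (by simp [*]) (by simp [*]) (by simp [*])
  by_cases ha : a ∈ X
  · have := sup h.cfg X N a u ha n1 hu n5; omega
  by_cases hc : c ∈ X
  · have := sup h.cfg X N c u hc n3 hu n5; omega
  exact h.toS1.lbd ha hb hc hd

/-- sets without terminals that contain `u` -/
theorem UC.safe0 (h : UC p G a b c d u v X0 A1 A2 N) {X : Finset V} (hu : u ∈ X) (ha : a ∉ X)
    (hb : b ∉ X) (hc : c ∉ X) (hd : d ∉ X) (hf : 0 ≤ rs p G X) : ∀ z ∈ X, z ∈ PP p G a b c d := by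
  obtain ⟨x1, x2, x3, x4, x5, x6, x7⟩ := h.x0
  have := meet_b h.cfg x1 x3 x4 x7 x5 hu hb (Or.inl ha)
  exact fun z hz => pp_b (X := X ∪ X0) (by simp [*]) (by simp [*]) (by simp [*]) (by simp [*])
    (by omega) z (by simp [hz])

/-- tight set with trace `a` on the side of `u` -/
def Z1 (p : Finset V → ℤ) (G : Multiset (V × V)) (a b c d u v : V) : Prop :=
  ∃ X, a ∈ X ∧ b ∉ X ∧ c ∉ X ∧ d ∉ X ∧ u ∈ X ∧ v ∉ X ∧ 0 ≤ rs p G X

/-- tight set with trace `a b` on the side of `u` -/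
def Z2 (p : Finset V → ℤ) (G : Multiset (V × V)) (a b c d u v : V) : Prop :=
  ∃ X, a ∈ X ∧ b ∈ X ∧ c ∉ X ∧ d ∉ X ∧ u ∈ X ∧ v ∉ X ∧ 0 ≤ rs p G X

/-- tight set with trace `a b c` on the side of `u` -/
def Z3 (p : Finset V → ℤ) (G : Multiset (V × V)) (a b c d u v : V) : Prop :=
  ∃ X, a ∈ X ∧ b ∈ X ∧ c ∈ X ∧ d ∉ X ∧ u ∈ X ∧ v ∉ X ∧ 0 ≤ rs p G X

theorem Z1.no (h : ¬ Z1 p G a b c d u v) {X : Finset V} (h1 : a ∈ X) (h2 : b ∉ X) (h3 : c ∉ X)
    (h4 : d ∉ X) (h5 : u ∈ X) (h6 : v ∉ X) : rs p G X ≤ -1 := by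
  by_contra hc
  exact h ⟨X, h1, h2, h3, h4, h5, h6, by omega⟩

theorem Z2.no (h : ¬ Z2 p G a b c d u v) {X : Finset V} (h1 : a ∈ X) (h2 : b ∈ X) (h3 : c ∉ X)
    (h4 : d ∉ X) (h5 : u ∈ X) (h6 : v ∉ X) : rs p G X ≤ -1 := by
  by_contra hc
  exact h ⟨X, h1, h2, h3, h4, h5, h6, by omega⟩

theorem Z3.no (h : ¬ Z3 p G a b c d u v) {X : Finset V} (h1 : a ∈ X) (h2 : b ∈ X) (h3 : c ∈ X)
    (h4 : d ∉ X) (h5 : u ∈ X) (h6 : v ∉ X) : rs p G X ≤ -1 := by
  by_contra hc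
  exact h ⟨X, h1, h2, h3, h4, h5, h6, by omega⟩

theorem UC.ac_of_a (h : UC p G a b c d u v X0 A1 A2 N) (z : Z1 p G a b c d u v) :
    Z2 p G a c b d u v := by
  obtain ⟨n1, n2, n3, n4, n5, n6, n7⟩ := h.n
  obtain ⟨X, h1, h2, h3, h4, h5, h6, h7⟩ := z
  have := sup h.cfg X N a b h1 n1 h2 n2
  have := h.cfg.top (X ∩ N)
  exact ⟨X ∪ N, by simp [*], by simp [*], by simp [*], by simp [*], by simp [*], by simp [*],
    by omega⟩

theorem UC.ac_of_c (h : UC p G a b c d u v X0 A1 A2 N) (z : Z1 p G c a b d u v) :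
    Z2 p G a c b d u v := by
  obtain ⟨n1, n2, n3, n4, n5, n6, n7⟩ := h.n
  obtain ⟨X, h1, h2, h3, h4, h5, h6, h7⟩ := z
  have := sup h.cfg X N c b h1 n3 h3 n2
  have := h.cfg.top (X ∩ N)
  exact ⟨X ∪ N, by simp [*], by simp [*], by simp [*], by simp [*], by simp [*], by simp [*],
    by omega⟩

theorem UC.a_of_ac (h : UC p G a b c d u v X0 A1 A2 N) (z : Z2 p G a c b d u v) :
    Z1 p G a b c d u v := by
  obtain ⟨n1, n2, n3, n4, n5, n6, n7⟩ := h.a1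
  obtain ⟨X, h1, h2, h3, h4, h5, h6, h7⟩ := z
  have := sup h.cfg X A1 a d h1 n1 h4 n4
  have := h.cfg.top (X ∪ A1)
  exact ⟨X ∩ A1, by simp [*], by simp [*], by simp [*], by simp [*], by simp [*], by simp [*],
    by omega⟩

theorem UC.c_of_ac (h : UC p G a b c d u v X0 A1 A2 N) (z : Z2 p G a c b d u v) :
    Z1 p G c a b d u v := by
  obtain ⟨n1, n2, n3, n4, n5, n6, n7⟩ := h.a2
  obtain ⟨X, h1, h2, h3, h4, h5, h6, h7⟩ := z
  have := sup h.cfg X A2 c d h2 n3 h4 n4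
  have := h.cfg.top (X ∪ A2)
  exact ⟨X ∩ A2, by simp [*], by simp [*], by simp [*], by simp [*], by simp [*], by simp [*],
    by omega⟩

theorem UC.f4 (h : UC p G a b c d u v X0 A1 A2 N) (z : Z2 p G a c b d u v) :
    ¬ Z2 p G a c b d v u := by
  obtain ⟨X, h1, h2, h3, h4, h5, h6, h7⟩ := z
  rintro ⟨Y, y1, y2, y3, y4, y5, y6, y7⟩
  have := bon h.cfg X Y a b h.ed h1 y1 h3 y3 h5 y6 y5 h6
  have := h.cfg.top (X ∩ Y)
  have := h.f1 (X := X ∪ Y) (by simp [*]) (by simp [*]) (by simp [*])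
  omega

/-- two opposite tight sets containing `b` and `d` -/
theorem UC.f6 (h : UC p G a b c d u v X0 A1 A2 N) {X Y : Finset V} {t : V} (h1 : b ∈ X)
    (h2 : d ∈ X) (h3 : u ∈ X) (h4 : v ∉ X) (h5 : t ∉ X) (y1 : b ∈ Y) (y2 : d ∈ Y) (y3 : v ∈ Y)
    (y4 : u ∉ Y) (y5 : t ∉ Y) : rs p G X + rs p G Y ≤ -1 := by
  have := bon h.cfg X Y b t h.ed h1 y1 h5 y5 h3 y4 y3 h4
  have := h.cfg.top (X ∪ Y)
  have := h.f5 (X := X ∩ Y) (by simp [*]) (by simp [*]) (by simp [*])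
  omega

theorem ends_four {E E' : Multiset V} {u v x y : V} (h : E' + {u, v} = E + {x, y}) (s t : V) :
    E' + ({u} + {v} + {s} + {t}) = E + ({x} + {y} + {s} + {t}) := by
  have e1 : E' + ({u} + {v} + {s} + {t}) = E' + {u, v} + ({s} + {t}) := by
    simp only [Multiset.insert_eq_cons, ← Multiset.singleton_add]; abel
  rw [e1, h]
  simp only [Multiset.insert_eq_cons, ← Multiset.singleton_add]; abel

theorem four_eq (a b c d : V) : ({a, b, c, d} : Multiset V) = {a} + {b} + {c} + {d} := by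
  simp only [Multiset.insert_eq_cons, ← Multiset.singleton_add]; abel

/-- the move `u v ↦ b d` -/
theorem UC.cfg_bd (h : UC p G a b c d u v X0 A1 A2 N) {G1 : Multiset (V × V)}
    (hr : ∀ X, rs p G1 X = rs p G X + cut (u, v) X - cut (b, d) X)
    (he : ends G1 + {u, v} = ends G + {b, d}) :
    ends G1 + {a, u, c, v} = ends G + {a, b, c, d} ∧ Cfg p G1 a u c v := by
  have e1 : ends G1 + {a, u, c, v} = ends G + {a, b, c, d} := by
    have := ends_four he a c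
    rw [four_eq, four_eq]
    convert this using 2 <;> abel
  refine ⟨e1, mkCfg h.cfg e1 fun X => ?_⟩
  rw [hr]
  have k0 := h.cfg.top X
  have k1 := h.cfg.le_in X
  have k2 := h.cfg.le_out X
  by_cases c1 : a ∈ X <;> by_cases c2 : b ∈ X <;> by_cases c3 : c ∈ X <;> by_cases c4 : d ∈ X <;>
    by_cases c5 : u ∈ X <;> by_cases c6 : v ∈ X <;>
    simp only [cut, ind, c1, c2, c3, c4, c5, c6, iff_true, iff_false, not_true,
      if_true, if_false, iff_self] at k1 k2 ⊢ <;>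
    first
    | omega
    | (have := h.toS1.lbd c1 c2 c3 c4; omega)
    | (have := h.f1 c5 c2 (Or.inr (Or.inr c4)); omega)
    | (have := h.symm.f1 c6 c2 (Or.inr (Or.inr c4)); omega)

/-- the move `u v ↦ c v` -/
theorem UC.cfg_cv (h : UC p G a b c d u v X0 A1 A2 N) {G1 : Multiset (V × V)}
    (hr : ∀ X, rs p G1 X = rs p G X + cut (u, v) X - cut (c, v) X)
    (he : ends G1 + {u, v} = ends G + {c, v}) (z1 : ¬ Z2 p G a c b d v u)
    (z2 : Z3 p G a b d c v u) :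
    ends G1 + {a, u, b, d} = ends G + {a, b, c, d} ∧ Cfg p G1 a u b d := by
  have e1 : ends G1 + {a, u, b, d} = ends G + {a, b, c, d} := by
    have e2 := ends_four he a b
    have e3 : ends G1 + {a, u, b, d} + {v} = ends G + {a, b, c, d} + {v} := by
      have := congrArg (fun x => x + {d}) e2
      rw [four_eq, four_eq]
      convert this using 1 <;> abel
    exact add_right_cancel e3
  refine ⟨e1, mkCfg h.cfg e1 fun X => ?_⟩
  rw [hr]
  obtain ⟨Y, y1, y2, y3, y4, y5, y6, y7⟩ := z2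
  have z3 : ¬ Z1 p G c a b d v u := fun z => z1 (h.symm.ac_of_c z)
  have k0 := h.cfg.top X
  have k1 := h.cfg.le_in X
  have k2 := h.cfg.le_out X
  by_cases c1 : a ∈ X <;> by_cases c2 : b ∈ X <;> by_cases c3 : c ∈ X <;> by_cases c4 : d ∈ X <;>
    by_cases c5 : u ∈ X <;> by_cases c6 : v ∈ X <;>
    simp only [cut, ind, c1, c2, c3, c4, c5, c6, iff_true, iff_false, not_true,
      if_true, if_false, iff_self] at k1 k2 ⊢ <;>
    first
    | omega
    | (have := h.toS1.lbd c1 c2 c3 c4; omega)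
    | (have := h.toS1.lad c1 c2 c3 c4; omega)
    | (have := Z1.no z3 c3 c1 c2 c4 c6 c5; omega)
    | (have := h.f6 c2 c4 c5 c6 c3 y2 y3 y5 y6 y4; omega)
    | (have := h.symm.f1 c6 c2 (Or.inr (Or.inr c4)); omega)
    | (have := h.symm.f1 c6 c2 (Or.inl c1); omega)
    | (have := h.nab X c1 c2 c3 c4 (by simp [c5, c6]); omega)
    | (have := h.nbc X c1 c2 c3 c4 (by simp [c5, c6]); omega)

theorem UC.u1 (h : UC p G a b c d u v X0 A1 A2 N) (z1 : Z2 p G a c b d u v)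
    (z2 : ¬ Z3 p G a b d c v u) : Shrink p G a b c d := by
  obtain ⟨G1, hr, he, -⟩ := h.ed.move p b d
  obtain ⟨e1, cf⟩ := h.cfg_bd hr he
  obtain ⟨x1, x2, x3, x4, x5, x6, x7⟩ := h.x0
  obtain ⟨n1, n2, n3, n4, n5, n6, n7⟩ := h.n
  have z3 : ¬ Z1 p G a b c d v u := fun z => h.f4 z1 (h.symm.ac_of_a z)
  obtain ⟨P, p1, p2, p3, p4, p5, p6, p7⟩ := h.a_of_ac z1
  obtain ⟨Q, q1, q2, q3, q4, q5, q6, q7⟩ := h.c_of_ac z1
  refine ⟨p, G1, a, u, c, v, Or.inl rfl, e1, ⟨cf, ⟨P, p1, p5, p3, p6, ?_⟩, ⟨N, n1, n3, n5, n6, ?_⟩,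
    ⟨Q, q5, q1, q2, q6, ?_⟩, ?_, ?_⟩, card_lt_of (pp_b x2 x1 x3 x4 x7 v x6) ?_ ?_⟩
  · rw [hr]; simp only [cut, p2, p4, p5, p6]; simp; omega
  · rw [hr]; simp only [cut, n2, n4, n5, n6]; simp; omega
  · rw [hr]; simp only [cut, q3, q4, q5, q6]; simp; omega
  · rintro ⟨X, c1, c6, c5, c3, hX⟩
    rw [hr] at hX
    by_cases c2 : b ∈ X <;> by_cases c4 : d ∈ X <;> simp [cut, c2, c4, c5, c6] at hX
    · have := Z3.no z2 c1 c2 c4 c3 c6 c5; omega
    · have := h.nab X c1 c2 c3 c4 (by simp [c5, c6]); omega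
    · have := h.toS1.lad c1 c2 c3 c4; omega
    · have := Z1.no z3 c1 c2 c3 c4 c6 c5; omega
  · rintro ⟨X, c5, c6, c1, c3, hX⟩
    rw [hr] at hX
    have := h.cfg.top X
    by_cases c2 : b ∈ X <;> by_cases c4 : d ∈ X <;> simp [cut, c2, c4, c5, c6] at hX
    · have := h.toS1.lbd c1 c2 c3 c4; omega
    · omega
    · omega
    · have := h.cfg.le_none c1 c2 c3 c4; omega
  · intro X c1 c5 c3 c6 hX
    rw [hr] at hX
    have := h.cfg.top X
    refine ⟨c6, ?_⟩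
    by_cases c2 : b ∈ X <;> by_cases c4 : d ∈ X <;> simp [cut, c2, c4, c5, c6] at hX
    · have := h.f5 c5 c2 c4; omega
    · omega
    · omega
    · exact pp_a c1 c2 c3 c4 hX
  · intro X c5 c1 c3 c6 hX
    rw [hr] at hX
    refine ⟨c6, ?_⟩
    by_cases c2 : b ∈ X <;> by_cases c4 : d ∈ X <;> simp [cut, c2, c4, c5, c6] at hX
    · have k1 := sup h.cfg X X0 b a c2 x2 c1 x1
      have k2 := h.toS1.lbd (X := X ∪ X0) (by simp [*]) (by simp [*]) (by simp [*]) (by simp [*])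
      have k3 := meet_b h.cfg (X0 := X ∩ X0) (X := P) (w := u) (by simp [x1]) (by simp [x3])
        (by simp [x4]) (by omega) (by simp [c5, x5]) p5 p2 (Or.inr (Or.inl p3))
      have k4 := h.nab (P ∪ X ∩ X0) (by simp [p1]) (by simp [c2, x2]) (by simp [p3, c3])
        (by simp [p4, x4]) (by simp [p5, p6, c6])
      omega
    · exact pp_b c2 c1 c3 c4 hX
    · have := h.f2 c5 c1 c2 c3 c4; omega
    · exact h.safe0 c5 c1 c2 c3 c4 hX

/-- no member with trace `u d` after the move `u v ↦ c v` -/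
theorem UC.nud (h : UC p G a b c d u v X0 A1 A2 N) {G1 : Multiset (V × V)}
    (hr : ∀ X, rs p G1 X = rs p G X + cut (u, v) X - cut (c, v) X) : ¬ Mb p G1 u d a b := by
  rintro ⟨X, c5, c4, c1, c2, hX⟩
  rw [hr] at hX
  have := h.f1 c5 c2 (Or.inl c1)
  by_cases c3 : c ∈ X <;> by_cases c6 : v ∈ X <;> simp [cut, c3, c5, c6] at hX
  · omega
  · omega
  · omega
  · have := h.f2 c5 c1 c2 c3 c4; omega

theorem UC.nad1 (h : UC p G a b c d u v X0 A1 A2 N) {G1 : Multiset (V × V)}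
    (hr : ∀ X, rs p G1 X = rs p G X + cut (u, v) X - cut (c, v) X) (z2 : Z3 p G a b d c v u)
    (z3 : ¬ Z2 p G a d b c v u) : ¬ Mb p G1 a d u b := by
  rintro ⟨X, c1, c4, c5, c2, hX⟩
  obtain ⟨Y, y1, y2, y3, y4, y5, y6, y7⟩ := z2
  rw [hr] at hX
  have := h.cfg.top X
  by_cases c3 : c ∈ X <;> by_cases c6 : v ∈ X <;> simp [cut, c3, c5, c6] at hX
  · have k1 := sup h.cfg X Y a u c1 y1 c5 y6
    have k2 := h.cfg.le_all (X := X ∪ Y) (by simp [*]) (by simp [*]) (by simp [*]) (by simp [*])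
    have k3 := Z2.no z3 (X := X ∩ Y) (by simp [*]) (by simp [*]) (by simp [*]) (by simp [*])
      (by simp [*]) (by simp [*])
    omega
  · omega
  · have := h.toS1.lad c1 c2 c3 c4; omega
  · have := h.toS1.lad c1 c2 c3 c4; omega

theorem UC.mub (h : UC p G a b c d u v X0 A1 A2 N) {G1 : Multiset (V × V)}
    (hr : ∀ X, rs p G1 X = rs p G X + cut (u, v) X - cut (c, v) X) : Mb p G1 u b a d := by
  obtain ⟨n1, n2, n3, n4, n5, n6, n7⟩ := h.a2
  exact ⟨A2, n5, n2, n1, n4, by rw [hr]; simp [cut, n3, n5, n6, n7]⟩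

theorem UC.u2 (h : UC p G a b c d u v X0 A1 A2 N) (z1 : Z2 p G a c b d u v)
    (z2 : Z3 p G a b d c v u) : Shrink p G a b c d := by
  obtain ⟨G1, hr, he, -⟩ := h.ed.move p c v
  have z4 := h.f4 z1
  obtain ⟨e1, cf⟩ := h.cfg_cv hr he z4 z2
  obtain ⟨x1, x2, x3, x4, x5, x6, x7⟩ := h.x0
  obtain ⟨P, p1, p2, p3, p4, p5, p6, p7⟩ := h.a_of_ac z1
  have z3 : ¬ Z2 p G a d b c v u := by
    rintro ⟨Y, y1, y2, y3, y4, y5, y6, y7⟩
    have k1 := bon h.cfg P Y a b h.ed p1 y1 p2 y3 p5 y6 y5 p6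
    have k2 := h.cfg.top (P ∩ Y)
    have k3 := h.toS1.lad (X := P ∪ Y) (by simp [*]) (by simp [*]) (by simp [*]) (by simp [*])
    omega
  refine ⟨p, G1, a, u, b, d, Or.inl rfl, e1, ⟨cf, ⟨P, p1, p5, p2, p4, ?_⟩,
    (pairing cf.s23).resolve_right (h.nud hr), h.mub hr, h.nad1 hr z2 z3, h.nud hr⟩,
    card_lt_of (pp_b x2 x1 x3 x4 x7 b x2) ?_ ?_⟩
  · rw [hr]; simp only [cut, p3, p5, p6]; simp; omega
  · intro X c1 c5 c2 c4 hX
    rw [hr] at hX
    have := h.cfg.top X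
    refine ⟨c2, ?_⟩
    by_cases c3 : c ∈ X <;> by_cases c6 : v ∈ X <;> simp [cut, c3, c5, c6] at hX
    · have := Z2.no z4 c1 c3 c2 c4 c6 c5; omega
    · omega
    · exact pp_a c1 c2 c3 c4 hX
    · exact pp_a c1 c2 c3 c4 hX
  · intro X c5 c1 c2 c4 hX
    rw [hr] at hX
    have := h.f1 c5 c2 (Or.inl c1)
    refine ⟨c2, ?_⟩
    by_cases c3 : c ∈ X <;> by_cases c6 : v ∈ X <;> simp [cut, c3, c5, c6] at hX
    · omega
    · omega
    · omega
    · exact h.safe0 c5 c1 c2 c3 c4 hX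

theorem UC.u3 (h : UC p G a b c d u v X0 A1 A2 N) (z1 : ¬ Z2 p G a c b d v u)
    (z2 : Z3 p G a b d c v u) (z5 : Z3 p G c b d a v u) : Shrink p G a b c d := by
  obtain ⟨G1, hr, he, -⟩ := h.ed.move p c v
  obtain ⟨e1, cf⟩ := h.cfg_cv hr he z1 z2
  obtain ⟨x1, x2, x3, x4, x5, x6, x7⟩ := h.x0
  obtain ⟨n1, n2, n3, n4, n5, n6, n7⟩ := h.n
  obtain ⟨m1, m2, m3, m4, m5, m6, m7⟩ := h.a1
  obtain ⟨l1, l2, l3, l4, l5, l6, l7⟩ := h.a2
  obtain ⟨P, p1, p2, p3, p4, p5, p6, p7⟩ := z5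
  have z3 : ¬ Z2 p G a d b c v u := by
    rintro ⟨Y, y1, y2, y3, y4, y5, y6, y7⟩
    have k1 := sup h.cfg P Y d u p3 y2 p6 y6
    have k2 := h.cfg.le_all (X := P ∪ Y) (by simp [y1]) (by simp [p2]) (by simp [p1]) (by simp [p3])
    have k3 := h.symm.f2 (X := P ∩ Y) (by simp [p5, y5]) (by simp [p4]) (by simp [y3])
      (by simp [y4]) (by simp [p3, y2])
    omega
  refine ⟨refl p, G1, a, u, d, b, Or.inr rfl, by rw [quad_34]; exact e1,
    ⟨cf.refl.s34, mb_refl.2 ⟨P, p3, p2, p4, p6, ?_⟩, mb_refl.2 (h.mub hr),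
    mb_refl.2 ((pairing cf.s23).resolve_right (h.nud hr)), fun m => h.nud hr (mb_refl.1 m),
    fun m => h.nad1 hr z2 z3 (mb_refl.1 m)⟩, card_lt_of (pp_b x2 x1 x3 x4 x7 b x2) ?_ ?_⟩
  · rw [hr]; simp only [cut, p1, p5, p6]; simp; omega
  · intro X' c1' c5' c4' c2' hX
    rw [rs_refl, hr] at hX
    refine ⟨c2', ?_⟩
    have c1 : a ∉ X'ᶜ := by simpa
    have c2 : b ∈ X'ᶜ := by simpa
    have c4 : d ∈ X'ᶜ := by simpa
    have c5 : u ∈ X'ᶜ := by simpa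
    have hz : ∀ z ∈ X', z ∉ X'ᶜ := fun z hz => by simpa
    generalize X'ᶜ = X at hX c1 c2 c4 c5 hz
    have := h.cfg.top X
    by_cases c3 : c ∈ X <;> by_cases c6 : v ∈ X <;> simp [cut, c3, c5, c6] at hX
    · intro z z0
      have z1 := hz z z0
      have k0 := sup h.cfg A1 N a d m1 n1 m4 n4
      have k1 := h.cfg.top (A1 ∪ N)
      refine pp_a (X := A1 ∩ N) (by simp [m1, n1]) (by simp [n2]) (by simp [m3]) (by simp [m4])
        (by omega) z (mem_inter.2 ⟨?_, ?_⟩)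
      · by_contra z2
        have k2 := sup h.cfg X A1 b z c2 m2 z1 z2
        have k3 := h.cfg.top (X ∩ A1)
        have k4 := h.cfg.le_all (X := X ∪ A1) (by simp [m1]) (by simp [c2]) (by simp [c3])
          (by simp [c4])
        omega
      · by_contra z2
        have k2 := sup h.cfg X N c z c3 n3 z1 z2
        have k3 := h.cfg.top (X ∩ N)
        have k4 := h.cfg.le_all (X := X ∪ N) (by simp [n1]) (by simp [c2]) (by simp [c3])
          (by simp [c4])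
        omega
    · have := h.symm.f5 c6 c2 c4; omega
    · omega
    · have k1 := bon h.cfg X P b a h.ed c2 p2 c1 p4 c5 p6 p5 c6
      have k2 := h.cfg.top (X ∪ P)
      have k3 := h.toS1.lbd (X := X ∩ P) (by simp [c1]) (by simp [c2, p2]) (by simp [c3])
        (by simp [c4, p3])
      omega
  · intro X' c5' c1' c4' c2' hX
    rw [rs_refl, hr] at hX
    refine ⟨c2', ?_⟩
    have c1 : a ∈ X'ᶜ := by simpa
    have c2 : b ∈ X'ᶜ := by simpa
    have c4 : d ∈ X'ᶜ := by simpa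
    have c5 : u ∉ X'ᶜ := by simpa
    have hz : ∀ z ∈ X', z ∉ X'ᶜ := fun z hz => by simpa
    generalize X'ᶜ = X at hX c1 c2 c4 c5 hz
    have := h.f5 c5 c2 c4
    by_cases c3 : c ∈ X <;> by_cases c6 : v ∈ X <;> simp [cut, c3, c5, c6] at hX
    · intro z z0
      have z1 := hz z z0
      have k0 := sup h.cfg A1 A2 b d m2 l2 m4 l4
      have k1 := h.cfg.top (A1 ∪ A2)
      refine pp_b (X := A1 ∩ A2) (by simp [m2, l2]) (by simp [l1]) (by simp [m3]) (by simp [m4])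
        (by omega) z (mem_inter.2 ⟨?_, ?_⟩)
      · by_contra z2
        have k2 := sup h.cfg X A1 b z c2 m2 z1 z2
        have k3 := h.nab (X ∩ A1) (by simp [c1, m1]) (by simp [c2, m2]) (by simp [m3])
          (by simp [m4]) (by simp [c5, c6, m6])
        have k4 := h.cfg.le_all (X := X ∪ A1) (by simp [m1]) (by simp [c2]) (by simp [c3])
          (by simp [c4])
        omega
      · by_contra z2
        have k2 := sup h.cfg X A2 b z c2 l2 z1 z2
        have k3 := h.nbc (X ∩ A2) (by simp [l1]) (by simp [c2, l2]) (by simp [c3, l3])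
          (by simp [l4]) (by simp [c5, c6, l6])
        have k4 := h.cfg.le_all (X := X ∪ A2) (by simp [c1]) (by simp [c2]) (by simp [c3])
          (by simp [c4])
        omega
    · omega
    · omega
    · omega

/-- the pairing `a u | c v` after the move `u v ↦ b d` -/
theorem UC.p1 (h : UC p G a b c d u v X0 A1 A2 N) :
    Z2 p G a c b d u v ∨ Z2 p G a c b d v u ∨ Z3 p G a b d c u v ∨ Z3 p G c b d a v u := by
  obtain ⟨G1, hr, he, -⟩ := h.ed.move p b d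
  obtain ⟨-, cf⟩ := h.cfg_bd hr he
  rcases pairing cf with ⟨X, c1, c5, c3, c6, hX⟩ | ⟨X, c3, c6, c1, c5, hX⟩ <;> rw [hr] at hX <;>
    by_cases c2 : b ∈ X <;> by_cases c4 : d ∈ X <;> simp [cut, c2, c4, c5, c6] at hX
  · exact Or.inr (Or.inr (Or.inl ⟨X, c1, c2, c4, c3, c5, c6, hX⟩))
  · have := h.nab X c1 c2 c3 c4 (by simp [c5, c6]); omega
  · have := h.toS1.lad c1 c2 c3 c4; omega
  · exact Or.inl (h.ac_of_a ⟨X, c1, c2, c3, c4, c5, c6, hX⟩)
  · exact Or.inr (Or.inr (Or.inr ⟨X, c3, c2, c4, c1, c6, c5, hX⟩))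
  · have := h.nbc X c1 c2 c3 c4 (by simp [c5, c6]); omega
  · have := h.symm.f1 c6 c2 (Or.inl c1); omega
  · exact Or.inr (Or.inl (h.symm.ac_of_c ⟨X, c3, c1, c2, c4, c6, c5, hX⟩))

theorem UC.f7 (h : UC p G a b c d u v X0 A1 A2 N) {s t : V} (z : Z3 p G s b d t u v) :
    ¬ Z3 p G s b d t v u := by
  obtain ⟨X, x1, x2, x3, x4, x5, x6, x7⟩ := z
  rintro ⟨Y, y1, y2, y3, y4, y5, y6, y7⟩
  have := h.f6 x2 x3 x5 x6 x4 y2 y3 y5 y6 y4
  omega

theorem UC.shrink (h : UC p G a b c d u v X0 A1 A2 N) : Shrink p G a b c d := by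
  by_cases z1 : Z2 p G a c b d u v
  · by_cases z2 : Z3 p G a b d c v u
    exacts [h.u2 z1 z2, h.u1 z1 z2]
  by_cases z2 : Z2 p G a c b d v u
  · by_cases z3 : Z3 p G a b d c u v
    exacts [h.symm.u2 z2 z3, h.symm.u1 z2 z3]
  rcases h.p1 with k | k | k | k
  · exact absurd k z1
  · exact absurd k z2
  · rcases h.symm.p1 with l | l | l | l
    · exact absurd l z2
    · exact absurd l z1
    · exact absurd l (h.f7 k)
    · exact h.symm.u3 z1 k l
  · rcases h.symm.p1 with l | l | l | l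
    · exact absurd l z2
    · exact absurd l z1
    · exact h.u3 z2 l k
    · exact absurd k (h.f7 l)

/-- shrinking along an uncut edge -/
theorem shrink_u (h : S1 p G a b c d) (ed : Ed G u v) (x1 : a ∉ X0) (x2 : b ∈ X0) (x3 : c ∉ X0)
    (x4 : d ∉ X0) (x5 : u ∈ X0) (x6 : v ∈ X0) (x7 : 1 ≤ rs p G X0)
    (nab : ∀ X, a ∈ X → b ∈ X → c ∉ X → d ∉ X → ¬ (u ∈ X ↔ v ∈ X) → rs p G X ≤ 0)
    (nbc : ∀ X, a ∉ X → b ∈ X → c ∈ X → d ∉ X → ¬ (u ∈ X ↔ v ∈ X) → rs p G X ≤ 0) :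
    Shrink p G a b c d := by
  obtain ⟨A, a1, a2, a3, a4, a5⟩ := h.mab
  obtain ⟨B, b1, b2, b3, b4, b5⟩ := h.mbc
  obtain ⟨C, c1, c2, c3, c4, c5⟩ := h.mac
  have k1 := sup h.toCfg A X0 b d a2 x2 a4 x4
  have k2 := sup h.toCfg B X0 b d b1 x2 b4 x4
  have k3 := h.top (A ∩ X0)
  have k4 := h.top (B ∩ X0)
  have k5 := h.top (C ∪ X0)
  have k6 : ∀ w ∈ X0, w ∉ C := fun w w1 w2 => by
    have := meet_b h.toCfg x1 x3 x4 x7 w1 w2 c3 (Or.inr (Or.inr c4))
    omega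
  refine UC.shrink (X0 := X0) (A1 := A ∪ X0) (A2 := B ∪ X0) (N := C)
    { h with
      ed := ed
      x0 := ⟨x1, x2, x3, x4, x5, x6, x7⟩
      a1 := ⟨by simp [a1], by simp [a2], by simp [a3, x3], by simp [a4, x4], by simp [x5],
        by simp [x6], by omega⟩
      a2 := ⟨by simp [b3, x1], by simp [b1], by simp [b2], by simp [b4, x4], by simp [x5],
        by simp [x6], by omega⟩
      n := ⟨c1, c3, c2, c4, k6 u x5, k6 v x6, c5⟩
      nab := nab
      nbc := nbc }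

end Pool.Agent.CSG.An

end

-- part MP_305420_co.AncA
section

/-! Anchor theorem: shrinking with a neighbour of `b`, and the case of two non-hubs. -/

set_option linter.unusedSectionVars false

namespace Pool.Agent.CSG.An

open Finset

variable {V : Type*} [Fintype V] [DecidableEq V] {p : Finset V → ℤ} {G : Multiset (V × V)}
  {a b c d u v y : V} {X0 N : Finset V}

/-- an edge `u v` leaving the least member with trace `b` through `u`, and a neighbour `y` -/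
structure AC (p : Finset V → ℤ) (G : Multiset (V × V)) (a b c d u v y : V) (X0 N : Finset V) :
    Prop extends S1 p G a b c d where
  sab : 1 ≤ rs p G {a, b}
  ed : Ed G u v
  ey : Ed G b y
  ub : u ≠ b
  vb : v ≠ b
  yb : y ≠ b
  ca : c ≠ a
  cb : c ≠ b
  da : d ≠ a
  db : d ≠ b
  x0 : a ∉ X0 ∧ b ∈ X0 ∧ c ∉ X0 ∧ d ∉ X0 ∧ u ∈ X0 ∧ v ∉ X0 ∧ y ∈ X0 ∧ 1 ≤ rs p G X0
  n : a ∈ N ∧ b ∉ N ∧ c ∈ N ∧ d ∉ N ∧ 1 ≤ rs p G N
  mn : ∀ X, a ∉ X → b ∈ X → c ∉ X → d ∉ X → u ∈ X → y ∉ X → rs p G X ≤ 0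

theorem AC.cfg (h : AC p G a b c d u v y X0 N) : Cfg p G a b c d := h.toS1.toCfg

theorem AC.f1 (h : AC p G a b c d u v y X0 N) {X : Finset V} {w : V} (w0 : w ∈ X0) (hw : w ∈ X)
    (hb : b ∉ X) (ht : a ∉ X ∨ c ∉ X ∨ d ∉ X) : rs p G X ≤ 0 := by
  obtain ⟨x1, x2, x3, x4, x5, x6, x7, x8⟩ := h.x0
  have := meet_b h.cfg x1 x3 x4 x8 w0 hw hb ht
  have := h.cfg.top (X ∪ X0)
  omega

theorem AC.nw (h : AC p G a b c d u v y X0 N) {w : V} (w0 : w ∈ X0) : w ∉ N := fun hw => by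
  obtain ⟨n1, n2, n3, n4, n5⟩ := h.n
  have := h.f1 w0 hw n2 (Or.inr (Or.inr n4))
  omega

theorem AC.nv (h : AC p G a b c d u v y X0 N) : v ∉ N := fun hv => by
  obtain ⟨x1, x2, x3, x4, x5, x6, x7, x8⟩ := h.x0
  obtain ⟨n1, n2, n3, n4, n5⟩ := h.n
  have nu := h.nw x5
  by_cases va : v = a
  · obtain ⟨B, b1, b2, b3, b4, b5⟩ := h.mbc
    have k1 := sup h.cfg B X0 b d b1 x2 b4 x4
    have k2 := h.cfg.top (B ∩ X0)
    have k3 := bon h.cfg (B ∪ X0) N c d h.ed (by simp [b2]) n3 (by simp [b4, x4]) n4 (by simp [x5])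
      nu hv (by simp [va, b3, x1])
    have k4 := h.cfg.top ((B ∪ X0) ∩ N)
    have k5 := h.cfg.top (B ∪ X0 ∪ N)
    omega
  · have k0 := h.sab
    have k1 := sup h.cfg {a, b} X0 b d (by simp) x2 (by simp [h.da, h.db]) x4
    have k2 := h.cfg.top ({a, b} ∩ X0)
    have k3 := bon h.cfg ({a, b} ∪ X0) N a d h.ed (by simp) n1 (by simp [h.da, h.db, x4]) n4
      (by simp [x5]) nu hv (by simp [va, h.vb, x6])
    have k4 := h.cfg.top (({a, b} ∪ X0) ∩ N)
    have k5 := h.cfg.top ({a, b} ∪ X0 ∪ N)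
    omega

theorem AC.f2 (h : AC p G a b c d u v y X0 N) {X : Finset V} (hu : u ∈ X) (ha : a ∉ X)
    (hb : b ∉ X) (hc : c ∉ X) (hd : d ∈ X) : rs p G X ≤ -1 := by
  obtain ⟨x1, x2, x3, x4, x5, x6, x7, x8⟩ := h.x0
  have := meet_b h.cfg x1 x3 x4 x8 x5 hu hb (Or.inl ha)
  have := h.toS1.lbd (X := X ∪ X0) (by simp [*]) (by simp [*]) (by simp [*]) (by simp [*])
  omega

theorem AC.f5 (h : AC p G a b c d u v y X0 N) {X : Finset V} (hv : v ∉ X) (ha : a ∈ X)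
    (hb : b ∈ X) (hd : d ∈ X) : rs p G X ≤ 0 := by
  obtain ⟨n1, n2, n3, n4, n5⟩ := h.n
  have k1 := h.cfg.top (X ∩ N)
  have k2 := h.cfg.le_all (X := X ∪ N) (by simp [*]) (by simp [*]) (by simp [*]) (by simp [*])
  have := sup h.cfg X N a v ha n1 hv h.nv
  omega

theorem AC.g1 (h : AC p G a b c d u v y X0 N) {X : Finset V} (hb : b ∈ X) (hv : v ∈ X)
    (hu : u ∉ X) (ht : a ∉ X ∨ d ∉ X) : rs p G X + 2 ≤ rs p G (X ∪ X0) := by
  obtain ⟨x1, x2, x3, x4, x5, x6, x7, x8⟩ := h.x0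
  have k := h.cfg.top (X ∩ X0)
  rcases ht with t | t
  · have := bon h.cfg X X0 b a h.ed.symm hb x2 t x1 hv x6 x5 hu; omega
  · have := bon h.cfg X X0 b d h.ed.symm hb x2 t x4 hv x6 x5 hu; omega

theorem AC.g1' (h : AC p G a b c d u v y X0 N) {X : Finset V} (hb : b ∈ X) (hv : v ∈ X)
    (hu : u ∉ X) (hd : d ∉ X) : rs p G X ≤ -1 := by
  have := h.g1 hb hv hu (Or.inr hd)
  have := h.cfg.top (X ∪ X0)
  omega

theorem AC.ya (h : AC p G a b c d u v y X0 N) : y ≠ a := fun e => h.x0.1 (e ▸ h.x0.2.2.2.2.2.2.1)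

theorem AC.va (h : AC p G a b c d u v y X0 N) : v ≠ a := fun e => h.nv (e ▸ h.n.1)

theorem AC.g2 (h : AC p G a b c d u v y X0 N) {X : Finset V} (ha : a ∈ X) (hy : y ∈ X)
    (hb : b ∉ X) {t : V} (ht : t ∉ X) (tb : t ≠ b) : rs p G X + 2 ≤ rs p G (X ∪ {a, b}) := by
  have k := h.cfg.top (X ∩ {a, b})
  have k0 := h.sab
  have ta : t ≠ a := fun e => ht (e ▸ ha)
  have := bon h.cfg X {a, b} a t h.ey.symm ha (by simp) ht (by simp [ta, tb]) hy
    (by simp [h.ya, h.yb]) (by simp) hb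
  omega

theorem AC.g3 (h : AC p G a b c d u v y X0 N) {X : Finset V} (ha : a ∈ X) (hy : y ∈ X)
    (hb : b ∉ X) (hv : v ∉ X) (hd : d ∈ X) : rs p G X ≤ -2 := by
  have := h.g2 ha hy hb hv h.vb
  have := h.f5 (X := X ∪ {a, b}) (by simp [hv, h.va, h.vb]) (by simp) (by simp) (by simp [hd])
  omega

theorem AC.shrink (h : AC p G a b c d u v y X0 N) : Shrink p G a b c d := by
  obtain ⟨G0, hr0, he0, hm0⟩ := h.ed.move p d u
  have ey0 : Ed G0 b y := by
    have ub := h.ub.symm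
    have vb := h.vb.symm
    rcases h.ey with e | e <;> rcases hm0 _ e with k | k | k
    · exact Or.inl k
    · exact absurd (congrArg Prod.fst k) ub
    · exact absurd (congrArg Prod.fst k) vb
    · exact Or.inr k
    · exact absurd (congrArg Prod.snd k) vb
    · exact absurd (congrArg Prod.snd k) ub
  obtain ⟨G1, hr1, he1, -⟩ := ey0.move p b v
  have hr : ∀ X, rs p G1 X =
      rs p G X + cut (u, v) X - cut (d, u) X + cut (b, y) X - cut (b, v) X := fun X => by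
    rw [hr1, hr0]
  have e1 : ends G1 + {a, b, c, y} = ends G + {a, b, c, d} := by
    have e2 := congrArg (fun x => x + {u}) (ends_four he1 a c)
    have e3 := congrArg (fun x => x + {c}) (ends_four he0 a b)
    have e4 : ends G1 + {a, b, c, y} + {u} = ends G + {a, b, c, d} + {u} := by
      rw [four_eq, four_eq]
      have e5 : ends G0 + ({b} + {v} + {a} + {c}) + {u} =
          ends G0 + ({u} + {v} + {a} + {b}) + {c} := by abel
      convert e2.trans (e5.trans e3) using 1 <;> abel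
    exact add_right_cancel e4
  obtain ⟨x1, x2, x3, x4, x5, x6, x7, x8⟩ := h.x0
  obtain ⟨n1, n2, n3, n4, n5⟩ := h.n
  have cf : Cfg p G1 a b c y := by
    refine mkCfg h.cfg e1 fun X => ?_
    rw [hr]
    have k0 := h.cfg.top X
    have k1 := h.cfg.le_in X
    have k2 := h.cfg.le_out X
    by_cases c1 : a ∈ X <;> by_cases c2 : b ∈ X <;> by_cases c3 : c ∈ X <;> by_cases c4 : d ∈ X <;>
      by_cases c5 : u ∈ X <;> by_cases c6 : v ∈ X <;> by_cases c7 : y ∈ X <;>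
      simp only [cut, ind, c1, c2, c3, c4, c5, c6, c7, iff_true, iff_false, not_true,
        if_true, if_false, iff_self] at k1 k2 ⊢ <;>
      first
      | omega
      | (have := h.toS1.lbd c1 c2 c3 c4; omega)
      | (have := h.toS1.lad c1 c2 c3 c4; omega)
      | (have := h.g1' c2 c6 c5 c4; omega)
      | (have := h.f2 c5 c1 c2 c3 c4; omega)
      | (have := h.f1 x5 c5 c2 (Or.inl c1); omega)
      | (have := h.f1 x7 c7 c2 (Or.inr (Or.inr c4)); omega)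
      | (have := h.g3 c1 c7 c2 c6 c4; omega)
  have up : ∀ X, b ∈ X → y ∉ X → d ∉ X → rs p G X ≤ rs p G1 X := by
    intro X c2 c7 c4
    rw [hr]
    by_cases c5 : u ∈ X <;> by_cases c6 : v ∈ X <;> simp [cut, c2, c7, c4, c5, c6]
    omega
  obtain ⟨B, b1, b2, b3, b4, b5⟩ := h.mbc
  have k0 := h.sab
  have k1 := sup h.cfg N {a, b} a d n1 (by simp) n4 (by simp [h.da, h.db])
  have k2 := h.cfg.top (N ∩ {a, b})
  have k3 := sup h.cfg (N ∪ {a, b}) B b d (by simp) b1 (by simp [n4, h.da, h.db]) b4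
  have k4 := h.cfg.top (N ∪ {a, b} ∪ B)
  have ny := h.nw x7
  have nu := h.nw x5
  have nv := h.nv
  refine ⟨p, G1, a, b, c, y, Or.inl rfl, e1, ⟨cf, ⟨{a, b}, by simp, by simp, by simp [h.ca, h.cb],
    by simp [h.ya, h.yb], k0.trans (up _ (by simp) (by simp [h.ya, h.yb]) (by simp [h.da, h.db]))⟩,
    ⟨N, n1, n3, n2, ny, ?_⟩, ⟨(N ∪ {a, b}) ∩ B, by simp [b1], by simp [n3, b2], by simp [b3],
    by simp [ny, h.ya, h.yb], le_trans (by omega)
      (up _ (by simp [b1]) (by simp [ny, h.ya, h.yb]) (by simp [b4]))⟩, ?_, ?_⟩,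
    card_lt_of (pp_b x2 x1 x3 x4 x8 y x7) ?_ ?_⟩
  · rw [hr]; simp [cut, n2, n4, ny, nu, nv, n5]
  · rintro ⟨X, c1, c7, c2, c3, hX⟩
    rw [hr] at hX
    have j1 := h.g2 c1 c7 c2 c3 h.cb
    have j2 := h.cfg.top (X ∪ {a, b})
    by_cases c4 : d ∈ X <;> by_cases c5 : u ∈ X <;> by_cases c6 : v ∈ X <;>
      simp [cut, c2, c7, c4, c5, c6] at hX <;>
      first
      | omega
      | (have := h.g3 c1 c7 c2 c6 c4; omega)
  · rintro ⟨X, c2, c7, c1, c3, hX⟩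
    rw [hr] at hX
    have j2 := h.cfg.top X
    by_cases c4 : d ∈ X <;> by_cases c5 : u ∈ X <;> by_cases c6 : v ∈ X <;>
      simp [cut, c2, c7, c4, c5, c6] at hX <;>
      first
      | omega
      | (have := h.toS1.lbd c1 c2 c3 c4; omega)
      | (have := h.g1' c2 c6 c5 c4; omega)
  · intro X c1 c2 c3 c7 hX
    rw [hr] at hX
    have j2 := h.cfg.top X
    refine ⟨c7, ?_⟩
    by_cases c4 : d ∈ X
    · have j1 := h.toS1.lad c1 c2 c3 c4
      by_cases c5 : u ∈ X <;> by_cases c6 : v ∈ X <;> simp [cut, c2, c7, c4, c5, c6] at hX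
      · omega
      · have j3 := meet_b h.cfg x1 x3 x4 x8 x5 c5 c2 (Or.inr (Or.inl c3))
        have j4 := h.f5 (X := X ∪ X0) (by simp [c6, x6]) (by simp [c1]) (by simp [x2])
          (by simp [c4])
        omega
      · omega
      · omega
    · refine pp_a c1 c2 c3 c4 ?_
      by_cases c5 : u ∈ X <;> by_cases c6 : v ∈ X <;> simp [cut, c2, c7, c4, c5, c6] at hX <;> omega
  · intro X c2 c1 c3 c7 hX
    rw [hr] at hX
    refine ⟨c7, ?_⟩
    by_cases c4 : d ∈ X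
    · exfalso
      have j1 := h.toS1.lbd c1 c2 c3 c4
      have j2 := h.toS1.lbd (X := X ∪ X0) (by simp [c1, x1]) (by simp [c2]) (by simp [c3, x3])
        (by simp [c4])
      by_cases c5 : u ∈ X
      · have j3 := sup h.cfg X X0 b a c2 x2 c1 x1
        have j4 := h.mn (X ∩ X0) (by simp [c1]) (by simp [c2, x2]) (by simp [c3]) (by simp [x4])
          (by simp [c5, x5]) (by simp [c7])
        by_cases c6 : v ∈ X <;> simp [cut, c2, c7, c4, c5, c6] at hX <;> omega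
      · by_cases c6 : v ∈ X <;> simp [cut, c2, c7, c4, c5, c6] at hX
        · have := h.g1 c2 c6 c5 (Or.inl c1); omega
        · omega
    · by_cases c5 : u ∈ X <;> by_cases c6 : v ∈ X <;> simp [cut, c2, c7, c4, c5, c6] at hX
      · exact pp_b c2 c1 c3 c4 hX
      · exact pp_b c2 c1 c3 c4 hX
      · have := h.g1 c2 c6 c5 (Or.inl c1)
        exact fun z hz => pp_b (X := X ∪ X0) (by simp [c2]) (by simp [c1, x1]) (by simp [c3, x3])
          (by simp [c4, x4]) (by omega) z (by simp [hz])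
      · exact pp_b c2 c1 c3 c4 hX

theorem exists_minimal (P : Finset V → Prop) (h : ∃ X, P X) :
    ∃ A, P A ∧ ∀ X, P X → X ⊆ A → X = A := by
  classical
  obtain ⟨X, hX⟩ := h
  obtain ⟨A, hA, hm⟩ := exists_min_image (univ.filter P) card ⟨X, by simpa using hX⟩
  exact ⟨A, by simpa using hA, fun Y hY hs => eq_of_subset_of_card_le hs (hm Y (by simpa using hY))⟩

theorem exists_least (P : Finset V → Prop) (h : ∃ X, P X) (hi : ∀ X Y, P X → P Y → P (X ∩ Y)) :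
    ∃ A, P A ∧ ∀ X, P X → A ⊆ X := by
  obtain ⟨A, hA, hm⟩ := exists_minimal P h
  exact ⟨A, hA, fun X hX => hm _ (hi X A hX hA) inter_subset_right ▸ inter_subset_left⟩

theorem least_mb (h : Cfg p G a b c d) (m : Mb p G a b c d) : ∃ A, (a ∈ A ∧ b ∈ A ∧ c ∉ A ∧ d ∉ A ∧
    1 ≤ rs p G A) ∧ ∀ X, (a ∈ X ∧ b ∈ X ∧ c ∉ X ∧ d ∉ X ∧ 1 ≤ rs p G X) → A ⊆ X := by
  refine exists_least _ m ?_
  rintro X Y ⟨x1, x2, x3, x4, x5⟩ ⟨y1, y2, y3, y4, y5⟩
  have := sup h X Y a c x1 y1 x3 y3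
  have := h.top (X ∪ Y)
  exact ⟨by simp [*], by simp [*], by simp [*], by simp [*], by omega⟩

theorem eq_single {X : Finset V} (hb : b ∈ X) (hc : ¬ 2 ≤ X.card) : X = {b} :=
  (eq_singleton_iff_unique_mem.2 ⟨hb, fun z hz => card_le_one.1 (by omega) z hz b hb⟩)

/-- the core of `b` is a single point -/
theorem s1_core (h : S1 p G a b c d) (hR : R1 p (ends G + {a, b, c, d}))
    (ns : ¬ Shrink p G a b c d) : ∃ A B, (a ∈ A ∧ b ∈ A ∧ c ∉ A ∧ d ∉ A ∧ 1 ≤ rs p G A) ∧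
      (∀ X, (a ∈ X ∧ b ∈ X ∧ c ∉ X ∧ d ∉ X ∧ 1 ≤ rs p G X) → A ⊆ X) ∧
      (b ∈ B ∧ c ∈ B ∧ a ∉ B ∧ d ∉ B ∧ 1 ≤ rs p G B) ∧ A ∩ B = {b} := by
  obtain ⟨A, ⟨a1, a2, a3, a4, a5⟩, mA⟩ := least_mb h.toCfg h.mab
  obtain ⟨B, ⟨b1, b2, b3, b4, b5⟩, mB⟩ := least_mb h.toCfg.s12.s23 h.mbc
  refine ⟨A, B, ⟨a1, a2, a3, a4, a5⟩, mA, ⟨b1, b2, b3, b4, b5⟩, eq_single (by simp [a2, b1]) ?_⟩
  intro hc
  have k1 := sup h.toCfg A B b d a2 b1 a4 b4
  have k2 := h.top (A ∪ B)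
  obtain ⟨u, v, e, e1, e2⟩ := inner_edge hR (X := A ∩ B) (by simp [ind, a2, a3, a4, b1, b3])
    (by omega) hc
  refine ns (shrink_u (X0 := A ∩ B) h e (by simp [b3]) (by simp [a2, b1]) (by simp [a3])
    (by simp [a4]) e1 e2 (by omega) (fun X x1 x2 x3 x4 x5 => ?_) (fun X x1 x2 x3 x4 x5 => ?_))
  · by_contra hh
    have := mA X ⟨x1, x2, x3, x4, by omega⟩
    exact x5 (iff_of_true (this (mem_inter.1 e1).1) (this (mem_inter.1 e2).1))
  · by_contra hh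
    have := mB X ⟨x2, x3, x1, x4, by omega⟩
    exact x5 (iff_of_true (this (mem_inter.1 e1).2) (this (mem_inter.1 e2).2))

theorem cut_inside (h : S1 p G a b c d) (ns : ¬ Shrink p G a b c d) (ed : Ed G u v) (x1 : a ∉ X0)
    (x2 : b ∈ X0) (x3 : c ∉ X0) (x4 : d ∉ X0) (x5 : u ∈ X0) (x6 : v ∈ X0) (x7 : 1 ≤ rs p G X0) :
    ∃ X ⊆ X0, b ∈ X ∧ 1 ≤ rs p G X ∧ ¬ (u ∈ X ↔ v ∈ X) := by
  by_contra hc
  have key : ∀ X, b ∈ X → d ∉ X → ¬ (u ∈ X ↔ v ∈ X) → rs p G X ≤ 0 := fun X c2 c4 c5 => by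
    by_contra hh
    have := sup h.toCfg X X0 b d c2 x2 c4 x4
    have := h.top (X ∪ X0)
    exact hc ⟨X ∩ X0, inter_subset_right, by simp [c2, x2], by omega, by simpa [x5, x6] using c5⟩
  exact ns (shrink_u h ed x1 x2 x3 x4 x5 x6 x7 (fun X _ c2 _ c4 => key X c2 c4)
    (fun X _ c2 _ c4 => key X c2 c4))

theorem has_nbr (h : S1 p G a b c d) (hR : R1 p (ends G + {a, b, c, d}))
    (ns : ¬ Shrink p G a b c d) {X : Finset V} (x1 : a ∉ X) (x2 : b ∈ X) (x3 : c ∉ X) (x4 : d ∉ X)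
    (x5 : 1 ≤ rs p G X) (x6 : X ≠ {b}) : ∃ y ∈ X, y ≠ b ∧ Ed G b y := by
  by_contra hc
  obtain ⟨A, ⟨a1, a2, a3, a4⟩, mA⟩ := exists_minimal
    (fun Y => Y ⊆ X ∧ b ∈ Y ∧ 1 ≤ rs p G Y ∧ Y ≠ {b}) ⟨X, subset_rfl, x2, x5, x6⟩
  have n1 : a ∉ A := fun hh => x1 (a1 hh)
  have n3 : c ∉ A := fun hh => x3 (a1 hh)
  have n4 : d ∉ A := fun hh => x4 (a1 hh)
  obtain ⟨u, v, e, e1, e2⟩ := inner_edge hR (X := A) (by simp [ind, a2, n1, n3, n4]) a3
    (by by_contra hh; exact a4 (eq_single a2 hh))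
  obtain ⟨Y, y1, y2, y3, y4⟩ := cut_inside h ns e n1 a2 n3 n4 e1 e2 a3
  have ub : u ≠ b := by
    rintro rfl
    by_cases vb : v = u
    · exact y4 (by rw [vb])
    · exact hc ⟨v, a1 e2, vb, e⟩
  have vb : v ≠ b := by
    rintro rfl
    exact hc ⟨u, a1 e1, ub, e.symm⟩
  have : Y = A := mA Y ⟨y1.trans a1, y2, y3, by
    rintro rfl
    exact y4 (by simp [ub, vb])⟩ y1
  exact y4 (by rw [this]; exact iff_of_true e1 e2)

theorem no_leave (h : S1 p G a b c d) (hR : R1 p (ends G + {a, b, c, d}))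
    (ns : ¬ Shrink p G a b c d) (sab : 1 ≤ rs p G {a, b}) (ed : Ed G u v) (ub : u ≠ b) (vb : v ≠ b)
    {X : Finset V} (x1 : a ∉ X) (x2 : b ∈ X) (x3 : c ∉ X) (x4 : d ∉ X) (x5 : 1 ≤ rs p G X)
    (x6 : u ∈ X) (x7 : v ∉ X) : False := by
  have t := tri_of h.toCfg h.mab h.mac h.mbc
  obtain ⟨A, ⟨a1, a2, a3, a4, a5, a6⟩, mA⟩ := exists_least
    (fun Y => a ∉ Y ∧ b ∈ Y ∧ c ∉ Y ∧ d ∉ Y ∧ u ∈ Y ∧ 1 ≤ rs p G Y) ⟨X, x1, x2, x3, x4, x6, x5⟩ (by
      rintro Y Z ⟨y1, y2, y3, y4, y5, y6⟩ ⟨z1, z2, z3, z4, z5, z6⟩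
      have := sup h.toCfg Y Z b d y2 z2 y4 z4
      have := h.top (Y ∪ Z)
      exact ⟨by simp [y1], by simp [y2, z2], by simp [y3], by simp [y4], by simp [y5, z5],
        by omega⟩)
  obtain ⟨y, y1, y2, y3⟩ := has_nbr h hR ns a1 a2 a3 a4 a6 (by
    rintro rfl
    exact ub (mem_singleton.1 a5))
  obtain ⟨N, n1, n2, n3, n4, n5⟩ := h.mac
  refine ns (AC.shrink (u := u) (v := v) (y := y) (X0 := A) (N := N)
    { h with
      sab := sab
      ed := ed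
      ey := y3
      ub := ub
      vb := vb
      yb := y2
      ca := t.ac.symm
      cb := t.bc.symm
      da := t.ad.symm
      db := t.bd.symm
      x0 := ⟨a1, a2, a3, a4, a5, fun hh => x7 (mA X ⟨x1, x2, x3, x4, x6, x5⟩ hh), y1, a6⟩
      n := ⟨n1, n3, n2, n4, n5⟩
      mn := fun Y c1 c2 c3 c4 c5 c6 => by
        by_contra hh
        exact c6 (mA Y ⟨c1, c2, c3, c4, c5, by omega⟩ y1) })

theorem anchor_b (h : S1 p G a b c d) (hR : R1 p (ends G + {a, b, c, d}))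
    (ns : ¬ Shrink p G a b c d) (sab : 1 ≤ rs p G {a, b}) : Anchor p G b a c d := by
  intro X x2 x1 x3 x4 x5
  refine ⟨?_, ?_⟩
  · have key : ∀ u v, Ed G u v → u ≠ b → v ≠ b → u ∉ X := by
      intro u v e ub vb hu
      by_cases hv : v ∈ X
      · obtain ⟨Y, y1, y2, y3, y4⟩ := cut_inside h ns e x1 x2 x3 x4 hu hv x5.ge
        have n1 : a ∉ Y := fun hh => x1 (y1 hh)
        have n3 : c ∉ Y := fun hh => x3 (y1 hh)
        have n4 : d ∉ Y := fun hh => x4 (y1 hh)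
        by_cases uY : u ∈ Y
        · exact no_leave h hR ns sab e ub vb n1 y2 n3 n4 y3 uY (fun hh => y4 (iff_of_true uY hh))
        · exact no_leave h hR ns sab e.symm vb ub n1 y2 n3 n4 y3
            (by by_contra hh; exact y4 (iff_of_false uY hh)) uY
      · exact no_leave h hR ns sab e ub vb x1 x2 x3 x4 x5.ge hu hv
    intro e he hX
    by_contra hc
    push Not at hc
    rcases hX with hX | hX
    · exact key e.1 e.2 (Or.inl he) hc.1 hc.2 hX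
    · exact key e.2 e.1 (Or.inr he) hc.2 hc.1 hX
  · by_cases e : X = {b}
    · exact Or.inl e
    · exact Or.inr (has_nbr h hR ns x1 x2 x3 x4 x5.ge e)

theorem two_anchors (h : S1 p G a b c d) (hR : R1 p (ends G + {a, b, c, d}))
    (ns : ¬ Shrink p G a b c d) : TwoA p G a b c d := by
  have hR' : R1 p (ends G + {b, a, c, d}) := by rwa [quad_12 a b c d]
  have ns' : ¬ Shrink p G b a c d := fun s => ns s.swap
  obtain ⟨A, B, ⟨a1, a2, a3, a4, a5⟩, mA, ⟨b1, b2, b3, b4, b5⟩, eB⟩ := s1_core h hR ns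
  obtain ⟨A', C, ⟨a1', a2', a3', a4', a5'⟩, mA', ⟨c1, c2, c3, c4, c5⟩, eC⟩ := s1_core h.swap hR' ns'
  have eA : A' = A := Subset.antisymm (mA' A ⟨a2, a1, a3, a4, a5⟩) (mA A' ⟨a2', a1', a3', a4', a5'⟩)
  subst eA
  have k1 := sup h.toCfg A' B b d a2 b1 a4 b4
  have k2 := h.top (A' ∪ B)
  have k3 := sup h.toCfg A' C a d a1 c1 a4 c4
  have k4 := h.top (A' ∪ C)
  have k5 := sup h.toCfg C B c d c2 b2 c4 b4
  have k6 := h.top (C ∩ B)
  have k7 := sup h.toCfg A' (C ∪ B) a d a1 (by simp [c1]) a4 (by simp [c4, b4])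
  have k8 := h.top (A' ∪ (C ∪ B))
  rw [inter_union_distrib_left, eB, eC] at k7
  rw [eB] at k1
  rw [eC] at k3
  have sab : 1 ≤ rs p G {a, b} := by
    have : ({a} ∪ {b} : Finset V) = {a, b} := by simp
    rw [this] at k7
    omega
  exact ⟨tri_of h.toCfg h.mab h.mac h.mbc, le_antisymm (h.top _) (by omega),
    le_antisymm (h.top _) (by omega), le_antisymm (h.top _) sab,
    anchor_b h.swap hR' ns' (by rwa [pair_comm]), anchor_b h hR ns sab⟩

theorem heavy_state (h : S1 p G a b c d) (t : TwoA p G a b c d)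
    (hv : ∃ e ∈ G, e.1 = b ∨ e.2 = b) : HState p G a b c d := by
  refine ⟨t, hv, fun X c1 c2 c3 c4 => h.lad c1 c2 c3 c4, fun X c1 c2 c3 c4 => h.lbd c1 c2 c3 c4,
    fun D d1 d2 d3 d4 => ?_⟩
  by_contra hh
  obtain ⟨y, ey, yb⟩ : ∃ y, Ed G b y ∧ y ≠ b := by
    obtain ⟨⟨s, s'⟩, he, rfl | rfl⟩ := hv
    exacts [⟨s', Or.inl he, (t.noloop _ he).symm⟩, ⟨s, Or.inr he, t.noloop _ he⟩]
  obtain ⟨N, n1, n2, n3, n4, n5⟩ := h.mac
  obtain ⟨B, b1, b2, b3, b4, b5⟩ := h.mbc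
  have sab := t.sab
  have da := t.ad.symm
  have db := t.bd.symm
  have cf := h.toCfg
  by_cases ya : y = a
  · have := bon cf B N c d ey b2 n2 b4 n4 b1 n3 (ya ▸ n1) (ya ▸ b3)
    have := h.top (B ∩ N)
    have := h.top (B ∪ N)
    omega
  have yN : y ∉ N := fun hy => by
    have := bon cf {a, b} N a d ey (by simp) n1 (by simp [da, db]) n4 (by simp) n3 hy
      (by simp [ya, yb])
    have := h.top ({a, b} ∩ N)
    have := h.top ({a, b} ∪ N)
    omega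
  have k1 := sup cf N {a, b} a d n1 (by simp) n4 (by simp [da, db])
  have k2 := h.top (N ∩ {a, b})
  have k3 := sup cf (N ∪ {a, b}) B b d (by simp) b1 (by simp [n4, da, db]) b4
  have k4 := h.top (N ∪ {a, b} ∪ B)
  by_cases yD : y ∈ D
  · have := bon cf ((N ∪ {a, b}) ∩ B) D c a ey (by simp [n2, b2]) d3 (by simp [b3]) d1
      (by simp [b1]) d2 yD (by simp [yN, ya, yb])
    have := h.top ((N ∪ {a, b}) ∩ B ∩ D)
    have := h.top ((N ∪ {a, b}) ∩ B ∪ D)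
    omega
  · have k5 := sup cf (N ∪ {a, b}) D c y (by simp [n2]) d3 (by simp [yN, ya, yb]) yD
    have k6 := h.top ((N ∪ {a, b}) ∩ D)
    have k7 := cf.le_all (X := N ∪ {a, b} ∪ D) (by simp) (by simp) (by simp [n2]) (by simp [d4])
    omega

theorem s1_stuck (h : S1 p G a b c d) (hR : R1 p (ends G + {a, b, c, d}))
    (ns : ¬ Shrink p G a b c d) : Fin1 p (ends G + {a, b, c, d}) := by
  have t := two_anchors h hR ns
  by_cases hb : ∃ e ∈ G, e.1 = b ∨ e.2 = b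
  · exact ⟨p, G, a, b, c, d, Or.inl rfl, rfl, Or.inl (heavy_state h t hb)⟩
  by_cases ha : ∃ e ∈ G, e.1 = a ∨ e.2 = a
  · have t' := two_anchors h.swap (by rwa [quad_12 a b c d]) (fun s => ns s.swap)
    exact ⟨p, G, b, a, c, d, Or.inl rfl, by rw [quad_12 a b c d], Or.inl (heavy_state h.swap t' ha)⟩
  push Not at ha hb
  exact ⟨p, G, a, b, c, d, Or.inl rfl, rfl, Or.inr ⟨t,
    fun e he => ⟨(ha e he).1, (ha e he).2, (hb e he).1, (hb e he).2⟩,
    Or.inl ⟨fun X c1 c2 c3 c4 => h.lad c1 c2 c3 c4, fun X c1 c2 c3 c4 => h.lbd c1 c2 c3 c4⟩⟩⟩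

/-- the anchor theorem for a triangle with two non-hubs -/
theorem s1_fin (p : Finset V → ℤ) (G : Multiset (V × V)) (a b c d : V) (h : S1 p G a b c d)
    (hR : R1 p (ends G + {a, b, c, d})) : Fin1 p (ends G + {a, b, c, d}) := by
  induction hn : (PP p G a b c d).card using Nat.strong_induction_on generalizing p G a b c d with
  | _ n ih =>
  by_cases ns : Shrink p G a b c d
  · obtain ⟨p1, G1, a1, b1, c1, d1, h1, h2, h3, h4⟩ := ns
    rw [← h2] at hR ⊢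
    rcases h1 with rfl | rfl
    · exact ih _ (hn ▸ h4) _ _ _ _ _ _ h3 hR rfl
    · exact (ih _ (hn ▸ h4) _ _ _ _ _ _ h3 hR.refl rfl).of_refl
  · exact s1_stuck h hR ns

end Pool.Agent.CSG.An

end

-- part MP_305420_co.AncQ
section

/-! Anchor theorem: two ambiguous pairings. -/

set_option linter.unusedSectionVars false

namespace Pool.Agent.CSG.An

open Finset

variable {V : Type*} [Fintype V] [DecidableEq V] {p : Finset V → ℤ} {G : Multiset (V × V)}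
  {a b c d u v : V} {A B C D : Finset V}

/-- at most one of six statements fails -/
def P5 (x1 x2 x3 x4 x5 x6 : Prop) : Prop :=
  (x2 ∧ x3 ∧ x4 ∧ x5 ∧ x6) ∨ (x1 ∧ x3 ∧ x4 ∧ x5 ∧ x6) ∨ (x1 ∧ x2 ∧ x4 ∧ x5 ∧ x6) ∨
    (x1 ∧ x2 ∧ x3 ∧ x5 ∧ x6) ∨ (x1 ∧ x2 ∧ x3 ∧ x4 ∧ x6) ∨ (x1 ∧ x2 ∧ x3 ∧ x4 ∧ x5)

/-- at most one pair is not the trace of a member -/
def M5 (p : Finset V → ℤ) (G : Multiset (V × V)) (a b c d : V) : Prop :=
  P5 (Mb p G a b c d) (Mb p G a c b d) (Mb p G a d b c) (Mb p G b c a d) (Mb p G b d a c)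
    (Mb p G c d a b)

theorem mb12 : Mb p G b a c d ↔ Mb p G a b c d := ⟨Mb.s12, Mb.s12⟩
theorem mb34 : Mb p G a b d c ↔ Mb p G a b c d := ⟨Mb.s34, Mb.s34⟩

theorem M5.s12 (h : M5 p G a b c d) : M5 p G b a c d := by
  unfold M5 P5 at *
  rw [mb12 (a := a), mb34 (c := a) (d := b)]
  tauto

theorem M5.s23 (h : M5 p G a b c d) : M5 p G a c b d := by
  unfold M5 P5 at *
  rw [mb12 (a := b) (b := c), mb34 (c := b) (d := c)]
  tauto

theorem M5.s34 (h : M5 p G a b c d) : M5 p G a b d c := by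
  unfold M5 P5 at *
  rw [mb12 (a := c) (b := d), mb34 (a := a) (b := b)]
  tauto

theorem M5.refl (h : M5 p G a b c d) : M5 (refl p) G a b c d := by
  unfold M5 P5 at *
  simp only [mb_refl]
  tauto

/-- four cores -/
structure Quad (p : Finset V → ℤ) (G : Multiset (V × V)) (a b c d : V) (A B C D : Finset V) : Prop
    extends Cfg p G a b c d where
  m5 : M5 p G a b c d
  ha : a ∈ A
  hb : b ∈ B
  hc : c ∈ C
  hd : d ∈ D
  cov : ∀ z, z ∈ A ∨ z ∈ B ∨ z ∈ C ∨ z ∈ D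
  ab : ∀ z, z ∈ A → z ∉ B
  ac : ∀ z, z ∈ A → z ∉ C
  ad : ∀ z, z ∈ A → z ∉ D
  bc : ∀ z, z ∈ B → z ∉ C
  bd : ∀ z, z ∈ B → z ∉ D
  cd : ∀ z, z ∈ C → z ∉ D
  fa : 1 ≤ rs p G A ∧ 1 ≤ rs p G Aᶜ
  fb : 1 ≤ rs p G B ∧ 1 ≤ rs p G Bᶜ
  fc : 1 ≤ rs p G C ∧ 1 ≤ rs p G Cᶜ
  fd : 1 ≤ rs p G D ∧ 1 ≤ rs p G Dᶜ

theorem Quad.s12 (h : Quad p G a b c d A B C D) : Quad p G b a c d B A C D :=
  ⟨h.toCfg.s12, h.m5.s12, h.hb, h.ha, h.hc, h.hd, fun z => by have := h.cov z; tauto,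
    fun z x y => h.ab z y x, h.bc, h.bd, h.ac, h.ad, h.cd, h.fb, h.fa, h.fc, h.fd⟩

theorem Quad.s23 (h : Quad p G a b c d A B C D) : Quad p G a c b d A C B D :=
  ⟨h.toCfg.s23, h.m5.s23, h.ha, h.hc, h.hb, h.hd, fun z => by have := h.cov z; tauto,
    h.ac, h.ab, h.ad, fun z x y => h.bc z y x, h.cd, h.bd, h.fa, h.fc, h.fb, h.fd⟩

theorem Quad.s34 (h : Quad p G a b c d A B C D) : Quad p G a b d c A B D C :=
  ⟨h.toCfg.s34, h.m5.s34, h.ha, h.hb, h.hd, h.hc, fun z => by have := h.cov z; tauto,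
    h.ab, h.ad, h.ac, h.bd, h.bc, fun z x y => h.cd z y x, h.fa, h.fb, h.fd, h.fc⟩

theorem Quad.s13 (h : Quad p G a b c d A B C D) : Quad p G c b a d C B A D := h.s12.s23.s12

theorem Quad.refl (h : Quad p G a b c d A B C D) : Quad (refl p) G a b c d A B C D :=
  ⟨h.toCfg.refl, h.m5.refl, h.ha, h.hb, h.hc, h.hd, h.cov, h.ab, h.ac, h.ad, h.bc, h.bd, h.cd,
    by simpa only [rs_refl, compl_compl] using h.fa.symm,
    by simpa only [rs_refl, compl_compl] using h.fb.symm,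
    by simpa only [rs_refl, compl_compl] using h.fc.symm,
    by simpa only [rs_refl, compl_compl] using h.fd.symm⟩

theorem no_common (h : Cfg p G a b c d) {X Y : Finset V} (h1 : 1 ≤ rs p G X) (h2 : 1 ≤ rs p G Y)
    {t : V} (t1 : t ∉ X) (t2 : t ∉ Y) (ha : a ∉ X ∩ Y) (hb : b ∉ X ∩ Y) (hc : c ∉ X ∩ Y)
    (hd : d ∉ X ∩ Y) : ∀ z, z ∈ X → z ∉ Y := fun z z1 z2 => by
  have := sup h X Y z t z1 z2 t1 t2
  have := h.le_none ha hb hc hd
  have := h.top (X ∪ Y)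
  omega

theorem both_mem (h : Cfg p G a b c d) {X Y : Finset V} (h1 : 1 ≤ rs p G X) (h2 : 1 ≤ rs p G Y)
    (s t : V) (s1 : s ∈ X) (s2 : s ∈ Y) (t1 : t ∉ X) (t2 : t ∉ Y) :
    1 ≤ rs p G (X ∩ Y) ∧ 1 ≤ rs p G (X ∪ Y) := by
  have := sup h X Y s t s1 s2 t1 t2
  have := h.top (X ∩ Y)
  have := h.top (X ∪ Y)
  omega

theorem least_sub (h : Cfg p G a b c d) {X Y Z : Finset V}
    (x : a ∈ X ∧ b ∈ X ∧ c ∉ X ∧ d ∉ X ∧ 1 ≤ rs p G X)
    (mX : ∀ W, (a ∈ W ∧ b ∈ W ∧ c ∉ W ∧ d ∉ W ∧ 1 ≤ rs p G W) → X ⊆ W) (y1 : a ∈ Y) (y2 : c ∈ Y)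
    (y3 : d ∉ Y) (y4 : 1 ≤ rs p G Y) (z1 : b ∈ Z) (z2 : c ∈ Z) (z3 : d ∉ Z) (z4 : 1 ≤ rs p G Z) :
    ∀ w, w ∈ X → w ∈ Y ∨ w ∈ Z := by
  obtain ⟨x1, x2, x3, x4, x5⟩ := x
  have k1 := (both_mem h y4 z4 c d y2 z2 y3 z3).2
  have k2 := (both_mem h x5 k1 a d x1 (by simp [y1]) x4 (by simp [y3, z3])).1
  intro w hw
  have := mX (X ∩ (Y ∪ Z)) ⟨by simp [x1, y1], by simp [x2, z1], by simp [x3], by simp [x4], k2⟩ hw
  exact mem_union.1 (mem_inter.1 this).2

theorem quad_of_five (h : Cfg p G a b c d) (h5 : Five p G a b c d) :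
    ∃ A B C D, Quad p G a b c d A B C D := by
  obtain ⟨m1, m2, m3, m4, m5⟩ := h5
  obtain ⟨X, x, mX⟩ := least_mb h m1
  obtain ⟨Y, y, mY⟩ := least_mb h.s23 m2
  obtain ⟨Z, z1, z2, z3, z4, z5⟩ := m3
  obtain ⟨P, q, mP⟩ := least_mb h.s34.s23 m4
  obtain ⟨R, r, mR⟩ := least_mb h.s12.s34.s23 m5
  have ⟨x1, x2, x3, x4, x5⟩ := x
  have ⟨y1, y2, y3, y4, y5⟩ := y
  have ⟨q1, q2, q3, q4, q5⟩ := q
  have ⟨r1, r2, r3, r4, r5⟩ := r
  have sX := least_sub h x mX y1 y2 y4 y5 z1 z2 z4 z5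
  have sY := least_sub h.s23 y mY x1 x2 x4 x5 z2 z1 z4 z5
  have sP := least_sub h.s34.s23 q mP x1 x2 x3 x5 r2 r1 r4 r5
  have sR := least_sub h.s12.s34.s23 r mR x2 x1 x3 x5 q2 q1 q4 q5
  have fA := (both_mem h x5 y5 a d x1 y1 x4 y4).1
  have fB := (both_mem h x5 z5 b d x2 z1 x4 z4).1
  have fC := (both_mem h y5 z5 c d y2 z2 y4 z4).1
  have fD := both_mem h q5 r5 d c q2 r2 q4 r4
  have cov : ∀ w, w ∈ X ∩ Y ∨ w ∈ X ∩ Z ∨ w ∈ Y ∩ Z ∨ w ∈ P ∩ R := by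
    intro w
    have k : w ∈ P ∪ R ∨ w ∈ Y := by
      by_contra hc
      push Not at hc
      have := (both_mem h fD.2 y5 a w (by simp [q1]) y1 hc.1 hc.2).2
      have := h.le_all (X := P ∪ R ∪ Y) (by simp [y1]) (by simp [r1]) (by simp [y2]) (by simp [q2])
      omega
    have k1 := sX w
    have k2 := sY w
    have k3 := sP w
    have k4 := sR w
    simp only [mem_inter, mem_union] at k ⊢
    clear * - k k1 k2 k3 k4
    tauto
  have aZ := no_common h fA z5 (t := d) (by simp [x4]) z4 (by simp [z3]) (by simp [y3])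
    (by simp [x3]) (by simp [x4])
  have aR := no_common h fA r5 (t := c) (by simp [x3]) r4 (by simp [r3]) (by simp [y3])
    (by simp [x3]) (by simp [x4])
  have bY := no_common h fB y5 (t := d) (by simp [x4]) y4 (by simp [z3]) (by simp [y3])
    (by simp [x3]) (by simp [x4])
  have bP := no_common h fB q5 (t := c) (by simp [x3]) q4 (by simp [z3]) (by simp [q3])
    (by simp [x3]) (by simp [x4])
  have cX := no_common h fC x5 (t := d) (by simp [y4]) x4 (by simp [z3]) (by simp [y3])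
    (by simp [x3]) (by simp [x4])
  have cP := no_common h fC q5 (t := b) (by simp [y3]) q3 (by simp [z3]) (by simp [y3])
    (by simp [q4]) (by simp [y4])
  have dX := no_common h fD.1 x5 (t := c) (by simp [q4]) x3 (by simp [r3]) (by simp [q3])
    (by simp [x3]) (by simp [x4])
  have dY := no_common h fD.1 y5 (t := b) (by simp [q3]) y3 (by simp [r3]) (by simp [q3])
    (by simp [q4]) (by simp [y4])
  have eA : (X ∩ Y)ᶜ = Z ∪ R := by
    ext w
    have k1 := cov w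
    have k2 := aZ w
    have k3 := aR w
    simp only [mem_inter, mem_union, mem_compl] at k1 k2 k3 ⊢
    clear * - k1 k2 k3
    tauto
  have eB : (X ∩ Z)ᶜ = Y ∪ P := by
    ext w
    have k1 := cov w
    have k2 := bY w
    have k3 := bP w
    simp only [mem_inter, mem_union, mem_compl] at k1 k2 k3 ⊢
    clear * - k1 k2 k3
    tauto
  have eC : (Y ∩ Z)ᶜ = X ∪ P := by
    ext w
    have k1 := cov w
    have k2 := cX w
    have k3 := cP w
    simp only [mem_inter, mem_union, mem_compl] at k1 k2 k3 ⊢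
    clear * - k1 k2 k3
    tauto
  have eD : (P ∩ R)ᶜ = X ∪ Y := by
    ext w
    have k1 := cov w
    have k2 := dX w
    have k3 := dY w
    simp only [mem_inter, mem_union, mem_compl] at k1 k2 k3 ⊢
    clear * - k1 k2 k3
    tauto
  refine ⟨X ∩ Y, X ∩ Z, Y ∩ Z, P ∩ R, h, ?_, by simp [x1, y1], by simp [x2, z1], by simp [y2, z2],
    by simp [q2, r2], cov, fun w w1 w2 => aZ w w1 (mem_inter.1 w2).2,
    fun w w1 w2 => aZ w w1 (mem_inter.1 w2).2, fun w w1 w2 => aR w w1 (mem_inter.1 w2).2,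
    fun w w1 w2 => bY w w1 (mem_inter.1 w2).1, fun w w1 w2 => bP w w1 (mem_inter.1 w2).1,
    fun w w1 w2 => cP w w1 (mem_inter.1 w2).1, ⟨fA, ?_⟩, ⟨fB, ?_⟩, ⟨fC, ?_⟩, ⟨fD.1, ?_⟩⟩
  · exact Or.inr (Or.inr (Or.inr (Or.inr (Or.inr
      ⟨m1, m2, m4, ⟨Z, z1, z2, z3, z4, z5⟩, m5⟩))))
  · rw [eA]; exact (both_mem h z5 r5 b a z1 r1 z3 r3).2
  · rw [eB]; exact (both_mem h y5 q5 a b y1 q1 y3 q3).2
  · rw [eC]; exact (both_mem h x5 q5 a c x1 q1 x3 q4).2
  · rw [eD]; exact (both_mem h x5 y5 a d x1 y1 x4 y4).2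

theorem quad_of_m5 (h : Cfg p G a b c d) (m : M5 p G a b c d) :
    ∃ A B C D, Quad p G a b c d A B C D := by
  rcases m with ⟨m2, m3, m4, m5, m6⟩ | ⟨m1, m3, m4, m5, m6⟩ | ⟨m1, m2, m4, m5, m6⟩ |
    ⟨m1, m2, m3, m5, m6⟩ | ⟨m1, m2, m3, m4, m6⟩ | ⟨m1, m2, m3, m4, m5⟩
  · obtain ⟨C, D, A, B, q⟩ := quad_of_five h.s23.s12.s34.s23
      ⟨m6, m2.s12.s34, m3.s12.s34, m4.s12.s34, m5.s12.s34⟩
    exact ⟨A, B, C, D, q.s23.s34.s12.s23⟩
  · obtain ⟨B, D, A, C, q⟩ := quad_of_five h.s12.s34.s23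
      ⟨m5, m1.s12.s34, m3.s12, m4.s34, m6.s12.s34⟩
    exact ⟨A, B, C, D, q.s23.s34.s12⟩
  · obtain ⟨B, C, A, D, q⟩ := quad_of_five h.s12.s23
      ⟨m4, m1.s12, m2.s12, m5.s34, m6.s34⟩
    exact ⟨A, B, C, D, q.s23.s12⟩
  · obtain ⟨A, D, B, C, q⟩ := quad_of_five h.s34.s23
      ⟨m3, m1.s34, m5.s12, m2.s34, m6.s12⟩
    exact ⟨A, B, C, D, q.s23.s34⟩
  · obtain ⟨A, C, B, D, q⟩ := quad_of_five h.s23 ⟨m2, m1, m4.s12, m3.s34, m6⟩
    exact ⟨A, B, C, D, q.s23⟩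
  · exact quad_of_five h ⟨m1, m2, m4, m3, m5⟩

namespace Quad

theorem na (h : Quad p G a b c d A B C D) : a ∉ B ∧ a ∉ C ∧ a ∉ D :=
  ⟨h.ab a h.ha, h.ac a h.ha, h.ad a h.ha⟩

theorem nA (h : Quad p G a b c d A B C D) : b ∉ A ∧ c ∉ A ∧ d ∉ A :=
  ⟨fun x => h.ab b x h.hb, fun x => h.ac c x h.hc, fun x => h.ad d x h.hd⟩

theorem nD (h : Quad p G a b c d A B C D) : a ∉ D ∧ b ∉ D ∧ c ∉ D :=
  ⟨h.ad a h.ha, h.bd b h.hb, h.cd c h.hc⟩

/-- a set with `d` and another terminal that does not contain the core `D` -/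
theorem inD (h : Quad p G a b c d A B C D) {X : Finset V} {z : V} (hz : z ∈ D) (zX : z ∉ X)
    (hd : d ∈ X) (ht : a ∈ X ∨ b ∈ X ∨ c ∈ X) : rs p G X ≤ 0 := by
  obtain ⟨n1, n2, n3⟩ := h.nD
  by_contra hc
  have k := h.toCfg.le_all (X := X ∪ Dᶜ) (by simp [n1]) (by simp [n2]) (by simp [n3]) (by simp [hd])
  rcases ht with t | t | t <;>
    have := (both_mem h.toCfg (X := X) (by omega) h.fd.2 _ z t (by simp [*]) zX (by simp [hz])).2 <;>
    omega

/-- a set without `d` and another terminal that meets the core `D` -/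
theorem outD (h : Quad p G a b c d A B C D) {X : Finset V} {z : V} (hz : z ∈ D) (zX : z ∈ X)
    (hd : d ∉ X) (ht : a ∉ X ∨ b ∉ X ∨ c ∉ X) : rs p G X ≤ 0 := by
  obtain ⟨n1, n2, n3⟩ := h.nD
  by_contra hc
  rcases ht with t | t | t <;>
    exact no_common h.toCfg (X := X) (by omega) h.fd.1 t (by assumption) (by simp [n1])
      (by simp [n2]) (by simp [n3]) (by simp [hd]) z zX hz

theorem subA (h : Quad p G a b c d A B C D) {X : Finset V} (h2 : b ∉ X) (h3 : c ∉ X) (h4 : d ∉ X)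
    (h5 : 1 ≤ rs p G X) : X ⊆ A := fun z hz => by
  rcases h.cov z with k | k | k | k
  · exact k
  · have := h.s23.s34.outD k hz h2 (Or.inr (Or.inl h3)); omega
  · have := h.s34.outD k hz h3 (Or.inr (Or.inl h2)); omega
  · have := h.outD k hz h4 (Or.inr (Or.inl h2)); omega

theorem closed1 (h : Quad p G a b c d A B C D) {x y : V} (e : Ed G x y) (hx : x ∈ C) (hy : y ∈ D)
    (m1 : Mb p G a c b d) (m2 : Mb p G a d b c) : False := by
  obtain ⟨X, x1, x2, x3, x4, x5⟩ := m1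
  obtain ⟨Y, y1, y2, y3, y4, y5⟩ := m2
  have := bon h.toCfg X Y a b e x1 y1 x3 y3
    (by by_contra k; have := h.s34.inD hx k x2 (Or.inl x1); omega)
    (fun k => by have := h.s34.outD hx k y4 (Or.inr (Or.inl y3)); omega)
    (by by_contra k; have := h.inD hy k y2 (Or.inl y1); omega)
    (fun k => by have := h.outD hy k x4 (Or.inr (Or.inl x3)); omega)
  have := h.toCfg.top (X ∩ Y)
  have := h.toCfg.top (X ∪ Y)
  omega

theorem closed2 (h : Quad p G a b c d A B C D) {x y : V} (e : Ed G x y) (hx : x ∈ C) (hy : y ∈ D) :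
    False := by
  have k : (Mb p G a c b d ∧ Mb p G a d b c) ∨ (Mb p G b c a d ∧ Mb p G b d a c) := by
    have := h.m5
    unfold M5 P5 at this
    tauto
  rcases k with k | k
  exacts [h.closed1 e hx hy k.1 k.2, h.s12.closed1 e hx hy k.1 k.2]

theorem closed (h : Quad p G a b c d A B C D) {x y : V} (e : Ed G x y) (hy : y ∈ D) : x ∈ D := by
  rcases h.cov x with k | k | k | k
  exacts [(h.s13.closed2 e k hy).elim, (h.s23.closed2 e k hy).elim, (h.closed2 e k hy).elim, k]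

theorem anchor (h : Quad p G a b c d {a} B C D) :
    Anchor p G a b c d ∧ ∀ e ∈ G, e.1 ≠ a ∧ e.2 ≠ a := by
  refine ⟨fun X x1 x2 x3 x4 x5 => ?_, fun e he => ⟨fun k => ?_, fun k => ?_⟩⟩
  · have k := h.subA x2 x3 x4 x5.ge
    refine ⟨fun e _ hX => hX.imp (fun j => mem_singleton.1 (k j)) (fun j => mem_singleton.1 (k j)),
      Or.inl (Subset.antisymm k (by simpa using x1))⟩
  · have := h.s12.s23.s34.closed (x := e.2) (y := e.1) (Or.inr he) (by simp [k])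
    exact h.toCfg.noloop e he (k.trans (mem_singleton.1 this).symm)
  · have := h.s12.s23.s34.closed (x := e.1) (y := e.2) (Or.inl he) (by simp [k])
    exact h.toCfg.noloop e he ((mem_singleton.1 this).trans k.symm)

theorem light (h : Quad p G a b c d {a} {b} C D) (m1 : Mb p G a b c d) (m2 : Mb p G a c b d)
    (m3 : Mb p G b c a d) : LLState p G a b c d := by
  have t := h.toCfg.top
  obtain ⟨k1, k2⟩ := h.anchor
  obtain ⟨k3, k4⟩ := h.s12.anchor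
  refine ⟨⟨tri_of h.toCfg m1 m2 m3, le_antisymm (t _) h.fa.1, le_antisymm (t _) h.fb.1,
    le_antisymm (t _) ?_, k1, k3⟩, fun e he => ⟨(k2 e he).1, (k2 e he).2, (k4 e he).1, (k4 e he).2⟩,
    Or.inr ⟨le_antisymm (t _) h.fa.2, le_antisymm (t _) h.fb.2⟩⟩
  obtain ⟨X, x1, x2, x3, x4, x5⟩ := m1
  have : X = {a, b} := by
    ext z
    simp only [mem_insert, mem_singleton]
    refine ⟨fun hz => ?_, by rintro (rfl | rfl) <;> assumption⟩
    rcases h.cov z with k | k | k | k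
    · exact Or.inl (mem_singleton.1 k)
    · exact Or.inr (mem_singleton.1 k)
    · have := h.s34.outD k hz x3 (Or.inr (Or.inr x4)); omega
    · have := h.outD k hz x4 (Or.inr (Or.inr x3)); omega
  exact this ▸ x5

theorem fin0 (h : Quad p G a b c d {a} {b} C D) (m1 : Mb p G a b c d) :
    Fin1 p (ends G + {a, b, c, d}) := by
  have k : (Mb p G a c b d ∧ Mb p G b c a d) ∨ (Mb p G a d b c ∧ Mb p G b d a c) := by
    have := h.m5
    unfold M5 P5 at this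
    tauto
  rcases k with k | k
  · exact ⟨p, G, a, b, c, d, Or.inl rfl, rfl, Or.inr (h.light m1 k.1 k.2)⟩
  · exact ⟨p, G, a, b, d, c, Or.inl rfl, by rw [quad_34], Or.inr (h.s34.light m1.s34 k.1 k.2)⟩

theorem fin (h : Quad p G a b c d {a} {b} C D) : Fin1 p (ends G + {a, b, c, d}) := by
  rcases pairing h.toCfg with m | m
  exacts [h.fin0 m, (h.refl.fin0 (mb_refl.2 m)).of_refl]

end Quad

/-- an edge inside the core `D` replaced by the edge `b d` -/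
structure QC (p : Finset V → ℤ) (G G1 : Multiset (V × V)) (a b c d u v : V) (A B C D : Finset V) :
    Prop extends Quad p G a b c d A B C D where
  ed : Ed G u v
  hu : u ∈ D
  hv : v ∈ D
  hr : ∀ X, rs p G1 X = rs p G X + cut (u, v) X - cut (b, d) X

variable {G1 : Multiset (V × V)}

namespace QC

theorem symm (h : QC p G G1 a b c d u v A B C D) : QC p G G1 a b c d v u A B C D :=
  ⟨h.toQuad, h.ed.symm, h.hv, h.hu, fun X => by rw [h.hr]; simp only [cut, iff_comm]⟩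

theorem s13 (h : QC p G G1 a b c d u v A B C D) : QC p G G1 c b a d u v C B A D :=
  ⟨h.toQuad.s13, h.ed, h.hu, h.hv, h.hr⟩

theorem refl (h : QC p G G1 a b c d u v A B C D) : QC (refl p) G G1 a b c d u v A B C D :=
  ⟨h.toQuad.refl, h.ed, h.hu, h.hv, fun X => by
    rw [rs_refl, rs_refl, h.hr, cut_compl, cut_compl]⟩

theorem cfg (h : QC p G G1 a b c d u v A B C D) : Cfg p G a b c d := h.toQuad.toCfg

theorem new (h : QC p G G1 a b c d u v A B C D)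
    (e1 : ends G1 + {a, c, u, v} = ends G + {a, b, c, d}) : Cfg p G1 a c u v := by
  refine mkCfg h.cfg e1 fun X => ?_
  rw [h.hr]
  have k0 := h.cfg.top X
  have k1 := h.cfg.le_in X
  have k2 := h.cfg.le_out X
  by_cases c1 : a ∈ X <;> by_cases c2 : b ∈ X <;> by_cases c3 : c ∈ X <;> by_cases c4 : d ∈ X <;>
    by_cases c5 : u ∈ X <;> by_cases c6 : v ∈ X <;>
    simp only [cut, ind, c1, c2, c3, c4, c5, c6, iff_true, iff_false, not_true,
      if_true, if_false, iff_self] at k1 k2 ⊢ <;>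
    first
    | omega
    | (have := h.toQuad.inD h.hu c5 c4 (Or.inr (Or.inl c2)); omega)
    | (have := h.toQuad.inD h.hv c6 c4 (Or.inr (Or.inl c2)); omega)
    | (have := h.toQuad.outD h.hu c5 c4 (Or.inr (Or.inl c2)); omega)
    | (have := h.toQuad.outD h.hv c6 c4 (Or.inr (Or.inl c2)); omega)

theorem au_iff (h : QC p G G1 a b c d u v A B C D) :
    Mb p G1 a u c v ↔ Z1 p G a b c d u v ∨ Z1 (CSG.refl p) G c b a d v u := by
  constructor
  · rintro ⟨X, c1, c5, c3, c6, hX⟩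
    rw [h.hr] at hX
    by_cases c2 : b ∈ X <;> by_cases c4 : d ∈ X <;> simp [cut, c2, c4, c5, c6] at hX
    · exact Or.inr ⟨Xᶜ, by simpa, by simpa, by simpa, by simpa, by simpa, by simpa,
        by rwa [rs_refl, compl_compl]⟩
    · have := h.toQuad.outD h.hu c5 c4 (Or.inr (Or.inr c3)); omega
    · have := h.toQuad.inD h.hv c6 c4 (Or.inl c1); omega
    · exact Or.inl ⟨X, c1, c2, c3, c4, c5, c6, hX⟩
  · rintro (⟨X, c1, c2, c3, c4, c5, c6, hX⟩ | ⟨X, c3, c2, c1, c4, c6, c5, hX⟩)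
    · exact ⟨X, c1, c5, c3, c6, by rw [h.hr]; simp [cut, c2, c4, c5, c6, hX]⟩
    · rw [rs_refl] at hX
      exact ⟨Xᶜ, by simpa, by simpa, by simpa, by simpa,
        by rw [h.hr]; simp [cut, c2, c4, c5, c6, hX]⟩

theorem m_ac (h : QC p G G1 a b c d u v A B C D) (m : Mb p G a c b d) : Mb p G1 a c u v := by
  obtain ⟨X, c1, c3, c2, c4, hX⟩ := m
  have c5 : u ∉ X := fun k => by have := h.toQuad.outD h.hu k c4 (Or.inr (Or.inl c2)); omega
  have c6 : v ∉ X := fun k => by have := h.toQuad.outD h.hv k c4 (Or.inr (Or.inl c2)); omega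
  exact ⟨X, c1, c3, c5, c6, by rw [h.hr]; simp [cut, c2, c4, c5, c6, hX]⟩

theorem m_uv (h : QC p G G1 a b c d u v A B C D) (m : Mb p G b d a c) : Mb p G1 u v a c :=
  mb_refl.1 (h.refl.m_ac (mb_refl.2 m))

theorem excl (h : QC p G G1 a b c d u v A B C D) (z : Z1 p G a b c d u v) :
    ¬ Z1 p G a b c d v u := by
  obtain ⟨X, h1, h2, h3, h4, h5, h6, h7⟩ := z
  rintro ⟨Y, y1, y2, y3, y4, y5, y6, y7⟩
  have := bon h.cfg X Y a d h.ed h1 y1 h4 y4 h5 y6 y5 h6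
  have := h.cfg.top (X ∩ Y)
  have := h.toQuad.outD (X := X ∪ Y) h.hu (by simp [h5]) (by simp [h4, y4])
    (Or.inr (Or.inl (by simp [h2, y2])))
  omega

end QC

theorem Quad.step (h : Quad p G a b c d A B C D) (hu : u ∈ D) (hv : v ∈ D) (m1 : Mb p G a c b d)
    (m2 : Mb p G c d a b) (z : Z1 p G a b c d u v) : Z1 p G c b a d u v := by
  obtain ⟨X, h1, h2, h3, h4, h5, h6, h7⟩ := z
  obtain ⟨P, p1, p2, p3, p4, p5⟩ := m1
  obtain ⟨Q, q1, q2, q3, q4, q5⟩ := m2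
  have vP : v ∉ P := fun k => by have := h.outD hv k p4 (Or.inr (Or.inl p3)); omega
  have uQ : u ∈ Q := by
    by_contra k
    have := h.inD hu k q2 (Or.inr (Or.inr q1))
    omega
  have k1 := sup h.toCfg X P a b h1 p1 h2 p3
  have k2 := h.toCfg.top (X ∩ P)
  have k3 := sup h.toCfg (X ∪ P) Q c b (by simp [p2]) q1 (by simp [h2, p3]) q4
  have k4 := h.toCfg.top (X ∪ P ∪ Q)
  exact ⟨(X ∪ P) ∩ Q, by simp [p2, q1], by simp [q4], by simp [q3], by simp [h4, p4],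
    by simp [h5, uQ], by simp [h6, vP], by omega⟩

theorem Z1.s23 (z : Z1 p G a b c d u v) : Z1 p G a c b d u v := by
  obtain ⟨X, h1, h2, h3, h4⟩ := z
  exact ⟨X, h1, h3, h2, h4⟩

theorem Quad.imp (h : Quad p G a b c d A B C D) (hu : u ∈ D) (hv : v ∈ D) (m2 : Mb p G c d a b)
    (z : Z1 p G a b c d u v) : Z1 p G c b a d u v := by
  by_cases m1 : Mb p G a c b d
  · exact h.step hu hv m1 m2 z
  have k : Mb p G a b c d ∧ Mb p G b d a c ∧ Mb p G b c a d := by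
    have := h.m5
    unfold M5 P5 at this
    tauto
  have z1 := h.s23.step hu hv k.1 k.2.1 z.s23
  exact (h.s12.step hu hv k.2.2 m2.s34 z1.s23).s23

theorem prop_core {ac uv au cu av cv : Prop} (p1 : ac ∨ uv) (p2 : au ∨ cv) (p3 : av ∨ cu)
    (h : ((au ↔ cu) ∧ (av ↔ cv)) ∨ (ac ∧ uv ∧ (((cu → au) ∧ (cv → av) ∧ (cu ∨ cv)) ∨
      ((au → cu) ∧ (av → cv) ∧ (au ∨ av))))) :
    ((ac ∨ uv) ∧ au ∧ cu ∧ ¬ av ∧ ¬ cv) ∨ ((ac ∨ uv) ∧ av ∧ cv ∧ ¬ au ∧ ¬ cu) ∨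
      P5 ac au av cu cv uv := by
  unfold P5
  by_cases ac <;> by_cases uv <;> by_cases au <;> by_cases cu <;> by_cases av <;> by_cases cv <;>
    simp_all

theorem QC.cases (h : QC p G G1 a b c d u v A B C D) (cf : Cfg p G1 a c u v) :
    ((Mb p G1 a c u v ∨ Mb p G1 u v a c) ∧ Mb p G1 a u c v ∧ Mb p G1 c u a v ∧
      ¬ Mb p G1 a v c u ∧ ¬ Mb p G1 c v a u) ∨
    ((Mb p G1 a c u v ∨ Mb p G1 u v a c) ∧ Mb p G1 a v c u ∧ Mb p G1 c v a u ∧
      ¬ Mb p G1 a u c v ∧ ¬ Mb p G1 c u a v) ∨ M5 p G1 a c u v := by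
  refine prop_core (pairing cf) (pairing cf.s23) (pairing cf.s34.s23) ?_
  have e1 := h.au_iff
  have e2 := h.s13.au_iff
  have e3 := h.symm.au_iff
  have e4 := h.s13.symm.au_iff
  have i1 := fun m => And.intro (h.toQuad.imp h.hu h.hv m) (h.toQuad.imp h.hv h.hu m)
  have i2 := fun m : Mb p G a d b c =>
    And.intro (h.toQuad.s13.imp h.hu h.hv m.s34) (h.toQuad.s13.imp h.hv h.hu m.s34)
  have i3 := fun m : Mb p G a b c d => And.intro (h.toQuad.refl.imp h.hu h.hv (mb_refl.2 m))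
    (h.toQuad.refl.imp h.hv h.hu (mb_refl.2 m))
  have i4 := fun m : Mb p G b c a d =>
    And.intro (h.toQuad.s13.refl.imp h.hu h.hv (mb_refl.2 m.s12))
      (h.toQuad.s13.refl.imp h.hv h.hu (mb_refl.2 m.s12))
  have x1 := h.excl
  have x2 := h.s13.excl
  have x3 := h.refl.excl
  have x4 := h.s13.refl.excl
  have q2 := pairing cf.s23
  have q3 := pairing cf.s34.s23
  rw [e1, e4] at q2
  rw [e3, e2] at q3
  rw [e1, e2, e3, e4]
  have w := fun m1 m2 => And.intro (h.m_ac m1) (h.m_uv m2)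
  rcases h.m5 with ⟨m2, m3, m4, m5, m6⟩ | ⟨m1, m3, m4, m5, m6⟩ | ⟨m1, m2, m4, m5, m6⟩ |
    ⟨m1, m2, m3, m5, m6⟩ | ⟨m1, m2, m3, m4, m6⟩ | ⟨m1, m2, m3, m4, m5⟩
  · obtain ⟨j1, j2⟩ := i1 m6
    obtain ⟨j3, j4⟩ := i2 m3
    obtain ⟨j7, j8⟩ := i4 m4
    refine Or.inr ⟨(w m2 m5).1, (w m2 m5).2, Or.inr ⟨Or.imp j1 j8, Or.imp j2 j7, ?_⟩⟩
    clear * - j3 j4 q2 q3 x3
    tauto
  · obtain ⟨j1, j2⟩ := i1 m6
    obtain ⟨j3, j4⟩ := i2 m3
    obtain ⟨j5, j6⟩ := i3 m1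
    obtain ⟨j7, j8⟩ := i4 m4
    exact Or.inl ⟨⟨Or.imp j1 j8, Or.imp j3 j6⟩, ⟨Or.imp j2 j7, Or.imp j4 j5⟩⟩
  · obtain ⟨j1, j2⟩ := i1 m6
    obtain ⟨j5, j6⟩ := i3 m1
    obtain ⟨j7, j8⟩ := i4 m4
    refine Or.inr ⟨(w m2 m5).1, (w m2 m5).2, Or.inr ⟨Or.imp j1 j8, Or.imp j2 j7, ?_⟩⟩
    clear * - j5 j6 q2 q3 x2
    tauto
  · obtain ⟨j1, j2⟩ := i1 m6
    obtain ⟨j3, j4⟩ := i2 m3
    obtain ⟨j5, j6⟩ := i3 m1
    refine Or.inr ⟨(w m2 m5).1, (w m2 m5).2, Or.inl ⟨Or.imp j3 j6, Or.imp j4 j5, ?_⟩⟩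
    clear * - j1 j2 q2 q3 x4
    tauto
  · obtain ⟨j1, j2⟩ := i1 m6
    obtain ⟨j3, j4⟩ := i2 m3
    obtain ⟨j5, j6⟩ := i3 m1
    obtain ⟨j7, j8⟩ := i4 m4
    exact Or.inl ⟨⟨Or.imp j1 j8, Or.imp j3 j6⟩, ⟨Or.imp j2 j7, Or.imp j4 j5⟩⟩
  · obtain ⟨j3, j4⟩ := i2 m3
    obtain ⟨j5, j6⟩ := i3 m1
    obtain ⟨j7, j8⟩ := i4 m4
    refine Or.inr ⟨(w m2 m5).1, (w m2 m5).2, Or.inl ⟨Or.imp j3 j6, Or.imp j4 j5, ?_⟩⟩
    clear * - j7 j8 q2 q3 x1
    tauto

theorem QC.sub_a (h : QC p G G1 a b c d u v A B C D) {X : Finset V} (c1 : a ∈ X) (c3 : c ∉ X)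
    (c5 : u ∉ X) (c6 : v ∉ X) (hX : 1 ≤ rs p G1 X) : X ⊆ A := by
  rw [h.hr] at hX
  have := h.cfg.top X
  by_cases c2 : b ∈ X <;> by_cases c4 : d ∈ X <;> simp [cut, c2, c4, c5, c6] at hX
  · have := h.toQuad.inD h.hu c5 c4 (Or.inl c1); omega
  · omega
  · omega
  · exact h.toQuad.subA c2 c3 c4 hX

theorem Quad.miss (h : Quad p G a b c d A B C D) {X : Finset V} (hv : v ∈ D) (c1 : a ∉ X)
    (c2 : b ∉ X) (c3 : c ∉ X) (c4 : d ∉ X) (c6 : v ∈ X) (hX : 0 ≤ rs p G X) :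
    ∀ z ∈ X, z ∉ A := fun z z1 z2 => by
  obtain ⟨n1, n2, n3⟩ := h.nA
  have k1 := sup h.toCfg X A z c z1 z2 c3 n2
  have k2 := h.toCfg.le_none (X := X ∩ A) (by simp [c1]) (by simp [c2]) (by simp [c3])
    (by simp [c4])
  have k3 := h.outD (X := X ∪ A) hv (by simp [c6]) (by simp [c4, n3])
    (Or.inr (Or.inl (by simp [c2, n1])))
  have := h.fa.1
  omega

theorem QC.sub_v (h : QC p G G1 a b c d u v A B C D) {X : Finset V} (c1 : a ∉ X) (c3 : c ∉ X)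
    (c4 : d ∉ X) (c5 : u ∉ X) (c6 : v ∈ X) (hX : 1 ≤ rs p G1 X) : X.card < D.card := by
  rw [h.hr] at hX
  by_cases c2 : b ∈ X <;> simp [cut, c2, c4, c5, c6] at hX
  · have := h.toQuad.outD h.hv c6 c4 (Or.inl c1); omega
  refine card_lt_card ⟨fun z hz => ?_, fun k => c4 (k h.hd)⟩
  rcases h.cov z with k | k | k | k
  · exact absurd k (h.toQuad.miss h.hv c1 c2 c3 c4 c6 hX z hz)
  · exact absurd k (h.toQuad.s12.miss h.hv c2 c1 c3 c4 c6 hX z hz)
  · exact absurd k (h.toQuad.s13.miss h.hv c3 c2 c1 c4 c6 hX z hz)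
  · exact k

theorem s1_either (cf : Cfg p G1 a c u v) (hR : R1 p (ends G1 + {a, c, u, v}))
    (m : Mb p G1 a c u v ∨ Mb p G1 u v a c) (m1 : Mb p G1 a u c v) (m2 : Mb p G1 c u a v)
    (n1 : ¬ Mb p G1 a v c u) (n2 : ¬ Mb p G1 c v a u) : Fin1 p (ends G1 + {a, c, u, v}) := by
  rcases m with m | m
  · exact s1_fin _ _ _ _ _ _ ⟨cf, m, m1, m2, n1, n2⟩ hR
  · rw [← quad_34] at hR ⊢
    exact (s1_fin _ _ _ _ _ _ ⟨cf.refl.s34, mb_refl.2 m.s12, mb_refl.2 m2, mb_refl.2 m1,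
      fun k => n2 (mb_refl.1 k), fun k => n1 (mb_refl.1 k)⟩ hR.refl).of_refl

theorem quad_fin (M : Multiset V) (hR : R1 p M) (n : ℕ) : ∀ (G : Multiset (V × V)) (a b c d : V)
    (A B C D : Finset V), Quad p G a b c d A B C D → ends G + {a, b, c, d} = M →
    (A.card + C.card) * (Fintype.card V + 1) + D.card = n → Fin1 p M := by
  induction n using Nat.strong_induction_on with
  | _ n ih =>
  intro G a b c d A B C D h hM hn
  have big : ∀ (G : Multiset (V × V)) (a b c d : V) (A B C D : Finset V),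
      Quad p G a b c d A B C D → ends G + {a, b, c, d} = M →
      (A.card + C.card) * (Fintype.card V + 1) + D.card = n → D.card < C.card → Fin1 p M := by
    intro G a b c d A B C D h hM hn hlt
    refine ih _ ?_ G a b d c A B D C h.s34 (by rw [quad_34]; exact hM) rfl
    have := card_le_univ C
    nlinarith
  have e13 : ({c, b, a, d} : Multiset V) = {a, b, c, d} := by rw [quad_12, quad_23, quad_12]
  by_cases hD : 2 ≤ D.card
  · obtain ⟨n1, n2, n3⟩ := h.nD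
    obtain ⟨u, v, e, hu, hv⟩ := inner_edge (hM ▸ hR) (X := D) (by simp [ind, n1, n2, n3, h.hd])
      h.fd.1 hD
    obtain ⟨G1, hr, he, -⟩ := e.move p b d
    have e1 : ends G1 + {a, c, u, v} = ends G + {a, b, c, d} := by
      have := ends_four he a c
      rw [four_eq, four_eq]
      convert this using 2 <;> abel
    have q : QC p G G1 a b c d u v A B C D := ⟨h, e, hu, hv, hr⟩
    have cf := q.new e1
    have e2 : ends G1 + {a, c, u, v} = M := e1.trans hM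
    have e3 : ends G1 + {a, c, v, u} = M := by rw [quad_34]; exact e2
    rcases q.cases cf with ⟨k0, k1, k2, k3, k4⟩ | ⟨k0, k1, k2, k3, k4⟩ | k
    · exact e2 ▸ s1_either cf (e2 ▸ hR) k0 k1 k2 k3 k4
    · exact e3 ▸ s1_either cf.s34 (e3 ▸ hR) (k0.imp Mb.s34 Mb.s12) k1 k2 k3 k4
    · obtain ⟨A', C', U, W, r⟩ := quad_of_m5 cf k
      have s1 := card_le_card (q.sub_a r.ha r.nA.1 r.nA.2.1 r.nA.2.2 r.fa.1)
      have s2 := card_le_card (q.s13.sub_a r.hb r.s12.nA.1 r.s12.nA.2.1 r.s12.nA.2.2 r.fb.1)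
      have s3 := Nat.mul_le_mul_right (Fintype.card V + 1) (Nat.add_le_add s1 s2)
      by_cases dW : d ∈ W
      · have := q.symm.sub_v r.s34.nD.1 r.s34.nD.2.1 (fun k => r.cd d k dW) r.s34.nD.2.2 r.hc r.fc.1
        exact ih _ (by omega) G1 a v c u A' W C' U r.s34.s23 (by rw [quad_23]; exact e3) rfl
      · have := q.sub_v r.nD.1 r.nD.2.1 dW r.nD.2.2 r.hd r.fd.1
        exact ih _ (by omega) G1 a u c v A' U C' W r.s23 (by rw [quad_23]; exact e2) rfl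
  by_cases hC : 2 ≤ C.card
  · exact big G a b c d A B C D h hM hn (by omega)
  by_cases hA : 2 ≤ A.card
  · exact big G c b a d C B A D h.s13 (by rw [e13]; exact hM) (by rw [add_comm C.card]; exact hn)
      (by omega)
  obtain rfl := eq_single h.ha hA
  obtain rfl := eq_single h.hc hC
  rw [← hM, ← quad_23]
  exact h.s23.fin

/-- the anchor theorem when two pairings are ambiguous -/
theorem five_fin (h : Cfg p G a b c d) (h5 : Five p G a b c d)
    (hR : R1 p (ends G + {a, b, c, d})) : Fin1 p (ends G + {a, b, c, d}) := by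
  obtain ⟨A, B, C, D, q⟩ := quad_of_five h h5
  exact quad_fin _ hR _ G a b c d A B C D q rfl rfl

end Pool.Agent.CSG.An

end

-- part MP_305420_co.Contr
section

/-! Contraction of tight sets, and the glue of the four-terminal statement. -/

set_option linter.unusedSectionVars false

namespace Pool.Agent.CSG

open Finset

universe u

/-- the four-terminal statement when no set with two or more points is tight -/
def K2R (V : Type*) [Fintype V] [DecidableEq V] : Prop :=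
  ∀ (p : Finset V → ℤ) (G : Multiset (V × V)) (a b c d : V), Cfg p G a b c d →
    (∀ Z : Finset V, 2 ≤ Z.card → symmMax p Z < ms (ends G + {a, b, c, d}) Z) →
    Obst p (Multiset.card G + 3)

namespace Ctr

variable {V : Type*} [Fintype V] [DecidableEq V] {U : Type*} [Fintype U] [DecidableEq U]

/-- preimage of a set -/
def pre (π : V → U) (X : Finset U) : Finset V := univ.filter (fun v => π v ∈ X)

@[simp] theorem mem_pre {π : V → U} {X : Finset U} {v : V} : v ∈ pre π X ↔ π v ∈ X := by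
  simp [pre]

theorem pre_compl (π : V → U) (X : Finset U) : pre π Xᶜ = (pre π X)ᶜ := by
  ext v; simp

theorem pre_inter (π : V → U) (X Y : Finset U) : pre π (X ∩ Y) = pre π X ∩ pre π Y := by
  ext v; simp

theorem pre_union (π : V → U) (X Y : Finset U) : pre π (X ∪ Y) = pre π X ∪ pre π Y := by
  ext v; simp

theorem pre_inj {π : V → U} (hπ : Function.Surjective π) : Function.Injective (pre π) := by
  intro X Y h
  ext w
  obtain ⟨v, rfl⟩ := hπ w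
  rw [← mem_pre, h, mem_pre]

theorem dG_map (π : V → U) (G : Multiset (V × V)) (X : Finset U) :
    dG (G.map (Prod.map π π)) X = dG G (pre π X) := by
  induction G using Multiset.induction_on with
  | empty => simp
  | cons e G ih => rw [Multiset.map_cons, dG_cons, dG_cons, ih]; simp [cut]

theorem ms_map (π : V → U) (M : Multiset V) (X : Finset U) :
    ms (M.map π) X = ms M (pre π X) := by
  induction M using Multiset.induction_on with
  | empty => simp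
  | cons e G ih => rw [Multiset.map_cons, ms_cons, ms_cons, ih]; simp [ind]

theorem ends_map (π : V → U) (G : Multiset (V × V)) :
    ends (G.map (Prod.map π π)) = (ends G).map π := by
  simp [ends, Multiset.map_map]

theorem exists_cons_of_map {π : V → U} {M : Multiset V} {w : U} {N : Multiset U}
    (h : w ::ₘ N = M.map π) : ∃ v M', M = v ::ₘ M' ∧ π v = w ∧ N = M'.map π := by
  obtain ⟨v, hv, rfl⟩ := Multiset.mem_map.1 (h ▸ Multiset.mem_cons_self w N)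
  obtain ⟨M', rfl⟩ := Multiset.exists_cons_of_mem hv
  rw [Multiset.map_cons, Multiset.cons_inj_right] at h
  exact ⟨v, M', rfl, rfl, h⟩

theorem lift (π : V → U) (H : Multiset (U × U)) (M : Multiset V) (h : ends H = M.map π) :
    ∃ G : Multiset (V × V), ends G = M ∧ G.map (Prod.map π π) = H := by
  induction H using Multiset.induction_on generalizing M with
  | empty => exact ⟨0, by simpa [eq_comm] using h.symm, by simp⟩
  | cons e H ih =>
    rw [ends_cons] at h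
    obtain ⟨v, M1, rfl, h1, h2⟩ := exists_cons_of_map h
    obtain ⟨w, M2, rfl, h3, h4⟩ := exists_cons_of_map h2
    obtain ⟨G, g1, g2⟩ := ih M2 h4
    refine ⟨(v, w) ::ₘ G, by rw [ends_cons, g1], ?_⟩
    rw [Multiset.map_cons, g2, Prod.map_apply, h1, h3]

theorem cs_pull {π : V → U} (hπ : Function.Surjective π) {p : Finset V → ℤ} (hp : CS p) :
    CS (fun X => p (pre π X)) where
  sup := by
    rintro X Y ⟨⟨a, ha⟩, ⟨b, hb⟩, ⟨c, hc⟩, ⟨d, hd⟩⟩
    obtain ⟨a, rfl⟩ := hπ a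
    obtain ⟨b, rfl⟩ := hπ b
    obtain ⟨c, rfl⟩ := hπ c
    obtain ⟨d, rfl⟩ := hπ d
    simp only [mem_inter, mem_sdiff, mem_compl, mem_union, not_or] at ha hb hc hd
    simp only [pre_inter, pre_union]
    exact hp.super (mem_pre.2 ha.1) (mem_pre.2 ha.2) (mt mem_pre.1 hd.1) (mt mem_pre.1 hd.2)
  empty := by rw [show pre π ∅ = ∅ by ext v; simp, hp.empty]
  univ := by rw [show pre π univ = univ by ext v; simp, hp.univ]

theorem obst_pull {π : V → U} (hπ : Function.Surjective π) {p : Finset V → ℤ} {n : ℤ}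
    (h : Obst (fun X => p (pre π X)) n) : Obst p n := by
  obtain ⟨P, w, h1, h2, h3, h4⟩ := h
  have hi := pre_inj hπ
  have hw : ∀ X, w (Function.invFun (pre π) (pre π X)) = w X := fun X => by
    rw [Function.leftInverse_invFun hi X]
  refine ⟨P.image (pre π), fun X => w (Function.invFun (pre π) X), ?_, ?_, ?_, ?_⟩
  · intro X hX Y hY hne
    obtain ⟨X, hX', rfl⟩ := mem_image.1 hX
    obtain ⟨Y, hY', rfl⟩ := mem_image.1 hY
    have := h1 X hX' Y hY' (fun hh => hne (by rw [hh]))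
    rw [disjoint_left] at this ⊢
    exact fun v a b => this (mem_pre.1 a) (mem_pre.1 b)
  · intro X hX
    obtain ⟨X, hX', rfl⟩ := mem_image.1 hX
    exact (h2 X hX').trans (hw X).ge
  · intro I hI hne
    obtain ⟨J, hJ, rfl⟩ := subset_image_iff.1 hI
    have := h3 J hJ (image_nonempty.1 hne)
    have e : (J.image (pre π)).sup id = pre π (J.sup id) := by
      ext v
      simp only [mem_pre, mem_supId, mem_image]
      constructor
      · rintro ⟨_, ⟨X, hX, rfl⟩, hv⟩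
        exact ⟨X, hX, mem_pre.1 hv⟩
      · rintro ⟨X, hX, hv⟩
        exact ⟨_, ⟨X, hX, rfl⟩, mem_pre.2 hv⟩
    rw [sum_image (fun X _ Y _ hh => hi hh), e, sum_congr rfl (fun X _ => hw X)]
    simpa only [symmMax, pre_compl] using this
  · rw [sum_image (fun X _ Y _ hh => hi hh)]
    simpa only [hw] using h4

/-- contraction of a tight set -/
theorem contract {π : V → U} (hπ : Function.Surjective π) {Z : Finset V}
    (hZ : ∀ v w, π v = π w → v = w ∨ (v ∈ Z ∧ w ∈ Z)) (hK : K2 U) {p : Finset V → ℤ}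
    {G : Multiset (V × V)} {a b c d : V} (h : Cfg p G a b c d)
    (ht : ms (ends G + {a, b, c, d}) Z ≤ symmMax p Z) : Obst p (Multiset.card G + 3) := by
  have eT : ({π a, π b, π c, π d} : Multiset U) = ({a, b, c, d} : Multiset V).map π := by
    simp
  have := hK (fun X => p (pre π X)) (G.map (Prod.map π π)) (π a) (π b) (π c) (π d)
    (cs_pull hπ h.cs) (fun X => by
      simp only [dG_map, eT, ms_map, pre_compl]
      exact h.valid _) (by
      rintro ⟨H, h1, h2⟩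
      rw [ends_map, eT, ← Multiset.map_add] at h1
      obtain ⟨H', g1, rfl⟩ := lift π H _ h1
      obtain ⟨X, x1, x2⟩ := exists_blocker h.cs h.valid.ends h.uns g1 {Z} (by simp)
        (fun Y hY => by rw [mem_singleton.1 hY]; exact ht)
      have e : pre π (X.image π) = X := by
        ext v
        simp only [mem_pre, mem_image]
        refine ⟨?_, fun hv => ⟨v, hv, rfl⟩⟩
        rintro ⟨w, hw, hwv⟩
        rcases hZ w v hwv with rfl | ⟨a1, a2⟩
        exacts [hw, x1.sub (mem_singleton_self Z) a1 hw a2]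
      have := h2 (X.image π)
      simp only [dG_map, e] at this
      omega)
  rw [Multiset.card_map] at this
  exact obst_pull hπ this

end Ctr

/-- **Contraction.** It suffices to treat configurations without tight sets of two or more
points. -/
theorem k2_of_k2r (h : ∀ (V : Type u) [Fintype V] [DecidableEq V], K2R V)
    (V : Type u) [Fintype V] [DecidableEq V] : K2 V := by
  induction' hn : Fintype.card V using Nat.strong_induction_on with n ih generalizing V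
  intro p G a b c d h1 h2 h3
  by_cases hR : ∀ Z : Finset V, 2 ≤ Z.card → symmMax p Z < ms (ends G + {a, b, c, d}) Z
  · exact h V p G a b c d ⟨h1, h2, h3⟩ hR
  push Not at hR
  obtain ⟨Z, z1, z2⟩ := hR
  obtain ⟨z, hz, z', hz', hne⟩ := one_lt_card.1 (show 1 < Z.card by omega)
  refine Ctr.contract (U := {v // v ∉ Z.erase z}) (Z := Z)
    (π := fun v => if hv : v ∈ Z.erase z then ⟨z, notMem_erase z Z⟩ else ⟨v, hv⟩) ?_ ?_
    (ih _ ?_ _ rfl) ⟨h1, h2, h3⟩ z2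
  · rintro ⟨v, hv⟩
    exact ⟨v, dif_neg hv⟩
  · intro v w hvw
    by_cases a1 : v ∈ Z.erase z <;> by_cases a2 : w ∈ Z.erase z <;>
      simp only [a1, a2, dif_pos, dif_neg, not_false_eq_true, Subtype.mk.injEq] at hvw
    · exact Or.inr ⟨mem_of_mem_erase a1, mem_of_mem_erase a2⟩
    · exact Or.inr ⟨mem_of_mem_erase a1, hvw ▸ hz⟩
    · exact Or.inr ⟨hvw ▸ hz, mem_of_mem_erase a2⟩
    · exact Or.inl hvw
  · rw [← hn]
    exact Fintype.card_subtype_lt (x := z') (not_not.2 (mem_erase.2 ⟨hne.symm, hz'⟩))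

/-- the anchor theorem -/
def AnchorThm (V : Type*) [Fintype V] [DecidableEq V] : Prop :=
  ∀ (p : Finset V → ℤ) (G : Multiset (V × V)) (a b c d : V), Cfg p G a b c d →
    (∀ Z : Finset V, 2 ≤ Z.card → symmMax p Z < ms (ends G + {a, b, c, d}) Z) →
    ∃ (p1 : Finset V → ℤ) (G1 : Multiset (V × V)) (a1 b1 c1 d1 : V), (p1 = p ∨ p1 = refl p) ∧
      ends G1 + {a1, b1, c1, d1} = ends G + {a, b, c, d} ∧
      (HState p1 G1 a1 b1 c1 d1 ∨ LLState p1 G1 a1 b1 c1 d1)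

theorem k2r_of_parts {V : Type*} [Fintype V] [DecidableEq V] (hA : AnchorThm V) (hL : HLocal V)
    (hG : HGlobal V) (hLL : LLThm V) : K2R V := by
  intro p G a b c d h hR
  obtain ⟨p1, G1, a1, b1, c1, d1, e1, e2, e3⟩ := hA p G a b c d h hR
  have hc : Multiset.card G1 = Multiset.card G := by
    have := congrArg Multiset.card e2
    simp only [Multiset.card_add, card_ends, Multiset.insert_eq_cons, Multiset.card_cons,
      Multiset.card_singleton] at this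
    omega
  have ho : Obst p1 (Multiset.card G1 + 3) := by
    rcases e3 with e3 | e3
    · obtain ⟨S, s1, s2⟩ := hL _ _ _ _ _ _ e3
      exact hG _ _ _ _ _ _ e3 S s1 s2
    · exact hLL _ _ _ _ _ _ e3
  rw [hc] at ho
  rcases e1 with rfl | rfl
  exacts [ho, obst_refl.1 ho]

/-- **Glue.** -/
theorem k2_of_parts (hA : ∀ (V : Type u) [Fintype V] [DecidableEq V], AnchorThm V)
    (hL : ∀ (V : Type u) [Fintype V] [DecidableEq V], HLocal V)
    (hG : ∀ (V : Type u) [Fintype V] [DecidableEq V], HGlobal V)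
    (hLL : ∀ (V : Type u) [Fintype V] [DecidableEq V], LLThm V)
    (V : Type u) [Fintype V] [DecidableEq V] : K2 V :=
  k2_of_k2r (fun V _ _ => k2r_of_parts (hA V) (hL V) (hG V) (hLL V)) V

end Pool.Agent.CSG

end

-- part MP_305420_co.AncMain
section

/-! The anchor theorem. -/

set_option linter.unusedSectionVars false

namespace Pool.Agent.CSG

open Finset An

variable {V : Type*} [Fintype V] [DecidableEq V]

theorem An.tri_fin {p : Finset V → ℤ} {G : Multiset (V × V)} {a b c d : V} (h : Tri p G a b c d)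
    (hR : R1 p (ends G + {a, b, c, d})) : Fin1 p (ends G + {a, b, c, d}) := by
  have m1 : Mb p G a b c d := by
    obtain ⟨X, x1, x2, x3, x4, x5⟩ := h.mab; exact ⟨X, x1, x2, x3, x4, x5.ge⟩
  have m2 : Mb p G a c b d := by
    obtain ⟨X, x1, x2, x3, x4, x5⟩ := h.mac; exact ⟨X, x1, x3, x2, x4, x5.ge⟩
  have m3 : Mb p G b c a d := by
    obtain ⟨X, x1, x2, x3, x4, x5⟩ := h.mbc; exact ⟨X, x2, x3, x1, x4, x5.ge⟩
  have cf := h.toCfg
  have e1 : ({a, c, b, d} : Multiset V) = {a, b, c, d} := quad_23 _ _ _ _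
  have e2 : ({b, c, a, d} : Multiset V) = {a, b, c, d} := by rw [quad_23, quad_12]
  by_cases h1 : Mb p G a d b c <;> by_cases h2 : Mb p G b d a c
  · exact five_fin cf ⟨m1, m2, m3, h1, h2⟩ hR
  · by_cases h3 : Mb p G c d a b
    · rw [← e1] at hR ⊢
      exact five_fin (cf.of_eq e1) ⟨m2, m1, m3.s12, h1.s34, h3⟩ hR
    · rw [← e2] at hR ⊢
      exact s1_fin _ _ _ _ _ _ ⟨cf.of_eq e2, m3, m1.s12, m2.s12, fun m => h2 m.s34,
        fun m => h3 m.s34⟩ hR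
  · by_cases h3 : Mb p G c d a b
    · rw [← e2] at hR ⊢
      exact five_fin (cf.of_eq e2) ⟨m3, m1.s12, m2.s12, h2.s34, h3.s34⟩ hR
    · rw [← e1] at hR ⊢
      exact s1_fin _ _ _ _ _ _ ⟨cf.of_eq e1, m2, m1, m3.s12, fun m => h1 m.s34, h3⟩ hR
  · exact s1_fin _ _ _ _ _ _ ⟨cf, m1, m2, m3, h1, h2⟩ hR

theorem anchorThm : AnchorThm V := by
  intro p G a b c d h hR
  obtain ⟨p', a', b', c', d', h1, h2, h3⟩ := h.exists_tri
  have hR' : R1 p (ends G + {a', b', c', d'}) := by rw [h2]; exact hR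
  rw [← h2]
  rcases h1 with rfl | rfl
  · exact tri_fin h3 hR'
  · exact (tri_fin h3 hR'.refl).of_refl

end Pool.Agent.CSG

end
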