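import Pool.Agent.MP_305420_co.Mg.SC

-- part MP_305420_co.Star
section

/-! The star lemma: a bad union consisting of one part and at most two tight parts, with a tight
root, yields a solution. -/

set_option linter.unusedSectionVars false

namespace Pool.Agent.CSG

open Finset

variable {V : Type*} [Fintype V] [DecidableEq V]

/-- local function at an anchor of mass two -/
def zb (p : Finset V → ℤ) (b : V) (X : Finset V) : ℤ := p (insert b X) - 2

theorem zb_supOn {p : Finset V → ℤ} (hp : CS p) {b y : V} {W : Finset V} (hy : y ∉ W)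
    (hyb : y ≠ b) : SupOn W (zb p b) := by
  intro X hX Y hY
  have h := hp.super (X := insert b X) (Y := insert b Y) (a := b) (d := y) (mem_insert_self _ _)
    (mem_insert_self _ _) (by simp [hyb]; exact fun h => hy (hX h))
    (by simp [hyb]; exact fun h => hy (hY h))
  rw [← insert_inter_distrib, ← insert_union_distrib] at h
  unfold zb; omega

theorem sup_mono' {I J : Finset (Finset V)} (h : I ⊆ J) : I.sup id ⊆ J.sup id := by
  intro v hv
  obtain ⟨P, hP, hv⟩ := mem_sup_id.1 hv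
  exact mem_sup_id.2 ⟨P, h hP, hv⟩

theorem part_subset_sup {I : Finset (Finset V)} {P : Finset V} (h : P ∈ I) : P ⊆ I.sup id :=
  fun _ hv => mem_sup_id.2 ⟨P, h, hv⟩

/-- local function at an anchor of mass `μ` -/
def zm (p : Finset V → ℤ) (b : V) (μ : ℤ) (X : Finset V) : ℤ := p (insert b X) - μ

theorem zm_supOn (μ : ℤ) {p : Finset V → ℤ} (hp : CS p) {b y : V} {W : Finset V} (hy : y ∉ W)
    (hyb : y ≠ b) : SupOn W (zm p b μ) := by
  intro X hX Y hY
  have h := hp.super (X := insert b X) (Y := insert b Y) (a := b) (d := y) (mem_insert_self _ _)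
    (mem_insert_self _ _) (by simp [hyb]; exact fun h => hy (hX h))
    (by simp [hyb]; exact fun h => hy (hY h))
  rw [← insert_inter_distrib, ← insert_union_distrib] at h
  unfold zm; omega

/-- hypotheses of the star lemma -/
structure StarG (μ : ℤ) (p : Finset V → ℤ) (M : Multiset V) (b y : V) (W : Finset V)
    (T K : Finset (Finset V)) (x : Finset V) : Prop where
  cs : CS p
  hv : Valid p 0 M
  uns : ¬ Solvable p M
  mu : 1 ≤ μ
  mb : ms M {b} = μ
  pb : p {b} = μ
  bW : b ∉ W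
  yW : y ∉ W
  yb : y ≠ b
  sp : SubP W (insert x T)
  xT : x ∉ T
  KT : K ⊆ T
  K2 : K.card ≤ 2
  tight : ∀ k ∈ T, ms M k = 1 + zm p b μ k
  good : ∀ k ∈ T, ms M k ≤ symmMax p k
  wn : ∀ k ∈ T, 0 ≤ zm p b μ k
  mx : ms M x = zm p b μ x + K.card
  dle : ∀ J ⊆ T, zm p b μ (J.sup id ∪ x) ≤ zm p b μ x + ∑ k ∈ J, zm p b μ k + (J \ K).card
  rt : ms M (insert b (T.sup id ∪ x))ᶜ ≤ p (insert b (T.sup id ∪ x))
  rm : ms M (insert b (T.sup id ∪ x))ᶜ = μ + zm p b μ x + ∑ k ∈ T, zm p b μ k + (T \ K).card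
  bad : symmMax p (K.sup id ∪ x) ≤ zm p b μ x + ∑ k ∈ K, zm p b μ k
  zle : ∀ L ⊆ x, L.Nonempty → zm p b μ L ≤ ms M L - 1
  fin : Finest (zm p b μ) {x}

namespace StarG

variable {μ : ℤ} {p : Finset V → ℤ} {M : Multiset V} {b y : V} {W : Finset V}
  {T K : Finset (Finset V)} {x : Finset V}

theorem spT (h : StarG μ p M b y W T K x) : SubP W T := h.sp.subset (subset_insert _ _)
theorem xW (h : StarG μ p M b y W T K x) : x ⊆ W := h.sp.sub x (mem_insert_self _ _)
theorem UW (h : StarG μ p M b y W T K x) {J : Finset (Finset V)} (hJ : J ⊆ T) : J.sup id ⊆ W :=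
  (h.spT.subset hJ).sup_subset
theorem sup (h : StarG μ p M b y W T K x) : SupOn W (zm p b μ) := zm_supOn μ h.cs h.yW h.yb
theorem z0 (h : StarG μ p M b y W T K x) : zm p b μ ∅ = 0 := by
  unfold zm; rw [insert_empty_eq, h.pb]; simp
theorem v1 (h : StarG μ p M b y W T K x) (Y : Finset V) : p Y ≤ ms M Y := by
  simpa using (h.hv Y).1
theorem v2 (h : StarG μ p M b y W T K x) (Y : Finset V) : p Yᶜ ≤ ms M Y := by
  simpa using (h.hv Y).2

theorem xU (h : StarG μ p M b y W T K x) {J : Finset (Finset V)} (hJ : J ⊆ T) {v : V}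
    (hv : v ∈ x) : v ∉ J.sup id := by
  intro hh
  obtain ⟨P, hP, hvP⟩ := mem_sup_id.1 hh
  have := h.sp.eq_of_mem (mem_insert_self _ _) (mem_insert_of_mem (hJ hP)) hv hvP
  exact h.xT (this ▸ hJ hP)

theorem msU (h : StarG μ p M b y W T K x) {J : Finset (Finset V)} (hJ : J ⊆ T) :
    ms M (J.sup id) = J.card + ∑ k ∈ J, zm p b μ k := by
  rw [ms_sup M (h.spT.subset hJ), sum_congr rfl (fun k hk => h.tight k (hJ hk)), sum_add_distrib]
  simp

theorem msUL (h : StarG μ p M b y W T K x) {J : Finset (Finset V)} (hJ : J ⊆ T) {L : Finset V}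
    (hL : L ⊆ x) : ms M (J.sup id ∪ L) = J.card + ∑ k ∈ J, zm p b μ k + ms M L := by
  rw [ms_union_disj M (disjoint_right.2 (fun v hv => h.xU hJ (hL hv))), h.msU hJ]

theorem low (h : StarG μ p M b y W T K x) {J : Finset (Finset V)} (hJ : J ⊆ T) :
    ∑ k ∈ J, zm p b μ k ≤ zm p b μ (J.sup id) := sum_le_sup h.sup h.z0 (h.spT.subset hJ)

theorem lowx (h : StarG μ p M b y W T K x) {J : Finset (Finset V)} (hJ : J ⊆ T) :
    zm p b μ x + ∑ k ∈ J, zm p b μ k ≤ zm p b μ (J.sup id ∪ x) := by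
  have h1 := h.sup _ (h.UW hJ) _ h.xW
  rw [disjoint_iff_inter_eq_empty.1 (disjoint_right.2 (fun v hv => h.xU hJ hv)), h.z0] at h1
  have := h.low hJ
  omega

theorem wle (h : StarG μ p M b y W T K x) {J : Finset (Finset V)} (hJ : J ⊆ T) {k : Finset V}
    (hk : k ∈ J) : zm p b μ k ≤ ∑ k ∈ J, zm p b μ k :=
  single_le_sum (f := zm p b μ) (fun i hi => h.wn i (hJ hi)) hk

/-- adding the anchor to a set that contains a tight part -/
theorem addb (h : StarG μ p M b y W T K x) {k Y : Finset V} (hk : k ∈ T) (hkY : k ⊆ Y)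
    (hY : Y ⊆ W) : p Y ≤ 1 + zm p b μ Y := by
  obtain ⟨u, hu⟩ := h.spT.ne k hk
  have hb : b ∉ Y := fun hh => h.bW (hY hh)
  have h1 := h.cs.super (X := Y) (Y := insert b k) (hkY hu) (mem_insert_of_mem hu)
    (fun hh => h.yW (hY hh)) (by simp [h.yb]; exact fun hh => h.yW (hY (hkY hh)))
  have e1 : Y ∩ insert b k = k := by
    rw [inter_insert_of_notMem hb, inter_eq_right.2 hkY]
  have e2 : Y ∪ insert b k = insert b Y := by
    rw [union_insert, union_eq_left.2 hkY]
  rw [e1, e2] at h1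
  have := h.v1 k
  have := h.tight k hk
  unfold zm at *
  omega

/-- complements of sets that consist of a tight part and a set with nonnegative local value -/
theorem compl_le (h : StarG μ p M b y W T K x) {k Y : Finset V} (hk : k ∈ T) (hkY : k ⊆ Y)
    (hY : Y ⊆ W) (hz : 0 ≤ zm p b μ (Y \ k)) : p Yᶜ ≤ 1 + zm p b μ k := by
  obtain ⟨u, hu⟩ := h.spT.ne k hk
  have hb : b ∉ Y := fun hh => h.bW (hY hh)
  have hub : u ≠ b := fun hh => hb (hh ▸ hkY hu)
  have h1 := h.cs.super (X := Yᶜ) (Y := insert b (Y \ k)) (a := b) (d := u) (mem_compl.2 hb)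
    (mem_insert_self _ _) (by simp [hkY hu]) (by simp [hub, hu])
  have e1 : Yᶜ ∩ insert b (Y \ k) = {b} := by
    ext v
    simp only [mem_inter, mem_compl, mem_insert, mem_sdiff, mem_singleton]
    constructor
    · rintro ⟨a1, a2 | a2⟩
      exacts [a2, absurd a2.1 a1]
    · rintro rfl; exact ⟨hb, Or.inl rfl⟩
  have e2 : Yᶜ ∪ insert b (Y \ k) = kᶜ := by
    ext v
    simp only [mem_union, mem_compl, mem_insert, mem_sdiff]
    constructor
    · rintro (a1 | rfl | a1)
      exacts [fun hh => a1 (hkY hh), fun hh => hb (hkY hh), a1.2]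
    · intro a1; by_cases a2 : v ∈ Y
      exacts [Or.inr (Or.inr ⟨a2, a1⟩), Or.inl a2]
  rw [e1, e2] at h1
  have := h.v2 k
  have := h.tight k hk
  have := h.pb
  unfold zm at *
  omega

theorem sup_sdiff_part (h : StarG μ p M b y W T K x) {J : Finset (Finset V)} (hJ : J ⊆ T)
    {k : Finset V} (hk : k ∈ J) : J.sup id \ k = (J.erase k).sup id := by
  ext v
  simp only [mem_sdiff, mem_sup_id]
  constructor
  · rintro ⟨⟨P, hP, hv⟩, hvk⟩
    exact ⟨P, mem_erase.2 ⟨fun hh => hvk (hh ▸ hv), hP⟩, hv⟩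
  · rintro ⟨P, hP, hv⟩
    obtain ⟨a1, a2⟩ := mem_erase.1 hP
    exact ⟨⟨P, a2, hv⟩, fun hh => a1 (h.spT.eq_of_mem (hJ a2) (hJ hk) hv hh)⟩

theorem compl_U (h : StarG μ p M b y W T K x) {J : Finset (Finset V)} (hJ : J ⊆ T)
    {k : Finset V} (hk : k ∈ J) : p (J.sup id)ᶜ ≤ 1 + zm p b μ k := by
  refine h.compl_le (hJ hk) (part_subset_sup hk) (h.UW hJ) ?_
  rw [h.sup_sdiff_part hJ hk]
  have h1 := h.low ((erase_subset k J).trans hJ)
  have h2 : 0 ≤ ∑ i ∈ J.erase k, zm p b μ i :=
    sum_nonneg (fun i hi => h.wn i (hJ (mem_of_mem_erase hi)))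
  omega

theorem compl_Ux (h : StarG μ p M b y W T K x) {J : Finset (Finset V)} (hJ : J ⊆ T)
    {k : Finset V} (hk : k ∈ J) : p (J.sup id ∪ x)ᶜ ≤ 1 + zm p b μ k := by
  refine h.compl_le (hJ hk) ((part_subset_sup hk).trans subset_union_left)
    (union_subset (h.UW hJ) h.xW) ?_
  have e : (J.sup id ∪ x) \ k = (J.erase k).sup id ∪ x := by
    rw [union_sdiff_distrib, h.sup_sdiff_part hJ hk, sdiff_eq_self_of_disjoint]
    exact disjoint_left.2 (fun v hv hv' => h.xU hJ hv (part_subset_sup hk hv'))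
  rw [e]
  have h1 := h.lowx ((erase_subset k J).trans hJ)
  have h2 : 0 ≤ ∑ i ∈ J.erase k, zm p b μ i :=
    sum_nonneg (fun i hi => h.wn i (hJ (mem_of_mem_erase hi)))
  have h3 := h.fin.nonneg (mem_singleton_self x)
  omega

theorem card_split (J K : Finset (Finset V)) :
    (J.card : ℤ) = (J ∩ K).card + (J \ K).card := by
  exact_mod_cast (card_inter_add_card_sdiff J K).symm

theorem sum_split (z : Finset V → ℤ) (J K : Finset (Finset V)) :
    ∑ k ∈ J, z k = ∑ k ∈ J ∩ K, z k + ∑ k ∈ J \ K, z k := by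
  rw [← sum_inter_add_sum_sdiff J K]

/-- removing the tight parts from the local value -/
theorem drop (h : StarG μ p M b y W T K x) {J : Finset (Finset V)} (hJ : J ⊆ T) {L : Finset V}
    (hL : L ⊆ x) :
    zm p b μ (J.sup id ∪ L) ≤ zm p b μ L + ∑ k ∈ J, zm p b μ k + (J \ K).card := by
  have h1 := h.sup _ (union_subset (h.UW hJ) (hL.trans h.xW)) _ h.xW
  have e1 : (J.sup id ∪ L) ∩ x = L := by
    rw [union_inter_distrib_right, inter_eq_left.2 hL,
      disjoint_iff_inter_eq_empty.1 (disjoint_right.2 (fun v hv => h.xU hJ hv)), empty_union]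
  have e2 : (J.sup id ∪ L) ∪ x = J.sup id ∪ x := by
    rw [union_assoc, union_eq_right.2 hL]
  rw [e1, e2] at h1
  have := h.dle J hJ
  omega

theorem c1 (h : StarG μ p M b y W T K x) {J : Finset (Finset V)} (hJ : J ⊆ T) {L : Finset V}
    (hL : L ⊆ x) {k : Finset V} (hk : k ∈ J ∩ K) :
    p (J.sup id ∪ L) - ms M (J.sup id ∪ L) ≤
      p ((J ∩ K).sup id ∪ L) - ms M ((J ∩ K).sup id ∪ L) := by
  have hJ1 : J ∩ K ⊆ T := inter_subset_left.trans hJ
  obtain ⟨u, hu⟩ := h.spT.ne k (hJ1 hk)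
  have hu1 : u ∈ (J ∩ K).sup id := part_subset_sup hk hu
  have hZW : J.sup id ∪ L ⊆ W := union_subset (h.UW hJ) (hL.trans h.xW)
  have h1 := h.cs.super (X := J.sup id ∪ L) (Y := insert b ((J ∩ K).sup id ∪ x)) (a := u) (d := y)
    (mem_union_left _ (sup_mono' inter_subset_left hu1))
    (mem_insert_of_mem (mem_union_left _ hu1)) (fun hh => h.yW (hZW hh))
    (by
      rw [mem_insert, not_or]
      exact ⟨h.yb, fun hh => h.yW (union_subset (h.UW hJ1) h.xW hh)⟩)
  have hs : (J ∩ K).sup id ⊆ J.sup id := sup_mono' inter_subset_left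
  have e1 : (J.sup id ∪ L) ∩ insert b ((J ∩ K).sup id ∪ x) = (J ∩ K).sup id ∪ L := by
    rw [inter_insert_of_notMem (fun hh => h.bW (hZW hh))]
    ext v
    simp only [mem_inter, mem_union]
    constructor
    · rintro ⟨a1 | a1, a2 | a2⟩
      exacts [Or.inl a2, absurd a1 (h.xU hJ a2), Or.inl a2, Or.inr a1]
    · rintro (a1 | a1)
      exacts [⟨Or.inl (hs a1), Or.inl a1⟩, ⟨Or.inr a1, Or.inr (hL a1)⟩]
  have e2 : (J.sup id ∪ L) ∪ insert b ((J ∩ K).sup id ∪ x) = insert b (J.sup id ∪ x) := by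
    rw [union_insert]
    congr 1
    ext v
    simp only [mem_union]
    constructor
    · rintro ((a1 | a1) | a1 | a1)
      exacts [Or.inl a1, Or.inr (hL a1), Or.inl (hs a1), Or.inr a1]
    · rintro (a1 | a1)
      exacts [Or.inl (Or.inl a1), Or.inr (Or.inr a1)]
  rw [e1, e2] at h1
  have h2 := h.dle J hJ
  have h3 := h.lowx hJ1
  have h4 := card_split J K
  have h5 := sum_split (zm p b μ) J K
  have h6 := h.msUL hJ hL
  have h7 := h.msUL hJ1 hL
  have h8 : zm p b μ (J.sup id ∪ x) = p (insert b (J.sup id ∪ x)) - μ := rfl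
  have h9 : zm p b μ ((J ∩ K).sup id ∪ x) = p (insert b ((J ∩ K).sup id ∪ x)) - μ := rfl
  omega

theorem c3 (h : StarG μ p M b y W T K x) {J : Finset (Finset V)} (hJ : J ⊆ T) {L : Finset V}
    (hL : L ⊆ x) (hne : L.Nonempty) {k : Finset V} (hk : k ∈ J ∩ K) {ι : ℤ}
    (h1 : ι ≤ (J ∩ K).card) (h2 : ι ≤ ms M L) :
    p (J.sup id ∪ L)ᶜ ≤ ms M (J.sup id ∪ L) - 2 * ι := by
  have hkJ : k ∈ J := (mem_inter.1 hk).1
  obtain ⟨u, hu⟩ := h.spT.ne k (hJ hkJ)
  have hu1 : u ∈ J.sup id := part_subset_sup hkJ hu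
  have hZW : J.sup id ∪ L ⊆ W := union_subset (h.UW hJ) (hL.trans h.xW)
  have hub : u ≠ b := fun hh => h.bW (hh ▸ h.UW hJ hu1)
  have hux : u ∉ x := fun hh => h.xU hJ hh hu1
  have h4 := card_split J K
  have h5 := sum_split (zm p b μ) J K
  have h6 := h.msUL hJ hL
  have h7 := h.wle hJ hkJ
  by_cases hLx : L = x
  · subst hLx
    have hmx := h.mx
    have hwx := h.fin.nonneg (mem_singleton_self L)
    by_cases hK : K ⊆ J
    · have hJ2 : J \ K ⊆ T := sdiff_subset.trans hJ
      have e0 : J ∩ K = K := inter_eq_right.2 hK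
      have hKT := h.KT
      have hu2 : u ∉ (J \ K).sup id := by
        intro hh
        obtain ⟨P, hP, hv⟩ := mem_sup_id.1 hh
        have := h.spT.eq_of_mem (hJ2 hP) (hJ hkJ) hv hu
        exact (mem_sdiff.1 hP).2 (this ▸ (mem_inter.1 hk).2)
      have a1 := h.cs.super (X := (J.sup id ∪ L)ᶜ) (Y := insert b ((J \ K).sup id)) (a := b)
        (d := u) (mem_compl.2 (fun hh => h.bW (hZW hh))) (mem_insert_self _ _)
        (fun hh => mem_compl.1 hh (mem_union_left _ hu1)) (by simp only [mem_insert, not_or]; exact ⟨hub, hu2⟩)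
      have hs : (J \ K).sup id ⊆ J.sup id := sup_mono' sdiff_subset
      have e1 : (J.sup id ∪ L)ᶜ ∩ insert b ((J \ K).sup id) = {b} := by
        ext v
        simp only [mem_inter, mem_compl, mem_insert, mem_singleton]
        constructor
        · rintro ⟨a1, a2 | a2⟩
          exacts [a2, absurd (mem_union_left _ (hs a2)) a1]
        · rintro rfl; exact ⟨fun hh => h.bW (hZW hh), Or.inl rfl⟩
      have e2 : (J.sup id ∪ L)ᶜ ∪ insert b ((J \ K).sup id) = (K.sup id ∪ L)ᶜ := by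
        ext v
        simp only [mem_union, mem_compl, mem_insert, not_or]
        constructor
        · rintro (a1 | rfl | a1)
          · exact ⟨fun hh => a1.1 (sup_mono' hK hh), a1.2⟩
          · exact ⟨fun hh => h.bW (h.UW hKT hh), fun hh => h.bW (h.xW hh)⟩
          · refine ⟨fun hh => ?_, fun hh => h.xU hJ2 hh a1⟩
            obtain ⟨P, hP, hv⟩ := mem_sup_id.1 hh
            obtain ⟨Q, hQ, hv'⟩ := mem_sup_id.1 a1
            have := h.spT.eq_of_mem (hKT hP) (hJ2 hQ) hv hv'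
            exact (mem_sdiff.1 hQ).2 (this ▸ hP)
        · rintro ⟨a1, a2⟩
          by_cases a3 : v ∈ J.sup id
          · obtain ⟨P, hP, hv⟩ := mem_sup_id.1 a3
            exact Or.inr (Or.inr (mem_sup_id.2
              ⟨P, mem_sdiff.2 ⟨hP, fun hh => a1 (mem_sup_id.2 ⟨P, hh, hv⟩)⟩, hv⟩))
          · exact Or.inl ⟨a3, a2⟩
      rw [e1, e2] at a1
      have a2 := h.low hJ2
      have a3 := h.bad
      have a4 := le_symmMax' p (K.sup id ∪ L)
      have a5 := h.pb
      have a6 : zm p b μ ((J \ K).sup id) = p (insert b ((J \ K).sup id)) - μ := rfl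
      have a7 : 0 ≤ ∑ k ∈ J \ K, zm p b μ k := sum_nonneg (fun i hi => h.wn i (hJ2 hi))
      rw [e0] at h1 h4 h5
      omega
    · have a1 := h.compl_Ux hJ hkJ
      have a2 : (J ∩ K).card < K.card := card_lt_card (Finset.ssubset_iff_subset_ne.2
        ⟨inter_subset_right, fun hh => hK (by rw [← hh]; exact inter_subset_left)⟩)
      omega
  · obtain ⟨z, hz, hzL⟩ : ∃ z ∈ x, z ∉ L := not_subset.1 (fun hh => hLx (Subset.antisymm hL hh))
    obtain ⟨l, hl⟩ := hne
    have a1 := h.cs.super (X := (J.sup id ∪ L)ᶜ) (Y := insert b x) (a := b)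
      (d := u) (mem_compl.2 (fun hh => h.bW (hZW hh))) (mem_insert_self _ _)
      (fun hh => mem_compl.1 hh (mem_union_left _ hu1)) (by simp only [mem_insert, not_or]; exact ⟨hub, hux⟩)
    have e1 : (J.sup id ∪ L)ᶜ ∩ insert b x = insert b (x \ L) := by
      ext v
      simp only [mem_inter, mem_compl, mem_insert, mem_union, mem_sdiff, not_or]
      constructor
      · rintro ⟨a1, a2 | a2⟩
        exacts [Or.inl a2, Or.inr ⟨a2, a1.2⟩]
      · rintro (rfl | a1)
        · exact ⟨⟨fun hh => h.bW (h.UW hJ hh), fun hh => h.bW (h.xW (hL hh))⟩, Or.inl rfl⟩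
        · exact ⟨⟨h.xU hJ a1.1, a1.2⟩, Or.inr a1.1⟩
    have e2 : (J.sup id ∪ L)ᶜ ∪ insert b x = (J.sup id)ᶜ := by
      ext v
      simp only [mem_union, mem_compl, mem_insert, not_or]
      constructor
      · rintro (a1 | rfl | a1)
        exacts [a1.1, fun hh => h.bW (h.UW hJ hh), h.xU hJ a1]
      · intro a1
        by_cases a2 : v ∈ x
        exacts [Or.inr (Or.inr a2), Or.inl ⟨a1, fun hh => a2 (hL hh)⟩]
    rw [e1, e2] at a1
    have a2 := h.fin.proper (mem_singleton_self x) (sdiff_subset (t := L))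
      ⟨z, mem_sdiff.2 ⟨hz, hzL⟩⟩ (fun hh => (mem_sdiff.1 (hh.symm ▸ hL hl : l ∈ x \ L)).2 hl)
    have a3 := h.compl_U hJ hkJ
    unfold zm at a2
    omega

theorem c4 (h : StarG μ p M b y W T K x) {J : Finset (Finset V)} (hJ : J ⊆ T) {L : Finset V}
    (hL : L ⊆ x) {k : Finset V} (hk : k ∈ J ∩ K) {ι : ℤ}
    (h1 : ι ≤ (J ∩ K).card) (h2 : ι ≤ ms M L) :
    p (insert b (J.sup id ∪ L))ᶜ ≤ μ + ms M (J.sup id ∪ L) - 2 * ι := by
  have hkJ : k ∈ J := (mem_inter.1 hk).1
  obtain ⟨u, hu⟩ := h.spT.ne k (hJ hkJ)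
  have hu1 : u ∈ J.sup id := part_subset_sup hkJ hu
  have hZW : J.sup id ∪ L ⊆ W := union_subset (h.UW hJ) (hL.trans h.xW)
  have hub : u ≠ b := fun hh => h.bW (hh ▸ h.UW hJ hu1)
  have hux : u ∉ x := fun hh => h.xU hJ hh hu1
  have h4 := card_split J K
  have h6 := h.msUL hJ hL
  have h7 := h.wle hJ hkJ
  have hmx := h.mx
  have hK2 := h.K2
  have hmu := h.mu
  have hwx := h.fin.nonneg (mem_singleton_self x)
  have hJK : 1 ≤ (J ∩ K).card := card_pos.2 ⟨k, hk⟩
  have hJK2 : (J ∩ K).card ≤ K.card := card_le_card inter_subset_right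
  by_cases hLx : L = x
  · subst hLx
    by_cases hT : T ⊆ J
    · have e : J = T := Subset.antisymm hJ hT
      subst e
      have a1 := h.v1 (insert b (J.sup id ∪ L))ᶜ
      have a2 := h.rm
      rw [inter_eq_right.2 h.KT] at h1 h4
      omega
    · obtain ⟨k', hk', hk'J⟩ := not_subset.1 hT
      obtain ⟨z, hz⟩ := h.spT.ne k' hk'
      have hk'U : ∀ v ∈ k', v ∉ J.sup id := by
        intro v hv hh
        obtain ⟨P, hP, hv'⟩ := mem_sup_id.1 hh
        exact hk'J (h.spT.eq_of_mem (hJ hP) hk' hv' hv ▸ hP)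
      have hk'x : ∀ v ∈ k', v ∉ L := fun v hv hh => h.xU subset_rfl hh (part_subset_sup hk' hv)
      have hk'b : b ∉ k' := fun hh => h.bW (h.spT.sub k' hk' hh)
      have a1 := h.cs.super (X := (insert b (J.sup id ∪ L))ᶜ) (Y := insert b k') (a := z)
        (d := u) (by
          simp only [mem_compl, mem_insert, mem_union, not_or]
          exact ⟨fun hh => hk'b (hh ▸ hz), hk'U z hz, hk'x z hz⟩) (mem_insert_of_mem hz)
        (fun hh => mem_compl.1 hh (mem_insert_of_mem (mem_union_left _ hu1))) (by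
          simp only [mem_insert, not_or]; exact ⟨hub, fun hh => hk'U u hh hu1⟩)
      have e1 : (insert b (J.sup id ∪ L))ᶜ ∩ insert b k' = k' := by
        ext v
        simp only [mem_inter, mem_compl, mem_insert, mem_union, not_or]
        constructor
        · rintro ⟨a1, a2 | a2⟩
          exacts [absurd a2 a1.1, a2]
        · intro a1
          exact ⟨⟨fun hh => hk'b (hh ▸ a1), hk'U v a1, hk'x v a1⟩, Or.inr a1⟩
      have e2 : (insert b (J.sup id ∪ L))ᶜ ∪ insert b k' = (J.sup id ∪ L)ᶜ := by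
        ext v
        simp only [mem_union, mem_compl, mem_insert, not_or]
        constructor
        · rintro (a1 | rfl | a1)
          · exact a1.2
          · exact ⟨fun hh => h.bW (h.UW hJ hh), fun hh => h.bW (h.xW hh)⟩
          · exact ⟨hk'U v a1, hk'x v a1⟩
        · intro a1
          by_cases a2 : v = b
          exacts [Or.inr (Or.inl a2), Or.inl ⟨a2, a1⟩]
      rw [e1, e2] at a1
      have a2 := h.v1 k'
      have a3 := h.tight k' hk'
      have a4 := h.compl_Ux hJ hkJ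
      have a5 : zm p b μ k' = p (insert b k') - μ := rfl
      omega
  · obtain ⟨z, hz, hzL⟩ : ∃ z ∈ x, z ∉ L := not_subset.1 (fun hh => hLx (Subset.antisymm hL hh))
    have hbx : b ∉ x := fun hh => h.bW (h.xW hh)
    have a1 := h.cs.super (X := (insert b (J.sup id ∪ L))ᶜ) (Y := insert b x) (a := z)
      (d := u) (by
        simp only [mem_compl, mem_insert, mem_union, not_or]
        exact ⟨fun hh => hbx (hh ▸ hz), h.xU hJ hz, hzL⟩) (mem_insert_of_mem hz)
      (fun hh => mem_compl.1 hh (mem_insert_of_mem (mem_union_left _ hu1))) (by simp only [mem_insert, not_or]; exact ⟨hub, hux⟩)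
    have e1 : (insert b (J.sup id ∪ L))ᶜ ∩ insert b x = x \ L := by
      ext v
      simp only [mem_inter, mem_compl, mem_insert, mem_union, mem_sdiff, not_or]
      constructor
      · rintro ⟨a1, a2 | a2⟩
        exacts [absurd a2 a1.1, ⟨a2, a1.2.2⟩]
      · intro a1
        exact ⟨⟨fun hh => hbx (hh ▸ a1.1), h.xU hJ a1.1, a1.2⟩, Or.inr a1.1⟩
    have e2 : (insert b (J.sup id ∪ L))ᶜ ∪ insert b x = (J.sup id)ᶜ := by
      ext v
      simp only [mem_union, mem_compl, mem_insert, not_or]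
      constructor
      · rintro (a1 | rfl | a1)
        exacts [a1.2.1, fun hh => h.bW (h.UW hJ hh), h.xU hJ a1]
      · intro a1
        by_cases a2 : v ∈ x
        · exact Or.inr (Or.inr a2)
        · by_cases a3 : v = b
          exacts [Or.inr (Or.inl a3), Or.inl ⟨a3, a1, fun hh => a2 (hL hh)⟩]
    rw [e1, e2] at a1
    have a2 := h.v1 (x \ L)
    have a3 := ms_sdiff M x L
    rw [inter_eq_right.2 hL] at a3
    have a4 := h.compl_U hJ hkJ
    have a5 : zm p b μ x = p (insert b x) - μ := rfl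
    have a6 := ms_nonneg M L
    omega

/-- a blocker for the graph that consists of inner edges and edges to the root -/
theorem raw (h : StarG μ p M b y W T K x) (E : Multiset (V × V)) (N : Multiset V)
    (hM : M = ends E + N) (hE : ∀ v ∈ ends E, v ∈ T.sup id ∪ x)
    (hc : Multiset.card E = K.card) :
    ∃ J ⊆ T, ∃ L ⊆ x, ∃ Z, (Z = J.sup id ∪ L ∨ Z = insert b (J.sup id ∪ L)) ∧
      ms M Z - (ms (ends E) Z - dG E Z) < symmMax p Z := by
  classical
  set R := (insert b (T.sup id ∪ x))ᶜ with hR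
  have hTW : T.sup id ∪ x ⊆ W := union_subset (h.UW subset_rfl) h.xW
  have m1 : ms (ends E) R = 0 := ms_eq_zero (fun v hv hh =>
    mem_compl.1 hh (mem_insert_of_mem (hE v hv)))
  have m2 : ms M Rᶜ = μ + ms M (T.sup id ∪ x) := by
    rw [hR, compl_compl, insert_eq, ms_union_disj M (by
      simp only [disjoint_singleton_left]; exact fun hh => h.bW (hTW hh)), h.mb]
  have m3 := h.msUL subset_rfl (subset_rfl : x ⊆ x)
  have m4 := h.mx
  have m5 : ms M R = _ := h.rm
  have m6 := card_split T K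
  rw [inter_eq_right.2 h.KT] at m6
  have m7 := ms_compl (ends E) R
  rw [card_ends] at m7
  have hcard : Multiset.card (N.filter (· ∈ Rᶜ)) = Multiset.card (N.filter (· ∈ R)) := by
    have a1 := ms_filter_mem N Rᶜ
    have a2 := ms_filter_mem N R
    have a3 : ms M R = ms (ends E) R + ms N R := by rw [hM, ms_add]
    have a4 : ms M Rᶜ = ms (ends E) Rᶜ + ms N Rᶜ := by rw [hM, ms_add]
    push_cast at m7
    omega
  obtain ⟨H0, hA, hB⟩ := exists_pairing _ _ hcard
  have hN : N.filter (· ∈ Rᶜ) + N.filter (· ∈ R) = N := by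
    rw [add_comm]
    conv_rhs => rw [← Multiset.filter_add_not (· ∈ R) N]
    congr 1
    exact Multiset.filter_congr (fun v _ => mem_compl)
  have hH : ends (E + H0) = M := by
    rw [ends_add, hM]
    congr 1
    unfold ends
    rw [hA, hB, hN]
  obtain ⟨X, hX, hlt⟩ := exists_blocker h.cs h.hv h.uns hH (insert R T) (by
    have key : ∀ Y ∈ T, Disjoint R Y := fun Y hY => disjoint_left.2 (fun v hv hv' =>
      mem_compl.1 hv (mem_insert_of_mem (mem_union_left _ (part_subset_sup hY hv'))))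
    intro X hX Y hY hne
    rcases mem_insert.1 hX with rfl | hX <;> rcases mem_insert.1 hY with rfl | hY
    exacts [absurd rfl hne, key Y hY, (key X hX).symm, h.spT.disj X hX Y hY hne]) (by
    intro Z hZ
    rcases mem_insert.1 hZ with rfl | hZ
    · have a1 := le_symmMax' p R
      have a2 := h.rt
      rw [hR, compl_compl] at a1
      exact a2.trans a1
    · exact h.good Z hZ)
  obtain ⟨Z, hZ, hZR, hlt'⟩ : ∃ Z, NoSplit (insert R T) Z ∧ Disjoint R Z ∧
      dG (E + H0) Z < symmMax p Z := by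
    rcases hX R (mem_insert_self _ _) with a | a
    · refine ⟨Xᶜ, hX.compl, disjoint_left.2 (fun v hv hv' => mem_compl.1 hv' (a hv)), ?_⟩
      rw [dG_compl, symmMax_compl]
      exact hlt.trans_le (le_symmMax p X)
    · exact ⟨X, hX, a, hlt.trans_le (le_symmMax p X)⟩
  have d1 : dG H0 Z = ms N Z := by
    rw [dG_of_snd_out (fun e he => ?_), hA]
    · conv_rhs => rw [← hN, ms_add]
      rw [ms_eq_zero (M := N.filter (· ∈ R)) (fun v hv =>
        disjoint_left.1 hZR (Multiset.mem_filter.1 hv).2)]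
      simp
    · have : e.2 ∈ N.filter (· ∈ R) := hB ▸ Multiset.mem_map_of_mem _ he
      exact disjoint_left.1 hZR (Multiset.mem_filter.1 this).2
  have hZe : Z.erase b = (T.filter (· ⊆ Z)).sup id ∪ (Z ∩ x) := by
    ext v
    simp only [mem_erase, mem_union, mem_inter, mem_sup_id]
    constructor
    · rintro ⟨a1, a2⟩
      have a3 : v ∈ insert b (T.sup id ∪ x) := by
        by_contra hh
        exact disjoint_left.1 hZR (mem_compl.2 hh) a2
      rcases mem_union.1 ((mem_insert.1 a3).resolve_left a1) with a4 | a4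
      · obtain ⟨P, hP, hv⟩ := mem_sup_id.1 a4
        exact Or.inl ⟨P, mem_filter.2 ⟨hP, hZ.sub (mem_insert_of_mem hP) hv a2⟩, hv⟩
      · exact Or.inr ⟨a2, a4⟩
    · rintro (⟨P, hP, hv⟩ | ⟨a1, a2⟩)
      · obtain ⟨a1, a2⟩ := mem_filter.1 hP
        exact ⟨fun hh => h.bW (hh ▸ h.spT.sub P a1 hv), a2 hv⟩
      · exact ⟨fun hh => h.bW (hh ▸ h.xW a2), a1⟩
  refine ⟨T.filter (· ⊆ Z), filter_subset _ _, Z ∩ x, inter_subset_right, Z, ?_, ?_⟩
  · rw [← hZe]
    by_cases hb : b ∈ Z
    · exact Or.inr (insert_erase hb).symm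
    · exact Or.inl (erase_eq_of_notMem hb).symm
  · rw [dG_add, d1] at hlt'
    have : ms M Z = ms (ends E) Z + ms N Z := by rw [hM, ms_add]
    omega

/-- the blockers, after transfer -/
theorem block (h : StarG μ p M b y W T K x) {J : Finset (Finset V)} (hJ : J ⊆ T) {L : Finset V}
    (hL : L ⊆ x) (hne : L.Nonempty) {k : Finset V} (hk : k ∈ J ∩ K) {ι : ℤ}
    (h1 : ι ≤ (J ∩ K).card) (h2 : ι ≤ ms M L) {Z : Finset V}
    (hZ : Z = J.sup id ∪ L ∨ Z = insert b (J.sup id ∪ L)) (hlt : ms M Z - 2 * ι < symmMax p Z) :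
    ms M ((J ∩ K).sup id ∪ L) - 2 * ι < p ((J ∩ K).sup id ∪ L) ∨
      ms M L + (J ∩ K).card - 2 * ι < zm p b μ L := by
  unfold symmMax at hlt
  rcases hZ with rfl | rfl
  · have a1 := h.c1 hJ hL hk
    have a2 := h.c3 hJ hL hne hk h1 h2
    omega
  · have a1 := h.c4 hJ hL hk h1 h2
    have a2 := h.drop hJ hL
    have a3 := h.msUL hJ hL
    have a4 := card_split J K
    have a5 : ms M (insert b (J.sup id ∪ L)) = μ + ms M (J.sup id ∪ L) := by
      rw [insert_eq, ms_union_disj M (by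
        simp only [disjoint_singleton_left]
        exact fun hh => h.bW (union_subset (h.UW hJ) (hL.trans h.xW) hh)), h.mb]
    have a6 : zm p b μ (J.sup id ∪ L) = p (insert b (J.sup id ∪ L)) - μ := rfl
    omega

/-- transfer to the local function -/
theorem tr (h : StarG μ p M b y W T K x) {J : Finset (Finset V)} (hJ : J ⊆ K) (hne : J.Nonempty)
    {L : Finset V} (hL : L ⊆ x) :
    p (J.sup id ∪ L) - ms M (J.sup id ∪ L) + J.card ≤ 1 + zm p b μ L - ms M L := by
  obtain ⟨k, hk⟩ := hne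
  have hJT := hJ.trans h.KT
  have a1 := h.addb (hJT hk) ((part_subset_sup hk).trans (subset_union_left (s₂ := L)))
    (union_subset (h.UW hJT) (hL.trans h.xW))
  have a2 := h.drop hJT hL
  rw [sdiff_eq_empty_iff_subset.2 hJ] at a2
  have a3 := h.msUL hJT hL
  simp only [card_empty, Nat.cast_zero] at a2
  omega

/-- uncrossing two sets that consist of tight parts and subsets of the centre -/
theorem uncr (h : StarG μ p M b y W T K x) {J J' : Finset (Finset V)} (hJ' : J' ⊆ J) (hJ : J ⊆ K)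
    (hne : J'.Nonempty) {L L' : Finset V} (hL : L ⊆ x) (hL' : L' ⊆ x) :
    (p (J.sup id ∪ L) - ms M (J.sup id ∪ L)) + (p (J'.sup id ∪ L') - ms M (J'.sup id ∪ L')) ≤
      (p (J'.sup id ∪ (L ∩ L')) - ms M (J'.sup id ∪ (L ∩ L'))) +
        (p (J.sup id ∪ (L ∪ L')) - ms M (J.sup id ∪ (L ∪ L'))) := by
  obtain ⟨k, hk⟩ := hne
  have hJT := hJ.trans h.KT
  have hJ'T := hJ'.trans hJT
  obtain ⟨u, hu⟩ := h.spT.ne k (hJ'T hk)
  have hs : J'.sup id ⊆ J.sup id := sup_mono' hJ'
  have hu' : u ∈ J'.sup id := part_subset_sup hk hu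
  have a1 := h.cs.super (X := J.sup id ∪ L) (Y := J'.sup id ∪ L') (a := u) (d := y)
    (mem_union_left _ (hs hu')) (mem_union_left _ hu')
    (fun hh => h.yW (union_subset (h.UW hJT) (hL.trans h.xW) hh))
    (fun hh => h.yW (union_subset (h.UW hJ'T) (hL'.trans h.xW) hh))
  have a2 := ms_inter_union M (J.sup id ∪ L) (J'.sup id ∪ L')
  have e1 : (J.sup id ∪ L) ∩ (J'.sup id ∪ L') = J'.sup id ∪ (L ∩ L') := by
    ext v
    simp only [mem_inter, mem_union]
    constructor
    · rintro ⟨a1 | a1, a2 | a2⟩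
      exacts [Or.inl a2, absurd a1 (h.xU hJT (hL' a2)), Or.inl a2, Or.inr ⟨a1, a2⟩]
    · rintro (a1 | a1)
      exacts [⟨Or.inl (hs a1), Or.inl a1⟩, ⟨Or.inr a1.1, Or.inr a1.2⟩]
  have e2 : (J.sup id ∪ L) ∪ (J'.sup id ∪ L') = J.sup id ∪ (L ∪ L') := by
    ext v
    simp only [mem_union]
    constructor
    · rintro ((a1 | a1) | a1 | a1)
      exacts [Or.inl a1, Or.inr (Or.inl a1), Or.inl (hs a1), Or.inr (Or.inr a1)]
    · rintro (a1 | a1 | a1)
      exacts [Or.inl (Or.inl a1), Or.inl (Or.inr a1), Or.inr (Or.inr a1)]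
  rw [e1, e2] at a1 a2
  omega

/-- a family that covers the mass of the centre with small loss contains the centre -/
theorem cover (h : StarG μ p M b y W T K x) (F : Finset V → Prop) (N : Multiset V)
    (hF : ∀ L, F L → L ⊆ x ∧ L.Nonempty ∧ ms M L - ms N L ≤ 1 + zm p b μ L)
    (hun : ∀ L L', F L → F L' → (L ∩ L').Nonempty → F (L ∪ L')) (hx : ¬ F x) :
    ∃ C, (∀ L, F L → L ⊆ C) ∧ ms M C - Multiset.card N ≤ zm p b μ x := by
  obtain ⟨S, hS, h1, h2⟩ := exists_max_members (W := x) F (fun L hL => ⟨(hF L hL).1, (hF L hL).2.1⟩)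
    hun
  refine ⟨S.sup id, fun L hL => ?_, ?_⟩
  · obtain ⟨L', a1, a2⟩ := h2 L hL
    exact a2.trans (part_subset_sup a1)
  · have a1 := h.fin x (mem_singleton_self x) S hS (fun hh => hx (h1 x hh))
    have a2 : ∑ L ∈ S, (ms M L - ms N L) ≤ val (zm p b μ) S :=
      sum_le_sum (fun L hL => (hF L (h1 L hL)).2.2)
    rw [sum_sub_distrib, ← ms_sup M hS, ← ms_sup N hS] at a2
    have a3 := ms_le_card N (S.sup id)
    omega

theorem mass_pt (h : StarG μ p M b y W T K x) {k : Finset V} (hk : k ∈ T) :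
    ∃ α ∈ M, α ∈ k := by
  have := h.tight k hk
  have := h.wn k hk
  exact exists_mem_of_ms_pos (by omega)

theorem inner_one (α z : V) (Z : Finset V) :
    ms (ends {(α, z)}) Z - dG {(α, z)} Z = 2 * (ind α Z * ind z Z) := by
  rw [dG_singleton, cut_eq, ← Multiset.cons_zero, ends_cons]
  simp

theorem mem_Z (h : StarG μ p M b y W T K x) {J : Finset (Finset V)} (hJ : J ⊆ T) {L : Finset V}
    (hL : L ⊆ x) {Z : Finset V} (hZ : Z = J.sup id ∪ L ∨ Z = insert b (J.sup id ∪ L)) :
    (∀ k ∈ T, ∀ α ∈ k, (α ∈ Z ↔ k ∈ J)) ∧ ∀ z ∈ x, (z ∈ Z ↔ z ∈ L) := by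
  have key : ∀ v ∈ W, v ∈ Z ↔ v ∈ J.sup id ∪ L := by
    intro v hv
    rcases hZ with rfl | rfl
    · rfl
    · rw [mem_insert]
      exact ⟨fun hh => hh.resolve_left (fun e => h.bW (e ▸ hv)), Or.inr⟩
  refine ⟨fun k hk α hα => ?_, fun z hz => ?_⟩
  · rw [key α (h.spT.sub k hk hα), mem_union]
    constructor
    · rintro (a | a)
      · obtain ⟨P, hP, hv⟩ := mem_sup_id.1 a
        exact h.spT.eq_of_mem (hJ hP) hk hv hα ▸ hP
      · exact absurd (part_subset_sup hk hα) (h.xU subset_rfl (hL a))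
    · intro a; exact Or.inl (part_subset_sup a hα)
  · rw [key z (h.xW hz), mem_union]
    exact ⟨fun hh => hh.resolve_left (h.xU hJ hz), Or.inr⟩

theorem star_one (h : StarG μ p M b y W T K x) (hK : K.card = 1) : False := by
  obtain ⟨k, rfl⟩ := card_eq_one.1 hK
  have hk : k ∈ T := h.KT (mem_singleton_self k)
  obtain ⟨α, hαM, hα⟩ := h.mass_pt hk
  have hbad := (le_symmMax p _).trans h.bad
  have hmx := h.mx
  have hm := h.msUL h.KT (subset_rfl : x ⊆ x)
  obtain ⟨C, hC, hm'⟩ := h.cover (fun L => L ⊆ x ∧ L.Nonempty ∧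
      ms M (({k} : Finset (Finset V)).sup id ∪ L) - 1 ≤ p (({k} : Finset (Finset V)).sup id ∪ L))
      0 (fun L hL => ⟨hL.1, hL.2.1, by
        have := h.tr subset_rfl (singleton_nonempty k) hL.1
        have := hL.2.2
        simp only [card_singleton, ms_zero] at *
        omega⟩)
      (fun L L' hL hL' hne => ⟨union_subset hL.1 hL'.1, hL.2.1.mono subset_union_left, by
        have a1 := h.uncr subset_rfl subset_rfl (singleton_nonempty k) hL.1 hL'.1
        have a2 := h.tr subset_rfl (singleton_nonempty k) (inter_subset_left.trans hL.1 : L ∩ L' ⊆ x)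
        have a3 := h.zle _ (inter_subset_left.trans hL.1 : L ∩ L' ⊆ x) hne
        have := hL.2.2
        have := hL'.2.2
        simp only [card_singleton] at *
        omega⟩)
      (fun hx => by
        have := hx.2.2
        simp only [card_singleton] at *
        omega)
  have hcov : ms M x ≤ ms M C := by
    refine ms_le_of_cover (fun z hzM hz => ?_)
    have hαz : α ≠ z := fun hh => h.xU subset_rfl hz (part_subset_sup hk (hh ▸ hα))
    obtain ⟨N1, rfl⟩ := Multiset.exists_cons_of_mem hαM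
    obtain ⟨N, rfl⟩ := Multiset.exists_cons_of_mem
      ((Multiset.mem_cons.1 hzM).resolve_left (Ne.symm hαz))
    obtain ⟨J, hJ, L, hL, Z, hZ, hlt⟩ := h.raw {(α, z)} N
      (by rw [← Multiset.cons_zero, ends_cons]; simp)
      (by
        rw [← Multiset.cons_zero, ends_cons]
        simp only [ends_zero, Multiset.mem_cons, Multiset.notMem_zero, or_false]
        rintro v (rfl | rfl)
        exacts [mem_union_left _ (part_subset_sup hk hα), mem_union_right _ hz]) (by simp)
    rw [inner_one] at hlt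
    obtain ⟨m1, m2⟩ := h.mem_Z hJ hL hZ
    have hq := valid_iff.1 h.hv Z
    simp only [dG_zero, zero_add] at hq
    have hαZ : α ∈ Z := by
      by_contra hh; rw [ind_of_notMem hh] at hlt; omega
    have hzZ : z ∈ Z := by
      by_contra hh; rw [ind_of_notMem hh] at hlt; omega
    rw [ind_of_mem hαZ, ind_of_mem hzZ] at hlt
    have hzL := (m2 z hz).1 hzZ
    have e : J ∩ {k} = {k} := inter_eq_right.2 (singleton_subset_iff.2 ((m1 k hk α hα).1 hαZ))
    have a1 := h.block hJ hL ⟨z, hzL⟩ (k := k) (by rw [e]; simp) (ι := 1) (by rw [e]; simp)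
      (ms_pos_of_mem hzM hzL) hZ (by omega)
    rw [e] at a1
    have a2 := h.zle L hL ⟨z, hzL⟩
    simp only [card_singleton] at a1
    exact hC L ⟨hL, ⟨z, hzL⟩, by omega⟩ hzL
  simp only [card_singleton, Multiset.card_zero] at *
  omega

theorem star_two (h : StarG μ p M b y W T K x) (hK : K.card = 2) : False := by
  obtain ⟨k1, k2, hk12, rfl⟩ := card_eq_two.1 hK
  have hk1 : k1 ∈ T := h.KT (by simp)
  have hk2 : k2 ∈ T := h.KT (by simp)
  have s2 : ({k2} : Finset (Finset V)) ⊆ {k1, k2} := by simp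
  have s1 : ({k1} : Finset (Finset V)) ⊆ {k1, k2} := by simp
  obtain ⟨α, hαM, hα⟩ := h.mass_pt hk1
  obtain ⟨β, hβM, hβ⟩ := h.mass_pt hk2
  have hαβ : α ≠ β := fun hh => hk12 (h.spT.eq_of_mem hk1 hk2 hα (hh ▸ hβ))
  have hbad := (le_symmMax p _).trans h.bad
  have hmx := h.mx
  have hm := h.msUL h.KT (subset_rfl : x ⊆ x)
  rw [hK] at hmx hm
  -- the blockers of a pair of positions
  have key : ∀ z1 z2 N, M = z1 ::ₘ z2 ::ₘ N → z1 ∈ x → z2 ∈ x →
      (∃ L ⊆ x, z1 ∈ L ∧ ms M L - 1 ≤ zm p b μ L) ∨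
      (∃ L ⊆ x, z2 ∈ L ∧ ms M (({k2} : Finset (Finset V)).sup id ∪ L) - 1 ≤
        p (({k2} : Finset (Finset V)).sup id ∪ L)) ∨
      (∃ L ⊆ x, z1 ∈ L ∧ z2 ∈ L ∧ ms M (({k1, k2} : Finset (Finset V)).sup id ∪ L) - 3 ≤
        p (({k1, k2} : Finset (Finset V)).sup id ∪ L)) := by
    intro z1 z2 N hN hz1 hz2
    have nx : ∀ k ∈ T, ∀ v ∈ k, ∀ z ∈ x, v ≠ z := fun k hk v hv z hz hh =>
      h.xU subset_rfl hz (part_subset_sup hk (hh ▸ hv))
    have hαN : α ∈ N := by
      rw [hN] at hαM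
      simpa [nx k1 hk1 α hα z1 hz1, nx k1 hk1 α hα z2 hz2] using hαM
    obtain ⟨N1, rfl⟩ := Multiset.exists_cons_of_mem hαN
    have hβN : β ∈ N1 := by
      rw [hN] at hβM
      simpa [nx k2 hk2 β hβ z1 hz1, nx k2 hk2 β hβ z2 hz2, hαβ.symm] using hβM
    obtain ⟨N2, rfl⟩ := Multiset.exists_cons_of_mem hβN
    have hE : ends ({(α, z1)} + {(β, z2)} : Multiset (V × V)) = α ::ₘ z1 ::ₘ β ::ₘ z2 ::ₘ 0 := by
      rw [Multiset.singleton_add, ends_cons, ← Multiset.cons_zero, ends_cons]; simp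
    obtain ⟨J, hJ, L, hL, Z, hZ, hlt⟩ := h.raw ({(α, z1)} + {(β, z2)}) N2
      (by
        rw [hE, hN]
        simp only [Multiset.cons_add, zero_add]
        rw [Multiset.cons_swap z2 α, Multiset.cons_swap z1 α, Multiset.cons_swap z2 β])
      (by
        rw [hE]
        simp only [Multiset.mem_cons, Multiset.notMem_zero, or_false]
        rintro v (rfl | rfl | rfl | rfl)
        exacts [mem_union_left _ (part_subset_sup hk1 hα), mem_union_right _ hz1,
          mem_union_left _ (part_subset_sup hk2 hβ), mem_union_right _ hz2]) (by simp [hK])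
    have i1 := inner_one α z1 Z
    have i2 := inner_one β z2 Z
    rw [ends_add, ms_add, dG_add] at hlt
    obtain ⟨m1, m2⟩ := h.mem_Z hJ hL hZ
    have hq := valid_iff.1 h.hv Z
    simp only [dG_zero, zero_add] at hq
    have hz1M : z1 ∈ M := by rw [hN]; simp
    have hz2M : z2 ∈ M := by rw [hN]; simp
    have one : ∀ k z, k ∈ J ∩ {k1, k2} → z ∈ L → z ∈ M → ms M Z - 2 * 1 < symmMax p Z →
        J ∩ {k1, k2} = {k} ∧ ms M (({k} : Finset (Finset V)).sup id ∪ L) - 1 ≤
          p (({k} : Finset (Finset V)).sup id ∪ L) := by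
      intro k z hk hz hzM hlt
      have c1 : 1 ≤ (J ∩ {k1, k2}).card := card_pos.2 ⟨k, hk⟩
      have a1 := h.block hJ hL ⟨z, hz⟩ hk (ι := 1) (by exact_mod_cast c1)
        (ms_pos_of_mem hzM hz) hZ hlt
      have a2 := h.zle L hL ⟨z, hz⟩
      have a3 := h.tr (J := J ∩ {k1, k2}) inter_subset_right ⟨k, hk⟩ hL
      have c2 : (J ∩ {k1, k2}).card = 1 := by omega
      obtain ⟨k', e⟩ := card_eq_one.1 c2
      have e' : k = k' := by rw [e] at hk; exact mem_singleton.1 hk
      subst e'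
      refine ⟨e, ?_⟩
      rw [e] at a1
      simp only [card_singleton] at a1
      omega
    by_cases b1 : α ∈ Z ∧ z1 ∈ Z
    · have hz1L := (m2 z1 hz1).1 b1.2
      have hk1J : k1 ∈ J ∩ {k1, k2} := mem_inter.2 ⟨(m1 k1 hk1 α hα).1 b1.1, by simp⟩
      rw [ind_of_mem b1.1, ind_of_mem b1.2] at i1
      by_cases b2 : β ∈ Z ∧ z2 ∈ Z
      · have hz2L := (m2 z2 hz2).1 b2.2
        rw [ind_of_mem b2.1, ind_of_mem b2.2] at i2
        have e : J ∩ {k1, k2} = {k1, k2} := inter_eq_right.2 (by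
          intro v hv
          simp only [mem_insert, mem_singleton] at hv
          rcases hv with rfl | rfl
          exacts [(m1 v hk1 α hα).1 b1.1, (m1 v hk2 β hβ).1 b2.1])
        have hmL : 2 ≤ ms M L := by
          rw [hN, ms_cons, ms_cons, ind_of_mem hz1L, ind_of_mem hz2L]
          have := ms_nonneg (α ::ₘ β ::ₘ N2) L
          omega
        have a1 := h.block hJ hL ⟨z1, hz1L⟩ hk1J (ι := 2) (by rw [e, hK]; simp) hmL hZ (by omega)
        rw [e, hK] at a1
        rcases a1 with a1 | a1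
        · exact Or.inr (Or.inr ⟨L, hL, hz1L, hz2L, by omega⟩)
        · exact Or.inl ⟨L, hL, hz1L, by push_cast at a1; omega⟩
      · have : ind β Z * ind z2 Z = 0 := by
          by_cases hh : β ∈ Z
          · rw [ind_of_notMem (fun a => b2 ⟨hh, a⟩)]; simp
          · rw [ind_of_notMem hh]; simp
        obtain ⟨_, a1⟩ := one k1 z1 hk1J hz1L hz1M (by omega)
        have a2 := h.tr s1 (singleton_nonempty k1) hL
        simp only [card_singleton] at a2
        exact Or.inl ⟨L, hL, hz1L, by omega⟩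
    · have t1 : ind α Z * ind z1 Z = 0 := by
        by_cases hh : α ∈ Z
        · rw [ind_of_notMem (fun a => b1 ⟨hh, a⟩)]; simp
        · rw [ind_of_notMem hh]; simp
      by_cases b2 : β ∈ Z ∧ z2 ∈ Z
      · have hz2L := (m2 z2 hz2).1 b2.2
        rw [ind_of_mem b2.1, ind_of_mem b2.2] at i2
        obtain ⟨_, a1⟩ := one k2 z2 (mem_inter.2 ⟨(m1 k2 hk2 β hβ).1 b2.1, by simp⟩) hz2L hz2M
          (by omega)
        exact Or.inr (Or.inl ⟨L, hL, hz2L, a1⟩)
      · have : ind β Z * ind z2 Z = 0 := by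
          by_cases hh : β ∈ Z
          · rw [ind_of_notMem (fun a => b2 ⟨hh, a⟩)]; simp
          · rw [ind_of_notMem hh]; simp
        omega
  -- two positions that are not covered by tight sets
  obtain ⟨C, hC, hm'⟩ := h.cover (fun L => L ⊆ x ∧ L.Nonempty ∧ ms M L - 1 ≤ zm p b μ L) 0
      (fun L hL => ⟨hL.1, hL.2.1, by have := hL.2.2; simp only [ms_zero]; omega⟩)
      (fun L L' hL hL' hne => ⟨union_subset hL.1 hL'.1, hL.2.1.mono subset_union_left, by
        have a1 := h.sup L (hL.1.trans h.xW) L' (hL'.1.trans h.xW)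
        have a2 := ms_inter_union M L L'
        have a3 := h.zle _ (inter_subset_left.trans hL.1 : L ∩ L' ⊆ x) hne
        have := hL.2.2
        have := hL'.2.2
        omega⟩)
      (fun hx => by have := hx.2.2; push_cast at hmx; omega)
  obtain ⟨x1, x2, N0, hN0, hx1, hx2⟩ := exists_two_of_ms (M := M) (X := x \ C) (by
    have a1 := ms_sdiff M x C
    have a2 := ms_mono M (inter_subset_right (s₁ := x) (s₂ := C))
    simp only [Multiset.card_zero] at hm'
    push_cast at hmx hm'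
    omega)
  obtain ⟨hx1x, hx1C⟩ := mem_sdiff.1 hx1
  obtain ⟨hx2x, hx2C⟩ := mem_sdiff.1 hx2
  have nt : ∀ L ⊆ x, x1 ∈ L → zm p b μ L ≤ ms M L - 2 := by
    intro L hL hxL
    by_contra hh
    exact hx1C (hC L ⟨hL, ⟨x1, hxL⟩, by omega⟩ hxL)
  have hne2 : ({k1, k2} : Finset (Finset V)).Nonempty := insert_nonempty _ _
  obtain ⟨D, hD, hm2⟩ := h.cover (fun L => L ⊆ x ∧ L.Nonempty ∧
      (ms M (({k2} : Finset (Finset V)).sup id ∪ L) - 1 ≤
        p (({k2} : Finset (Finset V)).sup id ∪ L) ∨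
      (x1 ∈ L ∧ ms M (({k1, k2} : Finset (Finset V)).sup id ∪ L) - 3 ≤
        p (({k1, k2} : Finset (Finset V)).sup id ∪ L)))) {x1}
      (fun L hL => ⟨hL.1, hL.2.1, by
        have a1 := h.tr s2 (singleton_nonempty k2) hL.1
        have a2 := h.tr subset_rfl hne2 hL.1
        have a3 := ind_nonneg x1 L
        rw [hK] at a2
        simp only [card_singleton, ms_singleton] at *
        rcases hL.2.2 with a4 | ⟨a4, a5⟩
        · omega
        · rw [ind_of_mem a4]; omega⟩)
      (fun L L' hL hL' hne => ⟨union_subset hL.1 hL'.1, hL.2.1.mono subset_union_left, by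
        have hs : L ∩ L' ⊆ x := inter_subset_left.trans hL.1
        have a2 := h.tr s2 (singleton_nonempty k2) hs
        have a3 := h.zle _ hs hne
        simp only [card_singleton] at a2
        rcases hL.2.2 with a4 | ⟨a4, a5⟩ <;> rcases hL'.2.2 with a6 | ⟨a6, a7⟩
        · have a1 := h.uncr subset_rfl s2 (singleton_nonempty k2) hL.1 hL'.1
          left; omega
        · have a1 := h.uncr s2 subset_rfl (singleton_nonempty k2) hL'.1 hL.1
          rw [inter_comm L' L, union_comm L' L] at a1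
          right; exact ⟨mem_union_right _ a6, by omega⟩
        · have a1 := h.uncr s2 subset_rfl (singleton_nonempty k2) hL.1 hL'.1
          right; exact ⟨mem_union_left _ a4, by omega⟩
        · have a1 := h.uncr subset_rfl subset_rfl hne2 hL.1 hL'.1
          have a8 := h.tr subset_rfl hne2 hs
          have a9 := nt _ hs (mem_inter.2 ⟨a4, a6⟩)
          rw [hK] at a8
          right; exact ⟨mem_union_left _ a4, by omega⟩⟩)
      (fun hx => by
        have a1 := h.tr s2 (singleton_nonempty k2) (subset_rfl : x ⊆ x)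
        simp only [card_singleton] at a1
        rcases hx.2.2 with a4 | ⟨_, a5⟩ <;> omega)
  have pair : ∀ z N, M = x1 ::ₘ z ::ₘ N → z ∈ x → z ∈ D ∧ (z ∉ C → x1 ∈ D) := by
    intro z N hN hz
    rcases key x1 z N hN hx1x hz with ⟨L, hL, a1, a2⟩ | ⟨L, hL, a1, a2⟩ | ⟨L, hL, a1, a2, a3⟩
    · have := nt L hL a1; omega
    · refine ⟨hD L ⟨hL, ⟨z, a1⟩, Or.inl a2⟩ a1, fun hh => absurd (hC L ⟨hL, ⟨z, a1⟩, ?_⟩ a1) hh⟩
      have a3 := h.tr s2 (singleton_nonempty k2) hL
      simp only [card_singleton] at a3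
      omega
    · have := hD L ⟨hL, ⟨z, a2⟩, Or.inr ⟨a1, a3⟩⟩
      exact ⟨this a2, fun _ => this a1⟩
  have hcov : ms M x ≤ ms M D := by
    refine ms_le_of_cover (fun z hzM hz => ?_)
    by_cases e : z = x1
    · rw [e]; exact (pair x2 N0 hN0 hx2x).2 hx2C
    · have : z ∈ x2 ::ₘ N0 := by
        rw [hN0] at hzM
        exact (Multiset.mem_cons.1 hzM).resolve_left e
      obtain ⟨N, hN⟩ := Multiset.exists_cons_of_mem this
      exact (pair z N (by rw [hN0, hN]) hz).1
  simp only [Multiset.card_singleton] at hm2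
  omega

end StarG

/-- hypotheses of the star lemma -/
structure StarHyp (p : Finset V → ℤ) (M : Multiset V) (b y : V) (W : Finset V)
    (T K : Finset (Finset V)) (x : Finset V) : Prop where
  cs : CS p
  hv : Valid p 0 M
  uns : ¬ Solvable p M
  mb : ms M {b} = 2
  pb : p {b} = 2
  bW : b ∉ W
  yW : y ∉ W
  yb : y ≠ b
  sp : SubP W (insert x T)
  xT : x ∉ T
  KT : K ⊆ T
  K2 : K.card ≤ 2
  tight : ∀ k ∈ T, ms M k = 1 + zb p b k
  good : ∀ k ∈ T, ms M k ≤ symmMax p k
  wn : ∀ k ∈ T, 0 ≤ zb p b k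
  mx : ms M x = zb p b x + K.card
  dle : ∀ J ⊆ T, zb p b (J.sup id ∪ x) ≤ zb p b x + ∑ k ∈ J, zb p b k + (J \ K).card
  rt : ms M (insert b (T.sup id ∪ x))ᶜ ≤ p (insert b (T.sup id ∪ x))
  rm : ms M (insert b (T.sup id ∪ x))ᶜ = 2 + zb p b x + ∑ k ∈ T, zb p b k + (T \ K).card
  bad : symmMax p (K.sup id ∪ x) ≤ zb p b x + ∑ k ∈ K, zb p b k
  zle : ∀ L ⊆ x, L.Nonempty → zb p b L ≤ ms M L - 1
  fin : Finest (zb p b) {x}

theorem StarHyp.toG {p : Finset V → ℤ} {M : Multiset V} {b y : V} {W : Finset V}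
    {T K : Finset (Finset V)} {x : Finset V} (h : StarHyp p M b y W T K x) :
    StarG 2 p M b y W T K x :=
  ⟨h.cs, h.hv, h.uns, by norm_num, h.mb, h.pb, h.bW, h.yW, h.yb, h.sp, h.xT, h.KT, h.K2, h.tight,
    h.good, h.wn, h.mx, h.dle, h.rt, h.rm, h.bad, h.zle, h.fin⟩

theorem StarHyp.star_one {p : Finset V → ℤ} {M : Multiset V} {b y : V} {W : Finset V}
    {T K : Finset (Finset V)} {x : Finset V} (h : StarHyp p M b y W T K x) (hK : K.card = 1) :
    False := h.toG.star_one hK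

theorem StarHyp.star_two {p : Finset V → ℤ} {M : Multiset V} {b y : V} {W : Finset V}
    {T K : Finset (Finset V)} {x : Finset V} (h : StarHyp p M b y W T K x) (hK : K.card = 2) :
    False := h.toG.star_two hK

end Pool.Agent.CSG

end

-- part MP_305420_co.HCls
section

/-! The class of heavy configurations that is closed under deletion and pair swaps. -/

set_option linter.unusedSectionVars false

namespace Pool.Agent.CSG.Hv

open Finset

variable {V : Type*} [Fintype V] [DecidableEq V]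

theorem subP_self {X : Finset V} {L : Finset (Finset V)} (h : SubP X L) (hX : X ∈ L) :
    L = {X} := by
  refine eq_singleton_iff_unique_mem.2 ⟨hX, fun Y hY => ?_⟩
  obtain ⟨v, hv⟩ := h.ne Y hY
  exact h.eq_of_mem hY hX hv (h.sub Y hY hv)

theorem restrict_sub {W : Finset V} {L : Finset (Finset V)} (hL : SubP W L) (X : Finset V)
    (z : Finset V → ℤ) : ∃ L', SubP X L' ∧
      val z L' = ∑ P ∈ L, (if (P ∩ X).Nonempty then 1 + z (P ∩ X) else 0) ∧
      (X ∈ L' → ∃ P ∈ L, X ⊆ P) := by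
  refine ⟨(L.filter (fun P => (P ∩ X).Nonempty)).image (· ∩ X), ⟨?_, ?_, ?_⟩, ?_, ?_⟩
  · intro Y hY
    obtain ⟨P, _, rfl⟩ := mem_image.1 hY
    exact inter_subset_right
  · intro Y hY
    obtain ⟨P, hP, rfl⟩ := mem_image.1 hY
    exact (mem_filter.1 hP).2
  · intro Y hY Y' hY' hne
    obtain ⟨P, hP, rfl⟩ := mem_image.1 hY
    obtain ⟨Q, hQ, rfl⟩ := mem_image.1 hY'
    exact (hL.disj P (mem_filter.1 hP).1 Q (mem_filter.1 hQ).1 (fun hh => hne (by rw [hh]))).mono
      inter_subset_left inter_subset_left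
  · unfold val
    rw [sum_image, sum_filter]
    intro P hP Q hQ he
    obtain ⟨a1, v, hv⟩ := mem_filter.1 (mem_coe.1 hP)
    have hv' : v ∈ Q ∩ X := by simpa [← he] using hv
    exact hL.eq_of_mem a1 (mem_filter.1 (mem_coe.1 hQ)).1 (mem_inter.1 hv).1 (mem_inter.1 hv').1
  · intro hX
    obtain ⟨P, hP, he⟩ := mem_image.1 hX
    exact ⟨P, (mem_filter.1 hP).1, by rw [← he]; exact inter_subset_left⟩

/-- the merge of the two parts joined by a deleted edge cannot be refined -/
theorem merge_finest {W : Finset V} {z : Finset V → ℤ} (hz : SupOn W z) (h0 : z ∅ = 0)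
    {S : Finset (Finset V)} (hS : SubP W S) (hf : Finest z S) {X Y : Finset V} (hX : X ∈ S)
    (hY : Y ∈ S) (hne : X ≠ Y) (hm : z (X ∪ Y) ≤ z X + z Y) {u v : V} (hu : u ∈ X) (hv : v ∈ Y)
    {L : Finset (Finset V)} (hL : SubP (X ∪ Y) L) (hn : X ∪ Y ∉ L) :
    val (fun P => z P - cut (u, v) P) L ≤ z X + z Y := by
  have hd := hS.disj X hX Y hY hne
  have hXW := hS.sub X hX
  have hYW := hS.sub Y hY
  obtain ⟨L1, a1, a2, a3⟩ := restrict_sub hL X z
  obtain ⟨L2, b1, b2, b3⟩ := restrict_sub hL Y z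
  set t : Finset V → ℤ := fun P =>
    (if (P ∩ X).Nonempty ∧ (P ∩ Y).Nonempty then 1 else 0) + cut (u, v) P with ht
  have t0 : ∀ P ∈ L, 0 ≤ t P := by
    intro P _
    have := cut_nonneg (u, v) P
    simp only [ht]; split_ifs <;> omega
  have key : val (fun P => z P - cut (u, v) P) L ≤ val z L1 + val z L2 - ∑ P ∈ L, t P := by
    rw [a2, b2, ← sum_add_distrib, ← sum_sub_distrib]
    refine sum_le_sum (fun P hP => ?_)
    have hP' := hL.sub P hP
    have hPW : P ⊆ W := hP'.trans (union_subset hXW hYW)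
    have c1 := hz P hPW X hXW
    have c2 := hz (P ∪ X) (union_subset hPW hXW) Y hYW
    have e1 : (P ∪ X) ∩ Y = P ∩ Y := by
      rw [union_inter_distrib_right, disjoint_iff_inter_eq_empty.1 hd, union_empty]
    have e2 : (P ∪ X) ∪ Y = X ∪ Y := by
      rw [union_assoc, union_eq_right.2 hP']
    rw [e1, e2] at c2
    simp only [ht]
    by_cases n1 : (P ∩ X).Nonempty <;> by_cases n2 : (P ∩ Y).Nonempty
    · simp only [n1, n2, if_true, and_self]; omega
    · have := not_nonempty_iff_eq_empty.1 n2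
      rw [this, h0] at c2
      simp only [n1, n2, if_true, if_false, and_false]; omega
    · have := not_nonempty_iff_eq_empty.1 n1
      rw [this, h0] at c1
      simp only [n1, n2, if_true, if_false, false_and]; omega
    · exfalso
      obtain ⟨w, hw⟩ := hL.ne P hP
      rcases mem_union.1 (hP' hw) with h | h
      exacts [n1 ⟨w, mem_inter.2 ⟨hw, h⟩⟩, n2 ⟨w, mem_inter.2 ⟨hw, h⟩⟩]
  have t1 : ∀ P, X ⊆ P → 1 ≤ t P := by
    intro P hP
    simp only [ht]
    by_cases n2 : (P ∩ Y).Nonempty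
    · have := cut_nonneg (u, v) P
      rw [if_pos ⟨⟨u, mem_inter.2 ⟨hP hu, hu⟩⟩, n2⟩]; omega
    · rw [if_neg (fun hh => n2 hh.2),
        cut_eq_one.2 (Or.inl ⟨hP hu, fun hh => n2 ⟨v, mem_inter.2 ⟨hh, hv⟩⟩⟩)]; omega
  have t2 : ∀ P, Y ⊆ P → 1 ≤ t P := by
    intro P hP
    simp only [ht]
    by_cases n2 : (P ∩ X).Nonempty
    · have := cut_nonneg (u, v) P
      rw [if_pos ⟨n2, ⟨v, mem_inter.2 ⟨hP hv, hv⟩⟩⟩]; omega
    · rw [if_neg (fun hh => n2 hh.1),
        cut_eq_one.2 (Or.inr ⟨fun hh => n2 ⟨u, mem_inter.2 ⟨hh, hu⟩⟩, hP hv⟩)]; omega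
  have s0 : 0 ≤ ∑ P ∈ L, t P := sum_nonneg t0
  by_cases x1 : X ∈ L1 <;> by_cases y1 : Y ∈ L2
  · obtain ⟨P, hP, hXP⟩ := a3 x1
    obtain ⟨Q, hQ, hYQ⟩ := b3 y1
    have hPQ : P ≠ Q := by
      rintro rfl
      exact hn (Subset.antisymm (hL.sub P hP) (union_subset hXP hYQ) ▸ hP)
    have c1 : ∑ R ∈ ({P, Q} : Finset (Finset V)), t R ≤ ∑ P ∈ L, t P :=
      sum_le_sum_of_subset_of_nonneg (by
        intro R hR; simp only [mem_insert, mem_singleton] at hR
        rcases hR with rfl | rfl <;> assumption) (fun R hR _ => t0 R hR)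
    rw [sum_pair hPQ] at c1
    rw [subP_self a1 x1, subP_self b1 y1, val_single, val_single] at key
    have := t1 P hXP
    have := t2 Q hYQ
    omega
  · obtain ⟨P, hP, hXP⟩ := a3 x1
    have c1 := single_le_sum t0 hP
    rw [subP_self a1 x1, val_single] at key
    have := t1 P hXP
    have := hf Y hY L2 b1 y1
    omega
  · obtain ⟨P, hP, hXP⟩ := b3 y1
    have c1 := single_le_sum t0 hP
    rw [subP_self b1 y1, val_single] at key
    have := t2 P hXP
    have := hf X hX L1 a1 x1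
    omega
  · have := hf X hX L1 a1 x1
    have := hf Y hY L2 b1 y1
    omega

theorem val_congr {z z' : Finset V → ℤ} {S : Finset (Finset V)} (h : ∀ X ∈ S, z X = z' X) :
    val z S = val z' S := sum_congr rfl (fun X hX => by rw [h X hX])

/-- residual demand with the heavy edge singled out -/
def fr (p : Finset V → ℤ) (b y : V) (G : Multiset (V × V)) (X : Finset V) : ℤ :=
  p X - cut (b, y) X - dG G X

/-- the prescribed ends -/
def mass (b y : V) (G : Multiset (V × V)) (a c d : V) : Multiset V :=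
  b ::ₘ b ::ₘ y ::ₘ a ::ₘ c ::ₘ d ::ₘ ends G

theorem ms_mass (b y : V) (G : Multiset (V × V)) (a c d : V) (X : Finset V) :
    ms (mass b y G a c d) X =
      2 * ind b X + ind y X + ind a X + ind c X + ind d X + ms (ends G) X := by
  simp only [mass, ms_cons]; ring

/-- heavy configurations -/
structure HC (p : Finset V → ℤ) (b y : V) (W : Finset V) (G : Multiset (V × V)) (a c d : V) :
    Prop where
  cs : CS p
  bW : b ∉ W
  yW : y ∉ W
  yb : y ≠ b
  ab : a ≠ b
  cb : c ≠ b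
  db : d ≠ b
  v1 : ∀ X, fr p b y G X ≤ ind a X + ind b X + ind c X + ind d X
  v2 : ∀ X, fr p b y G X ≤ 4 - (ind a X + ind b X + ind c X + ind d X)
  uns : ¬ Solvable p (mass b y G a c d)
  fb : 1 ≤ fr p b y G {b}
  nb : ∀ X, b ∈ X → a ∉ X → c ∉ X → d ∉ X → 1 ≤ fr p b y G X →
    (∀ e ∈ G, e.1 ∉ X ∧ e.2 ∉ X) ∧ (X ⊆ insert b W → X = {b})

/-- a union of parts is good -/
def Good (p : Finset V → ℤ) (b : V) (I : Finset (Finset V)) : Prop :=
  1 + ∑ X ∈ I, zb p b X ≤ symmMax p (I.sup id)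

/-- exact and finest local structure -/
structure Loc (p : Finset V → ℤ) (b : V) (W : Finset V) (G : Multiset (V × V))
    (S : Finset (Finset V)) : Prop where
  sp : SubP W S
  ex : (Multiset.card G : ℤ) + 2 ≤ val (zb p b) S
  fin : Finest (zb p b) S

/-- some union of parts together with the anchor is a member with trace `b s` -/
def Al (p : Finset V → ℤ) (b y : V) (G : Multiset (V × V)) (S : Finset (Finset V)) (s t r : V) :
    Prop :=
  ∃ J ⊆ S, s ∈ J.sup id ∧ t ∉ J.sup id ∧ r ∉ J.sup id ∧ 1 ≤ fr p b y G (insert b (J.sup id))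

theorem Al.swap {p : Finset V → ℤ} {b y : V} {G : Multiset (V × V)} {S : Finset (Finset V)}
    {s t r : V} (h : Al p b y G S s t r) : Al p b y G S s r t := by
  obtain ⟨J, h1, h2, h3, h4, h5⟩ := h
  exact ⟨J, h1, h2, h4, h3, h5⟩

namespace HC

variable {p : Finset V → ℤ} {b y : V} {W : Finset V} {G : Multiset (V × V)} {a c d : V}

theorem swap12 (h : HC p b y W G a c d) : HC p b y W G c a d :=
  ⟨h.cs, h.bW, h.yW, h.yb, h.cb, h.ab, h.db, fun X => by have := h.v1 X; omega,
    fun X => by have := h.v2 X; omega,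
    by have := h.uns; unfold mass at *; rwa [Multiset.cons_swap c a], h.fb,
    fun X h1 h2 h3 h4 => h.nb X h1 h3 h2 h4⟩

theorem swap23 (h : HC p b y W G a c d) : HC p b y W G a d c :=
  ⟨h.cs, h.bW, h.yW, h.yb, h.ab, h.db, h.cb, fun X => by have := h.v1 X; omega,
    fun X => by have := h.v2 X; omega,
    by have := h.uns; unfold mass at *; rwa [Multiset.cons_swap d c], h.fb,
    fun X h1 h2 h3 h4 => h.nb X h1 h2 h4 h3⟩

theorem sup (h : HC p b y W G a c d) {X Y : Finset V} {s t : V} (h1 : s ∈ X) (h2 : s ∈ Y)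
    (h3 : t ∉ X) (h4 : t ∉ Y) :
    fr p b y G X + fr p b y G Y ≤ fr p b y G (X ∩ Y) + fr p b y G (X ∪ Y) := by
  have a1 := h.cs.super h1 h2 h3 h4
  have a2 := cut_submod (b, y) X Y
  have a3 := dG_submod G X Y
  unfold fr; omega

theorem supe (h : HC p b y W G a c d) {X Y : Finset V} {s t : V} (h1 : s ∈ X) (h2 : s ∈ Y)
    (h3 : t ∉ X) (h4 : t ∉ Y) {u v : V} (he : (u, v) ∈ G ∨ (v, u) ∈ G) (u1 : u ∈ X) (u2 : u ∉ Y)
    (v1 : v ∈ Y) (v2 : v ∉ X) :
    fr p b y G X + fr p b y G Y + 2 ≤ fr p b y G (X ∩ Y) + fr p b y G (X ∪ Y) := by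
  have a1 := h.cs.super h1 h2 h3 h4
  have a2 := cut_submod (b, y) X Y
  have a3 : dG G (X ∩ Y) + dG G (X ∪ Y) + 2 ≤ dG G X + dG G Y := by
    rcases he with he | he
    exacts [dG_bonus1 he (Or.inl ⟨u1, u2, v1, v2⟩), dG_bonus1 he (Or.inr ⟨u1, u2, v1, v2⟩)]
  unfold fr; omega

theorem supb (h : HC p b y W G a c d) {X Y : Finset V} {s t : V} (h1 : s ∈ X) (h2 : s ∈ Y)
    (h3 : t ∉ X) (h4 : t ∉ Y) (u1 : b ∈ X) (u2 : b ∉ Y) (v1 : y ∈ Y) (v2 : y ∉ X) :
    fr p b y G X + fr p b y G Y + 2 ≤ fr p b y G (X ∩ Y) + fr p b y G (X ∪ Y) := by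
  have a1 := h.cs.super h1 h2 h3 h4
  have a2 := dG_bonus1 (G := {(b, y)}) (e := (b, y)) (by simp) (Or.inl ⟨u1, u2, v1, v2⟩)
  have a3 := dG_submod G X Y
  simp only [dG_singleton] at a2
  unfold fr; omega

theorem blk (h : HC p b y W G a c d) : ∃ N, cut (a, c) N + cut (b, d) N < fr p b y G N := by
  by_contra hh
  push Not at hh
  refine h.uns ⟨(b, y) ::ₘ (a, c) ::ₘ (b, d) ::ₘ G, ?_, fun X => ?_⟩
  · simp only [ends_cons, mass]
    simp only [← Multiset.singleton_add]; abel
  · have := hh X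
    simp only [dG_cons]
    unfold fr at this; omega

theorem top_aux (h : HC p b y W G a c d) {s t u v : V}
    (hb : ∀ Y, fr p b y G Y ≤ ind s Y + ind t Y + ind u Y + ind v Y ∧
      fr p b y G Y ≤ 4 - (ind s Y + ind t Y + ind u Y + ind v Y))
    {N : Finset V} (hN : cut (s, u) N + cut (t, v) N < fr p b y G N)
    {X : Finset V} (h1 : s ∈ X) (h2 : t ∈ X) (h3 : u ∉ X) (h4 : v ∉ X) : fr p b y G X ≤ 1 := by
  have a0 := hb N
  have a1 := hb (X ∩ N)
  have a2 := hb (X ∪ N)
  by_cases n1 : s ∈ N <;> by_cases n2 : t ∈ N <;> by_cases n3 : u ∈ N <;> by_cases n4 : v ∈ N <;>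
    simp only [cut, ind, mem_inter, mem_union, h1, h2, h3, h4, n1, n2, n3, n4] at a0 a1 a2 hN <;>
    first
    | (simp at a0 hN; omega)
    | (have := h.sup h1 n1 h4 n4; simp at a0 a1 a2 hN; omega)
    | (have := h.sup h2 n2 h3 n3; simp at a0 a1 a2 hN; omega)

theorem top (h : HC p b y W G a c d) (X : Finset V) : fr p b y G X ≤ 1 := by
  obtain ⟨N1, h1⟩ := h.blk
  obtain ⟨N2, h2⟩ := h.swap23.blk
  have a1 := h.v1 X
  have a2 := h.v2 X
  have c1 := cut_swap a c N1
  have c2 := cut_swap b d N1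
  have c3 := cut_swap a d N2
  have c4 := cut_swap b c N2
  by_cases n1 : a ∈ X <;> by_cases n2 : b ∈ X <;> by_cases n3 : c ∈ X <;> by_cases n4 : d ∈ X <;>
    first
    | (simp [ind, n1, n2, n3, n4] at a1 a2; omega)
    | exact h.top_aux (fun Y => by have := h.v1 Y; have := h.v2 Y; omega) h1 n1 n2 n3 n4
    | exact h.top_aux (s := c) (t := d) (u := a) (v := b) (N := N1)
        (fun Y => by have := h.v1 Y; have := h.v2 Y; omega) (by omega) n3 n4 n1 n2
    | exact h.top_aux (s := a) (t := d) (u := c) (v := b) (N := N1)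
        (fun Y => by have := h.v1 Y; have := h.v2 Y; omega) (by omega) n1 n4 n3 n2
    | exact h.top_aux (s := c) (t := b) (u := a) (v := d) (N := N1)
        (fun Y => by have := h.v1 Y; have := h.v2 Y; omega) (by omega) n3 n2 n1 n4
    | exact h.top_aux (s := a) (t := c) (u := d) (v := b) (N := N2)
        (fun Y => by have := h.v1 Y; have := h.v2 Y; omega) (by omega) n1 n3 n4 n2
    | exact h.top_aux (s := d) (t := b) (u := a) (v := c) (N := N2)
        (fun Y => by have := h.v1 Y; have := h.v2 Y; omega) (by omega) n4 n2 n1 n3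

theorem all4 (h : HC p b y W G a c d) {X : Finset V} (h1 : a ∈ X) (h2 : b ∈ X) (h3 : c ∈ X)
    (h4 : d ∈ X) : fr p b y G X ≤ 0 := by
  have := h.v2 X
  simpa [ind, h1, h2, h3, h4] using this

theorem none4 (h : HC p b y W G a c d) {X : Finset V} (h1 : a ∉ X) (h2 : b ∉ X) (h3 : c ∉ X)
    (h4 : d ∉ X) : fr p b y G X ≤ 0 := by
  have := h.v1 X
  simpa [ind, h1, h2, h3, h4] using this

theorem off (h : HC p b y W G a c d) {e : V × V} (he : e ∈ G) : e.1 ≠ b ∧ e.2 ≠ b := by
  have := (h.nb {b} (by simp) (by simpa using h.ab) (by simpa using h.cb) (by simpa using h.db)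
    h.fb).1 e he
  simpa using this

theorem ends_ne (h : HC p b y W G a c d) {v : V} (hv : v ∈ ends G) : v ≠ b := by
  unfold ends at hv
  simp only [Multiset.mem_add, Multiset.mem_map] at hv
  rcases hv with ⟨e, he, rfl⟩ | ⟨e, he, rfl⟩
  exacts [(h.off he).1, (h.off he).2]

theorem dG_insert (h : HC p b y W G a c d) (X : Finset V) : dG G (insert b X) = dG G X := by
  unfold dG
  refine congrArg _ (Multiset.map_congr rfl (fun e he => ?_))
  have := h.off he
  simp [cut, this.1, this.2]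

theorem zb_eq (h : HC p b y W G a c d) {X : Finset V} (hX : X ⊆ W) :
    zb p b X = fr p b y G (insert b X) + dG G X - 1 := by
  have : cut (b, y) (insert b X) = 1 := cut_eq_one.2 (Or.inl ⟨mem_insert_self _ _, by
    simp only [mem_insert, not_or]; exact ⟨h.yb, fun hh => h.yW (hX hh)⟩⟩)
  unfold zb fr
  rw [h.dG_insert, this]; ring

theorem z0 (h : HC p b y W G a c d) : zb p b ∅ = 0 := by
  have a1 := h.zb_eq (empty_subset W)
  have a2 := h.fb
  have a3 := h.top {b}
  rw [insert_empty_eq, dG_empty] at a1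
  omega

theorem pb (h : HC p b y W G a c d) : p {b} = 2 := by
  have := h.z0
  unfold zb at this
  rw [insert_empty_eq] at this
  omega

theorem zsup (h : HC p b y W G a c d) : SupOn W (zb p b) := zb_supOn h.cs h.yW h.yb

theorem hv (h : HC p b y W G a c d) : Valid p 0 (mass b y G a c d) := by
  intro X
  have a1 := h.v1 X
  have a2 := h.v2 Xᶜ
  have a3 := dG_le_ms G X
  have a4 := cut_le_ind (b, y) X
  simp only [ind_compl] at a2
  unfold fr at a1 a2
  rw [cut_compl, dG_compl] at a2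
  rw [dG_zero, ms_mass]
  simp only at a4
  omega

/-- no terminal-free nonempty set gives a member -/
theorem free (h : HC p b y W G a c d) {X : Finset V} (hX : X ⊆ W) (hne : X.Nonempty) (h1 : a ∉ X)
    (h3 : c ∉ X) (h4 : d ∉ X) : fr p b y G (insert b X) ≤ 0 := by
  by_contra hh
  have := (h.nb (insert b X) (mem_insert_self _ _) (by simp [h.ab, h1]) (by simp [h.cb, h3])
    (by simp [h.db, h4]) (by omega)).2 (insert_subset_insert _ hX)
  obtain ⟨v, hv⟩ := hne
  have h5 : v ∈ ({b} : Finset V) := this ▸ mem_insert_of_mem hv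
  exact h.bW (mem_singleton.1 h5 ▸ hX hv)

theorem zle (h : HC p b y W G a c d) {X : Finset V} (hX : X ⊆ W) (hne : X.Nonempty) :
    zb p b X ≤ ms (mass b y G a c d) X - 1 := by
  rw [h.zb_eq hX, ms_mass]
  have a1 := dG_le_ms G X
  have a2 := h.top (insert b X)
  have a3 := ind_nonneg b X
  have a4 := ind_nonneg y X
  by_cases h1 : a ∈ X <;> by_cases h3 : c ∈ X <;> by_cases h4 : d ∈ X <;>
    first
    | (have := h.free hX hne h1 h3 h4; simp only [ind_of_notMem, h1, h3, h4, not_false_eq_true]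
       omega)
    | (simp only [ind, h1, h3, h4, if_true, if_false] at *; omega)

theorem cnt_aux (h : HC p b y W G a c d) {G1 G2 : Multiset (V × V)} (hG : G = G1 + G2)
    {L : Finset (Finset V)} (hL : SubP W L) (hun : ∀ e ∈ G2, ∀ X ∈ L, cut e X = 0) :
    val (zb p b) L ≤ Multiset.card G1 + 2 := by
  have e : zt (fun X => zb p b X - dG ((a, d) ::ₘ (c, d) ::ₘ G) X)
      (((a, d) ::ₘ (c, d) ::ₘ G1) + G2) = zb p b := by
    funext X
    simp only [zt, hG, dG_cons, dG_add]; ring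
  have := cnt (W := W) (φ := fun X => zb p b X - dG ((a, d) ::ₘ (c, d) ::ₘ G) X)
    (by simp [h.z0, dG_empty]) (fun X hX hne => by
      rw [h.zb_eq hX]
      simp only [dG_cons]
      have a2 := h.top (insert b X)
      by_cases h1 : a ∈ X <;> by_cases h3 : c ∈ X <;> by_cases h4 : d ∈ X <;>
        first
        | (have := h.free hX hne h1 h3 h4; simp [cut, h1, h3, h4]; omega)
        | (have := h.all4 (mem_insert_of_mem h1) (mem_insert_self b X) (mem_insert_of_mem h3)
            (mem_insert_of_mem h4); simp [cut, h1, h3, h4]; omega)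
        | (simp [cut, h1, h3, h4]; omega))
    ((a, d) ::ₘ (c, d) ::ₘ G1) G2 (by rw [e]; exact h.zsup) hL hun
  rw [e] at this
  simp only [Multiset.card_cons] at this
  push_cast at this
  omega

theorem cnt1 (h : HC p b y W G a c d) {L : Finset (Finset V)} (hL : SubP W L) :
    val (zb p b) L ≤ Multiset.card G + 2 :=
  h.cnt_aux (G2 := 0) (by simp) hL (by simp)

theorem low (h : HC p b y W G a c d) {J : Finset (Finset V)} (hJ : SubP W J) :
    ∑ k ∈ J, zb p b k ≤ zb p b (J.sup id) := sum_le_sup h.zsup h.z0 hJ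

theorem alpha_aux (h : HC p b y W G a c d) {S : Finset (Finset V)} (hS : Loc p b W G S) :
    Al p b y G S c a d ∨ Al p b y G S d a c := by
  by_contra hh
  rw [not_or] at hh
  have key : ∀ t, (∀ J ⊆ S, J.Nonempty →
      fr p b y G (insert b (J.sup id)) ≤ cut (a, t) (J.sup id)) → False := by
    intro t ht
    have := star_count S (zb p b) hS.sp.disj ((a, t) ::ₘ G) (fun I hI hne => by
      have a1 := h.low (hS.sp.subset hI)
      rw [h.zb_eq (hS.sp.subset hI).sup_subset] at a1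
      have a2 := ht I hI hne
      rw [dG_cons]; omega)
    have a3 := hS.ex
    unfold val at a3
    rw [Multiset.card_cons] at this
    push_cast at this
    omega
  have gen : ∀ J ⊆ S, J.Nonempty → 1 ≤ fr p b y G (insert b (J.sup id)) →
      (a ∈ J.sup id ∧ (c ∉ J.sup id ∨ d ∉ J.sup id)) ∨
        (a ∉ J.sup id ∧ c ∈ J.sup id ∧ d ∈ J.sup id) := by
    intro J hJ hne hf
    have hW := (hS.sp.subset hJ).sup_subset
    obtain ⟨P, hP⟩ := hne
    obtain ⟨v, hv⟩ := hS.sp.ne P (hJ hP)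
    by_cases h1 : a ∈ J.sup id <;> by_cases h3 : c ∈ J.sup id <;> by_cases h4 : d ∈ J.sup id
    · have := h.all4 (mem_insert_of_mem h1) (mem_insert_self b _) (mem_insert_of_mem h3)
        (mem_insert_of_mem h4)
      omega
    · tauto
    · tauto
    · tauto
    · tauto
    · exact absurd ⟨J, hJ, h3, h1, h4, hf⟩ hh.1
    · exact absurd ⟨J, hJ, h4, h1, h3, hf⟩ hh.2
    · have := h.free hW ⟨v, part_subset_sup hP hv⟩ h1 h3 h4
      omega
  by_cases hd : ∃ J ⊆ S, a ∈ J.sup id ∧ c ∈ J.sup id ∧ 1 ≤ fr p b y G (insert b (J.sup id))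
  · obtain ⟨J0, j1, j2, j3, j4⟩ := hd
    refine key d (fun J hJ hne => ?_)
    have a1 := h.top (insert b (J.sup id))
    have a2 := cut_nonneg (a, d) (J.sup id)
    by_contra hlt
    have hf : 1 ≤ fr p b y G (insert b (J.sup id)) := by omega
    have hd' : d ∉ J.sup id := by
      intro hd'
      have b1 := h.sup (X := insert b (J0.sup id)) (Y := insert b (J.sup id)) (t := y)
        (mem_insert_self _ _) (mem_insert_self _ _)
        (by
          simp only [mem_insert, not_or]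
          exact ⟨h.yb, fun hh => h.yW ((hS.sp.subset j1).sup_subset hh)⟩)
        (by
          simp only [mem_insert, not_or]
          exact ⟨h.yb, fun hh => h.yW ((hS.sp.subset hJ).sup_subset hh)⟩)
      have b2 := h.top (insert b (J0.sup id) ∩ insert b (J.sup id))
      have b3 := h.all4 (X := insert b (J0.sup id) ∪ insert b (J.sup id))
        (mem_union_left _ (mem_insert_of_mem j2)) (mem_union_left _ (mem_insert_self _ _))
        (mem_union_left _ (mem_insert_of_mem j3)) (mem_union_right _ (mem_insert_of_mem hd'))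
      omega
    rcases gen J hJ hne hf with ⟨g1, _⟩ | ⟨_, _, g3⟩
    · have := cut_eq_one.2 (Or.inl ⟨g1, hd'⟩ : _ ∨ ((a, d).1 ∉ J.sup id ∧ (a, d).2 ∈ J.sup id))
      omega
    · exact hd' g3
  · refine key c (fun J hJ hne => ?_)
    have a1 := h.top (insert b (J.sup id))
    have a2 := cut_nonneg (a, c) (J.sup id)
    by_contra hlt
    have hf : 1 ≤ fr p b y G (insert b (J.sup id)) := by omega
    rcases gen J hJ hne hf with ⟨g1, _⟩ | ⟨g1, g2, _⟩
    · have := cut_eq_one.2 (Or.inl ⟨g1, fun hh => hd ⟨J, hJ, g1, hh, hf⟩⟩ :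
        _ ∨ ((a, c).1 ∉ J.sup id ∧ (a, c).2 ∈ J.sup id))
      omega
    · have := cut_eq_one.2 (Or.inr ⟨g1, g2⟩ :
        ((a, c).1 ∈ J.sup id ∧ (a, c).2 ∉ J.sup id) ∨ _)
      omega

/-- the letters can be chosen such that `a` and `c` carry members -/
theorem letters (h : HC p b y W G a c d) {S : Finset (Finset V)} (hS : Loc p b W G S) :
    ∃ a' c' d', HC p b y W G a' c' d' ∧ Al p b y G S a' c' d' ∧ Al p b y G S c' a' d' := by
  have h1 := h.alpha_aux hS
  have h2 := h.swap12.alpha_aux hS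
  have h3 := h.swap23.swap12.alpha_aux hS
  rcases h1 with h1 | h1
  · rcases h2 with h2 | h2
    · exact ⟨a, c, d, h, h2, h1⟩
    · exact ⟨c, d, a, h.swap12.swap23, h1.swap, h2⟩
  · rcases h3 with h3 | h3
    · exact ⟨a, d, c, h.swap23, h3, h1⟩
    · exact ⟨c, d, a, h.swap12.swap23, h3, h1.swap⟩

theorem delete {e : V × V} (h : HC p b y W (e ::ₘ G) a c d) :
    HC (fun X => p X - dG {e} X) b y W G a c d := by
  have e1 : ∀ X, fr (fun X => p X - dG {e} X) b y G X = fr p b y (e ::ₘ G) X := by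
    intro X; simp only [fr, dG_cons, dG_singleton]; ring
  refine ⟨h.cs.sub_dG _, h.bW, h.yW, h.yb, h.ab, h.cb, h.db, fun X => e1 X ▸ h.v1 X,
    fun X => e1 X ▸ h.v2 X, fun hs => h.uns ?_, e1 _ ▸ h.fb, fun X h1 h2 h3 h4 h5 => ?_⟩
  · have := Solvable.add {e} hs
    convert this using 1
    rw [← Multiset.cons_zero e]
    simp only [ends_cons, mass, ends_zero]
    simp only [← Multiset.singleton_add]; abel
  · obtain ⟨a1, a2⟩ := h.nb X h1 h2 h3 h4 (e1 X ▸ h5)
    exact ⟨fun g hg => a1 g (Multiset.mem_cons_of_mem hg), a2⟩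

end HC

/-- local to global for a given number of edges -/
def LG (b y : V) (W : Finset V) (n : ℕ) : Prop :=
  ∀ (p : Finset V → ℤ) (G : Multiset (V × V)) (a c d : V) (S : Finset (Finset V)),
    Multiset.card G = n → HC p b y W G a c d → Loc p b W G S →
      ∀ I ⊆ S, I.Nonempty → Good p b I

theorem symmMax_mono {p p' : Finset V → ℤ} (h : ∀ X, p' X ≤ p X) (X : Finset V) :
    symmMax p' X ≤ symmMax p X := max_le_max (h _) (h _)

namespace HC

variable {p : Finset V → ℤ} {b y : V} {W : Finset V} {G : Multiset (V × V)} {a c d : V}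

theorem del_root {e : V × V} (h : HC p b y W (e ::ₘ G) a c d)
    (ih : LG b y W (Multiset.card G)) {S : Finset (Finset V)} (hS : Loc p b W (e ::ₘ G) S)
    {X : Finset V} (hX : X ∈ S) (hc : cut e X = 1) (ho : ∀ Y ∈ S, Y ≠ X → ∀ L ⊆ Y, cut e L = 0)
    {I : Finset (Finset V)} (hI : I ⊆ S) (hne : I.Nonempty) (hXI : X ∉ I) : Good p b I := by
  have hz : ∀ Y, zb (fun X => p X - dG {e} X) b Y = zb p b Y - cut e Y := by
    intro Y
    have := h.off (Multiset.mem_cons_self e G)
    simp only [zb, dG_singleton]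
    have : cut e (insert b Y) = cut e Y := by simp [cut, this.1, this.2]
    omega
  obtain ⟨L, l1, l2, l3⟩ := exists_finest (zb (fun X => p X - dG {e} X) b)
    (SubP.single (subset_refl X) (hS.sp.ne X hX))
  obtain ⟨r1, r2⟩ := hS.sp.refine hX l1 (zb (fun X => p X - dG {e} X) b)
  have hv : val (zb (fun X => p X - dG {e} X) b) (S.erase X) = val (zb p b) (S.erase X) :=
    val_congr (fun Y hY => by
      rw [hz, ho Y (mem_of_mem_erase hY) (ne_of_mem_erase hY) Y subset_rfl]; simp)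
  rw [val_erase _ hX, val_erase _ hX] at hv
  rw [val_single, hz, hc] at l2
  have hI' : I ⊆ S.erase X := fun Y hY => mem_erase.2 ⟨fun hh => hXI (hh ▸ hY), hI hY⟩
  have := ih _ G a c d (S.erase X ∪ L) rfl h.delete ⟨r1, by
    have := hS.ex
    rw [Multiset.card_cons] at this
    push_cast at this
    omega, fun Y hY L' hL' hn => by
      rcases mem_union.1 hY with hY | hY
      · have a1 := ho Y (mem_of_mem_erase hY) (ne_of_mem_erase hY)
        rw [val_congr (z' := zb p b) (fun P hP => by rw [hz, a1 P (hL'.sub P hP)]; simp), hz,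
          a1 Y subset_rfl]
        have := hS.fin Y (mem_of_mem_erase hY) L' hL' hn
        omega
      · exact l3 Y hY L' hL' hn⟩ I (hI'.trans subset_union_left) hne
  unfold Good at this ⊢
  rw [sum_congr rfl (g := zb p b) (fun Y hY => by
    rw [hz, ho Y (hI hY) (fun hh => hXI (hh ▸ hY)) Y subset_rfl]; simp)] at this
  exact this.trans (symmMax_mono (fun Y => by have := dG_nonneg {e} Y; omega) _)

theorem del_merge {u v : V} {e : V × V} (he : e = (u, v) ∨ e = (v, u))
    (h : HC p b y W (e ::ₘ G) a c d)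
    (ih : LG b y W (Multiset.card G)) {S : Finset (Finset V)} (hS : Loc p b W (e ::ₘ G) S)
    {X Y : Finset V} (hX : X ∈ S) (hY : Y ∈ S) (hXY : X ≠ Y) (hu : u ∈ X) (hv : v ∈ Y)
    {I : Finset (Finset V)} (hI : I ⊆ S) (hne : I.Nonempty) (hXI : X ∈ I ↔ Y ∈ I) :
    Good p b I := by
  have hce : ∀ P, cut e P = cut (u, v) P := by
    intro P; rcases he with rfl | rfl
    exacts [rfl, cut_swap _ _ _]
  have hz : ∀ P, zb (fun X => p X - dG {e} X) b P = zb p b P - cut (u, v) P := by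
    intro P
    have := h.off (Multiset.mem_cons_self e G)
    simp only [zb, dG_singleton]
    have : cut e (insert b P) = cut e P := by simp [cut, this.1, this.2]
    rw [this, hce]; ring
  obtain ⟨m1, m2⟩ := merge_parts h.zsup h.z0 hS.sp hX hY hXY
  set S0 := (S.erase X).erase Y with hS0
  have hS0S : S0 ⊆ S := (erase_subset _ _).trans (erase_subset _ _)
  have ho : ∀ P ∈ S0, ∀ L ⊆ P, cut (u, v) L = 0 := by
    intro P hP L hL
    obtain ⟨a1, a2⟩ := mem_erase.1 hP
    obtain ⟨a3, a4⟩ := mem_erase.1 a2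
    exact cut_eq_zero.2 ⟨fun hh => absurd (hS.sp.eq_of_mem a4 hX (hL hh) hu) a3,
      fun hh => absurd (hS.sp.eq_of_mem a4 hY (hL hh) hv) a1⟩
  have hm : cut (u, v) (X ∪ Y) = 0 :=
    cut_eq_zero.2 ⟨fun _ => mem_union_right _ hv, fun _ => mem_union_left _ hu⟩
  have hall : ∀ P ∈ S0 ∪ {X ∪ Y}, cut (u, v) P = 0 := by
    intro P hP
    rcases mem_union.1 hP with hP | hP
    exacts [ho P hP P subset_rfl, mem_singleton.1 hP ▸ hm]
  have hv1 : val (zb (fun X => p X - dG {e} X) b) (S0 ∪ {X ∪ Y}) = val (zb p b) (S0 ∪ {X ∪ Y}) :=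
    val_congr (fun P hP => by rw [hz, hall P hP]; simp)
  have hub := h.delete.cnt1 m1
  have hex := hS.ex
  rw [Multiset.card_cons] at hex
  push_cast at hex
  have hn0 : X ∪ Y ∉ S0 := by
    intro hh
    have := hS.sp.eq_of_mem (hS0S hh) hX (mem_union_left _ hu) hu
    exact (mem_erase.1 (mem_erase.1 hh).2).1 this
  have hsum : val (zb p b) (S0 ∪ {X ∪ Y}) = val (zb p b) S - (1 + zb p b X) - (1 + zb p b Y) +
      (1 + zb p b (X ∪ Y)) := by
    have : val (zb p b) (S0 ∪ {X ∪ Y}) = val (zb p b) S0 + (1 + zb p b (X ∪ Y)) := by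
      unfold val
      rw [sum_union (by simpa using hn0), sum_singleton]
    rw [this, hS0, val_erase _ (mem_erase.2 ⟨hXY.symm, hY⟩), val_erase _ hX]
  have hub0 := h.cnt1 hS.sp
  rw [Multiset.card_cons] at hub0
  push_cast at hub0
  have hloc : Loc (fun X => p X - dG {e} X) b W G (S0 ∪ {X ∪ Y}) := ⟨m1, by omega,
    fun P hP L' hL' hn => by
      rcases mem_union.1 hP with hP | hP
      · have a1 := ho P hP
        rw [val_congr (z' := zb p b) (fun Q hQ => by rw [hz, a1 Q (hL'.sub Q hQ)]; simp), hz,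
          a1 P subset_rfl]
        have := hS.fin P (hS0S hP) L' hL' hn
        omega
      · rw [mem_singleton.1 hP] at hL' hn ⊢
        have := merge_finest h.zsup h.z0 hS.sp hS.fin hX hY hXY (by omega) hu hv hL' hn
        rw [val_congr (fun Q _ => hz Q), hz, hm]
        omega⟩
  have mono := symmMax_mono (p := p) (p' := fun X => p X - dG {e} X)
    (fun Y => by have := dG_nonneg {e} Y; omega)
  by_cases hXI' : X ∈ I
  · have hYI := hXI.1 hXI'
    have hsub : (I.erase X).erase Y ⊆ S0 := erase_subset_erase _ (erase_subset_erase _ hI)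
    have := ih _ G a c d _ rfl h.delete hloc ((I.erase X).erase Y ∪ {X ∪ Y})
      (union_subset_union hsub subset_rfl) ⟨X ∪ Y, by simp⟩
    unfold Good at this ⊢
    rw [sum_congr rfl (g := zb p b) (fun P hP => by
      rw [hz, hall P (union_subset_union hsub subset_rfl hP)]; simp),
      sum_union (by simpa using fun _ _ hh => hn0 (hsub (by simp [*]))), sum_singleton] at this
    have e1 : ((I.erase X).erase Y ∪ {X ∪ Y}).sup id = I.sup id := by
      ext w
      simp only [mem_sup_id]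
      constructor
      · rintro ⟨P, hP, hw⟩
        rcases mem_union.1 hP with hP | hP
        · exact ⟨P, mem_of_mem_erase (mem_of_mem_erase hP), hw⟩
        · rw [mem_singleton.1 hP] at hw
          rcases mem_union.1 hw with hw | hw
          exacts [⟨X, hXI', hw⟩, ⟨Y, hYI, hw⟩]
      · rintro ⟨P, hP, hw⟩
        by_cases a1 : P = X
        · exact ⟨X ∪ Y, by simp, mem_union_left _ (a1 ▸ hw)⟩
        by_cases a2 : P = Y
        · exact ⟨X ∪ Y, by simp, mem_union_right _ (a2 ▸ hw)⟩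
        exact ⟨P, mem_union_left _ (mem_erase.2 ⟨a2, mem_erase.2 ⟨a1, hP⟩⟩), hw⟩
    rw [e1] at this
    have a1 := add_sum_erase I (zb p b) hXI'
    have a2 := add_sum_erase (I.erase X) (zb p b) (mem_erase.2 ⟨hXY.symm, hYI⟩)
    have a3 := mono (I.sup id)
    omega
  · have hYI : Y ∉ I := fun hh => hXI' (hXI.2 hh)
    have hsub : I ⊆ S0 := fun P hP => mem_erase.2 ⟨fun hh => hYI (hh ▸ hP),
      mem_erase.2 ⟨fun hh => hXI' (hh ▸ hP), hI hP⟩⟩
    have := ih _ G a c d _ rfl h.delete hloc I (hsub.trans subset_union_left) hne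
    unfold Good at this ⊢
    rw [sum_congr rfl (g := zb p b) (fun P hP => by
      rw [hz, ho P (hsub hP) P subset_rfl]; simp)] at this
    exact this.trans (mono _)

/-- **Deletion.** A union that does not cut some edge is good. -/
theorem del {e : V × V} (h : HC p b y W (e ::ₘ G) a c d)
    (ih : LG b y W (Multiset.card G)) {S : Finset (Finset V)} (hS : Loc p b W (e ::ₘ G) S)
    {I : Finset (Finset V)} (hI : I ⊆ S) (hne : I.Nonempty) (hc : cut e (I.sup id) = 0) :
    Good p b I := by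
  have hcut : ∃ X ∈ S, cut e X = 1 := by
    by_contra hh
    have := h.cnt_aux (G1 := G) (G2 := {e}) (by rw [add_comm]; rfl) hS.sp (fun g hg X hX => by
      rw [Multiset.mem_singleton.1 hg]
      exact (cut_zero_or_one e X).resolve_right (fun h1 => hh ⟨X, hX, h1⟩))
    have a := hS.ex
    rw [Multiset.card_cons] at a
    push_cast at a
    omega
  obtain ⟨X, hX, hX1⟩ := hcut
  obtain ⟨u, v, he, hu, hv, hiff⟩ : ∃ u v, (e = (u, v) ∨ e = (v, u)) ∧ u ∈ X ∧ v ∉ X ∧
      (u ∈ I.sup id ↔ v ∈ I.sup id) := by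
    rcases cut_eq_one.1 hX1 with ⟨a1, a2⟩ | ⟨a1, a2⟩
    · exact ⟨e.1, e.2, Or.inl rfl, a1, a2, cut_eq_zero.1 hc⟩
    · exact ⟨e.2, e.1, Or.inr rfl, a2, a1, (cut_eq_zero.1 hc).symm⟩
  have mem : ∀ P ∈ S, ∀ w ∈ P, (w ∈ I.sup id ↔ P ∈ I) := by
    intro P hP w hw
    refine ⟨fun hh => ?_, fun hh => part_subset_sup hh hw⟩
    obtain ⟨Q, hQ, hw'⟩ := mem_sup_id.1 hh
    exact hS.sp.eq_of_mem (hI hQ) hP hw' hw ▸ hQ
  by_cases hcov : Cov S v
  · obtain ⟨Y, hY, hvY⟩ := hcov
    exact h.del_merge he ih hS hX hY (fun hh => hv (hh ▸ hvY)) hu hvY hI hne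
      (by rw [← mem X hX u hu, ← mem Y hY v hvY]; exact hiff)
  · refine h.del_root ih hS hX hX1 (fun Y hY hYX L hL => ?_) hI hne (fun hh => hcov ?_)
    · have a1 : u ∉ L := fun hh => hYX (hS.sp.eq_of_mem hY hX (hL hh) hu)
      have a2 : v ∉ L := fun hh => hcov ⟨Y, hY, hL hh⟩
      rcases he with rfl | rfl <;> simp [cut, a1, a2]
    · obtain ⟨Q, hQ, hw'⟩ := mem_sup_id.1 (hiff.1 (part_subset_sup hh hu))
      exact ⟨Q, hI hQ, hw'⟩

end HC

end Pool.Agent.CSG.Hv

end
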