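import Pool.Agent.MP_305420_co.Mg.AncBase
import Pool.Agent.MP_305420_co.Mg.HCert
import Pool.Agent.MP_305420_co.Mg.HCls
import Mathlib

-- part MP_305420_co.HLoc
section

/-! Local exactness in the heavy case. -/

set_option linter.unusedSectionVars false

namespace Pool.Agent.CSG

open Finset

variable {V : Type*} [Fintype V] [DecidableEq V] {p : Finset V → ℤ} {G : Multiset (V × V)}
  {a b c d : V}

/-- neighbours of `b` -/
def nbr (G : Multiset (V × V)) (b : V) : Finset V :=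
  univ.filter (fun y => (b, y) ∈ G ∨ (y, b) ∈ G)

theorem mem_nbr {y : V} : y ∈ nbr G b ↔ (b, y) ∈ G ∨ (y, b) ∈ G := by simp [nbr]

theorem mem_far {y : V} : y ∈ farSet G b ↔ y ≠ b ∧ y ∉ nbr G b := by
  simp [farSet, mem_nbr]

theorem off_le (G : Multiset (V × V)) (b : V) : offEdges G b ≤ G := Multiset.filter_le _ _

theorem mem_off {e : V × V} : e ∈ offEdges G b ↔ e ∈ G ∧ e.1 ≠ b ∧ e.2 ≠ b := by
  simp [offEdges]

theorem dG_insert_far {X : Finset V} (hX : X ⊆ farSet G b) :
    dG G (insert b X) = dG G {b} + dG (offEdges G b) X := by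
  have key : ∀ H : Multiset (V × V), H ≤ G →
      dG H (insert b X) = dG H {b} + dG (offEdges H b) X := by
    intro H
    induction H using Multiset.induction_on with
    | empty => simp [offEdges]
    | cons e H ih =>
      intro hle
      have ih' := ih ((Multiset.le_cons_self _ _).trans hle)
      have he : e ∈ G := Multiset.mem_of_le hle (Multiset.mem_cons_self _ _)
      obtain ⟨u, v⟩ := e
      unfold offEdges at ih' ⊢
      rw [Multiset.filter_cons]
      have hb : b ∉ X := fun h => (mem_far.1 (hX h)).1 rfl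
      by_cases h1 : u = b
      · subst h1
        have hv : v ∉ X := fun h => (mem_far.1 (hX h)).2 (mem_nbr.2 (Or.inl he))
        simp only [dG_cons, ih', ne_eq, not_true_eq_false, false_and, if_false, zero_add]
        by_cases h2 : v = u
        · simp [cut, h2]
        · simp [cut, h2, hv]; ring
      by_cases h2 : v = b
      · subst h2
        have hu : u ∉ X := fun h => (mem_far.1 (hX h)).2 (mem_nbr.2 (Or.inr he))
        simp only [dG_cons, ih', ne_eq, not_true_eq_false, and_false, if_false, zero_add]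
        simp [cut, h1, hu]; ring
      · simp only [dG_cons, ih', ne_eq, h1, h2, not_false_eq_true, and_self, if_true, dG_add,
          dG_singleton]
        simp [cut, h1, h2]; ring
  exact key G le_rfl

namespace HState

theorem zeta (h : HState p G a b c d) {X : Finset V} (hX : X ⊆ farSet G b) :
    p (insert b X) - p {b} = rs p G (insert b X) + dG (offEdges G b) X - 1 := by
  have h1 := h.sb
  have h2 := dG_insert_far hX
  unfold rs at h1 ⊢
  omega

theorem nbr_ne (h : HState p G a b c d) : (nbr G b).Nonempty := by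
  obtain ⟨⟨u, v⟩, he, h1 | h1⟩ := h.heavy
  · simp only at h1; subst h1; exact ⟨v, mem_nbr.2 (Or.inl he)⟩
  · simp only at h1; subst h1; exact ⟨u, mem_nbr.2 (Or.inr he)⟩

theorem b_not_nbr (h : HState p G a b c d) : b ∉ nbr G b := by
  intro hb
  rcases mem_nbr.1 hb with h1 | h1 <;> exact h.noloop _ h1 rfl

theorem supOn (h : HState p G a b c d) :
    SupOn (farSet G b) (fun X => p (insert b X) - p {b}) := by
  intro X hX Y hY
  obtain ⟨y, hy⟩ := h.nbr_ne
  have hyb : y ≠ b := fun e => h.b_not_nbr (e ▸ hy)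
  have := h.cs.super (X := insert b X) (Y := insert b Y) (a := b) (d := y) (by simp) (by simp)
    (by simp [hyb]; exact fun hh => (mem_far.1 (hX hh)).2 hy)
    (by simp [hyb]; exact fun hh => (mem_far.1 (hY hh)).2 hy)
  rw [← insert_inter_distrib, ← insert_union_distrib] at this
  simp only
  omega

theorem free_le (h : HState p G a b c d) {X : Finset V} (hX : X ⊆ farSet G b) (hne : X.Nonempty)
    (ha : a ∉ X) (hc : c ∉ X) (hd : d ∉ X) : rs p G (insert b X) ≤ 0 := by
  by_contra hh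
  have h1 := h.top (insert b X)
  rcases (h.ancb (insert b X) (by simp) (by simp [h.ab, ha]) (by simp [h.bc.symm, hc])
    (by simp [h.bd.symm, hd]) (by omega)).2 with h2 | ⟨v, v1, v2, v3⟩
  · obtain ⟨x, hx⟩ := hne
    have : x ∈ ({b} : Finset V) := h2 ▸ mem_insert_of_mem hx
    exact (mem_far.1 (hX hx)).1 (mem_singleton.1 this)
  · exact (mem_far.1 (hX ((mem_insert.1 v1).resolve_left v2))).2 (mem_nbr.2 v3)

/-- an edge between the two differences -/
theorem edge_bonus (h : HState p G a b c d) {X Y : Finset V} {z w y : V} (z1 : z ∈ X) (z2 : z ∈ Y)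
    (w1 : w ∉ X) (w2 : w ∉ Y) (hy : y ∈ nbr G b) (b1 : b ∈ X) (b2 : b ∉ Y) (y1 : y ∈ Y)
    (y2 : y ∉ X) : rs p G X + rs p G Y ≤ 0 := by
  have t1 := h.top (X ∩ Y)
  have t2 := h.top (X ∪ Y)
  rcases mem_nbr.1 hy with e | e
  · have := h.cs.rs_bonus (Multiset.singleton_le.2 e) z1 z2 w1 w2
      (by simp [sepE, b1, b2, y1, y2])
    simp at this; omega
  · have := h.cs.rs_bonus (Multiset.singleton_le.2 e) z1 z2 w1 w2
      (by simp [sepE, b1, b2, y1, y2])
    simp at this; omega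

theorem members (h : HState p G a b c d) :
    (∃ X, ((a ∈ X ∧ b ∈ X) ∧ c ∉ X ∧ d ∉ X ∧ ∀ y ∈ nbr G b, y ∉ X) ∧ 1 ≤ rs p G X) ∧
    (∃ X, ((b ∈ X ∧ c ∈ X) ∧ a ∉ X ∧ d ∉ X ∧ ∀ y ∈ nbr G b, y ∉ X) ∧ 1 ≤ rs p G X) ∧
    (∃ X, ((a ∈ X ∧ c ∈ X) ∧ b ∉ X ∧ d ∉ X ∧ ∀ y ∈ nbr G b, y ∉ X) ∧ 1 ≤ rs p G X) := by
  obtain ⟨Y, y1, y2, y3, y4, y5⟩ := h.mac
  obtain ⟨X, x1, x2, x3, x4, x5⟩ := h.mbc
  have hab := h.sab
  have c1 : c ∉ ({a, b} : Finset V) := by simp [h.ac.symm, h.bc.symm]
  have d1 : d ∉ ({a, b} : Finset V) := by simp [h.ad.symm, h.bd.symm]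
  have na : a ∉ nbr G b := fun hy => by
    have := h.edge_bonus x3 y3 x4 y4 hy x2 y2 y1 x1
    omega
  have nab : ∀ y ∈ nbr G b, y ∉ ({a, b} : Finset V) := by
    intro y hy hm
    rcases mem_insert.1 hm with rfl | hm
    · exact na hy
    · rw [mem_singleton.1 hm] at hy; exact h.b_not_nbr hy
  have nY : ∀ y ∈ nbr G b, y ∉ Y := fun y hy hm => by
    have := h.edge_bonus (X := {a, b}) (by simp) y1 d1 y4 hy (by simp) y2 hm (nab y hy)
    omega
  refine ⟨⟨{a, b}, ⟨by simp, c1, d1, nab⟩, by omega⟩, ?_, ⟨Y, ⟨⟨y1, y3⟩, y2, y4, nY⟩, by omega⟩⟩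
  have s1 := h.cs.rs_super G (X := {a, b}) (by simp) y1 d1 y4
  have s2 := h.cs.rs_super G (X := X) (Y := {a, b} ∪ Y) x2 (by simp) x4
    (fun hh => (mem_union.1 hh).elim d1 y4)
  have t1 := h.top ({a, b} ∩ Y)
  have t2 := h.top (X ∪ ({a, b} ∪ Y))
  refine ⟨X ∩ ({a, b} ∪ Y), ⟨by simp [x2, x3, y3], by simp [x1], by simp [x4], ?_⟩, by omega⟩
  intro y hy hm
  rcases mem_union.1 (mem_inter.1 hm).2 with h1 | h1
  exacts [nab y hy h1, nY y hy h1]

end HState

/-- the local value with respect to an edge set -/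
def lv (p : Finset V → ℤ) (G : Multiset (V × V)) (b : V) (E : Multiset (V × V))
    (X : Finset V) : ℤ := rs p G (insert b X) + dG E X - 1

/-- exactness for an edge set -/
def HEx (p : Finset V → ℤ) (G : Multiset (V × V)) (b : V) (E : Multiset (V × V)) : Prop :=
  ∃ S, SubP (farSet G b) S ∧ (Multiset.card E : ℤ) + 2 ≤ val (lv p G b E) S

def cutL (I : List ℕ) (E : List (ℕ × ℕ)) : ℤ :=
  (E.map (fun e => if (e.1 ∈ I ↔ e.2 ∈ I) then (0 : ℤ) else 1)).sum

/-- shape of a forbidden tuple: an exact structure on the named points -/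
def NgGood (S : Spec) (C : List Pat) : Prop :=
  (∀ P ∈ C, 1 ∈ P.inc ∧ S.np ∈ P.exc ∧ (∀ i ∈ List.range S.np, i ∈ P.inc ∨ i ∈ P.exc) ∧
    (∀ i ∈ P.inc, i < S.np) ∧ ∃ i ∈ P.inc, i ≠ 1) ∧
  C.Pairwise (fun P Q => ∀ i ∈ P.inc, i = 1 ∨ i ∈ Q.exc) ∧
  (S.EN.length : ℤ) + 2 ≤ (C.map (fun P => (P.lev : ℤ) - S.k + cutL P.inc S.EN)).sum

instance (S : Spec) (C : List Pat) : Decidable (NgGood S C) := by unfold NgGood; infer_instance

theorem HState.ng_sound (h : HState p G a b c d) (S : Spec) (hS : S.ok) (x : ℕ → V)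
    (x0 : x 0 = a) (x1 : x 1 = b) (x2 : x 2 = c) (x3 : x 3 = d)
    (hx : ∀ i < S.np, i ≠ 1 → x i ≠ b) (hE1 : ∀ e ∈ S.EN, e.1 ≠ 1 ∧ e.2 ≠ 1)
    {E : Multiset (V × V)} (hE : E ≤ offEdges G b) (hd : ∀ X, dG (gr x S.EN) X = dG E X)
    (hc : Multiset.card E = S.EN.length) (hends : ∀ e ∈ E, ∀ v, v = e.1 ∨ v = e.2 →
      ∃ i < S.np, i ≠ 1 ∧ x i = v)
    {C : List Pat} (hC : NgGood S C)
    (hA : AllReal (zs S.np x (fun _ => nbr G b)) (rs p G) S.k C) : HEx p G b E := by
  obtain ⟨g1, g2, g3⟩ := hC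
  have n4 := hS.1
  choose! X hX using hA
  have hz : SupOn (farSet G b) (lv p G b E) := by
    obtain ⟨K, hK⟩ := Multiset.le_iff_exists_add.1 hE
    intro A hA B hB
    have s1 := h.supOn A hA B hB
    simp only at s1
    rw [h.zeta hA, h.zeta hB, h.zeta (inter_subset_left.trans hA), h.zeta (union_subset hA hB),
      hK] at s1
    have s2 := dG_submod K A B
    simp only [dG_add] at s1
    unfold lv
    omega
  have hin : ∀ P ∈ C, ∀ i ∈ P.inc, x i ∈ X P := fun P hP i hi =>
    (hX P hP).1.1 i hi _ (by simp [zs, (g1 P hP).2.2.2.1 i hi])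
  have hout : ∀ P ∈ C, ∀ i ∈ P.exc, i < S.np → x i ∉ X P := fun P hP i hi hl =>
    (hX P hP).1.2.1 i hi _ (by simp [zs, hl])
  have hiff : ∀ P ∈ C, ∀ i < S.np, (x i ∈ X P ↔ i ∈ P.inc) := fun P hP i hl =>
    ⟨fun hm => ((g1 P hP).2.2.1 i (List.mem_range.2 hl)).resolve_right
      (fun he => hout P hP i he hl hm), hin P hP i⟩
  have hW : ∀ P ∈ C, (X P).erase b ⊆ farSet G b := fun P hP v hv =>
    mem_far.2 ⟨(mem_erase.1 hv).1, fun hn => (hX P hP).1.2.1 _ (g1 P hP).2.1 v
      (by simpa [zs] using hn) (mem_erase.1 hv).2⟩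
  have hval : ∀ P ∈ C, (P.lev : ℤ) - S.k + cutL P.inc S.EN ≤ 1 + lv p G b E ((X P).erase b) := by
    intro P hP
    have e1 : insert b ((X P).erase b) = X P := insert_erase (x1 ▸ hin P hP 1 (g1 P hP).1)
    have e2 : dG (gr x S.EN) ((X P).erase b) = cutL P.inc S.EN := by
      simp only [dG, gr, cutL, Multiset.map_coe, Multiset.sum_coe, List.map_map]
      congr 1
      refine List.map_congr_left (fun e he => ?_)
      obtain ⟨l1, l2⟩ := hS.2.1 e he
      obtain ⟨m1, m2⟩ := hE1 e he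
      simp only [Function.comp, cut, mem_erase, hx _ l1 m1, hx _ l2 m2, ne_eq, not_false_eq_true,
        true_and, hiff P hP _ l1, hiff P hP _ l2]
    have := (hX P hP).2
    unfold lv
    rw [e1, ← hd, e2]
    omega
  have key : ∀ C' : List Pat, (∀ P ∈ C', P ∈ C) →
      C'.Pairwise (fun P Q => ∀ i ∈ P.inc, i = 1 ∨ i ∈ Q.exc) →
      ∃ T, SubP (farSet G b) T ∧ (∀ v, Cov T v → ∃ Q ∈ C', v ∈ X Q) ∧
        (C'.map (fun P => (P.lev : ℤ) - S.k + cutL P.inc S.EN)).sum ≤ val (lv p G b E) T := by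
    intro C'
    induction C' with
    | nil => intro _ _; exact ⟨∅, SubP.empty _, by simp [Cov], by simp [val]⟩
    | cons P C' ih =>
      intro m1 m2
      obtain ⟨T, t1, t2, t3⟩ := ih (fun Q hQ => m1 Q (List.mem_cons_of_mem _ hQ))
        (List.pairwise_cons.1 m2).2
      have hP := m1 P List.mem_cons_self
      obtain ⟨j, j1, j2⟩ := (g1 P hP).2.2.2.2
      obtain ⟨L, U, l1, l2, l3, l4, l5, -, -⟩ := ins hz t1 (hW P hP)
        ⟨x j, mem_erase.2 ⟨hx j ((g1 P hP).2.2.2.1 j j1) j2, hin P hP j j1⟩⟩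
      have hL : val (lv p G b E) L ≤ 0 := by
        refine Finset.sum_nonpos (fun Y hY => ?_)
        have nn : ∀ i < S.np, i ≠ 1 → x i ∉ Y := by
          intro i hi h1 hm
          obtain ⟨a1, a2⟩ := l4 _ ⟨Y, hY, hm⟩
          obtain ⟨Q, q1, q2⟩ := t2 _ a2
          have := (List.pairwise_cons.1 m2).1 Q q1 i ((hiff P hP i hi).1 (mem_erase.1 a1).2)
          exact hout Q (m1 Q (List.mem_cons_of_mem _ q1)) i (this.resolve_left h1) hi q2
        have f1 := h.free_le (l1.sub Y hY) (l1.ne Y hY) (x0 ▸ nn 0 (by omega) (by omega))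
          (x2 ▸ nn 2 (by omega) (by omega)) (x3 ▸ nn 3 (by omega) (by omega))
        have f2 : dG E Y = 0 := by
          refine Multiset.sum_eq_zero (fun z hz => ?_)
          obtain ⟨e, he, rfl⟩ := Multiset.mem_map.1 hz
          obtain ⟨i, i1, i2, i3⟩ := hends e he _ (Or.inl rfl)
          obtain ⟨k, k1, k2, k3⟩ := hends e he _ (Or.inr rfl)
          simp [cut, ← i3, ← k3, nn i i1 i2, nn k k1 k2]
        unfold lv
        omega
      refine ⟨U, l2, fun v hv => ?_, ?_⟩
      · rcases l5 v hv with h1 | h1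
        · exact ⟨P, List.mem_cons_self, (mem_erase.1 h1).2⟩
        · obtain ⟨Q, q1, q2⟩ := t2 v h1
          exact ⟨Q, List.mem_cons_of_mem _ q1, q2⟩
      · have := hval P hP
        simp only [List.map_cons, List.sum_cons]
        omega
  obtain ⟨T, t1, -, t3⟩ := key C (fun _ h => h) g2
  exact ⟨T, t1, by rw [hc]; omega⟩

theorem HState.hrefute (h : HState p G a b c d) (S : Spec) (hS : S.ok)
    (hES : S.ES = [(1, S.np)]) (x : ℕ → V)
    (x0 : x 0 = a) (x1 : x 1 = b) (x2 : x 2 = c) (x3 : x 3 = d)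
    {E : Multiset (V × V)} (hE : E ≤ offEdges G b) (hd : ∀ X, dG (gr x S.EN) X = dG E X)
    (he : ends (gr x S.EN) = ends E)
    (hUB : ∀ P ∈ S.UB, ∀ X, P.Fits (zs S.np x (fun _ => nbr G b)) X →
      rs p G X < (P.lev : ℤ) - S.k)
    (hEX : ∀ C ∈ S.EX, ∃ P ∈ C, ∃ X, P.Fits (zs S.np x (fun _ => nbr G b)) X ∧
      (P.lev : ℤ) - S.k ≤ rs p G X)
    (hNG : ∀ C ∈ S.NG, ¬ AllReal (zs S.np x (fun _ => nbr G b)) (rs p G) S.k C)
    (L : List ℕ) (hL : S.check L = true) : False := by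
  obtain ⟨R, hR⟩ := Multiset.le_iff_exists_add.1 (hE.trans (off_le G b))
  have e1 : ∀ X, dG (gr x S.EN + R) X = dG G X := fun X => by rw [hR, dG_add, dG_add, hd]
  have e2 : rs p (gr x S.EN + R) = rs p G := funext fun X => by unfold rs; rw [e1]
  have e3 : ends (gr x S.EN + R) = ends G := by rw [hR, ends_add, ends_add, he]
  have hc : Cfg p (gr x S.EN + R) (x 0) (x 1) (x 2) (x 3) := by
    rw [x0, x1, x2, x3]
    refine ⟨h.cs, fun X => ?_, e3 ▸ h.uns⟩
    have := h.valid X
    simpa only [e1] using this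
  have n4 := hS.1
  refine S.refuteG hS x (zs S.np x (fun _ => nbr G b)) hc (e2 ▸ h.top)
    (fun i hi => by simp [zs, hi]) (fun i hi => by simpa [zs] using h.nbr_ne)
    (Multiset.le_add_right _ _) ?_ (e2 ▸ hUB) (e2 ▸ hEX) (e2 ▸ hNG) L hL
  intro X Y L hL hs
  rw [hES] at hL
  obtain ⟨L1, L2, rfl, l1, l2⟩ := List.sublist_append_iff.1 hL
  have k1 : ∀ e ∈ gr x L1, sepE e X Y := fun e he => by
    obtain ⟨y, hy, rfl⟩ := List.mem_map.1 (Multiset.mem_coe.1 he)
    obtain ⟨u, hu, v, hv, h3⟩ := hs y (List.mem_append_left _ hy)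
    obtain ⟨m1, m2⟩ := hS.2.1 y (l1.subset hy)
    simp only [zs, m1, m2, if_true, mem_singleton] at hu hv
    rwa [hu, hv] at h3
  rcases List.sublist_singleton.1 l2 with rfl | rfl
  · exact ⟨gr x L1, (gr_le x l1).trans (Multiset.le_add_right _ _), by simp [card_gr], k1⟩
  · obtain ⟨u, hu, v, hv, h3⟩ := hs (1, S.np) (by simp)
    have hu' : u = b := by
      simpa [zs, show 1 < S.np by omega, x1] using hu
    have hv' : v ∈ nbr G b := by simpa [zs] using hv
    subst hu'
    have hin : ∀ e ∈ G, e.1 = u ∨ e.2 = u → e ∈ R := fun e e4 e5 => by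
      rw [hR, Multiset.mem_add] at e4
      refine e4.resolve_left (fun e6 => ?_)
      have := mem_off.1 (Multiset.mem_of_le hE e6)
      tauto
    have fin : ∀ e ∈ R, sepE e X Y → ∃ H ≤ gr x S.EN + R,
        Multiset.card H = (L1 ++ [(1, S.np)]).length ∧ ∀ e ∈ H, sepE e X Y := fun e e4 e5 => by
      refine ⟨gr x L1 + {e}, add_le_add (gr_le x l1) (Multiset.singleton_le.2 e4),
        by simp [card_gr], fun g hg => ?_⟩
      rcases Multiset.mem_add.1 hg with hg | hg
      · exact k1 g hg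
      · rw [Multiset.mem_singleton.1 hg]; exact e5
    rcases mem_nbr.1 hv' with e4 | e4
    · exact fin _ (hin _ e4 (Or.inl rfl)) h3
    · refine fin _ (hin _ e4 (Or.inr rfl)) ?_
      unfold sepE at h3 ⊢
      tauto

/-- a tight set for the ordered pair `u v` -/
def HTight (p : Finset V → ℤ) (G : Multiset (V × V)) (a b c d u v : V) : Prop :=
  ∃ X, b ∈ X ∧ u ∈ X ∧ (∀ y ∈ nbr G b, y ∉ X) ∧ v ∉ X ∧
    ((a ∉ X ∧ c ∉ X ∧ 0 ≤ rs p G X) ∨ (a ∈ X ∧ c ∈ X ∧ d ∈ X ∧ 0 ≤ rs p G X) ∨ 1 ≤ rs p G X)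

/-- `e` joins `u` and `v` -/
def Joins (e : V × V) (u v : V) : Prop := e = (u, v) ∨ e = (v, u)

theorem Joins.cut_eq {e : V × V} {u v : V} (h : Joins e u v) (X : Finset V) :
    cut e X = cut (u, v) X := by
  rcases h with rfl | rfl
  · rfl
  · simp only [cut, iff_comm]

theorem Joins.ends_eq {e : V × V} {u v : V} (h : Joins e u v) :
    ends ({e} : Multiset (V × V)) = ends {(u, v)} := by
  rcases h with rfl | rfl
  · rfl
  · simp only [ends, Multiset.map_singleton, add_comm]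

theorem Joins.off {e : V × V} {u v : V} (h : Joins e u v) (he : e ∈ offEdges G b) :
    u ≠ b ∧ v ≠ b := by
  have := mem_off.1 he
  rcases h with rfl | rfl <;> tauto

theorem Joins.mem {e : V × V} {u v : V} (h : Joins e u v) {w : V} (hw : w = e.1 ∨ w = e.2) :
    w = u ∨ w = v := by
  rcases h with rfl | rfl <;> tauto

theorem HState.off_ub (h : HState p G a b c d) {e : V × V} {u v : V} (j : Joins e u v)
    (he : e ∈ offEdges G b) {X : Finset V} (hb : b ∈ X) (hu : u ∈ X ∨ v ∈ X) (ha : a ∉ X)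
    (hc : c ∉ X) (hd : d ∉ X) : rs p G X < 1 := by
  by_contra hh
  have h1 := h.top X
  have h2 := mem_off.1 he
  have := (h.ancb X hb ha hc hd (by omega)).1 e h2.1 (by rcases j with rfl | rfl <;> tauto)
  tauto

theorem HState.ex0 (h : HState p G a b c d) : HEx p G b 0 := by
  by_contra hn
  obtain ⟨m1, m2, m3⟩ := h.members
  refine h.hrefute hzS hz_ok rfl (fun i => [a, b, c, d].getD i a) rfl rfl rfl rfl
    (E := 0) (Multiset.zero_le _) (fun _ => rfl) rfl ?_ ?_ ?_ _ hz_chk
  · simp only [hzS, List.forall_mem_cons, Pat.Fits, zs]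
    refine ⟨fun X hX => ?_, fun X hX => ?_, fun X hX => ?_, by simp⟩ <;> simp at hX ⊢
    · have := h.nad X (by tauto) (by tauto) (by tauto) (by tauto); omega
    · have := h.nbd X (by tauto) (by tauto) (by tauto) (by tauto); omega
    · have := h.ncd X (by tauto) (by tauto) (by tauto) (by tauto); omega
  · simp only [hzS, List.forall_mem_cons, Pat.Fits, zs]
    refine ⟨?_, ?_, ?_, by simp⟩ <;> simpa
  · intro C hC hA
    have : ∀ C ∈ hzS.NG, NgGood hzS C := by decide +kernel
    refine hn (h.ng_sound hzS hz_ok _ rfl rfl rfl rfl ?_ (by simp [hzS]) (Multiset.zero_le _)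
      (fun _ => rfl) rfl (by simp) (this C hC) hA)
    intro i hi h1
    change i < 4 at hi
    interval_cases i <;> simp [h.ab, h.bc.symm, h.bd.symm] at h1 ⊢

theorem two_le_succ {z : ℤ} : 2 ≤ z + 1 ↔ 1 ≤ z := by omega

theorem HState.tight (h : HState p G a b c d) {u v : V} (he : (u, v) ∈ offEdges G b) :
    HTight p G a b c d u v ∨ HTight p G a b c d v u := by
  by_contra hn
  obtain ⟨m1, m2, m3⟩ := h.members
  have j : Joins (u, v) u v := Or.inl rfl
  have n1 : ∀ X, b ∈ X → u ∈ X → (∀ y ∈ nbr G b, y ∉ X) → v ∉ X →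
      (a ∉ X → c ∉ X → rs p G X < 0) ∧ (a ∈ X → c ∈ X → d ∈ X → rs p G X < 0) ∧ rs p G X < 1 :=
    fun X t1 t2 t3 t4 => ⟨fun t5 t6 => not_le.1 fun t7 =>
      hn (Or.inl ⟨X, t1, t2, t3, t4, Or.inl ⟨t5, t6, t7⟩⟩), fun t5 t6 t8 => not_le.1 fun t7 =>
      hn (Or.inl ⟨X, t1, t2, t3, t4, Or.inr (Or.inl ⟨t5, t6, t8, t7⟩)⟩), not_le.1 fun t7 =>
      hn (Or.inl ⟨X, t1, t2, t3, t4, Or.inr (Or.inr t7)⟩)⟩
  have n2 : ∀ X, b ∈ X → v ∈ X → (∀ y ∈ nbr G b, y ∉ X) → u ∉ X →
      (a ∉ X → c ∉ X → rs p G X < 0) ∧ (a ∈ X → c ∈ X → d ∈ X → rs p G X < 0) ∧ rs p G X < 1 :=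
    fun X t1 t2 t3 t4 => ⟨fun t5 t6 => not_le.1 fun t7 =>
      hn (Or.inr ⟨X, t1, t2, t3, t4, Or.inl ⟨t5, t6, t7⟩⟩), fun t5 t6 t8 => not_le.1 fun t7 =>
      hn (Or.inr ⟨X, t1, t2, t3, t4, Or.inr (Or.inl ⟨t5, t6, t8, t7⟩)⟩), not_le.1 fun t7 =>
      hn (Or.inr ⟨X, t1, t2, t3, t4, Or.inr (Or.inr t7)⟩)⟩
  refine h.hrefute htS ht_ok rfl (fun i => [a, b, c, d, u, v].getD i a) rfl rfl rfl rfl
    (E := {(u, v)}) (Multiset.singleton_le.2 he) (fun _ => rfl) rfl ?_ ?_ (by simp [htS]) _ ht_chk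
  · simp only [htS, List.forall_mem_cons, Pat.Fits, zs]
    refine ⟨fun X hX => ?_, fun X hX => ?_, fun X hX => ?_, fun X hX => ?_, fun X hX => ?_,
      fun X hX => ?_, fun X hX => ?_, fun X hX => ?_, fun X hX => ?_, fun X hX => ?_,
      fun X hX => ?_, by simp⟩ <;> simp at hX ⊢
    · exact h.off_ub j he hX.1.1 (Or.inl hX.1.2) hX.2.1 hX.2.2.1 hX.2.2.2
    · exact h.off_ub j he hX.1.1 (Or.inr hX.1.2) hX.2.1 hX.2.2.1 hX.2.2.2
    · have := h.nad X hX.1.1 hX.2.1 hX.2.2 hX.1.2; omega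
    · have := h.nbd X hX.2.1 hX.1.1 hX.2.2 hX.1.2; omega
    · have := h.ncd X hX.2.1 hX.2.2 hX.1.1 hX.1.2; omega
    · exact (n1 X hX.1.1 hX.1.2 hX.2.1 hX.2.2.1).1 hX.2.2.2.1 hX.2.2.2.2
    · exact (n1 X hX.1.1 hX.1.2.2.2.2 hX.2.1 hX.2.2).2.1 hX.1.2.1 hX.1.2.2.1 hX.1.2.2.2.1
    · exact (n1 X hX.1.1 hX.1.2 hX.2.1 hX.2.2).2.2
    · exact (n2 X hX.1.1 hX.1.2 hX.2.1 hX.2.2.1).1 hX.2.2.2.1 hX.2.2.2.2
    · exact (n2 X hX.1.1 hX.1.2.2.2.2 hX.2.1 hX.2.2).2.1 hX.1.2.1 hX.1.2.2.1 hX.1.2.2.2.1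
    · exact (n2 X hX.1.1 hX.1.2 hX.2.1 hX.2.2).2.2
  · simp only [htS, List.forall_mem_cons, Pat.Fits, zs]
    refine ⟨?_, ?_, ?_, by simp⟩ <;> simpa [two_le_succ]

theorem HState.tight' (h : HState p G a b c d) {e : V × V} (he : e ∈ offEdges G b) :
    ∃ u v, Joins e u v ∧ HTight p G a b c d u v := by
  obtain ⟨u, v⟩ := e
  rcases h.tight he with t | t
  · exact ⟨u, v, Or.inl rfl, t⟩
  · exact ⟨v, u, Or.inr rfl, t⟩

theorem HTight.clause {u v : V} (t : HTight p G a b c d u v) :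
    (∃ X, ((b ∈ X ∧ u ∈ X) ∧ (∀ y ∈ nbr G b, y ∉ X) ∧ v ∉ X ∧ a ∉ X ∧ c ∉ X) ∧ 0 ≤ rs p G X) ∨
    (∃ X, ((b ∈ X ∧ a ∈ X ∧ c ∈ X ∧ d ∈ X ∧ u ∈ X) ∧ (∀ y ∈ nbr G b, y ∉ X) ∧ v ∉ X) ∧
      0 ≤ rs p G X) ∨
    (∃ X, ((b ∈ X ∧ u ∈ X) ∧ (∀ y ∈ nbr G b, y ∉ X) ∧ v ∉ X) ∧ 1 ≤ rs p G X) := by
  obtain ⟨X, t1, t2, t3, t4, t | t | t⟩ := t
  · exact Or.inl ⟨X, ⟨⟨t1, t2⟩, t3, t4, t.1, t.2.1⟩, t.2.2⟩
  · exact Or.inr (Or.inl ⟨X, ⟨⟨t1, t.1, t.2.1, t.2.2.1, t2⟩, t3, t4⟩, t.2.2.2⟩)
  · exact Or.inr (Or.inr ⟨X, ⟨⟨t1, t2⟩, t3, t4⟩, t⟩)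

theorem HState.ex1 (h : HState p G a b c d) {e : V × V} (he : e ∈ offEdges G b) :
    HEx p G b {e} := by
  by_contra hn
  obtain ⟨m1, m2, m3⟩ := h.members
  obtain ⟨u, v, j, t⟩ := h.tight' he
  have t' := t.clause
  have hd : ∀ X, dG (gr (fun i => [a, b, c, d, u, v].getD i a) hoS.EN) X = dG {e} X := fun X => by
    rw [dG_singleton, j.cut_eq]; exact dG_singleton _ _
  refine h.hrefute hoS ho_ok rfl (fun i => [a, b, c, d, u, v].getD i a) rfl rfl rfl rfl
    (E := {e}) (Multiset.singleton_le.2 he) hd j.ends_eq.symm ?_ ?_ ?_ _ ho_chk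
  · simp only [hoS, List.forall_mem_cons, Pat.Fits, zs]
    refine ⟨fun X hX => ?_, fun X hX => ?_, fun X hX => ?_, fun X hX => ?_, fun X hX => ?_,
      by simp⟩ <;> simp at hX ⊢
    · exact h.off_ub j he hX.1.1 (Or.inl hX.1.2) hX.2.1 hX.2.2.1 hX.2.2.2
    · exact h.off_ub j he hX.1.1 (Or.inr hX.1.2) hX.2.1 hX.2.2.1 hX.2.2.2
    · have := h.nad X hX.1.1 hX.2.1 hX.2.2 hX.1.2; omega
    · have := h.nbd X hX.2.1 hX.1.1 hX.2.2 hX.1.2; omega
    · have := h.ncd X hX.2.1 hX.2.2 hX.1.1 hX.1.2; omega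
  · simp only [hoS, List.forall_mem_cons, Pat.Fits, zs]
    refine ⟨?_, ?_, ?_, ?_, by simp⟩ <;> simpa [two_le_succ]
  · intro C hC hA
    have : ∀ C ∈ hoS.NG, NgGood hoS C := by decide +kernel
    obtain ⟨o1, o2⟩ := j.off he
    refine hn (h.ng_sound hoS ho_ok _ rfl rfl rfl rfl ?_ (by simp [hoS])
      (Multiset.singleton_le.2 he) hd rfl ?_ (this C hC) hA)
    · intro i hi h1
      change i < 6 at hi
      interval_cases i <;> simp [h.ab, h.bc.symm, h.bd.symm, o1, o2] at h1 ⊢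
    · intro g hg w hw
      rw [Multiset.mem_singleton.1 hg] at hw
      rcases j.mem hw with rfl | rfl
      · exact ⟨4, by decide, by decide, rfl⟩
      · exact ⟨5, by decide, by decide, rfl⟩

theorem HState.ex2 (h : HState p G a b c d) {e e' : V × V} (hE : {e, e'} ≤ offEdges G b) :
    HEx p G b {e, e'} := by
  by_contra hn
  obtain ⟨m1, m2, m3⟩ := h.members
  have he : e ∈ offEdges G b := Multiset.mem_of_le hE (by simp)
  have he' : e' ∈ offEdges G b := Multiset.mem_of_le hE (by simp)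
  obtain ⟨u, v, j, t⟩ := h.tight' he
  obtain ⟨s, w, j', t2⟩ := h.tight' he'
  have t' := t.clause
  have t2' := t2.clause
  have hd : ∀ X, dG (gr (fun i => [a, b, c, d, u, v, s, w].getD i a) hpS.EN) X = dG {e, e'} X :=
    fun X => by
      rw [Multiset.insert_eq_cons, dG_cons, dG_singleton, j.cut_eq, j'.cut_eq]
      exact (dG_cons _ _ _).trans (congrArg _ (dG_singleton _ _))
  have hen : ends (gr (fun i => [a, b, c, d, u, v, s, w].getD i a) hpS.EN) = ends {e, e'} := by
    change ends ({(u, v)} + {(s, w)}) = ends ({e} + {e'})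
    rw [ends_add, ends_add, j.ends_eq, j'.ends_eq]
  refine h.hrefute hpS hp_ok rfl (fun i => [a, b, c, d, u, v, s, w].getD i a) rfl rfl rfl rfl
    (E := {e, e'}) hE hd hen ?_ ?_ ?_ _ hp_chk
  · simp only [hpS, List.forall_mem_cons, Pat.Fits, zs]
    refine ⟨fun X hX => ?_, fun X hX => ?_, fun X hX => ?_, fun X hX => ?_, fun X hX => ?_,
      fun X hX => ?_, fun X hX => ?_, by simp⟩ <;> simp at hX ⊢
    · exact h.off_ub j he hX.1.1 (Or.inl hX.1.2) hX.2.1 hX.2.2.1 hX.2.2.2
    · exact h.off_ub j he hX.1.1 (Or.inr hX.1.2) hX.2.1 hX.2.2.1 hX.2.2.2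
    · exact h.off_ub j' he' hX.1.1 (Or.inl hX.1.2) hX.2.1 hX.2.2.1 hX.2.2.2
    · exact h.off_ub j' he' hX.1.1 (Or.inr hX.1.2) hX.2.1 hX.2.2.1 hX.2.2.2
    · have := h.nad X hX.1.1 hX.2.1 hX.2.2 hX.1.2; omega
    · have := h.nbd X hX.2.1 hX.1.1 hX.2.2 hX.1.2; omega
    · have := h.ncd X hX.2.1 hX.2.2 hX.1.1 hX.1.2; omega
  · simp only [hpS, List.forall_mem_cons, Pat.Fits, zs]
    refine ⟨?_, ?_, ?_, ?_, ?_, by simp⟩ <;> simpa [two_le_succ]
  · intro C hC hA
    have : ∀ C ∈ hpS.NG, NgGood hpS C := by decide +kernel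
    obtain ⟨o1, o2⟩ := j.off he
    obtain ⟨o3, o4⟩ := j'.off he'
    refine hn (h.ng_sound hpS hp_ok _ rfl rfl rfl rfl ?_ (by simp [hpS]) hE hd rfl ?_
      (this C hC) hA)
    · intro i hi h1
      change i < 8 at hi
      interval_cases i <;> simp [h.ab, h.bc.symm, h.bd.symm, o1, o2, o3, o4] at h1 ⊢
    · intro g hg z hz
      rcases Multiset.mem_cons.1 hg with rfl | hg
      · rcases j.mem hz with rfl | rfl
        · exact ⟨4, by decide, by decide, rfl⟩
        · exact ⟨5, by decide, by decide, rfl⟩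
      · rw [Multiset.mem_singleton.1 hg] at hz
        rcases j'.mem hz with rfl | rfl
        · exact ⟨6, by decide, by decide, rfl⟩
        · exact ⟨7, by decide, by decide, rfl⟩

theorem hLocal : HLocal V := by
  intro p G a b c d h
  let H0 : Multiset (V × V) := {(a, d), (c, d)}
  let φ : Finset V → ℤ := fun X => p (insert b X) - p {b} - dG (H0 + offEdges G b) X
  have key : ∀ E X, X ⊆ farSet G b → zt φ (H0 + E) X = lv p G b E X := by
    intro E X hX
    simp only [zt, φ, lv, h.zeta hX, dG_add]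
    ring
  have hval : ∀ E S, SubP (farSet G b) S → val (zt φ (H0 + E)) S = val (lv p G b E) S :=
    fun E S hS => Finset.sum_congr rfl (fun X hX => by rw [key E X (hS.sub X hX)])
  have hc : (Multiset.card H0 : ℤ) = 2 := rfl
  have ez : zt φ (H0 + offEdges G b) = fun X => p (insert b X) - p {b} :=
    funext fun X => by simp only [zt, φ]; ring
  obtain ⟨S, s1, s2⟩ := lemmaA_rooted (W := farSet G b) (φ := φ) (by simp [φ, dG_empty])
    (fun X hX hne => by
      have e : φ X = rs p G (insert b X) - 1 - (cut (a, d) X + cut (c, d) X) := by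
        simp only [φ, H0, h.zeta hX, dG_add, Multiset.insert_eq_cons, dG_cons, dG_singleton]
        ring
      have t := h.top (insert b X)
      rw [e]
      by_cases a1 : a ∈ X <;> by_cases c1 : c ∈ X <;> by_cases d1 : d ∈ X <;>
        simp only [cut, a1, c1, d1, iff_self, iff_true, iff_false, not_true, if_true, if_false] <;> try omega
      · have := h.toCfg.le_all (X := insert b X) (by simp [a1]) (by simp) (by simp [c1])
          (by simp [d1])
        omega
      · have := h.free_le hX hne a1 c1 d1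
        omega) H0 (offEdges G b) (ez ▸ h.supOn) (fun E hE h2 => by
      have : HEx p G b E := by
        have : Multiset.card E = 0 ∨ Multiset.card E = 1 ∨ Multiset.card E = 2 := by omega
        rcases this with h3 | h3 | h3
        · rw [Multiset.card_eq_zero.1 h3]; exact h.ex0
        · obtain ⟨e, rfl⟩ := Multiset.card_eq_one.1 h3
          exact h.ex1 (Multiset.singleton_le.1 hE)
        · obtain ⟨e, e', rfl⟩ := Multiset.card_eq_two.1 h3
          exact h.ex2 hE
      obtain ⟨S, s1, s2⟩ := this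
      exact ⟨S, s1, by rw [hval E S s1, hc]; omega⟩)
  exact ⟨S, s1, by rw [ez, hc] at s2; omega⟩

end Pool.Agent.CSG

end

-- part MP_305420_co.HSwap
section

/-! Letters, pair swaps and the two small base cases of the heavy case. -/

set_option linter.unusedSectionVars false

namespace Pool.Agent.CSG.Hv

open Finset

variable {V : Type*} [Fintype V] [DecidableEq V]

/-- heavy configurations with chosen letters -/
structure HL (p : Finset V → ℤ) (b y : V) (W : Finset V) (G : Multiset (V × V)) (a c d : V) :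
    Prop extends HC p b y W G a c d where
  ma : ∃ X, b ∈ X ∧ a ∈ X ∧ c ∉ X ∧ d ∉ X ∧ y ∉ X ∧ 1 ≤ fr p b y G X
  mc : ∃ X, b ∈ X ∧ c ∈ X ∧ a ∉ X ∧ d ∉ X ∧ y ∉ X ∧ 1 ≤ fr p b y G X

theorem HC.al_mem {p : Finset V → ℤ} {b y : V} {W : Finset V} {G : Multiset (V × V)} {a c d : V}
    (h : HC p b y W G a c d) {S : Finset (Finset V)} (hS : SubP W S) (hA : Al p b y G S a c d) :
    ∃ X, b ∈ X ∧ a ∈ X ∧ c ∉ X ∧ d ∉ X ∧ y ∉ X ∧ 1 ≤ fr p b y G X := by
  obtain ⟨J, h1, h2, h3, h4, h5⟩ := hA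
  refine ⟨_, mem_insert_self _ _, mem_insert_of_mem h2, ?_, ?_, ?_, h5⟩ <;>
    simp only [mem_insert, not_or]
  exacts [⟨h.cb, h3⟩, ⟨h.db, h4⟩, ⟨h.yb, fun hh => h.yW ((hS.subset h1).sup_subset hh)⟩]

namespace HL

variable {p : Finset V → ℤ} {b y : V} {W : Finset V} {G : Multiset (V × V)} {a c d : V}

theorem swap (h : HL p b y W G a c d) : HL p b y W G c a d := ⟨h.toHC.swap12, h.mc, h.ma⟩

theorem nd (h : HL p b y W G a c d) {X : Finset V} (h1 : b ∈ X) (h2 : d ∈ X) (h3 : y ∉ X) :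
    fr p b y G X ≤ 0 := by
  obtain ⟨X1, a1, a2, _, _, a5, a6⟩ := h.ma
  obtain ⟨X2, c1, c2, _, _, c5, c6⟩ := h.mc
  have s1 := h.sup h1 a1 h3 a5
  have s2 := h.sup (X := X ∪ X1) (mem_union_left _ h1) c1 (by simp [h3, a5]) c5
  have t1 := h.top (X ∩ X1)
  have t2 := h.top ((X ∪ X1) ∩ X2)
  have t3 := h.all4 (X := (X ∪ X1) ∪ X2) (by simp [a2]) (by simp [h1]) (by simp [c2]) (by simp [h2])
  omega

theorem nad (h : HL p b y W G a c d) {Y : Finset V} (h1 : a ∈ Y) (h2 : d ∈ Y) (h3 : b ∉ Y)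
    (h4 : c ∉ Y) : fr p b y G Y ≤ 0 := by
  obtain ⟨X1, a1, a2, a3, _, a5, a6⟩ := h.ma
  have t1 := h.top (X1 ∩ Y)
  have t2 := h.top (X1 ∪ Y)
  by_cases hy : y ∈ Y
  · have := h.supb a2 h1 a3 h4 a1 h3 hy a5
    omega
  · have s1 := h.sup a2 h1 a3 h4
    have := h.nd (X := X1 ∪ Y) (by simp [a1]) (by simp [h2]) (by simp [a5, hy])
    omega

theorem ncd (h : HL p b y W G a c d) {Y : Finset V} (h1 : c ∈ Y) (h2 : d ∈ Y) (h3 : b ∉ Y)
    (h4 : a ∉ Y) : fr p b y G Y ≤ 0 := h.swap.nad h1 h2 h3 h4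

/-- **Pair swap.** -/
theorem pswap {e : V × V} (h : HL p b y W (e ::ₘ G) a c d)
    (hno : ∀ X, b ∈ X → a ∈ X → c ∉ X → d ∉ X → 1 ≤ fr p b y (e ::ₘ G) X → e.1 ∉ X ∧ e.2 ∉ X) :
    HC p b y W ((c, d) ::ₘ G) a e.1 e.2 := by
  have e1 : ∀ X, fr p b y ((c, d) ::ₘ G) X = fr p b y (e ::ₘ G) X + cut e X - cut (c, d) X := by
    intro X; simp only [fr, dG_cons]; ring
  have ho := h.off (Multiset.mem_cons_self e G)
  refine ⟨h.cs, h.bW, h.yW, h.yb, h.ab, ho.1, ho.2, fun X => ?_, fun X => ?_, ?_, ?_, ?_⟩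
  · rw [e1]
    have a1 := h.v1 X
    have a2 := h.top X
    have a3 := cut_le_ind e X
    by_cases n1 : a ∈ X <;> by_cases n2 : b ∈ X <;> by_cases n3 : c ∈ X <;> by_cases n4 : d ∈ X <;>
      first
      | (have := h.ncd n3 n4 n2 n1
         simp only [ind_of_notMem n1, ind_of_notMem n2, cut_eq_zero.2 (iff_of_true n3 n4 :
          (c, d).1 ∈ X ↔ (c, d).2 ∈ X)]
         omega)
      | (simp only [cut, ind, n1, n2, n3, n4] at a1 ⊢; simp at a1 ⊢; unfold cut ind at a3; omega)
  · rw [e1]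
    have a1 := h.v2 X
    have a2 := h.top X
    have a3 := cut_le_ind e Xᶜ
    rw [cut_compl, ind_compl, ind_compl] at a3
    by_cases n0 : a ∈ X ∧ b ∈ X ∧ c ∉ X ∧ d ∉ X
    · obtain ⟨n1, n2, n3, n4⟩ := n0
      rw [ind_of_mem n1, ind_of_mem n2, cut_eq_zero.2 (iff_of_false n3 n4 :
          (c, d).1 ∈ X ↔ (c, d).2 ∈ X)]
      by_cases hf : 1 ≤ fr p b y (e ::ₘ G) X
      · obtain ⟨b1, b2⟩ := hno X n2 n1 n3 n4 hf
        rw [ind_of_notMem b1, ind_of_notMem b2, cut_eq_zero.2 (iff_of_false b1 b2)]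
        omega
      · omega
    · have q := cut_eq (c, d) X
      by_cases n1 : a ∈ X <;> by_cases n2 : b ∈ X <;> by_cases n3 : c ∈ X <;>
        by_cases n4 : d ∈ X <;>
        first
        | (simp only [ind_of_mem, ind_of_notMem, n1, n2, n3, n4, not_false_eq_true] at a1 q ⊢
           omega)
        | exact absurd ⟨n1, n2, n3, n4⟩ n0
  · have := h.uns
    convert this using 2
    simp only [ends_cons, mass]
    simp only [← Multiset.singleton_add]; abel
  · rw [e1, cut_eq_zero.2 (iff_of_false (by simpa using ho.1) (by simpa using ho.2)),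
      cut_eq_zero.2 (iff_of_false (by simpa using h.cb) (by simpa using h.db) :
        (c, d).1 ∈ ({b} : Finset V) ↔ (c, d).2 ∈ ({b} : Finset V))]
    have := h.fb
    omega
  · intro X h1 h2 h3 h4 h5
    rw [e1, cut_eq_zero.2 (iff_of_false h3 h4)] at h5
    have a2 := h.top X
    have a3 := cut_nonneg (c, d) X
    have a4 : c ∈ X ↔ d ∈ X := cut_eq_zero.1 (show cut (c, d) X = 0 by omega)
    have hc : c ∉ X := by
      intro hc
      obtain ⟨X1, b1, b2, b3, b4, _, b6⟩ := h.ma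
      have s1 := h.sup h1 b1 h3 (hno X1 b1 b2 b3 b4 b6).1
      have t1 := h.top (X ∩ X1)
      have t2 := h.all4 (X := X ∪ X1) (by simp [b2]) (by simp [h1]) (by simp [hc])
        (by simp [a4.1 hc])
      omega
    have hd : d ∉ X := fun hh => hc (a4.2 hh)
    obtain ⟨b1, b2⟩ := h.nb X h1 h2 hc hd (by omega)
    refine ⟨fun g hg => ?_, b2⟩
    rcases Multiset.mem_cons.1 hg with rfl | hg
    exacts [⟨hc, hd⟩, b1 g (Multiset.mem_cons_of_mem hg)]

theorem bad_meets {e : V × V} (h : HL p b y W (e ::ₘ G) a c d)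
    (ih : LG b y W (Multiset.card G)) {S : Finset (Finset V)} (hS : Loc p b W (e ::ₘ G) S)
    {I : Finset (Finset V)} (hI : I ⊆ S) (hne : I.Nonempty) (hbad : ¬ Good p b I)
    (hcd : c ∈ I.sup id ↔ d ∈ I.sup id) :
    ∃ X, b ∈ X ∧ a ∈ X ∧ c ∉ X ∧ d ∉ X ∧ 1 ≤ fr p b y (e ::ₘ G) X ∧ (e.1 ∈ X ∨ e.2 ∈ X) := by
  by_contra hh
  refine hbad ((h.pswap (fun X h1 h2 h3 h4 h5 => ?_)).del ih ⟨hS.sp, ?_, hS.fin⟩ hI hne
    (cut_eq_zero.2 hcd))
  · by_contra hc
    exact hh ⟨X, h1, h2, h3, h4, h5, by tauto⟩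
  · simpa using hS.ex

theorem nf2 (h : HL p b y W G a c d) {u v : V} (he : (u, v) ∈ G ∨ (v, u) ∈ G) {X Y : Finset V}
    (x1 : b ∈ X) (x3 : c ∉ X) (x4 : d ∉ X) (x5 : 1 ≤ fr p b y G X) (x6 : u ∈ X ∨ v ∈ X)
    (y1 : b ∈ Y) (y3 : a ∉ Y) (y4 : d ∉ Y) (y5 : 1 ≤ fr p b y G Y) (y6 : u ∈ Y ∨ v ∈ Y) :
    False := by
  have t1 := h.top (X ∩ Y)
  have t2 := h.top (X ∪ Y)
  have s1 := h.sup x1 y1 x4 y4
  have n := (h.nb (X ∩ Y) (mem_inter.2 ⟨x1, y1⟩) (by simp [y3]) (by simp [x3]) (by simp [x4])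
    (by omega)).1
  have n' : u ∉ X ∩ Y ∧ v ∉ X ∩ Y := by
    rcases he with he | he
    exacts [n _ he, (n _ he).symm]
  simp only [mem_inter, not_and] at n'
  rcases x6 with x6 | x6 <;> rcases y6 with y6 | y6
  · exact n'.1 x6 y6
  · have := h.supe x1 y1 x4 y4 he x6 (n'.1 x6) y6 (fun hh => n'.2 hh y6)
    omega
  · have := h.supe x1 y1 x4 y4 he.symm x6 (n'.2 x6) y6 (fun hh => n'.1 hh y6)
    omega
  · exact n'.2 x6 y6

/-- two bad unions of the two kinds exclude each other -/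
theorem excl {e : V × V} (h : HL p b y W (e ::ₘ G) a c d)
    (ih : LG b y W (Multiset.card G)) {S : Finset (Finset V)} (hS : Loc p b W (e ::ₘ G) S)
    {I : Finset (Finset V)} (hI : I ⊆ S) (hne : I.Nonempty) (hbad : ¬ Good p b I)
    (hcd : c ∈ I.sup id ↔ d ∈ I.sup id)
    {J : Finset (Finset V)} (hJ : J ⊆ S) (hne' : J.Nonempty) (hbad' : ¬ Good p b J)
    (had : a ∈ J.sup id ↔ d ∈ J.sup id) : False := by
  obtain ⟨X, x1, _, x3, x4, x5, x6⟩ := h.bad_meets ih hS hI hne hbad hcd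
  obtain ⟨Y, y1, _, y3, y4, y5, y6⟩ := h.swap.bad_meets ih hS hJ hne' hbad' had
  exact h.nf2 (u := e.1) (v := e.2) (Or.inl (Multiset.mem_cons_self _ _)) x1 x3 x4 x5 x6
    y1 y3 y4 y5 y6

/-- three tight parts with one bad pair -/
theorem e3 {u v : V} {e : V × V} (he : e = (u, v) ∨ e = (v, u))
    (h : HL p b y W (e ::ₘ G) a c d) {U A C : Finset V} (hP : SubP W {U, A, C})
    (hUA : U ≠ A) (hUC : U ≠ C) (hAC : A ≠ C) (hu : u ∈ U) (ha : a ∈ A) (hc : c ∈ C)
    (hv : v ∉ U ∪ A ∪ C) (hd : d ∉ U ∪ A ∪ C)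
    (ht : ∀ Z ∈ ({U, A, C} : Finset (Finset V)), ms (mass b y (e ::ₘ G) a c d) Z ≤ symmMax p Z)
    (fU : 0 ≤ fr p b y (e ::ₘ G) (insert b U)) (fA : 1 ≤ fr p b y (e ::ₘ G) (insert b A))
    (fC : 1 ≤ fr p b y (e ::ₘ G) (insert b C))
    (fUA : 0 ≤ fr p b y (e ::ₘ G) (insert b (U ∪ A)))
    (fUC : 0 ≤ fr p b y (e ::ₘ G) (insert b (U ∪ C)))
    (fall : 0 ≤ fr p b y (e ::ₘ G) (insert b (U ∪ A ∪ C)))
    (bUA : fr p b y (e ::ₘ G) (U ∪ A) ≤ -1) (bUA' : fr p b y (e ::ₘ G) (U ∪ A)ᶜ ≤ -1)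
    (ball : fr p b y (e ::ₘ G) (U ∪ A ∪ C) ≤ -1)
    (hty : 1 ≤ fr p b y (e ::ₘ G) (A ∪ C)ᶜ ∨ 0 ≤ fr p b y (e ::ₘ G) (U ∪ C)ᶜ)
    {M : Finset V} (m1 : b ∈ M) (m3 : c ∉ M) (m4 : d ∉ M)
    (m5 : 1 ≤ fr p b y (e ::ₘ G) M) (m6 : u ∈ M ∨ v ∈ M) : False := by
  have heG : (u, v) ∈ e ::ₘ G ∨ (v, u) ∈ e ::ₘ G := by
    rcases he with rfl | rfl
    exacts [Or.inl (Multiset.mem_cons_self _ _), Or.inr (Multiset.mem_cons_self _ _)]
  have hce : ∀ P, cut e P = cut (u, v) P := by
    intro P; rcases he with rfl | rfl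
    exacts [rfl, cut_swap _ _ _]
  have sU : U ∈ ({U, A, C} : Finset (Finset V)) := by simp
  have sA : A ∈ ({U, A, C} : Finset (Finset V)) := by simp
  have sC : C ∈ ({U, A, C} : Finset (Finset V)) := by simp
  have bU : b ∉ U := fun hh => h.bW (hP.sub U sU hh)
  have bA : b ∉ A := fun hh => h.bW (hP.sub A sA hh)
  have bC : b ∉ C := fun hh => h.bW (hP.sub C sC hh)
  have uA : u ∉ A := fun hh => hUA (hP.eq_of_mem sU sA hu hh)
  have uC : u ∉ C := fun hh => hUC (hP.eq_of_mem sU sC hu hh)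
  have aU : a ∉ U := fun hh => hUA (hP.eq_of_mem sU sA hh ha)
  have aC : a ∉ C := fun hh => hAC (hP.eq_of_mem sA sC ha hh)
  have cU : c ∉ U := fun hh => hUC (hP.eq_of_mem sU sC hh hc)
  have cA : c ∉ A := fun hh => hAC (hP.eq_of_mem sA sC hh hc)
  simp only [mem_union, not_or] at hv hd
  obtain ⟨⟨vU, vA⟩, vC⟩ := hv
  obtain ⟨⟨dU, dA⟩, dC⟩ := hd
  have ub : u ≠ b := fun hh => bU (hh ▸ hu)
  have vb : v ≠ b := by
    rcases heG with hh | hh
    exacts [(h.off hh).2, (h.off hh).1]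
  have ab := h.ab
  have cb := h.cb
  have db := h.db
  have top := h.top
  have uM : u ∈ M := by
    by_contra hh
    have := h.supe (X := insert b U) (Y := M) (s := b) (t := c) (by simp) m1 (by simp [cb, cU]) m3
      heG (by simp [hu]) hh (m6.resolve_left hh) (by simp [vb, vU])
    have := top (insert b U ∩ M)
    have := top (insert b U ∪ M)
    omega
  have nbu : ∀ N, b ∈ N → u ∈ N → a ∉ N → c ∉ N → fr p b y (e ::ₘ G) N ≤ 0 := by
    intro N n1 n2 n3 n4
    by_contra hh
    have s1 := h.sup n1 m1 n4 m3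
    have := top (N ∪ M)
    have n := (h.nb (N ∩ M) (mem_inter.2 ⟨n1, m1⟩) (by simp [n3]) (by simp [n4]) (by simp [m4])
      (by omega)).1
    rcases heG with hh | hh
    exacts [(n _ hh).1 (mem_inter.2 ⟨n2, uM⟩), (n _ hh).2 (mem_inter.2 ⟨n2, uM⟩)]
  have hY : 0 ≤ fr p b y (e ::ₘ G) (U ∪ C)ᶜ := by
    refine hty.resolve_left (fun hh => ?_)
    have := nbu (A ∪ C)ᶜ (by simp [bA, bC]) (by simp [uA, uC]) (by simp [ha]) (by simp [hc])
    omega
  have hV : ∀ N, b ∈ N → u ∈ N → c ∉ N → v ∉ N →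
      fr p b y (e ::ₘ G) N + 1 ≤ fr p b y (e ::ₘ G) (N ∩ (U ∪ C)ᶜ) := by
    intro N n1 n2 n3 n4
    have := h.supe (X := N) (Y := (U ∪ C)ᶜ) (s := b) (t := c) n1 (by simp [bU, bC]) n3
      (by simp [hc]) heG n2 (by simp [hu]) (by simp [vU, vC]) n4
    have := top (N ∪ (U ∪ C)ᶜ)
    omega
  have nbd : ∀ N, b ∈ N → d ∈ N → a ∉ N → c ∉ N → fr p b y (e ::ₘ G) N ≤ 0 := by
    intro N n1 n2 n3 n4
    by_cases n5 : u ∈ N
    · exact nbu N n1 n5 n3 n4
    · have s1 := h.sup (Y := insert b A) n1 (by simp) n5 (by simp [ub, uA])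
      have s2 := h.sup (X := N ∪ insert b A) (Y := insert b C) (s := b) (t := u) (by simp) (by simp)
        (by simp [ub, uA, n5]) (by simp [ub, uC])
      have := top (N ∩ insert b A)
      have := top ((N ∪ insert b A) ∩ insert b C)
      have := h.all4 (X := (N ∪ insert b A) ∪ insert b C) (by simp [ha]) (by simp) (by simp [hc])
        (by simp [n2])
      omega
  obtain ⟨N, hN, hlt⟩ := exists_blocker h.cs h.hv h.uns
    (H := (u, a) ::ₘ (c, v) ::ₘ (b, d) ::ₘ (b, y) ::ₘ G) (by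
      rcases he with rfl | rfl <;> simp only [ends_cons, mass] <;>
        simp only [← Multiset.singleton_add] <;> abel) {U, A, C} hP.disj ht
  have hlt' : cut (u, a) N + cut (c, v) N + cut (b, d) N - cut (u, v) N < fr p b y (e ::ₘ G) N := by
    simp only [dG_cons] at hlt
    simp only [fr, dG_cons, hce]
    omega
  have k1 : u ∈ N → a ∈ N → v ∉ N → c ∉ N → b ∉ N → fr p b y (e ::ₘ G) N ≤ -1 := by
    intro n1 n2 n3 n4 n5
    have s1 := h.sup (Y := insert b (U ∪ A)) n1 (by simp [hu]) n4 (by simp [cb, cU, cA])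
    rw [inter_insert_of_notMem n5,
      inter_eq_right.2 (union_subset (hN.sub sU hu n1) (hN.sub sA ha n2))] at s1
    have := hV (N ∪ insert b (U ∪ A)) (by simp) (by simp [n1]) (by simp [n4, cb, cU, cA])
      (by simp [n3, vb, vU, vA])
    have := top ((N ∪ insert b (U ∪ A)) ∩ (U ∪ C)ᶜ)
    omega
  have k2 : u ∈ N → a ∈ N → c ∈ N → d ∉ N → b ∉ N → fr p b y (e ::ₘ G) N ≤ 0 := by
    intro n1 n2 n3 n4 n5
    have s1 := h.sup (Y := insert b (U ∪ A ∪ C)) n1 (by simp [hu]) n4 (by simp [db, dU, dA, dC])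
    rw [inter_insert_of_notMem n5, inter_eq_right.2 (union_subset
      (union_subset (hN.sub sU hu n1) (hN.sub sA ha n2)) (hN.sub sC hc n3))] at s1
    have := top (N ∪ insert b (U ∪ A ∪ C))
    omega
  have k3 : a ∈ N → v ∈ N → u ∉ N → d ∉ N → fr p b y (e ::ₘ G) N ≤ 0 := by
    intro n1 n2 n3 n4
    have := h.supe (X := insert b (U ∪ A ∪ C)) (Y := N) (s := a) (t := d) (by simp [ha]) n1
      (by simp [db, dU, dA, dC]) n4 heG (by simp [hu]) n3 n2 (by simp [vb, vU, vA, vC])
    have := top (insert b (U ∪ A ∪ C) ∩ N)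
    have := top (insert b (U ∪ A ∪ C) ∪ N)
    omega
  have k4 : c ∈ N → v ∈ N → u ∉ N → a ∉ N → d ∉ N → fr p b y (e ::ₘ G) N ≤ -1 := by
    intro n1 n2 n3 n4 n5
    have := h.supe (X := insert b (U ∪ C)) (Y := N) (s := c) (t := d) (by simp [hc]) n1
      (by simp [db, dU, dC]) n5 heG (by simp [hu]) n3 n2 (by simp [vb, vU, vC])
    have := top (insert b (U ∪ C) ∩ N)
    by_contra hh
    exact h.nf2 heG m1 m3 m4 m5 m6 (Y := insert b (U ∪ C) ∪ N) (by simp) (by simp [ab, aU, aC, n4])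
      (by simp [db, dU, dC, n5]) (by omega) (by simp [hu])
  have k5 : b ∈ N → u ∉ N → a ∉ N → v ∈ N → c ∈ N → d ∈ N → fr p b y (e ::ₘ G) N ≤ -1 := by
    intro n1 n2 n3 n4 n5 n6
    by_cases hall : ∀ z, z ∉ U → z ∉ A → z ∈ N
    · have : N = (U ∪ A)ᶜ := by
        ext z
        simp only [mem_compl, mem_union, not_or]
        exact ⟨fun hz => ⟨fun hh => disjoint_left.1 (hN.disj sU hu n2) hh hz,
          fun hh => disjoint_left.1 (hN.disj sA ha n3) hh hz⟩, fun hz => hall z hz.1 hz.2⟩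
      rw [this]; exact bUA'
    · push Not at hall
      obtain ⟨z, z1, z2, z3⟩ := hall
      have zb' : z ≠ b := fun hh => z3 (hh ▸ n1)
      have := h.supe (X := insert b U) (Y := N) (s := b) (t := a) (by simp) n1
        (by simp [ab, aU]) n3 heG (by simp [hu]) n2 n4 (by simp [vb, vU])
      have := top (insert b U ∩ N)
      have := h.sup (X := insert b U ∪ N) (Y := insert b A) (s := b) (t := z) (by simp) (by simp)
        (by simp [zb', z1, z3]) (by simp [zb', z2])
      have := top ((insert b U ∪ N) ∩ insert b A)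
      have := h.all4 (X := (insert b U ∪ N) ∪ insert b A) (by simp [ha]) (by simp) (by simp [n5])
        (by simp [n6])
      omega
  have k6 : b ∈ N → v ∈ N → a ∉ N → d ∉ N → fr p b y (e ::ₘ G) N ≤ 0 := by
    intro n1 n2 n3 n4
    by_contra hh
    exact h.nf2 heG m1 m3 m4 m5 m6 n1 n3 n4 (by omega) (Or.inr n2)
  have k7 : u ∈ N → a ∈ N → b ∈ N → d ∈ N → c ∉ N → v ∉ N → fr p b y (e ::ₘ G) N ≤ -1 := by
    intro n1 n2 n3 n4 n5 n6
    have := hV N n3 n1 n5 n6
    have := h.sup (X := N ∩ (U ∪ C)ᶜ) (Y := insert b C) (s := b) (t := u) (by simp [n3, bU, bC])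
      (by simp) (by simp [hu]) (by simp [ub, uC])
    have := top ((N ∩ (U ∪ C)ᶜ) ∩ insert b C)
    have := h.all4 (X := (N ∩ (U ∪ C)ᶜ) ∪ insert b C) (by simp [n2, aU, aC]) (by simp)
      (by simp [hc]) (by simp [n4, dU, dC])
    omega
  have k8 : u ∈ N → b ∈ N → c ∉ N → v ∉ N → fr p b y (e ::ₘ G) N ≤ 0 := by
    intro n1 n2 n3 n4
    have := hV N n2 n1 n3 n4
    have := top (N ∩ (U ∪ C)ᶜ)
    omega
  have k9 := h.nad (Y := N)
  have k10 := h.ncd (Y := N)
  have k11 := nbd N
  have k12 := top N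
  have k13 := h.all4 (X := N)
  have k14 := h.none4 (X := N)
  by_cases n1 : u ∈ N <;> by_cases n2 : a ∈ N <;> by_cases n3 : c ∈ N <;> by_cases n4 : v ∈ N <;>
    by_cases n5 : d ∈ N <;> by_cases n6 : b ∈ N <;>
    simp [cut, n1, n2, n3, n4, n5, n6] at hlt' k1 k2 k3 k4 k5 k6 k7 k8 k9 k10 k11 k13 k14 <;> omega

/-- the case without edges away from the anchor -/
theorem base (h : HL p b y W 0 a c d) {A C : Finset V} (hP : SubP W {A, C}) (hAC : A ≠ C)
    (ha : a ∈ A) (hc : c ∈ C) (dA : d ∉ A) (dC : d ∉ C)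
    (fA : 1 ≤ fr p b y 0 (insert b A)) (fC : 1 ≤ fr p b y 0 (insert b C))
    (fAC : 1 ≤ fr p b y 0 (insert b (A ∪ C)))
    (nA : ∀ L ⊆ A, L.Nonempty → 1 ≤ fr p b y 0 (insert b L) → L = A)
    (nC : ∀ L ⊆ C, L.Nonempty → 1 ≤ fr p b y 0 (insert b L) → L = C) :
    1 ≤ symmMax p A ∧ 1 ≤ symmMax p C ∧ 1 ≤ symmMax p (A ∪ C) := by
  have sA : A ∈ ({A, C} : Finset (Finset V)) := by simp
  have sC : C ∈ ({A, C} : Finset (Finset V)) := by simp
  have AW := hP.sub A sA
  have CW := hP.sub C sC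
  have dj := disjoint_left.1 (hP.disj A sA C sC hAC)
  have bA : b ∉ A := fun hh => h.bW (AW hh)
  have bC : b ∉ C := fun hh => h.bW (CW hh)
  have aC : a ∉ C := dj ha
  have cA : c ∉ A := fun hh => dj hh hc
  have ab := h.ab
  have cb := h.cb
  have db := h.db
  have top := h.top
  have fp : ∀ X, fr p b y 0 X ≤ p X := by
    intro X
    have := cut_nonneg (b, y) X
    simp only [fr, dG_zero]; omega
  obtain ⟨N, hN⟩ := h.blk
  have hcase : (a ∈ N ∧ c ∈ N ∧ b ∉ N ∧ d ∉ N ∨ a ∉ N ∧ c ∉ N ∧ b ∈ N ∧ d ∈ N) ∧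
      1 ≤ fr p b y 0 N := by
    have k12 := top N
    have k13 := h.all4 (X := N)
    have k14 := h.none4 (X := N)
    by_cases n2 : a ∈ N <;> by_cases n3 : c ∈ N <;> by_cases n5 : d ∈ N <;> by_cases n6 : b ∈ N <;>
      simp [cut, n2, n3, n5, n6] at hN k13 k14 ⊢ <;> omega
  obtain ⟨⟨n1, n2, n3, n4⟩ | ⟨n1, n2, n3, n4⟩, hf⟩ := hcase
  · have key : ∀ A C : Finset V, ∀ s, s ∈ C → s ∈ N → (∀ v ∈ A, v ∉ C) → d ∉ A → d ∉ C →
        1 ≤ fr p b y 0 (insert b A) → 1 ≤ fr p b y 0 (insert b C) →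
        1 ≤ fr p b y 0 (insert b (A ∩ N)) := by
      intro A C s s1 s2 dj dA dC fA fC
      have t1 := h.sup (X := N) (Y := insert b C) s2 (mem_insert_of_mem s1) n4 (by simp [db, dC])
      have t2 := h.sup (X := insert b A) (Y := N ∪ insert b C) (s := b) (t := d) (by simp) (by simp)
        (by simp [db, dA]) (by simp [db, dC, n4])
      have e1 : insert b A ∩ (N ∪ insert b C) = insert b (A ∩ N) := by
        ext v
        simp only [mem_inter, mem_insert, mem_union]
        have := dj v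
        tauto
      rw [e1] at t2
      have := top (N ∩ insert b C)
      have := top (insert b A ∪ (N ∪ insert b C))
      omega
    have a1 := nA _ inter_subset_left ⟨a, mem_inter.2 ⟨ha, n1⟩⟩ (key A C c hc n2 dj dA dC fA fC)
    have a2 := nC _ inter_subset_left ⟨c, mem_inter.2 ⟨hc, n2⟩⟩
      (key C A a ha n1 (fun v hv hh => dj hh hv) dC dA fC fA)
    have t1 := h.sup (X := N) (Y := insert b (A ∪ C)) n1 (by simp [ha]) n4 (by simp [db, dA, dC])
    rw [inter_insert_of_notMem n3,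
      inter_eq_right.2 (union_subset (inter_eq_left.1 a1) (inter_eq_left.1 a2))] at t1
    have t2 := h.sup (X := A ∪ C) (Y := insert b A) (s := a) (t := d) (by simp [ha]) (by simp [ha])
      (by simp [dA, dC]) (by simp [db, dA])
    rw [inter_insert_of_notMem (by simp [bA, bC]), inter_eq_right.2 subset_union_left] at t2
    have t3 := h.sup (X := A ∪ C) (Y := insert b C) (s := c) (t := d) (by simp [hc]) (by simp [hc])
      (by simp [dA, dC]) (by simp [db, dC])
    rw [inter_insert_of_notMem (by simp [bA, bC]), inter_eq_right.2 subset_union_right] at t3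
    have := top (N ∪ insert b (A ∪ C))
    have := top ((A ∪ C) ∪ insert b A)
    have := top ((A ∪ C) ∪ insert b C)
    have := fp A
    have := fp C
    have := fp (A ∪ C)
    unfold symmMax
    omega
  · have t1 := h.sup (X := N) (Y := insert b A) n3 (by simp) n2 (by simp [cb, cA])
    have t2 := h.sup (X := N) (Y := insert b C) n3 (by simp) n1 (by simp [ab, aC])
    have u1 := top (N ∩ insert b A)
    have u2 := top (N ∪ insert b A)
    have u3 := top (N ∩ insert b C)
    have u4 := top (N ∪ insert b C)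
    have e1 := (h.nb (N ∩ insert b A) (by simp [n3]) (by simp [n1]) (by simp [n2])
      (by simp [db, dA]) (by omega)).2 (inter_subset_right.trans (insert_subset_insert _ AW))
    have e2 := (h.nb (N ∩ insert b C) (by simp [n3]) (by simp [n1]) (by simp [n2])
      (by simp [db, dC]) (by omega)).2 (inter_subset_right.trans (insert_subset_insert _ CW))
    have d1 : ∀ v ∈ A, v ∉ N := fun v hv hh => bA (mem_singleton.1
      (e1 ▸ mem_inter.2 ⟨hh, mem_insert_of_mem hv⟩ : v ∈ ({b} : Finset V)) ▸ hv)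
    have d2 : ∀ v ∈ C, v ∉ N := fun v hv hh => bC (mem_singleton.1
      (e2 ▸ mem_inter.2 ⟨hh, mem_insert_of_mem hv⟩ : v ∈ ({b} : Finset V)) ▸ hv)
    have hall : ∀ z, z ∉ A → z ∉ C → z ∈ N := by
      intro z z1 z2
      by_contra z3
      have zb' : z ≠ b := fun hh => z3 (hh ▸ n3)
      have := h.sup (X := N ∪ insert b A) (Y := insert b C) (s := b) (t := z) (by simp) (by simp)
        (by simp [zb', z1, z3]) (by simp [zb', z2])
      have := top ((N ∪ insert b A) ∩ insert b C)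
      have := h.all4 (X := (N ∪ insert b A) ∪ insert b C) (by simp [ha]) (by simp) (by simp [hc])
        (by simp [n4])
      omega
    have q1 : N = (A ∪ C)ᶜ := by
      ext z
      simp only [mem_compl, mem_union, not_or]
      exact ⟨fun hz => ⟨fun hh => d1 z hh hz, fun hh => d2 z hh hz⟩, fun hz => hall z hz.1 hz.2⟩
    have q2 : N ∪ insert b A = Cᶜ := by
      ext z
      simp only [mem_compl, mem_union, mem_insert]
      constructor
      · rintro (hz | rfl | hz)
        exacts [fun hh => d2 z hh hz, bC, dj hz]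
      · intro hz; by_cases hh : z ∈ A
        exacts [Or.inr (Or.inr hh), Or.inl (hall z hh hz)]
    have q3 : N ∪ insert b C = Aᶜ := by
      ext z
      simp only [mem_compl, mem_union, mem_insert]
      constructor
      · rintro (hz | rfl | hz)
        exacts [fun hh => d1 z hh hz, bA, fun hh => dj hh hz]
      · intro hz; by_cases hh : z ∈ C
        exacts [Or.inr (Or.inr hh), Or.inl (hall z hz hh)]
    have := fp (N ∪ insert b A)
    have := fp (N ∪ insert b C)
    have := fp N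
    unfold symmMax
    rw [← q1, ← q2, ← q3]
    omega

end HL

end Pool.Agent.CSG.Hv

end

-- part MP_305420_co.Node
section

/-! Node level inequalities for a local star structure and the Helly type lemma. -/

namespace Pool.Agent.CSG

open Finset

variable {ι : Type*} [DecidableEq ι]

/-- `y`, `yb` measure the two types of goodness of a union of parts, `δ` the excess of the unions
that contain the anchor, `T` marks the tight parts -/
structure Node (S : Finset ι) (y yb δ : Finset ι → ℤ) (T : ι → Prop) : Prop where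
  s1 : ∀ I ⊆ S, ∀ J ⊆ S, (I ∩ J).Nonempty → y I + y J ≤ y (I ∩ J) + y (I ∪ J)
  s1b : ∀ I ⊆ S, ∀ J ⊆ S, (I ∩ J).Nonempty → yb I + yb J ≤ yb (I ∩ J) + yb (I ∪ J)
  s2 : ∀ I ⊆ S, ∀ J ⊆ S, (I \ J).Nonempty → δ J + yb I ≤ δ (J \ I) + yb (I \ J)
  s3 : ∀ I ⊆ S, ∀ J ⊆ S, (I ∩ J).Nonempty → y I + δ J ≤ y (I ∩ J) + δ (I ∪ J)
  d0 : ∀ J ⊆ S, 0 ≤ δ J
  dle : ∀ J ⊆ S, J.Nonempty → δ J ≤ (J.card : ℤ) - 1
  de : δ ∅ = 0
  t1 : ∀ k ∈ S, T k → y {k} ≤ 0
  t2 : ∀ k ∈ S, T k → yb {k} ≤ 0

/-- growth over a nonempty base -/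
theorem grow {S : Finset ι} {g : Finset ι → ℤ}
    (hs : ∀ I ⊆ S, ∀ J ⊆ S, (I ∩ J).Nonempty → g I + g J ≤ g (I ∩ J) + g (I ∪ J))
    {B : Finset ι} (hB : B ⊆ S) (hne : B.Nonempty) (c : ℤ) (D : Finset ι) (hD : D ⊆ S)
    (hd : Disjoint B D) (h : ∀ j ∈ D, g B + c ≤ g (insert j B)) :
    g B + c * D.card ≤ g (B ∪ D) := by
  induction D using Finset.induction_on with
  | empty => simp
  | insert j D hj ih =>
    have hjS : j ∈ S := hD (mem_insert_self _ _)
    have hjB : j ∉ B := fun hh => disjoint_left.1 hd hh (mem_insert_self _ _)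
    have hD' : D ⊆ S := (subset_insert _ _).trans hD
    have h1 := ih hD' (hd.mono_right (subset_insert _ _)) (fun i hi => h i (mem_insert_of_mem hi))
    have e1 : (B ∪ D) ∩ insert j B = B := by
      ext v
      simp only [mem_inter, mem_union, mem_insert]
      constructor
      · rintro ⟨h1 | h1, h2 | h2⟩
        · exact h1
        · exact h1
        · exact absurd (h2 ▸ h1) hj
        · exact h2
      · intro h1; exact ⟨Or.inl h1, Or.inr h1⟩
    have e2 : (B ∪ D) ∪ insert j B = B ∪ insert j D := by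
      ext v
      simp only [mem_union, mem_insert]
      tauto
    have h2 := hs (B ∪ D) (union_subset hB hD') (insert j B) (insert_subset hjS hB)
      (by rw [e1]; exact hne)
    rw [e1, e2] at h2
    have h3 := h j (mem_insert_self _ _)
    rw [card_insert_of_notMem hj]
    push_cast
    linarith

theorem grow_le {S : Finset ι} {g : Finset ι → ℤ}
    (hs : ∀ I ⊆ S, ∀ J ⊆ S, (I ∩ J).Nonempty → g I + g J ≤ g (I ∩ J) + g (I ∪ J))
    {B : Finset ι} (hB : B ⊆ S) (hne : B.Nonempty) (β : ℤ) (D : Finset ι) (hD : D ⊆ S)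
    (hd : Disjoint B D) (hDne : D.Nonempty) (hβ : g B ≤ β) (h : ∀ j ∈ D, β ≤ g (insert j B)) :
    β ≤ g (B ∪ D) := by
  have h1 := grow hs hB hne (β - g B) D hD hd (fun j hj => by have := h j hj; omega)
  have h2 : (1 : ℤ) ≤ D.card := by exact_mod_cast card_pos.2 hDne
  nlinarith

namespace Node

variable {S : Finset ι} {y yb δ : Finset ι → ℤ} {T : ι → Prop}

theorem yb_anti (h : Node S y yb δ T) {I J : Finset ι} (hIJ : I ⊆ J) (hJ : J ⊆ S)
    (hne : I.Nonempty) : yb J ≤ yb I := by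
  have e1 : J \ (J \ I) = I := by rw [Finset.sdiff_sdiff_eq_self hIJ]
  have e2 : (J \ I) \ J = ∅ := by
    rw [sdiff_eq_empty_iff_subset]; exact sdiff_subset
  have h1 := h.s2 J hJ (J \ I) (sdiff_subset.trans hJ) (by rw [e1]; exact hne)
  rw [e1, e2, h.de] at h1
  have := h.d0 (J \ I) (sdiff_subset.trans hJ)
  omega

theorem yb_nonpos (h : Node S y yb δ T) {I : Finset ι} (hI : I ⊆ S) {k : ι} (hk : k ∈ I)
    (hT : T k) : yb I ≤ 0 :=
  (h.yb_anti (singleton_subset_iff.2 hk) hI (singleton_nonempty k)).trans (h.t2 k (hI hk) hT)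

theorem y_le (h : Node S y yb δ T) {I : Finset ι} (hI : I ⊆ S) {k : ι} (hk : k ∈ I)
    (hT : T k) : y I ≤ δ I := by
  have hk' : ({k} : Finset ι) ⊆ I := singleton_subset_iff.2 hk
  have h1 := h.s3 I hI {k} (hk'.trans hI) (by rw [inter_eq_right.2 hk']; simp)
  rw [inter_eq_right.2 hk', union_eq_left.2 hk'] at h1
  have := h.t1 k (hI hk) hT
  have := h.d0 {k} (hk'.trans hI)
  omega

/-- the excess grows by one with every part that repairs the base -/
theorem delta_grow (h : Node S y yb δ T) {B J : Finset ι} (hne : B.Nonempty) (hBJ : B ⊆ J)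
    (hJ : J ⊆ S) (D : Finset ι) (hD : D ⊆ S) (hd : Disjoint J D)
    (hy : ∀ j ∈ D, y B + 1 ≤ y (insert j B)) : δ J + D.card ≤ δ (J ∪ D) := by
  induction D using Finset.induction_on with
  | empty => simp
  | insert j D hj ih =>
    have hjS : j ∈ S := hD (mem_insert_self _ _)
    have hjJ : j ∉ J := fun hh => disjoint_left.1 hd hh (mem_insert_self _ _)
    have hD' : D ⊆ S := (subset_insert _ _).trans hD
    have h1 := ih hD' (hd.mono_right (subset_insert _ _)) (fun i hi => hy i (mem_insert_of_mem hi))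
    have e1 : insert j B ∩ (J ∪ D) = B := by
      ext v
      simp only [mem_inter, mem_union, mem_insert]
      constructor
      · rintro ⟨h2 | h2, h1 | h1⟩
        · exact absurd (h2 ▸ h1) hjJ
        · exact absurd (h2 ▸ h1) hj
        · exact h2
        · exact h2
      · intro h1; exact ⟨Or.inr h1, Or.inl (hBJ h1)⟩
    have e2 : insert j B ∪ (J ∪ D) = J ∪ insert j D := by
      ext v
      simp only [mem_union, mem_insert]
      constructor
      · rintro ((h1 | h1) | h1 | h1)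
        · exact Or.inr (Or.inl h1)
        · exact Or.inl (hBJ h1)
        · exact Or.inl h1
        · exact Or.inr (Or.inr h1)
      · rintro (h1 | h1 | h1)
        · exact Or.inr (Or.inl h1)
        · exact Or.inl (Or.inl h1)
        · exact Or.inr (Or.inr h1)
    have h2 := h.s3 (insert j B) (insert_subset hjS (hBJ.trans hJ)) (J ∪ D) (union_subset hJ hD')
      (by rw [e1]; exact hne)
    rw [e1, e2] at h2
    have h3 := hy j (mem_insert_self _ _)
    rw [card_insert_of_notMem hj]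
    push_cast
    linarith

/-- a superset of a bad set that is good is good of the first type -/
theorem y_of_good (h : Node S y yb δ T) {I J : Finset ι} (hIJ : I ⊆ J) (hJ : J ⊆ S)
    (hne : I.Nonempty) (hb : yb I < 0) (hg : 0 ≤ y J ∨ 0 ≤ yb J) : 0 ≤ y J := by
  have := h.yb_anti hIJ hJ hne
  omega

/-- two good pairs of the same type over a tight base -/
theorem triple (h : Node S y yb δ T) {i j k : ι} (hi : i ∈ S) (hj : j ∈ S) (hk : k ∈ S)
    (hij : i ≠ j) (hT : T k)
    (hg : (0 ≤ y {k, i} ∧ 0 ≤ y {k, j}) ∨ (0 ≤ yb {k, i} ∧ 0 ≤ yb {k, j})) :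
    0 ≤ y {k, i, j} ∨ 0 ≤ yb {k, i, j} := by
  have s1 : ({k, i} : Finset ι) ⊆ S := by
    intro v hv; simp only [mem_insert, mem_singleton] at hv; rcases hv with rfl | rfl <;> assumption
  have s2 : ({k, j} : Finset ι) ⊆ S := by
    intro v hv; simp only [mem_insert, mem_singleton] at hv; rcases hv with rfl | rfl <;> assumption
  have e1 : ({k, i} : Finset ι) ∩ {k, j} = {k} := by
    ext v
    simp only [mem_inter, mem_insert, mem_singleton]
    constructor
    · rintro ⟨h1 | h1, h2 | h2⟩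
      · exact h1
      · exact h1
      · exact h2
      · exact absurd (h1.symm.trans h2) hij
    · intro h1; exact ⟨Or.inl h1, Or.inl h1⟩
  have e2 : ({k, i} : Finset ι) ∪ {k, j} = {k, i, j} := by
    ext v
    simp only [mem_union, mem_insert, mem_singleton]
    tauto
  have h1 := h.s1 _ s1 _ s2 (by rw [e1]; simp)
  have h2 := h.s1b _ s1 _ s2 (by rw [e1]; simp)
  rw [e1, e2] at h1 h2
  have := h.t1 k hk hT
  have := h.t2 k hk hT
  omega

open Classical in
/-- **Helly three.** A bad set with enough tight parts has a bad subset with at most three parts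
through any given tight part. -/
theorem helly3 (h : Node S y yb δ T) {I : Finset ι} (hI : I ⊆ S) (hy : y I < 0) (hyb : yb I < 0)
    (hc : δ I + 2 ≤ ((I.filter T).card : ℤ)) {k : ι} (hk : k ∈ I) (hT : T k) :
    ∃ J ⊆ I, k ∈ J ∧ J.card ≤ 3 ∧ y J < 0 ∧ yb J < 0 := by
  by_contra hcon
  have hg : ∀ J ⊆ I, k ∈ J → J.card ≤ 3 → 0 ≤ y J ∨ 0 ≤ yb J := by
    intro J hJ hkJ hcard
    by_contra hh
    exact hcon ⟨J, hJ, hkJ, hcard, by omega, by omega⟩
  have hkS : ({k} : Finset ι) ⊆ S := singleton_subset_iff.2 (hI hk)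
  have hyk := h.t1 k (hI hk) hT
  have hd0 := h.d0 I hI
  -- there is a second part
  have hIk : (I.erase k).Nonempty := by
    rw [← card_pos, card_erase_of_mem hk]
    have := card_filter_le I T
    omega
  have hIeq : {k} ∪ I.erase k = I := by
    ext v; simp only [mem_union, mem_singleton, mem_erase]
    constructor
    · rintro (rfl | h1)
      exacts [hk, h1.2]
    · intro h1; by_cases hv : v = k
      exacts [Or.inl hv, Or.inr ⟨hv, h1⟩]
  have hdk : Disjoint {k} (I.erase k) := by simp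
  -- some pair is not of the first type
  obtain ⟨j0, hj0, hj0y⟩ : ∃ j ∈ I.erase k, y (insert j {k}) < 0 := by
    by_contra hh
    push Not at hh
    have := grow_le h.s1 hkS (singleton_nonempty k) 0 (I.erase k) ((erase_subset _ _).trans hI)
      hdk hIk hyk hh
    rw [hIeq] at this
    omega
  have hpair : ∀ j ∈ I, insert j ({k} : Finset ι) ⊆ I := fun j hj =>
    insert_subset hj (singleton_subset_iff.2 hk)
  have hpairb : ∀ j ∈ I, y (insert j {k}) < 0 → 0 ≤ yb (insert j {k}) := by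
    intro j hj hlt
    have := hg _ (hpair j hj) (by simp) ((card_insert_le _ _).trans (by simp))
    omega
  -- the largest set of the second type through `k`
  obtain ⟨Q, hQ, hmax⟩ := exists_max_image (I.powerset.filter (fun Q => k ∈ Q ∧ 0 ≤ yb Q)) card
    ⟨insert j0 {k}, by
      simp only [mem_filter, mem_powerset]
      exact ⟨hpair j0 (mem_of_mem_erase hj0), by simp, hpairb j0 (mem_of_mem_erase hj0) hj0y⟩⟩
  simp only [mem_filter, mem_powerset] at hQ hmax
  obtain ⟨hQI, hkQ, hQb⟩ := hQ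
  have habs : ∀ P ⊆ I, k ∈ P → 0 ≤ yb P → P ⊆ Q := by
    intro P hP hkP hPb
    have h1 := h.s1b Q (hQI.trans hI) P (hP.trans hI) ⟨k, mem_inter.2 ⟨hkQ, hkP⟩⟩
    have h2 := h.yb_nonpos (I := Q ∩ P) (inter_subset_left.trans (hQI.trans hI))
      (mem_inter.2 ⟨hkQ, hkP⟩) hT
    have h3 := hmax (Q ∪ P) ⟨union_subset hQI hP, mem_union_left _ hkQ, by omega⟩
    have h4 : Q = Q ∪ P := eq_of_subset_of_card_le subset_union_left h3
    rw [h4]; exact subset_union_right
  set O := I \ Q with hO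
  have hOI : O ⊆ I := sdiff_subset
  have hOne : O.Nonempty := by
    rw [hO, sdiff_nonempty]
    intro hh
    rw [Subset.antisymm hQI hh] at hQb
    omega
  have hkO : k ∉ O := fun hh => (mem_sdiff.1 hh).2 hkQ
  have htrip : ∀ j ∈ I, ∀ i ∈ O, 0 ≤ y (insert i (insert j {k})) := by
    intro j hj i hi
    have hsub : insert i (insert j ({k} : Finset ι)) ⊆ I := insert_subset (hOI hi) (hpair j hj)
    rcases hg _ hsub (by simp) ((card_insert_le _ _).trans
      (Nat.succ_le_succ ((card_insert_le _ _).trans (by simp)))) with h1 | h1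
    · exact h1
    · exact absurd (habs _ hsub (by simp) h1 (mem_insert_self _ _)) (mem_sdiff.1 hi).2
  have hDQ : ∀ j ∈ I, y (insert j {k}) < 0 → insert j ({k} : Finset ι) ⊆ Q := fun j hj hlt =>
    habs _ (hpair j hj) (by simp) (hpairb j hj hlt)
  have hQO : Q ∪ O = I := union_sdiff_of_subset hQI
  have hdQO : Disjoint Q O := disjoint_sdiff
  -- the excess of `I` is at least the size of `O`
  have hδ : (O.card : ℤ) ≤ δ I := by
    have h1 := h.delta_grow (B := insert j0 {k}) (insert_nonempty _ _)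
      (hDQ j0 (mem_of_mem_erase hj0) hj0y) (hQI.trans hI) O (hOI.trans hI) hdQO
      (fun i hi => by have := htrip j0 (mem_of_mem_erase hj0) i hi; omega)
    rw [hQO] at h1
    have := h.d0 Q (hQI.trans hI)
    omega
  -- a second tight part in `Q`
  obtain ⟨k', hk'Q, hk'k, hT'⟩ : ∃ k' ∈ Q, k' ≠ k ∧ T k' := by
    by_contra hh
    push Not at hh
    have h1 : I.filter T ⊆ insert k O := by
      intro v hv
      obtain ⟨hv1, hv2⟩ := mem_filter.1 hv
      by_cases hvQ : v ∈ Q
      · by_cases hvk : v = k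
        · rw [hvk]; exact mem_insert_self _ _
        · exact absurd hv2 (hh v hvQ hvk)
      · exact mem_insert_of_mem (mem_sdiff.2 ⟨hv1, hvQ⟩)
    have h2 := (card_le_card h1).trans (card_insert_le _ _)
    omega
  have hBI : insert k O ⊆ I := insert_subset hk hOI
  have hβ1 : y (insert k O) ≤ (O.card : ℤ) - 1 := by
    have h1 := h.y_le (hBI.trans hI) (mem_insert_self _ _) hT
    have e1 : Q \ insert k O = Q.erase k := by
      ext v
      simp only [mem_sdiff, mem_insert, mem_erase, hO]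
      tauto
    have e2 : insert k O \ Q = O := by
      ext v
      simp only [mem_sdiff, mem_insert, hO]
      constructor
      · rintro ⟨rfl | h1, h2⟩
        exacts [absurd hkQ h2, h1]
      · intro h1; exact ⟨Or.inr h1, h1.2⟩
    have h2 := h.s2 Q (hQI.trans hI) (insert k O) (hBI.trans hI)
      (by rw [e1]; exact ⟨k', mem_erase.2 ⟨hk'k, hk'Q⟩⟩)
    rw [e1, e2] at h2
    have h3 := h.yb_nonpos (I := Q.erase k) ((erase_subset _ _).trans (hQI.trans hI))
      (mem_erase.2 ⟨hk'k, hk'Q⟩) hT'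
    have h4 := h.dle O (hOI.trans hI) hOne
    omega
  have hβ0 : 0 ≤ y (insert k O) := by
    have h1 := grow_le h.s1 hkS (singleton_nonempty k) 0 O (hOI.trans hI) (by simpa using hkO)
      hOne hyk (fun i hi => by
        by_contra hlt
        exact (mem_sdiff.1 hi).2 (hDQ i (hOI hi) (by omega) (mem_insert_self _ _)))
    rwa [← insert_eq] at h1
  have hfin := grow_le h.s1 (hBI.trans hI) (insert_nonempty _ _) (y (insert k O)) (Q.erase k)
    ((erase_subset _ _).trans (hQI.trans hI)) ?_ ⟨k', mem_erase.2 ⟨hk'k, hk'Q⟩⟩ le_rfl ?_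
  · have e : insert k O ∪ Q.erase k = I := by
      ext v
      simp only [mem_union, mem_insert, mem_erase, hO, mem_sdiff]
      constructor
      · rintro ((rfl | h1) | h1)
        exacts [hk, h1.1, hQI h1.2]
      · intro h1
        by_cases hv : v = k
        · exact Or.inl (Or.inl hv)
        · by_cases hvQ : v ∈ Q
          exacts [Or.inr ⟨hv, hvQ⟩, Or.inl (Or.inr ⟨h1, hvQ⟩)]
    rw [e] at hfin
    omega
  · rw [disjoint_left]
    intro v hv hv'
    obtain ⟨h1, h2⟩ := mem_erase.1 hv'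
    rcases mem_insert.1 hv with h3 | h3
    · exact h1 h3
    · exact (mem_sdiff.1 h3).2 h2
  · intro j hj
    obtain ⟨hjk, hjQ⟩ := mem_erase.1 hj
    have hjO : j ∉ O := fun hh => (mem_sdiff.1 hh).2 hjQ
    have e2 : insert j ({k} : Finset ι) ∪ O = insert j (insert k O) := by
      ext v; simp only [mem_union, mem_insert, mem_singleton]; tauto
    by_cases hlt : y (insert j {k}) < 0
    · have h1 := grow h.s1 ((hpair j (hQI hjQ)).trans hI) (insert_nonempty _ _)
        (-y (insert j {k})) O (hOI.trans hI) ?_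
        (fun i hi => by have := htrip j (hQI hjQ) i hi; omega)
      · rw [e2] at h1
        have h2 : (1 : ℤ) ≤ O.card := by exact_mod_cast card_pos.2 hOne
        nlinarith
      · rw [disjoint_left]
        intro v hv hv'
        rcases mem_insert.1 hv with h3 | h3
        · exact hjO (h3 ▸ hv')
        · exact hkO (mem_singleton.1 h3 ▸ hv')
    · have e1 : insert k O ∩ insert j {k} = {k} := by
        ext v
        simp only [mem_inter, mem_insert, mem_singleton]
        constructor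
        · rintro ⟨h1 | h1, h2 | h2⟩
          · exact h1
          · exact h1
          · exact absurd (h2 ▸ h1) hjO
          · exact h2
        · intro h1; exact ⟨Or.inl h1, Or.inr h1⟩
      have e3 : insert k O ∪ insert j {k} = insert j (insert k O) := by
        ext v; simp only [mem_union, mem_insert, mem_singleton]; tauto
      have h1 := h.s1 _ (hBI.trans hI) _ ((hpair j (hQI hjQ)).trans hI) (by rw [e1]; simp)
      rw [e1, e3] at h1
      omega

end Node

end Pool.Agent.CSG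

end

-- part MP_305420_co.HMain
section

/-! Local to global in the heavy case. -/

set_option linter.unusedSectionVars false

namespace Pool.Agent.CSG.Hv

open Finset

variable {V : Type*} [Fintype V] [DecidableEq V]

theorem _root_.Pool.Agent.CSG.SubP.hvInter
    {W : Finset V} {S I J : Finset (Finset V)} (hS : SubP W S) (hI : I ⊆ S)
    (hJ : J ⊆ S) : I.sup id ∩ J.sup id = (I ∩ J).sup id := by
  ext v
  simp only [mem_inter, mem_sup_id]
  constructor
  · rintro ⟨⟨P, hP, h1⟩, ⟨Q, hQ, h2⟩⟩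
    exact ⟨P, mem_inter.2 ⟨hP, hS.eq_of_mem (hJ hQ) (hI hP) h2 h1 ▸ hQ⟩, h1⟩
  · rintro ⟨P, hP, h1⟩
    exact ⟨⟨P, (mem_inter.1 hP).1, h1⟩, ⟨P, (mem_inter.1 hP).2, h1⟩⟩

theorem _root_.Pool.Agent.CSG.SubP.hvSdiff
    {W : Finset V} {S I J : Finset (Finset V)} (hS : SubP W S) (hI : I ⊆ S)
    (hJ : J ⊆ S) : I.sup id \ J.sup id = (I \ J).sup id := by
  ext v
  simp only [mem_sdiff, mem_sup_id]
  constructor
  · rintro ⟨⟨P, hP, h1⟩, h2⟩
    exact ⟨P, mem_sdiff.2 ⟨hP, fun hh => h2 ⟨P, hh, h1⟩⟩, h1⟩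
  · rintro ⟨P, hP, h1⟩
    obtain ⟨a1, a2⟩ := mem_sdiff.1 hP
    exact ⟨⟨P, a1, h1⟩, fun ⟨Q, hQ, h2⟩ => a2 (hS.eq_of_mem (hJ hQ) (hI a1) h2 h1 ▸ hQ)⟩

theorem triple_rot {α : Type*} [DecidableEq α] (x y z : α) :
    ({z, x, y} : Finset α) = {x, y, z} := by
  rw [insert_comm z x, pair_comm z y]

theorem sdiff_sdiff_union {α : Type*} [DecidableEq α] (S I J : Finset α) :
    (S \ I) \ J = S \ (I ∪ J) := by
  ext k; simp only [mem_union, mem_sdiff, not_or, and_assoc]

theorem sup_union' (I J : Finset (Finset V)) : I.sup id ∪ J.sup id = (I ∪ J).sup id := by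
  rw [sup_union]; rfl

theorem _root_.Pool.Agent.CSG.SubP.hvMem
    {W : Finset V} {S I : Finset (Finset V)} (hS : SubP W S) (hI : I ⊆ S)
    {P : Finset V} (hP : P ∈ S) {v : V} (hv : v ∈ P) : v ∈ I.sup id ↔ P ∈ I := by
  refine ⟨fun hh => ?_, fun hh => part_subset_sup hh hv⟩
  obtain ⟨Q, hQ, hw'⟩ := mem_sup_id.1 hh
  exact hS.eq_of_mem (hI hQ) hP hw' hv ▸ hQ

theorem _root_.Pool.Agent.CSG.SubP.hvNe
    {W : Finset V} {S I : Finset (Finset V)} (hS : SubP W S) (hI : I ⊆ S)
    (hne : I.Nonempty) : ∃ v, v ∈ I.sup id := by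
  obtain ⟨P, hP⟩ := hne
  obtain ⟨v, hv⟩ := hS.ne P (hI hP)
  exact ⟨v, part_subset_sup hP hv⟩

theorem all_cut {G : Multiset (V × V)} {X : Finset V} (h : ∀ e ∈ G, cut e X = 1) :
    dG G X = Multiset.card G ∧ ms (ends G) X = Multiset.card G := by
  induction G using Multiset.induction_on with
  | empty => simp
  | cons e G ih =>
    obtain ⟨a1, a2⟩ := ih (fun g hg => h g (Multiset.mem_cons_of_mem hg))
    have a3 := h e (Multiset.mem_cons_self _ _)
    rw [dG_cons, ends_cons, ms_cons, ms_cons, a1, a2, a3, Multiset.card_cons]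
    rcases cut_eq_one.1 a3 with ⟨b1, b2⟩ | ⟨b1, b2⟩ <;>
      simp only [ind_of_mem, ind_of_notMem, b1, b2, not_false_eq_true] <;> push_cast <;> omega

theorem mem_ends {G : Multiset (V × V)} {v : V} :
    v ∈ ends G ↔ ∃ e ∈ G, e.1 = v ∨ e.2 = v := by
  unfold ends
  simp only [Multiset.mem_add, Multiset.mem_map]
  constructor
  · rintro (⟨e, he, h⟩ | ⟨e, he, h⟩)
    exacts [⟨e, he, Or.inl h⟩, ⟨e, he, Or.inr h⟩]
  · rintro ⟨e, he, h | h⟩
    exacts [Or.inl ⟨e, he, h⟩, Or.inr ⟨e, he, h⟩]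

/-- goodness of the first type -/
def yOne (p : Finset V → ℤ) (b : V) (I : Finset (Finset V)) : ℤ :=
  p (I.sup id) - 1 - ∑ X ∈ I, zb p b X
/-- goodness of the second type -/
def yTwo (p : Finset V → ℤ) (b : V) (I : Finset (Finset V)) : ℤ :=
  p (I.sup id)ᶜ - 1 - ∑ X ∈ I, zb p b X
/-- excess -/
def exc (p : Finset V → ℤ) (b : V) (I : Finset (Finset V)) : ℤ :=
  zb p b (I.sup id) - ∑ X ∈ I, zb p b X
/-- slack of a part -/
def slk (p : Finset V → ℤ) (b : V) (M : Multiset V) (X : Finset V) : ℤ := ms M X - 1 - zb p b X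
/-- a part that contains an end of an edge -/
def Act (G : Multiset (V × V)) (X : Finset V) : Prop := ∃ e ∈ G, e.1 ∈ X ∨ e.2 ∈ X

theorem good_iff {p : Finset V → ℤ} {b : V} {I : Finset (Finset V)} :
    Good p b I ↔ 0 ≤ yOne p b I ∨ 0 ≤ yTwo p b I := by
  unfold Good yOne yTwo symmMax; omega

namespace HC

variable {p : Finset V → ℤ} {b y : V} {W : Finset V} {G : Multiset (V × V)} {a c d : V}
  {S : Finset (Finset V)}

theorem v1' (h : HC p b y W G a c d) (Y : Finset V) : p Y ≤ ms (mass b y G a c d) Y := by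
  simpa using (h.hv Y).1
theorem v2' (h : HC p b y W G a c d) (Y : Finset V) : p Yᶜ ≤ ms (mass b y G a c d) Y := by
  simpa using (h.hv Y).2

theorem node (h : HC p b y W G a c d) (hS : Loc p b W G S) :
    Node S (yOne p b) (yTwo p b) (exc p b) (fun k => slk p b (mass b y G a c d) k = 0) := by
  have hW : ∀ I ⊆ S, I.sup id ⊆ W := fun I hI => (hS.sp.subset hI).sup_subset
  have hb : ∀ I ⊆ S, b ∉ I.sup id := fun I hI hh => h.bW (hW I hI hh)
  have hy : ∀ I ⊆ S, y ∉ I.sup id := fun I hI hh => h.yW (hW I hI hh)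
  have wn : ∀ I ⊆ S, 0 ≤ ∑ X ∈ I, zb p b X := fun I hI =>
    sum_nonneg (fun X hX => hS.fin.nonneg (hI hX))
  refine ⟨?_, ?_, ?_, ?_, ?_, ?_, ?_, ?_, ?_⟩
  · intro I hI J hJ hne
    obtain ⟨v, hv⟩ := hS.sp.hvNe (inter_subset_left.trans hI) hne
    rw [← hS.sp.hvInter hI hJ, mem_inter] at hv
    have a1 := h.cs.super hv.1 hv.2 (hb I hI) (hb J hJ)
    rw [hS.sp.hvInter hI hJ, sup_union'] at a1
    have a2 := sum_union_inter (s₁ := I) (s₂ := J) (f := zb p b)
    unfold yOne; omega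
  · intro I hI J hJ hne
    obtain ⟨v, hv⟩ := hS.sp.hvNe (inter_subset_left.trans hI) hne
    rw [← hS.sp.hvInter hI hJ, mem_inter] at hv
    have a1 := h.cs.super (mem_compl.2 (hb I hI)) (mem_compl.2 (hb J hJ))
      (fun hh => mem_compl.1 hh hv.1) (fun hh => mem_compl.1 hh hv.2)
    rw [← compl_union, ← compl_inter, hS.sp.hvInter hI hJ, sup_union'] at a1
    have a2 := sum_union_inter (s₁ := I) (s₂ := J) (f := zb p b)
    unfold yTwo; omega
  · intro I hI J hJ hne
    obtain ⟨v, hv⟩ := hS.sp.hvNe (sdiff_subset.trans hI) hne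
    rw [← hS.sp.hvSdiff hI hJ, mem_sdiff] at hv
    have a1 := h.cs.super (X := insert b (J.sup id)) (Y := (I.sup id)ᶜ) (mem_insert_self _ _)
      (mem_compl.2 (hb I hI)) (by
        rw [mem_insert, not_or]; exact ⟨fun hh => hb I hI (hh ▸ hv.1), hv.2⟩)
      (fun hh => mem_compl.1 hh hv.1)
    have e1 : insert b (J.sup id) ∩ (I.sup id)ᶜ = insert b ((J \ I).sup id) := by
      rw [← hS.sp.hvSdiff hJ hI]
      ext w
      simp only [mem_inter, mem_insert, mem_compl, mem_sdiff]
      constructor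
      · rintro ⟨rfl | b1, b2⟩
        exacts [Or.inl rfl, Or.inr ⟨b1, b2⟩]
      · rintro (rfl | b1)
        exacts [⟨Or.inl rfl, hb I hI⟩, ⟨Or.inr b1.1, b1.2⟩]
    have e2 : insert b (J.sup id) ∪ (I.sup id)ᶜ = ((I \ J).sup id)ᶜ := by
      rw [← hS.sp.hvSdiff hI hJ]
      ext w
      simp only [mem_union, mem_insert, mem_compl, mem_sdiff]
      constructor
      · rintro ((rfl | b1) | b1)
        exacts [fun hh => hb I hI hh.1, fun hh => hh.2 b1, fun hh => b1 hh.1]
      · intro b1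
        by_cases b2 : w ∈ I.sup id
        · exact Or.inl (Or.inr (by by_contra b3; exact b1 ⟨b2, b3⟩))
        · exact Or.inr b2
    rw [e1, e2] at a1
    have a2 := StarG.sum_split (zb p b) I J
    have a3 := StarG.sum_split (zb p b) J I
    have a4 := wn (I ∩ J) (inter_subset_left.trans hI)
    have a5 := wn (J ∩ I) (inter_subset_left.trans hJ)
    have a6 : zb p b (J.sup id) = p (insert b (J.sup id)) - 2 := rfl
    have a7 : zb p b ((J \ I).sup id) = p (insert b ((J \ I).sup id)) - 2 := rfl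
    unfold exc yTwo; omega
  · intro I hI J hJ hne
    obtain ⟨v, hv⟩ := hS.sp.hvNe (inter_subset_left.trans hI) hne
    rw [← hS.sp.hvInter hI hJ, mem_inter] at hv
    have a1 := h.cs.super (X := I.sup id) (Y := insert b (J.sup id)) hv.1 (mem_insert_of_mem hv.2)
      (hy I hI) (by rw [mem_insert, not_or]; exact ⟨h.yb, hy J hJ⟩)
    rw [inter_insert_of_notMem (hb I hI), union_insert, hS.sp.hvInter hI hJ, sup_union'] at a1
    have a2 := sum_union_inter (s₁ := I) (s₂ := J) (f := zb p b)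
    have a6 : zb p b (J.sup id) = p (insert b (J.sup id)) - 2 := rfl
    have a7 : zb p b ((I ∪ J).sup id) = p (insert b ((I ∪ J).sup id)) - 2 := rfl
    unfold exc yOne; omega
  · intro J hJ
    have := h.low (hS.sp.subset hJ)
    unfold exc; omega
  · intro J hJ hne
    obtain ⟨a1, a2⟩ := SubP.union (hS.sp.subset (sdiff_subset (t := J)))
      (SubP.single (hW J hJ) (hS.sp.hvNe hJ hne)) (fun X hX Y hY => by
        rw [mem_singleton.1 hY, disjoint_left]
        intro v hv hv'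
        exact (mem_sdiff.1 hX).2 ((hS.sp.hvMem hJ (mem_sdiff.1 hX).1 hv).1 hv')) (zb p b)
    have a3 := h.cnt1 a1
    have a4 := hS.ex
    have a5 := StarG.sum_split (fun X => 1 + zb p b X) S J
    rw [inter_eq_right.2 hJ, sum_add_distrib (s := J)] at a5
    rw [a2, val_single] at a3
    simp only [sum_const, nsmul_eq_mul, mul_one] at a5
    unfold val at a3 a4
    unfold exc; omega
  · simp [exc, h.z0]
  · intro k _ hk
    have := h.v1' k
    simp only [yOne, slk, sup_singleton, id, sum_singleton] at hk ⊢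
    omega
  · intro k _ hk
    have := h.v2' k
    simp only [yTwo, slk, sup_singleton, id, sum_singleton] at hk ⊢
    omega

theorem slk_nonneg (h : HC p b y W G a c d) (hS : Loc p b W G S) {k : Finset V} (hk : k ∈ S) :
    0 ≤ slk p b (mass b y G a c d) k := by
  have := h.zle (hS.sp.sub k hk) (hS.sp.ne k hk)
  unfold slk; omega

theorem ms_W (h : HC p b y W G a c d) {X : Finset V} (hX : X ⊆ W) :
    ms (mass b y G a c d) X = ind a X + ind c X + ind d X + ms (ends G) X := by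
  rw [ms_mass, ind_of_notMem (fun hh => h.bW (hX hh)), ind_of_notMem (fun hh => h.yW (hX hh))]
  ring

theorem ms_b (h : HC p b y W G a c d) : ms (mass b y G a c d) {b} = 2 := by
  rw [ms_mass, ind_of_mem (mem_singleton_self b), ind_of_notMem (by simpa using h.yb),
    ind_of_notMem (by simpa using h.ab), ind_of_notMem (by simpa using h.cb),
    ind_of_notMem (by simpa using h.db),
    ms_eq_zero (fun v hv => by simpa using h.ends_ne hv)]
  rfl

theorem ms_I (_h : HC p b y W G a c d) (hS : Loc p b W G S) {I : Finset (Finset V)} (hI : I ⊆ S) :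
    ms (mass b y G a c d) (I.sup id) =
      I.card + ∑ X ∈ I, zb p b X + ∑ X ∈ I, slk p b (mass b y G a c d) X := by
  rw [ms_sup _ (hS.sp.subset hI), card_eq_sum_ones I]
  push_cast
  rw [← sum_add_distrib, ← sum_add_distrib]
  exact sum_congr rfl (fun X _ => by unfold slk; ring)

theorem val_eq (h : HC p b y W G a c d) (hS : Loc p b W G S) :
    (S.card : ℤ) + ∑ X ∈ S, zb p b X = Multiset.card G + 2 := by
  have a1 := h.cnt1 hS.sp
  have a2 := hS.ex
  unfold val at a1 a2
  rw [sum_add_distrib] at a1 a2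
  simp only [sum_const, nsmul_eq_mul, mul_one] at a1 a2
  omega

theorem ms_root (h : HC p b y W G a c d) (hS : Loc p b W G S) :
    ms (mass b y G a c d) (insert b (S.sup id))ᶜ =
      S.card + ∑ X ∈ S, zb p b X - ∑ X ∈ S, slk p b (mass b y G a c d) X := by
  rw [ms_compl, insert_eq, ms_union_disj _ (by
    simp only [disjoint_singleton_left]; exact fun hh => h.bW (hS.sp.sup_subset hh)), h.ms_b,
    h.ms_I hS subset_rfl]
  have := h.val_eq hS
  simp only [mass, Multiset.card_cons, card_ends]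
  push_cast
  omega

theorem exc_all (h : HC p b y W G a c d) (hS : Loc p b W G S) :
    exc p b S ≤ S.card - 2 - ∑ X ∈ S, slk p b (mass b y G a c d) X := by
  have a1 := h.v2' (insert b (S.sup id))ᶜ
  rw [compl_compl, h.ms_root hS] at a1
  have a6 : zb p b (S.sup id) = p (insert b (S.sup id)) - 2 := rfl
  unfold exc; omega

theorem exc_mono (h : HC p b y W G a c d) (hS : Loc p b W G S) {I J : Finset (Finset V)}
    (hIJ : I ⊆ J) (hJ : J ⊆ S) : exc p b I ≤ exc p b J := by
  have hI := hIJ.trans hJ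
  have hD : J \ I ⊆ S := sdiff_subset.trans hJ
  have a1 := h.zsup _ (hS.sp.subset hI).sup_subset _ (hS.sp.subset hD).sup_subset
  rw [hS.sp.hvInter hI hD, sup_union', union_sdiff_of_subset hIJ, inter_sdiff_self] at a1
  have a2 := h.low (hS.sp.subset hD)
  have a3 := StarG.sum_split (zb p b) J I
  rw [inter_eq_right.2 hIJ] at a3
  have a4 := h.z0
  simp only [sup_empty, bot_eq_empty] at a1
  unfold exc; omega

theorem frQ (h : HC p b y W G a c d) (hS : Loc p b W G S) {J : Finset (Finset V)} (hJ : J ⊆ S) :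
    1 - J.card - ∑ X ∈ J, slk p b (mass b y G a c d) X +
      (ind a (J.sup id) + ind c (J.sup id) + ind d (J.sup id)) ≤
      fr p b y G (insert b (J.sup id)) := by
  have a1 := h.low (hS.sp.subset hJ)
  have a2 := h.zb_eq (hS.sp.subset hJ).sup_subset
  have a3 := h.ms_I hS hJ
  have a4 := h.ms_W (hS.sp.subset hJ).sup_subset
  have a5 := dG_le_ms G (J.sup id)
  omega

theorem al_part (hA : Al p b y G S a c d) :
    ∃ A ∈ S, a ∈ A ∧ c ∉ A ∧ d ∉ A := by
  obtain ⟨J, h1, h2, h3, h4, _⟩ := hA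
  obtain ⟨A, a1, a2⟩ := mem_sup_id.1 h2
  exact ⟨A, h1 a1, a2, fun hh => h3 (part_subset_sup a1 hh), fun hh => h4 (part_subset_sup a1 hh)⟩

end HC

/-- the data of the induction step -/
structure Step (p : Finset V → ℤ) (b y : V) (W : Finset V) (G : Multiset (V × V)) (a c d : V)
    (S : Finset (Finset V)) (A C : Finset V) : Prop where
  hl : HL p b y W G a c d
  loc : Loc p b W G S
  sA : A ∈ S
  sC : C ∈ S
  aA : a ∈ A
  cA : c ∉ A
  dA : d ∉ A
  cC : c ∈ C
  aC : a ∉ C
  dC : d ∉ C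

namespace Step

variable {p : Finset V → ℤ} {b y : V} {W : Finset V} {G : Multiset (V × V)} {a c d : V}
  {S : Finset (Finset V)} {A C : Finset V}

theorem swap (h : Step p b y W G a c d S A C) : Step p b y W G c a d S C A :=
  ⟨h.hl.swap, h.loc, h.sC, h.sA, h.cC, h.aC, h.dC, h.aA, h.cA, h.dA⟩

theorem mass_swap (b y : V) (G : Multiset (V × V)) (a c d : V) :
    mass b y G c a d = mass b y G a c d := by
  unfold mass; rw [Multiset.cons_swap c a]

theorem inact (h : Step p b y W G a c d S A C) {k : Finset V} (hk : k ∈ S) (hn : ¬ Act G k) :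
    (k = A ∨ k = C) ∧ slk p b (mass b y G a c d) k = 0 ∧ zb p b k = 0 := by
  have hW := h.loc.sp.sub k hk
  have a1 : ms (ends G) k = 0 := ms_eq_zero (fun v hv hh => by
    obtain ⟨e, he, h1 | h1⟩ := mem_ends.1 hv
    exacts [hn ⟨e, he, Or.inl (h1 ▸ hh)⟩, hn ⟨e, he, Or.inr (h1 ▸ hh)⟩])
  have a2 := dG_le_ms G k
  have a3 := h.hl.zb_eq hW
  have a4 := h.loc.fin.nonneg hk
  have a5 := h.hl.ms_W hW
  have a6 := h.hl.slk_nonneg h.loc hk
  have hd : d ∉ k := fun hh => by
    have := h.hl.nd (mem_insert_self b k) (mem_insert_of_mem hh) (by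
      rw [mem_insert, not_or]; exact ⟨h.hl.yb, fun hh => h.hl.yW (hW hh)⟩)
    omega
  unfold slk at a6 ⊢
  by_cases ha : a ∈ k
  · have e := h.loc.sp.eq_of_mem hk h.sA ha h.aA
    rw [ind_of_mem ha, ind_of_notMem hd, ind_of_notMem (e ▸ h.cA)] at a5
    exact ⟨Or.inl e, by omega, by omega⟩
  · by_cases hc : c ∈ k
    · rw [ind_of_mem hc, ind_of_notMem hd, ind_of_notMem ha] at a5
      exact ⟨Or.inr (h.loc.sp.eq_of_mem hk h.sC hc h.cC), by omega, by omega⟩
    · rw [ind_of_notMem hc, ind_of_notMem hd, ind_of_notMem ha] at a5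
      omega

theorem zero (h : Step p b y W 0 a c d S A C) : ∀ I ⊆ S, I.Nonempty → Good p b I := by
  have hin : ∀ k ∈ S, ¬ Act (0 : Multiset (V × V)) k := fun k _ hh => by
    obtain ⟨e, he, _⟩ := hh; simp at he
  have hAC : A ≠ C := fun hh => h.cA (hh ▸ h.cC)
  have sub : ({A, C} : Finset (Finset V)) ⊆ S := by
    intro k hk; simp only [mem_insert, mem_singleton] at hk
    rcases hk with rfl | rfl
    exacts [h.sA, h.sC]
  have zA := (h.inact h.sA (hin A h.sA)).2.2
  have zC := (h.inact h.sC (hin C h.sC)).2.2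
  have fz : ∀ X ⊆ W, zb p b X = fr p b y 0 (insert b X) - 1 := fun X hX => by
    simpa using h.hl.zb_eq hX
  have AW := h.loc.sp.sub A h.sA
  have CW := h.loc.sp.sub C h.sC
  have low := h.hl.low (h.loc.sp.subset sub)
  rw [sum_pair hAC, sup_insert, sup_singleton] at low
  obtain ⟨g1, g2, g3⟩ := h.hl.base (h.loc.sp.subset sub) hAC h.aA h.cC h.dA h.dC
    (by have := fz A AW; omega) (by have := fz C CW; omega)
    (by have := fz (A ∪ C) (union_subset AW CW); change _ ≤ zb p b (A ∪ C) at low; omega)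
    (fun L hL hne hf => by
      by_contra hh
      have := h.loc.fin.proper h.sA hL hne hh
      have := fz L (hL.trans AW)
      omega)
    (fun L hL hne hf => by
      by_contra hh
      have := h.loc.fin.proper h.sC hL hne hh
      have := fz L (hL.trans CW)
      omega)
  intro I hI hne
  have hI' : ∀ k ∈ I, k = A ∨ k = C := fun k hk => (h.inact (hI hk) (hin k (hI hk))).1
  unfold Good
  rw [sum_eq_zero (fun k hk => (h.inact (hI hk) (hin k (hI hk))).2.2), add_zero]
  by_cases a1 : A ∈ I <;> by_cases a2 : C ∈ I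
  · have : I = {A, C} := by
      ext k; simp only [mem_insert, mem_singleton]
      exact ⟨hI' k, by rintro (rfl | rfl) <;> assumption⟩
    rw [this, sup_insert, sup_singleton]; exact g3
  · have : I = {A} := eq_singleton_iff_unique_mem.2 ⟨a1, fun k hk =>
      (hI' k hk).resolve_right (fun hh => a2 (hh ▸ hk))⟩
    rw [this, sup_singleton]; exact g1
  · have : I = {C} := eq_singleton_iff_unique_mem.2 ⟨a2, fun k hk =>
      (hI' k hk).resolve_left (fun hh => a1 (hh ▸ hk))⟩
    rw [this, sup_singleton]; exact g2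
  · obtain ⟨k, hk⟩ := hne
    rcases hI' k hk with rfl | rfl
    exacts [absurd hk a1, absurd hk a2]

section
variable {n : ℕ}

theorem cross (h : Step p b y W G a c d S A C) (hn : Multiset.card G = n + 1) (ih : LG b y W n)
    {I : Finset (Finset V)} (hI : I ⊆ S) (hne : I.Nonempty) (hbad : ¬ Good p b I) :
    ∀ e ∈ G, cut e (I.sup id) = 1 := by
  intro e he
  obtain ⟨G1, rfl⟩ := Multiset.exists_cons_of_mem he
  have : Multiset.card G1 = n := by simpa using hn
  exact (cut_zero_or_one _ _).resolve_left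
    (fun h0 => hbad (h.hl.toHC.del (this ▸ ih) h.loc hI hne h0))

theorem excl (h : Step p b y W G a c d S A C) (hn : Multiset.card G = n + 1) (ih : LG b y W n)
    {I : Finset (Finset V)} (hI : I ⊆ S) (hne : I.Nonempty) (hbad : ¬ Good p b I)
    (hcd : c ∈ I.sup id ↔ d ∈ I.sup id)
    {J : Finset (Finset V)} (hJ : J ⊆ S) (hne' : J.Nonempty) (hbad' : ¬ Good p b J)
    (had : a ∈ J.sup id ↔ d ∈ J.sup id) : False := by
  obtain ⟨e, he⟩ := Multiset.card_pos_iff_exists_mem.1 (show 0 < Multiset.card G by omega)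
  obtain ⟨G1, rfl⟩ := Multiset.exists_cons_of_mem he
  have : Multiset.card G1 = n := by simpa using hn
  exact h.hl.excl (this ▸ ih) h.loc hI hne hbad hcd hJ hne' hbad' had

theorem act_mem (h : Step p b y W G a c d S A C) (hn : Multiset.card G = n + 1) (ih : LG b y W n)
    {I : Finset (Finset V)} (hI : I ⊆ S) (hbad : ¬ Good p b I) {J : Finset (Finset V)}
    (hJ : J ⊆ I) (hne : J.Nonempty) (hbad' : ¬ Good p b J) {k : Finset V} (hk : k ∈ I)
    (ha : Act G k) : k ∈ J := by
  obtain ⟨e, he, hek⟩ := ha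
  have c1 := cut_eq_one.1 (h.cross hn ih hI (hne.mono hJ) hbad e he)
  have c2 := cut_eq_one.1 (h.cross hn ih (hJ.trans hI) hne hbad' e he)
  have s := sup_mono' hJ
  rcases hek with h1 | h1
  · have a1 := part_subset_sup hk h1
    refine (h.loc.sp.hvMem (hJ.trans hI) (hI hk) h1).1 ?_
    rcases c1 with c1 | c1 <;> rcases c2 with c2 | c2
    exacts [c2.1, absurd (s c2.2) c1.2, absurd a1 c1.1, absurd a1 c1.1]
  · have a1 := part_subset_sup hk h1
    refine (h.loc.sp.hvMem (hJ.trans hI) (hI hk) h1).1 ?_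
    rcases c1 with c1 | c1 <;> rcases c2 with c2 | c2
    exacts [absurd a1 c1.2, absurd a1 c1.2, absurd (s c2.1) c1.1, c2.2]

theorem exists_act (h : Step p b y W G a c d S A C) (hn : Multiset.card G = n + 1)
    (ih : LG b y W n) {I : Finset (Finset V)} (hI : I ⊆ S) (hne : I.Nonempty)
    (hbad : ¬ Good p b I) : ∃ k ∈ I, Act G k := by
  obtain ⟨e, he⟩ := Multiset.card_pos_iff_exists_mem.1 (show 0 < Multiset.card G by omega)
  rcases cut_eq_one.1 (h.cross hn ih hI hne hbad e he) with c1 | c1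
  · obtain ⟨k, hk, hv⟩ := mem_sup_id.1 c1.1
    exact ⟨k, hk, e, he, Or.inl hv⟩
  · obtain ⟨k, hk, hv⟩ := mem_sup_id.1 c1.2
    exact ⟨k, hk, e, he, Or.inr hv⟩

/-- three tight parts, the bad pair avoids the part of `c` -/
theorem three (h : Step p b y W G a c d S A C) (hn : Multiset.card G = n + 1) (ih : LG b y W n)
    {I : Finset (Finset V)} (hI : I ⊆ S) (hbad : ¬ Good p b I) (h3 : I.card = 3)
    (ht : ∀ k ∈ I, slk p b (mass b y G a c d) k = 0) (hC : C ∈ I)
    (hP : ¬ Good p b (I.erase C)) : False := by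
  have hne : I.Nonempty := ⟨C, hC⟩
  have hPc : (I.erase C).card = 2 := by rw [card_erase_of_mem hC, h3]
  have hPne : (I.erase C).Nonempty := card_pos.1 (by omega)
  have hPS : I.erase C ⊆ S := (erase_subset _ _).trans hI
  have cI : c ∈ I.sup id := part_subset_sup hC h.cC
  have cP : c ∉ (I.erase C).sup id := fun hh =>
    notMem_erase C I ((h.loc.sp.hvMem hPS h.sC h.cC).1 hh)
  have sP := sup_mono' (erase_subset C I)
  have hτ : ind a (I.sup id) + ind c (I.sup id) + ind d (I.sup id) = 2 := by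
    rw [ind_of_mem cI]
    by_cases n1 : a ∈ I.sup id <;> by_cases n2 : d ∈ I.sup id
    · exact (h.excl hn ih hI hne hbad (iff_of_true cI n2) hI hne hbad (iff_of_true n1 n2)).elim
    · rw [ind_of_mem n1, ind_of_notMem n2]; rfl
    · rw [ind_of_mem n2, ind_of_notMem n1]; rfl
    · exact (h.excl hn ih hPS hPne hP (iff_of_false cP (fun hh => n2 (sP hh))) hPS hPne hP
        (iff_of_false (fun hh => n1 (sP hh)) (fun hh => n2 (sP hh)))).elim
  have hSI : S = I := by
    have a1 := h.hl.ms_I h.loc hI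
    have a2 := h.hl.ms_W (h.loc.sp.subset hI).sup_subset
    have a3 := (all_cut (h.cross hn ih hI hne hbad)).2
    have a4 := h.hl.val_eq h.loc
    have a5 := StarG.sum_split (zb p b) S I
    have a6 := StarG.card_split S I
    have a7 : 0 ≤ ∑ k ∈ S \ I, zb p b k :=
      sum_nonneg (fun k hk => h.loc.fin.nonneg (mem_sdiff.1 hk).1)
    rw [inter_eq_right.2 hI] at a5 a6
    rw [sum_eq_zero ht] at a1
    exact Subset.antisymm (sdiff_eq_empty_iff_subset.1 (card_eq_zero.1 (by omega))) hI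
  subst hSI
  have hAC : A ≠ C := fun hh => h.cA (hh ▸ h.cC)
  have hAP : A ∈ S.erase C := mem_erase.2 ⟨hAC, h.sA⟩
  obtain ⟨U, hU⟩ := card_eq_one.1 (show ((S.erase C).erase A).card = 1 by
    rw [card_erase_of_mem hAP, hPc])
  have hU' : U ∈ (S.erase C).erase A := hU ▸ mem_singleton_self U
  have hUA : U ≠ A := ne_of_mem_erase hU'
  have hUC : U ≠ C := ne_of_mem_erase (mem_of_mem_erase hU')
  have sU : U ∈ S := mem_of_mem_erase (mem_of_mem_erase hU')
  have eP : S.erase C = {U, A} := by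
    rw [← insert_erase hAP, hU, pair_comm]
  have eS : S = {U, A, C} := by
    rw [← insert_erase hC, eP]
    exact triple_rot U A C
  have aI : a ∈ S.sup id := part_subset_sup h.sA h.aA
  have dI : d ∉ S.sup id := fun hh => by
    rw [ind_of_mem aI, ind_of_mem cI, ind_of_mem hh] at hτ; omega
  have hUact : Act G U := by
    by_contra hh
    rcases (h.inact sU hh).1 with e | e
    exacts [hUA e, hUC e]
  have supS : S.sup id = U ∪ A ∪ C := by
    rw [eS, sup_insert, sup_insert, sup_singleton, union_assoc]; rfl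
  have aU : a ∉ U := fun hh => hUA (h.loc.sp.eq_of_mem sU h.sA hh h.aA)
  have cU : c ∉ U := fun hh => hUC (h.loc.sp.eq_of_mem sU h.sC hh h.cC)
  have dU : d ∉ U := fun hh => dI (part_subset_sup sU hh)
  have pr : ∀ X ∈ S, ∀ Y ∈ S, ({X, Y} : Finset (Finset V)) ⊆ S := fun X hX Y hY => by
    intro k hk; simp only [mem_insert, mem_singleton] at hk
    rcases hk with rfl | rfl <;> assumption
  have sp2 : ∀ X Y : Finset V, ({X, Y} : Finset (Finset V)).sup id = X ∪ Y := fun X Y => by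
    rw [sup_insert, sup_singleton]; rfl
  have noU : ∀ J ⊆ S, J.Nonempty → U ∉ J → Good p b J := fun J hJ hne' hn' => by
    by_contra hh
    exact hn' (h.act_mem hn ih subset_rfl hbad hJ hne' hh sU hUact)
  have gU : Good p b {U} := by
    by_contra hh
    exact h.excl hn ih (singleton_subset_iff.2 sU) (singleton_nonempty U) hh
      (by simp [cU, dU]) (singleton_subset_iff.2 sU) (singleton_nonempty U) hh (by simp [aU, dU])
  have gUC : Good p b {C, U} := by
    by_contra hh
    exact h.excl hn ih hPS hPne hP (iff_of_false cP (fun hh => dI (sP hh))) (pr C h.sC U sU)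
      (insert_nonempty _ _) hh (by rw [sp2]; simp [aU, dU, h.aC, h.dC])
  have gAC : Good p b {C, A} := noU _ (pr C h.sC A h.sA) (insert_nonempty _ _) (by simp [hUA, hUC])
  have hty : 0 ≤ yTwo p b {C, A} ∨ 0 ≤ yTwo p b {C, U} := by
    by_contra hh
    rw [good_iff] at gUC gAC
    have := (h.hl.node h.loc).triple sU h.sA h.sC hUA (ht C h.sC) (Or.inl ⟨by omega, by omega⟩)
    refine hbad (good_iff.2 ?_)
    have e : ({C, U, A} : Finset (Finset V)) = S := (triple_rot U A C).trans eS.symm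
    rwa [e] at this
  obtain ⟨e, he, hev⟩ := hUact
  have hcr := h.cross hn ih subset_rfl hne hbad
  have hcrP := h.cross hn ih hPS hPne hP
  obtain ⟨u, v, huv, hu, hv⟩ : ∃ u v, (e = (u, v) ∨ e = (v, u)) ∧ u ∈ U ∧ v ∉ S.sup id := by
    rcases hev with h1 | h1 <;> rcases cut_eq_one.1 (hcr e he) with c1 | c1
    · exact ⟨e.1, e.2, Or.inl rfl, h1, c1.2⟩
    · exact absurd (part_subset_sup sU h1) c1.1
    · exact absurd (part_subset_sup sU h1) c1.2
    · exact ⟨e.2, e.1, Or.inr rfl, h1, c1.1⟩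
  have fq : ∀ J ⊆ S, 1 - J.card + (ind a (J.sup id) + ind c (J.sup id) + ind d (J.sup id)) ≤
      fr p b y G (insert b (J.sup id)) := fun J hJ => by
    have := h.hl.frQ h.loc hJ
    rw [sum_eq_zero (fun k hk => ht k (hJ hk))] at this
    omega
  have mI : ∀ J ⊆ S, ind a (J.sup id) + ind c (J.sup id) + ind d (J.sup id) +
      ms (ends G) (J.sup id) = J.card + ∑ X ∈ J, zb p b X := fun J hJ => by
    have a1 := h.hl.ms_I h.loc hJ
    rw [sum_eq_zero (fun k hk => ht k (hJ hk)), h.hl.ms_W (h.loc.sp.subset hJ).sup_subset] at a1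
    omega
  have c0 : ∀ J ⊆ S, cut (b, y) (J.sup id) = 0 := fun J hJ => cut_eq_zero.2 (iff_of_false
    (fun hh => h.hl.bW ((h.loc.sp.subset hJ).sup_subset hh))
    (fun hh => h.hl.yW ((h.loc.sp.subset hJ).sup_subset hh)))
  have tg : ∀ k ∈ S, Good p b {k} → ms (mass b y G a c d) k ≤ symmMax p k := fun k hk hg => by
    have := ht k hk
    simp only [Good, slk, sum_singleton, sup_singleton, id] at hg this
    omega
  have fU := fq {U} (singleton_subset_iff.2 sU)
  have fA := fq {A} (singleton_subset_iff.2 h.sA)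
  have fC := fq {C} (singleton_subset_iff.2 h.sC)
  have fUA := fq {U, A} (pr U sU A h.sA)
  have fUC := fq {U, C} (pr U sU C h.sC)
  have fall := fq S subset_rfl
  have mUA := mI {U, A} (pr U sU A h.sA)
  have mCU := mI {C, U} (pr C h.sC U sU)
  have mCA := mI {C, A} (pr C h.sC A h.sA)
  have mall := mI S subset_rfl
  have cUA := c0 {U, A} (pr U sU A h.sA)
  have cCU := c0 {C, U} (pr C h.sC U sU)
  have cCA := c0 {C, A} (pr C h.sC A h.sA)
  have call := c0 S subset_rfl
  have dUA := all_cut hcrP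
  have dall := all_cut hcr
  have dCU := dG_le_ms G (C ∪ U)
  have dCA := dG_le_ms G (C ∪ A)
  rw [eP] at hP dUA
  rw [hτ, h3] at fall mall
  unfold Good symmMax at hP hbad
  unfold yTwo at hty
  rw [card_pair hUA] at fUA mUA
  rw [card_pair hUC] at fUC
  rw [card_pair hUC.symm] at mCU
  rw [card_pair hAC.symm] at mCA
  simp only [sp2, sup_singleton, id, card_singleton] at fU fA fC fUA fUC mUA mCU mCA
  simp only [sp2] at cUA cCU cCA dUA hP hty
  simp only [ind, mem_union, aU, cU, dU, h.aA, h.cA, h.dA, h.aC, h.cC, h.dC, if_true, if_false,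
    or_true, true_or, or_self] at fU fA fC fUA fUC mUA mCU mCA
  obtain ⟨G1, rfl⟩ := Multiset.exists_cons_of_mem he
  have hG1 : Multiset.card G1 = n := by simpa using hn
  obtain ⟨M, m1, _, m3, m4, m5, m6⟩ := h.hl.bad_meets (hG1 ▸ ih) h.loc (pr U sU A h.sA)
    (insert_nonempty _ _) (by unfold Good symmMax; rwa [sp2]) (by
      rw [sp2]; simp [cU, dU, h.cA, h.dA])
  refine h.hl.e3 huv (eS ▸ h.loc.sp) hUA hUC hAC hu h.aA h.cC (supS ▸ hv) (supS ▸ dI) ?_
    (by omega) (by omega) (by omega) (by omega) (by omega) (by rw [← supS]; omega)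
    (by unfold fr; omega) (by unfold fr; rw [cut_compl, dG_compl]; omega)
    (by rw [← supS]; unfold fr; omega) ?_ m1 m3 m4 m5 ?_
  · intro Z hZ
    simp only [mem_insert, mem_singleton] at hZ
    rcases hZ with rfl | rfl | rfl
    · exact tg _ sU gU
    · exact tg _ h.sA (noU _ (singleton_subset_iff.2 h.sA) (singleton_nonempty _) (by simpa))
    · exact tg _ h.sC (noU _ (singleton_subset_iff.2 h.sC) (singleton_nonempty _) (by simpa))
  · rw [union_comm A C, union_comm U C]
    unfold fr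
    rw [cut_compl, dG_compl, cut_compl, dG_compl]
    omega
  · rcases huv with rfl | rfl
    exacts [m6, m6.symm]

theorem card_le_three (h : Step p b y W G a c d S A C) (hn : Multiset.card G = n + 1)
    (ih : LG b y W n) {I : Finset (Finset V)} (hI : I ⊆ S) (hne : I.Nonempty)
    (hbad : ¬ Good p b I)
    (hc : exc p b I + ∑ k ∈ I, slk p b (mass b y G a c d) k ≤ (I.card : ℤ) - 2) :
    I.card ≤ 3 := by
  classical
  have hN := h.hl.node h.loc
  have hcount : exc p b I + 2 ≤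
      ((I.filter (fun k => slk p b (mass b y G a c d) k = 0)).card : ℤ) := by
    have a1 : (I.card : ℤ) ≤ ((I.filter (fun k => slk p b (mass b y G a c d) k = 0)).card : ℤ) +
        ∑ k ∈ I, slk p b (mass b y G a c d) k := by
      rw [card_filter, card_eq_sum_ones I]
      push_cast
      rw [← sum_add_distrib]
      refine sum_le_sum (fun k hk => ?_)
      have := h.hl.slk_nonneg h.loc (hI hk)
      split_ifs <;> omega
    omega
  have hb := mt good_iff.2 hbad
  have hel : ∀ k ∈ I, slk p b (mass b y G a c d) k = 0 → ∃ J ⊆ I, k ∈ J ∧ J.card ≤ 3 ∧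
      ¬ Good p b J ∧ ∀ j ∈ I, Act G j → j ∈ J := by
    intro k hk hT
    obtain ⟨J, j1, j2, j3, j4, j5⟩ := hN.helly3 hI (by omega) (by omega) (by convert hcount) hk hT
    have j6 : ¬ Good p b J := by rw [good_iff]; omega
    exact ⟨J, j1, j2, j3, j6, fun j hj ha => h.act_mem hn ih hI hbad j1 ⟨k, j2⟩ j6 hj ha⟩
  by_cases hboth : A ∈ I ∧ ¬ Act G A ∧ C ∈ I ∧ ¬ Act G C
  · obtain ⟨b1, b2, b3, b4⟩ := hboth
    obtain ⟨J1, j1, j2, j3, j4, j5⟩ := hel A b1 (h.inact h.sA b2).2.1
    obtain ⟨J2, k1, k2, k3, k4, k5⟩ := hel C b3 (h.inact h.sC b4).2.1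
    by_cases c1 : C ∈ J1
    · refine (card_le_card (fun k hk => ?_)).trans j3
      by_cases ha : Act G k
      · exact j5 k hk ha
      · rcases (h.inact (hI hk) ha).1 with rfl | rfl <;> assumption
    by_cases c2 : A ∈ J2
    · refine (card_le_card (fun k hk => ?_)).trans k3
      by_cases ha : Act G k
      · exact k5 k hk ha
      · rcases (h.inact (hI hk) ha).1 with rfl | rfl <;> assumption
    exfalso
    by_cases hd : d ∈ I.sup id
    · exact h.excl hn ih hI hne hbad (iff_of_true (part_subset_sup b3 h.cC) hd) hI hne hbad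
        (iff_of_true (part_subset_sup b1 h.aA) hd)
    · exact h.excl hn ih (j1.trans hI) ⟨A, j2⟩ j4 (iff_of_false
        (fun hh => c1 ((h.loc.sp.hvMem (j1.trans hI) h.sC h.cC).1 hh))
        (fun hh => hd (sup_mono' j1 hh))) (k1.trans hI) ⟨C, k2⟩ k4 (iff_of_false
        (fun hh => c2 ((h.loc.sp.hvMem (k1.trans hI) h.sA h.aA).1 hh))
        (fun hh => hd (sup_mono' k1 hh)))
  · obtain ⟨k, hk, hT, huniq⟩ : ∃ k ∈ I, slk p b (mass b y G a c d) k = 0 ∧
        ∀ j ∈ I, ¬ Act G j → j = k := by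
      by_cases hi : ∃ k ∈ I, ¬ Act G k
      · obtain ⟨k, hk, hka⟩ := hi
        refine ⟨k, hk, (h.inact (hI hk) hka).2.1, fun j hj hja => ?_⟩
        rcases (h.inact (hI hk) hka).1 with rfl | rfl <;>
          rcases (h.inact (hI hj) hja).1 with rfl | rfl
        exacts [rfl, absurd ⟨hk, hka, hj, hja⟩ hboth, absurd ⟨hj, hja, hk, hka⟩ hboth, rfl]
      · have := hN.d0 I hI
        obtain ⟨k, hk⟩ := card_pos.1
          (show 0 < (I.filter (fun k => slk p b (mass b y G a c d) k = 0)).card by omega)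
        exact ⟨k, (mem_filter.1 hk).1, (mem_filter.1 hk).2, fun j hj hja => absurd ⟨j, hj, hja⟩ hi⟩
    obtain ⟨J, j1, j2, j3, _, j5⟩ := hel k hk hT
    refine (card_le_card (fun j hj => ?_)).trans j3
    by_cases ha : Act G j
    exacts [j5 j hj ha, huniq j hj ha ▸ j2]

theorem out_good (h : Step p b y W G a c d S A C) (hn : Multiset.card G = n + 1)
    (ih : LG b y W n) {I : Finset (Finset V)} (hI : I ⊆ S) (hne : I.Nonempty)
    (hbad : ¬ Good p b I) {j : Finset V} (hj : j ∈ S) (hjI : j ∉ I)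
    (ht : slk p b (mass b y G a c d) j = 0) : Good p b {j} := by
  by_contra hg
  have hs : ({j} : Finset (Finset V)) ⊆ S := singleton_subset_iff.2 hj
  have c1 := h.cross hn ih hI hne hbad
  have c2 := h.cross hn ih hs (singleton_nonempty j) hg
  simp only [sup_singleton, id] at c2
  have dj : ∀ v ∈ j, v ∉ I.sup id := fun v hv hh => hjI ((h.loc.sp.hvMem hI hj hv).1 hh)
  have hJ : insert j I ⊆ S := insert_subset hj hI
  have d0 : dG G ((insert j I).sup id) = 0 := dG_eq_zero (fun e he => by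
    rw [sup_insert]
    change cut e (j ∪ I.sup id) = 0
    rcases cut_eq_one.1 (c1 e he) with a | a <;> rcases cut_eq_one.1 (c2 e he) with a' | a'
    · exact absurd a.1 (dj _ a'.1)
    · exact cut_eq_zero.2 (iff_of_true (mem_union_right _ a.1) (mem_union_left _ a'.2))
    · exact cut_eq_zero.2 (iff_of_true (mem_union_left _ a'.1) (mem_union_right _ a.2))
    · exact absurd a.2 (dj _ a'.2))
  have a1 := h.hl.low (h.loc.sp.subset hJ)
  have a2 := h.hl.zb_eq (h.loc.sp.subset hJ).sup_subset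
  have a3 := h.hl.top (insert b ((insert j I).sup id))
  have a4 := single_le_sum (f := zb p b) (fun k hk => h.loc.fin.nonneg (hJ hk))
    (mem_insert_self j I)
  have a5 := h.hl.ms_W (h.loc.sp.sub j hj)
  have a6 := (all_cut c2).2
  have i1 := ind_nonneg a j
  have i2 := ind_nonneg c j
  have i3 := ind_nonneg d j
  unfold slk at ht
  have n1 : a ∉ j := fun hh => by rw [ind_of_mem hh] at a5; omega
  have n2 : c ∉ j := fun hh => by rw [ind_of_mem hh] at a5; omega
  have n3 : d ∉ j := fun hh => by rw [ind_of_mem hh] at a5; omega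
  exact h.excl hn ih hs (singleton_nonempty j) hg (by simp [n2, n3]) hs (singleton_nonempty j) hg
    (by simp [n1, n3])

theorem succ (h : Step p b y W G a c d S A C) (hn : Multiset.card G = n + 1) (ih : LG b y W n) :
    ∀ I ⊆ S, I.Nonempty → Good p b I := by
  classical
  by_contra hcon
  push Not at hcon
  obtain ⟨I, hI, hmax⟩ := exists_max_image
    (S.powerset.filter (fun I => I.Nonempty ∧ ¬ Good p b I)) card (by
      obtain ⟨I, h1, h2, h3⟩ := hcon
      exact ⟨I, by simp [h1, h2, h3]⟩)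
  simp only [mem_filter, mem_powerset] at hI hmax
  obtain ⟨hI, hne, hbad⟩ := hI
  have hN := h.hl.node h.loc
  have hb := mt good_iff.2 hbad
  have hy : ∀ j ∈ S, j ∉ I → yOne p b I + 1 ≤ yOne p b (insert j I) := by
    intro j hj hjI
    have hg : Good p b (insert j I) := by
      by_contra hh
      have := hmax _ ⟨insert_subset hj hI, insert_nonempty _ _, hh⟩
      rw [card_insert_of_notMem hjI] at this
      omega
    have := hN.y_of_good (subset_insert j I) (insert_subset hj hI) hne (by omega) (good_iff.1 hg)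
    omega
  have hgr : ∀ J, I ⊆ J → J ⊆ S → exc p b J + (S \ J).card ≤ exc p b S := by
    intro J h1 h2
    have := hN.delta_grow hne h1 h2 (S \ J) sdiff_subset disjoint_sdiff
      (fun j hj => hy j (mem_sdiff.1 hj).1 (fun hh => (mem_sdiff.1 hj).2 (h1 hh)))
    rwa [union_sdiff_of_subset h2] at this
  have k1 := hgr I subset_rfl hI
  have k2 := h.hl.exc_all h.loc
  have k3 := StarG.card_split S I
  have k4 := StarG.sum_split (slk p b (mass b y G a c d)) S I
  rw [inter_eq_right.2 hI] at k3 k4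
  have sn : ∀ k ∈ S, 0 ≤ slk p b (mass b y G a c d) k := fun k hk => h.hl.slk_nonneg h.loc hk
  have k5 : 0 ≤ ∑ k ∈ S \ I, slk p b (mass b y G a c d) k :=
    sum_nonneg (fun k hk => sn k (mem_sdiff.1 hk).1)
  have k6 : 0 ≤ ∑ k ∈ I, slk p b (mass b y G a c d) k := sum_nonneg (fun k hk => sn k (hI hk))
  have k7 := hN.d0 I hI
  have h3 := h.card_le_three hn ih hI hne hbad (by omega)
  by_cases hσ : ∑ k ∈ I, slk p b (mass b y G a c d) k = (I.card : ℤ) - 2
  · have hO : ∀ k ∈ S \ I, slk p b (mass b y G a c d) k = 0 :=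
      (sum_eq_zero_iff_of_nonneg (fun k hk => sn k (mem_sdiff.1 hk).1)).1 (by omega)
    obtain ⟨x, hx, hxa, hxs, hrest⟩ : ∃ x ∈ I, Act G x ∧
        slk p b (mass b y G a c d) x = (I.card : ℤ) - 2 ∧
        ∀ k ∈ I.erase x, slk p b (mass b y G a c d) k = 0 := by
      by_cases hh : ∃ x ∈ I, slk p b (mass b y G a c d) x ≠ 0
      · obtain ⟨x, hx, hx0⟩ := hh
        have a1 := add_sum_erase I (slk p b (mass b y G a c d)) hx
        have a2 : 0 ≤ ∑ k ∈ I.erase x, slk p b (mass b y G a c d) k :=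
          sum_nonneg (fun k hk => sn k (hI (mem_of_mem_erase hk)))
        have a3 := sn x (hI hx)
        refine ⟨x, hx, ?_, by omega, (sum_eq_zero_iff_of_nonneg
          (fun k hk => sn k (hI (mem_of_mem_erase hk)))).1 (by omega)⟩
        by_contra ha
        exact hx0 (h.inact (hI hx) ha).2.1
      · push Not at hh
        obtain ⟨x, hx, hxa⟩ := h.exists_act hn ih hI hne hbad
        rw [sum_eq_zero hh] at hσ
        exact ⟨x, hx, hxa, by rw [hh x hx]; exact hσ, fun k hk => hh k (mem_of_mem_erase hk)⟩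
    have hxS := hI hx
    have tT : ∀ k ∈ S.erase x, slk p b (mass b y G a c d) k = 0 := by
      intro k hk
      obtain ⟨a1, a2⟩ := mem_erase.1 hk
      by_cases hkI : k ∈ I
      exacts [hrest k (mem_erase.2 ⟨a1, hkI⟩), hO k (mem_sdiff.2 ⟨a2, hkI⟩)]
    have gT : ∀ k ∈ S.erase x, Good p b {k} := by
      intro k hk
      obtain ⟨a1, a2⟩ := mem_erase.1 hk
      by_cases hkI : k ∈ I
      · by_contra hh
        exact a1 (mem_singleton.1 (h.act_mem hn ih hI hbad (singleton_subset_iff.2 hkI)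
          (singleton_nonempty k) hh hx hxa)).symm
      · exact h.out_good hn ih hI hne hbad a2 hkI (tT k hk)
    have cK : ((I.erase x).card : ℤ) = I.card - 1 := by
      rw [card_erase_of_mem hx]
      have := card_pos.2 hne
      omega
    have eu : ∀ J : Finset (Finset V), J.sup id ∪ x = (insert x J).sup id := fun J => by
      rw [sup_insert, union_comm]; rfl
    have eD : ∀ J ⊆ S.erase x, J \ I.erase x = J \ I := fun J hJ => by
      ext k
      simp only [mem_sdiff, mem_erase]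
      exact ⟨fun hh => ⟨hh.1, fun h' => hh.2 ⟨ne_of_mem_erase (hJ hh.1), h'⟩⟩,
        fun hh => ⟨hh.1, fun h' => hh.2 h'.2⟩⟩
    have eD' : S.erase x \ I = S \ I := by
      ext k
      simp only [mem_sdiff, mem_erase]
      exact ⟨fun hh => ⟨hh.1.2, hh.2⟩, fun hh => ⟨⟨fun e => hh.2 (e ▸ hx), hh.1⟩, hh.2⟩⟩
    have rt := h.hl.ms_root h.loc
    have sx := add_sum_erase S (zb p b) hxS
    have sx' := add_sum_erase I (zb p b) hx
    have hst : StarHyp p (mass b y G a c d) b y W (S.erase x) (I.erase x) x := by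
      refine ⟨h.hl.cs, h.hl.hv, h.hl.uns, h.hl.ms_b, h.hl.pb, h.hl.bW, h.hl.yW, h.hl.yb,
        by rw [insert_erase hxS]; exact h.loc.sp, notMem_erase _ _, erase_subset_erase _ hI,
        by omega, fun k hk => ?_, fun k hk => ?_, fun k hk => h.loc.fin.nonneg (mem_of_mem_erase hk),
        by unfold slk at hxs; omega, fun J hJ => ?_, ?_, ?_, ?_,
        fun L hL hLne => h.hl.zle (hL.trans (h.loc.sp.sub x hxS)) hLne,
        fun X hX => by rw [mem_singleton.1 hX]; exact h.loc.fin x hxS⟩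
      · have := tT k hk
        unfold slk at this; omega
      · have a1 := tT k hk
        have a2 := gT k hk
        simp only [Good, slk, sum_singleton, sup_singleton, id] at a1 a2
        omega
      · have hJS : J ⊆ S := hJ.trans (erase_subset _ _)
        have hxJ : x ∉ J := fun hh => notMem_erase x S (hJ hh)
        have a1 := h.hl.exc_mono h.loc (I := insert x J) (J := I ∪ J)
          (insert_subset (mem_union_left _ hx) subset_union_right) (union_subset hI hJS)
        have a2 := hgr (I ∪ J) subset_union_left (union_subset hI hJS)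
        have a3 := StarG.card_split (S \ I) J
        have e1 : (S \ I) ∩ J = J \ I := by
          ext k; simp only [mem_inter, mem_sdiff]
          exact ⟨fun hh => ⟨hh.2, hh.1.2⟩, fun hh => ⟨⟨hJS hh.1, hh.2⟩, hh.1⟩⟩
        have e2 : (S \ I) \ J = S \ (I ∪ J) := sdiff_sdiff_union S I J
        rw [e1, e2] at a3
        rw [eu, eD J hJ]
        have a4 : exc p b (insert x J) = zb p b ((insert x J).sup id) -
          (zb p b x + ∑ k ∈ J, zb p b k) := by unfold exc; rw [sum_insert hxJ]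
        omega
      · rw [eu, insert_erase hxS]
        have a4 : exc p b S = p (insert b (S.sup id)) - 2 - ∑ k ∈ S, zb p b k := rfl
        omega
      · rw [eu, insert_erase hxS, eD _ subset_rfl, eD']
        omega
      · rw [eu, insert_erase hx]
        unfold Good at hbad
        omega
    rcases (show (I.erase x).card = 1 ∨ (I.erase x).card = 2 by omega) with e | e
    exacts [hst.star_one e, hst.star_two e]
  · have c3 : I.card = 3 := by omega
    have ht : ∀ k ∈ I, slk p b (mass b y G a c d) k = 0 :=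
      (sum_eq_zero_iff_of_nonneg (fun k hk => sn k (hI hk))).1 (by omega)
    obtain ⟨k, hk, hkb⟩ : ∃ k ∈ I, ¬ Good p b (I.erase k) := by
      by_contra hh
      push Not at hh
      obtain ⟨q1, q2, q3, n12, n13, n23, rfl⟩ := card_eq_three.1 c3
      have m1 : q1 ∈ ({q1, q2, q3} : Finset (Finset V)) := by simp
      have m2 : q2 ∈ ({q1, q2, q3} : Finset (Finset V)) := by simp
      have m3 : q3 ∈ ({q1, q2, q3} : Finset (Finset V)) := by simp
      have g1 := good_iff.1 (hh q1 m1)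
      have g2 := good_iff.1 (hh q2 m2)
      have g3 := good_iff.1 (hh q3 m3)
      have e1 : ({q1, q2, q3} : Finset (Finset V)).erase q1 = {q2, q3} :=
        erase_insert (by simp [n12, n13])
      have p2 : ({q2, q1, q3} : Finset (Finset V)) = {q1, q2, q3} := insert_comm _ _ _
      have p3 : ({q3, q1, q2} : Finset (Finset V)) = {q1, q2, q3} := triple_rot q1 q2 q3
      have e2 : ({q1, q2, q3} : Finset (Finset V)).erase q2 = {q1, q3} := by
        rw [← p2]; exact erase_insert (by simp [n12.symm, n23])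
      have e3 : ({q1, q2, q3} : Finset (Finset V)).erase q3 = {q1, q2} := by
        rw [← p3]; exact erase_insert (by simp [n13.symm, n23.symm])
      rw [e1] at g1
      rw [e2] at g2
      rw [e3] at g3
      have t1 := hN.triple (hI m2) (hI m3) (hI m1) n23 (ht q1 m1)
      have t2 := hN.triple (hI m1) (hI m3) (hI m2) n13 (ht q2 m2)
      have t3 := hN.triple (hI m1) (hI m2) (hI m3) n12 (ht q3 m3)
      rw [p2, pair_comm q2 q1] at t2
      rw [p3, pair_comm q3 q1, pair_comm q3 q2] at t3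
      omega
    have hka : ¬ Act G k := fun ha => notMem_erase k I (h.act_mem hn ih hI hbad (erase_subset _ _)
      (card_pos.1 (by rw [card_erase_of_mem hk]; omega)) hkb hk ha)
    rcases (h.inact (hI hk) hka).1 with rfl | rfl
    · exact h.swap.three hn ih hI hbad c3 (by rw [mass_swap]; exact ht) hk hkb
    · exact h.three hn ih hI hbad c3 ht hk hkb

end

end Step

theorem lg_all (b y : V) (W : Finset V) (n : ℕ) : LG b y W n := by
  have key : ∀ {p : Finset V → ℤ} {G : Multiset (V × V)} {a c d : V} {S : Finset (Finset V)},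
      HC p b y W G a c d → Loc p b W G S → ∃ a c d A C, Step p b y W G a c d S A C := by
    intro p G a c d S h hS
    obtain ⟨a', c', d', h', hA, hC⟩ := h.letters hS
    obtain ⟨A, a1, a2, a3, a4⟩ := HC.al_part hA
    obtain ⟨C, c1, c2, c3, c4⟩ := HC.al_part hC
    exact ⟨a', c', d', A, C, ⟨h', h'.al_mem hS.sp hA, h'.swap12.al_mem hS.sp hC⟩, hS, a1, c1,
      a2, a3, a4, c2, c3, c4⟩
  induction n with
  | zero =>
    intro p G a c d S hn h hS
    rw [Multiset.card_eq_zero] at hn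
    subst hn
    obtain ⟨a, c, d, A, C, hst⟩ := key h hS
    exact hst.zero
  | succ n ih =>
    intro p G a c d S hn h hS
    obtain ⟨a, c, d, A, C, hst⟩ := key h hS
    exact hst.succ hn ih

end Pool.Agent.CSG.Hv

end

-- part MP_305420_co.HGlob
section

/-! The theorem `HGlobal`. -/

set_option linter.unusedSectionVars false

namespace Pool.Agent.CSG

open Finset Hv

variable {V : Type*} [Fintype V] [DecidableEq V]

theorem Hv.hGlobal_aux {p : Finset V → ℤ} {H E : Multiset (V × V)} {a b c d y : V} {W : Finset V}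
    (hc : HC (fun X => p X - dG E X) b y W H a c d)
    (hE : ∀ X ⊆ W, dG E (insert b X) = Multiset.card E) {S : Finset (Finset V)} (hS : SubP W S)
    (hv : (Multiset.card H : ℤ) + 2 ≤ val (fun X => p (insert b X) - p {b}) S) :
    Obst p (Multiset.card H + Multiset.card E + 4) := by
  classical
  have pb : p {b} = 2 + Multiset.card E := by
    have a1 := hc.pb
    have a2 := hE ∅ (empty_subset W)
    rw [insert_empty_eq] at a2
    omega
  have hz : ∀ X ⊆ W, zb (fun X => p X - dG E X) b X = p (insert b X) - p {b} := fun X hX => by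
    have := hE X hX
    simp only [zb]
    omega
  obtain ⟨S', s1, s2, s3⟩ := exists_finest (zb (fun X => p X - dG E X) b) hS
  rw [← val_congr (fun X hX => hz X (hS.sub X hX))] at hv
  have good := lg_all b y W _ _ H a c d S' rfl hc ⟨s1, hv.trans s2, s3⟩
  have hb : ∀ X ∈ S', X ≠ {b} := fun X hX hh =>
    hc.bW (s1.sub X hX (hh ▸ mem_singleton_self b))
  have hbS : ({b} : Finset V) ∉ S' := fun hh => hb _ hh rfl
  have hw : ∀ J ⊆ S', ∑ X ∈ J, (if X = {b} then p {b} - 1 else zb (fun X => p X - dG E X) b X) =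
      ∑ X ∈ J, zb (fun X => p X - dG E X) b X := fun J hJ =>
    sum_congr rfl (fun X hX => if_neg (hb X (hJ hX)))
  refine ⟨insert {b} S', fun X => if X = {b} then p {b} - 1 else zb (fun X => p X - dG E X) b X,
    ?_, ?_, ?_, ?_⟩
  · have hd : ∀ X ∈ S', Disjoint ({b} : Finset V) X := fun X hX =>
      disjoint_singleton_left.2 (fun hh => hc.bW (s1.sub X hX hh))
    intro X hX Y hY hne
    rcases mem_insert.1 hX with rfl | hX <;> rcases mem_insert.1 hY with rfl | hY
    exacts [absurd rfl hne, hd Y hY, (hd X hX).symm, s1.disj X hX Y hY hne]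
  · intro X hX
    rcases mem_insert.1 hX with rfl | hX
    · simp only [if_true]; omega
    · simp only [if_neg (hb X hX)]; exact s3.nonneg hX
  · intro I hI hne
    by_cases hbI : ({b} : Finset V) ∈ I
    · have hJ : I.erase {b} ⊆ S' := fun X hX =>
        (mem_insert.1 (hI (mem_of_mem_erase hX))).resolve_left (ne_of_mem_erase hX)
      have a1 := hc.low (s1.subset hJ)
      rw [hz _ (s1.subset hJ).sup_subset] at a1
      rw [← insert_erase hbI, sum_insert (notMem_erase _ _), hw _ hJ, if_pos rfl, sup_insert]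
      have a2 := le_symmMax p (insert b ((I.erase {b}).sup id))
      change _ ≤ symmMax p ({b} ∪ _)
      rw [← insert_eq]
      omega
    · have hJ : I ⊆ S' := fun X hX =>
        (mem_insert.1 (hI hX)).resolve_left (fun hh => hbI (hh ▸ hX))
      rw [hw I hJ]
      exact (good I hJ hne).trans (symmMax_mono (fun X => by have := dG_nonneg E X; omega) _)
  · simp only
    rw [sum_insert hbS, if_pos rfl, sum_add_distrib, hw S' subset_rfl, ← sum_add_distrib]
    unfold val at hv s2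
    omega

theorem hGlobal : HGlobal V := by
  classical
  intro p G a b c d h S hS hv
  obtain ⟨e, he, heb⟩ := h.heavy
  obtain ⟨y, hy, hyb⟩ : ∃ y, (e = (b, y) ∨ e = (y, b)) ∧ y ≠ b := by
    have := h.noloop e he
    rcases heb with h1 | h1
    · exact ⟨e.2, Or.inl (by rw [← h1]), fun hh => this (h1.trans hh.symm)⟩
    · exact ⟨e.1, Or.inr (by rw [← h1]), fun hh => this (hh.trans h1.symm)⟩
  obtain ⟨G', hG'⟩ := Multiset.exists_cons_of_mem he
  obtain ⟨E, hG, hE⟩ : ∃ E, G = e ::ₘ (offEdges G b + E) ∧ ∀ g ∈ E, g.1 = b ∨ g.2 = b := by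
    refine ⟨G'.filter (fun g => ¬ (g.1 ≠ b ∧ g.2 ≠ b)), ?_, fun g hg => ?_⟩
    · have : offEdges G b = G'.filter (fun g => g.1 ≠ b ∧ g.2 ≠ b) := by
        unfold offEdges
        rw [hG', Multiset.filter_cons_of_neg]
        rintro ⟨h1, h2⟩
        exact heb.elim h1 h2
      rw [this, Multiset.filter_add_not]
      exact hG'
    · have := (Multiset.mem_filter.1 hg).2
      by_contra hh
      exact this ⟨fun h1 => hh (Or.inl h1), fun h1 => hh (Or.inr h1)⟩
  have memW : ∀ v ∈ farSet G b, v ≠ b ∧ (b, v) ∉ G ∧ (v, b) ∉ G := fun v hv =>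
    (mem_filter.1 hv).2
  have hoff : ∀ g ∈ offEdges G b, g ∈ G ∧ g.1 ≠ b ∧ g.2 ≠ b := fun g hg => Multiset.mem_filter.1 hg
  generalize offEdges G b = H at hG hv hoff
  generalize farSet G b = W at hS memW
  have ce : ∀ X, cut e X = cut (b, y) X := fun X => by
    rcases hy with rfl | rfl
    exacts [rfl, cut_swap _ _ _]
  have fe : ∀ X, fr (fun X => p X - dG E X) b y H X = rs p G X := fun X => by
    rw [hG]
    simp only [fr, rs, dG_cons, dG_add, ce]
    ring
  have mT : ∀ X, ms ({a, b, c, d} : Multiset V) X = ind a X + ind b X + ind c X + ind d X :=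
    fun X => by
      simp only [Multiset.insert_eq_cons, ms_cons, ms_singleton]
      ring
  have hEG : ∀ g ∈ E, g ∈ G := fun g hg => by
    rw [hG]; exact Multiset.mem_cons_of_mem (Multiset.mem_add.2 (Or.inr hg))
  have hc : HC (fun X => p X - dG E X) b y W H a c d := by
    refine ⟨h.cs.sub_dG E, fun hh => (memW b hh).1 rfl, fun hh => ?_, hyb, h.ab, h.bc.symm,
      h.bd.symm, fun X => ?_, fun X => ?_, fun hs => h.uns ?_, by rw [fe, h.sb], ?_⟩
    · rcases hy with rfl | rfl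
      exacts [(memW y hh).2.1 he, (memW y hh).2.2 he]
    · have := h.valid.le X
      rw [fe, ← mT]; unfold rs; omega
    · have := h.valid.le_compl X
      rw [mT] at this
      simp only [ind_compl] at this
      rw [fe]; unfold rs; omega
    · have := Solvable.add E hs
      convert this using 1
      rw [hG]
      rcases hy with rfl | rfl <;>
      · simp only [ends_cons, ends_add, mass, Multiset.insert_eq_cons]
        simp only [← Multiset.singleton_add]; abel
    · intro X h1 h2 h3 h4 h5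
      rw [fe] at h5
      obtain ⟨a1, a2⟩ := h.ancb X h1 h2 h3 h4 (le_antisymm (h.top X) h5)
      refine ⟨fun g hg => ?_, fun hX => ?_⟩
      · obtain ⟨b1, b2, b3⟩ := hoff g hg
        exact ⟨fun hh => (a1 g b1 (Or.inl hh)).elim b2 b3,
          fun hh => (a1 g b1 (Or.inr hh)).elim b2 b3⟩
      · refine a2.resolve_right ?_
        rintro ⟨v, b1, b2, b3⟩
        have := memW v ((mem_insert.1 (hX b1)).resolve_left b2)
        exact b3.elim this.2.1 this.2.2
  have := hGlobal_aux hc (fun X hX => (all_cut (fun g hg => by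
    have a1 := h.noloop g (hEG g hg)
    have a2 := hEG g hg
    obtain ⟨u, v⟩ := g
    rcases hE _ hg with rfl | rfl
    · refine cut_eq_one.2 (Or.inl ⟨mem_insert_self _ _, fun hh => ?_⟩)
      exact (mem_insert.1 hh).elim (fun e => a1 e.symm) (fun hh => (memW _ (hX hh)).2.1 a2)
    · refine cut_eq_one.2 (Or.inr ⟨fun hh => ?_, mem_insert_self _ _⟩)
      exact (mem_insert.1 hh).elim a1 (fun hh => (memW _ (hX hh)).2.2 a2))).1) hS hv
  refine this.mono (fun _ => le_rfl) ?_
  rw [hG, Multiset.card_cons, Multiset.card_add]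
  push_cast
  omega

end Pool.Agent.CSG

end
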