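import Pool.Agent.MP_305420_co.Mg.AncBase
import Pool.Agent.MP_305420_co.Mg.SC
import Pool.Agent.MP_305420_co.Mg.HCls
import Pool.Agent.MP_305420_co.Mg.HGlob

-- part MP_305420_co.LLDefs
section

/-! The light case: two edgeless anchors `a`, `b` and a multigraph `H` on the other points. -/

set_option linter.unusedSectionVars false

namespace Pool.Agent.CSG

open Finset

variable {V : Type*} [Fintype V] [DecidableEq V]

/-- the base class of the light case; `H` contains the edge joining the other two terminals -/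
structure HB (p : Finset V → ℤ) (H : Multiset (V × V)) (a b : V) : Prop where
  cs : CS p
  ab : a ≠ b
  off : ∀ e ∈ H, e.1 ≠ a ∧ e.2 ≠ a ∧ e.1 ≠ b ∧ e.2 ≠ b
  pa : p {a} = 1
  pb : p {b} = 1
  top : ∀ X, rs p H X ≤ 1
  oa : ∀ X, a ∈ X → b ∉ X → X ≠ {a} → X ≠ {b}ᶜ → rs p H X ≤ 0
  ob : ∀ X, b ∈ X → a ∉ X → X ≠ {b} → X ≠ {a}ᶜ → rs p H X ≤ 0
  uns : ¬ Solvable p (ends H + {a, b})

/-- an edge that meets no set of residual demand one containing `a, b`, and lies in every such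
set avoiding `a, b` -/
def Free (p : Finset V → ℤ) (H : Multiset (V × V)) (a b : V) (e : V × V) : Prop :=
  (∀ X, a ∈ X → b ∈ X → e.1 ∈ X ∨ e.2 ∈ X → rs p H X ≤ 0) ∧
  (∀ X, a ∉ X → b ∉ X → e.1 ∉ X ∨ e.2 ∉ X → rs p H X ≤ 0)

/-- the local weight function of the anchor `a` -/
def zeta (p : Finset V → ℤ) (a : V) (X : Finset V) : ℤ := p (insert a X) - 1

/-- first outcome of the local step: an exact structure for the letter `a` whose root point `r`
lies in no set of residual demand one containing `a, b` -/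
def Out1 (p : Finset V → ℤ) (H : Multiset (V × V)) (a b : V) : Prop :=
  p {a, b} = 1 ∧ ∃ (r : V) (S : Finset (Finset V)), r ≠ a ∧ r ≠ b ∧
    (∀ X, a ∈ X → b ∈ X → r ∈ X → rs p H X ≤ 0) ∧
    SubP ({a, b, r}ᶜ) S ∧ (Multiset.card H : ℤ) ≤ val (zeta p a) S

/-- the two-edge witness of the last outcome -/
structure DW (p : Finset V → ℤ) (H : Multiset (V × V)) (a b x1 y1 x2 y2 : V)
    (Y1 Y2 : Finset V) : Prop where
  e1 : (x1, y1) ∈ H ∨ (y1, x1) ∈ H
  e2 : (x2, y2) ∈ H ∨ (y2, x2) ∈ H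
  m1 : y1 ∈ Y1 ∧ x1 ∉ Y1 ∧ x2 ∉ Y1 ∧ a ∉ Y1 ∧ b ∉ Y1
  m2 : y2 ∈ Y2 ∧ x1 ∉ Y2 ∧ x2 ∉ Y2 ∧ a ∉ Y2 ∧ b ∉ Y2
  t1 : 0 ≤ rs p H (insert a Y1) ∧ 0 ≤ rs p H (insert b Y1)
  t2 : 0 ≤ rs p H (insert a Y2) ∧ 0 ≤ rs p H (insert b Y2)
  nt : ∀ X, a ∈ X → b ∉ X → y1 ∈ X → y2 ∈ X → x1 ∉ X → x2 ∉ X → rs p H X ≤ -1
  n1 : ∀ X, a ∈ X → b ∉ X → x1 ∈ X → y1 ∉ X → rs p H X ≤ -1
  n2 : ∀ X, a ∈ X → b ∉ X → x2 ∈ X → y2 ∉ X → rs p H X ≤ -1

/-- last outcome of the local step (stated in the reflected world) -/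
def Out3 (p : Finset V → ℤ) (H : Multiset (V × V)) (a b : V) : Prop :=
  p {a}ᶜ = 1 ∧ p {b}ᶜ = 1 ∧ p {a, b}ᶜ = 1 ∧
  (∀ X, a ∈ X → b ∈ X → rs p H X ≤ 0) ∧
  (∀ X, a ∉ X → b ∉ X → X ≠ {a, b}ᶜ → rs p H X ≤ 0) ∧
  (∃ x1 y1 x2 y2 Y1 Y2, DW p H a b x1 y1 x2 y2 Y1 Y2) ∧
  ∃ (r : V) (S : Finset (Finset V)), r ≠ a ∧ r ≠ b ∧
    SubP ({a, b, r}ᶜ) S ∧ (Multiset.card H : ℤ) ≤ val (zeta p a) S

/-- the local step of the light case -/
def LLLocal (V : Type*) [Fintype V] [DecidableEq V] : Prop :=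
  ∀ (p : Finset V → ℤ) (G : Multiset (V × V)) (a b c d : V), LLState p G a b c d →
    Out1 p ((c, d) ::ₘ G) a b ∨ Out1 p ((c, d) ::ₘ G) b a ∨
    (p {a}ᶜ = 1 ∧ p {b}ᶜ = 1 ∧
      (Out1 (refl p) ((c, d) ::ₘ G) a b ∨ Out1 (refl p) ((c, d) ::ₘ G) b a ∨
       Out3 (refl p) ((c, d) ::ₘ G) a b ∨ Out3 (refl p) ((c, d) ::ₘ G) b a))

/-- local to global, first mode -/
def LG1 (V : Type*) [Fintype V] [DecidableEq V] : Prop :=
  ∀ (p : Finset V → ℤ) (H : Multiset (V × V)) (a b : V), HB p H a b →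
    (∃ e ∈ H, Free p H a b e) → Out1 p H a b → Obst p (Multiset.card H + 2)

/-- local to global, second mode -/
def LG2 (V : Type*) [Fintype V] [DecidableEq V] : Prop :=
  ∀ (p : Finset V → ℤ) (H : Multiset (V × V)) (a b : V), HB p H a b →
    Out3 p H a b → Obst p (Multiset.card H + 2)

end Pool.Agent.CSG

end

-- part MP_305420_co.LGBase
section

/-! Basic facts on the light class: uncrossing with letters, validity, soft contraction and the
assembly of an obstacle. -/

set_option linter.unusedSectionVars false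

namespace Pool.Agent.CSG

open Finset

variable {V : Type*} [Fintype V] [DecidableEq V]
variable {p : Finset V → ℤ} {H : Multiset (V × V)} {a b : V}

/-- the points `x, y` are joined by an edge of `H` -/
def Adj (H : Multiset (V × V)) (x y : V) : Prop := (x, y) ∈ H ∨ (y, x) ∈ H

theorem Adj.symm {x y : V} (h : Adj H x y) : Adj H y x := Or.symm h

theorem adj_of_cut {e : V × V} (he : e ∈ H) {X : Finset V} (hc : cut e X = 1) :
    ∃ x y, x ∈ X ∧ y ∉ X ∧ Adj H x y ∧ (e = (x, y) ∨ e = (y, x)) := by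
  rcases cut_eq_one.1 hc with ⟨h1, h2⟩ | ⟨h1, h2⟩
  · exact ⟨e.1, e.2, h1, h2, Or.inl he, Or.inl rfl⟩
  · exact ⟨e.2, e.1, h2, h1, Or.inr he, Or.inr rfl⟩

theorem dG_insert_off {s : V} (h : ∀ e ∈ H, e.1 ≠ s ∧ e.2 ≠ s) (X : Finset V) :
    dG H (insert s X) = dG H X := by
  unfold dG
  congr 1
  refine Multiset.map_congr rfl fun e he => ?_
  obtain ⟨h1, h2⟩ := h e he
  unfold cut
  simp [h1, h2]

theorem HB.swap (h : HB p H a b) : HB p H b a where
  cs := h.cs
  ab := h.ab.symm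
  off := fun e he => by have := h.off e he; tauto
  pa := h.pb
  pb := h.pa
  top := h.top
  oa := h.ob
  ob := h.oa
  uns := by
    have : ({b, a} : Multiset V) = {a, b} := Multiset.cons_swap _ _ _
    rw [this]; exact h.uns

theorem Free.swap {e : V × V} (h : Free p H a b e) : Free p H b a e :=
  ⟨fun X h1 h2 => h.1 X h2 h1, fun X h1 h2 => h.2 X h2 h1⟩

theorem HB.da (h : HB p H a b) (X : Finset V) : dG H (insert a X) = dG H X :=
  dG_insert_off (fun e he => ⟨(h.off e he).1, (h.off e he).2.1⟩) X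

theorem HB.db (h : HB p H a b) (X : Finset V) : dG H (insert b X) = dG H X := h.swap.da X

theorem HB.adj_ne (h : HB p H a b) {x y : V} (he : Adj H x y) :
    x ≠ a ∧ x ≠ b ∧ y ≠ a ∧ y ≠ b := by
  rcases he with he | he <;> have := h.off _ he <;> tauto

theorem HB.d_sa (h : HB p H a b) : dG H {a} = 0 := by
  have := h.da ∅
  rwa [dG_empty] at this

theorem HB.d_sab (h : HB p H a b) : dG H {a, b} = 0 := by
  rw [h.da, h.swap.d_sa]

theorem HB.rs_a (h : HB p H a b) : rs p H {a} = 1 := by unfold rs; rw [h.pa, h.d_sa]; simp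

/-- general uncrossing with named results -/
theorem CS.unc (hp : CS p) (G : Multiset (V × V)) {X Y P Q : Finset V} {s t : V} (hs : s ∈ X)
    (hs' : s ∈ Y) (ht : t ∉ X) (ht' : t ∉ Y) (hP : ∀ v, v ∈ P ↔ v ∈ X ∧ v ∈ Y)
    (hQ : ∀ v, v ∈ Q ↔ v ∈ X ∨ v ∈ Y) : rs p G X + rs p G Y ≤ rs p G P + rs p G Q := by
  have e1 : P = X ∩ Y := by ext v; rw [hP, mem_inter]
  have e2 : Q = X ∪ Y := by ext v; rw [hQ, mem_union]
  rw [e1, e2]; exact hp.rs_super G hs hs' ht ht'

/-- uncrossing with the bonus of one edge -/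
theorem CS.unc1 (hp : CS p) {G : Multiset (V × V)} {X Y P Q : Finset V} {s t x y : V}
    (hs : s ∈ X) (hs' : s ∈ Y) (ht : t ∉ X) (ht' : t ∉ Y) (he : Adj G x y) (h1 : x ∈ X)
    (h2 : x ∉ Y) (h3 : y ∈ Y) (h4 : y ∉ X) (hP : ∀ v, v ∈ P ↔ v ∈ X ∧ v ∈ Y)
    (hQ : ∀ v, v ∈ Q ↔ v ∈ X ∨ v ∈ Y) : rs p G X + rs p G Y + 2 ≤ rs p G P + rs p G Q := by
  have e1 : P = X ∩ Y := by ext v; rw [hP, mem_inter]
  have e2 : Q = X ∪ Y := by ext v; rw [hQ, mem_union]
  rw [e1, e2]
  rcases he with he | he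
  · have := hp.rs_bonus (Multiset.singleton_le.2 he) hs hs' ht ht'
      (fun e h => by rw [Multiset.mem_singleton.1 h]; exact Or.inl ⟨h1, h2, h3, h4⟩)
    simpa using this
  · have := hp.rs_bonus (Multiset.singleton_le.2 he) hs hs' ht ht'
      (fun e h => by rw [Multiset.mem_singleton.1 h]; exact Or.inr ⟨h3, h4, h1, h2⟩)
    simpa using this

theorem CS.uncp (hp : CS p) {X Y P Q : Finset V} {s t : V} (hs : s ∈ X)
    (hs' : s ∈ Y) (ht : t ∉ X) (ht' : t ∉ Y) (hP : ∀ v, v ∈ P ↔ v ∈ X ∧ v ∈ Y)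
    (hQ : ∀ v, v ∈ Q ↔ v ∈ X ∨ v ∈ Y) : p X + p Y ≤ p P + p Q := by
  have := hp.unc 0 hs hs' ht ht' hP hQ
  simpa [rs] using this

/-- bound for sets with exactly the letter `a` -/
theorem HB.le_a (h : HB p H a b) {X : Finset V} (ha : a ∈ X) (hb : b ∉ X) {x y : V} (hx : x ∈ X)
    (hxa : x ≠ a) (hy : y ∉ X) (hyb : y ≠ b) : rs p H X ≤ 0 := by
  refine h.oa X ha hb ?_ ?_
  · rintro rfl; exact hxa (mem_singleton.1 hx)
  · rintro rfl; exact hy (by simpa using hyb)

/-- every rearrangement is blocked -/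
theorem HB.blocked (h : HB p H a b) {E M : Multiset (V × V)} (hE : E ≤ H)
    (hM : ends M = ends E + {a, b}) : ∃ G', ends G' = ends H + {a, b} ∧
      ∀ X, dG G' X = dG H X + dG M X - dG E X := by
  obtain ⟨K, rfl⟩ := Multiset.le_iff_exists_add.1 hE
  refine ⟨K + M, ?_, fun X => ?_⟩
  · rw [ends_add, ends_add, hM]; abel
  · simp only [dG_add]; omega

theorem dG_inner {e : V × V} (he : e ∈ H) {X : Finset V} (h1 : e.1 ∈ X) (h2 : e.2 ∈ X) :
    dG H X + 2 ≤ ms (ends H) X := by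
  obtain ⟨K, rfl⟩ := Multiset.exists_cons_of_mem he
  have := dG_le_ms K X
  rw [dG_cons, ends_cons, ms_cons, ms_cons, ind_of_mem h1, ind_of_mem h2,
    cut_eq_zero.2 (by simp [h1, h2])]
  omega

theorem ms_pair (a b : V) (X : Finset V) : ms {a, b} X = ind a X + ind b X := by
  simp only [Multiset.insert_eq_cons, ms_cons, ms_singleton]

/-- validity of the degree specification -/
theorem HB.valid (h : HB p H a b) {e : V × V} (he : e ∈ H) (hf : Free p H a b e) :
    Valid p 0 (ends H + {a, b}) := by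
  intro X
  have d1 := dG_le_ms H X
  have t1 := h.top X
  have t2 := h.top Xᶜ
  have i1 := ind_nonneg a X
  have i2 := ind_nonneg b X
  unfold rs at t1 t2
  rw [dG_compl] at t2
  simp only [dG_zero, ms_add, ms_pair, zero_add]
  by_cases ha : a ∈ X
  · rw [ind_of_mem ha]; omega
  by_cases hb : b ∈ X
  · rw [ind_of_mem hb]; omega
  by_cases hin : e.1 ∈ X ∧ e.2 ∈ X
  · have := dG_inner he hin.1 hin.2; omega
  have f1 := hf.2 X ha hb (by tauto)
  have f2 := hf.1 Xᶜ (by simpa using ha) (by simpa using hb) (by simp only [mem_compl]; tauto)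
  unfold rs at f1 f2
  rw [dG_compl] at f2
  omega

/-- blocked rearrangements with soft contraction -/
theorem HB.blocked_ns (h : HB p H a b) (hv : Valid p 0 (ends H + {a, b}))
    {E M : Multiset (V × V)} (hE : E ≤ H) (hM : ends M = ends E + {a, b})
    (F : Finset (Finset V)) (hF : IsSubpartition F)
    (ht : ∀ Z ∈ F, ms (ends H + {a, b}) Z ≤ symmMax p Z) :
    ∃ T, NoSplit F T ∧ dG M T - dG E T + 1 ≤ rs p H T := by
  obtain ⟨G', h1, h2⟩ := h.blocked hE hM
  obtain ⟨T, h3, h4⟩ := exists_blocker h.cs hv h.uns h1 F hF ht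
  refine ⟨T, h3, ?_⟩
  rw [h2] at h4
  unfold rs; omega

theorem HB.blocked' (h : HB p H a b) {E M : Multiset (V × V)} (hE : E ≤ H)
    (hM : ends M = ends E + {a, b}) : ∃ T, dG M T - dG E T + 1 ≤ rs p H T := by
  obtain ⟨G', h1, h2⟩ := h.blocked hE hM
  by_contra hc
  push Not at hc
  refine h.uns ⟨G', h1, fun X => ?_⟩
  have := hc X
  rw [h2]
  unfold rs at this; omega

theorem CS.uncE (hp : CS p) {G E : Multiset (V × V)} (hE : E ≤ G) {X Y P Q : Finset V} {s t : V}
    (hs : s ∈ X) (hs' : s ∈ Y) (ht : t ∉ X) (ht' : t ∉ Y) (he : ∀ e ∈ E, sepE e X Y)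
    (hP : ∀ v, v ∈ P ↔ v ∈ X ∧ v ∈ Y) (hQ : ∀ v, v ∈ Q ↔ v ∈ X ∨ v ∈ Y) :
    rs p G X + rs p G Y + 2 * Multiset.card E ≤ rs p G P + rs p G Q := by
  have e1 : P = X ∩ Y := by ext v; rw [hP, mem_inter]
  have e2 : Q = X ∪ Y := by ext v; rw [hQ, mem_union]
  rw [e1, e2]; exact hp.rs_bonus hE hs hs' ht ht' he

/-- the edge `e` has the ends `x, y` -/
def IsE (e : V × V) (x y : V) : Prop := e = (x, y) ∨ e = (y, x)

theorem IsE.ends {e : V × V} {x y : V} (h : IsE e x y) :
    ends ({e} : Multiset (V × V)) = {x} + {y} := by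
  rcases h with rfl | rfl
  · simp [CSG.ends]
  · simp only [CSG.ends, Multiset.map_singleton]; exact add_comm _ _

theorem ends_one (x y : V) : ends ({(x, y)} : Multiset (V × V)) = {x} + {y} :=
  IsE.ends (Or.inl rfl)

theorem IsE.cut {e : V × V} {x y : V} (h : IsE e x y) (X : Finset V) :
    cut e X = cut (x, y) X := by
  rcases h with rfl | rfl
  exacts [rfl, cut_swap _ _ _]

theorem IsE.sep {e : V × V} {x y : V} (h : IsE e x y) {X Y : Finset V} (h1 : x ∈ X) (h2 : x ∉ Y)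
    (h3 : y ∈ Y) (h4 : y ∉ X) : sepE e X Y := by
  rcases h with rfl | rfl
  exacts [Or.inl ⟨h1, h2, h3, h4⟩, Or.inr ⟨h3, h4, h1, h2⟩]

theorem IsE.adj {e : V × V} {x y : V} (h : IsE e x y) (he : e ∈ H) : Adj H x y := by
  rcases h with rfl | rfl
  exacts [Or.inl he, Or.inr he]

theorem Adj.isE {x y : V} (h : Adj H x y) : ∃ e ∈ H, IsE e x y := by
  rcases h with h | h
  exacts [⟨_, h, Or.inl rfl⟩, ⟨_, h, Or.inr rfl⟩]

theorem pair_eq_add (a b : V) : ({a, b} : Multiset V) = {a} + {b} := rfl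

theorem HB.zsup (h : HB p H a b) {r : V} (hr : r ≠ a) : SupOn ({a, r}ᶜ) (zeta p a) := by
  intro X hX Y hY
  have h1 : r ∉ X := fun hh => by simpa using hX hh
  have h2 : r ∉ Y := fun hh => by simpa using hY hh
  have := h.cs.uncp (X := insert a X) (Y := insert a Y) (P := insert a (X ∩ Y))
    (Q := insert a (X ∪ Y)) (s := a) (t := r) (by simp) (by simp) (by simp [hr, h1])
    (by simp [hr, h2]) (by intro v; simp only [mem_insert, mem_inter]; tauto)
    (by intro v; simp only [mem_insert, mem_union]; tauto)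
  unfold zeta; omega

theorem HB.zeta0 (h : HB p H a b) : zeta p a ∅ = 0 := by
  unfold zeta; rw [insert_empty_eq, h.pa]; rfl

theorem mem_c3 {r v : V} : v ∈ ({a, b, r}ᶜ : Finset V) ↔ v ≠ a ∧ v ≠ b ∧ v ≠ r := by
  simp

theorem c3_sub (a b r : V) : ({a, b, r}ᶜ : Finset V) ⊆ {a, r}ᶜ := fun v hv => by
  rw [mem_c3] at hv; simp [hv]

/-- assembling an obstacle from the anchors and the parts -/
theorem obst_of_parts {r : V} {S : Finset (Finset V)} (hab : a ≠ b) (hS : SubP ({a, b, r}ᶜ) S)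
    (w : Finset V → ℤ) (hw : ∀ X ∈ S, 0 ≤ w X) {n : ℤ} (hn : n ≤ val w S)
    (g0 : ∀ J ⊆ S, J.Nonempty → 1 + ∑ X ∈ J, w X ≤ symmMax p (J.sup id))
    (ga : ∀ J ⊆ S, 1 + ∑ X ∈ J, w X ≤ symmMax p (insert a (J.sup id)))
    (gb : ∀ J ⊆ S, 1 + ∑ X ∈ J, w X ≤ symmMax p (insert b (J.sup id)))
    (gab : ∀ J ⊆ S, 1 + ∑ X ∈ J, w X ≤ symmMax p (insert a (insert b (J.sup id)))) :
    Obst p (n + 2) := by
  classical
  have na : ∀ X ∈ S, a ∉ X := fun X hX hh => (mem_c3.1 (hS.sub X hX hh)).1 rfl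
  have nb : ∀ X ∈ S, b ∉ X := fun X hX hh => (mem_c3.1 (hS.sub X hX hh)).2.1 rfl
  have sa : ({a} : Finset V) ∉ S := fun hh => na _ hh (mem_singleton_self _)
  have sb : ({b} : Finset V) ∉ S := fun hh => nb _ hh (mem_singleton_self _)
  have sab : ({a} : Finset V) ≠ {b} := fun hh => hab (singleton_injective hh)
  set w' : Finset V → ℤ := fun X => if X ∈ S then w X else 0 with hw'
  have e1 : ∀ J ⊆ S, ∑ X ∈ J, w' X = ∑ X ∈ J, w X := fun J hJ =>
    sum_congr rfl fun X hX => if_pos (hJ hX)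
  have ea : w' {a} = 0 := if_neg sa
  have eb : w' {b} = 0 := if_neg sb
  refine ⟨insert {a} (insert {b} S), w', ?_, ?_, ?_, ?_⟩
  · intro X hX Y hY hne
    simp only [mem_insert] at hX hY
    rcases hX with rfl | rfl | hX <;> rcases hY with rfl | rfl | hY
    · exact absurd rfl hne
    · simpa using hab
    · simpa using na Y hY
    · simpa using hab.symm
    · exact absurd rfl hne
    · simpa using nb Y hY
    · simpa using na X hX
    · simpa using nb X hX
    · exact hS.disj X hX Y hY hne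
  · intro X _
    simp only [hw']
    split_ifs with hh
    exacts [hw X hh, le_rfl]
  · intro I hI hne
    have hJ : (I.erase {a}).erase {b} ⊆ S := fun X hX => by
      simp only [mem_erase] at hX
      have := hI hX.2.2
      simp only [mem_insert] at this
      tauto
    set J := (I.erase {a}).erase {b} with hJd
    have ja : ({a} : Finset V) ∉ J := fun hh => sa (hJ hh)
    have jb : ({b} : Finset V) ∉ J := fun hh => sb (hJ hh)
    by_cases ha : ({a} : Finset V) ∈ I <;> by_cases hb : ({b} : Finset V) ∈ I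
    · have e : I = insert {a} (insert {b} J) := by
        rw [hJd, insert_erase (mem_erase.2 ⟨sab.symm, hb⟩), insert_erase ha]
      rw [e, sum_insert (by simp [sab, ja]), sum_insert jb, ea, eb, e1 J hJ, sup_insert, sup_insert]
      have := gab J hJ
      rw [insert_eq, insert_eq] at this
      simp only [zero_add]
      exact this
    · have e : I = insert {a} J := by
        rw [hJd, erase_eq_of_notMem (fun hh => hb (mem_of_mem_erase hh)), insert_erase ha]
      rw [e, sum_insert ja, ea, e1 J hJ, sup_insert]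
      simpa using ga J hJ
    · have e : I = insert {b} J := by
        rw [hJd, erase_eq_of_notMem ha, insert_erase hb]
      rw [e, sum_insert jb, eb, e1 J hJ, sup_insert]
      simpa using gb J hJ
    · have e : I = J := by rw [hJd, erase_eq_of_notMem ha, erase_eq_of_notMem hb]
      rw [e, e1 J hJ]
      exact g0 J hJ (e ▸ hne)
  · rw [sum_insert (by simp [sab, sa]), sum_insert sb, ea, eb]
    have : ∑ X ∈ S, (1 + w' X) = val w S := sum_congr rfl fun X hX => by
      simp only [hw', if_pos hX]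
    omega

end Pool.Agent.CSG

end

-- part MP_305420_co.LGForest
section

/-! Exact local structures: counting, tight unions of parts. -/

set_option linter.unusedSectionVars false

namespace Pool.Agent.CSG

open Finset

variable {V : Type*} [Fintype V] [DecidableEq V]
variable {R : Finset V} {z : Finset V → ℤ} {H : Multiset (V × V)} {S : Finset (Finset V)}

/-- an exact local structure -/
structure EX (R : Finset V) (z : Finset V → ℤ) (H : Multiset (V × V)) (S : Finset (Finset V)) :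
    Prop where
  sup : SupOn R z
  z0 : z ∅ = 0
  bd : ∀ X ⊆ R, X.Nonempty → z X + 1 ≤ dG H X
  sp : SubP R S
  ex : (Multiset.card H : ℤ) ≤ val z S

/-- total weight of a family -/
def wt (z : Finset V → ℤ) (J : Finset (Finset V)) : ℤ := ∑ X ∈ J, z X

theorem val_eq_wt (z : Finset V → ℤ) (J : Finset (Finset V)) : val z J = J.card + wt z J := by
  simp [val, wt, sum_add_distrib]

theorem wt_insert {J : Finset (Finset V)} {X : Finset V} (h : X ∉ J) :
    wt z (insert X J) = z X + wt z J := sum_insert h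

theorem wt_single (X : Finset V) : wt z {X} = z X := sum_singleton _ _

theorem wt_modular (z : Finset V → ℤ) (I J : Finset (Finset V)) :
    wt z (I ∪ J) + wt z (I ∩ J) = wt z I + wt z J := sum_union_inter

theorem wt_sdiff {I J : Finset (Finset V)} (h : I ⊆ J) : wt z (J \ I) + wt z I = wt z J :=
  sum_sdiff h

theorem SubP.mem_sup_iff (h : SubP R S) {J : Finset (Finset V)} (hJ : J ⊆ S) {X : Finset V}
    (hX : X ∈ S) {v : V} (hv : v ∈ X) : v ∈ J.sup id ↔ X ∈ J := by
  rw [mem_sup_id]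
  exact ⟨fun ⟨Y, hY, hvY⟩ => h.eq_of_mem (hJ hY) hX hvY hv ▸ hY, fun hXJ => ⟨X, hXJ, hv⟩⟩

theorem SubP.sup_inter (h : SubP R S) {I J : Finset (Finset V)} (hI : I ⊆ S) (hJ : J ⊆ S) (v : V) :
    v ∈ (I ∩ J).sup id ↔ v ∈ I.sup id ∧ v ∈ J.sup id := by
  constructor
  · intro hv
    obtain ⟨X, hX, hv⟩ := mem_sup_id.1 hv
    exact ⟨mem_sup_id.2 ⟨X, (mem_inter.1 hX).1, hv⟩, mem_sup_id.2 ⟨X, (mem_inter.1 hX).2, hv⟩⟩
  · rintro ⟨h1, h2⟩
    obtain ⟨X, hX, hv⟩ := mem_sup_id.1 h1
    exact mem_sup_id.2 ⟨X, mem_inter.2 ⟨hX, (h.mem_sup_iff hJ (hI hX) hv).1 h2⟩, hv⟩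

theorem mem_sup_union (I J : Finset (Finset V)) (v : V) :
    v ∈ (I ∪ J).sup id ↔ v ∈ I.sup id ∨ v ∈ J.sup id := by
  rw [sup_union]; exact mem_union

theorem SubP.sup_sdiff (h : SubP R S) {I J : Finset (Finset V)} (hI : I ⊆ S) (hJ : J ⊆ S) (v : V) :
    v ∈ (I \ J).sup id ↔ v ∈ I.sup id ∧ v ∉ J.sup id := by
  constructor
  · intro hv
    obtain ⟨X, hX, hv⟩ := mem_sup_id.1 hv
    rw [mem_sdiff] at hX
    exact ⟨mem_sup_id.2 ⟨X, hX.1, hv⟩, fun h2 => hX.2 ((h.mem_sup_iff hJ (hI hX.1) hv).1 h2)⟩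
  · rintro ⟨h1, h2⟩
    obtain ⟨X, hX, hv⟩ := mem_sup_id.1 h1
    exact mem_sup_id.2 ⟨X, mem_sdiff.2 ⟨hX, fun hXJ => h2 (mem_sup_id.2 ⟨X, hXJ, hv⟩)⟩, hv⟩

theorem SubP.sup_ne (h : SubP R S) {J : Finset (Finset V)} (hJ : J ⊆ S) (hne : J.Nonempty) :
    (J.sup id).Nonempty := by
  obtain ⟨X, hX⟩ := hne
  obtain ⟨v, hv⟩ := h.ne X (hJ hX)
  exact ⟨v, mem_sup_id.2 ⟨X, hX, hv⟩⟩

theorem ms_eq_inn (G : Multiset (V × V)) (X : Finset V) :
    ms (ends G) X = dG G X + 2 * inn G X := by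
  induction G using Multiset.induction_on with
  | empty => simp [inn]
  | cons e G ih => rw [ends_cons, ms_cons, ms_cons, dG_cons, inn_cons, cut_eq, ih]; ring

theorem dG_modular {G : Multiset (V × V)} {X Y : Finset V} (h : ∀ e ∈ G, ¬ sepE e X Y) :
    dG G X + dG G Y = dG G (X ∩ Y) + dG G (X ∪ Y) := by
  induction G using Multiset.induction_on with
  | empty => simp
  | cons e G ih =>
    have h1 := ih (fun x hx => h x (Multiset.mem_cons_of_mem hx))
    have h2 := h e (Multiset.mem_cons_self _ _)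
    have h3 : cut e X + cut e Y = cut e (X ∩ Y) + cut e (X ∪ Y) := by
      unfold cut
      unfold sepE at h2
      by_cases b1 : e.1 ∈ X <;> by_cases b2 : e.2 ∈ X <;> by_cases b3 : e.1 ∈ Y <;>
        by_cases b4 : e.2 ∈ Y <;> simp_all
    simp only [dG_cons]; omega

theorem card_filter_inside (G : Multiset (V × V)) (X : Finset V) :
    (Multiset.card (G.filter (fun e => ¬ (e.1 ∈ X ∧ e.2 ∈ X))) : ℤ) + inn G X =
      Multiset.card G := by
  induction G using Multiset.induction_on with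
  | empty => simp [inn]
  | cons e G ih =>
    rw [inn_cons, Multiset.filter_cons, Multiset.card_add, Multiset.card_cons]
    unfold ind
    by_cases b1 : e.1 ∈ X <;> by_cases b2 : e.2 ∈ X <;> simp [b1, b2] <;> simp at ih <;> omega

theorem card_filter_meet (G : Multiset (V × V)) (X : Finset V) :
    (Multiset.card (G.filter (fun e => e.1 ∈ X ∨ e.2 ∈ X)) : ℤ) = inn G X + dG G X := by
  induction G using Multiset.induction_on with
  | empty => simp [inn]
  | cons e G ih =>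
    rw [inn_cons, dG_cons, Multiset.filter_cons, Multiset.card_add]
    unfold ind cut
    by_cases b1 : e.1 ∈ X <;> by_cases b2 : e.2 ∈ X <;> simp [b1, b2] <;> omega

theorem meet_three {G : Multiset (V × V)} {X Y Z : Finset V} (d1 : Disjoint X Y)
    (d2 : Disjoint X Z) (d3 : Disjoint Y Z) (h1 : ∀ e ∈ G, ¬ sepE e X Y)
    (h2 : ∀ e ∈ G, ¬ sepE e X Z) (h3 : ∀ e ∈ G, ¬ sepE e Y Z) :
    inn G X + dG G X + (inn G Y + dG G Y) + (inn G Z + dG G Z) ≤ Multiset.card G := by
  induction G using Multiset.induction_on with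
  | empty => simp [inn]
  | cons e G ih =>
    have i1 := ih (fun x hx => h1 x (Multiset.mem_cons_of_mem hx))
      (fun x hx => h2 x (Multiset.mem_cons_of_mem hx))
      (fun x hx => h3 x (Multiset.mem_cons_of_mem hx))
    have a1 := h1 e (Multiset.mem_cons_self _ _)
    have a2 := h2 e (Multiset.mem_cons_self _ _)
    have a3 := h3 e (Multiset.mem_cons_self _ _)
    have key : ind e.1 X * ind e.2 X + cut e X + (ind e.1 Y * ind e.2 Y + cut e Y) +
        (ind e.1 Z * ind e.2 Z + cut e Z) ≤ 1 := by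
      have c1 := @disjoint_left.1 d1 e.1
      have c2 := @disjoint_left.1 d1 e.2
      have c3 := @disjoint_left.1 d2 e.1
      have c4 := @disjoint_left.1 d2 e.2
      have c5 := @disjoint_left.1 d3 e.1
      have c6 := @disjoint_left.1 d3 e.2
      unfold sepE at a1 a2 a3
      unfold ind cut
      by_cases b1 : e.1 ∈ X <;> by_cases b2 : e.2 ∈ X <;> by_cases b3 : e.1 ∈ Y <;>
        by_cases b4 : e.2 ∈ Y <;> by_cases b5 : e.1 ∈ Z <;> by_cases b6 : e.2 ∈ Z <;> simp_all
    simp only [inn_cons, dG_cons, Multiset.card_cons]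
    push_cast
    omega

/-- counting with a set of uncut edges -/
theorem EX.cnt (h : EX R z H S) {T : Finset (Finset V)} (hT : SubP R T) (P : V × V → Prop)
    [DecidablePred P] (hP : ∀ e ∈ H, ¬ P e → ∀ X ∈ T, cut e X = 0) :
    val z T ≤ Multiset.card (H.filter P) := by
  have e1 : zt (fun X => z X - dG H X) (H.filter P + H.filter (fun e => ¬ P e)) = z := by
    funext X
    rw [Multiset.filter_add_not]
    simp [zt]
  have := CSG.cnt (W := R) (φ := fun X => z X - dG H X) (by simp [h.z0, dG_empty])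
    (fun X hX hne => by have := h.bd X hX hne; omega) (H.filter P) (H.filter (fun e => ¬ P e))
    (e1.symm ▸ h.sup) hT (fun e he => hP e (Multiset.mem_filter.1 he).1 (Multiset.mem_filter.1 he).2)
  rwa [e1] at this

theorem EX.val_le (h : EX R z H S) {T : Finset (Finset V)} (hT : SubP R T) :
    val z T ≤ Multiset.card H := by
  have := h.cnt hT (fun _ => True) (by simp)
  simpa using this

theorem EX.val_eq (h : EX R z H S) : val z S = Multiset.card H := le_antisymm (h.val_le h.sp) h.ex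

theorem EX.cut (h : EX R z H S) {e : V × V} (he : e ∈ H) : ∃ X ∈ S, cut e X = 1 := by
  by_contra hc
  push Not at hc
  have h1 := h.cnt h.sp (fun x => x ≠ e) (fun x _ hx X hX => by
    rw [not_not.1 hx]; exact (cut_zero_or_one e X).resolve_right (hc X hX))
  have h2 : Multiset.card (H.filter (fun x => x ≠ e)) < Multiset.card H :=
    Multiset.card_lt_card (lt_of_le_of_ne (Multiset.filter_le _ _) (fun hh => by
      have : e ∈ H.filter (fun x => x ≠ e) := hh.symm ▸ he
      simp at this))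
  have := h.ex
  omega

/-- no edge lies inside a part -/
theorem EX.not_inside (h : EX R z H S) {x y : V} (he : Adj H x y) {X : Finset V} (hX : X ∈ S)
    (hx : x ∈ X) : y ∉ X := by
  intro hy
  rcases he with he | he
  · obtain ⟨Y, hY, hc⟩ := h.cut he
    have := uncut_of_part h.sp hX (e := (x, y)) hx hy Y hY
    omega
  · obtain ⟨Y, hY, hc⟩ := h.cut he
    have := uncut_of_part h.sp hX (e := (y, x)) hy hx Y hY
    omega

theorem EX.inn_part (h : EX R z H S) {X : Finset V} (hX : X ∈ S) : inn H X = 0 := by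
  unfold inn
  refine Multiset.sum_eq_zero fun t ht => ?_
  obtain ⟨e, he, rfl⟩ := Multiset.mem_map.1 ht
  by_cases b : e.1 ∈ X
  · rw [ind_of_notMem (h.not_inside (Or.inl he) hX b)]; simp
  · rw [ind_of_notMem b]; simp

theorem EX.wt_le (h : EX R z H S) {J : Finset (Finset V)} (hJ : J ⊆ S) :
    wt z J ≤ z (J.sup id) := sum_le_sup h.sup h.z0 (h.sp.subset hJ)

theorem EX.one_le (h : EX R z H S) {J : Finset (Finset V)} (hJ : J ⊆ S) (hne : J.Nonempty) :
    wt z J + 1 ≤ dG H (J.sup id) := by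
  have := h.wt_le hJ
  have := h.bd _ (h.sp.subset hJ).sup_subset (h.sp.sup_ne hJ hne)
  omega

theorem val_sdiff {J : Finset (Finset V)} (hJ : J ⊆ S) : val z (S \ J) + val z J = val z S :=
  sum_sdiff hJ

/-- merging a subfamily: the parts span a forest -/
theorem EX.inn_le (h : EX R z H S) {J : Finset (Finset V)} (hJ : J ⊆ S) (hne : J.Nonempty) :
    inn H (J.sup id) + z (J.sup id) + 1 ≤ J.card + wt z J := by
  obtain ⟨h1, h2⟩ := (h.sp.subset (sdiff_subset (t := J))).union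
    (SubP.single (h.sp.subset hJ).sup_subset (h.sp.sup_ne hJ hne)) (fun X hX Y hY => by
      rw [mem_singleton.1 hY, disjoint_left]
      intro v hv hv'
      exact (mem_sdiff.1 hX).2 ((h.sp.mem_sup_iff hJ (mem_sdiff.1 hX).1 hv).1 hv')) z
  have h3 := h.cnt h1 (fun e => ¬ (e.1 ∈ J.sup id ∧ e.2 ∈ J.sup id)) (fun e _ he =>
    uncut_of_part h1 (mem_union_right _ (mem_singleton_self _)) (not_not.1 he).1 (not_not.1 he).2)
  have h4 := card_filter_inside H (J.sup id)
  have h5 := val_sdiff (z := z) hJ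
  have h6 := h.val_eq
  rw [val_single] at h2
  rw [val_eq_wt z J] at h5
  omega

theorem EX.le_meet (h : EX R z H S) {J : Finset (Finset V)} (hJ : J ⊆ S) :
    J.card + wt z J ≤ inn H (J.sup id) + dG H (J.sup id) := by
  have h3 := h.cnt (h.sp.subset hJ) (fun e => e.1 ∈ J.sup id ∨ e.2 ∈ J.sup id) (fun e _ he =>
    uncut_of_root (fun hc => he (Or.inl (mem_sup_id.2 hc))) (fun hc => he (Or.inr (mem_sup_id.2 hc))))
  rw [card_filter_meet, val_eq_wt] at h3
  exact h3

/-- a connected closed subfamily -/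
theorem comp_exists (hS : SubP R S) (K : Multiset (V × V)) {X : Finset V} (hX : X ∈ S) :
    ∃ J ⊆ S, X ∈ J ∧ (J.card : ℤ) - 1 ≤ inn K (J.sup id) ∧
      ∀ e ∈ K, ¬ sepE e (J.sup id) ((S \ J).sup id) := by
  classical
  obtain ⟨J, hJ, hmax⟩ := exists_max_image
    (S.powerset.filter (fun J => X ∈ J ∧ (J.card : ℤ) - 1 ≤ inn K (J.sup id))) card
    ⟨{X}, by simpa [hX] using inn_nonneg K X⟩
  simp only [mem_filter, mem_powerset] at hJ hmax
  refine ⟨J, hJ.1, hJ.2.1, hJ.2.2, fun e he hs => ?_⟩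
  have key : ∀ Q ∈ S, Q ∉ J → ∀ Q' ∈ J, ¬ ((e.1 ∈ Q ∧ e.2 ∈ Q') ∨ (e.1 ∈ Q' ∧ e.2 ∈ Q)) := by
    intro Q hQ hQJ Q' hQ' hg
    have h1 := grow_step hS hJ.1 he hQ hQJ hQ' hg hJ.2.2
    have h2 := hmax (insert Q J) ⟨insert_subset hQ hJ.1, mem_insert_of_mem hJ.2.1, h1⟩
    rw [card_insert_of_notMem hQJ] at h2
    omega
  rcases hs with ⟨a1, _, a3, _⟩ | ⟨a1, _, a3, _⟩
  · obtain ⟨Q', hQ', b1⟩ := mem_sup_id.1 a1
    obtain ⟨Q, hQ, b2⟩ := mem_sup_id.1 a3
    exact key Q (mem_sdiff.1 hQ).1 (mem_sdiff.1 hQ).2 Q' hQ' (Or.inr ⟨b1, b2⟩)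
  · obtain ⟨Q, hQ, b1⟩ := mem_sup_id.1 a1
    obtain ⟨Q', hQ', b2⟩ := mem_sup_id.1 a3
    exact key Q (mem_sdiff.1 hQ).1 (mem_sdiff.1 hQ).2 Q' hQ' (Or.inl ⟨b1, b2⟩)

/-- a tight union of parts -/
def TU (z : Finset V → ℤ) (H : Multiset (V × V)) (J : Finset (Finset V)) : Prop :=
  J.Nonempty ∧ dG H (J.sup id) ≤ wt z J + 1

theorem SubP.disj_sup (h : SubP R S) {I J : Finset (Finset V)} (hI : I ⊆ S) (hJ : J ⊆ S)
    (hd : Disjoint I J) : Disjoint (I.sup id) (J.sup id) := by
  rw [disjoint_left]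
  intro v h1 h2
  obtain ⟨X, hX, _⟩ := mem_sup_id.1 ((h.sup_inter hI hJ v).2 ⟨h1, h2⟩)
  rw [disjoint_iff_inter_eq_empty.1 hd] at hX
  simp at hX

theorem sepE_empty (e : V × V) (X : Finset V) : ¬ sepE e X ∅ := by simp [sepE]

theorem sepE_symm {e : V × V} {X Y : Finset V} (h : sepE e X Y) : sepE e Y X := Or.symm h

/-- every part lies in a tight union -/
theorem EX.tu_part (h : EX R z H S) {X : Finset V} (hX : X ∈ S) :
    ∃ J ⊆ S, X ∈ J ∧ TU z H J := by
  obtain ⟨J, hJ, hXJ, h1, h2⟩ := comp_exists h.sp H hX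
  refine ⟨J, hJ, hXJ, ⟨X, hXJ⟩, ?_⟩
  have h3 := meet_three (G := H) (h.sp.disj_sup hJ sdiff_subset disjoint_sdiff)
    (disjoint_empty_right _) (disjoint_empty_right _) h2 (fun e _ => sepE_empty _ _)
    (fun e _ => sepE_empty _ _)
  have h4 := h.le_meet (sdiff_subset (t := J))
  have h5 := val_sdiff (z := z) hJ
  have h6 := h.val_eq
  have h7 := inn_nonneg H ∅
  rw [val_eq_wt, val_eq_wt z J] at h5
  rw [dG_empty] at h3
  omega

theorem sepE_mono {e : V × V} {X Y X' Y' : Finset V} (hd : Disjoint X Y) (h1 : X' ⊆ X)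
    (h2 : Y' ⊆ Y) (h : sepE e X' Y') : sepE e X Y := by
  have c1 := @disjoint_left.1 hd e.1
  have c2 := @disjoint_left.1 hd e.2
  have := @h1 e.1
  have := @h1 e.2
  have := @h2 e.1
  have := @h2 e.2
  unfold sepE at h ⊢
  tauto

/-- every edge is cut by a tight union -/
theorem EX.tu_edge (h : EX R z H S) {e : V × V} (he : e ∈ H) :
    ∃ J ⊆ S, TU z H J ∧ CSG.cut e (J.sup id) = 1 := by
  obtain ⟨X, hX, hc⟩ := h.cut he
  obtain ⟨x, y, hx, hy, _, hxy⟩ := adj_of_cut he hc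
  obtain ⟨K, rfl⟩ := Multiset.exists_cons_of_mem he
  have hcut : ∀ Y : Finset V, (x ∈ Y ∧ y ∉ Y) ∨ (x ∉ Y ∧ y ∈ Y) → CSG.cut e Y = 1 := fun Y hY => by
    rw [cut_eq_one]; rcases hxy with rfl | rfl <;> tauto
  have hin : ∀ Y : Finset V, ind e.1 Y * ind e.2 Y = ind x Y * ind y Y := fun Y => by
    rcases hxy with rfl | rfl
    · rfl
    · exact mul_comm _ _
  have hout : ∀ Y : Finset V, x ∉ Y → y ∉ Y → CSG.cut e Y = 0 := fun Y h1 h2 => by
    rw [cut_eq_zero]; rcases hxy with rfl | rfl <;> tauto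
  obtain ⟨J, hJ, hXJ, h1, h2⟩ := comp_exists h.sp K hX
  have hxJ : x ∈ J.sup id := mem_sup_id.2 ⟨X, hXJ, hx⟩
  have hyJ : y ∉ J.sup id := fun hyJ => by
    have a1 := h.inn_le hJ ⟨X, hXJ⟩
    have a2 := h.wt_le hJ
    rw [inn_cons, hin, ind_of_mem hxJ, ind_of_mem hyJ] at a1
    omega
  have h5 := val_sdiff (z := z) hJ
  have h6 := h.val_eq
  have h7 := inn_nonneg K ∅
  have hd := h.sp.disj_sup hJ (sdiff_subset (t := J)) disjoint_sdiff
  have hxR : x ∉ (S \ J).sup id := disjoint_left.1 hd hxJ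
  rw [Multiset.card_cons] at h6
  push_cast at h6
  rw [val_eq_wt, val_eq_wt z J] at h5
  by_cases hyS : y ∈ (S \ J).sup id
  swap
  · refine ⟨J, hJ, ⟨⟨X, hXJ⟩, ?_⟩, hcut _ (Or.inl ⟨hxJ, hyJ⟩)⟩
    have h3 := meet_three (G := K) hd (disjoint_empty_right _) (disjoint_empty_right _) h2
      (fun e _ => sepE_empty _ _) (fun e _ => sepE_empty _ _)
    have h4 := h.le_meet (sdiff_subset (t := J))
    rw [inn_cons, dG_cons, hin, ind_of_notMem hxR, hout _ hxR hyS] at h4
    rw [dG_empty] at h3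
    rw [dG_cons, hcut _ (Or.inl ⟨hxJ, hyJ⟩)]
    omega
  obtain ⟨Y, hY, hyY⟩ := mem_sup_id.1 hyS
  obtain ⟨I, hI, hYI, g1, g2⟩ := comp_exists (h.sp.subset (sdiff_subset (t := J))) K hY
  have hIS : I ⊆ S := hI.trans sdiff_subset
  have hyI : y ∈ I.sup id := mem_sup_id.2 ⟨Y, hYI, hyY⟩
  have s1 : I.sup id ⊆ (S \ J).sup id := sup_mono hI
  have s2 : ((S \ J) \ I).sup id ⊆ (S \ J).sup id := sup_mono sdiff_subset
  have hd2 := (h.sp.subset (sdiff_subset (t := J))).disj_sup hI (sdiff_subset (t := I))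
    disjoint_sdiff
  have h3 := meet_three (G := K) (hd.mono_right s1) (hd.mono_right s2) hd2
    (fun e he hs => h2 e he (sepE_mono hd subset_rfl s1 hs))
    (fun e he hs => h2 e he (sepE_mono hd subset_rfl s2 hs)) g2
  have h4 := h.le_meet ((sdiff_subset (s := S \ J) (t := I)).trans sdiff_subset)
  have hx3 : x ∉ ((S \ J) \ I).sup id := fun hh => hxR (s2 hh)
  rw [inn_cons, dG_cons, hin, ind_of_notMem hx3, hout _ hx3 (disjoint_left.1 hd2 hyI)] at h4
  have h8 := val_sdiff (z := z) hI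
  rw [val_eq_wt, val_eq_wt z I, val_eq_wt] at h8
  have c1 := hcut _ (Or.inl ⟨hxJ, hyJ⟩)
  have c2 := hcut (I.sup id) (Or.inr ⟨fun hh => hxR (s1 hh), hyI⟩)
  by_cases hT : dG (e ::ₘ K) (J.sup id) ≤ wt z J + 1
  · exact ⟨J, hJ, ⟨⟨X, hXJ⟩, hT⟩, c1⟩
  · refine ⟨I, hIS, ⟨⟨Y, hYI⟩, ?_⟩, c2⟩
    rw [dG_cons] at hT ⊢
    omega

theorem EX.tu_cross (h : EX R z H S) {I J : Finset (Finset V)} (hI : I ⊆ S) (hJ : J ⊆ S)
    (tI : TU z H I) (tJ : TU z H J) (hne : (I ∩ J).Nonempty) :
    TU z H (I ∩ J) ∧ TU z H (I ∪ J) := by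
  have h1 := dG_submod H (I.sup id) (J.sup id)
  have e1 : (I ∩ J).sup id = I.sup id ∩ J.sup id := by
    ext v; rw [h.sp.sup_inter hI hJ, mem_inter]
  have e2 : (I ∪ J).sup id = I.sup id ∪ J.sup id := sup_union
  have h2 := h.one_le (inter_subset_left.trans hI) hne
  have h3 := h.one_le (union_subset hI hJ) (tI.1.mono subset_union_left)
  have h4 := wt_modular z I J
  have h5 := tI.2
  have h6 := tJ.2
  rw [← e1, ← e2] at h1
  exact ⟨⟨hne, by omega⟩, ⟨tI.1.mono subset_union_left, by omega⟩⟩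

/-- a non-tight part that never joins two disjoint tight unions hangs on one tight union -/
theorem EX.leaf (h : EX R z H S) {X : Finset V} (hX : X ∈ S) (hn : z X + 2 ≤ dG H X)
    (hP : ∀ D ⊆ S, ∀ Q ⊆ D, ∀ Q' ⊆ D, X ∈ D → X ∉ Q → X ∉ Q' → Disjoint Q Q' → TU z H D →
      TU z H Q → TU z H Q' → False) :
    ∃ Q ⊆ S, X ∉ Q ∧ TU z H Q ∧ TU z H (insert X Q) ∧ dG H X = z X + 2 := by
  classical
  obtain ⟨D0, hD0, hXD0, tD0⟩ := h.tu_part hX
  obtain ⟨D, hD, hmin⟩ := exists_min_image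
    (S.powerset.filter (fun J => X ∈ J ∧ TU z H J)) card ⟨D0, by simp [hD0, hXD0, tD0]⟩
  simp only [mem_filter, mem_powerset] at hD hmin
  obtain ⟨hDS, hXD, tD⟩ := hD
  have hmin' : ∀ J ⊆ D, X ∈ J → TU z H J → J = D := fun J hJ h1 h2 =>
    eq_of_subset_of_card_le hJ (hmin J ⟨hJ.trans hDS, h1, h2⟩)
  have hES : D.erase X ⊆ S := (erase_subset _ _).trans hDS
  have hXS : ({X} : Finset (Finset V)) ⊆ S := singleton_subset_iff.2 hX
  have edge : ∀ e ∈ H, sepE e X ((D.erase X).sup id) → ∃ Q ⊆ D.erase X, TU z H Q ∧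
      (e.1 ∈ Q.sup id ∨ e.2 ∈ Q.sup id) := by
    intro e he hs
    obtain ⟨T, hT, tT, cT⟩ := h.tu_edge he
    obtain ⟨x, y, hx, hy, hxy⟩ : ∃ x y, x ∈ X ∧ y ∈ (D.erase X).sup id ∧
        (e = (x, y) ∨ e = (y, x)) := by
      rcases hs with ⟨a1, _, a3, _⟩ | ⟨a1, _, a3, _⟩
      exacts [⟨_, _, a1, a3, Or.inl rfl⟩, ⟨_, _, a3, a1, Or.inr rfl⟩]
    obtain ⟨Y, hY, hyY⟩ := mem_sup_id.1 hy
    have i1 := h.sp.mem_sup_iff hT hX hx
    have i2 := h.sp.mem_sup_iff hT (hES hY) hyY
    have cT' : (X ∈ T ∧ Y ∉ T) ∨ (X ∉ T ∧ Y ∈ T) := by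
      rw [cut_eq_one] at cT
      rcases hxy with rfl | rfl <;> simp only at cT <;> tauto
    rcases cT' with ⟨b1, b2⟩ | ⟨b1, b2⟩
    · have := hmin' (T ∩ D) inter_subset_right (mem_inter.2 ⟨b1, hXD⟩)
        (h.tu_cross hT hDS tT tD ⟨X, mem_inter.2 ⟨b1, hXD⟩⟩).1
      have hY' : Y ∈ T ∩ D := by rw [this]; exact mem_of_mem_erase hY
      exact absurd (mem_inter.1 hY').1 b2
    · have hYTD : Y ∈ T ∩ D := mem_inter.2 ⟨b2, mem_of_mem_erase hY⟩
      refine ⟨T ∩ D, fun Z hZ => mem_erase.2 ⟨fun hh => b1 (hh ▸ (mem_inter.1 hZ).1),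
        (mem_inter.1 hZ).2⟩, (h.tu_cross hT hDS tT tD ⟨Y, hYTD⟩).1, ?_⟩
      have : y ∈ (T ∩ D).sup id := mem_sup_id.2 ⟨Y, hYTD, hyY⟩
      rcases hxy with rfl | rfl
      exacts [Or.inr this, Or.inl this]
  have hDi : insert X (D.erase X) = D := insert_erase hXD
  have hwD : wt z D = z X + wt z (D.erase X) := by
    conv_lhs => rw [← hDi]
    exact wt_insert (notMem_erase _ _)
  have hUD : D.sup id = X ∪ (D.erase X).sup id := by
    conv_lhs => rw [← hDi]
    rw [sup_insert]; rfl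
  have hdX : Disjoint X ((D.erase X).sup id) := by
    have := h.sp.disj_sup hXS hES (disjoint_singleton_left.2 (notMem_erase _ _))
    simpa using this
  have hEne : (D.erase X).Nonempty := by
    rw [nonempty_iff_ne_empty]
    intro he
    have := tD.2
    rw [hwD, hUD, he] at this
    simp [wt] at this
    omega
  have o1 := h.one_le hES hEne
  have ex1 : ∃ e ∈ H, sepE e X ((D.erase X).sup id) := by
    by_contra hc
    push Not at hc
    have a1 := dG_modular hc
    have a2 := tD.2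
    rw [disjoint_iff_inter_eq_empty.1 hdX, dG_empty, ← hUD] at a1
    omega
  obtain ⟨e0, he0, hs0⟩ := ex1
  obtain ⟨Q0, hQ0, tQ0, _⟩ := edge e0 he0 hs0
  obtain ⟨Q, hQ, hmax⟩ := exists_max_image
    ((D.erase X).powerset.filter (fun J => TU z H J)) card ⟨Q0, by simp [hQ0, tQ0]⟩
  simp only [mem_filter, mem_powerset] at hQ hmax
  obtain ⟨hQ, tQ⟩ := hQ
  have hQS : Q ⊆ S := hQ.trans hES
  have hXQ : X ∉ Q := fun hh => notMem_erase _ _ (hQ hh)
  have hUQ : (insert X Q).sup id = X ∪ Q.sup id := by rw [sup_insert]; rfl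
  have sQ : Q.sup id ⊆ (D.erase X).sup id := sup_mono hQ
  have nosep : ∀ e ∈ H, ¬ sepE e (X ∪ Q.sup id) ((D.erase X).sup id) := by
    intro e he hs
    have c1 := @sQ e.1
    have c2 := @sQ e.2
    have hs' : sepE e X ((D.erase X).sup id) ∧ e.1 ∉ Q.sup id ∧ e.2 ∉ Q.sup id := by
      unfold sepE at hs ⊢
      simp only [mem_union] at hs
      tauto
    obtain ⟨Q', hQ', tQ', hm⟩ := edge e he hs'.1
    by_cases hi : (Q ∩ Q').Nonempty
    · have a1 := (h.tu_cross hQS (hQ'.trans hES) tQ tQ' hi).2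
      have a2 := eq_of_subset_of_card_le subset_union_left (hmax _ ⟨union_subset hQ hQ', a1⟩)
      have a3 : Q'.sup id ⊆ Q.sup id := sup_mono (a2 ▸ subset_union_right)
      rcases hm with hm | hm
      exacts [hs'.2.1 (a3 hm), hs'.2.2 (a3 hm)]
    · exact hP D hDS Q (hQ.trans (erase_subset _ _)) Q' (hQ'.trans (erase_subset _ _)) hXD hXQ
        (fun hh => notMem_erase _ _ (hQ' hh))
        (disjoint_iff_inter_eq_empty.2 (not_nonempty_iff_eq_empty.1 hi)) tD tQ tQ'
  have a1 := dG_modular nosep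
  have e1 : (X ∪ Q.sup id) ∩ (D.erase X).sup id = Q.sup id := by
    ext v
    have := @sQ v
    have := @disjoint_left.1 hdX v
    simp only [mem_inter, mem_union]; tauto
  have e2 : (X ∪ Q.sup id) ∪ (D.erase X).sup id = D.sup id := by
    rw [hUD]
    ext v
    have := @sQ v
    simp only [mem_union]; tauto
  rw [e1, e2] at a1
  have hwQ : wt z (insert X Q) = z X + wt z Q := wt_insert hXQ
  have t1 : TU z H (insert X Q) := by
    refine ⟨insert_nonempty _ _, ?_⟩
    have := tQ.2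
    have := tD.2
    rw [hUQ]; omega
  refine ⟨Q, hQS, hXQ, tQ, t1, ?_⟩
  have b1 := h.inn_le (insert_subset hX hQS) (insert_nonempty _ _)
  have b2 := h.wt_le (insert_subset hX hQS)
  have b3 := h.le_meet hQS
  have b4 := ms_inter_union (ends H) X (Q.sup id)
  have b5 := h.inn_part hX
  have b6 := h.one_le hQS tQ.1
  have b7 := t1.2
  have b8 := tQ.2
  rw [disjoint_iff_inter_eq_empty.1 (hdX.mono_right sQ), ms_empty] at b4
  simp only [ms_eq_inn] at b4
  rw [card_insert_of_notMem hXQ] at b1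
  rw [hUQ] at b1 b2 b7
  push_cast at b1
  omega

end Pool.Agent.CSG

end

-- part MP_305420_co.LGDel
section

/-! Deleting an edge from an exact finest structure. -/

set_option linter.unusedSectionVars false
set_option linter.unusedVariables false

namespace Pool.Agent.CSG

open Finset

variable {V : Type*} [Fintype V] [DecidableEq V]

/-- refinement that keeps given unrefinable parts -/
theorem exists_finest_keep {W : Finset V} (z : Finset V → ℤ) {S0 I : Finset (Finset V)}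
    (h0 : SubP W S0) (hI : I ⊆ S0) (hf : Finest z I) :
    ∃ S, SubP W S ∧ I ⊆ S ∧ val z S0 ≤ val z S ∧ Finest z S := by
  have h1 : SubP (W \ I.sup id) (S0 \ I) := by
    refine ⟨fun X hX v hv => mem_sdiff.2 ⟨h0.sub X (mem_sdiff.1 hX).1 hv, fun hh => ?_⟩,
      fun X hX => h0.ne X (mem_sdiff.1 hX).1,
      fun X hX Y hY => h0.disj X (mem_sdiff.1 hX).1 Y (mem_sdiff.1 hY).1⟩
    exact (mem_sdiff.1 hX).2 ((h0.mem_sup_iff hI (mem_sdiff.1 hX).1 hv).1 hh)
  obtain ⟨S, h2, h3, h4⟩ := exists_finest z h1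
  obtain ⟨h5, h6⟩ := (h2.mono sdiff_subset).union (h0.subset hI) (fun X hX Y hY =>
    disjoint_left.2 fun v hv hv' =>
      (mem_sdiff.1 (h2.sub X hX hv)).2 (mem_sup_id.2 ⟨Y, hY, hv'⟩)) z
  refine ⟨S ∪ I, h5, subset_union_right, ?_, fun X hX => ?_⟩
  · have := val_sdiff (z := z) hI
    omega
  · rcases mem_union.1 hX with hX | hX
    exacts [h4 X hX, hf X hX]

theorem val_congr {z z' : Finset V → ℤ} {L : Finset (Finset V)} (h : ∀ X ∈ L, z X = z' X) :
    val z L = val z' L := sum_congr rfl fun X hX => by rw [h X hX]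

/-- the trace of a subpartition on a set -/
theorem finest_trace {W A : Finset V} {z : Finset V → ℤ} {L : Finset (Finset V)} (hL : SubP W L)
    (hA : Finest z {A}) :
    ∑ Y ∈ L, (if (Y ∩ A).Nonempty then 1 + z (Y ∩ A) - (if A ⊆ Y then 1 else 0) else 0) ≤ z A := by
  classical
  rw [← sum_filter]
  set F := L.filter (fun Y => (Y ∩ A).Nonempty) with hF
  have inj : ∀ Y ∈ F, ∀ Y' ∈ F, Y ∩ A = Y' ∩ A → Y = Y' := by
    intro Y hY Y' hY' e
    obtain ⟨v, hv⟩ := (mem_filter.1 hY).2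
    exact hL.eq_of_mem (mem_filter.1 hY).1 (mem_filter.1 hY').1 (mem_inter.1 hv).1
      (mem_inter.1 (e ▸ hv)).1
  by_cases hc : ∃ Y ∈ F, A ⊆ Y
  · obtain ⟨Y, hY, hAY⟩ := hc
    have : F = {Y} := by
      refine eq_singleton_iff_unique_mem.2 ⟨hY, fun Y' hY' => ?_⟩
      obtain ⟨v, hv⟩ := (mem_filter.1 hY').2
      exact hL.eq_of_mem (mem_filter.1 hY').1 (mem_filter.1 hY).1 (mem_inter.1 hv).1
        (hAY (mem_inter.1 hv).2)
    rw [this, sum_singleton, if_pos hAY, inter_eq_right.2 hAY]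
    omega
  · push Not at hc
    have h1 : SubP A (F.image (· ∩ A)) := by
      refine ⟨fun X hX => ?_, fun X hX => ?_, fun X hX X' hX' hne => ?_⟩
      · obtain ⟨Y, _, rfl⟩ := mem_image.1 hX; exact inter_subset_right
      · obtain ⟨Y, hY, rfl⟩ := mem_image.1 hX; exact (mem_filter.1 hY).2
      · obtain ⟨Y, hY, rfl⟩ := mem_image.1 hX
        obtain ⟨Y', hY', rfl⟩ := mem_image.1 hX'
        exact (hL.disj Y (mem_filter.1 hY).1 Y' (mem_filter.1 hY').1
          (fun e => hne (by rw [e]))).mono inter_subset_left inter_subset_left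
    have h2 := hA A (mem_singleton_self _) _ h1 (fun hh => by
      obtain ⟨Y, hY, e⟩ := mem_image.1 hh
      exact hc Y hY (inter_eq_right.1 e))
    unfold val at h2
    rw [sum_image inj] at h2
    refine le_trans (le_of_eq (sum_congr rfl fun Y hY => ?_)) h2
    rw [if_neg (hc Y hY)]; simp

/-- merging two unrefinable parts along a deleted edge -/
theorem finest_merge {W A B : Finset V} {z : Finset V → ℤ} (hz : SupOn W z) (hA : A ⊆ W)
    (hB : B ⊆ W) (hd : Disjoint A B) (fA : Finest z {A}) (fB : Finest z {B})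
    (hw : z (A ∪ B) ≤ z A + z B) {e : V × V} {x y : V} (he : IsE e x y) (hx : x ∈ A) (hy : y ∈ B)
    {L : Finset (Finset V)} (hL : SubP (A ∪ B) L) (hn : A ∪ B ∉ L) :
    val (fun X => z X - cut e X) L ≤ z A + z B := by
  have h1 := finest_trace hL fA
  have h2 := finest_trace hL fB
  refine le_trans ?_ (add_le_add h1 h2)
  rw [← sum_add_distrib]
  refine sum_le_sum fun Y hY => ?_
  beta_reduce
  have hY1 := hL.sub Y hY
  have hdl := disjoint_left.1 hd
  have c0 := cut_nonneg e Y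
  by_cases a1 : (Y ∩ A).Nonempty <;> by_cases a2 : (Y ∩ B).Nonempty
  · have s1 := hz Y (hY1.trans (union_subset hA hB)) A hA
    have s2 := hz (Y ∪ A) (union_subset (hY1.trans (union_subset hA hB)) hA) B hB
    have e1 : (Y ∪ A) ∩ B = Y ∩ B := by ext v; grind
    have e2 : (Y ∪ A) ∪ B = A ∪ B := by ext v; grind
    rw [e1, e2] at s2
    have : ¬ (A ⊆ Y ∧ B ⊆ Y) := fun hh =>
      hn (Subset.antisymm hY1 (union_subset hh.1 hh.2) ▸ hY)
    simp only [if_pos a1, if_pos a2]
    split_ifs <;> first | omega | tauto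
  · have e1 : Y ∩ A = Y := by
      rw [not_nonempty_iff_eq_empty] at a2
      ext v
      have : v ∉ Y ∩ B := by rw [a2]; simp
      grind
    rw [if_pos a1, if_neg a2, e1]
    split_ifs with a3
    · have : cut e Y = 1 := by
        rw [he.cut, cut_eq_one]
        exact Or.inl ⟨a3 hx, fun hh => a2 ⟨y, mem_inter.2 ⟨hh, hy⟩⟩⟩
      omega
    · omega
  · have e1 : Y ∩ B = Y := by
      rw [not_nonempty_iff_eq_empty] at a1
      ext v
      have : v ∉ Y ∩ A := by rw [a1]; simp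
      grind
    rw [if_neg a1, if_pos a2, e1]
    split_ifs with a3
    · have : cut e Y = 1 := by
        rw [he.cut, cut_eq_one]
        exact Or.inr ⟨fun hh => a1 ⟨x, mem_inter.2 ⟨hh, hx⟩⟩, a3 hy⟩
      omega
    · omega
  · obtain ⟨v, hv⟩ := hL.ne Y hY
    rcases mem_union.1 (hY1 hv) with hh | hh
    exacts [absurd ⟨v, mem_inter.2 ⟨hv, hh⟩⟩ a1, absurd ⟨v, mem_inter.2 ⟨hv, hh⟩⟩ a2]

theorem Finest.single {z : Finset V → ℤ} {S : Finset (Finset V)} (h : Finest z S) {X : Finset V}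
    (hX : X ∈ S) : Finest z {X} := fun Y hY => by rw [mem_singleton.1 hY]; exact h X hX

theorem val_sub_cut (z : Finset V → ℤ) (e : V × V) (S : Finset (Finset V)) :
    val (fun X => z X - cut e X) S = val z S - ∑ X ∈ S, cut e X := by
  unfold val
  rw [← sum_sub_distrib]
  exact sum_congr rfl fun X _ => by ring

theorem sum_cut_le {W : Finset V} {S : Finset (Finset V)} (hS : SubP W S) {e : V × V} {x y : V}
    (he : IsE e x y) (h : ∀ X ∈ S, y ∈ X → x ∈ X) : ∑ X ∈ S, cut e X ≤ 1 := by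
  have h1 : ∑ X ∈ S, cut e X ≤ ∑ X ∈ S, ind x X := sum_le_sum fun X hX => by
    rw [he.cut]
    have := h X hX
    unfold cut ind
    by_cases b1 : x ∈ X <;> by_cases b2 : y ∈ X <;> simp_all
  have h2 := ms_sup (W := W) {x} hS
  simp only [ms_singleton] at h2
  have := ind_le_one x (S.sup id)
  omega

variable {R : Finset V} {z : Finset V → ℤ} {H : Multiset (V × V)} {S : Finset (Finset V)}

/-- **Deletion.** The structure after deleting an edge that does not cross the union of `J`. -/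
theorem EX.delete {e : V × V} {K : Multiset (V × V)} (h : EX R z (e ::ₘ K) S) (hf : Finest z S)
    {J : Finset (Finset V)} (hJ : J ⊆ S) (hc : CSG.cut e (J.sup id) = 0) :
    ∃ S' J', SubP R S' ∧ (Multiset.card K : ℤ) ≤ val (fun X => z X - CSG.cut e X) S' ∧
      Finest (fun X => z X - CSG.cut e X) S' ∧ J' ⊆ S' ∧ J'.sup id = J.sup id ∧
      wt z J ≤ wt (fun X => z X - CSG.cut e X) J' := by
  obtain ⟨X, hX, hcX⟩ := h.cut (Multiset.mem_cons_self e K)
  obtain ⟨x, y, hx, hy, hA, hE⟩ := adj_of_cut (Multiset.mem_cons_self e K) hcX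
  have hE' : IsE e x y := hE
  have hv := h.val_eq
  rw [Multiset.card_cons] at hv
  push_cast at hv
  have hxy : x ∈ J.sup id ↔ y ∈ J.sup id := by
    rw [hE'.cut, cut_eq_zero] at hc; exact hc
  have keep : ∀ Y ∈ S, x ∉ Y → y ∉ Y → Finest (fun X => z X - CSG.cut e X) {Y} ∧
      z Y - CSG.cut e Y = z Y := by
    intro Y hY h1 h2
    have c : ∀ Z ⊆ Y, CSG.cut e Z = 0 := fun Z hZ => by
      rw [hE'.cut, cut_eq_zero]
      exact ⟨fun hh => absurd (hZ hh) h1, fun hh => absurd (hZ hh) h2⟩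
    refine ⟨fun Z hZ L hL hn => ?_, by rw [c Y subset_rfl]; simp⟩
    rw [mem_singleton.1 hZ] at hL hn ⊢
    have := hf Y hY L hL hn
    rw [val_congr (z' := z) (fun Z hZ => by simp only [c Z (hL.sub Z hZ)]; simp)]
    simp only [c Y subset_rfl]
    omega
  have fin : ∀ S1 J1, SubP R S1 → (∀ Y ∈ S1, y ∈ Y → x ∈ Y) →
      (Multiset.card K : ℤ) ≤ val (fun X => z X - CSG.cut e X) S1 → J1 ⊆ S1 →
      (∀ Y ∈ J1, Finest (fun X => z X - CSG.cut e X) {Y}) → J1.sup id = J.sup id →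
      wt z J ≤ wt (fun X => z X - CSG.cut e X) J1 →
      ∃ S' J', SubP R S' ∧ (Multiset.card K : ℤ) ≤ val (fun X => z X - CSG.cut e X) S' ∧
      Finest (fun X => z X - CSG.cut e X) S' ∧ J' ⊆ S' ∧ J'.sup id = J.sup id ∧
      wt z J ≤ wt (fun X => z X - CSG.cut e X) J' := by
    intro S1 J1 a1 _ a3 a4 a5 a6 a7
    obtain ⟨S', b1, b2, b3, b4⟩ := exists_finest_keep _ a1 a4
      (fun Y hY => a5 Y hY Y (mem_singleton_self _))
    exact ⟨S', J1, b1, a3.trans b3, b4, b2, a6, a7⟩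
  by_cases hyS : ∃ Y ∈ S, y ∈ Y
  swap
  · push Not at hyS
    have hyJ : y ∉ J.sup id := fun hh => by
      obtain ⟨Y, hY, hv⟩ := mem_sup_id.1 hh
      exact hyS Y (hJ hY) hv
    have hxJ : ∀ Y ∈ J, x ∉ Y := fun Y hY hh => hyJ (hxy.1 (mem_sup_id.2 ⟨Y, hY, hh⟩))
    refine fin S J h.sp (fun Y hY hh => absurd hh (hyS Y hY)) ?_ hJ
      (fun Y hY => (keep Y (hJ hY) (hxJ Y hY) (hyS Y (hJ hY))).1) rfl
      (le_of_eq (sum_congr rfl fun Y hY =>
        (keep Y (hJ hY) (hxJ Y hY) (hyS Y (hJ hY))).2.symm))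
    have := sum_cut_le h.sp hE' (fun Y hY hh => absurd hh (hyS Y hY))
    rw [val_sub_cut]; omega
  obtain ⟨Y, hY, hyY⟩ := hyS
  have hne : X ≠ Y := fun e => hy (e ▸ hyY)
  obtain ⟨m1, m2⟩ := merge_parts h.sup h.z0 h.sp hX hY hne
  have rest : ∀ Z ∈ (S.erase X).erase Y, Z ∈ S ∧ x ∉ Z ∧ y ∉ Z := fun Z hZ => by
    simp only [mem_erase] at hZ
    exact ⟨hZ.2.2, fun hh => hZ.2.1 (h.sp.eq_of_mem hZ.2.2 hX hh hx),
      fun hh => hZ.1 (h.sp.eq_of_mem hZ.2.2 hY hh hyY)⟩
  have cXY : CSG.cut e (X ∪ Y) = 0 := by rw [hE'.cut, cut_eq_zero]; simp [hx, hyY]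
  have m3 : (Multiset.card K : ℤ) ≤
      val (fun X => z X - CSG.cut e X) ((S.erase X).erase Y ∪ {X ∪ Y}) := by
    rw [val_congr (z' := z) (fun Z hZ => by
      rcases mem_union.1 hZ with hZ | hZ
      · exact (keep Z (rest Z hZ).1 (rest Z hZ).2.1 (rest Z hZ).2.2).2
      · rw [mem_singleton.1 hZ, cXY]; simp)]
    omega
  have m4 : ∀ Z ∈ (S.erase X).erase Y ∪ {X ∪ Y}, y ∈ Z → x ∈ Z := fun Z hZ hh => by
    rcases mem_union.1 hZ with hZ | hZ
    · exact absurd hh (rest Z hZ).2.2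
    · rw [mem_singleton.1 hZ]; exact mem_union_left _ hx
  have iX := h.sp.mem_sup_iff hJ hX hx
  have iY := h.sp.mem_sup_iff hJ hY hyY
  by_cases hXJ : X ∈ J
  swap
  · have hYJ : Y ∉ J := fun hh => hXJ (iX.1 (hxy.2 (iY.2 hh)))
    have sub : ∀ Z ∈ J, Z ∈ (S.erase X).erase Y := fun Z hZ =>
      mem_erase.2 ⟨fun e => hYJ (e ▸ hZ), mem_erase.2 ⟨fun e => hXJ (e ▸ hZ), hJ hZ⟩⟩
    exact fin _ J m1 m4 m3 (fun Z hZ => mem_union_left _ (sub Z hZ))
      (fun Z hZ => (keep Z (hJ hZ) (rest Z (sub Z hZ)).2.1 (rest Z (sub Z hZ)).2.2).1) rfl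
      (le_of_eq (sum_congr rfl fun Z hZ =>
        (keep Z (hJ hZ) (rest Z (sub Z hZ)).2.1 (rest Z (sub Z hZ)).2.2).2.symm))
  have hYJ : Y ∈ J := iY.1 (hxy.1 (iX.2 hXJ))
  have hP : ({X, Y} : Finset (Finset V)) ⊆ S := insert_subset hX (singleton_subset_iff.2 hY)
  have w1 := h.inn_le hP (insert_nonempty _ _)
  have w2 := h.wt_le hP
  have w3 := inn_nonneg K (X ∪ Y)
  have w4 : ind e.1 (X ∪ Y) * ind e.2 (X ∪ Y) = 1 := by
    have i1 : ind x (X ∪ Y) = 1 := ind_of_mem (mem_union_left _ hx)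
    have i2 : ind y (X ∪ Y) = 1 := ind_of_mem (mem_union_right _ hyY)
    rcases hE' with rfl | rfl <;> simp only [i1, i2] <;> rfl
  rw [wt_insert (by simpa using hne), wt_single, sup_insert, sup_singleton] at w1 w2
  rw [card_pair hne, inn_cons] at w1
  simp only [id, sup_eq_union] at w1 w2
  have sub : ∀ Z ∈ (J.erase X).erase Y, Z ∈ (S.erase X).erase Y := fun Z hZ =>
    erase_subset_erase _ (erase_subset_erase _ hJ) hZ
  have hn : X ∪ Y ∉ (J.erase X).erase Y := fun hh =>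
    (rest _ (sub _ hh)).2.1 (mem_union_left _ hx)
  have eJ : J = insert X (insert Y ((J.erase X).erase Y)) := by
    rw [insert_erase (mem_erase.2 ⟨hne.symm, hYJ⟩), insert_erase hXJ]
  refine fin _ (insert (X ∪ Y) ((J.erase X).erase Y)) m1 m4 m3 ?_ ?_ ?_ ?_
  · exact insert_subset (mem_union_right _ (mem_singleton_self _))
      (fun Z hZ => mem_union_left _ (sub Z hZ))
  · intro Z hZ
    rcases mem_insert.1 hZ with rfl | hZ
    · intro Z hZ L hL hn
      rw [mem_singleton.1 hZ] at hL hn ⊢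
      have := finest_merge h.sup (h.sp.sub X hX) (h.sp.sub Y hY) (h.sp.disj X hX Y hY hne)
        (hf.single hX) (hf.single hY) (by omega) hE' hx hyY hL hn
      simp only [cXY]
      omega
    · exact (keep Z (rest Z (sub Z hZ)).1 (rest Z (sub Z hZ)).2.1 (rest Z (sub Z hZ)).2.2).1
  · conv_rhs => rw [eJ]
    simp only [sup_insert, id, sup_eq_union, union_assoc]
  · conv_lhs => rw [eJ]
    rw [wt_insert (by simp [hne]), wt_insert (notMem_erase _ _), wt_insert hn, cXY]
    have : wt z ((J.erase X).erase Y) =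
        wt (fun X => z X - CSG.cut e X) ((J.erase X).erase Y) := sum_congr rfl fun Z hZ =>
      (keep Z (rest Z (sub Z hZ)).1 (rest Z (sub Z hZ)).2.1 (rest Z (sub Z hZ)).2.2).2.symm
    omega

end Pool.Agent.CSG

end

-- part MP_305420_co.LGTwo
section

/-! Local to global in the second mode of the light case. -/

set_option linter.unusedSectionVars false
set_option linter.unusedVariables false

namespace Pool.Agent.CSG

open Finset

variable {V : Type*} [Fintype V] [DecidableEq V]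
variable {p : Finset V → ℤ} {H : Multiset (V × V)} {a b : V}

/-- the second mode -/
structure M2 (p : Finset V → ℤ) (H : Multiset (V × V)) (a b : V) : Prop extends HB p H a b where
  ca : p {a}ᶜ = 1
  cb : p {b}ᶜ = 1
  cw : p {a, b}ᶜ = 1
  hab : ∀ X, a ∈ X → b ∈ X → rs p H X ≤ 0
  h0 : ∀ X, a ∉ X → b ∉ X → X ≠ {a, b}ᶜ → rs p H X ≤ 0

/-- tight for both letters -/
structure BT (p : Finset V → ℤ) (H : Multiset (V × V)) (a b : V) (Y : Finset V) : Prop where
  na : a ∉ Y
  nb : b ∉ Y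
  ne : Y.Nonempty
  ta : 0 ≤ rs p H (insert a Y)
  tb : 0 ≤ rs p H (insert b Y)

theorem BT.swap {Y : Finset V} (h : BT p H a b Y) : BT p H b a Y := ⟨h.nb, h.na, h.ne, h.tb, h.ta⟩

namespace M2

theorem swap (h : M2 p H a b) : M2 p H b a :=
  { h.toHB.swap with
    ca := h.cb
    cb := h.ca
    cw := by rw [pair_comm]; exact h.cw
    hab := fun X h1 h2 => h.hab X h2 h1
    h0 := fun X h1 h2 h3 => h.h0 X h2 h1 (by rwa [pair_comm]) }

theorem le0 (h : M2 p H a b) {X : Finset V} (ha : a ∉ X) (hb : b ∉ X) {u : V} (hu : u ∉ X)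
    (hua : u ≠ a) (hub : u ≠ b) : rs p H X ≤ 0 :=
  h.h0 X ha hb (by rintro rfl; exact hu (by simp [hua, hub]))

theorem nu (h : M2 p H a b) {X : Finset V} (ha : a ∉ X) (hb : b ∉ X) (hne : X.Nonempty) :
    rs p H (insert a X) ≤ rs p H X := by
  obtain ⟨v, hv⟩ := hne
  have hab := h.ab
  have := h.cs.unc H (X := insert a X) (Y := {a, b}ᶜ) (P := X) (Q := {b}ᶜ) (s := v) (t := b)
    (by simp [hv]) (by simp; grind) (by simp; grind) (by simp) (by simp; grind) (by simp; grind)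
  have e1 : rs p H {a, b}ᶜ = 1 := by unfold rs; rw [h.cw, dG_compl, h.toHB.d_sab]; rfl
  have e2 := h.top {b}ᶜ
  omega

theorem sup (h : M2 p H a b) {Y T : Finset V} (hne : Y.Nonempty) (hY : Y ⊆ T) (ha : a ∉ T)
    (hb : b ∉ T) (ht : 0 ≤ rs p H (insert a Y)) {u : V} (hu : u ∉ Y) (hua : u ≠ a)
    (hub : u ≠ b) : rs p H T ≤ rs p H (insert a T) := by
  obtain ⟨v, hv⟩ := hne
  have hab := h.ab
  have := h.cs.unc H (X := T) (Y := insert a Y) (P := Y) (Q := insert a T) (s := v) (t := b)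
    (hY hv) (by simp [hv]) hb (by grind) (by grind) (by grind)
  have := h.le0 (fun hh => ha (hY hh)) (fun hh => hb (hY hh)) hu hua hub
  omega

theorem eqab (h : M2 p H a b) {Y T : Finset V} (hY : BT p H a b Y) (hs : Y ⊆ T) (ha : a ∉ T)
    (hb : b ∉ T) {u : V} (hu : u ∉ Y) (hua : u ≠ a) (hub : u ≠ b) :
    rs p H (insert a T) ≤ rs p H (insert b T) :=
  (h.nu ha hb (hY.ne.mono hs)).trans (h.swap.sup hY.ne hs hb ha hY.tb hu hub hua)

theorem gam (h : M2 p H a b) {X : Finset V} (ha : a ∉ X) (hb : b ∉ X) (hne : X.Nonempty) {u : V}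
    (hu : u ∉ X) (hua : u ≠ a) (hub : u ≠ b) :
    rs p H (insert a X) + rs p H (insert b X) ≤ rs p H X + rs p H (insert a (insert b X)) := by
  obtain ⟨v, hv⟩ := hne
  have hab := h.ab
  exact h.cs.unc H (s := v) (t := u) (by simp [hv]) (by simp [hv]) (by grind) (by grind)
    (by grind) (by grind)

/-- no proper tight set contains both witnesses -/
def NT (p : Finset V → ℤ) (H : Multiset (V × V)) (a b : V) (Y1 Y2 : Finset V) : Prop :=
  ∀ X, a ∈ X → b ∉ X → Y1 ⊆ X → Y2 ⊆ X → ∀ u, u ∉ X → u ≠ b → rs p H X ≤ -1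

theorem nt_of (h : M2 p H a b) {Y1 Y2 : Finset V} (h1 : BT p H a b Y1) (h2 : BT p H a b Y2)
    {u : V} (hu1 : u ∉ Y1) (hu2 : u ∉ Y2) (hua : u ≠ a) (hub : u ≠ b)
    (hn : rs p H (insert a (Y1 ∪ Y2)) ≤ -1) : NT p H a b Y1 Y2 := by
  intro X ha hb s1 s2 t ht htb
  have g1 := h.gam h1.na h1.nb h1.ne hu1 hua hub
  have g2 := h.gam h2.na h2.nb h2.ne hu2 hua hub
  have l1 := h.le0 h1.na h1.nb hu1 hua hub
  have l2 := h.le0 h2.na h2.nb hu2 hua hub
  have a1 := h.cs.unc H (X := insert a (insert b Y1)) (Y := insert a (insert b Y2))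
    (P := insert a (insert b (Y1 ∩ Y2))) (Q := insert a (insert b (Y1 ∪ Y2))) (s := a) (t := u)
    (by simp) (by simp) (by grind) (by grind) (by grind) (by grind)
  have a2 := h.hab (insert a (insert b (Y1 ∩ Y2))) (by simp) (by simp)
  have n1 := h1.nb
  have n2 := h2.nb
  have hab := h.ab
  have a3 := h.cs.unc H (X := insert a (insert b (Y1 ∪ Y2))) (Y := X)
    (P := insert a (Y1 ∪ Y2)) (Q := insert b X) (s := a) (t := t)
    (by simp) ha (by grind) ht (by grind) (by grind)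
  have a4 := h.hab (insert b X) (by simp [ha]) (by simp)
  have := h1.ta; have := h1.tb; have := h2.ta; have := h2.tb
  omega

/-- transfer from the letter `a` to the letter `b` inside a tight set -/
theorem transfer (h : M2 p H a b) {Y1 Y2 : Finset V} (h1 : BT p H a b Y1) (h2 : BT p H a b Y2)
    (hn : NT p H a b Y1 Y2) {D Z : Finset V} (ha : a ∉ D) (hb : b ∉ D) (hne : D.Nonempty)
    (ht : 0 ≤ rs p H (insert b D)) (hZ : Z ⊆ D) {u : V} (hu : u ∉ D) (hu1 : u ∉ Y1)
    (hu2 : u ∉ Y2) (hua : u ≠ a) (hub : u ≠ b) : rs p H (insert a Z) ≤ rs p H (insert b Z) := by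
  have hab := h.ab
  obtain ⟨v, hv⟩ := hne
  have key : ∀ Y, BT p H a b Y → u ∉ Y → rs p H (insert b (D ∪ Y)) ≤ -1 →
      rs p H (insert a Z) ≤ rs p H (insert b Z) := by
    intro Y hY huY hl
    have na := hY.na
    have nb := hY.nb
    have hd : ∀ x, x ∈ D → x ∉ Y := by
      intro x hx hx'
      have a1 := h.cs.unc H (X := insert b D) (Y := insert b Y) (P := insert b (D ∩ Y))
        (Q := insert b (D ∪ Y)) (s := b) (t := a) (by simp) (by simp) (by grind) (by grind)
        (by grind) (by grind)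
      have a2 := h.toHB.swap.le_a (X := insert b (D ∩ Y)) (x := x) (y := u) (by simp) (by grind)
        (by grind) (by grind) (by grind) hua
      have := hY.tb
      omega
    have a1 := h.cs.unc H (X := insert a Z) (Y := insert a Y) (P := {a})
      (Q := insert a (Z ∪ Y)) (s := a) (t := b) (by simp) (by simp) (by grind) (by grind)
      (by grind) (by grind)
    have a2 := h.eqab hY (T := Z ∪ Y) subset_union_right (by grind) (by grind) huY hua hub
    have a3 := h.cs.unc H (X := insert b (Z ∪ Y)) (Y := insert b D) (P := insert b Z)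
      (Q := insert b (D ∪ Y)) (s := b) (t := a) (by simp) (by simp) (by grind) (by grind)
      (by grind) (by grind)
    have := h.toHB.rs_a
    have := hY.ta
    omega
  by_cases c1 : rs p H (insert b (D ∪ Y1)) ≤ -1
  · exact key Y1 h1 hu1 c1
  refine key Y2 h2 hu2 ?_
  have := h1.na; have := h1.nb; have := h2.na; have := h2.nb
  have a1 := h.cs.unc H (X := insert b (D ∪ Y1)) (Y := insert b (D ∪ Y2))
    (P := insert b (D ∪ (Y1 ∩ Y2))) (Q := insert b (D ∪ Y1 ∪ Y2)) (s := b) (t := a) (by simp)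
    (by simp) (by grind) (by grind) (by grind) (by grind)
  have a2 := h.toHB.swap.le_a (X := insert b (D ∪ (Y1 ∩ Y2))) (x := v) (y := u) (by simp)
    (by grind) (by grind) (by grind) (by grind) hua
  have a3 := h.swap.eqab h1.swap (T := D ∪ Y1 ∪ Y2) (by grind) (by grind) (by grind) hu1 hub hua
  have a4 := hn (insert a (D ∪ Y1 ∪ Y2)) (by simp) (by grind) (by grind) (by grind) u (by grind) hub
  omega

theorem inter_tight (h : M2 p H a b) {X Y : Finset V} (hb : b ∉ X) (hb' : b ∉ Y)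
    (tX : 0 ≤ rs p H (insert a X)) (tY : 0 ≤ rs p H (insert a Y)) {v u : V} (hv : v ∈ X)
    (hva : v ≠ a) (hu : u ∉ X) (hu' : u ∉ Y) (hua : u ≠ a) (hub : u ≠ b) :
    0 ≤ rs p H (insert a (X ∩ Y)) := by
  have hab := h.ab
  have a1 := h.cs.unc H (X := insert a X) (Y := insert a Y) (P := insert a (X ∩ Y))
    (Q := insert a (X ∪ Y)) (s := a) (t := b) (by simp) (by simp) (by grind) (by grind)
    (by grind) (by grind)
  have a2 := h.toHB.le_a (X := insert a (X ∪ Y)) (x := v) (y := u) (by simp) (by grind)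
    (by grind) hva (by grind) hub
  omega

/-- the single edge move -/
theorem move1 (h : M2 p H a b) {x y : V} (he : Adj H x y) :
    (∃ X, a ∈ X ∧ b ∉ X ∧ y ∈ X ∧ x ∉ X ∧ 0 ≤ rs p H X) ∨
      ∃ X, b ∈ X ∧ a ∉ X ∧ x ∈ X ∧ y ∉ X ∧ 0 ≤ rs p H X := by
  obtain ⟨e, he', hE⟩ := he.isE
  obtain ⟨xa, xb, ya, yb⟩ := h.toHB.adj_ne he
  obtain ⟨T, hT⟩ := h.toHB.blocked' (E := {e}) (M := {(a, y)} + {(b, x)})
    (Multiset.singleton_le.2 he') (by
      rw [ends_add, ends_one, ends_one, hE.ends, pair_eq_add]; abel)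
  rw [dG_add, dG_singleton, dG_singleton, dG_singleton, hE.cut] at hT
  have t0 := h.top T
  have t1 := h.hab T
  have t2 := fun h1 h2 h3 => h.le0 (X := T) h1 h2 (u := x) h3 xa xb
  have t3 := fun h1 h2 h3 => h.le0 (X := T) h1 h2 (u := y) h3 ya yb
  unfold cut at hT
  by_cases b1 : a ∈ T <;> by_cases b2 : b ∈ T <;> by_cases b3 : x ∈ T <;> by_cases b4 : y ∈ T <;>
    simp [b1, b2, b3, b4] at hT t1 t2 t3 <;>
    first
      | omega
      | exact Or.inl ⟨T, b1, b2, b4, b3, hT⟩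
      | exact Or.inr ⟨T, b2, b1, b3, b4, hT⟩

/-- rooted sets that are tight for `a` are tight for `b` -/
theorem tight_b (h : M2 p H a b) {Y1 Y2 : Finset V} (h1 : BT p H a b Y1) (h2 : BT p H a b Y2)
    (hn : NT p H a b Y1 Y2) {r : V} (hr1 : r ∉ Y1) (hr2 : r ∉ Y2) (hra : r ≠ a) (hrb : r ≠ b)
    {T : Finset V} (ha : a ∉ T) (hb : b ∉ T) (hr : r ∉ T) (ht : 0 ≤ rs p H (insert a T))
    {x y : V} (he : Adj H x y) (hx : x ∈ T) (hy : y ∉ T) : 0 ≤ rs p H (insert b T) := by
  have hab := h.ab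
  obtain ⟨xa, xb, ya, yb⟩ := h.toHB.adj_ne he
  have meet : ∀ Y, BT p H a b Y → r ∉ Y → (Y = Y1 ∨ Y = Y2) → ∀ v ∈ T, v ∈ Y →
      0 ≤ rs p H (insert b T) := by
    intro Y hY hrY _ v hv hv'
    have a1 := h.inter_tight hb hY.nb ht hY.ta hv (by grind) hr hrY hra hrb
    have a2 := h.transfer h1 h2 hn hY.na hY.nb hY.ne hY.tb (Z := T ∩ Y) inter_subset_right hrY
      hr1 hr2 hra hrb
    have a3 : BT p H a b (T ∩ Y) := ⟨by grind, by grind, ⟨v, by grind⟩, a1, by omega⟩
    have := h.eqab a3 inter_subset_left ha hb (u := r) (by grind) hra hrb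
    omega
  by_cases c1 : ∃ v ∈ T, v ∈ Y1
  · obtain ⟨v, hv, hv'⟩ := c1; exact meet Y1 h1 hr1 (Or.inl rfl) v hv hv'
  by_cases c2 : ∃ v ∈ T, v ∈ Y2
  · obtain ⟨v, hv, hv'⟩ := c2; exact meet Y2 h2 hr2 (Or.inr rfl) v hv hv'
  push Not at c1 c2
  have opp : ∀ Y, BT p H a b Y → r ∉ Y → x ∉ Y → y ∉ Y := by
    intro Y hY hrY hxY hyY
    have nb := hY.nb
    have a1 := h.cs.unc1 (X := insert a T) (Y := insert a Y) (P := insert a (T ∩ Y))
      (Q := insert a (T ∪ Y)) (s := a) (t := b) (by simp) (by simp) (by grind) (by grind) he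
      (by grind) (by grind) (by grind) (by grind) (by grind) (by grind)
    have a2 := h.toHB.le_a (X := insert a (T ∪ Y)) (x := x) (y := r) (by simp) (by grind)
      (by grind) xa (by grind) hrb
    have := h.top (insert a (T ∩ Y))
    have := hY.ta
    omega
  have hy1 := opp Y1 h1 hr1 (c1 x hx)
  have hy2 := opp Y2 h2 hr2 (c2 x hx)
  rcases h.move1 he with ⟨X, a1, a2, a3, a4, a5⟩ | ⟨X, a1, a2, a3, a4, a5⟩
  · exfalso
    have b1 := h.cs.unc1 (X := insert a T) (Y := X) (P := insert a T ∩ X)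
      (Q := insert a T ∪ X) (s := a) (t := b) (by simp) a1 (by grind) a2 he
      (by grind) a4 a3 (by grind) (by grind) (by grind)
    have b2 := h.top (insert a T ∩ X)
    have sub : ∀ v, v ≠ b → v ∉ T → v ∈ X := by
      intro v hvb hvT
      by_contra hc
      have := h.toHB.le_a (X := insert a T ∪ X) (x := x) (y := v) (by simp) (by grind)
        (by grind) xa (by grind) hvb
      omega
    have := hn X a1 a2 (fun v hv => sub v (fun e => h1.nb (e ▸ hv)) (fun hh => c1 v hh hv))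
      (fun v hv => sub v (fun e => h2.nb (e ▸ hv)) (fun hh => c2 v hh hv)) x a4 xb
    omega
  · have b0 := h.nu ha hb ⟨x, hx⟩
    have b1 := h.cs.unc H (X := X) (Y := T) (P := X ∩ T) (Q := insert b (T ∪ X.erase b)) (s := x)
      (t := a) a3 hx a2 ha (by grind) (by grind)
    have b2 := h.le0 (X := X ∩ T) (u := y) (by grind) (by grind) (by grind) ya yb
    have := h.transfer h1 h2 hn (D := T ∪ X.erase b) (Z := T) (by grind) (by grind)
      ⟨x, by grind⟩ (by omega) subset_union_left (u := y) (by grind) hy1 hy2 ya yb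
    omega

end M2

/-- data of the final two-edge move -/
structure Mv2 (p : Finset V → ℤ) (H : Multiset (V × V)) (a b : V) (X Q : Finset V) (r : V)
    (e e' : V × V) (x x' l y : V) : Prop extends M2 p H a b where
  hQ : BT p H a b Q
  hD : BT p H a b (X ∪ Q)
  hd : ∀ v, v ∈ X → v ∉ Q
  hr : r ∉ X ∪ Q
  hra : r ≠ a
  hrb : r ≠ b
  hE : {e} + {e'} ≤ H
  he : IsE e x' l
  he' : IsE e' x y
  hx : x ∈ X
  hx' : x' ∈ X
  hl : l ∈ Q
  hy : y ∉ X
  hy' : y ∉ Q
  fa : -1 ≤ rs p H (insert a X)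
  fb : -1 ≤ rs p H (insert b X)
  fab : rs p H (insert a (insert b X)) ≤ -2

namespace Mv2

variable {X Q : Finset V} {r : V} {e e' : V × V} {x x' l y : V}

theorem swap (h : Mv2 p H a b X Q r e e' x x' l y) : Mv2 p H b a X Q r e e' x x' l y :=
  { h.toM2.swap with
    hQ := h.hQ.swap, hD := h.hD.swap, hd := h.hd, hr := h.hr, hra := h.hrb, hrb := h.hra,
    hE := h.hE, he := h.he, he' := h.he', hx := h.hx, hx' := h.hx', hl := h.hl, hy := h.hy,
    hy' := h.hy', fa := h.fb, fb := h.fa, fab := by rw [insert_comm]; exact h.fab }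

theorem A1 (h : Mv2 p H a b X Q r e e' x x' l y) : Adj H x' l :=
  h.he.adj (Multiset.mem_of_le h.hE (by simp))

theorem A2 (h : Mv2 p H a b X Q r e e' x x' l y) : Adj H x y :=
  h.he'.adj (Multiset.mem_of_le h.hE (by simp))

theorem facts (h : Mv2 p H a b X Q r e e' x x' l y) : a ≠ b ∧ (x' ≠ a ∧ x' ≠ b ∧ l ≠ a ∧ l ≠ b) ∧
    (x ≠ a ∧ x ≠ b ∧ y ≠ a ∧ y ≠ b) ∧ a ∉ X ∧ b ∉ X ∧ a ∉ Q ∧ b ∉ Q ∧ l ∉ X ∧ x ∉ Q ∧ x' ∉ Q ∧
    x ∈ X ∧ x' ∈ X ∧ l ∈ Q ∧ y ∉ X ∧ y ∉ Q :=
  ⟨h.ab, h.toHB.adj_ne h.A1, h.toHB.adj_ne h.A2, fun hh => h.hD.na (mem_union_left _ hh),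
    fun hh => h.hD.nb (mem_union_left _ hh), h.hQ.na, h.hQ.nb, fun hh => h.hd l hh h.hl,
    h.hd x h.hx, h.hd x' h.hx', h.hx, h.hx', h.hl, h.hy, h.hy'⟩

theorem two (h : Mv2 p H a b X Q r e e' x x' l y) {A : Finset V} (a1 : a ∈ A) (a3 : b ∉ A)
    (a5 : l ∈ A) (a6 : y ∈ A) (a7 : x ∉ A) (a8 : x' ∉ A) :
    rs p H A + 2 ≤ rs p H (A ∪ X) := by
  have F := h.facts
  have := h.cs.uncE h.hE (X := A) (Y := insert a X) (P := A ∩ insert a X) (Q := A ∪ X) (s := a)
    (t := b) a1 (by simp) a3 (by grind) (by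
      intro g hg
      simp only [Multiset.mem_add, Multiset.mem_singleton] at hg
      rcases hg with rfl | rfl
      · exact sepE_symm (h.he.sep (by grind) a8 a5 (by grind))
      · exact sepE_symm (h.he'.sep (by grind) a7 a6 (by grind))) (by grind) (by grind)
  have := h.top (A ∩ insert a X)
  have := h.fa
  simp only [Multiset.card_add, Multiset.card_singleton] at *
  omega

theorem c1 (h : Mv2 p H a b X Q r e e' x x' l y) {T : Finset V} (b1 : a ∈ T) (b2 : b ∉ T)
    (b3 : x' ∈ T) (b4 : l ∉ T) (b5 : y ∉ T) : rs p H T ≤ -1 := by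
  have F := h.facts
  have a1 := h.cs.unc1 (X := T) (Y := insert a Q) (P := T ∩ insert a Q) (Q := T ∪ Q)
    (s := a) (t := b) b1 (by simp) b2 (by grind) h.A1 b3 (by grind) (by grind) b4
    (by grind) (by grind)
  have a2 := h.toHB.le_a (X := T ∪ Q) (x := x') (y := y) (by grind) (by grind)
    (by grind) (by grind) (by grind) (by grind)
  have := h.top (T ∩ insert a Q)
  have := h.hQ.ta
  omega

theorem c2 (h : Mv2 p H a b X Q r e e' x x' l y) {T : Finset V} (b1 : a ∈ T) (b2 : b ∉ T)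
    (b3 : x ∉ T) (b4 : x' ∉ T) (b5 : l ∈ T) (b6 : y ∈ T) : rs p H T ≤ -1 := by
  have := h.two b1 b2 b5 b6 b3 b4
  have := h.top (T ∪ X)
  omega

theorem c3 (h : Mv2 p H a b X Q r e e' x x' l y) {T : Finset V} (b1 : a ∈ T) (b2 : b ∈ T)
    (b3 : X ⊆ T) (b4 : l ∉ T) (b5 : y ∉ T) : rs p H T ≤ -2 := by
  have F := h.facts
  have hd := h.hd
  by_contra hc
  have a1 := h.cs.unc1 (X := T) (Y := insert a Q) (P := T ∩ insert a Q) (Q := T ∪ Q)
    (s := a) (t := y) b1 (by simp) b5 (by grind) h.A1 (b3 h.hx') (by grind) (by grind) b4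
    (by grind) (by grind)
  have a2 := h.hab (T ∪ Q) (by grind) (by grind)
  have a3 := h.hQ.ta
  have a4 : ∀ v, v ∈ T → v ∉ Q := by
    intro v hv hv'
    have := h.toHB.le_a (X := T ∩ insert a Q) (x := v) (y := y) (by grind) (by grind)
      (by grind) (by grind) (by grind) (by grind)
    omega
  have a5 := h.toM2.gam h.hD.na h.hD.nb h.hD.ne h.hr h.hra h.hrb
  have a6 := h.toM2.le0 h.hD.na h.hD.nb h.hr h.hra h.hrb
  have a7 := h.cs.unc H (X := T) (Y := insert a (insert b (X ∪ Q)))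
    (P := insert a (insert b X)) (Q := T ∪ Q) (s := a) (t := y) b1 (by simp) b5 (by grind)
    (by grind) (by grind)
  have := h.hD.ta
  have := h.hD.tb
  have := h.fab
  omega

theorem c4 (h : Mv2 p H a b X Q r e e' x x' l y) {T : Finset V} (b1 : a ∉ T) (b2 : b ∉ T)
    (b3 : ∀ v, v ∈ X → v ∉ T) (b4 : l ∈ T) (b5 : y ∈ T) (b6 : -1 ≤ rs p H T) :
    -1 ≤ rs p H (insert a (insert b X))ᶜ := by
  have F := h.facts
  have hd := h.hd
  have a1 := h.cs.unc H (X := T) (Y := Q) (P := T ∩ Q) (Q := T ∪ Q) (s := l) (t := a) b4 h.hl b1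
    h.hQ.na (by grind) (by grind)
  have a2 := h.toM2.le0 (X := T ∩ Q) (u := y) (by grind) (by grind) (by grind) (by grind)
    (by grind)
  have a3 := h.toM2.nu h.hQ.na h.hQ.nb h.hQ.ne
  have a4 := h.hQ.ta
  have a5 := h.toM2.sup h.hQ.ne (T := T ∪ Q) subset_union_right (by grind) (by grind) h.hQ.ta
    h.hy' (by grind) (by grind)
  have a6 := h.two (A := insert a (T ∪ Q)) (by simp) (by grind) (by grind) (by grind) (by grind)
    (by grind)
  have a8 : T ∪ Q = (insert a (insert b X))ᶜ := by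
    ext v
    rw [mem_compl]
    constructor
    · grind
    · intro hv
      by_contra hc
      have := h.toHB.le_a (X := insert a (T ∪ Q) ∪ X) (x := x) (y := v) (by grind)
        (by grind) (by grind) (by grind) (by grind) (by grind)
      omega
  rw [← a8]; omega

theorem main (h : Mv2 p H a b X Q r e e' x x' l y) (hv : Valid p 0 (ends H + {a, b}))
    (hq : ms (ends H + {a, b}) X ≤ p X) : -1 ≤ rs p H (insert a (insert b X))ᶜ := by
  obtain ⟨-, -, ⟨xa, xb, ya, yb⟩, -⟩ := h.facts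
  obtain ⟨T, hN, hT⟩ := h.toHB.blocked_ns hv (M := {(a, x)} + {(b, x')} + {(l, y)}) h.hE (by
      simp only [ends_add, ends_one, h.he.ends, h.he'.ends, pair_eq_add]; abel) {X}
    (by intro _ h1 _ h2 h3; simp only [mem_singleton] at h1 h2; exact absurd (h1.trans h2.symm) h3)
    (by intro Z hZ; rw [mem_singleton.1 hZ]; exact hq.trans (le_symmMax p X))
  simp only [dG_add, dG_singleton, h.he.cut, h.he'.cut] at hT
  have t0 := h.top T
  have t1 := h.hab T
  have t2 := fun h1 h2 h3 => h.toM2.le0 (X := T) h1 h2 (u := x) h3 xa xb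
  have t3 := fun h1 h2 h3 => h.toM2.le0 (X := T) h1 h2 (u := y) h3 ya yb
  unfold cut at hT
  rcases hN X (mem_singleton_self _) with hs | hs
  · have i1 := hs h.hx
    have i2 := hs h.hx'
    have d1 := fun b1 b2 => h.c1 (T := T) b1 b2 i2
    have d2 := fun b1 b2 => h.swap.c1 (T := T) b1 b2 i2
    have d3 := fun b1 b2 => h.c3 (T := T) b1 b2 hs
    exfalso
    by_cases b1 : a ∈ T <;> by_cases b2 : b ∈ T <;> by_cases b3 : l ∈ T <;>
      by_cases b4 : y ∈ T <;> simp [b1, b2, b3, b4, i1, i2] at hT t1 t3 d1 d2 d3 <;> omega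
  · have i0 : ∀ v, v ∈ X → v ∉ T := fun v hv => disjoint_left.1 hs hv
    have i1 := i0 x h.hx
    have i2 := i0 x' h.hx'
    have d3 := fun b1 b2 => h.c2 (T := T) b1 b2 i1 i2
    have d4 := fun b1 b2 => h.swap.c2 (T := T) b1 b2 i1 i2
    by_cases b1 : a ∈ T <;> by_cases b2 : b ∈ T <;> by_cases b3 : l ∈ T <;>
      by_cases b4 : y ∈ T <;> simp [b1, b2, b3, b4, i1, i2] at hT t1 t2 d3 d4 <;>
      first | omega | exact h.c4 b1 b2 i0 b3 b4 (by omega)

end Mv2

theorem HB.ex3 (h : HB p H a b) {r : V} (hra : r ≠ a) (hrb : r ≠ b) {S : Finset (Finset V)}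
    (hS : SubP ({a, b, r}ᶜ) S) (hv : (Multiset.card H : ℤ) ≤ val (zeta p a) S) :
    EX ({a, b, r}ᶜ) (zeta p a) H S where
  sup := (h.zsup hra).mono (c3_sub a b r)
  z0 := h.zeta0
  bd := fun X hX ⟨v, hv⟩ => by
    have h1 : ∀ u ∈ X, u ≠ a ∧ u ≠ b ∧ u ≠ r := fun u hu => mem_c3.1 (hX hu)
    have hab := h.ab
    have := h.le_a (X := insert a X) (x := v) (y := r) (by simp) (by grind) (by grind) (by grind)
      (by grind) hrb
    unfold rs at this
    rw [h.da] at this
    unfold zeta; omega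
  sp := hS
  ex := hv

theorem EX.tu_tight (h : HB p H a b) {R : Finset V} {S J : Finset (Finset V)}
    (hE : EX R (zeta p a) H S) (hJ : J ⊆ S) (tJ : TU (zeta p a) H J) :
    0 ≤ rs p H (insert a (J.sup id)) := by
  have h1 := hE.wt_le hJ
  have h2 := tJ.2
  unfold rs
  rw [h.da]
  unfold zeta at h1 h2
  omega

/-- the rooted structure of the second mode -/
structure R2 (p : Finset V → ℤ) (H : Multiset (V × V)) (a b r : V) (S : Finset (Finset V))
    (Y1 Y2 : Finset V) : Prop extends M2 p H a b where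
  ra : r ≠ a
  rb : r ≠ b
  ex : EX ({a, b, r}ᶜ) (zeta p a) H S
  wn : ∀ X ∈ S, 0 ≤ zeta p a X
  b1 : BT p H a b Y1
  b2 : BT p H a b Y2
  nt : M2.NT p H a b Y1 Y2
  r1 : r ∉ Y1
  r2 : r ∉ Y2

namespace R2

variable {r : V} {S : Finset (Finset V)} {Y1 Y2 : Finset V}

theorem out (h : R2 p H a b r S Y1 Y2) {J : Finset (Finset V)} (hJ : J ⊆ S) :
    a ∉ J.sup id ∧ b ∉ J.sup id ∧ r ∉ J.sup id := by
  have := fun v hv => mem_c3.1 ((h.ex.sp.subset hJ).sup_subset (x := v) hv)
  exact ⟨fun hh => (this a hh).1 rfl, fun hh => (this b hh).2.1 rfl, fun hh => (this r hh).2.2 rfl⟩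

theorem bt (h : R2 p H a b r S Y1 Y2) {J : Finset (Finset V)} (hJ : J ⊆ S)
    (tJ : TU (zeta p a) H J) : BT p H a b (J.sup id) := by
  obtain ⟨o1, o2, o3⟩ := h.out hJ
  have t1 := EX.tu_tight h.toHB h.ex hJ tJ
  have t2 := h.ex.one_le hJ tJ.1
  have t3 : 0 ≤ wt (zeta p a) J := sum_nonneg fun X hX => h.wn X (hJ hX)
  obtain ⟨e, he, hc⟩ := exists_cut_of_pos (G := H) (X := J.sup id) (by omega)
  obtain ⟨x, y, hx, hy, hA, _⟩ := adj_of_cut he hc
  exact ⟨o1, o2, ⟨x, hx⟩, t1,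
    h.toM2.tight_b h.b1 h.b2 h.nt h.r1 h.r2 h.ra h.rb o1 o2 o3 t1 hA hx hy⟩

theorem pb_ge (h : R2 p H a b r S Y1 Y2) {X : Finset V} (hX : X ∈ S) :
    p (insert a X) ≤ p (insert b X) := by
  obtain ⟨J, hJ, hXJ, tJ⟩ := h.ex.tu_part hX
  have hb := h.bt hJ tJ
  have := h.toM2.transfer h.b1 h.b2 h.nt hb.na hb.nb hb.ne hb.tb (part_subset_sup hXJ)
    (h.out hJ).2.2 h.r1 h.r2 h.ra h.rb
  unfold rs at this
  rw [h.toHB.da, h.toHB.db] at this
  omega

theorem gab_of_sub (h : R2 p H a b r S Y1 Y2) {Q J : Finset (Finset V)} (hJ : J ⊆ S) (hQ : Q ⊆ J)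
    (tQ : TU (zeta p a) H Q) : 1 + wt (zeta p a) J ≤ p (insert a (insert b (J.sup id))) := by
  obtain ⟨o1, o2, o3⟩ := h.out hJ
  have hb := h.bt (hQ.trans hJ) tQ
  have hs : Q.sup id ⊆ J.sup id := sup_mono' hQ
  have r0 := (h.out (hQ.trans hJ)).2.2
  have a1 := h.toM2.eqab hb hs o1 o2 r0 h.ra h.rb
  have a2 := h.toM2.sup hb.ne hs o1 o2 hb.ta r0 h.ra h.rb
  have a3 := h.toM2.gam o1 o2 (hb.ne.mono hs) o3 h.ra h.rb
  have a4 := h.ex.wt_le hJ
  unfold rs at a1 a2 a3
  simp only [h.toHB.da, h.toHB.db] at a1 a2 a3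
  unfold zeta at a4 ⊢
  omega

theorem no_two (h : R2 p H a b r S Y1 Y2) {X : Finset V} (hX : X ∈ S)
    (hl : p (insert a (insert b X)) ≤ zeta p a X) :
    ∀ D ⊆ S, ∀ Q ⊆ D, ∀ Q' ⊆ D, X ∈ D → X ∉ Q → X ∉ Q' → Disjoint Q Q' → TU (zeta p a) H D →
      TU (zeta p a) H Q → TU (zeta p a) H Q' → False := by
  intro D hD Q hQ Q' hQ' hXD hXQ hXQ' hd tD tQ tQ'
  have s1 : insert X Q ⊆ D := insert_subset hXD hQ
  have s2 : insert X Q' ⊆ D := insert_subset hXD hQ'
  have s3 : insert X Q ∪ insert X Q' ⊆ D := union_subset s1 s2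
  have g1 := h.gab_of_sub (s1.trans hD) (subset_insert _ _) tQ
  have g2 := h.gab_of_sub (s2.trans hD) (subset_insert _ _) tQ'
  have e1 : insert X Q ∩ insert X Q' = {X} := by
    have := disjoint_left.1 hd
    ext Y; grind
  have i1 := h.ex.sp.sup_inter (s1.trans hD) (s2.trans hD)
  have i2 := mem_sup_union (insert X Q) (insert X Q')
  rw [e1, sup_singleton, id] at i1
  have w1 := wt_modular (zeta p a) (insert X Q) (insert X Q')
  rw [e1, wt_single] at w1
  have o1 := h.out (s1.trans hD)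
  have o2 := h.out (s2.trans hD)
  have o3 := h.out (s3.trans hD)
  have o4 := h.out hD
  have u3 : (insert X Q ∪ insert X Q').sup id ⊆ D.sup id := sup_mono' s3
  have w2 := wt_sdiff (z := zeta p a) s3
  have w3 := h.ex.wt_le ((sdiff_subset (s := D) (t := insert X Q ∪ insert X Q')).trans hD)
  have i3 := h.ex.sp.sup_sdiff hD (s3.trans hD)
  have w4 := h.ex.sup _ (h.ex.sp.subset (s3.trans hD)).sup_subset _ (h.ex.sp.subset
    ((sdiff_subset (s := D) (t := insert X Q ∪ insert X Q')).trans hD)).sup_subset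
  have ra := h.ra
  have rb := h.rb
  have hab := h.ab
  generalize (insert X Q).sup id = A at *
  generalize (insert X Q').sup id = B at *
  generalize (insert X Q ∪ insert X Q').sup id = C at *
  generalize (D \ (insert X Q ∪ insert X Q')).sup id = E at *
  have e2 : C ∩ E = ∅ := by ext v; grind
  have e3 : C ∪ E = D.sup id := by ext v; grind
  rw [e2, e3, h.ex.z0] at w4
  have a1 := h.cs.uncp (X := insert a (insert b A)) (Y := insert a (insert b B))
    (P := insert a (insert b X)) (Q := insert a (insert b C)) (s := a) (t := r) (by simp)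
    (by simp) (by grind) (by grind) (by grind) (by grind)
  have a2 := h.cs.uncp (X := insert a (insert b C)) (Y := insert a (D.sup id))
    (P := insert a C) (Q := insert a (insert b (D.sup id))) (s := a) (t := r) (by simp)
    (by simp) (by grind) (by grind) (by grind) (by grind)
  have a3 := h.hab (insert a (insert b (D.sup id))) (by simp) (by simp)
  have a4 := tD.2
  unfold rs at a3
  rw [h.toHB.da, h.toHB.db] at a3
  have z1 : zeta p a C = p (insert a C) - 1 := rfl
  have z2 : zeta p a (D.sup id) = p (insert a (D.sup id)) - 1 := rfl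
  omega

theorem valid (h : R2 p H a b r S Y1 Y2) {e : V × V} (he : e ∈ H) :
    Valid p 0 (ends H + {a, b}) := by
  obtain ⟨o1, o2, o3, o4⟩ := h.off e he
  refine h.toHB.valid he ⟨fun X h1 h2 _ => h.hab X h1 h2, fun X h1 h2 h3 => ?_⟩
  rcases h3 with h3 | h3
  exacts [h.toM2.le0 h1 h2 h3 o1 o3, h.toM2.le0 h1 h2 h3 o2 o4]

theorem single (h : R2 p H a b r S Y1 Y2) {X : Finset V} (hX : X ∈ S) :
    1 + zeta p a X ≤ p (insert a (insert b X)) ∨ 1 + zeta p a X ≤ p (insert a (insert b X))ᶜ := by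
  by_cases hl : 1 + zeta p a X ≤ p (insert a (insert b X))
  · exact Or.inl hl
  right
  have hXS : ({X} : Finset (Finset V)) ⊆ S := singleton_subset_iff.2 hX
  obtain ⟨o1, o2, o3⟩ := h.out hXS
  simp only [sup_singleton, id] at o1 o2 o3
  have z1 : zeta p a X = p (insert a X) - 1 := rfl
  have a1 := h.toM2.gam o1 o2 (h.ex.sp.ne X hX) o3 h.ra h.rb
  have a2 := h.pb_ge hX
  have a3 := h.toM2.le0 o1 o2 o3 h.ra h.rb
  unfold rs at a1 a3
  simp only [h.toHB.da, h.toHB.db] at a1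
  obtain ⟨Q, hQ, hXQ, tQ, tD, hd⟩ := h.ex.leaf hX (by omega) (h.no_two hX (by omega))
  have hU : (insert X Q).sup id = X ∪ Q.sup id := by rw [sup_insert]; rfl
  have hdis : Disjoint X (Q.sup id) := by
    have := h.ex.sp.disj_sup hXS hQ (disjoint_singleton_left.2 hXQ)
    simpa using this
  have c1 := tQ.2
  have c2 := h.ex.one_le (insert_subset hX hQ) (insert_nonempty _ _)
  have c3 := h.ex.one_le hQ tQ.1
  have c4 := tD.2
  have c5 := h.wn X hX
  rw [hU, wt_insert hXQ] at c2 c4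
  obtain ⟨e, he, hs⟩ : ∃ e ∈ H, sepE e X (Q.sup id) := by
    by_contra hc
    push Not at hc
    have b1 := dG_modular hc
    rw [disjoint_iff_inter_eq_empty.1 hdis, dG_empty] at b1
    omega
  obtain ⟨x', l, hx', hl', hE⟩ : ∃ x' l, x' ∈ X ∧ l ∈ Q.sup id ∧ IsE e x' l := by
    rcases hs with ⟨b1, _, b3, _⟩ | ⟨b1, _, b3, _⟩
    exacts [⟨_, _, b1, b3, Or.inl rfl⟩, ⟨_, _, b3, b1, Or.inr rfl⟩]
  obtain ⟨K, hK⟩ := Multiset.exists_cons_of_mem he
  have d1 : dG H X = cut e X + dG K X := by rw [hK, dG_cons]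
  have d2 := cut_le_one e X
  obtain ⟨e', he', hc'⟩ := exists_cut_of_pos (G := K) (X := X) (by omega)
  obtain ⟨x, y, hx, hy, _, hE'⟩ := adj_of_cut he' hc'
  have hle : {e} + {e'} ≤ H := by
    rw [hK, ← Multiset.singleton_add]
    exact add_le_add_right (Multiset.singleton_le.2 he') _
  have hy' : y ∉ Q.sup id := by
    intro hh
    have b1 := dG_bonus hle (X := X) (Y := Q.sup id) (by
      intro g hg
      simp only [Multiset.mem_add, Multiset.mem_singleton] at hg
      rcases hg with rfl | rfl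
      · exact hs
      · exact IsE.sep hE' hx (disjoint_left.1 hdis hx) hh hy)
    rw [disjoint_iff_inter_eq_empty.1 hdis, dG_empty] at b1
    simp only [Multiset.card_add, Multiset.card_singleton] at b1
    omega
  have hD := h.bt (insert_subset hX hQ) tD
  have hr := (h.out (insert_subset hX hQ)).2.2
  rw [hU] at hD hr
  have key : Mv2 p H a b X (Q.sup id) r e e' x x' l y :=
    { h.toM2 with
      hQ := h.bt hQ tQ, hD := hD, hd := fun v hv => disjoint_left.1 hdis hv, hr := hr,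
      hra := h.ra, hrb := h.rb, hE := hle, he := hE, he' := hE', hx := hx, hx' := hx', hl := hl',
      hy := hy, hy' := hy'
      fa := by unfold rs; rw [h.toHB.da]; omega
      fb := by unfold rs; rw [h.toHB.db]; omega
      fab := by unfold rs; rw [h.toHB.da, h.toHB.db]; omega }
  have := key.main (h.valid he) (by
    rw [ms_add, ms_pair, ind_of_notMem o1, ind_of_notMem o2, ms_eq_inn, h.ex.inn_part hX]; omega)
  unfold rs at this
  rw [dG_compl, h.toHB.da, h.toHB.db] at this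
  omega

theorem obst (h : R2 p H a b r S Y1 Y2) : Obst p (Multiset.card H + 2) := by
  have ga : ∀ J ⊆ S, 1 + ∑ X ∈ J, zeta p a X ≤ p (insert a (J.sup id)) := fun J hJ => by
    have := h.ex.wt_le hJ
    unfold wt at this
    have z1 : zeta p a (J.sup id) = p (insert a (J.sup id)) - 1 := rfl
    omega
  have ra := h.ra
  have rb := h.rb
  have hab := h.ab
  refine obst_of_parts h.ab h.ex.sp (zeta p a) h.wn h.ex.ex (fun J hJ hne => ?_)
    (fun J hJ => (ga J hJ).trans (le_symmMax _ _)) (fun J hJ => ?_) (fun J hJ => ?_)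
  · have a1 := h.toM2.nu (h.out hJ).1 (h.out hJ).2.1 (h.ex.sp.sup_ne hJ hne)
    have a2 := ga J hJ
    have a3 := le_symmMax p (J.sup id)
    unfold rs at a1
    rw [h.toHB.da] at a1
    omega
  · have a1 := sum_le_sup ((h.toHB.swap.zsup h.rb).mono (fun v hv => by
      rw [mem_c3] at hv; simp [hv])) h.toHB.swap.zeta0 (h.ex.sp.subset hJ)
    have a2 : ∑ X ∈ J, zeta p a X ≤ ∑ X ∈ J, zeta p b X := sum_le_sum fun X hX => by
      have := h.pb_ge (hJ hX)
      unfold zeta; omega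
    have a3 := le_symmMax p (insert b (J.sup id))
    have z1 : zeta p b (J.sup id) = p (insert b (J.sup id)) - 1 := rfl
    omega
  · by_cases c : ∃ X ∈ J, 1 + zeta p a X ≤ p (insert a (insert b X))
    · obtain ⟨X, hX, hl⟩ := c
      have o := h.out hJ
      have hs := part_subset_sup hX
      have a1 := h.cs.uncp (X := insert a (insert b X)) (Y := insert a (J.sup id))
        (P := insert a X) (Q := insert a (insert b (J.sup id))) (s := a) (t := r) (by simp)
        (by simp) (by grind) (by grind) (by grind) (by grind)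
      have a2 := ga J hJ
      have a3 := le_symmMax p (insert a (insert b (J.sup id)))
      have z1 : zeta p a X = p (insert a X) - 1 := rfl
      omega
    · push Not at c
      have hs : SupOn ({a, b, r}ᶜ) (fun X => p (insert a (insert b X))ᶜ - 1) := by
        intro X hX Y hY
        have h1 : r ∉ X := fun hh => (mem_c3.1 (hX hh)).2.2 rfl
        have h2 : r ∉ Y := fun hh => (mem_c3.1 (hY hh)).2.2 rfl
        have := h.cs.refl.uncp (X := insert a (insert b X)) (Y := insert a (insert b Y))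
          (P := insert a (insert b (X ∩ Y))) (Q := insert a (insert b (X ∪ Y))) (s := a) (t := r)
          (by simp) (by simp) (by grind) (by grind) (by grind) (by grind)
        simp only [CSG.refl] at this ⊢
        omega
      have a1 := sum_le_sup hs (by
        have := h.cw
        simp only [insert_empty_eq]; omega) (h.ex.sp.subset hJ)
      have a2 : ∑ X ∈ J, zeta p a X ≤ ∑ X ∈ J, (p (insert a (insert b X))ᶜ - 1) :=
        sum_le_sum fun X hX => by
          have := h.single (hJ hX)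
          have := c X hX
          omega
      have a3 := le_symmMax' p (insert a (insert b (J.sup id)))
      omega

end R2

theorem M2.shrink (h : M2 p H a b) {r : V} {S : Finset (Finset V)}
    (hE : EX ({a, b, r}ᶜ) (zeta p a) H S) {Y Y' : Finset V} (h1 : BT p H a b Y)
    (h2 : BT p H a b Y') (hn : M2.NT p H a b Y Y') {x y : V} (hA : Adj H x y) (hy : y ∈ Y)
    (hx : x ∉ Y) (hx' : x ∉ Y')
    (nd : ∀ X, a ∈ X → b ∉ X → x ∈ X → y ∉ X → rs p H X ≤ -1) :
    ∃ Z ⊆ Y, BT p H a b Z ∧ y ∈ Z ∧ r ∉ Z := by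
  obtain ⟨e, he, hE'⟩ := hA.isE
  obtain ⟨xa, xb, ya, yb⟩ := h.toHB.adj_ne hA
  obtain ⟨J, hJ, tJ, hc⟩ := hE.tu_edge he
  have t1 := EX.tu_tight h.toHB hE hJ tJ
  have o := fun v hv => mem_c3.1 ((hE.sp.subset hJ).sup_subset (x := v) hv)
  have hab := h.ab
  rw [hE'.cut, cut_eq_one] at hc
  generalize J.sup id = U at *
  have hU : x ∉ U ∧ y ∈ U := by
    rcases hc with hc | hc
    · have := nd (insert a U) (by simp) (by grind) (by grind) (by grind)
      omega
    · exact hc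
  have t2 := h.inter_tight h1.nb (fun hh => (o b hh).2.1 rfl) h1.ta t1 hy ya hx hU.1 xa xb
  have t3 := h.transfer h1 h2 hn h1.na h1.nb h1.ne h1.tb (Z := Y ∩ U) inter_subset_left hx hx hx'
    xa xb
  have := h1.na
  have := h1.nb
  exact ⟨Y ∩ U, inter_subset_left, ⟨by grind, by grind, ⟨y, by grind⟩, t2, by omega⟩, by grind,
    by grind⟩

theorem lg2 : LG2 V := by
  rintro p H a b h ⟨ca, cb, cw, hab, h0, ⟨x1, y1, x2, y2, Y1, Y2, d⟩, r, S0, ra, rb, hS0, hv0⟩
  have m : M2 p H a b := { h with ca := ca, cb := cb, cw := cw, hab := hab, h0 := h0 }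
  obtain ⟨S, hS, hv, hf⟩ := exists_finest (zeta p a) hS0
  have hE := h.ex3 ra rb hS (hv0.trans hv)
  obtain ⟨m1, m2, m3, m4, m5⟩ := d.m1
  obtain ⟨n1, n2, n3, n4, n5⟩ := d.m2
  obtain ⟨xa, xb, -, -⟩ := h.adj_ne (x := x1) (y := y1) d.e1
  obtain ⟨xa', xb', -, -⟩ := h.adj_ne (x := x2) (y := y2) d.e2
  have hne := h.ab
  have b1 : BT p H a b Y1 := ⟨m4, m5, ⟨y1, m1⟩, d.t1.1, d.t1.2⟩
  have b2 : BT p H a b Y2 := ⟨n4, n5, ⟨y2, n1⟩, d.t2.1, d.t2.2⟩
  have nt1 := m.nt_of b1 b2 m2 n2 xa xb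
    (d.nt _ (by simp) (by grind) (by grind) (by grind) (by grind) (by grind))
  have nt2 : M2.NT p H a b Y2 Y1 := fun X c1 c2 c3 c4 => nt1 X c1 c2 c4 c3
  obtain ⟨Z1, s1, z1, y1Z, r1⟩ := m.shrink hE b1 b2 nt1 d.e1 m1 m2 n2 d.n1
  obtain ⟨Z2, s2, z2, y2Z, r2⟩ := m.shrink hE b2 b1 nt2 d.e2 n1 n3 m3 d.n2
  have q1 := z1.nb
  have q2 := z2.nb
  have nt3 := m.nt_of z1 z2 (fun hh => m2 (s1 hh)) (fun hh => n2 (s2 hh)) xa xb
    (d.nt _ (by simp) (by grind) (by grind) (by grind) (by clear nt1 nt2; grind)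
      (by clear nt1 nt2; grind))
  exact R2.obst (r := r) (S := S) (Y1 := Z1) (Y2 := Z2)
    { m with
      ra := ra, rb := rb, ex := hE, wn := fun X hX => hf.nonneg hX, b1 := z1, b2 := z2,
      nt := nt3, r1 := r1, r2 := r2 }

end Pool.Agent.CSG

end

-- part MP_305420_co.LGOne
section

/-! First mode of the light case: deletion, node structure, and the case of a unique free edge. -/

set_option linter.unusedSectionVars false
set_option linter.unusedVariables false

namespace Pool.Agent.CSG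

open Finset

variable {V : Type*} [Fintype V] [DecidableEq V]
variable {p : Finset V → ℤ} {H : Multiset (V × V)} {a b r : V} {S : Finset (Finset V)}

/-- the first mode, with a root point -/
structure L1 (p : Finset V → ℤ) (H : Multiset (V × V)) (a b r : V) : Prop extends HB p H a b where
  pab : p {a, b} = 1
  ra : r ≠ a
  rb : r ≠ b
  rK : ∀ X, a ∈ X → b ∈ X → r ∈ X → rs p H X ≤ 0

/-- the union of the family satisfies the obstacle inequality -/
def Good (p : Finset V → ℤ) (a : V) (I : Finset (Finset V)) : Prop :=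
  1 + wt (zeta p a) I ≤ symmMax p (I.sup id)

/-- the statement proved by induction on the number of edges -/
def AllGood (p : Finset V → ℤ) (H : Multiset (V × V)) (a b r : V) : Prop :=
  L1 p H a b r → (∃ e ∈ H, Free p H a b e) → ∀ S, SubP ({a, b, r}ᶜ) S →
    (Multiset.card H : ℤ) ≤ val (zeta p a) S → Finest (zeta p a) S →
    ∀ I ⊆ insert {b} S, I.Nonempty → Good p a I

/-- the edge can be deleted without losing all free edges -/
def Del (p : Finset V → ℤ) (H : Multiset (V × V)) (a b : V) (e : V × V) : Prop :=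
  ∃ K, H = e ::ₘ K ∧ ∃ g ∈ K, Free p H a b g

/-- an exact finest structure together with the consequence of the induction hypothesis -/
structure R1 (p : Finset V → ℤ) (H : Multiset (V × V)) (a b r : V) (S : Finset (Finset V)) :
    Prop extends L1 p H a b r where
  ex : EX ({a, b, r}ᶜ) (zeta p a) H S
  fin : Finest (zeta p a) S
  ih : ∀ e, Del p H a b e → ∀ I ⊆ insert {b} S, I.Nonempty → cut e (I.sup id) = 0 → Good p a I

theorem cut_insert_off {e : V × V} {s : V} (h1 : e.1 ≠ s) (h2 : e.2 ≠ s) (X : Finset V) :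
    cut e (insert s X) = cut e X := by
  unfold cut; simp [h1, h2]

theorem rs_delete (p : Finset V → ℤ) (e : V × V) (K : Multiset (V × V)) :
    rs (fun X => p X - cut e X) K = rs p (e ::ₘ K) := by
  funext X; unfold rs; rw [dG_cons]; ring

theorem L1.delete {e : V × V} {K : Multiset (V × V)} (h : L1 p (e ::ₘ K) a b r) :
    L1 (fun X => p X - cut e X) K a b r := by
  obtain ⟨o1, o2, o3, o4⟩ := h.off e (Multiset.mem_cons_self _ _)
  have c1 : cut e {a} = 0 := by rw [cut_eq_zero]; simp [o1, o2]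
  have c2 : cut e {b} = 0 := by rw [cut_eq_zero]; simp [o3, o4]
  have c3 : cut e {a, b} = 0 := by rw [cut_eq_zero]; simp [o1, o2, o3, o4]
  refine ⟨⟨?_, h.ab, fun g hg => h.off g (Multiset.mem_cons_of_mem hg), ?_, ?_, ?_, ?_, ?_, ?_⟩,
    ?_, h.ra, h.rb, ?_⟩
  · simpa using h.cs.sub_dG {e}
  · simp only [c1, h.pa]; rfl
  · simp only [c2, h.pb]; rfl
  · rw [rs_delete]; exact h.top
  · rw [rs_delete]; exact h.oa
  · rw [rs_delete]; exact h.ob
  · intro hs
    refine h.uns ?_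
    have := Solvable.add (p := p) (M := ends K + {a, b}) {e} (by
      simp only [dG_singleton]; exact hs)
    rwa [← add_assoc, ← ends_add, Multiset.singleton_add] at this
  · simp only [c3, h.pab]; rfl
  · rw [rs_delete]; exact h.rK

theorem L1.zb (h : L1 p H a b r) : zeta p a {b} = 0 := by
  unfold zeta; rw [h.pab]; rfl

theorem b_notMem (hS : SubP ({a, b, r}ᶜ) S) : ({b} : Finset V) ∉ S := fun hh =>
  (mem_c3.1 (hS.sub _ hh (mem_singleton_self b))).2.1 rfl

theorem L1.r1 (h : L1 p H a b r) (hS : SubP ({a, b, r}ᶜ) S)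
    (hv : (Multiset.card H : ℤ) ≤ val (zeta p a) S) (hf : Finest (zeta p a) S)
    (ih : ∀ p' e K, H = e ::ₘ K → AllGood p' K a b r) : R1 p H a b r S := by
  refine ⟨h, h.toHB.ex3 h.ra h.rb hS hv, hf, ?_⟩
  rintro e ⟨K, rfl, g, hg, hfree⟩ I hI hne hc
  obtain ⟨o1, o2, o3, o4⟩ := h.off e (Multiset.mem_cons_self _ _)
  have hJ : I.erase {b} ⊆ S := fun X hX =>
    (mem_insert.1 (hI (mem_of_mem_erase hX))).resolve_left (ne_of_mem_erase hX)
  have ez : zeta (fun X => p X - cut e X) a = fun X => zeta p a X - cut e X := by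
    funext X; unfold zeta; beta_reduce; rw [cut_insert_off o1 o2]; ring
  have mono : ∀ X, symmMax (fun X => p X - cut e X) X ≤ symmMax p X := fun X => by
    have := cut_nonneg e X
    have := cut_nonneg e Xᶜ
    unfold symmMax; beta_reduce; omega
  have hd := h.delete
  have key := ih _ e K rfl hd ⟨g, hg, by unfold Free; rw [rs_delete]; exact hfree⟩
  by_cases hb : ({b} : Finset V) ∈ I
  · have eI : I = insert {b} (I.erase {b}) := (insert_erase hb).symm
    have eU : I.sup id = insert b ((I.erase {b}).sup id) := by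
      conv_lhs => rw [eI]
      rw [sup_insert, insert_eq]; rfl
    rw [eU, cut_insert_off o3 o4] at hc
    obtain ⟨S', J', a1, a2, a3, a4, a5, a6⟩ := (h.toHB.ex3 h.ra h.rb hS hv).delete hf hJ hc
    rw [← ez] at a2 a3 a6
    have := key S' a1 a2 a3 (insert {b} J') (insert_subset_insert _ a4) (insert_nonempty _ _)
    unfold Good at this ⊢
    rw [wt_insert (fun hh => b_notMem a1 (a4 hh)), hd.zb, sup_insert, a5] at this
    conv_lhs => rw [eI]
    rw [wt_insert (notMem_erase _ _), h.zb, eU, insert_eq]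
    have := mono ({b} ∪ (I.erase {b}).sup id)
    simp only [id, sup_eq_union] at *
    omega
  · rw [erase_eq_of_notMem hb] at hJ
    obtain ⟨S', J', a1, a2, a3, a4, a5, a6⟩ := (h.toHB.ex3 h.ra h.rb hS hv).delete hf hJ hc
    rw [← ez] at a2 a3 a6
    have := key S' a1 a2 a3 J' (a4.trans (subset_insert _ _)) (by
      obtain ⟨v, hv⟩ := hS.sup_ne hJ hne
      rw [← a5] at hv
      obtain ⟨X, hX, _⟩ := mem_sup_id.1 hv
      exact ⟨X, hX⟩)
    unfold Good at this ⊢
    rw [a5] at this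
    have := mono (I.sup id)
    omega

theorem EX.z_mono {R : Finset V} {z : Finset V → ℤ} (h : EX R z H S) {I J : Finset (Finset V)}
    (hI : I ⊆ J) (hJ : J ⊆ S) : z (I.sup id) - wt z I ≤ z (J.sup id) - wt z J := by
  have w2 := wt_sdiff (z := z) hI
  have hs : J \ I ⊆ S := sdiff_subset.trans hJ
  have w3 := h.wt_le hs
  have i3 := h.sp.sup_sdiff hJ (hI.trans hJ)
  have w4 := h.sup _ (h.sp.subset (hI.trans hJ)).sup_subset _ (h.sp.subset hs).sup_subset
  have u3 : I.sup id ⊆ J.sup id := sup_mono' hI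
  have e2 : I.sup id ∩ (J \ I).sup id = ∅ := by ext v; grind
  have e3 : I.sup id ∪ (J \ I).sup id = J.sup id := by ext v; grind
  rw [e2, e3, h.z0] at w4
  omega

/-- type one excess -/
def y1 (p : Finset V → ℤ) (a : V) (J : Finset (Finset V)) : ℤ :=
  p (J.sup id) - 1 - wt (zeta p a) J

/-- type two excess -/
def y2 (p : Finset V → ℤ) (a : V) (J : Finset (Finset V)) : ℤ :=
  p (J.sup id)ᶜ - 1 - wt (zeta p a) J

/-- excess with the anchor -/
def y0 (p : Finset V → ℤ) (a : V) (J : Finset (Finset V)) : ℤ :=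
  zeta p a (J.sup id) - wt (zeta p a) J

theorem good_iff {I : Finset (Finset V)} : Good p a I ↔ 0 ≤ y1 p a I ∨ 0 ≤ y2 p a I := by
  unfold Good y1 y2 symmMax; omega

/-- tight parts -/
def TP (p : Finset V → ℤ) (H : Multiset (V × V)) (a b : V) (X : Finset V) : Prop :=
  ms (ends H + {a, b}) X ≤ 1 + zeta p a X

instance : DecidablePred (TP p H a b) := fun _ => by unfold TP; infer_instance

namespace R1

theorem bS (h : R1 p H a b r S) : ({b} : Finset V) ∉ S := b_notMem h.ex.sp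

theorem outS (h : R1 p H a b r S) {X : Finset V} (hX : X ∈ S) : a ∉ X ∧ b ∉ X ∧ r ∉ X := by
  have := fun v hv => mem_c3.1 (h.ex.sp.sub X hX (x := v) hv)
  exact ⟨fun hh => (this a hh).1 rfl, fun hh => (this b hh).2.1 rfl, fun hh => (this r hh).2.2 rfl⟩

theorem outU (h : R1 p H a b r S) {J : Finset (Finset V)} (hJ : J ⊆ S) :
    a ∉ J.sup id ∧ b ∉ J.sup id ∧ r ∉ J.sup id := by
  have := fun v hv => mem_c3.1 ((h.ex.sp.subset hJ).sup_subset (x := v) hv)
  exact ⟨fun hh => (this a hh).1 rfl, fun hh => (this b hh).2.1 rfl, fun hh => (this r hh).2.2 rfl⟩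

theorem exP (h : R1 p H a b r S) : EX ({a, r}ᶜ) (zeta p a) ((b, r) ::ₘ H) (insert {b} S) := by
  have hab := h.ab
  have ra := h.ra
  have rb := h.rb
  obtain ⟨h1, h2⟩ := (SubP.single (W := {a, r}ᶜ) (X := {b}) (by simp [hab.symm, rb.symm])
    (singleton_nonempty b)).union (h.ex.sp.mono (c3_sub a b r)) (fun X hX Y hY => by
      rw [mem_singleton.1 hX]; simpa using (h.outS hY).2.1) (zeta p a)
  rw [← insert_eq] at h1 h2
  refine ⟨h.toHB.zsup h.ra, h.toHB.zeta0, fun X hX hne => ?_, h1, ?_⟩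
  · have o : ∀ v ∈ X, v ≠ a ∧ v ≠ r := fun v hv => by simpa using hX hv
    by_cases hb : b ∈ X
    · have := h.top (insert a X)
      unfold rs at this
      rw [h.toHB.da] at this
      rw [dG_cons, cut_eq_one.2 (Or.inl ⟨hb, fun hh => (o r hh).2 rfl⟩)]
      unfold zeta; omega
    · have := h.ex.bd X (fun v hv => mem_c3.2 ⟨(o v hv).1, fun e => hb (e ▸ hv), (o v hv).2⟩) hne
      have := cut_nonneg (b, r) X
      rw [dG_cons]; omega
  · have := h.ex.ex
    rw [h2, val_single, h.toL1.zb, Multiset.card_cons]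
    push_cast; omega

theorem outP (h : R1 p H a b r S) {J : Finset (Finset V)} (hJ : J ⊆ insert {b} S) :
    a ∉ J.sup id ∧ r ∉ J.sup id := by
  have := fun v hv => (h.exP.sp.subset hJ).sup_subset (x := v) hv
  exact ⟨fun hh => by simpa using this a hh, fun hh => by simpa using this r hh⟩

theorem wn (h : R1 p H a b r S) {X : Finset V} (hX : X ∈ insert {b} S) : 0 ≤ zeta p a X := by
  rcases mem_insert.1 hX with rfl | hX
  exacts [h.toL1.zb.ge, h.fin.nonneg hX]

theorem wtn (h : R1 p H a b r S) {J : Finset (Finset V)} (hJ : J ⊆ insert {b} S) :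
    0 ≤ wt (zeta p a) J := sum_nonneg fun X hX => h.wn (hJ hX)

theorem node (h : R1 p H a b r S) (hv : Valid p 0 (ends H + {a, b})) :
    Node (insert {b} S) (y1 p a) (y2 p a) (y0 p a) (TP p H a b) := by
  have sp := h.exP.sp
  have ra := h.ra
  refine ⟨fun I hI J hJ hne => ?_, fun I hI J hJ hne => ?_, fun I hI J hJ hne => ?_,
    fun I hI J hJ hne => ?_, fun J hJ => ?_, fun J hJ hne => ?_, ?_, fun k hk ht => ?_,
    fun k hk ht => ?_⟩
  · obtain ⟨v, hv⟩ := sp.sup_ne (inter_subset_left.trans hI) hne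
    have i1 := sp.sup_inter hI hJ
    have := h.cs.uncp ((i1 v).1 hv).1 ((i1 v).1 hv).2 (h.outP hI).2 (h.outP hJ).2 i1
      (mem_sup_union I J)
    have := wt_modular (zeta p a) I J
    unfold y1; omega
  · obtain ⟨v, hv⟩ := sp.sup_ne (inter_subset_left.trans hI) hne
    have i1 := sp.sup_inter hI hJ
    have := h.cs.refl.uncp ((i1 v).1 hv).1 ((i1 v).1 hv).2 (h.outP hI).2 (h.outP hJ).2 i1
      (mem_sup_union I J)
    have := wt_modular (zeta p a) I J
    unfold CSG.refl at *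
    unfold y2; omega
  · obtain ⟨v, hv⟩ := sp.sup_ne (sdiff_subset.trans hI) hne
    have i1 := sp.sup_sdiff hI hJ
    have i2 := sp.sup_sdiff hJ hI
    have o1 := (h.outP hI).1
    have := h.cs.uncp (X := insert a (J.sup id)) (Y := (I.sup id)ᶜ)
      (P := insert a ((J \ I).sup id)) (Q := ((I \ J).sup id)ᶜ) (s := a) (t := v) (by simp)
      (mem_compl.2 o1) (by grind) (by rw [mem_compl]; grind)
      (by intro u; rw [mem_compl]; grind) (by intro u; simp only [mem_compl]; grind)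
    have w1 := wt_sdiff (z := zeta p a) (inter_subset_left (s₁ := I) (s₂ := J))
    have w2 := wt_sdiff (z := zeta p a) (inter_subset_right (s₁ := I) (s₂ := J))
    have w3 := h.wtn ((inter_subset_left (s₂ := J)).trans hI)
    rw [sdiff_inter_self_left] at w1
    rw [sdiff_inter_self_right] at w2
    unfold y0 y2
    simp only [zeta] at *
    omega
  · obtain ⟨v, hv⟩ := sp.sup_ne (inter_subset_left.trans hI) hne
    have i1 := sp.sup_inter hI hJ
    have i2 := mem_sup_union I J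
    have o1 := h.outP hI
    have o2 := h.outP hJ
    have := h.cs.uncp (X := I.sup id) (Y := insert a (J.sup id)) (P := (I ∩ J).sup id)
      (Q := insert a ((I ∪ J).sup id)) (s := v) (t := r) (by grind) (by grind) o1.2 (by grind)
      (by grind) (by grind)
    have := wt_modular (zeta p a) I J
    unfold y0 y1
    simp only [zeta] at *
    omega
  · have := h.exP.wt_le hJ
    unfold y0; omega
  · have := h.exP.inn_le hJ hne
    have := inn_nonneg ((b, r) ::ₘ H) (J.sup id)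
    unfold y0; omega
  · simp [y0, wt, h.toHB.zeta0]
  · have := hv.le k
    unfold TP at ht
    unfold y1
    rw [sup_singleton, wt_single, id]
    simp only [dG_zero] at this
    omega
  · have := (hv k).2
    unfold TP at ht
    unfold y2
    rw [sup_singleton, wt_single, id]
    simp only [dG_zero] at this
    omega

theorem tight (h : R1 p H a b r S) {J : Finset (Finset V)} (hJ : J ⊆ S)
    (tJ : TU (zeta p a) H J) : 0 ≤ rs p H (insert a (J.sup id)) := EX.tu_tight h.toHB h.ex hJ tJ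

theorem opp (h : R1 p H a b r S) {I J : Finset (Finset V)} (hI : I ⊆ S) (hJ : J ⊆ S)
    (tI : TU (zeta p a) H I) (tJ : TU (zeta p a) H J) {x y : V} (hA : Adj H x y)
    (h1 : x ∈ I.sup id) (h2 : x ∉ J.sup id) (h3 : y ∈ J.sup id) (h4 : y ∉ I.sup id) : False := by
  have t1 := h.tight hI tI
  have t2 := h.tight hJ tJ
  have o1 := h.outU hI
  have o2 := h.outU hJ
  have o3 := h.toHB.adj_ne hA
  have hab := h.ab
  have ra := h.ra
  generalize I.sup id = A at *
  generalize J.sup id = B at *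
  have a1 := h.cs.unc1 (X := insert a A) (Y := insert a B) (P := insert a (A ∩ B))
    (Q := insert a (A ∪ B)) (s := a) (t := b) (by simp) (by simp) (by grind) (by grind) hA
    (by grind) (by grind) (by grind) (by grind) (by grind) (by grind)
  have a2 := h.toHB.le_a (X := insert a (A ∪ B)) (x := x) (y := r) (by simp) (by grind)
    (by grind) (by grind) (by grind) h.rb
  have := h.top (insert a (A ∩ B))
  omega

end R1

/-- the largest set of residual demand one that contains both anchors -/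
structure KMax (p : Finset V → ℤ) (H : Multiset (V × V)) (a b : V) (K : Finset V) : Prop where
  ka : a ∈ K
  kb : b ∈ K
  kf : 1 ≤ rs p H K
  mx : ∀ X, a ∈ X → b ∈ X → 1 ≤ rs p H X → X ⊆ K

theorem L1.rs_ab (h : L1 p H a b r) : rs p H {a, b} = 1 := by
  unfold rs; rw [h.pab, h.toHB.d_sab]; rfl

theorem L1.exists_K (h : L1 p H a b r) : ∃ K, KMax p H a b K := by
  obtain ⟨K, hK, hm⟩ := exists_max_image
    (univ.filter (fun X : Finset V => a ∈ X ∧ b ∈ X ∧ 1 ≤ rs p H X)) card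
    ⟨{a, b}, by simp [h.rs_ab]⟩
  simp only [mem_filter, mem_univ, true_and] at hK hm
  refine ⟨K, hK.1, hK.2.1, hK.2.2, fun X h1 h2 h3 => ?_⟩
  have r1 : r ∉ K := fun hh => by have := h.rK K hK.1 hK.2.1 hh; omega
  have r2 : r ∉ X := fun hh => by have := h.rK X h1 h2 hh; omega
  have a1 := h.cs.rs_super H hK.1 h1 r1 r2
  have a2 := h.top (K ∩ X)
  have a3 := eq_of_subset_of_card_le subset_union_left
    (hm (K ∪ X) ⟨mem_union_left _ hK.1, mem_union_left _ hK.2.1, by omega⟩)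
  exact a3 ▸ subset_union_right

theorem Free.in_ab {e : V × V} {c d : V} (hf : Free p H a b e) (he : IsE e c d) {X : Finset V}
    (ha : a ∈ X) (hb : b ∈ X) (h : c ∈ X ∨ d ∈ X) : rs p H X ≤ 0 := by
  refine hf.1 X ha hb ?_
  rcases he with rfl | rfl
  exacts [h, h.symm]

theorem Free.out_ab {e : V × V} {c d : V} (hf : Free p H a b e) (he : IsE e c d) {X : Finset V}
    (ha : a ∉ X) (hb : b ∉ X) (h : c ∉ X ∨ d ∉ X) : rs p H X ≤ 0 := by
  refine hf.2 X ha hb ?_
  rcases he with rfl | rfl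
  exacts [h, h.symm]

theorem R1.k1 (h : R1 p H a b r S) {K : Finset V} (hK : KMax p H a b K) {J : Finset (Finset V)}
    (hJ : J ⊆ S) (tJ : TU (zeta p a) H J) {v : V} (hv : v ∈ J.sup id) (hv' : v ∈ K) :
    J.sup id ⊆ K := by
  have t1 := h.tight hJ tJ
  have o1 := h.outU hJ
  have ka := hK.ka
  have kf := hK.kf
  have ra := h.ra
  have hab := h.ab
  have r1 : r ∉ K := fun hh => by have := h.rK K hK.ka hK.kb hh; omega
  generalize J.sup id = A at *
  have a1 := h.cs.unc H (X := insert a A) (Y := K) (P := insert a (A ∩ K)) (Q := A ∪ K) (s := a)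
    (t := r) (by simp) ka (by grind) r1 (by grind) (by grind)
  have a2 := h.toHB.le_a (X := insert a (A ∩ K)) (x := v) (y := r) (by simp) (by grind)
    (by grind) (by grind) (by grind) h.rb
  exact subset_union_left.trans (hK.mx (A ∪ K) (mem_union_right _ ka) (mem_union_right _ hK.kb)
    (by omega))

theorem R1.k2 (h : R1 p H a b r S) {K : Finset V} (hK : KMax p H a b K) {J : Finset (Finset V)}
    (hJ : J ⊆ S) (tJ : TU (zeta p a) H J) {x y : V} (hA : Adj H x y) (h1 : x ∈ J.sup id)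
    (h2 : x ∉ K) (h3 : y ∈ K) (h4 : y ∉ J.sup id) : False := by
  have t1 := h.tight hJ tJ
  have o1 := h.outU hJ
  have o3 := h.toHB.adj_ne hA
  have ka := hK.ka
  have kf := hK.kf
  have ra := h.ra
  have r1 : r ∉ K := fun hh => by have := h.rK K hK.ka hK.kb hh; omega
  generalize J.sup id = A at *
  have a1 := h.cs.unc1 (X := insert a A) (Y := K) (P := insert a (A ∩ K)) (Q := A ∪ K) (s := a)
    (t := r) (by simp) ka (by grind) r1 hA (by grind) h2 h3 (by grind) (by grind) (by grind)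
  have := h.top (insert a (A ∩ K))
  have := h.top (A ∪ K)
  omega

/-- the structure when only one edge is free -/
structure NF (p : Finset V → ℤ) (H : Multiset (V × V)) (a b : V) (S : Finset (Finset V))
    (e : V × V) (c d : V) (D : Finset (Finset V)) (K : Finset V) : Prop
    extends KMax p H a b K where
  he : IsE e c d
  free : Free p H a b e
  DS : D ⊆ S
  tD : TU (zeta p a) H D
  cD : c ∈ D.sup id
  dS : d ∉ S.sup id
  rest : ∀ X ∈ S, X ∉ D → X ⊆ K
  disj : ∀ v ∈ D.sup id, v ∉ K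

theorem dG_mono_cut {G : Multiset (V × V)} {A B : Finset V} (h : ∀ g ∈ G, cut g A ≤ cut g B) :
    dG G A ≤ dG G B := Multiset.sum_map_le_sum_map _ _ h

theorem R1.nf (h : R1 p H a b r S) {e : V × V} {G : Multiset (V × V)} (hH : H = e ::ₘ G)
    (hf : Free p H a b e) (hn : ∀ g ∈ G, ¬ Free p H a b g) :
    ∃ c d D K, NF p H a b S e c d D K := by
  classical
  have he : e ∈ H := hH ▸ Multiset.mem_cons_self _ _
  obtain ⟨K, hK⟩ := h.toL1.exists_K
  obtain ⟨C, hC, tC, cC⟩ := h.ex.tu_edge he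
  obtain ⟨c, d, hc, hd, hA, hE⟩ := adj_of_cut he cC
  have hE' : IsE e c d := hE
  obtain ⟨D, hD, hmax⟩ := exists_max_image (S.powerset.filter
    (fun J => TU (zeta p a) H J ∧ c ∈ J.sup id ∧ d ∉ J.sup id)) card
    ⟨C, mem_filter.2 ⟨mem_powerset.2 hC, tC, hc, hd⟩⟩
  simp only [mem_filter, mem_powerset] at hD hmax
  obtain ⟨hDS, tD, cD, dD⟩ := hD
  have cK : c ∉ K := fun hh => by
    have := hf.in_ab hE' hK.ka hK.kb (Or.inl hh); have := hK.kf; omega
  have dK : d ∉ K := fun hh => by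
    have := hf.in_ab hE' hK.ka hK.kb (Or.inr hh); have := hK.kf; omega
  have k3 : ∀ Y, a ∉ Y → b ∉ Y → 1 ≤ rs p H Y → ∀ v, v ≠ b → v ≠ a → v ∉ Y → v ∈ D.sup id := by
    intro Y h1 h2 h3 v hv hva hvY
    have cY : c ∈ Y := by
      by_contra hh; have := hf.out_ab hE' h1 h2 (Or.inl hh); omega
    have t1 := h.tight hDS tD
    have o1 := h.outU hDS
    have o2 := h.toHB.adj_ne hA
    have hab := h.ab
    clear hmax hn
    generalize D.sup id = A at *
    have a1 := h.cs.unc H (X := Y) (Y := insert a A) (P := Y ∩ A) (Q := insert a (Y ∪ A)) (s := c)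
      (t := b) cY (by grind) h2 (by grind) (by grind) (by grind)
    have a2 := hf.out_ab hE' (X := Y ∩ A) (by grind) (by grind) (by grind)
    by_contra hh
    have := h.toHB.le_a (X := insert a (Y ∪ A)) (x := c) (y := v) (by simp) (by grind) (by grind)
      (by grind) (by grind) hv
    omega
  have touch : ∀ x y, Adj H x y → x ∈ K ∨ y ∈ K ∨ x ∈ D.sup id ∨ y ∈ D.sup id := by
    intro x y hxy
    obtain ⟨g, hg, hgE⟩ := hxy.isE
    obtain ⟨xa, xb, ya, yb⟩ := h.toHB.adj_ne hxy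
    rw [hH] at hg
    rcases Multiset.mem_cons.1 hg with rfl | hg
    · rcases hgE with rfl | rfl <;> rcases hE' with e1 | e1 <;> simp only [Prod.mk.injEq] at e1 <;>
        obtain ⟨rfl, rfl⟩ := e1 <;> tauto
    · by_contra hc
      simp only [not_or] at hc
      obtain ⟨c1, c2, c3, c4⟩ := hc
      refine hn g hg ⟨fun X h1 h2 h3 => ?_, fun X h1 h2 h3 => ?_⟩
      · by_contra hh
        have := hK.mx X h1 h2 (by omega)
        rcases hgE with rfl | rfl <;> rcases h3 with h3 | h3 <;>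
          first | exact c1 (this h3) | exact c2 (this h3)
      · by_contra hh
        have := k3 X h1 h2 (by omega)
        rcases hgE with rfl | rfl <;> rcases h3 with h3 | h3 <;>
          first | exact c3 (this x xb xa h3) | exact c4 (this y yb ya h3)
  have rest : ∀ X ∈ S, X ∉ D → X ⊆ K := by
    intro X hX hXD
    obtain ⟨T, hT, hXT, tT⟩ := h.ex.tu_part hX
    by_contra hc
    have TK : ∀ v ∈ T.sup id, v ∉ K := fun v h1 h2 =>
      hc ((part_subset_sup hXT).trans (h.k1 hK hT tT h1 h2))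
    by_cases hi : (T ∩ D).Nonempty
    · have tU := (h.ex.tu_cross hT hDS tT tD hi).2
      have hU : T ∪ D ⊆ S := union_subset hT hDS
      have sD : D.sup id ⊆ (T ∪ D).sup id := sup_mono' subset_union_right
      have dU : d ∈ (T ∪ D).sup id := by
        by_contra hh
        have := eq_of_subset_of_card_le subset_union_right (hmax _ ⟨hU, tU, sD cD, hh⟩)
        exact hXD (this ▸ mem_union_left _ hXT)
      have UK : ∀ v ∈ (T ∪ D).sup id, v ∉ K := fun v h1 h2 => cK (h.k1 hK hU tU h1 h2 (sD cD))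
      have a1 : dG G ((T ∪ D).sup id) ≤ dG G (D.sup id) := dG_mono_cut fun g hg => by
        rcases cut_zero_or_one g ((T ∪ D).sup id) with h0 | h0
        · rw [h0]; exact cut_nonneg _ _
        · obtain ⟨x, y, hx, hy, hxy, hgE⟩ :=
            adj_of_cut (hH ▸ Multiset.mem_cons_of_mem hg : g ∈ H) h0
          have yD : y ∉ D.sup id := fun hh => hy (sD hh)
          have xD : x ∈ D.sup id := by
            rcases touch x y hxy with t | t | t | t
            · exact absurd t (UK x hx)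
            · exact (h.k2 hK hU tU hxy hx (UK x hx) t hy).elim
            · exact t
            · exact absurd t yD
          rw [h0, IsE.cut hgE, cut_eq_one.2 (Or.inl ⟨xD, yD⟩)]
      have a2 := h.ex.one_le hU tU.1
      have a3 := tD.2
      have a4 := wt_sdiff (z := zeta p a) (subset_union_right (s₁ := T) (s₂ := D))
      have a5 := h.wtn ((sdiff_subset (s := T ∪ D) (t := D)).trans (hU.trans (subset_insert _ _)))
      have c1 : cut e (D.sup id) = 1 := by rw [hE'.cut]; exact cut_eq_one.2 (Or.inl ⟨cD, dD⟩)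
      have c2 : cut e ((T ∪ D).sup id) = 0 := by
        rw [hE'.cut]; exact cut_eq_zero.2 ⟨fun _ => dU, fun _ => sD cD⟩
      rw [hH, dG_cons] at a2 a3
      omega
    · have hdis := disjoint_left.1 (h.ex.sp.disj_sup hT hDS
        (disjoint_iff_inter_eq_empty.2 (not_nonempty_iff_eq_empty.1 hi)))
      have a1 := h.ex.one_le hT tT.1
      have a2 := h.wtn (hT.trans (subset_insert _ _))
      obtain ⟨g, hg, hc⟩ := exists_cut_of_pos (G := H) (X := T.sup id) (by omega)
      obtain ⟨x, y, hx, hy, hxy, _⟩ := adj_of_cut hg hc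
      rcases touch x y hxy with t | t | t | t
      · exact TK x hx t
      · exact h.k2 hK hT tT hxy hx (TK x hx) t hy
      · exact hdis hx t
      · exact h.opp hT hDS tT tD hxy hx (hdis hx) t hy
  refine ⟨c, d, D, K, hK, hE', hf, hDS, tD, cD, fun hh => ?_, rest,
    fun v h1 h2 => cK (h.k1 hK hDS tD h1 h2 cD)⟩
  obtain ⟨X, hX, hdX⟩ := mem_sup_id.1 hh
  exact dK (rest X hX (fun hXD => dD (mem_sup_id.2 ⟨X, hXD, hdX⟩)) hdX)

/-- adding the tight union of the free edge does not repair a bad family -/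
theorem R1.ctrick (h : R1 p H a b r S) (hv : Valid p 0 (ends H + {a, b})) {e : V × V} {c d : V}
    {D : Finset (Finset V)} {K : Finset V} (n : NF p H a b S e c d D K) (he : e ∈ H)
    {I : Finset (Finset V)} (hI : I ⊆ insert {b} S) (hne : I.Nonempty) :
    y1 p a (I ∪ D) ≤ y1 p a I := by
  have hD : D ⊆ insert {b} S := n.DS.trans (subset_insert _ _)
  have hU : I ∪ D ⊆ insert {b} S := union_subset hI hD
  have a1 := (h.node hv).s3 (I ∪ D) hU I hI (by rwa [union_inter_cancel_left])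
  rw [union_inter_cancel_left, union_eq_left.2 subset_union_left] at a1
  have a2 := h.exP.z_mono (sdiff_subset (s := I) (t := D)) hI
  have a3 := wt_sdiff (z := zeta p a) (subset_union_right (s₁ := I) (s₂ := D))
  rw [union_sdiff_right] at a3
  have i1 := h.exP.sp.sup_sdiff hI hD
  have i2 := mem_sup_union I D
  have sK : ∀ v ∈ (I \ D).sup id, v ∈ K := fun v hv => by
    obtain ⟨X, hX, hv⟩ := mem_sup_id.1 hv
    rcases mem_insert.1 (hI (mem_sdiff.1 hX).1) with rfl | hh
    · rw [mem_singleton.1 hv]; exact n.kb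
    · exact n.rest X hh (mem_sdiff.1 hX).2 hv
  obtain ⟨ca, cb, da, db⟩ := h.toHB.adj_ne (n.he.adj he)
  have dU : d ∉ (I ∪ D).sup id := fun hh => by
    obtain ⟨X, hX, hv⟩ := mem_sup_id.1 hh
    rcases mem_insert.1 (hU hX) with rfl | hh
    · exact db (mem_singleton.1 hv)
    · exact n.dS (mem_sup_id.2 ⟨X, hh, hv⟩)
  have dK : d ∉ K := fun hh => by
    have := n.free.in_ab n.he n.ka n.kb (Or.inr hh); have := n.kf; omega
  have a4 := n.tD.2
  have a5 := dG_submod H ((I \ D).sup id) (D.sup id)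
  have a6 := dG_nonneg H ((I \ D).sup id ∩ D.sup id)
  have ka := n.ka
  have kb := n.kb
  have kf := n.kf
  have cD := n.cD
  have dj := n.disj
  unfold y0 at a1
  generalize (I \ D).sup id = A at *
  generalize (I ∪ D).sup id = B at *
  generalize D.sup id = C at *
  generalize I.sup id = E at *
  have e1 : A ∪ C = B := by ext v; grind
  rw [e1] at a5
  have a7 := h.cs.unc H (X := insert a B) (Y := K) (P := insert a A) (Q := B ∪ K) (s := a)
    (t := d) (by simp) ka (by grind) dK (by grind) (by grind)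
  have a8 := n.free.in_ab n.he (X := B ∪ K) (by grind) (by grind) (by grind)
  have z1 : rs p H (insert a B) = zeta p a B + 1 - dG H B := by
    unfold rs zeta; rw [h.toHB.da]; ring
  have z2 : rs p H (insert a A) = zeta p a A + 1 - dG H A := by
    unfold rs zeta; rw [h.toHB.da]; ring
  omega

end Pool.Agent.CSG

end
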