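import Pool.Agent.MP_305420_co.Mg.LGOne
import Pool.Agent.MP_305420_co.Mg.AncBase
import Pool.Agent.MP_305420_co.TSat

-- part MP_305420_co.LGMax
section

/-! First mode of the light case: a maximal bad family, counting and the star case. -/

set_option linter.unusedSectionVars false
set_option linter.unusedVariables false

namespace Pool.Agent.CSG

open Finset

variable {V : Type*} [Fintype V] [DecidableEq V]
variable {p : Finset V → ℤ} {H : Multiset (V × V)} {a b r : V} {S : Finset (Finset V)}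

/-- a maximal bad family -/
structure MB (p : Finset V → ℤ) (H : Multiset (V × V)) (a b r : V) (S : Finset (Finset V))
    (e : V × V) (G : Multiset (V × V)) (I : Finset (Finset V)) : Prop
    extends R1 p H a b r S where
  hH : H = e ::ₘ G
  free : Free p H a b e
  IS : I ⊆ insert {b} S
  ne : I.Nonempty
  b1 : y1 p a I < 0
  b2 : y2 p a I < 0
  mx : ∀ J, I ⊆ J → J ⊆ insert {b} S → y1 p a J < 0 → J = I

/-- the part meets a deletable edge -/
def Act (p : Finset V → ℤ) (H : Multiset (V × V)) (a b : V) (X : Finset V) : Prop :=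
  ∃ g x y, Del p H a b g ∧ IsE g x y ∧ x ∈ X

/-- surplus of mass of a part -/
def sur (p : Finset V → ℤ) (H : Multiset (V × V)) (a b : V) (X : Finset V) : ℤ :=
  ms (ends H + {a, b}) X - 1 - zeta p a X

/-- an inactive part -/
structure NI (p : Finset V → ℤ) (H : Multiset (V × V)) (a b : V) (S : Finset (Finset V))
    (e : V × V) (c d : V) (C K : Finset V) : Prop extends KMax p H a b K where
  he : IsE e c d
  CS : C ∈ S
  cC : c ∈ C
  dS : d ∉ S.sup id
  d1 : dG H C = 1
  z0 : zeta p a C = 0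
  rest : ∀ Y ∈ S, Y ≠ C → Y ⊆ K ∧ Act p H a b Y
  disj : ∀ v ∈ C, v ∉ K

theorem card_le_ms_touch {G : Multiset (V × V)} {X : Finset V}
    (h : ∀ g ∈ G, g.1 ∈ X ∨ g.2 ∈ X) : (Multiset.card G : ℤ) ≤ ms (ends G) X := by
  induction G using Multiset.induction_on with
  | empty => simp
  | cons e G ih =>
    have h1 := ih (fun g hg => h g (Multiset.mem_cons_of_mem hg))
    have i1 := ind_nonneg e.1 X
    have i2 := ind_nonneg e.2 X
    rw [ends_cons, ms_cons, ms_cons, Multiset.card_cons]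
    push_cast
    rcases h e (Multiset.mem_cons_self _ _) with h2 | h2 <;> rw [ind_of_mem h2] <;> omega

theorem dG_eq_card {G : Multiset (V × V)} {X : Finset V} (h : ∀ g ∈ G, cut g X = 1) :
    dG G X = Multiset.card G := by
  induction G using Multiset.induction_on with
  | empty => simp
  | cons e G ih =>
    rw [dG_cons, ih (fun g hg => h g (Multiset.mem_cons_of_mem hg)), h e
      (Multiset.mem_cons_self _ _), Multiset.card_cons]
    push_cast; ring

theorem Del.mem {g : V × V} (h : Del p H a b g) : g ∈ H := by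
  obtain ⟨K, rfl, _⟩ := h; exact Multiset.mem_cons_self _ _

theorem R1.miss' (h : R1 p H a b r S) {g : V × V} {x y : V} (hd : Del p H a b g) (hE : IsE g x y)
    {J : Finset (Finset V)} (hJ : J ⊆ insert {b} S) (hne : J.Nonempty) (hx : x ∉ J.sup id)
    (hy : y ∉ J.sup id) : Good p a J :=
  h.ih g hd J hJ hne (by rw [hE.cut, cut_eq_zero]; exact ⟨fun hh => absurd hh hx,
    fun hh => absurd hh hy⟩)

theorem R1.ms_part (h : R1 p H a b r S) {X : Finset V} (hX : X ∈ S) :
    ms (ends H + {a, b}) X = dG H X := by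
  obtain ⟨o1, o2, _⟩ := h.outS hX
  rw [ms_add, ms_pair, ind_of_notMem o1, ind_of_notMem o2, ms_eq_inn, h.ex.inn_part hX]; ring

theorem HB.ms_b (h : HB p H a b) : ms (ends H + {a, b}) {b} = 1 := by
  have h1 := h.swap.d_sa
  have h2 : inn H {b} = 0 := by
    unfold inn
    refine Multiset.sum_eq_zero fun t ht => ?_
    obtain ⟨g, hg, rfl⟩ := Multiset.mem_map.1 ht
    rw [ind_of_notMem (X := {b}) (by simpa using (h.off g hg).2.2.1)]; simp
  rw [ms_add, ms_pair, ms_eq_inn, h1, h2, ind_of_notMem (by simpa using h.ab),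
    ind_of_mem (mem_singleton_self b)]
  rfl

theorem HB.ms_a (h : HB p H a b) : ms (ends H + {a, b}) {a} = 1 := by
  have := h.swap.ms_b
  rwa [show ({b, a} : Multiset V) = {a, b} from Multiset.cons_swap _ _ _] at this

theorem R1.sur_b (h : R1 p H a b r S) : sur p H a b {b} = 0 := by
  unfold sur; rw [h.toHB.ms_b, h.toL1.zb]; rfl

theorem R1.sur_S (h : R1 p H a b r S) {X : Finset V} (hX : X ∈ S) :
    sur p H a b X = dG H X - 1 - zeta p a X := by
  unfold sur; rw [h.ms_part hX]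

theorem R1.sur_nonneg (h : R1 p H a b r S) {X : Finset V} (hX : X ∈ insert {b} S) :
    0 ≤ sur p H a b X := by
  rcases mem_insert.1 hX with rfl | hX
  · exact h.sur_b.ge
  · have := h.ex.bd X (h.ex.sp.sub X hX) (h.ex.sp.ne X hX)
    rw [h.sur_S hX]; omega

theorem R1.good_b (h : R1 p H a b r S) : Good p a {{b}} := by
  unfold Good
  rw [wt_single, h.toL1.zb, sup_singleton, id]
  have := le_symmMax p {b}
  have := h.pb
  omega

theorem R1.ms_root (h : R1 p H a b r S) :
    ms (ends H + {a, b}) (insert a ((insert {b} S).sup id))ᶜ + wt (sur p H a b) (insert {b} S) + 1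
      = (insert {b} S).card + wt (zeta p a) (insert {b} S) := by
  have h1 := ms_compl (ends H + {a, b}) (insert a ((insert {b} S).sup id))
  have h2 := h.exP.val_eq
  have h3 := ms_sup (ends H + {a, b}) h.exP.sp
  have h4 : ∑ X ∈ insert {b} S, ms (ends H + {a, b}) X = (insert {b} S).card +
      wt (zeta p a) (insert {b} S) + wt (sur p H a b) (insert {b} S) := by
    unfold wt sur
    rw [card_eq_sum_ones, Nat.cast_sum, ← sum_add_distrib, ← sum_add_distrib]
    exact sum_congr rfl fun X _ => by push_cast; ring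
  rw [insert_eq a, ms_union_disj _ (disjoint_singleton_left.2 (h.outP subset_rfl).1),
    h.toHB.ms_a, Multiset.card_add, card_ends] at h1
  rw [val_eq_wt, Multiset.card_cons] at h2
  rw [insert_eq a]
  have h5 : Multiset.card ({a, b} : Multiset V) = 2 := rfl
  rw [h5] at h1
  push_cast at h1 h2
  omega

namespace MB

variable {e : V × V} {G : Multiset (V × V)} {I : Finset (Finset V)}

theorem eH (h : MB p H a b r S e G I) : e ∈ H := h.hH ▸ Multiset.mem_cons_self _ _

theorem valid (h : MB p H a b r S e G I) : Valid p 0 (ends H + {a, b}) :=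
  h.toHB.valid h.eH h.free

theorem nd (h : MB p H a b r S e G I) :
    Node (insert {b} S) (y1 p a) (y2 p a) (y0 p a) (TP p H a b) := h.toR1.node h.valid

theorem bad (h : MB p H a b r S e G I) : ¬ Good p a I := by
  have := h.b1; have := h.b2
  rw [good_iff]; omega

theorem delG (h : MB p H a b r S e G I) {g : V × V} (hg : g ∈ G) : Del p H a b g := by
  obtain ⟨K, hK⟩ := Multiset.exists_cons_of_mem hg
  exact ⟨e ::ₘ K, by rw [h.hH, hK, Multiset.cons_swap], e, Multiset.mem_cons_self _ _, h.free⟩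

theorem notMem_I (h : MB p H a b r S e G I) {J : Finset (Finset V)} (hJ : J ⊆ insert {b} S)
    {v : V} (hv : v ∉ S.sup id) (hb : v ≠ b) : v ∉ J.sup id := fun hh => by
  obtain ⟨X, hX, hvX⟩ := mem_sup_id.1 hh
  rcases mem_insert.1 (hJ hX) with rfl | hh
  · exact hb (mem_singleton.1 hvX)
  · exact hv (mem_sup_id.2 ⟨X, hh, hvX⟩)

theorem cross (h : MB p H a b r S e G I) : ∀ g ∈ H, cut g (I.sup id) = 1 := by
  have key : ∀ g, Del p H a b g → cut g (I.sup id) = 1 := fun g hg =>
    (cut_zero_or_one _ _).resolve_left fun hc => h.bad (h.ih g hg I h.IS h.ne hc)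
  intro g hg
  rw [h.hH] at hg
  rcases Multiset.mem_cons.1 hg with rfl | hg
  swap
  · exact key g (h.delG hg)
  by_cases hf : ∃ g' ∈ G, Free p H a b g'
  · exact key g ⟨G, h.hH, hf⟩
  push Not at hf
  obtain ⟨c, d, D, K, n⟩ := h.toR1.nf h.hH h.free hf
  have a1 := h.toR1.ctrick h.valid n h.eH h.IS h.ne
  have a2 := h.mx (I ∪ D) subset_union_left
    (union_subset h.IS (n.DS.trans (subset_insert _ _))) (by have := h.b1; omega)
  have a3 : D.sup id ⊆ I.sup id := sup_mono' (a2 ▸ subset_union_right)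
  rw [n.he.cut, cut_eq_one]
  exact Or.inl ⟨a3 n.cD, h.notMem_I h.IS n.dS (h.toHB.adj_ne (n.he.adj h.eH)).2.2.2⟩

theorem other (h : MB p H a b r S e G I) {g : V × V} {x y : V} (hg : g ∈ H) (hE : IsE g x y)
    (hx : x ∈ I.sup id) : y ∉ I.sup id := by
  have := h.cross g hg
  rw [hE.cut, cut_eq_one] at this
  tauto

theorem miss (h : MB p H a b r S e G I) {X : Finset V} (hX : X ∈ I) (hA : Act p H a b X)
    {J : Finset (Finset V)} (hJ : J ⊆ insert {b} I) (hne : J.Nonempty) (hXJ : X ∉ J) :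
    Good p a J := by
  obtain ⟨g, x, y, hd, hE, hx⟩ := hA
  have hJ' : J ⊆ insert {b} S := hJ.trans (insert_subset (mem_insert_self _ _) h.IS)
  refine h.toR1.miss' hd hE hJ' hne
    (fun hh => hXJ ((h.toR1.exP.sp.mem_sup_iff hJ' (h.IS hX) hx).1 hh)) (fun hh => ?_)
  obtain ⟨Y, hY, hy⟩ := mem_sup_id.1 hh
  rcases mem_insert.1 (hJ hY) with rfl | hY
  · exact (h.toHB.adj_ne (hE.adj hd.mem)).2.2.2 (mem_singleton.1 hy)
  · exact h.other hd.mem hE (mem_sup_id.2 ⟨X, hX, hx⟩) (mem_sup_id.2 ⟨Y, hY, hy⟩)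

theorem edge_at (h : MB p H a b r S e G I) {X : Finset V} (hX : X ∈ S) :
    ∃ g ∈ H, ∃ u v, IsE g u v ∧ u ∈ X ∧ v ∉ X := by
  have a1 := h.ex.bd X (h.ex.sp.sub X hX) (h.ex.sp.ne X hX)
  have a2 := h.fin.nonneg hX
  obtain ⟨g, hg, hc⟩ := exists_cut_of_pos (G := H) (X := X) (by omega)
  obtain ⟨x, y, hx, hy, _, hE⟩ := adj_of_cut hg hc
  exact ⟨g, hg, x, y, hE, hx, hy⟩

theorem inactive (h : MB p H a b r S e G I) {C : Finset V} (hC : C ∈ S) (hn : ¬ Act p H a b C) :
    ∃ c d K, NI p H a b S e c d C K := by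
  have noG : ∀ g ∈ G, g.1 ∉ C ∧ g.2 ∉ C := fun g hg =>
    ⟨fun hh => hn ⟨g, g.1, g.2, h.delG hg, Or.inl rfl, hh⟩,
      fun hh => hn ⟨g, g.2, g.1, h.delG hg, Or.inr rfl, hh⟩⟩
  obtain ⟨g, hg, u, v, hE, hu, hv⟩ := h.edge_at hC
  have ge : g = e := by
    rw [h.hH] at hg
    refine (Multiset.mem_cons.1 hg).resolve_right fun hh => ?_
    rcases hE with rfl | rfl
    exacts [(noG _ hh).1 hu, (noG _ hh).2 hu]
  subst ge
  obtain ⟨c, d, D, K, n⟩ := h.toR1.nf h.hH h.free
    (fun g' hg' hf => hn ⟨g, u, v, ⟨G, h.hH, g', hg', hf⟩, hE, hu⟩)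
  have dC : ∀ Y ∈ S, d ∉ Y := fun Y hY hh => n.dS (mem_sup_id.2 ⟨Y, hY, hh⟩)
  have cC : c ∈ C := by
    have := dC C hC
    rcases hE with rfl | rfl <;> rcases n.he with e1 | e1 <;> simp only [Prod.mk.injEq] at e1 <;>
      obtain ⟨rfl, rfl⟩ := e1 <;> tauto
  have d0 : dG G C = 0 := dG_eq_zero fun g' hg' => by
    rw [cut_eq_zero]; have := noG g' hg'; tauto
  have d1 : dG H C = 1 := by
    rw [h.hH, dG_cons, d0, n.he.cut, cut_eq_one.2 (Or.inl ⟨cC, dC C hC⟩)]; rfl
  have a1 := h.ex.bd C (h.ex.sp.sub C hC) (h.ex.sp.ne C hC)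
  have a2 := h.fin.nonneg hC
  have CD : C ∈ D := (h.ex.sp.mem_sup_iff n.DS hC cC).1 n.cD
  have hD : ∀ Y ∈ D, Y = C := by
    by_contra hc
    push Not at hc
    obtain ⟨Y, hY, hne⟩ := hc
    have hE' : D.erase C ⊆ S := (erase_subset _ _).trans n.DS
    have b1 := h.ex.one_le hE' ⟨Y, mem_erase.2 ⟨hne, hY⟩⟩
    have b2 := n.tD.2
    have dE : d ∉ (D.erase C).sup id := fun hh => n.dS (sup_mono' hE' hh)
    have hdis : Disjoint C ((D.erase C).sup id) := by
      have := h.ex.sp.disj_sup (singleton_subset_iff.2 hC) hE'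
        (disjoint_singleton_left.2 (notMem_erase _ _))
      simpa using this
    have b3 := dG_modular (G := H) (X := C) (Y := (D.erase C).sup id) (by
      intro g' hg' hs
      rw [h.hH] at hg'
      rcases Multiset.mem_cons.1 hg' with rfl | hg'
      · have := dC C hC
        unfold sepE at hs
        rcases n.he with e1 | e1 <;> rw [e1] at hs <;> tauto
      · have := noG g' hg'
        unfold sepE at hs
        tauto)
    rw [← insert_erase CD, wt_insert (notMem_erase _ _), sup_insert] at b2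
    rw [disjoint_iff_inter_eq_empty.1 hdis, dG_empty] at b3
    simp only [id, sup_eq_union] at b2
    omega
  refine ⟨c, d, K, n.toKMax, n.he, hC, cC, n.dS, d1, by omega, fun Y hY hne =>
    ⟨n.rest Y hY (fun hh => hne (hD Y hh)), ?_⟩, fun v hv => n.disj v (part_subset_sup CD hv)⟩
  obtain ⟨g', hg', x, y, hE', hx, _⟩ := h.edge_at hY
  rw [h.hH] at hg'
  rcases Multiset.mem_cons.1 hg' with rfl | hg'
  · exfalso
    have := dC Y hY
    have : c ∉ Y := fun hh => hne (h.ex.sp.eq_of_mem hY hC hh cC)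
    rcases hE' with rfl | rfl <;> rcases n.he with e1 | e1 <;> simp only [Prod.mk.injEq] at e1 <;>
      obtain ⟨rfl, rfl⟩ := e1 <;> tauto
  · exact ⟨g', x, y, h.delG hg', hE', hx⟩

theorem grow (h : MB p H a b r S e G I) {J : Finset (Finset V)} (h1 : I ⊆ J)
    (h2 : J ⊆ insert {b} S) :
    y0 p a J + (insert {b} S).card ≤ y0 p a (insert {b} S) + J.card := by
  have a1 := h.nd.delta_grow h.ne h1 h2 (insert {b} S \ J) sdiff_subset disjoint_sdiff
    (fun j hj => by
      rw [mem_sdiff] at hj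
      by_contra hc
      have := h.mx (insert j I) (subset_insert _ _) (insert_subset hj.1 h.IS)
        (by have := h.b1; omega)
      exact hj.2 (h1 (this ▸ mem_insert_self _ _)))
  rw [union_sdiff_of_subset h2] at a1
  have := card_sdiff_add_card_eq_card h2
  omega

theorem top_le (h : MB p H a b r S e G I) :
    y0 p a (insert {b} S) + wt (sur p H a b) (insert {b} S) + 2 ≤ (insert {b} S).card := by
  have a1 := h.toR1.ms_root
  have a2 := h.valid.le_compl (insert a ((insert {b} S).sup id))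
  simp only [dG_zero] at a2
  unfold y0
  simp only [zeta] at *
  omega

theorem sur_split (h : MB p H a b r S e G I) : wt (sur p H a b) (insert {b} S \ I) +
    wt (sur p H a b) I = wt (sur p H a b) (insert {b} S) := wt_sdiff h.IS

theorem surn (h : MB p H a b r S e G I) {J : Finset (Finset V)} (hJ : J ⊆ insert {b} S) :
    0 ≤ wt (sur p H a b) J := sum_nonneg fun X hX => h.toR1.sur_nonneg (hJ hX)

theorem sigma (h : MB p H a b r S e G I) :
    y0 p a I + wt (sur p H a b) (insert {b} S) + 2 ≤ I.card := by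
  have := h.grow subset_rfl h.IS
  have := h.top_le
  omega

theorem many_tight (h : MB p H a b r S e G I) :
    y0 p a I + 2 ≤ ((I.filter (TP p H a b)).card : ℤ) := by
  have a1 := h.sigma
  have a2 := h.sur_split
  have a3 := h.surn (sdiff_subset (t := I))
  have a4 : (I.card : ℤ) ≤ (I.filter (TP p H a b)).card + wt (sur p H a b) I := by
    unfold wt
    rw [card_eq_sum_ones, card_filter, Nat.cast_sum, Nat.cast_sum, ← sum_add_distrib]
    refine sum_le_sum fun X hX => ?_
    have := h.toR1.sur_nonneg (h.IS hX)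
    split_ifs with hh
    · push_cast; omega
    · unfold TP at hh; unfold sur at *; push_cast; omega
  omega

theorem JS (h : MB p H a b r S e G I) : I.erase {b} ⊆ S := fun X hX =>
  (mem_insert.1 (h.IS (mem_of_mem_erase hX))).resolve_left (ne_of_mem_erase hX)

theorem dJ (h : MB p H a b r S e G I) : dG H ((I.erase {b}).sup id) = Multiset.card H := by
  rw [← dG_eq_card h.cross]
  by_cases hb : ({b} : Finset V) ∈ I
  · conv_rhs => rw [← insert_erase hb, sup_insert]
    rw [id, sup_eq_union, ← insert_eq, h.toHB.db]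
  · rw [erase_eq_of_notMem hb]

theorem rb_le (h : MB p H a b r S e G I) :
    ((S \ I.erase {b}).card : ℤ) ≤ wt (sur p H a b) I := by
  have a1 := h.dJ
  have a2 := dG_le_ms H ((I.erase {b}).sup id)
  have a3 := ms_sup (ends H) (h.ex.sp.subset h.JS)
  have a4 : ∑ X ∈ I.erase {b}, ms (ends H) X ≤ (I.erase {b}).card + wt (zeta p a) (I.erase {b}) +
      wt (sur p H a b) (I.erase {b}) := by
    unfold wt sur
    rw [card_eq_sum_ones, Nat.cast_sum, ← sum_add_distrib, ← sum_add_distrib]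
    refine sum_le_sum fun X _ => ?_
    have := ms_nonneg {a, b} X
    rw [ms_add]; push_cast; omega
  have a5 := val_sdiff (z := zeta p a) h.JS
  have a6 := h.ex.val_eq
  have a7 := h.toR1.wtn ((sdiff_subset (s := S) (t := I.erase {b})).trans (subset_insert _ _))
  have a8 := wt_sdiff (z := sur p H a b) (erase_subset {b} I)
  have a9 := h.surn ((sdiff_subset (s := I) (t := I.erase {b})).trans h.IS)
  rw [val_eq_wt, val_eq_wt _ (I.erase {b})] at a5
  omega

theorem S_sub (h : MB p H a b r S e G I) (h0 : wt (sur p H a b) I ≤ 0) : S = I.erase {b} := by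
  have := h.rb_le
  refine Subset.antisymm (sdiff_eq_empty_iff_subset.1 (card_eq_zero.1 (by omega))) h.JS

/-- singletons outside the family are good -/
theorem good_out (h : MB p H a b r S e G I) (hs : wt (sur p H a b) I + 2 ≤ I.card)
    {l : Finset V} (hl : l ∈ insert {b} S) (hlI : l ∉ I) (ht : sur p H a b l ≤ 0) :
    Good p a {l} := by
  rcases mem_insert.1 hl with rfl | hl
  · exact h.toR1.good_b
  have hlJ : l ∉ I.erase {b} := fun hh => hlI (mem_of_mem_erase hh)
  have c1 := pred_card_le_card_erase (s := I) (a := {b})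
  have c2 := h.rb_le
  have c3 : 1 ≤ (S \ I.erase {b}).card := card_pos.2 ⟨l, mem_sdiff.2 ⟨hl, hlJ⟩⟩
  have s1 : insert l (I.erase {b}) ⊆ S := insert_subset hl h.JS
  have c4 := card_le_card s1
  rw [card_insert_of_notMem hlJ] at c4
  have a1 := h.ex.val_eq
  have a2 : zeta p a l ≤ wt (zeta p a) S :=
    single_le_sum (f := zeta p a) (fun X hX => h.fin.nonneg hX) hl
  have a3 : Multiset.card H = Multiset.card G + 1 := by rw [h.hH, Multiset.card_cons]
  rw [val_eq_wt] at a1
  obtain ⟨g, hg, g1⟩ : ∃ g ∈ G, ¬ (g.1 ∈ l ∨ g.2 ∈ l) := by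
    by_contra hc
    push Not at hc
    have b1 := card_le_ms_touch hc
    have b2 := ms_nonneg {a, b} l
    have b3 := ind_nonneg e.1 l
    have b4 := ind_nonneg e.2 l
    have b5 : ms (ends H) l = ind e.1 l + (ind e.2 l + ms (ends G) l) := by
      rw [h.hH, ends_cons, ms_cons, ms_cons]
    unfold sur at ht
    rw [ms_add] at ht
    omega
  rw [not_or] at g1
  exact h.toR1.miss' (h.delG hg) (Or.inl rfl) (singleton_subset_iff.2 (mem_insert_of_mem hl))
    (singleton_nonempty _) (by simpa using g1.1) (by simpa using g1.2)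

/-- the star case -/
theorem star (h : MB p H a b r S e G I) {x : Finset V} (hxI : x ∈ I) (hxS : x ∈ S)
    (h3 : I.card ≤ 3) (hx : (I.card : ℤ) ≤ sur p H a b x + 2)
    (hK : ∀ k ∈ I, k ≠ x → Good p a {k}) : False := by
  have hxP : x ∈ insert {b} S := h.IS hxI
  have s1 := h.sigma
  have s2 := h.sur_split
  have s3 := h.surn (sdiff_subset (s := insert {b} S) (t := I))
  have s4 := h.nd.d0 I h.IS
  have s5 := h.top_le
  have s6 := h.grow subset_rfl h.IS
  have s7 : sur p H a b x ≤ wt (sur p H a b) I :=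
    single_le_sum (f := sur p H a b) (fun X hX => h.toR1.sur_nonneg (h.IS hX)) hxI
  have s8 := h.toR1.sur_nonneg hxP
  have eP : insert x ((insert {b} S).erase x) = insert {b} S := insert_erase hxP
  have wP : ∀ z : Finset V → ℤ, wt z (insert {b} S) = z x + wt z ((insert {b} S).erase x) :=
    fun z => by
      conv_lhs => rw [← eP]
      exact wt_insert (notMem_erase _ _)
  have t0 : ∀ k ∈ (insert {b} S).erase x, sur p H a b k = 0 := by
    intro k hk
    have a1 := wP (sur p H a b)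
    have a2 : sur p H a b k ≤ wt (sur p H a b) ((insert {b} S).erase x) :=
      single_le_sum (f := sur p H a b)
        (fun X hX => h.toR1.sur_nonneg (mem_of_mem_erase hX)) hk
    have := h.toR1.sur_nonneg (mem_of_mem_erase hk)
    omega
  have UP : ((insert {b} S).erase x).sup id ∪ x = (insert {b} S).sup id := by
    conv_rhs => rw [← eP, sup_insert]
    exact union_comm _ _
  have cK := card_erase_add_one hxI
  have eTK : (insert {b} S).erase x \ I.erase x = insert {b} S \ I := by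
    ext Y; simp only [mem_sdiff, mem_erase]; grind
  have cTK := card_sdiff_add_card_eq_card h.IS
  have root := h.toR1.ms_root
  have key : StarG 1 p (ends H + {a, b}) a r ({a, r}ᶜ) ((insert {b} S).erase x) (I.erase x) x := by
    refine ⟨h.cs, h.valid, h.uns, le_rfl, h.toHB.ms_a, h.pa, by simp, by simp, h.ra,
      eP.symm ▸ h.toR1.exP.sp, notMem_erase _ _, erase_subset_erase _ h.IS, by omega,
      fun k hk => ?_, fun k hk => ?_, fun k hk => h.toR1.wn (mem_of_mem_erase hk), ?_,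
      fun J hJ => ?_, ?_, ?_, ?_, fun L hL hne => ?_, h.fin.single hxS⟩
    · have := t0 k hk
      change _ = 1 + zeta p a k
      unfold sur at this; omega
    · have a1 := t0 k hk
      have a2 : Good p a {k} := by
        by_cases hkI : k ∈ I
        · exact hK k hkI (ne_of_mem_erase hk)
        · exact h.good_out (by omega) (mem_of_mem_erase hk) hkI a1.le
      unfold Good at a2
      rw [wt_single, sup_singleton, id] at a2
      unfold sur at a1; omega
    · change _ = zeta p a x + _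
      unfold sur at *; omega
    · change zeta p a _ ≤ zeta p a x + wt (zeta p a) J + _
      have hJP : J ⊆ insert {b} S := hJ.trans (erase_subset _ _)
      have hxJ : x ∉ J := fun hh => notMem_erase _ _ (hJ hh)
      have a1 := h.grow (J := J ∪ I) subset_union_right (union_subset hJP h.IS)
      have a2 := h.toR1.exP.z_mono (I := insert x J) (J := J ∪ I)
        (insert_subset (mem_union_right _ hxI) subset_union_left) (union_subset hJP h.IS)
      have a3 : J \ I.erase x = J \ I := by ext Y; simp only [mem_sdiff, mem_erase]; grind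
      have a4 := card_sdiff_add_card J I
      rw [wt_insert hxJ, sup_insert, id, sup_eq_union, union_comm] at a2
      rw [a3]
      unfold y0 at *
      omega
    · rw [UP]
      unfold y0 at *
      simp only [zeta] at *
      omega
    · change _ = 1 + zeta p a x + wt (zeta p a) _ + _
      have := wP (zeta p a)
      rw [UP, eTK]
      omega
    · change _ ≤ zeta p a x + wt (zeta p a) _
      have := h.bad
      unfold Good at this
      rw [← insert_erase hxI, wt_insert (notMem_erase _ _), sup_insert, id, sup_eq_union,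
        union_comm] at this
      omega
    · change zeta p a L ≤ _
      have a1 := h.ex.bd L (hL.trans (h.ex.sp.sub x hxS)) hne
      have a2 := dG_le_ms H L
      have a3 := ms_nonneg {a, b} L
      rw [ms_add]; omega
  by_cases c : (I.erase x).card = 1
  · exact key.star_one c
  · exact key.star_two (by omega)

end MB

end Pool.Agent.CSG

end

-- part MP_305420_co.LGMoves
section

/-! Two-edge moves in the first mode of the light case. -/

set_option linter.unusedSectionVars false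
set_option linter.unusedVariables false

namespace Pool.Agent.CSG

open Finset

variable {V : Type*} [Fintype V] [DecidableEq V]
variable {p : Finset V → ℤ} {H : Multiset (V × V)} {a b : V}

/-- uncrossing with the bonus of one edge -/
theorem HB.bon (h : HB p H a b) {X Y : Finset V} {s t x y : V} (he : Adj H x y) (hs : s ∈ X)
    (hs' : s ∈ Y) (ht : t ∉ X) (ht' : t ∉ Y) (h1 : x ∈ X) (h2 : x ∉ Y) (h3 : y ∈ Y) (h4 : y ∉ X) :
    rs p H X + rs p H Y + 2 ≤ rs p H (X ∩ Y) + rs p H (X ∪ Y) :=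
  h.cs.unc1 hs hs' ht ht' he h1 h2 h3 h4 (fun _ => mem_inter) (fun _ => mem_union)

theorem HB.sup (h : HB p H a b) {X Y : Finset V} (s t : V) (hs : s ∈ X)
    (hs' : s ∈ Y) (ht : t ∉ X) (ht' : t ∉ Y) :
    rs p H X + rs p H Y ≤ rs p H (X ∩ Y) + rs p H (X ∪ Y) := h.cs.rs_super H hs hs' ht ht'

/-- opposite tight sets on an edge are complementary -/
theorem HB.opp (h : HB p H a b) {A B : Finset V} {x y : V} (he : Adj H x y) (a1 : a ∈ A)
    (a2 : a ∈ B) (b1 : b ∉ A) (b2 : b ∉ B) (h1 : x ∈ A) (h2 : x ∉ B) (h3 : y ∈ B) (h4 : y ∉ A)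
    (t1 : 0 ≤ rs p H A) (t2 : 0 ≤ rs p H B) :
    (∀ w, w ∈ A → w ∈ B → w = a) ∧ ∀ w, w ∉ A → w ∉ B → w = b := by
  obtain ⟨n1, n2, n3, n4⟩ := h.adj_ne he
  have k := h.bon he a1 a2 b1 b2 h1 h2 h3 h4
  have k1 := h.top (A ∩ B)
  have k2 := h.top (A ∪ B)
  refine ⟨fun w w1 w2 => ?_, fun w w1 w2 => ?_⟩
  · by_contra hc
    have := h.le_a (X := A ∩ B) (x := w) (y := x) (by simp [*]) (by simp [*]) (by simp [*]) hc
      (by simp [*]) n2
    omega
  · by_contra hc
    have := h.le_a (X := A ∪ B) (x := x) (y := w) (by simp [*]) (by simp [*]) (by simp [*]) n1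
      (by simp [*]) hc
    omega

theorem HB.opp_eq (h : HB p H a b) {X T : Finset V} {x y : V} (he : Adj H x y) (aX : a ∉ X)
    (bX : b ∉ X) (a2 : a ∈ T) (b2 : b ∉ T) (h1 : x ∈ X) (h2 : x ∉ T) (h3 : y ∈ T) (h4 : y ∉ X)
    (t1 : 0 ≤ rs p H (insert a X)) (t2 : 0 ≤ rs p H T) : T = (insert b X)ᶜ := by
  obtain ⟨n1, n2, n3, n4⟩ := h.adj_ne he
  have ab := h.ab
  obtain ⟨k1, k2⟩ := h.opp (A := insert a X) he (by simp) a2 (by simp [ab.symm, bX]) b2
    (by simp [h1]) h2 h3 (by simp [n3, h4]) t1 t2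
  ext w
  simp only [mem_compl, mem_insert, not_or]
  constructor
  · intro hw
    refine ⟨fun e => b2 (e ▸ hw), fun hx => ?_⟩
    exact aX (k1 w (mem_insert_of_mem hx) hw ▸ hx)
  · rintro ⟨w1, w2⟩
    by_contra hw
    refine w1 (k2 w ?_ hw)
    simp only [mem_insert, not_or]
    exact ⟨fun e => hw (e ▸ a2), w2⟩

/-- adding the second letter -/
theorem HB.up (h : HB p H a b) (pab : p {a, b} = 1) {Y : Finset V} (ha : a ∈ Y) (hb : b ∉ Y)
    {z : V} (hz : z ∉ Y) (hzb : z ≠ b) : rs p H Y ≤ rs p H (insert b Y) := by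
  have za : z ≠ a := fun e => hz (e ▸ ha)
  have k := h.cs.unc H (X := Y) (Y := {a, b}) (P := {a}) (Q := insert b Y) ha (by simp) hz
    (by simp [za, hzb])
    (fun w => by
      simp only [mem_insert, mem_singleton]
      constructor
      · rintro rfl; exact ⟨ha, Or.inl rfl⟩
      · rintro ⟨w1, rfl | rfl⟩
        exacts [rfl, absurd w1 hb])
    (fun w => by
      simp only [mem_insert, mem_singleton]
      constructor
      · rintro (w1 | w1)
        exacts [Or.inr (Or.inr w1), Or.inl w1]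
      · rintro (w1 | rfl | w1)
        exacts [Or.inr w1, Or.inr ha, Or.inl w1])
  have k1 := h.rs_a
  have k2 : rs p H {a, b} = 1 := by unfold rs; rw [pab, h.d_sab]; simp
  omega

theorem Free.inn {e : V × V} {x y : V} (hf : Free p H a b e) (he : IsE e x y) {T : Finset V}
    (ha : a ∈ T) (hb : b ∈ T) (hx : x ∈ T ∨ y ∈ T) : rs p H T ≤ 0 := by
  rcases he with rfl | rfl
  exacts [hf.1 T ha hb hx, hf.1 T ha hb hx.symm]

theorem Free.out {e : V × V} {x y : V} (hf : Free p H a b e) (he : IsE e x y) {T : Finset V}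
    (ha : a ∉ T) (hb : b ∉ T) (hx : x ∉ T ∨ y ∉ T) : rs p H T ≤ 0 := by
  rcases he with rfl | rfl
  exacts [hf.2 T ha hb hx, hf.2 T ha hb hx.symm]

theorem mem_of_pair_le {e e' : V × V} (hE : {e} + {e'} ≤ H) : e ∈ H ∧ e' ∈ H :=
  ⟨Multiset.mem_of_le hE (by simp), Multiset.mem_of_le hE (by simp)⟩

theorem noSplit_pair {X Y T : Finset V} (h : NoSplit {X, Y} T) :
    (∀ w, w ∈ X → w ∈ T → ∀ z, z ∈ X → z ∈ T) ∧ ∀ w, w ∈ Y → w ∈ T → ∀ z, z ∈ Y → z ∈ T :=
  ⟨fun _ w1 w2 _ z1 => h.sub (by simp) w1 w2 z1, fun _ w1 w2 _ z1 => h.sub (by simp) w1 w2 z1⟩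

theorem isSub_pair {X Y : Finset V} (hd : Disjoint X Y) : IsSubpartition {X, Y} := by
  intro A hA B hB hne
  simp only [mem_insert, mem_singleton] at hA hB
  rcases hA with rfl | rfl <;> rcases hB with rfl | rfl
  exacts [absurd rfl hne, hd, hd.symm, absurd rfl hne]

/-- PAIRbr.  f = rs p H.  Move: remove uv, u'v'; add uu', av, bv'.  Take a blocker T splitting
neither X nor X' (`HB.blocked_ns` with the family {X, X'}), need = 1 + d_new - d_old ≤ f T.
a∈T,b∉T (need ≤ 0 only): T ⊇ X' with v'∉T and X ⊆ T: uncross with (bX')ᶜ, bonus u'v'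
(0+0+2 ≤ 0+1); v∈T, u∉T: uncross with aX, bonus uv (union misses u' or v').
b∈T,a∉T: u,v'∈T, u'∉T: uncross with abX' (f ≥ 0 by uncrossing ab with aX'), bonus u'v', union meets
the free edge; u,u'∈T: uncross with aXX' (f ≥ -1), intersection X∪X';  v'∈T, u,u',v∉T: f(aT) ≥ 0 by
ab, uncross with (bX')ᶜ gives an a-tight set with v' and not u', bonus with aX'; v,v'∈T, u,u'∉T:
uncross with abX, bonus uv.
a,b∈T: v,v'∈T,u,u'∉T (need -1): uncross with aX' (bonus), then with aX (bonus) unless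
T = (X∪X')ᶜ; other cases need ≥ 1: T meets the free edge or bonus with aX, aX' (1+0+2 ≤ 2).
a,b∉T: u,u'∈T, v,v'∉T (need -1): uncross with aXX' gives f(aT) ≥ 0, then bonus with (bX')ᶜ;
other cases need ≥ 1: T misses an end of the free edge or uncross with aX / aX' (1+0 ≤ 0+0). -/
theorem HB.pair_bridge (h : HB p H a b) (pab : p {a, b} = 1) {e e' : V × V} {u v u' v' : V}
    (hE : {e} + {e'} ≤ H) (he : IsE e u v) (he' : IsE e' u' v')
    (hf : Free p H a b e ∨ Free p H a b e') {X X' : Finset V} (hd : Disjoint X X')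
    (ha : a ∉ X) (hb : b ∉ X) (ha' : a ∉ X') (hb' : b ∉ X') (hu : u ∈ X) (hu' : u' ∈ X')
    (hv : v ∉ X) (hv2 : v ∉ X') (hv' : v' ∉ X) (hv2' : v' ∉ X')
    (q1 : ms (ends H + {a, b}) X ≤ symmMax p X) (q2 : ms (ends H + {a, b}) X' ≤ symmMax p X')
    (t1 : 0 ≤ rs p H (insert a X)) (t2 : 0 ≤ rs p H (insert a X'))
    (t3 : 0 ≤ rs p H (insert b X')ᶜ) :
    -1 ≤ rs p H (X ∪ X') ∨ -1 ≤ rs p H (X ∪ X')ᶜ := by
  by_contra hcon
  push Not at hcon
  obtain ⟨o1, o2⟩ := hcon
  obtain ⟨m1, m2⟩ := mem_of_pair_le hE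
  have ad := he.adj m1
  have ad' := he'.adj m2
  obtain ⟨ua, ub, va, vb⟩ := h.adj_ne ad
  obtain ⟨ua', ub', va', vb'⟩ := h.adj_ne ad'
  have ab := h.ab
  have ba := ab.symm
  have uX' : u ∉ X' := disjoint_left.1 hd hu
  have uX : u' ∉ X := disjoint_right.1 hd hu'
  have fi : ∀ T, a ∈ T → b ∈ T → u ∈ T ∨ v ∈ T → u' ∈ T ∨ v' ∈ T → rs p H T ≤ 0 :=
    fun T h1 h2 h3 h4 => hf.elim (fun f => f.inn he h1 h2 h3) (fun f => f.inn he' h1 h2 h4)
  have fo : ∀ T, a ∉ T → b ∉ T → u ∉ T ∨ v ∉ T → u' ∉ T ∨ v' ∉ T → rs p H T ≤ 0 :=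
    fun T h1 h2 h3 h4 => hf.elim (fun f => f.out he h1 h2 h3) (fun f => f.out he' h1 h2 h4)
  have hval : Valid p 0 (ends H + {a, b}) :=
    hf.elim (fun f => h.valid m1 f) (fun f => h.valid m2 f)
  have s1 : 0 ≤ rs p H (insert b (insert a X)) :=
    t1.trans (h.up pab (by simp) (by simp [ba, hb]) (z := v) (by simp [va, hv]) vb)
  have s2 : 0 ≤ rs p H (insert b (insert a X')) :=
    t2.trans (h.up pab (by simp) (by simp [ba, hb']) (z := v) (by simp [va, hv2]) vb)
  have s3 : -1 ≤ rs p H (insert a X ∪ insert a X') := by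
    have k := h.sup (X := insert a X) (Y := insert a X') a b (by simp) (by simp)
      (by simp [ba, hb]) (by simp [ba, hb'])
    have := h.top (insert a X ∩ insert a X')
    omega
  have p1 : ∀ T, a ∈ T → b ∉ T → u ∈ T → u' ∈ T → v' ∉ T → rs p H T ≤ -1 := by
    intro T h1 h2 h3 h4 h5
    by_contra hc
    exact ua ((h.opp (B := (insert b X')ᶜ) ad' h1 (by simp [ab, ha']) h2 (by simp) h4
      (by simp [hu']) (by simp [vb', hv2']) h5 (by omega) t3).1 u h3 (by simp [ub, uX']))
  have int : ∀ T, X ⊆ T → X' ⊆ T → a ∉ T → T ∩ (insert a X ∪ insert a X') = X ∪ X' := by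
    intro T h1 h2 h3
    ext w
    simp only [mem_inter, mem_union, mem_insert]
    constructor
    · rintro ⟨w1, (rfl | w2) | rfl | w2⟩
      exacts [absurd w1 h3, Or.inl w2, absurd w1 h3, Or.inr w2]
    · rintro (w1 | w1)
      exacts [⟨h1 w1, Or.inl (Or.inr w1)⟩, ⟨h2 w1, Or.inr (Or.inr w1)⟩]
  obtain ⟨T, ns, need⟩ := h.blocked_ns hval hE (M := {(u, u')} + {(a, v)} + {(b, v')})
    (by simp only [ends_add, ends_one, he.ends, he'.ends, pair_eq_add]; abel) {X, X'}
    (isSub_pair hd) (by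
      intro Z hZ
      simp only [mem_insert, mem_singleton] at hZ
      rcases hZ with rfl | rfl
      exacts [q1, q2])
  obtain ⟨n1, n2⟩ := noSplit_pair ns
  simp only [dG_add, dG_singleton, he.cut, he'.cut] at need
  have p0 := h.top T
  have p2 : ∀ z, z ∉ T → z ∉ X → z ≠ b → a ∈ T → b ∉ T → v ∈ T → u ∉ T → rs p H T ≤ -1 := by
    intro z z1 z2 z3 h1 h2 h3 h4
    by_contra hc
    have := h.opp_eq ad ha hb h1 h2 hu h4 h3 hv t1 (by omega)
    exact z1 (by rw [this]; simp [z2, z3])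
  have p2a := p2 u'
  have p2b := p2 v'
  have p3 : b ∈ T → u ∈ T → v' ∈ T → a ∉ T → v ∉ T → u' ∉ T → rs p H T ≤ -1 := by
    intro h1 h2 h3 h4 h5 h6
    have k := h.bon (X := insert b (insert a X')) (Y := T) (s := b) (t := v) ad' (by simp) h1
      (by simp [va, vb, hv2]) h5 (by simp [hu']) h6 h3 (by simp [va', vb', hv2'])
    have k1 := h.top (insert b (insert a X') ∩ T)
    have k2 := fi (insert b (insert a X') ∪ T) (by simp) (by simp) (by simp [h2]) (by simp [h3])
    omega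
  have p4 : b ∈ T → u ∈ T → u' ∈ T → a ∉ T → v ∉ T → rs p H T ≤ -1 := by
    intro h1 h2 h3 h4 h5
    have k := h.sup (X := T) (Y := insert a X ∪ insert a X') u v h2 (by simp [hu]) h5
      (by simp [va, hv, hv2])
    rw [int T (n1 u hu h2) (n2 u' hu' h3) h4] at k
    have k2 := fi (T ∪ (insert a X ∪ insert a X')) (by simp) (by simp [h1]) (by simp [h2])
      (by simp [h3])
    omega
  have p5 : b ∈ T → v' ∈ T → a ∉ T → u ∉ T → u' ∉ T → rs p H T ≤ -1 := by
    intro h1 h2 h3 h4 h5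
    by_contra hc
    have k0 := h.swap.up (by rw [pair_comm]; exact pab) h1 h3 h4 ua
    have k := h.sup (X := insert a T) (Y := (insert b X')ᶜ) a u' (by simp) (by simp [ab, ha'])
      (by simp [ua', h5]) (by simp [hu'])
    have k2 := fi (insert a T ∪ (insert b X')ᶜ) (by simp) (by simp [h1]) (by simp [ub, uX'])
      (by simp [h2])
    have := h.opp_eq (T := insert a T ∩ (insert b X')ᶜ) ad' ha' hb' (by simp [ab, ha']) (by simp)
      hu' (by simp [hu']) (by simp [h2, vb', hv2']) hv2' t2 (by omega)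
    have k3 : u ∈ insert a T ∩ (insert b X')ᶜ := by rw [this]; simp [ub, uX']
    simp [ua, h4] at k3
  have p7 : a ∈ T → b ∈ T → v ∈ T → v' ∈ T → u ∉ T → u' ∉ T → rs p H T ≤ -2 := by
    intro h1 h2 h3 h4 h5 h6
    by_contra hc
    have k := h.bon (X := insert a X') (Y := T) (s := a) (t := u) ad' (by simp) h1
      (by simp [ua, uX']) h5 (by simp [hu']) h6 h4 (by simp [va', hv2'])
    have k1 := h.top (insert a X' ∩ T)
    have e1 : T = (X ∪ X')ᶜ := by
      ext w
      simp only [mem_compl, mem_union, not_or]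
      refine ⟨fun hw => ⟨fun w1 => h5 (n1 w w1 hw u hu), fun w1 => h6 (n2 w w1 hw u' hu')⟩, ?_⟩
      rintro ⟨w1, w2⟩
      by_contra hw
      have wa : w ≠ a := fun e => hw (e ▸ h1)
      have k2 := h.bon (X := insert a X) (Y := insert a X' ∪ T) (s := a) (t := w) ad (by simp)
        (by simp) (by simp [wa, w1]) (by simp [wa, w2, hw]) (by simp [hu])
        (by simp [ua, uX', h5]) (by simp [h3]) (by simp [va, hv])
      have k3 := h.top (insert a X ∩ (insert a X' ∪ T))
      have k4 := fi (insert a X ∪ (insert a X' ∪ T)) (by simp) (by simp [h2]) (by simp [h3])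
        (by simp [h4])
      omega
    rw [← e1] at o2
    omega
  have p8 : a ∈ T → v ∈ T → u ∉ T → u' ∉ T → rs p H T ≤ 0 := by
    intro h1 h2 h3 h4
    have k := h.bon (X := insert a X) (Y := T) (s := a) (t := u') ad (by simp) h1
      (by simp [ua', uX]) h4 (by simp [hu]) h3 h2 (by simp [va, hv])
    have k1 := h.top (insert a X ∩ T)
    have k2 := h.top (insert a X ∪ T)
    omega
  have p9 : a ∈ T → v' ∈ T → u ∉ T → u' ∉ T → rs p H T ≤ 0 := by
    intro h1 h2 h3 h4
    have k := h.bon (X := insert a X') (Y := T) (s := a) (t := u) ad' (by simp) h1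
      (by simp [ua, uX']) h3 (by simp [hu']) h4 h2 (by simp [va', hv2'])
    have k1 := h.top (insert a X' ∩ T)
    have k2 := h.top (insert a X' ∪ T)
    omega
  have p10 : u ∈ T → u' ∈ T → a ∉ T → b ∉ T → v' ∉ T → rs p H T ≤ -2 := by
    intro h1 h2 h3 h4 h5
    have k := h.sup (X := T) (Y := insert a X ∪ insert a X') u b h1 (by simp [hu]) h4
      (by simp [ba, hb, hb'])
    rw [int T (n1 u hu h1) (n2 u' hu' h2) h3] at k
    have k2 := p1 (T ∪ (insert a X ∪ insert a X')) (by simp) (by simp [h4, ba, hb, hb'])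
      (by simp [h1]) (by simp [h2]) (by simp [h5, va', hv', hv2'])
    omega
  have p11 : u ∈ T → a ∉ T → b ∉ T → v ∉ T → rs p H T ≤ 0 := by
    intro h1 h2 h3 h4
    have k := h.sup (X := T) (Y := insert a X) u b h1 (by simp [hu]) h3 (by simp [ba, hb])
    have k1 := fo (T ∩ insert a X) (by simp [h2]) (by simp [h3]) (by simp [h4])
      (by simp [ua', uX])
    have k2 := h.le_a (X := T ∪ insert a X) (x := u) (y := v) (by simp) (by simp [h3, ba, hb])
      (by simp [h1]) ua (by simp [h4, va, hv]) vb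
    omega
  have fi1 := fun h1 h2 h3 h4 => fi T h1 h2 (Or.inl h3) (Or.inl h4)
  have fi2 := fun h1 h2 h3 h4 => fi T h1 h2 (Or.inl h3) (Or.inr h4)
  have fi3 := fun h1 h2 h3 h4 => fi T h1 h2 (Or.inr h3) (Or.inl h4)
  have fo1 := fun h1 h2 h3 h4 => fo T h1 h2 (Or.inl h3) (Or.inl h4)
  have fo2 := fun h1 h2 h3 h4 => fo T h1 h2 (Or.inl h3) (Or.inr h4)
  have fo3 := fun h1 h2 h3 h4 => fo T h1 h2 (Or.inr h3) (Or.inl h4)
  by_cases c1 : a ∈ T <;> by_cases c2 : b ∈ T <;> by_cases c3 : u ∈ T <;> by_cases c4 : v ∈ T <;>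
    by_cases c5 : u' ∈ T <;> by_cases c6 : v' ∈ T <;>
    simp only [cut, c1, c2, c3, c4, c5, c6, iff_true, iff_false, not_true,
      if_true, if_false, iff_self] at need <;>
    first
    | omega
    | (have := fi1 c1 c2 c3 c5; omega)
    | (have := fi2 c1 c2 c3 c6; omega)
    | (have := fi3 c1 c2 c4 c5; omega)
    | (have := fo1 c1 c2 c3 c5; omega)
    | (have := fo2 c1 c2 c3 c6; omega)
    | (have := fo3 c1 c2 c4 c5; omega)
    | (have := p1 T c1 c2 c3 c5 c6; omega)
    | (have := p2a c5 uX ub' c1 c2 c4 c3; omega)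
    | (have := p2b c6 hv' vb' c1 c2 c4 c3; omega)
    | (have := p3 c2 c3 c6 c1 c4 c5; omega)
    | (have := p4 c2 c3 c5 c1 c4; omega)
    | (have := p5 c2 c6 c1 c3 c5; omega)
    | (have := p7 c1 c2 c4 c6 c3 c5; omega)
    | (have := p8 c1 c4 c3 c5; omega)
    | (have := p9 c1 c6 c3 c5; omega)
    | (have := p10 c3 c5 c1 c2 c6; omega)
    | (have := p11 c3 c1 c2 c4; omega)

/-- the situation of an isolated free edge `cd` and an edge `uv` leaving a tight subset of a
set `K` of residual demand one -/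
structure KE (p : Finset V → ℤ) (H : Multiset (V × V)) (a b : V) (e e' : V × V) (c d u v : V)
    (C X : Finset V) : Prop extends HB p H a b where
  pab : p {a, b} = 1
  hE : {e} + {e'} ≤ H
  he : IsE e c d
  he' : IsE e' u v
  free : Free p H a b e
  hd : Disjoint C X
  aC : a ∉ C
  bC : b ∉ C
  aX : a ∉ X
  bX : b ∉ X
  hc : c ∈ C
  hu : u ∈ X
  dC : d ∉ C
  dX : d ∉ X
  vC : v ∉ C
  vX : v ∉ X
  ta : 0 ≤ rs p H (insert a C)
  tb : 0 ≤ rs p H (insert b C)
  tx : 0 ≤ rs p H (insert a X)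

variable {e e' : V × V} {c d u v : V} {C X : Finset V}

theorem KE.facts (h : KE p H a b e e' c d u v C X) :
    Adj H c d ∧ Adj H u v ∧ (c ≠ a ∧ c ≠ b ∧ d ≠ a ∧ d ≠ b) ∧ (u ≠ a ∧ u ≠ b ∧ v ≠ a ∧ v ≠ b) ∧
      a ≠ b ∧ b ≠ a ∧ u ∉ C ∧ c ∉ X := by
  obtain ⟨m1, m2⟩ := mem_of_pair_le h.hE
  exact ⟨h.he.adj m1, h.he'.adj m2, h.toHB.adj_ne (h.he.adj m1), h.toHB.adj_ne (h.he'.adj m2),
    h.ab, h.ab.symm, disjoint_right.1 h.hd h.hu, disjoint_left.1 h.hd h.hc⟩

theorem KE.fc (h : KE p H a b e e' c d u v C X) {T : Finset V} (ha : a ∈ T) (hb : b ∈ T)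
    (hc : c ∈ T) : rs p H T ≤ 0 := h.free.inn h.he ha hb (Or.inl hc)

theorem KE.fd (h : KE p H a b e e' c d u v C X) {T : Finset V} (ha : a ∈ T) (hb : b ∈ T)
    (hc : d ∈ T) : rs p H T ≤ 0 := h.free.inn h.he ha hb (Or.inr hc)

theorem KE.gc (h : KE p H a b e e' c d u v C X) {T : Finset V} (ha : a ∉ T) (hb : b ∉ T)
    (hc : c ∉ T) : rs p H T ≤ 0 := h.free.out h.he ha hb (Or.inl hc)

theorem KE.gd (h : KE p H a b e e' c d u v C X) {T : Finset V} (ha : a ∉ T) (hb : b ∉ T)
    (hc : d ∉ T) : rs p H T ≤ 0 := h.free.out h.he ha hb (Or.inr hc)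

/-- a set with the letter `a` that meets `K` and cuts the free edge is not tight -/
theorem KE.ka (h : KE p H a b e e' c d u v C X) {K : Finset V} (ka : a ∈ K) (kb : b ∈ K)
    (kf : 1 ≤ rs p H K) (ku : u ∈ K) {T : Finset V} (h1 : a ∈ T) (h2 : b ∉ T) (h3 : u ∈ T)
    (h4 : c ∈ T) (h5 : d ∉ T) : rs p H T ≤ -1 := by
  obtain ⟨-, -, ⟨ca, cb, da, db⟩, ⟨ua, ub, va, vb⟩, ab, ba, uC, cX⟩ := h.facts
  have kd : d ∉ K := fun hh => by have := h.fd ka kb hh; omega
  have k := h.toHB.sup (X := T) (Y := K) a d h1 ka h5 kd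
  have k1 := h.toHB.le_a (X := T ∩ K) (x := u) (y := d) (by simp [h1, ka]) (by simp [h2])
    (by simp [h3, ku]) ua (by simp [h5]) db
  have k2 := h.fc (T := T ∪ K) (by simp [ka]) (by simp [kb]) (by simp [h4])
  omega

/-- EK1.  Move: remove cd, uv; add uc, av, bd (no contraction, `HB.blocked'`).
a∈T,b∉T: v∈T,u∉T, f ≥ 0: bonus with aX forces T = (bX)ᶜ (first outcome); u,c∈T,d∉T: uncross with K
(0+1 ≤ 0+0).  b∈T,a∉T: d∈T,c∉T: bonus with bC forces T∪C = {a}ᶜ, so u∈T, uncross with K; u,c∈T,v∉T: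
last outcome (if v∉K uncross with K).  a,b∈T: v,d∈T,u,c∉T, f ≥ -1: bonus with aX and with aC give
T∩X = T∩C = ∅, f(T∪X), f(T∪C) ≥ 0; if T∪X∪C ≠ univ bonus of T∪X with aC is absurd; so T = (C∪X)ᶜ
(second outcome).  v∈T,u,c,d∉T, f ≥ 1: bonus with aX.  a,b∉T: u,c∈T,v,d∉T third outcome;
u,c,d∈T,v∉T, f ≥ 1: uncross with aX. -/
theorem KE.first (h : KE p H a b e e' c d u v C X) {K : Finset V} (ka : a ∈ K) (kb : b ∈ K)
    (kf : 1 ≤ rs p H K) (ku : u ∈ K) :
    0 ≤ rs p H (insert b X)ᶜ ∨ (-1 ≤ rs p H (C ∪ X)ᶜ ∧ 0 ≤ rs p H Xᶜ) ∨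
      (∃ Y, a ∉ Y ∧ b ∉ Y ∧ u ∈ Y ∧ c ∈ Y ∧ v ∉ Y ∧ d ∉ Y ∧ -1 ≤ rs p H Y) ∨
      (v ∈ K ∧ ∃ T, b ∈ T ∧ a ∉ T ∧ u ∈ T ∧ c ∈ T ∧ v ∉ T ∧ 0 ≤ rs p H T) := by
  by_contra hcon
  push Not at hcon
  obtain ⟨o1, o2, o3, o4⟩ := hcon
  obtain ⟨ad, ad', ⟨ca, cb, da, db⟩, ⟨ua, ub, va, vb⟩, ab, ba, uC, cX⟩ := h.facts
  obtain ⟨g, pab, hE, he, he', hf, hd, aC, bC, aX, bX, hc, hu, dC, dX, vC, vX, ta, tb, tx⟩ := id h
  have kc : c ∉ K := fun hh => by have := h.fc ka kb hh; omega
  obtain ⟨T, need⟩ := g.blocked' hE (M := {(u, c)} + {(a, v)} + {(b, d)})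
    (by simp only [ends_add, ends_one, he.ends, he'.ends, pair_eq_add]; abel)
  simp only [dG_add, dG_singleton, he.cut, he'.cut] at need
  have p0 := g.top T
  have k1 : a ∈ T → b ∉ T → v ∈ T → u ∉ T → rs p H T ≤ -1 := by
    intro h1 h2 h3 h4
    by_contra hh
    rw [← g.opp_eq ad' aX bX h1 h2 hu h4 h3 vX tx (by omega)] at o1
    omega
  have k2 := fun h1 h2 h3 h4 h5 => h.ka ka kb kf ku (T := T) h1 h2 h3 h4 h5
  have k3 : b ∈ T → a ∉ T → d ∈ T → c ∉ T → rs p H T ≤ -1 := by
    intro h1 h2 h3 h4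
    by_contra hh
    have uT : u ∈ T := by
      rw [g.swap.opp_eq ad bC aC h1 h2 hc h4 h3 dC tb (by omega)]
      simp [ua, uC]
    have k := g.sup (X := T) (Y := K) b c h1 kb h4 kc
    have j1 := g.swap.le_a (X := T ∩ K) (x := u) (y := c) (by simp [h1, kb]) (by simp [h2])
      (by simp [uT, ku]) ub (by simp [h4]) ca
    have j2 := h.fd (T := T ∪ K) (by simp [ka]) (by simp [kb]) (by simp [h3])
    omega
  have k4 : b ∈ T → a ∉ T → u ∈ T → c ∈ T → v ∉ T → rs p H T ≤ -1 := by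
    intro h1 h2 h3 h4 h5
    by_cases kv : v ∈ K
    · have := o4 kv T h1 h2 h3 h4 h5
      omega
    have k := g.sup (X := T) (Y := K) b v h1 kb h5 kv
    have j1 := g.swap.le_a (X := T ∩ K) (x := u) (y := v) (by simp [h1, kb]) (by simp [h2])
      (by simp [h3, ku]) ub (by simp [h5]) va
    have j2 := h.fc (T := T ∪ K) (by simp [ka]) (by simp [kb]) (by simp [h4])
    omega
  have k5 : a ∈ T → b ∈ T → v ∈ T → d ∈ T → u ∉ T → c ∉ T → rs p H T ≤ -2 := by
    intro h1 h2 h3 h4 h5 h6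
    by_contra hh
    have i1 := g.bon (X := insert a X) (Y := T) (s := a) (t := c) ad' (by simp) h1
      (by simp [ca, cX]) h6 (by simp [hu]) h5 h3 (by simp [va, vX])
    have i2 := g.bon (X := insert a C) (Y := T) (s := a) (t := u) ad (by simp) h1
      (by simp [ua, uC]) h5 (by simp [hc]) h6 h4 (by simp [da, dC])
    have i3 := h.fd (T := insert a X ∪ T) (by simp) (by simp [h2]) (by simp [h4])
    have i4 := h.fd (T := insert a C ∪ T) (by simp) (by simp [h2]) (by simp [h4])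
    have i5 := g.top (insert a X ∩ T)
    have i6 := g.top (insert a C ∩ T)
    have w1 : ∀ w, w ∈ X → w ∉ T := fun w x1 x2 => by
      have := g.le_a (X := insert a X ∩ T) (x := w) (y := c) (by simp [h1]) (by simp [ba, bX])
        (by simp [x1, x2]) (fun e => aX (e ▸ x1)) (by simp [h6]) cb
      omega
    have w2 : ∀ w, w ∈ C → w ∉ T := fun w x1 x2 => by
      have := g.le_a (X := insert a C ∩ T) (x := w) (y := c) (by simp [h1]) (by simp [ba, bC])
        (by simp [x1, x2]) (fun e => aC (e ▸ x1)) (by simp [h6]) cb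
      omega
    have w3 : ∀ w, w ∉ C → w ∉ X → w ∈ T := fun w x1 x2 => by
      by_contra x3
      have wa : w ≠ a := fun e => x3 (e ▸ h1)
      have j1 := g.bon (X := insert a C) (Y := insert a X ∪ T) (s := a) (t := w) ad (by simp)
        (by simp) (by simp [wa, x1]) (by simp [wa, x2, x3]) (by simp [hc])
        (by simp [ca, cX, h6]) (by simp [h4]) (by simp [da, dC])
      have j2 := g.top (insert a C ∩ (insert a X ∪ T))
      have j3 := h.fd (T := insert a C ∪ (insert a X ∪ T)) (by simp) (by simp [h2]) (by simp [h4])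
      omega
    have e1 : T = (C ∪ X)ᶜ := by
      ext w
      simp only [mem_compl, mem_union, not_or]
      exact ⟨fun x => ⟨fun y => w2 w y x, fun y => w1 w y x⟩, fun x => w3 w x.1 x.2⟩
    have e2 : insert a C ∪ T = Xᶜ := by
      ext w
      simp only [mem_compl, mem_union, mem_insert]
      constructor
      · rintro ((rfl | x) | x)
        exacts [aX, disjoint_left.1 hd x, fun y => w1 w y x]
      · intro x
        by_cases y : w ∈ C
        exacts [Or.inl (Or.inr y), Or.inr (w3 w y x)]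
    rw [← e1, ← e2] at o2
    have := o2 (by omega)
    omega
  have k6 : a ∈ T → v ∈ T → u ∉ T → c ∉ T → rs p H T ≤ 0 := by
    intro h1 h2 h3 h4
    have i1 := g.bon (X := insert a X) (Y := T) (s := a) (t := c) ad' (by simp) h1
      (by simp [ca, cX]) h4 (by simp [hu]) h3 h2 (by simp [va, vX])
    have i2 := g.top (insert a X ∩ T)
    have i3 := g.top (insert a X ∪ T)
    omega
  have k7 := o3 T
  have k8 : u ∈ T → a ∉ T → b ∉ T → v ∉ T → rs p H T ≤ 0 := by
    intro h1 h2 h3 h4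
    have k := g.sup (X := T) (Y := insert a X) u b h1 (by simp [hu]) h3 (by simp [ba, bX])
    have j1 := h.gc (T := T ∩ insert a X) (by simp [h2]) (by simp [h3]) (by simp [ca, cX])
    have j2 := g.le_a (X := T ∪ insert a X) (x := u) (y := v) (by simp) (by simp [h3, ba, bX])
      (by simp [h1]) ua (by simp [h4, va, vX]) vb
    omega
  by_cases c1 : a ∈ T <;> by_cases c2 : b ∈ T <;> by_cases c3 : u ∈ T <;> by_cases c4 : v ∈ T <;>
    by_cases c5 : c ∈ T <;> by_cases c6 : d ∈ T <;>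
    simp only [cut, c1, c2, c3, c4, c5, c6, iff_true, iff_false, not_true,
      if_true, if_false, iff_self] at need <;>
    first
    | omega
    | (have := h.fc c1 c2 c5; omega)
    | (have := h.fd c1 c2 c6; omega)
    | (have := h.gc c1 c2 c5; omega)
    | (have := h.gd c1 c2 c6; omega)
    | (have := k1 c1 c2 c4 c3; omega)
    | (have := k2 c1 c2 c3 c5 c6; omega)
    | (have := k3 c2 c1 c6 c5; omega)
    | (have := k4 c2 c1 c3 c5 c4; omega)
    | (have := k5 c1 c2 c4 c6 c3 c5; omega)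
    | (have := k6 c1 c4 c3 c5; omega)
    | (have := k7 c1 c2 c3 c5 c4 c6; omega)
    | (have := k8 c3 c1 c2 c4; omega)

/-- the third outcome of the first move gives a doubly tight subset -/
theorem KE.third (h : KE p H a b e e' c d u v C X) {K : Finset V} (ka : a ∈ K) (kb : b ∈ K)
    (kf : 1 ≤ rs p H K) (kX : X ⊆ K) (kC : Disjoint C K) {Y : Finset V} (y1 : a ∉ Y) (y2 : b ∉ Y)
    (y3 : u ∈ Y) (y4 : c ∈ Y) (y6 : d ∉ Y) (y7 : -1 ≤ rs p H Y) :
    ∃ Z ⊆ X, u ∈ Z ∧ 0 ≤ rs p H (insert a Z) ∧ 0 ≤ rs p H (insert b Z) := by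
  obtain ⟨ad, ad', ⟨ca, cb, da, db⟩, ⟨ua, ub, va, vb⟩, ab, ba, uC, cX⟩ := h.facts
  obtain ⟨g, pab, hE, he, he', hf, hd, aC, bC, aX, bX, hc, hu, dC, dX, vC, vX, ta, tb, tx⟩ := id h
  have kd : d ∉ K := fun hh => by have := h.fd ka kb hh; omega
  have c0 := h.gd aC bC dC
  have c1 : 0 ≤ rs p H C := by
    have k := g.cs.unc H (X := insert a C) (Y := insert b C) (P := C)
      (Q := insert a C ∪ insert b C) (s := c) (t := d) (by simp [hc]) (by simp [hc])
      (by simp [da, dC]) (by simp [db, dC])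
      (fun w => by
        simp only [mem_insert]
        constructor
        · exact fun x => ⟨Or.inr x, Or.inr x⟩
        · rintro ⟨rfl | x, x' | x'⟩
          exacts [absurd x' ab, x', x, x])
      (fun _ => mem_union)
    have := h.fc (T := insert a C ∪ insert b C) (by simp) (by simp) (by simp [hc])
    omega
  have s1 : -1 ≤ rs p H (Y ∪ C) := by
    have k := g.sup (X := Y) (Y := C) c a y4 hc y1 aC
    have := h.gd (T := Y ∩ C) (by simp [y1]) (by simp [y2]) (by simp [y6])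
    omega
  have s2 : -1 ≤ rs p H (insert a (Y ∪ C)) := by
    have k := g.cs.unc H (X := Y ∪ C) (Y := insert a C) (P := (Y ∪ C) ∩ insert a C)
      (Q := insert a (Y ∪ C)) (s := c) (t := b) (by simp [hc]) (by simp [hc])
      (by simp [y2, bC]) (by simp [ba, bC]) (fun _ => mem_inter)
      (fun w => by simp only [mem_insert, mem_union]; clear * -; tauto)
    have := h.gd (T := (Y ∪ C) ∩ insert a C) (by simp [y1, aC]) (by simp [y2, bC])
      (by simp [y6, dC])
    omega
  have s3 := h.ka ka kb kf (kX hu) (T := insert a (Y ∪ C)) (by simp) (by simp [ba, y2, bC])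
    (by simp [y3]) (by simp [y4]) (by simp [da, y6, dC])
  have s4 := h.ka ka kb kf (kX hu) (T := insert a (Y ∪ C) ∪ insert a X) (by simp)
    (by simp [ba, y2, bC, bX]) (by simp [y3]) (by simp [y4]) (by simp [da, y6, dC, dX])
  have s5 : 0 ≤ rs p H (insert a ((Y ∪ C) ∩ X)) := by
    have k := g.cs.unc H (X := insert a (Y ∪ C)) (Y := insert a X)
      (P := insert a ((Y ∪ C) ∩ X)) (Q := insert a (Y ∪ C) ∪ insert a X) (s := a) (t := b)
      (by simp) (by simp) (by simp [ba, y2, bC]) (by simp [ba, bX])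
      (fun w => by simp only [mem_insert, mem_inter]; clear * -; tauto) (fun _ => mem_union)
    omega
  refine ⟨(Y ∪ C) ∩ X, inter_subset_right, by simp [y3, hu], s5, ?_⟩
  set Z := (Y ∪ C) ∩ X with hZ
  have z1 : ∀ w, w ∈ Z → w ∈ Y ∪ C := fun w x => (mem_inter.1 x).1
  have z2 : ∀ w, w ∈ Z → w ∈ X := fun w x => (mem_inter.1 x).2
  have aZ : a ∉ Z := fun x => aX (z2 _ x)
  have bZ : b ∉ Z := fun x => bX (z2 _ x)
  have dZ : d ∉ Z := fun x => dX (z2 _ x)
  clear_value Z
  have s6 : -1 ≤ rs p H (insert a (C ∪ Z)) := by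
    have k := g.cs.unc H (X := insert a C) (Y := insert a Z)
      (P := insert a C ∩ insert a Z) (Q := insert a (C ∪ Z)) (s := a) (t := b)
      (by simp) (by simp) (by simp [ba, bC]) (by simp [ba, bZ]) (fun _ => mem_inter)
      (fun w => by simp only [mem_insert, mem_union]; clear * -; tauto)
    have := g.top (insert a C ∩ insert a Z)
    omega
  have s7 : -1 ≤ rs p H (C ∪ Z) := by
    have k := g.cs.unc H (X := Y ∪ C) (Y := insert a (C ∪ Z))
      (P := C ∪ Z) (Q := insert a (Y ∪ C)) (s := c) (t := b)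
      (by simp [hc]) (by simp [hc]) (by simp [y2, bC]) (by simp [ba, bC, bZ])
      (fun w => by
        have := z1 w
        simp only [mem_insert, mem_union] at this ⊢
        constructor
        · exact fun x => ⟨x.elim Or.inr this, Or.inr x⟩
        · rintro ⟨x, rfl | x'⟩
          exacts [(x.elim y1 aC).elim, x'])
      (fun w => by
        have := z1 w
        simp only [mem_insert, mem_union] at this ⊢
        clear * - this
        tauto)
    omega
  have s8 : -1 ≤ rs p H (insert b (C ∪ Z)) := by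
    have k := g.cs.unc H (X := C ∪ Z) (Y := insert b C)
      (P := (C ∪ Z) ∩ insert b C) (Q := insert b (C ∪ Z)) (s := c) (t := a)
      (by simp [hc]) (by simp [hc]) (by simp [aC, aZ]) (by simp [ab, aC]) (fun _ => mem_inter)
      (fun w => by simp only [mem_insert, mem_union]; clear * -; tauto)
    have := h.gd (T := (C ∪ Z) ∩ insert b C) (by simp [aZ, aC]) (by simp [bZ, bC])
      (by simp [dZ, dC])
    omega
  have k := g.cs.unc H (X := insert b (C ∪ Z)) (Y := K)
    (P := insert b Z) (Q := insert b (C ∪ Z) ∪ K) (s := b) (t := d)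
    (by simp) kb (by simp [db, dC, dZ]) kd
    (fun w => by
      simp only [mem_insert, mem_union]
      constructor
      · rintro (rfl | x)
        exacts [⟨Or.inl rfl, kb⟩, ⟨Or.inr (Or.inr x), kX (z2 w x)⟩]
      · rintro ⟨x | x | x, x'⟩
        exacts [Or.inl x, absurd x' (disjoint_left.1 kC x), Or.inr x])
    (fun _ => mem_union)
  have := h.fc (T := insert b (C ∪ Z) ∪ K) (by simp [ka]) (by simp) (by simp [hc])
  omega

/-- A doubly tight subset.  If f(abX) ≥ 1 apply `first` with K := abX (last outcome impossible),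
else with K.  Last outcome: Z = T∩X; uncross T with abX (f ≥ 0; union contains c) gives f(bZ) ≥ 0, so
f(abZ) ≥ 0, uncross abZ with aX gives f(aZ) ≥ 0.  Third outcome: f C = 0 (uncross aC, bC);
Y' = Y∪C has f ≥ -1, f(aY') ≥ -1; f(a(Y'∪X)), f(aY') ≤ -1 (uncross with K); so Z = Y'∩X has
f(aZ) ≥ 0; f(a(C∪Z)) ≥ -1; uncross Y' with a(C∪Z): f(C∪Z) ≥ -1; with bC: f(b(C∪Z)) ≥ -1;
with K: f(bZ) ≥ 0. -/
theorem KE.double (h : KE p H a b e e' c d u v C X) {K : Finset V} (ka : a ∈ K) (kb : b ∈ K)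
    (kf : 1 ≤ rs p H K) (kX : X ⊆ K) (kC : Disjoint C K) :
    0 ≤ rs p H (insert b X)ᶜ ∨ (-1 ≤ rs p H (C ∪ X)ᶜ ∧ 0 ≤ rs p H Xᶜ) ∨
      ∃ Z ⊆ X, u ∈ Z ∧ 0 ≤ rs p H (insert a Z) ∧ 0 ≤ rs p H (insert b Z) := by
  obtain ⟨ad, ad', ⟨ca, cb, da, db⟩, ⟨ua, ub, va, vb⟩, ab, ba, uC, cX⟩ := h.facts
  obtain ⟨g, pab, hE, he, he', hf, hd, aC, bC, aX, bX, hc, hu, dC, dX, vC, vX, ta, tb, tx⟩ := id h
  by_cases hx : 1 ≤ rs p H (insert b (insert a X))
  · rcases h.first (K := insert b (insert a X)) (by simp) (by simp) hx (by simp [hu]) with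
      o | o | ⟨Y, y1, y2, y3, y4, y5, y6, y7⟩ | ⟨o, -⟩
    · exact Or.inl o
    · exact Or.inr (Or.inl o)
    · exact Or.inr (Or.inr (h.third ka kb kf kX kC y1 y2 y3 y4 y6 y7))
    · simp [va, vb, vX] at o
  rcases h.first ka kb kf (kX hu) with
    o | o | ⟨Y, y1, y2, y3, y4, y5, y6, y7⟩ | ⟨-, T, h1, h2, h3, h4, h5, h6⟩
  · exact Or.inl o
  · exact Or.inr (Or.inl o)
  · exact Or.inr (Or.inr (h.third ka kb kf kX kC y1 y2 y3 y4 y6 y7))
  have s1 := g.up pab (Y := insert a X) (by simp) (by simp [ba, bX]) (z := v) (by simp [va, vX]) vb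
  have s2 : 0 ≤ rs p H (insert b (T ∩ X)) := by
    have k := g.cs.unc H (X := T) (Y := insert b (insert a X)) (P := insert b (T ∩ X))
      (Q := T ∪ insert b (insert a X)) (s := b) (t := v) h1 (by simp) h5 (by simp [va, vb, vX])
      (fun w => by
        simp only [mem_insert, mem_inter]
        constructor
        · rintro (rfl | x)
          exacts [⟨h1, Or.inl rfl⟩, ⟨x.1, Or.inr (Or.inr x.2)⟩]
        · rintro ⟨x, x' | rfl | x'⟩
          exacts [Or.inl x', absurd x h2, Or.inr ⟨x, x'⟩])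
      (fun _ => mem_union)
    have := h.fc (T := T ∪ insert b (insert a X)) (by simp) (by simp) (by simp [h4])
    omega
  have s3 := g.swap.up (by rw [pair_comm]; exact pab) (Y := insert b (T ∩ X)) (by simp)
    (by simp [ab, h2]) (z := v) (by simp [vb, h5]) va
  refine Or.inr (Or.inr ⟨T ∩ X, inter_subset_right, by simp [h3, hu], ?_, s2⟩)
  have k := g.cs.unc H (X := insert a (insert b (T ∩ X))) (Y := insert a X)
    (P := insert a (T ∩ X)) (Q := insert b (insert a X)) (s := a) (t := v) (by simp) (by simp)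
    (by simp [va, vb, vX]) (by simp [va, vX])
    (fun w => by
      simp only [mem_insert, mem_inter]
      constructor
      · rintro (x | x)
        exacts [⟨Or.inl x, Or.inl x⟩, ⟨Or.inr (Or.inr x), Or.inr x.2⟩]
      · rintro ⟨x | rfl | x, x'⟩
        exacts [Or.inl x, (x'.elim ba bX).elim, Or.inr x])
    (fun w => by simp only [mem_insert, mem_inter]; clear * -; tauto)
  omega

/-- GAMMA.  N = (C∪X)ᶜ, f N ≥ -1.  Move: remove cd, uv; add ad, bu, cv; blocker T splits neither C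
nor X.  a∈T,b∉T (need 0): d∈T,c∉T: bonus with aC; v∈T,u∉T: bonus with aX forces T = (bX)ᶜ.
b∈T,a∉T (need 0): u∈T, c,d,v∉T: uncross with N (bonus uv, union Cᶜ) forces T = bX; u,c∈T: uncross
with abCX (f ≥ -1), intersection bCX; d,u∈T, c,v∉T: bonus with abC; v,c∈T, u,d∉T: bonus with abX.
a,b∈T: d,u∈T, c,v∉T (need -1): uncross with N (bonus uv) gives f(T \ X) ≥ 0, bonus with aC;
u∈T, c,d,v∉T (need 1): uncross with N.  a,b∉T: c,v∈T, u,d∉T (need -1): f(aT) ≥ -1 via aC, uncross
with N (bonus cd, union Xᶜ) gives an a-tight set with v, bonus with aX; c,d,v∈T,u∉T (need 1):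
uncross with aC. -/
theorem KE.gamma (h : KE p H a b e e' c d u v C X)
    (q1 : ms (ends H + {a, b}) C ≤ symmMax p C) (q2 : ms (ends H + {a, b}) X ≤ symmMax p X)
    (hN : -1 ≤ rs p H (C ∪ X)ᶜ) :
    0 ≤ rs p H (insert b X) ∨ 0 ≤ rs p H (insert b X)ᶜ ∨ -1 ≤ rs p H (insert b (C ∪ X)) := by
  by_contra hcon
  push Not at hcon
  obtain ⟨o1, o2, o3⟩ := hcon
  obtain ⟨ad, ad', ⟨ca, cb, da, db⟩, ⟨ua, ub, va, vb⟩, ab, ba, uC, cX⟩ := h.facts
  obtain ⟨g, pab, hE, he, he', hf, hd, aC, bC, aX, bX, hc, hu, dC, dX, vC, vX, ta, tb, tx⟩ := id h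
  have aN : a ∈ (C ∪ X)ᶜ := by simp [aC, aX]
  have bN : b ∈ (C ∪ X)ᶜ := by simp [bC, bX]
  have dN : d ∈ (C ∪ X)ᶜ := by simp [dC, dX]
  have vN : v ∈ (C ∪ X)ᶜ := by simp [vC, vX]
  have cN : c ∉ (C ∪ X)ᶜ := by simp [hc]
  have uN : u ∉ (C ∪ X)ᶜ := by simp [hu]
  have mN : ∀ w, w ∉ C → w ∉ X → w ∈ (C ∪ X)ᶜ := fun w x y => by simp [x, y]
  generalize (C ∪ X)ᶜ = N at hN aN bN dN vN cN uN mN
  have s1 : 0 ≤ rs p H (insert b (insert a C)) :=
    ta.trans (g.up pab (by simp) (by simp [ba, bC]) (z := d) (by simp [da, dC]) db)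
  have s2 : 0 ≤ rs p H (insert b (insert a X)) :=
    tx.trans (g.up pab (by simp) (by simp [ba, bX]) (z := d) (by simp [da, dX]) db)
  have s3 : -1 ≤ rs p H (insert b (insert a C ∪ insert a X)) := by
    have k := g.sup (X := insert a C) (Y := insert a X) a b (by simp) (by simp)
      (by simp [ba, bC]) (by simp [ba, bX])
    have k1 := g.top (insert a C ∩ insert a X)
    have k2 := g.up pab (Y := insert a C ∪ insert a X) (by simp) (by simp [ba, bC, bX]) (z := d)
      (by simp [da, dC, dX]) db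
    omega
  obtain ⟨T, ns, need⟩ := g.blocked_ns (g.valid (mem_of_pair_le hE).1 hf) hE
    (M := {(a, d)} + {(b, u)} + {(c, v)})
    (by simp only [ends_add, ends_one, he.ends, he'.ends, pair_eq_add]; abel) {C, X}
    (isSub_pair hd) (by
      intro Z hZ
      simp only [mem_insert, mem_singleton] at hZ
      rcases hZ with rfl | rfl
      exacts [q1, q2])
  obtain ⟨n1, n2⟩ := noSplit_pair ns
  simp only [dG_add, dG_singleton, he.cut, he'.cut] at need
  have p0 := g.top T
  have g1 : ∀ z, z ∉ T → z ∉ C → z ≠ b → a ∈ T → b ∉ T → d ∈ T → c ∉ T → rs p H T ≤ -1 := by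
    intro z z1 z2 z3 h1 h2 h3 h4
    by_contra hh
    have := g.opp_eq ad aC bC h1 h2 hc h4 h3 dC ta (by omega)
    exact z1 (by rw [this]; simp [z2, z3])
  have g2 : a ∈ T → b ∉ T → v ∈ T → u ∉ T → rs p H T ≤ -1 := by
    intro h1 h2 h3 h4
    by_contra hh
    rw [← g.opp_eq ad' aX bX h1 h2 hu h4 h3 vX tx (by omega)] at o2
    omega
  have g3 : b ∈ T → u ∈ T → a ∉ T → c ∉ T → v ∉ T → rs p H T ≤ -1 := by
    intro h1 h2 h3 h4 h5
    by_contra hh
    have k := g.bon (X := T) (Y := N) (s := b) (t := c) ad' h1 bN h4 cN h2 uN vN h5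
    have k1 := h.fd (T := T ∪ N) (by simp [aN]) (by simp [bN]) (by simp [dN])
    have e1 : T = insert b X := by
      ext w
      simp only [mem_insert]
      constructor
      · intro x
        by_contra y
        push Not at y
        have := g.swap.le_a (X := T ∩ N) (x := w) (y := c) (by simp [h1, bN]) (by simp [h3])
          (mem_inter.2 ⟨x, mN w (fun z => h4 (n1 w z x c hc)) y.2⟩) y.1 (by simp [h4]) ca
        omega
      · rintro (rfl | x)
        exacts [h1, n2 u hu h2 w x]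
    rw [← e1] at o1
    omega
  have g4 : b ∈ T → u ∈ T → c ∈ T → a ∉ T → d ∉ T → rs p H T ≤ -1 := by
    intro h1 h2 h3 h4 h5
    have k := g.cs.unc H (X := T) (Y := insert b (insert a C ∪ insert a X))
      (P := insert b (C ∪ X)) (Q := T ∪ insert b (insert a C ∪ insert a X)) (s := b) (t := d) h1
      (by simp) h5 (by simp [da, db, dC, dX])
      (fun w => by
        simp only [mem_insert, mem_union]
        constructor
        · rintro (rfl | x | x)
          exacts [⟨h1, Or.inl rfl⟩, ⟨n1 c hc h3 w x, Or.inr (Or.inl (Or.inr x))⟩,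
            ⟨n2 u hu h2 w x, Or.inr (Or.inr (Or.inr x))⟩]
        · rintro ⟨x, y | (rfl | y) | rfl | y⟩
          exacts [Or.inl y, absurd x h4, Or.inr (Or.inl y), absurd x h4, Or.inr (Or.inr y)])
      (fun _ => mem_union)
    have k1 := h.fc (T := T ∪ insert b (insert a C ∪ insert a X)) (by simp) (by simp)
      (by simp [h3])
    omega
  have g6 : b ∈ T → v ∈ T → c ∈ T → u ∉ T → d ∉ T → rs p H T ≤ -1 := by
    intro h1 h2 h3 h4 h5
    have k := g.bon (X := insert b (insert a X)) (Y := T) (s := b) (t := d) ad' (by simp) h1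
      (by simp [da, db, dX]) h5 (by simp [hu]) h4 h2 (by simp [va, vb, vX])
    have k1 := g.top (insert b (insert a X) ∩ T)
    have k2 := h.fc (T := insert b (insert a X) ∪ T) (by simp) (by simp) (by simp [h3])
    omega
  have g7 : a ∈ T → b ∈ T → d ∈ T → u ∈ T → c ∉ T → v ∉ T → rs p H T ≤ -2 := by
    intro h1 h2 h3 h4 h5 h6
    have k := g.bon (X := T) (Y := N) (s := a) (t := c) ad' h1 aN h5 cN h4 uN vN h6
    have k1 := h.fd (T := T ∪ N) (by simp [aN]) (by simp [bN]) (by simp [dN])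
    have k2 := g.bon (X := insert a C) (Y := T ∩ N) (s := a) (t := v) ad (by simp)
      (by simp [h1, aN]) (by simp [va, vC]) (by simp [h6]) (by simp [hc]) (by simp [h5])
      (by simp [h3, dN]) (by simp [da, dC])
    have k3 := g.top (insert a C ∩ (T ∩ N))
    have k4 := h.fc (T := insert a C ∪ T ∩ N) (by simp) (by simp [h2, bN]) (by simp [hc])
    omega
  have g8 : a ∈ T → u ∈ T → c ∉ T → v ∉ T → rs p H T ≤ 0 := by
    intro h1 h2 h3 h4
    have k := g.bon (X := T) (Y := N) (s := a) (t := c) ad' h1 aN h3 cN h2 uN vN h4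
    have k1 := h.fd (T := T ∪ N) (by simp [aN]) (by simp [bN]) (by simp [dN])
    have k2 := g.top (T ∩ N)
    omega
  have g9 : c ∈ T → v ∈ T → a ∉ T → b ∉ T → u ∉ T → d ∉ T → rs p H T ≤ -2 := by
    intro h1 h2 h3 h4 h5 h6
    by_contra hh
    have k := g.sup (X := T) (Y := insert a C) c b h1 (by simp [hc]) h4 (by simp [ba, bC])
    have k1 := h.gd (T := T ∩ insert a C) (by simp [h3]) (by simp [h4]) (by simp [h6])
    have k2 := g.bon (X := T ∪ insert a C) (Y := N) (s := a) (t := u) ad (by simp) aN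
      (by simp [h5, ua, uC]) uN (by simp [h1]) cN dN (by simp [h6, da, dC])
    have k3 := h.fd (T := T ∪ insert a C ∪ N) (by simp) (by simp [bN]) (by simp [dN])
    have := g.opp_eq (T := (T ∪ insert a C) ∩ N) ad' aX bX (by simp [aN]) (by simp [h4, ba, bC])
      hu (by simp [uN]) (by simp [h2, vN]) vX tx (by omega)
    have k4 : c ∈ (T ∪ insert a C) ∩ N := by rw [this]; simp [cb, cX]
    exact cN (mem_inter.1 k4).2
  have g10 : c ∈ T → a ∉ T → b ∉ T → u ∉ T → rs p H T ≤ 0 := by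
    intro h1 h2 h3 h4
    have k := g.sup (X := T) (Y := insert a C) c b h1 (by simp [hc]) h3 (by simp [ba, bC])
    have k1 := h.gd (T := T ∩ insert a C) (by simp [h2]) (by simp [h3]) (by simp [da, dC])
    have k2 := g.le_a (X := T ∪ insert a C) (x := c) (y := u) (by simp) (by simp [h3, ba, bC])
      (by simp [h1]) ca (by simp [h4, ua, uC]) ub
    omega
  by_cases c1 : a ∈ T <;> by_cases c2 : b ∈ T <;> by_cases c3 : u ∈ T <;> by_cases c4 : v ∈ T <;>
    by_cases c5 : c ∈ T <;> by_cases c6 : d ∈ T <;>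
    simp only [cut, c1, c2, c3, c4, c5, c6, iff_true, iff_false, not_true,
      if_true, if_false, iff_self] at need <;>
    first
    | omega
    | (have := h.fc c1 c2 c5; omega)
    | (have := h.fd c1 c2 c6; omega)
    | (have := h.gc c1 c2 c5; omega)
    | (have := h.gd c1 c2 c6; omega)
    | (have := g1 u c3 uC ub c1 c2 c6 c5; omega)
    | (have := g1 v c4 vC vb c1 c2 c6 c5; omega)
    | (have := g2 c1 c2 c4 c3; omega)
    | (have := g3 c2 c3 c1 c5 c4; omega)
    | (have := g4 c2 c3 c5 c1 c6; omega)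
    | (have := g6 c2 c4 c5 c3 c6; omega)
    | (have := g7 c1 c2 c6 c3 c5 c4; omega)
    | (have := g8 c1 c3 c5 c4; omega)
    | (have := g9 c5 c4 c1 c2 c3 c6; omega)
    | (have := g10 c5 c1 c2 c3; omega)

end Pool.Agent.CSG

end

-- part MP_305420_co.LGEnd
section

/-! First mode of the light case: there is no maximal bad family. -/

set_option linter.unusedSectionVars false
set_option linter.unusedVariables false

namespace Pool.Agent.CSG

open Finset

variable {V : Type*} [Fintype V] [DecidableEq V]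
variable {p : Finset V → ℤ} {H : Multiset (V × V)} {a b r : V} {S : Finset (Finset V)}
variable {e : V × V} {G : Multiset (V × V)} {I : Finset (Finset V)} {c d : V} {C K : Finset V}

theorem sup_two (X Y : Finset V) : ({X, Y} : Finset (Finset V)).sup id = X ∪ Y := by
  rw [sup_insert, sup_singleton]; rfl

theorem sup_bX (b : V) (X : Finset V) : ({{b}, X} : Finset (Finset V)).sup id = insert b X := by
  rw [sup_two, insert_eq]

theorem wt_two {z : Finset V → ℤ} {X Y : Finset V} (h : X ≠ Y) : wt z {X, Y} = z X + z Y :=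
  sum_pair h

theorem R1.neb (h : R1 p H a b r S) {X : Finset V} (hX : X ∈ S) : ({b} : Finset V) ≠ X :=
  fun hh => h.bS (hh ▸ hX)

theorem R1.y1b (h : R1 p H a b r S) {X : Finset V} (hX : X ∈ S) :
    y1 p a {{b}, X} = rs p H (insert b X) + sur p H a b X := by
  unfold y1 rs
  rw [sup_bX, wt_two (h.neb hX), h.toL1.zb, h.toHB.db, h.sur_S hX]; ring

theorem R1.y2b (h : R1 p H a b r S) {X : Finset V} (hX : X ∈ S) :
    y2 p a {{b}, X} = rs p H (insert b X)ᶜ + sur p H a b X := by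
  unfold y2 rs
  rw [sup_bX, wt_two (h.neb hX), h.toL1.zb, dG_compl, h.toHB.db, h.sur_S hX]; ring

theorem R1.ta (h : R1 p H a b r S) {X : Finset V} (hX : X ∈ S) :
    rs p H (insert a X) = - sur p H a b X := by
  unfold rs
  rw [h.toHB.da, h.sur_S hX]; unfold zeta; ring

theorem R1.q_of_good (h : R1 p H a b r S) {X : Finset V} (h0 : sur p H a b X ≤ 0)
    (hg : Good p a {X}) : ms (ends H + {a, b}) X ≤ symmMax p X := by
  unfold Good at hg
  rw [wt_single, sup_singleton, id] at hg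
  unfold sur at h0; omega

theorem tp_of_sur {X : Finset V} (h0 : sur p H a b X ≤ 0) : TP p H a b X := by
  unfold sur at h0; unfold TP; omega

theorem MB.ni_sur (h : MB p H a b r S e G I) (n : NI p H a b S e c d C K) :
    sur p H a b C = 0 := by
  rw [h.toR1.sur_S n.CS, n.d1, n.z0]; rfl

theorem MB.not_act_b (h : MB p H a b r S e G I) : ¬ Act p H a b {b} := by
  rintro ⟨g, x, y, hd, hE, hx⟩
  exact (h.toHB.adj_ne (hE.adj hd.mem)).2.1 (mem_singleton.1 hx)

theorem MB.act_S (h : MB p H a b r S e G I) {X : Finset V} (hX : X ∈ I) (hA : Act p H a b X) :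
    X ∈ S := (mem_insert.1 (h.IS hX)).resolve_left fun hh => h.not_act_b (hh ▸ hA)

theorem MB.nev (h : MB p H a b r S e G I) (n : NI p H a b S e c d C K) {Y : Finset V}
    (hY : Y ∈ S) (hne : Y ≠ C) : y2 p a {{b}, C} < 0 := by
  rw [h.toR1.y2b n.CS, h.ni_sur n]
  by_contra hc
  obtain ⟨y, hy⟩ := h.ex.sp.ne Y hY
  have yK := (n.rest Y hY hne).1 hy
  have o1 := h.toR1.outS hY
  have o2 := h.toR1.outS n.CS
  have o3 := h.toHB.adj_ne (n.he.adj h.eH)
  have dC : d ∉ C := fun hh => n.dS (mem_sup_id.2 ⟨C, n.CS, hh⟩)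
  have ka := n.ka
  have kb := n.kb
  have kf := n.kf
  have cC := n.cC
  have dj := n.disj
  have hab := h.ab
  have a1 := h.cs.unc H (X := (insert b C)ᶜ) (Y := K) (P := K.erase b) (Q := Cᶜ) (s := a) (t := c)
    (by rw [mem_compl]; grind) ka (by rw [mem_compl]; grind) (by grind)
    (by intro v; rw [mem_compl]; grind) (by intro v; simp only [mem_compl]; grind)
  have a2 := h.toHB.le_a (X := K.erase b) (x := y) (y := c) (by grind) (by grind) (by grind)
    (by grind) (by grind) (by grind)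
  have a3 := h.free.in_ab n.he (X := Cᶜ) (mem_compl.2 o2.1) (mem_compl.2 o2.2.1)
    (Or.inr (mem_compl.2 dC))
  omega

theorem MB.good_of (h : MB p H a b r S e G I) {J : Finset (Finset V)} (hJ : J ⊆ I)
    (h1 : y1 p a J < 0) (h2 : y2 p a J < 0) (hne : J.Nonempty) {X : Finset V} (hX : X ∈ I)
    (hA : Act p H a b X) : X ∈ J := by
  by_contra hc
  have := good_iff.1 (h.miss hX hA (hJ.trans (subset_insert _ _)) hne hc)
  omega

/-- a maximal bad family has at most three members -/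
theorem MB.card_le (h : MB p H a b r S e G I) : I.card ≤ 3 := by
  by_contra hc
  have hel : ∀ k ∈ I, TP p H a b k → (∀ X ∈ I, X ≠ k → Act p H a b X) → False := by
    intro k hk hT hA
    obtain ⟨J, h1, h2, h3, h4, h5⟩ := h.nd.helly3 h.IS h.b1 h.b2 (by
      convert h.many_tight) hk hT
    have : I ⊆ J := fun X hX => by
      by_cases hXk : X = k
      · exact hXk ▸ h2
      · exact h.good_of h1 h4 h5 ⟨k, h2⟩ hX (hA X hX hXk)
    have := card_le_card this
    omega
  by_cases hC : ∃ C ∈ I, C ∈ S ∧ ¬ Act p H a b C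
  · obtain ⟨C, hCI, hCS, hn⟩ := hC
    obtain ⟨c, d, K, n⟩ := h.inactive hCS hn
    by_cases hb : ({b} : Finset V) ∈ I
    · obtain ⟨B, eB⟩ : ∃ B : Finset (Finset V), B = {{b}, C} := ⟨_, rfl⟩
      have hB : B ⊆ I := eB ▸ insert_subset hb (singleton_subset_iff.2 hCI)
      have hne : B.Nonempty := eB ▸ insert_nonempty _ _
      have c2 := card_sdiff_add_card_eq_card hB
      have c3 : B.card ≤ 2 := eB ▸ card_le_two
      have act : ∀ X ∈ I \ B, X ∈ S ∧ X ≠ C ∧ Act p H a b X := fun X hX => by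
        simp only [eB, mem_sdiff, mem_insert, mem_singleton, not_or] at hX
        have hS := (mem_insert.1 (h.IS hX.1)).resolve_left hX.2.1
        exact ⟨hS, hX.2.2, (n.rest X hS hX.2.2).2⟩
      obtain ⟨Y, hY⟩ : (I \ B).Nonempty := card_pos.1 (by omega)
      have nv := h.nev n (act Y hY).1 (act Y hY).2.1
      have o2 := h.toR1.outS n.CS
      have o3 := h.toHB.adj_ne (n.he.adj h.eH)
      have a0 := h.toR1.y1b n.CS
      have a2 := h.ni_sur n
      have a3 := h.toHB.swap.le_a (X := insert b C) (x := c) (y := r) (by simp)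
        (by simp [o2.1, h.ab]) (by simp [n.cC]) o3.2.1 (by simp [o2.2.2, h.rb]) h.ra
      rw [← eB] at nv a0
      have a1 := grow_le h.nd.s1 (hB.trans h.IS) hne 0 (I \ B)
        (sdiff_subset.trans h.IS) disjoint_sdiff ⟨Y, hY⟩ (by omega) (fun j hj => by
          have s1 : insert j B ⊆ I := insert_subset (mem_sdiff.1 hj).1 hB
          obtain ⟨i, hi, hij⟩ := exists_mem_ne (s := I \ B) (by omega) j
          exact h.nd.y_of_good (subset_insert _ _) (s1.trans h.IS) hne nv
            (good_iff.1 (h.miss (mem_sdiff.1 hi).1 (act i hi).2.2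
            (s1.trans (subset_insert _ _)) (insert_nonempty _ _)
            (by rw [mem_insert, not_or]; exact ⟨hij, (mem_sdiff.1 hi).2⟩))))
      rw [union_sdiff_of_subset hB] at a1
      have := h.b1
      omega
    · exact hel C hCI (tp_of_sur (h.ni_sur n).le) fun X hX hne =>
        (n.rest X ((mem_insert.1 (h.IS hX)).resolve_left fun hh => hb (hh ▸ hX)) hne).2
  · push Not at hC
    by_cases hb : ({b} : Finset V) ∈ I
    · exact hel {b} hb (tp_of_sur h.toR1.sur_b.le) fun X hX hne =>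
        hC X hX ((mem_insert.1 (h.IS hX)).resolve_left hne)
    · have a1 := h.many_tight
      have a2 := h.nd.d0 I h.IS
      obtain ⟨k, hk⟩ : (I.filter (TP p H a b)).Nonempty := card_pos.1 (by omega)
      exact hel k (mem_filter.1 hk).1 (mem_filter.1 hk).2 fun X hX hne =>
        hC X hX ((mem_insert.1 (h.IS hX)).resolve_left fun hh => hb (hh ▸ hX))

theorem MB.star_act (h : MB p H a b r S e G I) {x : Finset V} (hx : x ∈ I) (hA : Act p H a b x)
    (hs : (I.card : ℤ) ≤ sur p H a b x + 2) : False :=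
  h.star hx (h.act_S hx hA) h.card_le hs fun k hk hne =>
    h.miss hx hA (singleton_subset_iff.2 (mem_insert_of_mem hk)) (singleton_nonempty _)
      (by simpa using hne.symm)

theorem MB.two_le (h : MB p H a b r S e G I) : wt (sur p H a b) I + 2 ≤ I.card := by
  have a1 := h.sigma
  have a2 := h.nd.d0 I h.IS
  have a3 := h.sur_split
  have a4 := h.surn (sdiff_subset (s := insert {b} S) (t := I))
  omega

theorem MB.card_three (h : MB p H a b r S e G I) : I.card = 3 := by
  have a1 := h.two_le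
  have a2 := h.surn h.IS
  have a3 := h.card_le
  by_contra hc
  by_cases hA : ∃ x ∈ I, Act p H a b x
  · obtain ⟨x, hx, hA⟩ := hA
    have := h.toR1.sur_nonneg (h.IS hx)
    exact h.star_act hx hA (by omega)
  · push Not at hA
    obtain ⟨x, hx, hxb⟩ := exists_mem_ne (s := I) (by omega) {b}
    have hxS := (mem_insert.1 (h.IS hx)).resolve_left hxb
    have := h.toR1.sur_nonneg (h.IS hx)
    obtain ⟨c, d, K, n⟩ := h.inactive hxS (hA x hx)
    refine h.star hx hxS a3 (by omega) fun k hk hne => ?_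
    rcases mem_insert.1 (h.IS hk) with rfl | hkS
    · exact h.toR1.good_b
    · exact absurd (n.rest k hkS hne).2 (hA k hk)

theorem MB.sur0 (h : MB p H a b r S e G I) {x : Finset V} (hx : x ∈ I) : sur p H a b x = 0 := by
  have a1 := h.toR1.sur_nonneg (h.IS hx)
  have a2 := h.card_three
  by_contra hc
  refine h.star_act hx ?_ (by omega)
  by_contra hn
  rcases mem_insert.1 (h.IS hx) with rfl | hxS
  · exact hc h.toR1.sur_b
  · obtain ⟨c, d, K, n⟩ := h.inactive hxS hn
    exact hc (h.ni_sur n)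

theorem MB.S_eq (h : MB p H a b r S e G I) : S = I.erase {b} :=
  h.S_sub (sum_eq_zero fun x hx => h.sur0 hx).le

theorem MB.triple (h : MB p H a b r S e G I) {i j k : Finset V} (hI : I = {k, i, j})
    (hg : (0 ≤ y1 p a {k, i} ∧ 0 ≤ y1 p a {k, j}) ∨ (0 ≤ y2 p a {k, i} ∧ 0 ≤ y2 p a {k, j})) :
    False := by
  have m1 : k ∈ I := by simp [hI]
  have m2 : i ∈ I := by simp [hI]
  have m3 : j ∈ I := by simp [hI]
  have hij : i ≠ j := by
    rintro rfl
    have := h.card_three
    rw [hI, pair_eq_singleton] at this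
    have := card_le_two (a := k) (b := i)
    omega
  have := h.nd.triple (h.IS m2) (h.IS m3) (h.IS m1) hij (tp_of_sur (h.sur0 m1).le) hg
  rw [← hI] at this
  have := h.b1
  have := h.b2
  omega

theorem MB.three_pairs (h : MB p H a b r S e G I) {i j k : Finset V} (hI : I = {k, i, j})
    (g1 : Good p a {k, i}) (g2 : Good p a {k, j}) (g3 : Good p a {i, j}) : False := by
  have t1 := h.triple hI
  have t2 := h.triple (k := i) (i := k) (j := j) (by rw [hI, insert_comm])
  have t3 := h.triple (k := j) (i := k) (j := i) (by rw [hI, pair_comm i j, insert_comm])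
  rw [pair_comm i k] at t2
  rw [pair_comm j k, pair_comm j i] at t3
  rw [good_iff] at g1 g2 g3
  rcases g1 with g1 | g1 <;> rcases g2 with g2 | g2 <;> rcases g3 with g3 | g3
  exacts [t1 (.inl ⟨g1, g2⟩), t1 (.inl ⟨g1, g2⟩), t2 (.inl ⟨g1, g3⟩), t3 (.inr ⟨g2, g3⟩),
    t3 (.inl ⟨g2, g3⟩), t2 (.inr ⟨g1, g3⟩), t1 (.inr ⟨g1, g2⟩), t1 (.inr ⟨g1, g2⟩)]

theorem MB.pair_good (h : MB p H a b r S e G I) {X k l : Finset V} (hX : X ∈ I)
    (hA : Act p H a b X) (hk : k ∈ insert {b} I) (hl : l ∈ insert {b} I) (h1 : X ≠ k)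
    (h2 : X ≠ l) : Good p a {k, l} :=
  h.miss hX hA (insert_subset hk (singleton_subset_iff.2 hl)) (insert_nonempty _ _)
    (by rw [mem_insert, mem_singleton, not_or]; exact ⟨h1, h2⟩)

theorem MB.root_edge (h : MB p H a b r S e G I) {X : Finset V} (hX : X ∈ I) (hS : X ∈ S) :
    ∃ g ∈ H, ∃ u v, IsE g u v ∧ u ∈ X ∧ ∀ Y ∈ I, v ∉ Y := by
  obtain ⟨g, hg, u, v, hE, hu, _⟩ := h.edge_at hS
  exact ⟨g, hg, u, v, hE, hu, fun Y hY hv => h.other hg hE (mem_sup_id.2 ⟨X, hX, hu⟩)
    (mem_sup_id.2 ⟨Y, hY, hv⟩)⟩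

/-- the inactive part forms pairs of the first type when there are three parts -/
theorem MB.pair_one (h : MB p H a b r S e G I) (n : NI p H a b S e c d C K) (hC : C ∈ I)
    {j k : Finset V} (hj : j ∈ I) (hk : k ∈ I) (jS : j ∈ S) (kS : k ∈ S) (h1 : j ≠ C) (h2 : k ≠ C)
    (h3 : k ≠ j) : 0 ≤ y1 p a {C, j} := by
  by_contra hc
  have kA := (n.rest k kS h2).2
  have g1 := good_iff.1 (h.pair_good hk kA (mem_insert_of_mem hC) (mem_insert_of_mem hj) h2 h3)
  have a4 : y2 p a {C, j} = p (C ∪ j)ᶜ - 1 - zeta p a j := by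
    unfold y2; rw [wt_two h1.symm, n.z0, sup_two]; ring
  have nb : ({b} : Finset V) ∉ ({C, j} : Finset (Finset V)) := by
    rw [mem_insert, mem_singleton, not_or]; exact ⟨h.toR1.neb n.CS, h.toR1.neb jS⟩
  have a3 : y0 p a (insert {b} {C, j}) = p (insert a (insert b (C ∪ j))) - 1 - zeta p a j := by
    unfold y0
    rw [wt_insert nb, wt_two h1.symm, h.toL1.zb, n.z0, sup_insert, sup_two, id, sup_eq_union,
      ← insert_eq]
    simp only [zeta]; ring
  have s0 : ({C, j} : Finset (Finset V)) ⊆ I := insert_subset hC (singleton_subset_iff.2 hj)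
  have s3 : C ∈ ({C, j} : Finset (Finset V)) := mem_insert_self _ _
  have s4 : k ∉ insert {b} ({C, j} : Finset (Finset V)) := by
    simp only [mem_insert, mem_singleton, not_or]; exact ⟨(h.toR1.neb kS).symm, h2, h3⟩
  generalize ({C, j} : Finset (Finset V)) = B at *
  have s1 : insert {b} B ⊆ insert {b} I := insert_subset_insert _ s0
  have s2 : insert {b} I ⊆ insert {b} S := insert_subset (mem_insert_self _ _) h.IS
  have s5 : ({{b}, C} : Finset (Finset V)) ⊆ insert {b} B :=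
    insert_subset_insert _ (singleton_subset_iff.2 s3)
  have g2 := h.nd.y_of_good s5 (s1.trans s2) (insert_nonempty _ _)
    (h.nev n jS h1) (good_iff.1 (h.miss hk kA s1 (insert_nonempty _ _) s4))
  have s6 : B ⊆ insert {b} B := subset_insert _ _
  have a1 := h.nd.s3 _ (s1.trans s2) _ (s0.trans h.IS) (by
    rw [inter_eq_right.2 s6]; exact ⟨C, s3⟩)
  rw [inter_eq_right.2 s6, union_eq_left.2 s6] at a1
  have a2 := h.nd.d0 _ (s0.trans h.IS)
  have a5 := dG_submod H C j
  have a6 := dG_nonneg H (C ∩ j)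
  have a7 := h.toR1.sur_S jS
  have a8 := h.sur0 hj
  have a9 := n.d1
  have f1 : 0 ≤ rs p H (insert a (insert b (C ∪ j))) := by
    unfold rs; rw [h.toHB.da, h.toHB.db]; omega
  have f2 : -1 ≤ rs p H (C ∪ j)ᶜ := by unfold rs; rw [dG_compl]; omega
  obtain ⟨g, hg, u, v, hE, hu, hv⟩ := h.root_edge hj jS
  have vC := hv C hC
  have vj := hv j hj
  have o1 := h.toR1.outS jS
  have o2 := h.toR1.outS n.CS
  have o3 := h.toHB.adj_ne (n.he.adj h.eH)
  have o4 := h.toHB.adj_ne (hE.adj hg)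
  have dC : d ∉ C := fun hh => n.dS (mem_sup_id.2 ⟨C, n.CS, hh⟩)
  have dj : d ∉ j := fun hh => n.dS (mem_sup_id.2 ⟨j, jS, hh⟩)
  have dK : d ∉ K := fun hh => by
    have := h.free.in_ab n.he n.ka n.kb (Or.inr hh); have := n.kf; omega
  have jK : ∀ v ∈ j, v ∈ K := (n.rest j jS h1).1
  have ka := n.ka
  have kb := n.kb
  have kf := n.kf
  have cC := n.cC
  have dis := n.disj
  have hab := h.ab
  have b1 := h.cs.unc H (X := insert a (insert b (C ∪ j))) (Y := K) (P := insert a (insert b j))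
    (Q := C ∪ K) (s := a) (t := d) (by simp) ka (by grind) dK (by grind) (by grind)
  have b2 := h.free.in_ab n.he (X := C ∪ K) (by grind) (by grind) (by grind)
  have b3 := h.cs.unc1 (X := insert a (insert b j)) (Y := (C ∪ j)ᶜ) (P := {a, b}) (Q := Cᶜ)
    (s := a) (t := c) (by simp) (by rw [mem_compl]; grind) (by grind) (by rw [mem_compl]; grind)
    (hE.adj hg) (by grind) (by rw [mem_compl]; grind) (by rw [mem_compl]; grind) (by grind)
    (by intro w; rw [mem_compl]; grind) (by intro w; simp only [mem_compl]; grind)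
  have b4 := h.free.in_ab n.he (X := Cᶜ) (mem_compl.2 o2.1) (mem_compl.2 o2.2.1)
    (Or.inr (mem_compl.2 dC))
  have b5 := h.toL1.rs_ab
  omega

theorem MB.no_b (h : MB p H a b r S e G I) (hb : ({b} : Finset V) ∉ I) : False := by
  have hS : ∀ X ∈ I, X ∈ S := fun X hX =>
    (mem_insert.1 (h.IS hX)).resolve_left fun hh => hb (hh ▸ hX)
  by_cases hC : ∃ C ∈ I, ¬ Act p H a b C
  · obtain ⟨C, hC, hn⟩ := hC
    obtain ⟨c, d, K, n⟩ := h.inactive (hS C hC) hn
    have c1 := card_erase_add_one hC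
    have c2 := h.card_three
    obtain ⟨j, k, hjk, hE⟩ := card_eq_two.1 (show (I.erase C).card = 2 by omega)
    have m1 : j ∈ I.erase C := by simp [hE]
    have m2 : k ∈ I.erase C := by simp [hE]
    rw [mem_erase] at m1 m2
    exact h.triple (k := C) (i := j) (j := k) (by rw [← hE, insert_erase hC]) (Or.inl
      ⟨h.pair_one n hC m1.2 m2.2 (hS j m1.2) (hS k m2.2) m1.1 m2.1 hjk.symm,
        h.pair_one n hC m2.2 m1.2 (hS k m2.2) (hS j m1.2) m2.1 m1.1 hjk⟩)
  · push Not at hC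
    obtain ⟨k, i, j, h1, h2, h3, hI⟩ := card_eq_three.1 h.card_three
    have m1 : k ∈ I := by simp [hI]
    have m2 : i ∈ I := by simp [hI]
    have m3 : j ∈ I := by simp [hI]
    exact h.three_pairs hI
      (h.pair_good m3 (hC j m3) (mem_insert_of_mem m1) (mem_insert_of_mem m2) h2.symm h3.symm)
      (h.pair_good m2 (hC i m2) (mem_insert_of_mem m1) (mem_insert_of_mem m3) h1.symm h3)
      (h.pair_good m1 (hC k m1) (mem_insert_of_mem m2) (mem_insert_of_mem m3) h1 h2)

theorem pair_le_cons {α : Type*} {e g : α} {G : Multiset α} (hg : g ∈ G) :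
    {e} + {g} ≤ e ::ₘ G := by
  rw [Multiset.singleton_add]
  exact Multiset.cons_le_cons _ (Multiset.singleton_le.2 hg)

theorem MB.dS (h : MB p H a b r S e G I) {X X' : Finset V} (hS : S = {X, X'}) (hne : X ≠ X') :
    dG H (X ∪ X') = 2 + zeta p a X + zeta p a X' := by
  have a1 := h.dJ
  have a2 := h.ex.val_eq
  rw [← h.S_eq, hS, sup_two] at a1
  rw [hS, val_eq_wt, wt_two hne, card_pair hne] at a2
  push_cast at a2
  omega

theorem MB.SI (h : MB p H a b r S e G I) {X : Finset V} (hX : X ∈ S) : X ∈ I := by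
  rw [h.S_eq] at hX; exact mem_of_mem_erase hX

/-- two parts, one of them of the second type together with `b` -/
theorem MB.bridge (h : MB p H a b r S e G I) {X X' : Finset V} (hS : S = {X, X'}) (hne : X ≠ X')
    (g1 : Good p a {X}) (g2 : 0 ≤ y2 p a {{b}, X'}) : Good p a {X, X'} := by
  have m1 : X ∈ S := by simp [hS]
  have m2 : X' ∈ S := by simp [hS]
  have i1 := h.SI m1
  have i2 := h.SI m2
  have z1 := h.sur0 i1
  have z2 := h.sur0 i2
  have g3 : Good p a {X'} := good_iff.2 (Or.inr (g2.trans (h.nd.yb_anti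
    (subset_insert _ _) (insert_subset_insert _ (singleton_subset_iff.2 m2))
    (singleton_nonempty _))))
  have dis := h.ex.sp.disj X m1 X' m2 hne
  have key : ∃ e1 e2 u v u' v', {e1} + {e2} ≤ H ∧ IsE e1 u v ∧ IsE e2 u' v' ∧
      (Free p H a b e1 ∨ Free p H a b e2) ∧ u ∈ X ∧ u' ∈ X' ∧ (∀ Y ∈ I, v ∉ Y) ∧
      ∀ Y ∈ I, v' ∉ Y := by
    obtain ⟨x, y, hx, hy, hA, hE⟩ := adj_of_cut h.eH (h.cross e h.eH)
    have hE' : IsE e x y := hE
    have hy' : ∀ Y ∈ I, y ∉ Y := fun Y hY hh => hy (mem_sup_id.2 ⟨Y, hY, hh⟩)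
    have oth : ∀ Y ∈ S, x ∉ Y → ∃ g ∈ G, ∃ u v, IsE g u v ∧ u ∈ Y ∧ ∀ Z ∈ I, v ∉ Z := by
      intro Y hY hxY
      obtain ⟨g, hg, u, v, hg', hu, hv⟩ := h.root_edge (h.SI hY) hY
      rw [h.hH] at hg
      refine ⟨g, (Multiset.mem_cons.1 hg).resolve_left ?_, u, v, hg', hu, hv⟩
      rintro rfl
      have := hy' Y (h.SI hY)
      rcases hg' with rfl | rfl <;> rcases hE with e1 | e1 <;> simp only [Prod.mk.injEq] at e1 <;>
        obtain ⟨rfl, rfl⟩ := e1 <;> first | exact hxY hu | exact this hu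
    obtain ⟨Y, hY, hxY⟩ := mem_sup_id.1 hx
    rcases mem_insert.1 (h.IS hY) with rfl | hY'
    · exact absurd (mem_singleton.1 hxY) (h.toHB.adj_ne hA).2.1
    rw [hS, mem_insert, mem_singleton] at hY'
    rcases hY' with rfl | rfl
    · obtain ⟨g, hg, u, v, b1, b2, b3⟩ := oth X' m2 (disjoint_left.1 dis hxY)
      exact ⟨e, g, x, y, u, v, h.hH ▸ pair_le_cons hg, hE', b1, Or.inl h.free, hxY, b2, hy', b3⟩
    · obtain ⟨g, hg, u, v, b1, b2, b3⟩ := oth X m1 (disjoint_right.1 dis hxY)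
      exact ⟨g, e, u, v, x, y, by rw [add_comm, h.hH]; exact pair_le_cons hg, b1, hE',
        Or.inr h.free, b2, hxY, b3, hy'⟩
  obtain ⟨e1, e2, u, v, u', v', k1, k2, k3, k4, k5, k6, k7, k8⟩ := key
  have o1 := h.toR1.outS m1
  have o2 := h.toR1.outS m2
  have t1 := h.toR1.ta m1
  have t2 := h.toR1.ta m2
  have t3 := h.toR1.y2b m2
  have a1 := h.toHB.pair_bridge h.pab k1 k2 k3 k4 dis o1.1 o1.2.1 o2.1 o2.2.1 k5 k6 (k7 X i1)
    (k7 X' i2) (k8 X i1) (k8 X' i2) (h.toR1.q_of_good z1.le g1) (h.toR1.q_of_good z2.le g3)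
    (by omega) (by omega) (by omega)
  have a2 := h.dS hS hne
  unfold rs at a1
  rw [dG_compl] at a1
  unfold Good symmMax
  rw [sup_two, wt_two hne]
  omega

theorem exists_of_mem_ends {v : V} (hv : v ∈ ends H) : ∃ g ∈ H, ∃ w, IsE g v w := by
  rcases Multiset.mem_add.1 hv with hv | hv <;> obtain ⟨g, hg, rfl⟩ := Multiset.mem_map.1 hv
  exacts [⟨g, hg, g.2, Or.inl rfl⟩, ⟨g, hg, g.1, Or.inr rfl⟩]

/-- a tight part whose edge ends lie in doubly tight subsets is doubly tight -/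
theorem R1.doubly (h : R1 p H a b r S) {X : Finset V} (hX : X ∈ S) (h0 : sur p H a b X = 0)
    (hc : ∀ v ∈ ends H, v ∈ X →
      ∃ Z ⊆ X, v ∈ Z ∧ 0 ≤ rs p H (insert a Z) ∧ 0 ≤ rs p H (insert b Z)) :
    0 ≤ rs p H (insert b X) := by
  have o := h.outS hX
  have key : ∀ {a b : V}, HB p H a b → r ≠ a → r ≠ b → a ∉ X → b ∉ X → ∀ L L', L ⊆ X → L' ⊆ X →
      (L ∩ L').Nonempty → 0 ≤ rs p H (insert a L) → 0 ≤ rs p H (insert a L') →
      0 ≤ rs p H (insert a (L ∪ L')) := by
    intro a b h ra rb o1 o2 L L' s1 s2 ⟨v, hv⟩ t1 t2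
    have o3 := o.2.2
    have hab := h.ab
    have s1' : ∀ v ∈ L, v ∈ X := s1
    have s2' : ∀ v ∈ L', v ∈ X := s2
    have a1 := h.cs.unc H (X := insert a L) (Y := insert a L') (P := insert a (L ∩ L'))
      (Q := insert a (L ∪ L')) (s := a) (t := r) (by simp) (by simp) (by grind) (by grind)
      (by grind) (by grind)
    have a2 := h.le_a (X := insert a (L ∩ L')) (x := v) (y := r) (by simp) (by grind) (by grind)
      (by grind) (by grind) rb
    omega
  obtain ⟨T, h1, h2, h3⟩ := exists_max_members (W := X)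
    (fun L => L ⊆ X ∧ L.Nonempty ∧ 0 ≤ rs p H (insert a L) ∧ 0 ≤ rs p H (insert b L))
    (fun L hL => ⟨hL.1, hL.2.1⟩) (fun L L' hL hL' hne => ⟨union_subset hL.1 hL'.1,
      hL.2.1.mono subset_union_left,
      key h.toHB h.ra h.rb o.1 o.2.1 L L' hL.1 hL'.1 hne hL.2.2.1 hL'.2.2.1,
      key h.toHB.swap h.rb h.ra o.2.1 o.1 L L' hL.1 hL'.1 hne hL.2.2.2 hL'.2.2.2⟩)
  by_cases hXT : X ∈ T
  · exact (h2 X hXT).2.2.2
  exfalso
  have a1 := h.fin X hX T h1 hXT
  have a2 : ms (ends H) X ≤ ms (ends H) (T.sup id) := ms_le_of_cover fun v hv hvX => by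
    obtain ⟨Z, z1, z2, z3, z4⟩ := hc v hv hvX
    obtain ⟨L, l1, l2⟩ := h3 Z ⟨z1, ⟨v, z2⟩, z3, z4⟩
    exact mem_sup_id.2 ⟨L, l1, l2 z2⟩
  have a3 := h.sur_S hX
  have a4 := ms_eq_inn H X
  rw [h.ex.inn_part hX] at a4
  have a5 : ∑ L ∈ T, ms (ends H) L ≤ val (zeta p a) T := sum_le_sum fun L hL => by
    have b1 := dG_eq_ms_of_subset (H := H) (Z := X) (by omega) (h2 L hL).1
    have b2 := (h2 L hL).2.2.1
    unfold rs at b2
    rw [h.toHB.da] at b2
    unfold zeta; omega
  rw [ms_sup _ h1] at a2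
  omega

theorem MB.shape (h : MB p H a b r S e G I) (hb : ({b} : Finset V) ∈ I) {X : Finset V}
    (hX : X ∈ S) : ∃ X', X ≠ X' ∧ S = {X, X'} := by
  have c1 := card_erase_add_one hb
  have c2 := h.card_three
  rw [← h.S_eq] at c1
  have c3 := card_erase_add_one hX
  obtain ⟨X', hX'⟩ := card_eq_one.1 (show (S.erase X).card = 1 by omega)
  refine ⟨X', ?_, ?_⟩
  · have : X' ∈ S.erase X := by simp [hX']
    exact (ne_of_mem_erase this).symm
  · rw [← hX', insert_erase hX]

theorem MB.I_eq (h : MB p H a b r S e G I) (hb : ({b} : Finset V) ∈ I) {X X' : Finset V}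
    (hS : S = {X, X'}) : I = {{b}, X, X'} := by
  rw [← hS, h.S_eq, insert_erase hb]

theorem MB.both_act (h : MB p H a b r S e G I) (hb : ({b} : Finset V) ∈ I) {X X' : Finset V}
    (hS : S = {X, X'}) (hne : X ≠ X') (hA : Act p H a b X) (hA' : Act p H a b X') : False := by
  have m1 : X ∈ S := by simp [hS]
  have m2 : X' ∈ S := by simp [hS]
  have i1 := h.SI m1
  have i2 := h.SI m2
  have g1 := h.pair_good i2 hA' (mem_insert_self _ _) (mem_insert_of_mem i1)
    (h.toR1.neb m2).symm hne.symm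
  have g2 := h.pair_good i1 hA (mem_insert_self _ _) (mem_insert_of_mem i2)
    (h.toR1.neb m1).symm hne
  have g3 : Good p a {X} := h.miss i2 hA' (singleton_subset_iff.2 (mem_insert_of_mem i1))
    (singleton_nonempty _) (by simpa using hne.symm)
  have g4 : Good p a {X'} := h.miss i1 hA (singleton_subset_iff.2 (mem_insert_of_mem i2))
    (singleton_nonempty _) (by simpa using hne)
  have hI := h.I_eq hb hS
  rcases good_iff.1 g2 with k2 | k2
  · rcases good_iff.1 g1 with k1 | k1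
    · exact h.triple hI (Or.inl ⟨k1, k2⟩)
    · refine h.three_pairs hI g1 g2 ?_
      rw [pair_comm]
      exact h.bridge (hS.trans (pair_comm _ _)) hne.symm g4 k1
  · exact h.three_pairs hI g1 g2 (h.bridge hS hne g3 k2)

theorem MB.one_act (h : MB p H a b r S e G I) (hb : ({b} : Finset V) ∈ I)
    (n : NI p H a b S e c d C K) (hn : ¬ Act p H a b C) : False := by
  obtain ⟨X, hne, hS⟩ := h.shape hb n.CS
  have m1 := n.CS
  have m2 : X ∈ S := by simp [hS]
  have i1 := h.SI m1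
  have i2 := h.SI m2
  have z1 := h.sur0 i1
  have z2 := h.sur0 i2
  obtain ⟨XK, hA⟩ := n.rest X m2 hne.symm
  have hI := h.I_eq hb hS
  have g1 := h.pair_good i2 hA (mem_insert_self _ _) (mem_insert_of_mem i1)
    (h.toR1.neb m2).symm hne.symm
  have g3 : Good p a {C} := h.miss i2 hA (singleton_subset_iff.2 (mem_insert_of_mem i1))
    (singleton_nonempty _) (by simpa using hne.symm)
  have k1 : 0 ≤ y1 p a {{b}, C} :=
    (good_iff.1 g1).resolve_right (not_le.2 (h.nev n m2 hne.symm))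
  have t1 := h.toR1.ta m1
  have t2 := h.toR1.ta m2
  have t3 := h.toR1.y1b m1
  have t4 := h.toR1.y1b m2
  have t5 := h.toR1.y2b m2
  have n1 : ¬ 0 ≤ rs p H (insert b X) := fun hh => h.triple hI (Or.inl ⟨k1, by omega⟩)
  have n2 : ¬ 0 ≤ rs p H (insert b X)ᶜ := fun hh =>
    h.three_pairs hI g1 (good_iff.2 (Or.inr (by omega))) (h.bridge hS hne g3 (by omega))
  have n3 : ¬ -1 ≤ rs p H (insert b (C ∪ X)) := fun hh => by
    have a1 := h.b1
    have a2 := h.dS hS hne
    unfold y1 at a1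
    rw [hI, ← hS, wt_insert h.toR1.bS, h.toL1.zb, sup_insert, hS, sup_two, wt_two hne, id,
      sup_eq_union, ← insert_eq] at a1
    unfold rs at hh
    rw [h.toHB.db] at hh
    omega
  have o1 := h.toR1.outS m1
  have o2 := h.toR1.outS m2
  have dis := h.ex.sp.disj C m1 X m2 hne
  have dC : d ∉ C := fun hh => n.dS (mem_sup_id.2 ⟨C, m1, hh⟩)
  have dX : d ∉ X := fun hh => n.dS (mem_sup_id.2 ⟨X, m2, hh⟩)
  refine n1 (h.toR1.doubly m2 z2 fun u hu huX => ?_)
  obtain ⟨g, hg, v, hE⟩ := exists_of_mem_ends hu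
  have hv := h.other hg hE (mem_sup_id.2 ⟨X, i2, huX⟩)
  have hG : g ∈ G := by
    rw [h.hH] at hg
    refine (Multiset.mem_cons.1 hg).resolve_left ?_
    rintro rfl
    have := disjoint_left.1 dis n.cC
    rcases hE with rfl | rfl <;> rcases n.he with e1 | e1 <;> simp only [Prod.mk.injEq] at e1 <;>
      obtain ⟨rfl, rfl⟩ := e1 <;> first | exact dX huX | exact this huX
  have ke : KE p H a b e g c d u v C X :=
    ⟨h.toHB, h.pab, h.hH ▸ pair_le_cons hG, n.he, hE, h.free, dis, o1.1, o1.2.1, o2.1, o2.2.1,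
      n.cC, huX, dC, dX, fun hh => hv (mem_sup_id.2 ⟨C, i1, hh⟩),
      fun hh => hv (mem_sup_id.2 ⟨X, i2, hh⟩), by omega, by omega, by omega⟩
  rcases ke.double n.ka n.kb n.kf XK (disjoint_left.2 n.disj) with k | ⟨k, k'⟩ | k
  · exact absurd k n2
  · have q2 : ms (ends H + {a, b}) X ≤ symmMax p X := by
      have := le_symmMax' p X
      unfold rs at k'
      rw [dG_compl] at k'
      rw [h.toR1.ms_part m2]; omega
    rcases ke.gamma (h.toR1.q_of_good z1.le g3) q2 k with l | l | l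
    exacts [absurd l n1, absurd l n2, absurd l n3]
  · exact k

theorem MB.false (h : MB p H a b r S e G I) : False := by
  by_cases hb : ({b} : Finset V) ∈ I
  swap
  · exact h.no_b hb
  by_cases hC : ∃ C ∈ S, ¬ Act p H a b C
  · obtain ⟨C, hC, hn⟩ := hC
    obtain ⟨c, d, K, n⟩ := h.inactive hC hn
    exact h.one_act hb n hn
  · push Not at hC
    obtain ⟨X, hX, hXb⟩ := exists_mem_ne (s := I) (by rw [h.card_three]; omega) {b}
    have hXS := (mem_insert.1 (h.IS hX)).resolve_left hXb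
    obtain ⟨X', hne, hS⟩ := h.shape hb hXS
    exact h.both_act hb hS hne (hC X hXS) (hC X' (by simp [hS]))

theorem allGood (a b r : V) (H : Multiset (V × V)) : ∀ p, AllGood p H a b r := by
  induction H using Multiset.strongInductionOn with
  | ih H ih =>
    rintro p hL ⟨e, he, hf⟩ S hS hv hfin I0 hI0 hne
    have h := hL.r1 hS hv hfin fun p' e K hK => ih K (hK ▸ Multiset.lt_cons_self _ _) p'
    obtain ⟨G, hG⟩ := Multiset.exists_cons_of_mem he
    by_contra hbad
    rw [good_iff, not_or, not_le, not_le] at hbad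
    obtain ⟨I, hI, hmax⟩ := exists_max_image ((insert {b} S).powerset.filter
      (fun J => I0 ⊆ J ∧ y1 p a J < 0)) card ⟨I0, by simp [hI0, hbad.1]⟩
    simp only [mem_filter, mem_powerset] at hI hmax
    exact MB.false (e := e) (G := G) (I := I) ⟨h, hG, hf, hI.1, hne.mono hI.2.1, hI.2.2,
      ((h.node (h.toHB.valid he hf)).yb_anti hI.2.1 hI.1 hne).trans_lt hbad.2,
      fun J h1 h2 h3 => (eq_of_subset_of_card_le h1 (hmax J ⟨h2, hI.2.1.trans h1, h3⟩)).symm⟩

theorem lg1 : LG1 V := by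
  rintro p H a b h hf ⟨pab, r, S0, ra, rb, rK, hS0, hv0⟩
  obtain ⟨S, hS, hv, hfin⟩ := exists_finest (zeta p a) hS0
  have hL : L1 p H a b r := ⟨h, pab, ra, rb, rK⟩
  have hR := hL.r1 hS (hv0.trans hv) hfin fun p' e K _ => allGood a b r K p'
  have hG := allGood a b r H p hL hf S hS (hv0.trans hv) hfin
  have nb : ∀ J ⊆ S, ({b} : Finset V) ∉ J := fun J hJ hh => hR.bS (hJ hh)
  have eb : ∀ J : Finset (Finset V), (insert {b} J).sup id = insert b (J.sup id) := fun J => by
    rw [sup_insert, insert_eq]; rfl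
  refine obst_of_parts h.ab hS (zeta p a) (fun X hX => hfin.nonneg hX) (hv0.trans hv)
    (fun J hJ hne => hG J (hJ.trans (subset_insert _ _)) hne) (fun J hJ => ?_) (fun J hJ => ?_)
    (fun J hJ => ?_)
  · have a1 := hR.ex.wt_le hJ
    have a2 := le_symmMax p (insert a (J.sup id))
    change 1 + wt (zeta p a) J ≤ _
    simp only [zeta] at *
    omega
  · have a1 := hG (insert {b} J) (insert_subset_insert _ hJ) (insert_nonempty _ _)
    unfold Good at a1
    rw [wt_insert (nb J hJ), hL.zb, eb, zero_add] at a1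
    exact a1
  · have a1 := hR.exP.wt_le (insert_subset_insert {b} hJ)
    have a2 := le_symmMax p (insert a (insert b (J.sup id)))
    rw [wt_insert (nb J hJ), hL.zb, eb] at a1
    change 1 + wt (zeta p a) J ≤ _
    simp only [zeta] at *
    omega

end Pool.Agent.CSG

end

-- part MP_305420_co.LLBase
section

/-! The light configuration in a self-dual form and the interface to the trace checker. -/

set_option linter.unusedSectionVars false

namespace Pool.Agent.CSG

open Finset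

variable {V : Type*} [Fintype V] [DecidableEq V]

/-- residual demand after adding the edge `c d` -/
def phi (p : Finset V → ℤ) (G : Multiset (V × V)) (c d : V) (X : Finset V) : ℤ :=
  p X - dG ((c, d) ::ₘ G) X

/-- upper bound on all sets with a given trace -/
def Le (φ : Finset V → ℤ) (ins outs : List V) (k : ℤ) : Prop :=
  ∀ X, (∀ v ∈ ins, v ∈ X) → (∀ v ∈ outs, v ∉ X) → φ X ≤ k

/-- some set with a given trace has a large value -/
def Ge (φ : Finset V → ℤ) (ins outs : List V) (k : ℤ) : Prop :=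
  ∃ X, (∀ v ∈ ins, v ∈ X) ∧ (∀ v ∈ outs, v ∉ X) ∧ k ≤ φ X

theorem not_le_iff {φ : Finset V → ℤ} {ins outs : List V} {k : ℤ} :
    ¬ Le φ ins outs k ↔ Ge φ ins outs (k + 1) := by
  unfold Le Ge
  push Not
  exact exists_congr fun X => by rw [Int.lt_iff_add_one_le]

theorem Ge.of_not {φ : Finset V → ℤ} {ins outs : List V} {k k' : ℤ} (h : ¬ Le φ ins outs k)
    (hk : k' = k + 1) : Ge φ ins outs k' := hk ▸ not_le_iff.1 h

theorem Le.of_not {φ : Finset V → ℤ} {ins outs : List V} {k k' : ℤ} (h : ¬ Ge φ ins outs k')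
    (hk : k' = k + 1) : Le φ ins outs k := by
  by_contra hc
  exact h (Ge.of_not hc hk)

theorem Le.compl {φ ψ : Finset V → ℤ} (h : ∀ X, ψ X = φ Xᶜ) {ins outs : List V} {k : ℤ}
    (hl : Le φ ins outs k) : Le ψ outs ins k := fun X h1 h2 => by
  rw [h]
  exact hl _ (fun v hv => Finset.mem_compl.2 (h2 v hv))
    (fun v hv hc => Finset.mem_compl.1 hc (h1 v hv))

theorem Ge.compl {φ ψ : Finset V → ℤ} (h : ∀ X, ψ X = φ Xᶜ) {ins outs : List V} {k : ℤ}
    (hl : Ge φ ins outs k) : Ge ψ outs ins k := by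
  obtain ⟨X, h1, h2, h3⟩ := hl
  exact ⟨Xᶜ, fun v hv => Finset.mem_compl.2 (h2 v hv),
    fun v hv hc => Finset.mem_compl.1 hc (h1 v hv), by rwa [h, compl_compl]⟩

theorem Le.perm {φ : Finset V → ℤ} {ins outs ins' outs' : List V} {k : ℤ} (hl : Le φ ins outs k)
    (h1 : ins ⊆ ins') (h2 : outs ⊆ outs') : Le φ ins' outs' k :=
  fun X a b => hl X (fun v hv => a v (h1 hv)) (fun v hv => b v (h2 hv))

theorem Ge.perm {φ : Finset V → ℤ} {ins outs ins' outs' : List V} {k : ℤ} (hl : Ge φ ins outs k)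
    (h1 : ins' ⊆ ins) (h2 : outs' ⊆ outs) : Ge φ ins' outs' k := by
  obtain ⟨X, a, b, c⟩ := hl
  exact ⟨X, fun v hv => a v (h1 hv), fun v hv => b v (h2 hv), c⟩

/-- light configuration -/
structure LLc (p : Finset V → ℤ) (G : Multiset (V × V)) (a b c d : V) : Prop
    extends Cfg p G a b c d where
  top : ∀ X, rs p G X ≤ 1
  ab : a ≠ b
  ac : a ≠ c
  ad : a ≠ d
  bc : b ≠ c
  bd : b ≠ d
  cd : c ≠ d
  light : ∀ e ∈ G, e.1 ≠ a ∧ e.2 ≠ a ∧ e.1 ≠ b ∧ e.2 ≠ b
  pa : p {a} = 1
  pb : p {b} = 1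
  pab : p {a, b} = 1
  Pa : ∀ X, a ∈ X → b ∉ X → c ∉ X → d ∉ X → X ≠ {a} → rs p G X ≤ 0
  Pb : ∀ X, a ∉ X → b ∈ X → c ∉ X → d ∉ X → X ≠ {b} → rs p G X ≤ 0
  mac : ∃ X, a ∈ X ∧ b ∉ X ∧ c ∈ X ∧ d ∉ X ∧ rs p G X = 1
  mbc : ∃ X, a ∉ X ∧ b ∈ X ∧ c ∈ X ∧ d ∉ X ∧ rs p G X = 1

theorem dG_zero_of {G : Multiset (V × V)} {X : Finset V} (h : ∀ e ∈ G, (e.1 ∈ X ↔ e.2 ∈ X)) :
    dG G X = 0 := by
  induction G using Multiset.induction_on with
  | empty => simp
  | cons e G ih =>
    rw [dG_cons, cut_eq_zero.2 (h e (Multiset.mem_cons_self _ _)),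
      ih (fun e' he' => h e' (Multiset.mem_cons_of_mem he'))]
    simp

theorem dG_congr {G : Multiset (V × V)} {X Y : Finset V}
    (h : ∀ e ∈ G, (e.1 ∈ X ↔ e.1 ∈ Y) ∧ (e.2 ∈ X ↔ e.2 ∈ Y)) : dG G X = dG G Y := by
  induction G using Multiset.induction_on with
  | empty => simp
  | cons e G ih =>
    rw [dG_cons, dG_cons, ih (fun e' he' => h e' (Multiset.mem_cons_of_mem he'))]
    obtain ⟨h1, h2⟩ := h e (Multiset.mem_cons_self _ _)
    simp only [cut, h1, h2]

theorem LLState.toLLc {p : Finset V → ℤ} {G : Multiset (V × V)} {a b c d : V}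
    (h : LLState p G a b c d) : LLc p G a b c d := by
  have z1 : dG G {a} = 0 := dG_zero_of fun e he => by simp [h.light e he]
  have z2 : dG G {b} = 0 := dG_zero_of fun e he => by simp [h.light e he]
  have z3 : dG G {a, b} = 0 := dG_zero_of fun e he => by simp [h.light e he]
  have s1 := h.sa
  have s2 := h.sb
  have s3 := h.sab
  unfold rs at s1 s2 s3
  refine ⟨h.toCfg, h.top, h.ab, h.ac, h.ad, h.bc, h.bd, h.cd, h.light, by omega, by omega,
    by omega, ?_, ?_, h.mac, h.mbc⟩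
  · intro X h1 h2 h3 h4 h5
    by_contra hc
    have := h.top X
    rcases (h.anca X h1 h2 h3 h4 (by omega)).2 with h6 | ⟨v, _, _, h6 | h6⟩
    exacts [h5 h6, (h.light _ h6).1 rfl, (h.light _ h6).2.1 rfl]
  · intro X h1 h2 h3 h4 h5
    by_contra hc
    have := h.top X
    rcases (h.ancb X h2 h1 h3 h4 (by omega)).2 with h6 | ⟨v, _, _, h6 | h6⟩
    exacts [h5 h6, (h.light _ h6).2.2.1 rfl, (h.light _ h6).2.2.2 rfl]

theorem four_swap (a b c d : V) : ({b, a, c, d} : Multiset V) = {a, b, c, d} :=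
  Multiset.cons_swap _ _ _

theorem four_swap' (a b c d : V) : ({a, b, d, c} : Multiset V) = {a, b, c, d} := by
  simp only [Multiset.insert_eq_cons]
  rw [← Multiset.cons_zero c, ← Multiset.cons_zero d, Multiset.cons_swap d c]

namespace LLc

variable {p : Finset V → ℤ} {G : Multiset (V × V)} {a b c d : V}

theorem swap (h : LLc p G a b c d) : LLc p G b a c d := by
  refine ⟨⟨h.cs, by rw [four_swap]; exact h.valid, by rw [four_swap]; exact h.uns⟩, h.top,
    h.ab.symm, h.bc, h.bd, h.ac, h.ad, h.cd, fun e he => ?_, h.pb, h.pa,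
    by rw [Finset.pair_comm]; exact h.pab, fun X h1 h2 => h.Pb X h2 h1, fun X h1 h2 => h.Pa X h2 h1,
    ?_, ?_⟩
  · obtain ⟨a1, a2, a3, a4⟩ := h.light e he
    exact ⟨a3, a4, a1, a2⟩
  · obtain ⟨X, a1, a2, a3⟩ := h.mbc
    exact ⟨X, a2, a1, a3⟩
  · obtain ⟨X, a1, a2, a3⟩ := h.mac
    exact ⟨X, a2, a1, a3⟩

/-- change of the graph that keeps cuts and ends -/
theorem congr (h : LLc p G a b c d) {G' : Multiset (V × V)} (h1 : ∀ X, dG G' X = dG G X)
    (h2 : ends G' = ends G) (h3 : ∀ e ∈ G', e ∈ G ∨ e.swap ∈ G) : LLc p G' a b c d := by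
  have hr : ∀ X, rs p G' X = rs p G X := fun X => by unfold rs; rw [h1]
  refine ⟨⟨h.cs, fun X => by rw [h1]; exact h.valid X, by rw [h2]; exact h.uns⟩,
    fun X => by rw [hr]; exact h.top X, h.ab, h.ac, h.ad, h.bc, h.bd, h.cd, fun e he => ?_,
    h.pa, h.pb, h.pab, fun X => by rw [hr]; exact h.Pa X, fun X => by rw [hr]; exact h.Pb X,
    by simpa only [hr] using h.mac, by simpa only [hr] using h.mbc⟩
  rcases h3 e he with h4 | h4
  · exact h.light e h4
  · obtain ⟨a1, a2, a3, a4⟩ := h.light _ h4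
    exact ⟨a2, a1, a4, a3⟩

theorem phi_eq (X : Finset V) : phi p G c d X = rs p G X - cut (c, d) X := by
  unfold phi rs; rw [dG_cons]; ring

theorem rs_le_in (h : LLc p G a b c d) (X : Finset V) :
    rs p G X ≤ ind a X + ind b X + ind c X + ind d X := by
  have := (h.valid X).1
  simp only [Multiset.insert_eq_cons, ms_cons, ms_singleton] at this
  unfold rs; omega

theorem rs_le_out (h : LLc p G a b c d) (X : Finset V) :
    rs p G X ≤ 4 - (ind a X + ind b X + ind c X + ind d X) := by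
  have := (h.valid Xᶜ).2
  simp only [Multiset.insert_eq_cons, ms_cons, ms_singleton, compl_compl, dG_compl,
    ind_compl] at this
  unfold rs; omega

theorem cs_phi (h : LLc p G a b c d) : CS (phi p G c d) := h.cs.sub_dG _

theorem cs_rs (h : LLc p G a b c d) : CS (rs p G) := h.cs.sub_dG _

theorem lightH (h : LLc p G a b c d) :
    ∀ e ∈ (c, d) ::ₘ G, e.1 ≠ a ∧ e.2 ≠ a ∧ e.1 ≠ b ∧ e.2 ≠ b := by
  intro e he
  rcases Multiset.mem_cons.1 he with rfl | he
  exacts [⟨h.ac.symm, h.ad.symm, h.bc.symm, h.bd.symm⟩, h.light e he]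

theorem phi_le (h : LLc p G a b c d) (X : Finset V) : phi p G c d X ≤ 1 := by
  have := h.top X
  have := cut_nonneg (c, d) X
  rw [phi_eq]; omega

theorem le_top (h : LLc p G a b c d) : Le (phi p G c d) [] [] 1 := fun X _ _ => h.phi_le X

theorem phi_ab_le (h : LLc p G a b c d) {X : Finset V} (ha : a ∈ X) (hb : b ∈ X)
    (hcd : c ∈ X ∨ d ∈ X) : phi p G c d X ≤ 0 := by
  have h1 := h.top X
  have h2 := h.rs_le_out X
  rw [phi_eq]
  rw [ind_of_mem ha, ind_of_mem hb] at h2
  unfold cut ind at *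
  by_cases u : c ∈ X <;> by_cases v : d ∈ X <;> simp_all

theorem phi_nab_le (h : LLc p G a b c d) {X : Finset V} (ha : a ∉ X) (hb : b ∉ X)
    (hcd : c ∉ X ∨ d ∉ X) : phi p G c d X ≤ 0 := by
  have h1 := h.top X
  have h2 := h.rs_le_in X
  rw [phi_eq]
  rw [ind_of_notMem ha, ind_of_notMem hb] at h2
  unfold cut ind at *
  by_cases u : c ∈ X <;> by_cases v : d ∈ X <;> simp_all

theorem le_abc (h : LLc p G a b c d) : Le (phi p G c d) [a, b, c] [] 0 := fun _ h1 _ =>
  h.phi_ab_le (h1 a (by simp)) (h1 b (by simp)) (Or.inl (h1 c (by simp)))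

theorem le_abd (h : LLc p G a b c d) : Le (phi p G c d) [a, b, d] [] 0 := fun _ h1 _ =>
  h.phi_ab_le (h1 a (by simp)) (h1 b (by simp)) (Or.inr (h1 d (by simp)))

theorem le_nabc (h : LLc p G a b c d) : Le (phi p G c d) [] [a, b, c] 0 := fun _ _ h1 =>
  h.phi_nab_le (h1 a (by simp)) (h1 b (by simp)) (Or.inl (h1 c (by simp)))

theorem le_nabd (h : LLc p G a b c d) : Le (phi p G c d) [] [a, b, d] 0 := fun _ _ h1 =>
  h.phi_nab_le (h1 a (by simp)) (h1 b (by simp)) (Or.inr (h1 d (by simp)))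

theorem dH_small (h : LLc p G a b c d) {X : Finset V} (hX : X ⊆ {a, b}) :
    dG ((c, d) ::ₘ G) X = 0 := dG_zero_of fun e he => by
  obtain ⟨a1, a2, a3, a4⟩ := h.lightH e he
  constructor <;> intro hh <;> have := hX hh <;> simp_all

theorem phi_a (h : LLc p G a b c d) : phi p G c d {a} = 1 := by
  unfold phi; rw [h.dH_small (by simp), h.pa]; rfl

theorem phi_b (h : LLc p G a b c d) : phi p G c d {b} = 1 := by
  unfold phi; rw [h.dH_small (by simp), h.pb]; rfl

theorem phi_ab (h : LLc p G a b c d) : phi p G c d {a, b} = 1 := by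
  unfold phi; rw [h.dH_small (by simp), h.pab]; rfl

theorem phi_co (h : LLc p G a b c d) {X : Finset V} (hX : X ⊆ {a, b}) :
    phi p G c d Xᶜ = p Xᶜ := by
  unfold phi; rw [dG_compl, h.dH_small hX]; simp

/-- the anchor bound -/
theorem anchor (h : LLc p G a b c d) {X : Finset V} (ha : a ∈ X) (hb : b ∉ X) {w z : V}
    (hw : w ∈ X) (hwa : w ≠ a) (hz : z ∉ X) (hzb : z ≠ b) : phi p G c d X ≤ 0 := by
  have h1 := h.top X
  by_cases u : c ∈ X <;> by_cases v : d ∈ X
  · have h2 := h.cs_phi.super (X := X) (Y := {a, b}) ha (by simp) hz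
      (by simp only [Finset.mem_insert, Finset.mem_singleton, not_or]
          exact ⟨fun e => hz (e ▸ ha), hzb⟩)
    have e1 : X ∩ {a, b} = {a} := by
      ext t
      simp only [Finset.mem_inter, Finset.mem_insert, Finset.mem_singleton]
      constructor
      · rintro ⟨t1, rfl | rfl⟩
        exacts [rfl, absurd t1 hb]
      · rintro rfl
        exact ⟨ha, Or.inl rfl⟩
    have h3 := h.phi_ab_le (X := X ∪ {a, b}) (by simp) (by simp) (Or.inl (by simp [u]))
    rw [e1, h.phi_a, h.phi_ab] at h2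
    omega
  · rw [phi_eq, cut_eq_one.2 (Or.inl ⟨u, v⟩)]; omega
  · rw [phi_eq, cut_eq_one.2 (Or.inr ⟨u, v⟩)]; omega
  · have := h.Pa X ha hb u v (fun e => hwa (Finset.mem_singleton.1 (e ▸ hw)))
    have := cut_nonneg (c, d) X
    rw [phi_eq]; omega

theorem ge_ac (h : LLc p G a b c d) : Ge (phi p G c d) [a, c] [b, d] 0 := by
  obtain ⟨X, a1, a2, a3, a4, a5⟩ := h.mac
  exact ⟨X, by simp [a1, a3], by simp [a2, a4], by
    rw [phi_eq, cut_eq_one.2 (Or.inl ⟨a3, a4⟩)]; omega⟩

theorem ge_bc (h : LLc p G a b c d) : Ge (phi p G c d) [b, c] [a, d] 0 := h.swap.ge_ac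

theorem phi_dual (X : Finset V) :
    phi (refl p) (G.map Prod.swap) d c X = phi p G c d Xᶜ := by
  have key : ∀ H : Multiset (V × V), dG (H.map Prod.swap) X = dG H X := by
    intro H
    induction H using Multiset.induction_on with
    | empty => simp
    | cons e H ih =>
      rw [Multiset.map_cons, dG_cons, dG_cons, ih]
      simp only [cut, Prod.fst_swap, Prod.snd_swap, iff_comm]
  have := key ((c, d) ::ₘ G)
  rw [Multiset.map_cons] at this
  unfold phi refl
  rw [dG_compl, ← this]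
  rfl

theorem dG_swap (H : Multiset (V × V)) (X : Finset V) : dG (H.map Prod.swap) X = dG H X := by
  induction H using Multiset.induction_on with
  | empty => simp
  | cons e H ih =>
    rw [Multiset.map_cons, dG_cons, dG_cons, ih]
    simp only [cut, Prod.fst_swap, Prod.snd_swap, iff_comm]

theorem ends_swap (H : Multiset (V × V)) : ends (H.map Prod.swap) = ends H := by
  simp only [ends, Multiset.map_map]
  rw [add_comm]
  rfl

/-- the dual configuration -/
theorem dual (h : LLc p G a b c d) (ha : p {a}ᶜ = 1) (hb : p {b}ᶜ = 1) (hab : p {a, b}ᶜ = 1) :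
    LLc (refl p) (G.map Prod.swap) b a d c := by
  have hr : ∀ X, rs (refl p) G X = rs p G Xᶜ := fun X => by unfold rs refl; rw [dG_compl]
  have key : ∀ {a b : V}, LLc p G a b c d → ∀ X, a ∉ X → b ∈ X → d ∉ X → c ∉ X → X ≠ {b} →
      rs (refl p) G X ≤ 0 := by
    intro a b h X h1 h2 h3 h4 h5
    obtain ⟨z, hz1, hz2⟩ : ∃ z ∈ X, z ≠ b := by
      by_contra hc
      push Not at hc
      exact h5 (Finset.eq_singleton_iff_unique_mem.2 ⟨h2, hc⟩)
    have := h.anchor (X := Xᶜ) (Finset.mem_compl.2 h1) (by simp [h2]) (Finset.mem_compl.2 h4)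
      h.ac.symm (z := z) (by simp [hz1]) hz2
    rw [phi_eq, cut_eq_zero.2 (by simp [h3, h4])] at this
    rw [hr]; omega
  have h0 : LLc (refl p) G a b d c := by
    refine ⟨⟨h.cs.refl, by rw [four_swap']; exact h.valid.refl,
      by rw [four_swap', solvable_refl]; exact h.uns⟩, fun X => by rw [hr]; exact h.top _,
      h.ab, h.ad, h.ac, h.bd, h.bc, h.cd.symm, h.light, ha, hb, hab,
      fun X h1 h2 => key h.swap X h2 h1, key h, ?_, ?_⟩
    · obtain ⟨X, a1, a2, a3, a4, a5⟩ := h.mbc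
      exact ⟨Xᶜ, by simp [a1], by simp [a2], by simp [a4], by simp [a3],
        by rw [hr, compl_compl]; exact a5⟩
    · obtain ⟨X, a1, a2, a3, a4, a5⟩ := h.mac
      exact ⟨Xᶜ, by simp [a1], by simp [a2], by simp [a4], by simp [a3],
        by rw [hr, compl_compl]; exact a5⟩
  refine h0.swap.congr (dG_swap G) (ends_swap G) fun e he => ?_
  obtain ⟨e', he', rfl⟩ := Multiset.mem_map.1 he
  exact Or.inr he'

end LLc

/-- named points for a trace lemma -/
structure TC (p : Finset V → ℤ) (G : Multiset (V × V)) (a b c d : V) (n : ℕ) (pt : ℕ → V)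
    (Hn : List (ℕ × ℕ)) : Prop where
  ll : LLc p G a b c d
  h0 : pt 0 = a
  h1 : pt 1 = b
  le : TS.eP pt Hn ≤ (c, d) ::ₘ G
  w : ∀ i, 2 ≤ i → i < n → pt i ≠ a ∧ pt i ≠ b

/-- every point other than the first two is an end of a named edge -/
def okCov (n : ℕ) (Hn : List (ℕ × ℕ)) : Bool :=
  decide (∀ i < n, 2 ≤ i → ∃ e ∈ Hn, e.1 = i ∨ e.2 = i) && TS.okMv n [(0, 1) :: Hn]

theorem LLc.mkTC {p : Finset V → ℤ} {G : Multiset (V × V)} {a b c d : V} (h : LLc p G a b c d)
    {n : ℕ} {pt : ℕ → V} {Hn : List (ℕ × ℕ)} (h0 : pt 0 = a) (h1 : pt 1 = b)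
    (hle : TS.eP pt Hn ≤ (c, d) ::ₘ G) (hc : okCov n Hn = true) : TC p G a b c d n pt Hn := by
  refine ⟨h, h0, h1, hle, fun i i1 i2 => ?_⟩
  simp only [okCov, Bool.and_eq_true, decide_eq_true_eq] at hc
  obtain ⟨e, he, hi⟩ := hc.1 i i2 i1
  have hm : (pt e.1, pt e.2) ∈ TS.eP pt Hn :=
    Multiset.mem_coe.2 (List.mem_map.2 ⟨e, he, rfl⟩)
  obtain ⟨a1, a2, a3, a4⟩ := h.lightH _ (Multiset.mem_of_le hle hm)
  rcases hi with rfl | rfl
  exacts [⟨a1, a3⟩, ⟨a2, a4⟩]

namespace TC

variable {p : Finset V → ℤ} {G : Multiset (V × V)} {a b c d : V} {n : ℕ} {pt : ℕ → V}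
  {Hn : List (ℕ × ℕ)}

theorem ne_a (tc : TC p G a b c d n pt Hn) {l : List ℕ} (hl : ∀ i ∈ l, 1 ≤ i ∧ i < n) :
    ∀ v ∈ l.map pt, v ≠ a := by
  intro v hv
  obtain ⟨i, hi, rfl⟩ := List.mem_map.1 hv
  obtain ⟨i1, i2⟩ := hl i hi
  by_cases h : i = 1
  · rw [h, tc.h1]; exact tc.ll.ab.symm
  · exact (tc.w i (by omega) i2).1

theorem ne_b (tc : TC p G a b c d n pt Hn) {l : List ℕ} (hl : ∀ i ∈ l, i ≠ 1 ∧ i < n) :
    ∀ v ∈ l.map pt, v ≠ b := by
  intro v hv
  obtain ⟨i, hi, rfl⟩ := List.mem_map.1 hv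
  obtain ⟨i1, i2⟩ := hl i hi
  by_cases h : i = 0
  · rw [h, tc.h0]; exact tc.ll.ab
  · exact (tc.w i (by omega) i2).2

theorem ge_ab (tc : TC p G a b c d n pt Hn) (l : List ℕ) (hl : ∀ i ∈ l, 2 ≤ i ∧ i < n) :
    Ge (phi p G c d) ([0, 1].map pt) (l.map pt) 1 := by
  refine ⟨{a, b}, by simp [tc.h0, tc.h1], fun v hv => ?_, tc.ll.phi_ab.ge⟩
  have h1 := tc.ne_a (l := l) (fun i hi => by have := hl i hi; omega) v hv
  have h2 := tc.ne_b (l := l) (fun i hi => by have := hl i hi; omega) v hv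
  simp [h1, h2]

theorem refute (tc : TC p G a b c d n pt Hn) {forb : List TS.Ent} {ex : List (List TS.Ent)}
    {mv : List (List (ℕ × ℕ))} {cert : List ℕ} (hc : TS.check n Hn forb ex mv cert = true)
    (hi : TS.okIdx n Hn forb ex = true) (hm : TS.okMv n mv = true) (hcov : okCov n Hn = true)
    (hf : ∀ e ∈ forb, Le (phi p G c d) (e.1.map pt) (e.2.1.map pt) (1 - (e.2.2 : ℤ)))
    (he : ∀ l ∈ ex, ∃ e ∈ l, Ge (phi p G c d) (e.1.map pt) (e.2.1.map pt) (1 - (e.2.2 : ℤ))) :
    False := by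
  obtain ⟨R, hR⟩ := Multiset.le_iff_exists_add.1 tc.le
  have hphi : ∀ X, phi p G c d X = p X - dG R X - dG (TS.eP pt Hn) X := fun X => by
    unfold phi; rw [hR, dG_add]; ring
  refine TS.refute (pt := pt) (p := fun X => p X - dG R X) (tc.ll.cs.sub_dG R).sup hc hi hm
    ?_ ?_ ?_ ?_
  · rintro X hX ⟨i, i1, i2, i3⟩ ⟨j, j1, j2, j3⟩
    rw [tc.h0, tc.h1] at hX
    have := hphi X
    by_cases ha : a ∈ X
    · have := tc.ll.anchor ha (fun hb => hX ⟨fun _ => hb, fun _ => ha⟩) i3 (tc.w i i1 i2).1 j3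
        (tc.w j j1 j2).2
      omega
    · have hb : b ∈ X := by
        by_contra hb
        exact hX ⟨fun h => absurd h ha, fun h => absurd h hb⟩
      have := tc.ll.swap.anchor hb ha i3 (tc.w i i1 i2).2 j3 (tc.w j j1 j2).1
      omega
  · intro e he' X hX
    have h1 := hf e he' X
      (fun v hv => by obtain ⟨i, hi, rfl⟩ := List.mem_map.1 hv; exact hX.1 i hi)
      (fun v hv => by obtain ⟨i, hi, rfl⟩ := List.mem_map.1 hv; exact hX.2 i hi)
    have := hphi X
    omega
  · intro l hl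
    obtain ⟨e, he', X, h1, h2, h3⟩ := he l hl
    refine ⟨e, he', X, ⟨fun i hi => h1 _ (List.mem_map_of_mem hi),
      fun i hi => h2 _ (List.mem_map_of_mem hi)⟩, ?_⟩
    have := hphi X
    omega
  · intro hs
    simp only [okCov, Bool.and_eq_true, TS.okMv, List.all_cons, List.all_nil, Bool.and_true,
      decide_eq_true_eq] at hcov
    have h1 : (((List.range n).map pt : List V) : Multiset V) = ends (TS.eP pt ((0, 1) :: Hn)) := by
      rw [TS.ends_eP]
      exact (Multiset.coe_eq_coe.2 (hcov.2.map pt)).symm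
    have h2 := Solvable.add R hs
    rw [h1, TS.eP_cons, ends_cons, tc.h0, tc.h1] at h2
    have h3 : ends ((c, d) ::ₘ G) = ends (TS.eP pt Hn) + ends R := by rw [hR, ends_add]
    rw [ends_cons] at h3
    refine tc.ll.uns ?_
    have h4 : ends G + {a, b, c, d} = ends R + a ::ₘ b ::ₘ ends (TS.eP pt Hn) := by
      rw [Multiset.add_cons, Multiset.add_cons, add_comm (ends R), ← h3]
      simp only [Multiset.insert_eq_cons, Multiset.add_cons]
      rw [← Multiset.cons_zero d, Multiset.add_cons, add_zero]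
    rwa [h4]

end TC

/-- the edge `x y` is cut by tight sets in the direction of `x` only -/
def DirT (φ : Finset V → ℤ) (a b x y : V) : Prop :=
  Ge φ [a, x] [b, y] 0 ∧ Le φ [a, y] [b, x] (-1)

/-- the edge `x y` is cut by no tight set -/
def NoT (φ : Finset V → ℤ) (a b x y : V) : Prop :=
  Le φ [a, x] [b, y] (-1) ∧ Le φ [a, y] [b, x] (-1)

/-- bad pair of the first kind: `x y` lies inside every tight set cutting `u v` -/
def Pt1 (φ : Finset V → ℤ) (a b x y u v : V) : Prop :=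
  Le φ [a, u] [b, v, x] (-1) ∧ Le φ [a, u] [b, v, y] (-1) ∧ Le φ [a, y, u] [b, x, v] (-2)

/-- bad pair of the second kind: `x y` lies outside every tight set cutting `u v` -/
def Pt2 (φ : Finset V → ℤ) (a b x y u v : V) : Prop :=
  Le φ [a, u, x] [b, v] (-1) ∧ Le φ [a, u, y] [b, v] (-1) ∧ Le φ [a, y, u] [b, x, v] (-2)

/-- the point lies in no overfull set -/
def Fr (φ : Finset V → ℤ) (a b w : V) : Prop := Le φ [a, b, w] [] 0 ∧ Le φ [] [a, b, w] 0

theorem nPt1 {φ : Finset V → ℤ} {a b x y u v : V} (h : ¬ Pt1 φ a b x y u v) :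
    Ge φ [a, u] [b, v, x] 0 ∨ Ge φ [a, u] [b, v, y] 0 ∨ Ge φ [a, y, u] [b, x, v] (-1) := by
  by_contra hc
  push Not at hc
  exact h ⟨Le.of_not hc.1 rfl, Le.of_not hc.2.1 rfl, Le.of_not hc.2.2 rfl⟩

theorem nPt2 {φ : Finset V → ℤ} {a b x y u v : V} (h : ¬ Pt2 φ a b x y u v) :
    Ge φ [a, u, x] [b, v] 0 ∨ Ge φ [a, u, y] [b, v] 0 ∨ Ge φ [a, y, u] [b, x, v] (-1) := by
  by_contra hc
  push Not at hc
  exact h ⟨Le.of_not hc.1 rfl, Le.of_not hc.2.1 rfl, Le.of_not hc.2.2 rfl⟩

theorem ex1 {α : Type} {P : α → Prop} {e1 : α} (h : P e1) : ∃ e ∈ [e1], P e := by simpa using h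

theorem ex2 {α : Type} {P : α → Prop} {e1 e2 : α} (h : P e1 ∨ P e2) : ∃ e ∈ [e1, e2], P e := by
  simpa using h

theorem ex3 {α : Type} {P : α → Prop} {e1 e2 e3 : α} (h : P e1 ∨ P e2 ∨ P e3) :
    ∃ e ∈ [e1, e2, e3], P e := by simpa using h

theorem ex4 {α : Type} {P : α → Prop} {e1 e2 e3 e4 : α} (h : P e1 ∨ P e2 ∨ P e3 ∨ P e4) :
    ∃ e ∈ [e1, e2, e3, e4], P e := by simpa using h

theorem fa_cons {α : Type} {P : α → Prop} {e : α} {l : List α} (h1 : P e) (h2 : ∀ x ∈ l, P x) :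
    ∀ x ∈ e :: l, P x := List.forall_mem_cons.2 ⟨h1, h2⟩

theorem fa_nil {α : Type} {P : α → Prop} : ∀ x ∈ ([] : List α), P x := by simp

end Pool.Agent.CSG

end
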