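import Pool.Agent.MP_305420_co.Mg.LemB
import Pool.Agent.MP_305420_co.Mg.LLTr
import Pool.Agent.MP_305420_co.Mg.LLBase

-- part MP_305420_co.LLLoc1
section

/-! The local step of the light case: bridges, roots and the selection lemma. -/

set_option linter.unusedSectionVars false

namespace Pool.Agent.CSG

open Finset

variable {V : Type*} [Fintype V] [DecidableEq V]

theorem sub1 {K : Multiset (V × V)} {e : V × V} (h : e ∈ K) : (e.1, e.2) ::ₘ 0 ≤ K :=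
  Multiset.singleton_le.2 h

theorem sub2 {K : Multiset (V × V)} {e1 e2 : V × V} (h1 : e1 ∈ K) (h2 : e2 ∈ K) (n : e1 ≠ e2) :
    (e1.1, e1.2) ::ₘ (e2.1, e2.2) ::ₘ 0 ≤ K :=
  (Multiset.le_iff_subset (by simp [n])).2 (by simp [Multiset.subset_iff, h1, h2])

theorem sub3 {K : Multiset (V × V)} {e1 e2 e3 : V × V} (h1 : e1 ∈ K) (h2 : e2 ∈ K) (h3 : e3 ∈ K)
    (n12 : e1 ≠ e2) (n13 : e1 ≠ e3) (n23 : e2 ≠ e3) :
    (e1.1, e1.2) ::ₘ (e2.1, e2.2) ::ₘ (e3.1, e3.2) ::ₘ 0 ≤ K :=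
  (Multiset.le_iff_subset (by simp [n12, n13, n23])).2 (by simp [Multiset.subset_iff, h1, h2, h3])

theorem sub4 {K : Multiset (V × V)} {e1 e2 e3 e4 : V × V} (h1 : e1 ∈ K) (h2 : e2 ∈ K)
    (h3 : e3 ∈ K) (h4 : e4 ∈ K) (n12 : e1 ≠ e2) (n13 : e1 ≠ e3) (n14 : e1 ≠ e4) (n23 : e2 ≠ e3)
    (n24 : e2 ≠ e4) (n34 : e3 ≠ e4) :
    (e1.1, e1.2) ::ₘ (e2.1, e2.2) ::ₘ (e3.1, e3.2) ::ₘ (e4.1, e4.2) ::ₘ 0 ≤ K :=
  (Multiset.le_iff_subset (by simp [n12, n13, n14, n23, n24, n34])).2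
    (by simp [Multiset.subset_iff, h1, h2, h3, h4])

theorem memG {G : Multiset (V × V)} {z e : V × V} (h : e ∈ z ::ₘ G) (n : e ≠ z) : e ∈ G :=
  (Multiset.mem_cons.1 h).resolve_left n

/-- every edge has a tight set containing its first end only -/
def Ori (ψ : Finset V → ℤ) (H : Multiset (V × V)) (a b : V) : Prop :=
  ∀ e ∈ H, ∃ X, TT ψ a b e.1 e.2 X

/-- no bad pair of the first kind -/
def NoP1 (ψ : Finset V → ℤ) (H : Multiset (V × V)) (a b : V) : Prop :=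
  ∀ e ∈ H, ∀ e' ∈ H, NB ψ a b e → NB ψ a b e' → ¬ Pt1 ψ a b e.1 e.2 e'.1 e'.2

/-- no bad pair of the second kind -/
def NoP2 (ψ : Finset V → ℤ) (H : Multiset (V × V)) (a b : V) : Prop :=
  ∀ e ∈ H, ∀ e' ∈ H, NB ψ a b e → NB ψ a b e' → ¬ Pt2 ψ a b e.1 e.2 e'.1 e'.2

theorem Ori.dir {ψ : Finset V → ℤ} {H : Multiset (V × V)} {a b : V} (h : Ori ψ H a b) {e : V × V}
    (he : e ∈ H) (hn : NB ψ a b e) : DirT ψ a b e.1 e.2 := ⟨ge_iff_TT.2 (h e he), hn⟩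

theorem pt1_ne {ψ : Finset V → ℤ} {a b : V} {e e' : V × V} (hd : DirT ψ a b e'.1 e'.2)
    (h : Pt1 ψ a b e.1 e.2 e'.1 e'.2) : e ≠ e' := by
  rintro rfl
  obtain ⟨X, x1, x2, x3, x4, x5⟩ := ge_iff_TT.1 hd.1
  have := h.2.1 X (by simp [x1, x3]) (by simp [x2, x4])
  omega

theorem pt2_ne {ψ : Finset V → ℤ} {a b : V} {e e' : V × V} (hd : DirT ψ a b e'.1 e'.2)
    (h : Pt2 ψ a b e.1 e.2 e'.1 e'.2) : e ≠ e' := by
  rintro rfl
  obtain ⟨X, x1, x2, x3, x4, x5⟩ := ge_iff_TT.1 hd.1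
  have := h.1 X (by simp [x1, x3]) (by simp [x2, x4])
  omega

theorem Pt1.mem {ψ : Finset V → ℤ} {a b x y u v : V} (h : Pt1 ψ a b x y u v) {X : Finset V}
    (hX : TT ψ a b u v X) : x ∈ X ∧ y ∈ X := by
  obtain ⟨x1, x2, x3, x4, x5⟩ := hX
  constructor <;> by_contra hc
  · have := h.1 X (by simp [x1, x3]) (by simp [x2, x4, hc])
    omega
  · have := h.2.1 X (by simp [x1, x3]) (by simp [x2, x4, hc])
    omega

section dual
variable {ψ ψ' : Finset V → ℤ} {a b : V}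

theorem TT.compl (h : ∀ X, ψ' X = ψ Xᶜ) {x y : V} {X : Finset V} (t : TT ψ a b x y X) :
    TT ψ' b a y x Xᶜ := by
  obtain ⟨x1, x2, x3, x4, x5⟩ := t
  exact ⟨by simp [x2], by simp [x1], by simp [x4], by simp [x3], by rwa [h, compl_compl]⟩

theorem compl_symm (h : ∀ X, ψ' X = ψ Xᶜ) : ∀ X, ψ X = ψ' Xᶜ := fun X => by rw [h, compl_compl]

theorem NB.compl (h : ∀ X, ψ' X = ψ Xᶜ) {e : V × V} (t : NB ψ a b e) : NB ψ' b a e.swap :=
  Le.compl h t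

theorem Pt2.compl (h : ∀ X, ψ' X = ψ Xᶜ) {x y u v : V} (t : Pt2 ψ a b x y u v) :
    Pt1 ψ' b a y x v u := ⟨Le.compl h t.2.1, Le.compl h t.1, Le.compl h t.2.2⟩

theorem Pt1.compl (h : ∀ X, ψ' X = ψ Xᶜ) {x y u v : V} (t : Pt1 ψ a b x y u v) :
    Pt2 ψ' b a y x v u := ⟨Le.compl h t.2.1, Le.compl h t.1, Le.compl h t.2.2⟩

theorem mem_swap {H : Multiset (V × V)} {e : V × V} : e ∈ H.map Prod.swap ↔ e.swap ∈ H := by
  constructor
  · intro h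
    obtain ⟨e', h1, rfl⟩ := Multiset.mem_map.1 h
    simpa using h1
  · intro h
    exact Multiset.mem_map.2 ⟨e.swap, h, Prod.swap_swap e⟩

theorem Ori.compl (h : ∀ X, ψ' X = ψ Xᶜ) {H : Multiset (V × V)} (t : Ori ψ H a b) :
    Ori ψ' (H.map Prod.swap) b a := fun e he => by
  obtain ⟨X, hX⟩ := t _ (mem_swap.1 he)
  exact ⟨Xᶜ, hX.compl h⟩

theorem NoP2.compl (h : ∀ X, ψ' X = ψ Xᶜ) {H : Multiset (V × V)} (t : NoP2 ψ H a b) :
    NoP1 ψ' (H.map Prod.swap) b a := fun _ he _ he' n n' hp =>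
  t _ (mem_swap.1 he) _ (mem_swap.1 he') (n.compl (compl_symm h)) (n'.compl (compl_symm h))
    (hp.compl (compl_symm h))

theorem AH.BrT.compl (h : ∀ X, ψ' X = ψ Xᶜ) {H : Multiset (V × V)} (t : AH.BrT ψ H a b)
    (hop : ∀ g ∈ H.map Prod.swap, ∀ B B', TT ψ' b a g.1 g.2 B → TT ψ' b a g.2 g.1 B' →
      ∀ w ∈ B, w ∈ B' → w = b) (hoff : ∀ e ∈ H.map Prod.swap, e.1 ≠ b ∧ e.2 ≠ b) :
    AH.BrT ψ' (H.map Prod.swap) b a := by
  intro g hg e he e' he' n n' B B' t1 t2 x1 x2 y1 y2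
  have k := hop g hg B B' t1 t2
  exact t _ (mem_swap.1 hg) _ (mem_swap.1 he') _ (mem_swap.1 he) (n'.compl (compl_symm h))
    (n.compl (compl_symm h)) Bᶜ B'ᶜ (t1.compl (compl_symm h)) (t2.compl (compl_symm h))
    (Finset.mem_compl.2 fun u => (hoff e' he').2 (k _ u y2))
    (Finset.mem_compl.2 fun u => (hoff e' he').1 (k _ u y1))
    (Finset.mem_compl.2 fun u => (hoff e he).2 (k _ x2 u))
    (Finset.mem_compl.2 fun u => (hoff e he).1 (k _ x1 u))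

end dual

namespace LLc

variable {p : Finset V → ℤ} {G : Multiset (V × V)} {a b c d : V}

theorem sup (h : LLc p G a b c d) {X Y : Finset V} {u v : V} (h1 : u ∈ X) (h2 : u ∈ Y)
    (h3 : v ∉ X) (h4 : v ∉ Y) : rs p ((c, d) ::ₘ G) X + rs p ((c, d) ::ₘ G) Y ≤
      rs p ((c, d) ::ₘ G) (X ∩ Y) + rs p ((c, d) ::ₘ G) (X ∪ Y) := h.cs_phi.super h1 h2 h3 h4

theorem r_le (h : LLc p G a b c d) (X : Finset V) : rs p ((c, d) ::ₘ G) X ≤ 1 := h.phi_le X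

theorem r_ab (h : LLc p G a b c d) {X : Finset V} (ha : a ∈ X) (hb : b ∈ X)
    (hcd : c ∈ X ∨ d ∈ X) : rs p ((c, d) ::ₘ G) X ≤ 0 := h.phi_ab_le ha hb hcd

theorem r_nab (h : LLc p G a b c d) {X : Finset V} (ha : a ∉ X) (hb : b ∉ X)
    (hcd : c ∉ X ∨ d ∉ X) : rs p ((c, d) ::ₘ G) X ≤ 0 := h.phi_nab_le ha hb hcd

theorem r_anc (h : LLc p G a b c d) {X : Finset V} (ha : a ∈ X) (hb : b ∉ X) {w z : V}
    (hw : w ∈ X) (hwa : w ≠ a) (hz : z ∉ X) (hzb : z ≠ b) : rs p ((c, d) ::ₘ G) X ≤ 0 :=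
  h.anchor ha hb hw hwa hz hzb

theorem r_co (h : LLc p G a b c d) {X : Finset V} (hX : X ⊆ {a, b}) :
    rs p ((c, d) ::ₘ G) Xᶜ = p Xᶜ := h.phi_co hX

theorem toAH (h : LLc p G a b c d) : AH p ((c, d) ::ₘ G) a b :=
  ⟨fun _ _ h1 h2 h3 h4 => h.cs.super h1 h2 h3 h4, h.ab, h.lightH, h.phi_a, fun X _ _ => h.r_le X,
    fun _ h1 h2 _ w1 w2 _ z1 z2 => h.r_anc h1 h2 w1 w2 z1 z2⟩

theorem tt_c (h : LLc p G a b c d) : ∃ X, TT (rs p ((c, d) ::ₘ G)) a b c d X := ge_iff_TT.1 h.ge_ac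

theorem k_cd (h : LLc p G a b c d) {K : Finset V} (k1 : a ∈ K) (k2 : b ∈ K)
    (k3 : 1 ≤ rs p ((c, d) ::ₘ G) K) : c ∉ K ∧ d ∉ K := by
  constructor <;> intro hc
  · have := h.r_ab k1 k2 (Or.inl hc); omega
  · have := h.r_ab k1 k2 (Or.inr hc); omega

/-- an overfull set absorbs a tight set that meets it -/
theorem kl (h : LLc p G a b c d) {K Y : Finset V} (k1 : a ∈ K) (k2 : b ∈ K)
    (k3 : 1 ≤ rs p ((c, d) ::ₘ G) K) (y1 : a ∈ Y) (y2 : b ∉ Y) (y3 : 0 ≤ rs p ((c, d) ::ₘ G) Y)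
    {w z : V} (w1 : w ∈ K) (w2 : w ∈ Y) (w3 : w ≠ a) (z1 : z ∉ K) (z2 : z ∉ Y) :
    1 ≤ rs p ((c, d) ::ₘ G) (K ∪ Y) := by
  have s1 := h.sup k1 y1 z1 z2
  have s2 := h.r_anc (X := K ∩ Y) (by simp [k1, y1]) (by simp [y2]) (w := w) (by simp [w1, w2]) w3
    (z := z) (by simp [z1]) (fun e => z1 (e ▸ k2))
  omega

theorem kb (h : LLc p G a b c d) {X Y : Finset V} (x1 : a ∉ X) (x2 : b ∉ X)
    (x3 : 1 ≤ rs p ((c, d) ::ₘ G) X) (y1 : a ∈ Y) (y2 : b ∉ Y) (y3 : 0 ≤ rs p ((c, d) ::ₘ G) Y)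
    (y4 : cut (c, d) Y = 1) : 1 ≤ rs p ((c, d) ::ₘ G) (X ∪ Y) ∧ ∀ z, z ≠ b → z ∈ X ∨ z ∈ Y := by
  have c1 : c ∈ X := by
    by_contra hc
    have := h.r_nab x1 x2 (Or.inl hc); omega
  have d1 : d ∈ X := by
    by_contra hc
    have := h.r_nab x1 x2 (Or.inr hc); omega
  have s2 : 1 ≤ rs p ((c, d) ::ₘ G) (X ∪ Y) := by
    rcases cut_eq_one.1 y4 with ⟨u, v⟩ | ⟨u, v⟩
    · have s1 := h.sup c1 u x2 y2
      have := h.r_nab (X := X ∩ Y) (by simp [x1]) (by simp [x2]) (Or.inr (by simp [show d ∉ Y from v]))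
      omega
    · have s1 := h.sup d1 v x2 y2
      have := h.r_nab (X := X ∩ Y) (by simp [x1]) (by simp [x2]) (Or.inl (by simp [show c ∉ Y from u]))
      omega
  refine ⟨s2, fun z hz => ?_⟩
  by_contra hc
  have := h.r_anc (X := X ∪ Y) (by simp [y1]) (by simp [x2, y2]) (w := c) (by simp [c1]) h.ac.symm
    (z := z) (by simpa using hc) hz
  omega

theorem fr_of_opp (h : LLc p G a b c d) (hn : ¬ NB (rs p ((c, d) ::ₘ G)) a b (c, d)) {w : V}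
    (wa : w ≠ a) (wb : w ≠ b) : Fr (rs p ((c, d) ::ₘ G)) a b w := by
  obtain ⟨C, hC⟩ := h.tt_c
  obtain ⟨Y, hY⟩ := not_NB hn
  obtain ⟨o1, o2⟩ := h.toAH.opp (e := (c, d)) (Multiset.mem_cons_self _ _) hC hY
  constructor
  · intro K k _
    simp only [List.forall_mem_cons] at k
    by_contra hc
    obtain ⟨n1, n2⟩ := h.k_cd k.1 k.2.1 (by omega)
    rcases o2 w wb with u | u
    · have := h.kl k.1 k.2.1 (by omega) hC.1 hC.2.1 hC.2.2.2.2 k.2.2.1 u wa n2 hC.2.2.2.1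
      exact (h.k_cd (by simp [k.1]) (by simp [k.2.1]) this).1 (Finset.mem_union_right _ hC.2.2.1)
    · have := h.kl k.1 k.2.1 (by omega) hY.1 hY.2.1 hY.2.2.2.2 k.2.2.1 u wa n1 hY.2.2.2.1
      exact (h.k_cd (by simp [k.1]) (by simp [k.2.1]) this).2 (Finset.mem_union_right _ hY.2.2.1)
  · intro X _ k
    simp only [List.forall_mem_cons] at k
    by_contra hc
    have u1 := ((h.kb k.1 k.2.1 (by omega) hC.1 hC.2.1 hC.2.2.2.2 (TT.cut (e := (c, d)) hC)).2 w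
      wb).resolve_left k.2.2.1
    have u2 := ((h.kb k.1 k.2.1 (by omega) hY.1 hY.2.1 hY.2.2.2.2 (TT.cut' (e := (c, d)) hY)).2 w
      wb).resolve_left k.2.2.1
    exact wa (o1 w u1 u2)

theorem co_le (h : LLc p G a b c d) {X : Finset V} (hX : X ⊆ {a, b}) : p Xᶜ ≤ 1 := by
  rw [← h.r_co hX]; exact h.r_le _

/-- an overfull set avoiding `a, b` forces the symmetric world -/
theorem kbar (h : LLc p G a b c d) {X : Finset V} (x1 : a ∉ X) (x2 : b ∉ X)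
    (x3 : 1 ≤ rs p ((c, d) ::ₘ G) X) : p {a}ᶜ = 1 ∧ p {b}ᶜ = 1 ∧ p {a, b}ᶜ = 1 := by
  obtain ⟨C, hC⟩ := h.tt_c
  obtain ⟨D, hD⟩ := h.swap.tt_c
  obtain ⟨s1, s2⟩ := h.kb x1 x2 x3 hC.1 hC.2.1 hC.2.2.2.2 (TT.cut (e := (c, d)) hC)
  obtain ⟨t1, t2⟩ := h.swap.kb x2 x1 x3 hD.1 hD.2.1 hD.2.2.2.2 (TT.cut (e := (c, d)) hD)
  have e1 : X ∪ C = {b}ᶜ := by
    ext z
    simp only [Finset.mem_union, Finset.mem_compl, Finset.mem_singleton]
    exact ⟨by rintro (u | u) rfl; exacts [x2 u, hC.2.1 u], s2 z⟩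
  have e2 : X ∪ D = {a}ᶜ := by
    ext z
    simp only [Finset.mem_union, Finset.mem_compl, Finset.mem_singleton]
    exact ⟨by rintro (u | u) rfl; exacts [x1 u, hD.2.1 u], t2 z⟩
  have e3 : X ∪ (C ∩ D) = {a, b}ᶜ := by
    rw [Finset.union_inter_distrib_left, e1, e2]
    ext z
    simp [and_comm]
  have c1 : c ∈ X := by
    by_contra hc
    have := h.r_nab x1 x2 (Or.inl hc); omega
  have u1 := h.sup hC.2.2.1 hD.2.2.1 hC.2.2.2.1 hD.2.2.2.1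
  have u2 := h.r_ab (X := C ∪ D) (by simp [hC.1]) (by simp [hD.1]) (Or.inl (by simp [hC.2.2.1]))
  have u3 := h.sup (X := X) (Y := C ∩ D) c1 (by simp [hC.2.2.1, hD.2.2.1]) x1 (by simp [hD.2.1])
  have u4 := h.r_nab (X := X ∩ (C ∩ D)) (by simp [x1]) (by simp [x2])
    (Or.inr (by simp [hC.2.2.2.1]))
  have := hC.2.2.2.2
  have := hD.2.2.2.2
  rw [e1, h.r_co (by simp)] at s1
  rw [e2, h.r_co (by simp)] at t1
  rw [e3, h.r_co (by simp)] at u3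
  have := h.co_le (X := {a}) (by simp)
  have := h.co_le (X := {b}) (by simp)
  have := h.co_le (X := {a, b}) (by simp)
  omega

theorem brT (h : LLc p G a b c d) (hO : Ori (rs p ((c, d) ::ₘ G)) ((c, d) ::ₘ G) a b) :
    AH.BrT (rs p ((c, d) ::ₘ G)) ((c, d) ::ₘ G) a b := by
  intro g hg e he e' he' n n' B B' t1 t2 x1 x2 y1 y2
  obtain ⟨o1, o2⟩ := h.toAH.opp hg t1 t2
  obtain ⟨l1, l2, l3, l4⟩ := h.lightH e he
  obtain ⟨m1, m2, m3, m4⟩ := h.lightH e' he'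
  obtain ⟨g1, g2, g3, g4⟩ := h.lightH g hg
  have x3 : e.1 ∉ B' := fun u => l1 (o1 _ x1 u)
  have x4 : e.2 ∉ B' := fun u => l2 (o1 _ x2 u)
  have y3 : e'.1 ∉ B := fun u => m1 (o1 _ u y1)
  have y4 : e'.2 ∉ B := fun u => m2 (o1 _ u y2)
  obtain ⟨a1, a2, a3, a4, a5⟩ := t1
  obtain ⟨b1, b2, b3, b4, b5⟩ := t2
  have n1 : g ≠ e := fun u => a4 (u ▸ x2)
  have n2 : g ≠ e' := fun u => b4 (u ▸ y1)
  have n3 : e ≠ e' := fun u => x3 (u ▸ y1)
  by_cases hn : NB (rs p ((c, d) ::ₘ G)) a b (c, d)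
  · have n4 : g ≠ (c, d) := by
      rintro rfl
      exact b4 (hn.mem b1 b2 b5 b3)
    rcases o2 d h.bd.symm with u | u
    · have v : c ∈ B := hn.mem a1 a2 a5 u
      have n5 : e' ≠ (c, d) := by rintro rfl; exact y4 u
      exact LT.l3e h (sub2 (memG hg n4) (memG he' n5) n2) hn (hO.dir he' n')
        ⟨B, by simp [a1, a3, u, v], by simp [a2, a4, y3, y4], a5⟩
        ⟨B', by simp [b1, b3, y1, y2], by
          simp only [List.forall_mem_cons, List.not_mem_nil, IsEmpty.forall_iff, implies_true,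
            and_true]
          exact ⟨b2, b4, fun w => h.ac (o1 _ v w).symm, fun w => h.ad (o1 _ u w).symm⟩, b5⟩
    · have v : c ∈ B' := hn.mem b1 b2 b5 u
      have n5 : e ≠ (c, d) := by rintro rfl; exact x4 u
      exact LT.l3d h (sub2 (memG hg n4) (memG he n5) n1) hn (hO.dir he n)
        ⟨B', by simp [b1, b3, u, v], by simp [b2, b4, x3, x4], b5⟩
        ⟨B, by simp [a1, a3, x1, x2], by
          simp only [List.forall_mem_cons, List.not_mem_nil, IsEmpty.forall_iff, implies_true,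
            and_true]
          exact ⟨a2, a4, fun w => h.ac (o1 _ w v).symm, fun w => h.ad (o1 _ w u).symm⟩, a5⟩
  · exact LT.l3f h (sub3 hg he he' n1 n2 n3) (h.fr_of_opp hn g1 g3) (h.fr_of_opp hn g2 g4)
      (h.fr_of_opp hn l1 l3) (h.fr_of_opp hn l2 l4) (h.fr_of_opp hn m1 m3) (h.fr_of_opp hn m2 m4)
      (hO.dir he n) (hO.dir he' n') ⟨B, by simp [a1, a3, x1, x2], by simp [a2, a4, y3, y4], a5⟩
      ⟨B', by simp [b1, b3, y1, y2], by simp [b2, b4, x3, x4], b5⟩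

theorem nCb (h : LLc p G a b c d) (hc : p {a}ᶜ ≤ 0) : Le (rs p ((c, d) ::ₘ G)) [b, c] [a] 0 := by
  intro X x1 x2
  simp only [List.forall_mem_cons] at x1 x2
  by_cases hz : ∃ z, z ∉ X ∧ z ≠ a
  · obtain ⟨z, z1, z2⟩ := hz
    exact h.swap.r_anc x1.1 x2.1 x1.2.1 h.bc.symm z1 z2
  · have : X = {a}ᶜ := by
      push Not at hz
      ext z
      simp only [Finset.mem_compl, Finset.mem_singleton]
      exact ⟨fun u e => x2.1 (e ▸ u), fun u => by by_contra v; exact u (hz z v)⟩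
    rwa [this, h.r_co (by simp)]

theorem noP1_of (h : LLc p G a b c d) (hO : Ori (rs p ((c, d) ::ₘ G)) ((c, d) ::ₘ G) a b)
    (hc : p {a}ᶜ ≤ 0) : NoP1 (rs p ((c, d) ::ₘ G)) ((c, d) ::ₘ G) a b := by
  intro e he e' he' n n' hp
  have ne := pt1_ne (hO.dir he' n') hp
  by_cases k : e = (c, d)
  · subst k
    exact LT.l2a h (sub1 (memG he' ne.symm)) n (hO.dir he' n') hp (h.nCb hc)
  by_cases k' : e' = (c, d)
  · subst k'
    exact LT.l2b h (sub1 (memG he k)) n' (hO.dir he n) hp (h.nCb hc)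
  exact LT.l2o h (sub2 (memG he k) (memG he' k') ne) (hO.dir he n) (hO.dir he' n') hp (h.nCb hc)

theorem sup2 (h : LLc p G a b c d) {e : V × V} (he : e ∈ (c, d) ::ₘ G) {X Y : Finset V} {u v : V}
    (h1 : u ∈ X) (h2 : u ∈ Y) (h3 : v ∉ X) (h4 : v ∉ Y) (e1 : e.1 ∈ X) (e2 : e.2 ∉ X)
    (e3 : e.1 ∉ Y) (e4 : e.2 ∈ Y) : rs p ((c, d) ::ₘ G) X + rs p ((c, d) ::ₘ G) Y + 2 ≤
      rs p ((c, d) ::ₘ G) (X ∩ Y) + rs p ((c, d) ::ₘ G) (X ∪ Y) := by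
  obtain ⟨R, hR⟩ := Multiset.exists_cons_of_mem he
  have := (h.cs.sub_dG R).super h1 h2 h3 h4
  simp only [rs, hR, dG_cons]
  simp [cut, e1, e2, e3, e4]
  omega

/-- the first outcome -/
theorem root (h : LLc p G a b c d) (hO : Ori (rs p ((c, d) ::ₘ G)) ((c, d) ::ₘ G) a b)
    (hN : NoP1 (rs p ((c, d) ::ₘ G)) ((c, d) ::ₘ G) a b) : Out1 p ((c, d) ::ₘ G) a b := by
  refine ⟨h.pab, ?_⟩
  by_cases hn : NB (rs p ((c, d) ::ₘ G)) a b (c, d)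
  · obtain ⟨e, he, n, k, S, s1, s2⟩ :=
      h.toAH.exact_nb hO hN (h.brT hO) (Multiset.mem_cons_self _ _) hn
    obtain ⟨l1, l2, l3, l4⟩ := h.lightH e he
    refine ⟨e.2, S, l2, l4, fun K k1 k2 k3 => ?_, s1, s2⟩
    by_contra hc
    obtain ⟨n1, n2⟩ := h.k_cd k1 k2 (by omega)
    have ne : e ≠ (c, d) := by rintro rfl; exact n2 k3
    refine LT.rt1 h (sub1 (memG he ne)) (hO.dir he n)
      ⟨K, by simp [k1, k2, k3], by simp, show 1 ≤ rs p ((c, d) ::ₘ G) K by omega⟩ ?_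
    intro X x1 x2
    simp only [List.forall_mem_cons] at x1 x2
    change rs p ((c, d) ::ₘ G) X ≤ -1
    by_contra hx
    have cX : c ∈ X := k X ⟨x1.1, x2.1, x1.2.1, x2.2.1, by omega⟩
    by_cases hw : ∃ w ∈ K, w ∈ X ∧ w ≠ a
    · obtain ⟨w, w1, w2, w3⟩ := hw
      have := h.kl k1 k2 (by omega) x1.1 x2.1 (by omega) w1 w2 w3 n2 x2.2.2.1
      exact (h.k_cd (by simp [k1]) (by simp [k2]) this).1 (Finset.mem_union_right _ cX)
    · push Not at hw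
      have s := h.sup2 he x1.1 k1 x2.2.2.1 n2 x1.2.1 x2.2.1 (fun u => l1 (hw _ u x1.2.1)) k3
      have := h.r_le (X ∩ K)
      have := h.r_le (X ∪ K)
      omega
  · obtain ⟨r, S, r1, r2, s1, s2⟩ := h.toAH.exact_any hO hN (h.brT hO) h.ac.symm h.bc.symm
    exact ⟨r, S, r1, r2, fun K k1 k2 k3 =>
      (h.fr_of_opp hn r1 r2).1 K (by simp [k1, k2, k3]) (by simp), s1, s2⟩

theorem nb_of_k (h : LLc p G a b c d) {w : V} (wa : w ≠ a) (wb : w ≠ b)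
    (k : Ge (rs p ((c, d) ::ₘ G)) [a, b, w] [] 1) : NB (rs p ((c, d) ::ₘ G)) a b (c, d) := by
  by_contra hn
  exact not_le_iff.2 k (h.fr_of_opp hn wa wb).1

theorem selK1 (h : LLc p G a b c d) (hO : Ori (rs p ((c, d) ::ₘ G)) ((c, d) ::ₘ G) a b)
    {e1 e2 : V × V} (m1 : e1 ∈ (c, d) ::ₘ G) (m2 : e2 ∈ (c, d) ::ₘ G)
    (n1 : NB (rs p ((c, d) ::ₘ G)) a b e1) (n2 : NB (rs p ((c, d) ::ₘ G)) a b e2)
    (hp : Pt1 (rs p ((c, d) ::ₘ G)) a b e1.1 e1.2 e2.1 e2.2)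
    (k : Ge (rs p ((c, d) ::ₘ G)) [a, b, e1.1] [] 1 ∨ Ge (rs p ((c, d) ::ₘ G)) [a, b, e1.2] [] 1 ∨
      Ge (rs p ((c, d) ::ₘ G)) [a, b, e2.1] [] 1 ∨ Ge (rs p ((c, d) ::ₘ G)) [a, b, e2.2] [] 1) :
    False := by
  have ne := pt1_ne (hO.dir m2 n2) hp
  have kc : ¬ Ge (rs p ((c, d) ::ₘ G)) [a, b, c] [] 1 := fun u => not_le_iff.2 u h.le_abc
  have kd : ¬ Ge (rs p ((c, d) ::ₘ G)) [a, b, d] [] 1 := fun u => not_le_iff.2 u h.le_abd
  by_cases q1 : e1 = (c, d)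
  · subst q1
    exact LT.skb h (sub1 (memG m2 ne.symm)) n1 (hO.dir m2 n2) hp
      ((k.resolve_left kc).resolve_left kd)
  by_cases q2 : e2 = (c, d)
  · subst q2
    refine LT.skc h (sub1 (memG m1 q1)) n2 (hO.dir m1 n1) hp ?_
    rcases k with k | k | k | k
    exacts [Or.inl k, Or.inr k, absurd k kc, absurd k kd]
  exact LT.ska h (sub2 (memG m1 q1) (memG m2 q2) ne) (hO.dir m1 n1) (hO.dir m2 n2) hp k

theorem selK (h : LLc p G a b c d) (hO : Ori (rs p ((c, d) ::ₘ G)) ((c, d) ::ₘ G) a b)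
    {e1 e2 e : V × V} (m1 : e1 ∈ (c, d) ::ₘ G) (m2 : e2 ∈ (c, d) ::ₘ G) (m : e ∈ (c, d) ::ₘ G)
    (n1 : NB (rs p ((c, d) ::ₘ G)) a b e1) (n2 : NB (rs p ((c, d) ::ₘ G)) a b e2)
    (n : NB (rs p ((c, d) ::ₘ G)) a b e) (hp : Pt1 (rs p ((c, d) ::ₘ G)) a b e1.1 e1.2 e2.1 e2.2)
    (k : Ge (rs p ((c, d) ::ₘ G)) [a, b, e.1] [] 1 ∨ Ge (rs p ((c, d) ::ₘ G)) [a, b, e.2] [] 1) :
    False := by
  have ne := pt1_ne (hO.dir m2 n2) hp
  obtain ⟨l1, l2, l3, l4⟩ := h.lightH e m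
  have hn : NB (rs p ((c, d) ::ₘ G)) a b (c, d) := k.elim (h.nb_of_k l1 l3) (h.nb_of_k l2 l4)
  have q : e ≠ (c, d) := by
    rintro rfl
    exact k.elim (fun u => not_le_iff.2 u h.le_abc) (fun u => not_le_iff.2 u h.le_abd)
  have mc : (c, d) ∈ (c, d) ::ₘ G := Multiset.mem_cons_self _ _
  have kr : ∀ {f : V × V}, f ∈ (c, d) ::ₘ G → NB (rs p ((c, d) ::ₘ G)) a b f →
      ¬ Pt1 (rs p ((c, d) ::ₘ G)) a b f.1 f.2 e.1 e.2 := fun mf nf u =>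
    h.selK1 hO mf m nf n u (Or.inr (Or.inr k))
  have kd : ∀ {f : V × V}, f ∈ (c, d) ::ₘ G → NB (rs p ((c, d) ::ₘ G)) a b f →
      ¬ Pt1 (rs p ((c, d) ::ₘ G)) a b c d f.1 f.2 := by
    intro f mf nf u
    by_cases v : f = e
    · subst v
      exact kr mc hn u
    · exact LT.skd h (sub2 (memG mf (pt1_ne (e := (c, d)) (hO.dir mf nf) u).symm) (memG m q) v) hn
        (hO.dir mf nf) (hO.dir m n) u k
  have ke : ∀ {f : V × V}, f ∈ (c, d) ::ₘ G → NB (rs p ((c, d) ::ₘ G)) a b f →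
      ¬ Pt1 (rs p ((c, d) ::ₘ G)) a b f.1 f.2 c d := by
    intro f mf nf u
    by_cases v : f = e
    · subst v
      exact h.selK1 hO m mc n hn u (k.elim Or.inl fun w => Or.inr (Or.inl w))
    · exact LT.ske h (sub2 (memG mf (pt1_ne (e' := (c, d)) (hO.dir mc hn) u)) (memG m q) v) hn
        (hO.dir mf nf) (hO.dir m n) u k
  by_cases q1 : e1 = (c, d)
  · subst q1
    exact kd m2 n2 hp
  by_cases q2 : e2 = (c, d)
  · subst q2
    exact ke m1 n1 hp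
  have k0 := h.selK1 hO m1 m2 n1 n2 hp
  have f1 := Le.of_not (k := 0) (fun u => k0 (Or.inl u)) rfl
  have f2 := Le.of_not (k := 0) (fun u => k0 (Or.inr (Or.inl u))) rfl
  have f3 := Le.of_not (k := 0) (fun u => k0 (Or.inr (Or.inr (Or.inl u)))) rfl
  have f4 := Le.of_not (k := 0) (fun u => k0 (Or.inr (Or.inr (Or.inr u)))) rfl
  have q3 : e1 ≠ e := by
    rintro rfl
    exact k.elim (fun u => not_le_iff.2 u f1) (fun u => not_le_iff.2 u f2)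
  have q4 : e2 ≠ e := by
    rintro rfl
    exact k.elim (fun u => not_le_iff.2 u f3) (fun u => not_le_iff.2 u f4)
  exact LT.skg h (sub3 (memG m1 q1) (memG m2 q2) (memG m q) ne q3 q4) hn (hO.dir m1 n1)
    (hO.dir m2 n2) (hO.dir m n) hp k f1 f2 f3 f4 (ke m1 n1) (kr m1 n1) (ke m2 n2) (kd m2 n2)
    (kr m2 n2)

/-- a directed edge whose ends lie in no overfull set -/
def Gd (ψ : Finset V → ℤ) (H : Multiset (V × V)) (a b : V) (e : V × V) : Prop :=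
  e ∈ H ∧ DirT ψ a b e.1 e.2 ∧ Fr ψ a b e.1 ∧ Fr ψ a b e.2

theorem sel3 (h : LLc p G a b c d) {e1 e2 e3 e4 : V × V}
    (g1 : Gd (rs p ((c, d) ::ₘ G)) ((c, d) ::ₘ G) a b e1)
    (g2 : Gd (rs p ((c, d) ::ₘ G)) ((c, d) ::ₘ G) a b e2)
    (g3 : Gd (rs p ((c, d) ::ₘ G)) ((c, d) ::ₘ G) a b e3)
    (g4 : Gd (rs p ((c, d) ::ₘ G)) ((c, d) ::ₘ G) a b e4)
    (p1 : Pt1 (rs p ((c, d) ::ₘ G)) a b e1.1 e1.2 e2.1 e2.2)
    (p2 : Pt2 (rs p ((c, d) ::ₘ G)) a b e3.1 e3.2 e4.1 e4.2)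
    (k : e3 = e1 ∨ e3 = e2 ∨ e4 = e1 ∨ e4 = e2) : False := by
  have n12 := pt1_ne g2.2.1 p1
  have n34 := pt2_ne g4.2.1 p2
  by_cases q1 : e3 = e1
  · subst q1
    by_cases q : e4 = e2
    · subst q
      obtain ⟨X, hX⟩ := ge_iff_TT.1 g2.2.1.1
      have := p2.1 X (by simp [hX.1, hX.2.2.1, (p1.mem hX).1]) (by simp [hX.2.1, hX.2.2.2.1])
      have := hX.2.2.2.2
      omega
    · exact LT.s0c h (sub3 g1.1 g2.1 g4.1 n12 n34 (Ne.symm q)) g1.2.2.1 g1.2.2.2 g2.2.2.1 g2.2.2.2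
        g4.2.2.1 g4.2.2.2 g1.2.1 g2.2.1 g4.2.1 p1 p2
  by_cases q2 : e3 = e2
  · subst q2
    by_cases q : e4 = e1
    · subst q
      exact LT.s0b h (sub2 g1.1 g2.1 n12) g1.2.2.1 g1.2.2.2 g2.2.2.1 g2.2.2.2 g1.2.1 g2.2.1 p1 p2
    · exact LT.s0d h (sub3 g1.1 g2.1 g4.1 n12 (Ne.symm q) n34) g1.2.2.1 g1.2.2.2 g2.2.2.1 g2.2.2.2
        g4.2.2.1 g4.2.2.2 g1.2.1 g2.2.1 g4.2.1 p1 p2
  rcases (k.resolve_left q1).resolve_left q2 with rfl | rfl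
  · exact LT.s0e h (sub3 g1.1 g2.1 g3.1 n12 (Ne.symm q1) (Ne.symm q2)) g1.2.2.1 g1.2.2.2 g2.2.2.1
      g2.2.2.2 g3.2.2.1 g3.2.2.2 g1.2.1 g2.2.1 g3.2.1 p1 p2
  · exact LT.s0f h (sub3 g1.1 g2.1 g3.1 n12 (Ne.symm q1) (Ne.symm q2)) g1.2.2.1 g1.2.2.2 g2.2.2.1
      g2.2.2.2 g3.2.2.1 g3.2.2.2 g1.2.1 g2.2.1 g3.2.1 p1 p2

theorem sel4 (h : LLc p G a b c d) {e1 e2 e3 e4 : V × V}
    (g1 : Gd (rs p ((c, d) ::ₘ G)) ((c, d) ::ₘ G) a b e1)
    (g2 : Gd (rs p ((c, d) ::ₘ G)) ((c, d) ::ₘ G) a b e2)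
    (g3 : Gd (rs p ((c, d) ::ₘ G)) ((c, d) ::ₘ G) a b e3)
    (g4 : Gd (rs p ((c, d) ::ₘ G)) ((c, d) ::ₘ G) a b e4)
    (p1 : Pt1 (rs p ((c, d) ::ₘ G)) a b e1.1 e1.2 e2.1 e2.2)
    (p2 : Pt2 (rs p ((c, d) ::ₘ G)) a b e3.1 e3.2 e4.1 e4.2) : False := by
  by_cases k : e3 = e1 ∨ e3 = e2 ∨ e4 = e1 ∨ e4 = e2
  · exact h.sel3 g1 g2 g3 g4 p1 p2 k
  push Not at k
  exact LT.s0h h (sub4 g1.1 g2.1 g3.1 g4.1 (pt1_ne g2.2.1 p1) k.1.symm k.2.2.1.symm k.2.1.symm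
      k.2.2.2.symm (pt2_ne g4.2.1 p2)) g1.2.2.1 g1.2.2.2 g2.2.2.1 g2.2.2.2 g3.2.2.1 g3.2.2.2
    g4.2.2.1 g4.2.2.2 g1.2.1 g2.2.1 g3.2.1 g4.2.1 p1 p2
    (fun u => h.sel3 g1 g3 g3 g4 u p2 (by simp))
    (fun u => h.sel3 g1 g2 g1 g3 p1 u (by simp))
    (fun u => h.sel3 g1 g2 g3 g1 p1 u (by simp))
    (fun u => h.sel3 g1 g4 g3 g4 u p2 (by simp))
    (fun u => h.sel3 g4 g1 g3 g4 u p2 (by simp))
    (fun u => h.sel3 g1 g2 g1 g4 p1 u (by simp))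
    (fun u => h.sel3 g1 g2 g4 g1 p1 u (by simp))
    (fun u => h.sel3 g3 g2 g3 g4 u p2 (by simp))
    (fun u => h.sel3 g1 g2 g3 g2 p1 u (by simp))
    (fun u => h.sel3 g4 g2 g3 g4 u p2 (by simp))
    (fun u => h.sel3 g1 g2 g2 g4 p1 u (by simp))
    (fun u => h.sel3 g1 g2 g4 g2 p1 u (by simp))

theorem rs_dual (X : Finset V) :
    rs (refl p) ((d, c) ::ₘ G.map Prod.swap) X = rs p ((c, d) ::ₘ G) Xᶜ := phi_dual X

theorem map_swap_cons (G : Multiset (V × V)) (c d : V) :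
    ((c, d) ::ₘ G).map Prod.swap = (d, c) ::ₘ G.map Prod.swap := Multiset.map_cons _ _ _

/-- the selection lemma -/
theorem sel (h : LLc p G a b c d) (hO : Ori (rs p ((c, d) ::ₘ G)) ((c, d) ::ₘ G) a b)
    {e1 e2 : V × V} (m1 : e1 ∈ (c, d) ::ₘ G) (m2 : e2 ∈ (c, d) ::ₘ G)
    (n1 : NB (rs p ((c, d) ::ₘ G)) a b e1) (n2 : NB (rs p ((c, d) ::ₘ G)) a b e2)
    (p1 : Pt1 (rs p ((c, d) ::ₘ G)) a b e1.1 e1.2 e2.1 e2.2) :
    NoP2 (rs p ((c, d) ::ₘ G)) ((c, d) ::ₘ G) a b := by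
  intro e3 m3 e4 m4 n3 n4 p2
  have gd : ∀ {e : V × V}, e ∈ (c, d) ::ₘ G → NB (rs p ((c, d) ::ₘ G)) a b e →
      Gd (rs p ((c, d) ::ₘ G)) ((c, d) ::ₘ G) a b e := by
    intro e m n
    have k1 := h.selK hO m1 m2 m n1 n2 n p1
    have k2 : Ge (rs p ((c, d) ::ₘ G)) [] [a, b, e.2] 1 ∨
        Ge (rs p ((c, d) ::ₘ G)) [] [a, b, e.1] 1 → False := by
      intro k
      obtain ⟨c1, c2, c3⟩ : p {a}ᶜ = 1 ∧ p {b}ᶜ = 1 ∧ p {a, b}ᶜ = 1 := by
        rcases k with ⟨X, _, x2, x3⟩ | ⟨X, _, x2, x3⟩ <;>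
          exact h.kbar (x2 a (by simp)) (x2 b (by simp)) x3
      have ms : ∀ {f : V × V}, f ∈ (c, d) ::ₘ G → f.swap ∈ (d, c) ::ₘ G.map Prod.swap :=
        fun mf => map_swap_cons G c d ▸ Multiset.mem_map_of_mem _ mf
      refine (h.dual c1 c2 c3).selK (map_swap_cons G c d ▸ hO.compl rs_dual) (ms m3) (ms m4) (ms m)
        (n3.compl rs_dual) (n4.compl rs_dual) (n.compl rs_dual) (p2.compl rs_dual) ?_
      exact k.imp (fun u => (u.compl rs_dual).perm (by simp) (by simp))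
        (fun u => (u.compl rs_dual).perm (by simp) (by simp))
    exact ⟨m, hO.dir m n,
      ⟨Le.of_not (fun u => k1 (Or.inl u)) rfl, Le.of_not (fun u => k2 (Or.inr u)) rfl⟩,
      ⟨Le.of_not (fun u => k1 (Or.inr u)) rfl, Le.of_not (fun u => k2 (Or.inl u)) rfl⟩⟩
  exact h.sel4 (gd m1 n1) (gd m2 n2) (gd m3 n3) (gd m4 n4) p1 p2

end LLc

end Pool.Agent.CSG

end

-- part MP_305420_co.LLLoc2
section

/-! The local step of the light case. -/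

set_option linter.unusedSectionVars false

namespace Pool.Agent.CSG

open Finset

variable {V : Type*} [Fintype V] [DecidableEq V]

/-- the same multigraph up to the orientation of its edges -/
structure SameG (H' H : Multiset (V × V)) : Prop where
  deg : ∀ X, dG H' X = dG H X
  card : Multiset.card H' = Multiset.card H
  en : ends H' = ends H
  mem : ∀ e ∈ H', e ∈ H ∨ e.swap ∈ H

theorem SameG.rs_eq {H' H : Multiset (V × V)} (h : SameG H' H) (p : Finset V → ℤ) :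
    rs p H' = rs p H := funext fun X => by unfold rs; rw [h.deg]

theorem sameG_map (f : V × V → V × V) (hf : ∀ e, f e = e ∨ f e = e.swap) (H : Multiset (V × V)) :
    SameG (H.map f) H := by
  refine ⟨fun X => ?_, Multiset.card_map _ _, ?_, fun e he => ?_⟩
  · induction H using Multiset.induction_on with
    | empty => simp
    | cons e H ih =>
      rw [Multiset.map_cons, dG_cons, dG_cons, ih]
      rcases hf e with h | h <;> rw [h]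
      simp only [cut, Prod.fst_swap, Prod.snd_swap, iff_comm]
  · induction H using Multiset.induction_on with
    | empty => simp
    | cons e H ih =>
      rw [Multiset.map_cons, ends_cons, ends_cons, ih]
      rcases hf e with h | h <;> rw [h]
      exact Multiset.cons_swap _ _ _
  · obtain ⟨e', h1, rfl⟩ := Multiset.mem_map.1 he
    rcases hf e' with h | h <;> rw [h]
    · exact Or.inl h1
    · exact Or.inr (by simpa using h1)

theorem SameG.cons {H' H : Multiset (V × V)} (h : SameG H' H) (e : V × V) :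
    SameG (e ::ₘ H') (e ::ₘ H) := by
  refine ⟨fun X => by rw [dG_cons, dG_cons, h.deg], by simp [h.card],
    by rw [ends_cons, ends_cons, h.en], fun f hf => ?_⟩
  rcases Multiset.mem_cons.1 hf with rfl | hf
  · exact Or.inl (Multiset.mem_cons_self _ _)
  · exact (h.mem f hf).imp Multiset.mem_cons_of_mem Multiset.mem_cons_of_mem

theorem Out1.congr {p : Finset V → ℤ} {H' H : Multiset (V × V)} {a b : V} (h : Out1 p H' a b)
    (s : SameG H' H) : Out1 p H a b := by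
  unfold Out1 at h ⊢
  rwa [s.rs_eq, s.card] at h

theorem Out3.congr {p : Finset V → ℤ} {H' H : Multiset (V × V)} {a b : V} (h : Out3 p H' a b)
    (s : SameG H' H) : Out3 p H a b := by
  obtain ⟨h1, h2, h3, h4, h5, ⟨x1, y1, x2, y2, Y1, Y2, h6⟩, h7⟩ := h
  rw [s.rs_eq] at h4 h5
  rw [s.card] at h7
  have k : ∀ x y, (x, y) ∈ H' ∨ (y, x) ∈ H' → (x, y) ∈ H ∨ (y, x) ∈ H := by
    rintro x y (u | u)
    exacts [s.mem _ u, (s.mem _ u).symm]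
  refine ⟨h1, h2, h3, h4, h5, ⟨x1, y1, x2, y2, Y1, Y2, k _ _ h6.e1, k _ _ h6.e2, h6.m1, h6.m2,
    ?_, ?_, ?_, ?_, ?_⟩, h7⟩
  all_goals rw [← s.rs_eq]
  exacts [h6.t1, h6.t2, h6.nt, h6.n1, h6.n2]

namespace LLc

variable {p : Finset V → ℤ} {G : Multiset (V × V)} {a b c d : V}

theorem dualAH (h : LLc p G a b c d) (hb : p {b}ᶜ = 1) :
    AH (refl p) ((d, c) ::ₘ G.map Prod.swap) b a := by
  refine ⟨fun X Y h1 h2 h3 h4 => h.cs.refl.super h1 h2 h3 h4, h.ab.symm, fun e he => ?_, ?_,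
    fun X _ _ => by rw [rs_dual]; exact h.r_le _, fun X h1 h2 w w1 w2 z z1 z2 => ?_⟩
  · rw [← map_swap_cons] at he
    obtain ⟨a1, a2, a3, a4⟩ := h.lightH _ (mem_swap.1 he)
    exact ⟨a4, a3, a2, a1⟩
  · rw [rs_dual, h.r_co (by simp), hb]
  · rw [rs_dual]
    exact h.r_anc (Finset.mem_compl.2 h2) (by simp [h1]) (Finset.mem_compl.2 z1) z2
      (z := w) (by simp [w1]) w2

theorem half (h : LLc p G a b c d) {x y : V} {X X' : Finset V}
    (hK : ∀ K, a ∈ K → b ∈ K → x ∈ K → rs p ((c, d) ::ₘ G) K ≤ 0) (yb : y ≠ b)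
    (t : TT (rs p ((c, d) ::ₘ G)) a b x y X) (t' : TT (rs p ((c, d) ::ₘ G)) b a x y X') :
    0 ≤ rs p ((c, d) ::ₘ G) (insert b (X ∩ X')) := by
  obtain ⟨a1, a2, a3, a4, a5⟩ := t
  obtain ⟨b1, b2, b3, b4, b5⟩ := t'
  have ya : y ≠ a := fun e => a4 (e ▸ a1)
  have s1 := h.sup (X := X) (Y := {a, b}) a1 (by simp) a4 (by simp [ya, yb])
  have e1 : X ∩ {a, b} = {a} := by
    ext t
    simp only [Finset.mem_inter, Finset.mem_insert, Finset.mem_singleton]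
    constructor
    · rintro ⟨t1, rfl | rfl⟩
      exacts [rfl, absurd t1 a2]
    · rintro rfl
      exact ⟨a1, Or.inl rfl⟩
  have v1 : rs p ((c, d) ::ₘ G) {a} = 1 := h.phi_a
  have v2 : rs p ((c, d) ::ₘ G) {a, b} = 1 := h.phi_ab
  have s2 := h.sup (X := X ∪ {a, b}) (Y := X') (u := b) (by simp) b1 (v := y)
    (by simp [a4, ya, yb]) b4
  have e2 : (X ∪ {a, b}) ∩ X' = insert b (X ∩ X') := by
    ext t
    simp only [Finset.mem_inter, Finset.mem_union, Finset.mem_insert, Finset.mem_singleton]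
    constructor
    · rintro ⟨t1 | rfl | rfl, t2⟩
      exacts [Or.inr ⟨t1, t2⟩, absurd t2 b2, Or.inl rfl]
    · rintro (rfl | ⟨t1, t2⟩)
      exacts [⟨Or.inr (Or.inr rfl), b1⟩, ⟨Or.inl t1, t2⟩]
  have s3 := hK (X ∪ {a, b} ∪ X') (by simp) (by simp) (by simp [a3])
  rw [e1] at s1
  rw [e2] at s2
  omega

/-- a set that is tight for both letters -/
theorem ft (h : LLc p G a b c d) (hO : Ori (rs p ((c, d) ::ₘ G)) ((c, d) ::ₘ G) a b) {e : V × V}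
    (m : e ∈ (c, d) ::ₘ G) (n : NB (rs p ((c, d) ::ₘ G)) a b e)
    (hK : ∀ K, a ∈ K → b ∈ K → e.1 ∈ K → rs p ((c, d) ::ₘ G) K ≤ 0) :
    ∃ Z, a ∉ Z ∧ b ∉ Z ∧ e.1 ∈ Z ∧ e.2 ∉ Z ∧ 0 ≤ rs p ((c, d) ::ₘ G) (insert a Z) ∧
      0 ≤ rs p ((c, d) ::ₘ G) (insert b Z) := by
  obtain ⟨X, hX⟩ := hO e m
  obtain ⟨l1, l2, l3, l4⟩ := h.lightH e m
  obtain ⟨X', hX'⟩ : ∃ X', TT (rs p ((c, d) ::ₘ G)) b a e.1 e.2 X' := by
    by_cases q : e = (c, d)
    · subst q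
      exact h.swap.tt_c
    · exact ge_iff_TT.1 (Ge.of_not (LT.ft0 h (sub1 (memG m q)) (hO.dir m n)) rfl)
  refine ⟨X ∩ X', by simp [hX'.2.1], by simp [hX.2.1], by simp [hX.2.2.1, hX'.2.2.1],
    by simp [hX.2.2.2.1], ?_, h.half hK l4 hX hX'⟩
  rw [Finset.inter_comm]
  exact h.swap.half (fun K k1 k2 => hK K k2 k1) l2 hX' hX

theorem compl_ins (hab : a ≠ b) {Z : Finset V} (hb : b ∉ Z) :
    (insert b (insert a (insert b Z))ᶜ)ᶜ = insert a Z := by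
  rw [Finset.compl_insert, compl_compl]
  ext t
  simp only [Finset.mem_erase, Finset.mem_insert]
  constructor
  · rintro ⟨t1, t2 | t2 | t2⟩
    exacts [Or.inl t2, absurd t2 t1, Or.inr t2]
  · rintro (rfl | t1)
    exacts [⟨hab, Or.inl rfl⟩, ⟨fun e => hb (e ▸ t1), Or.inr (Or.inr t1)⟩]

theorem out3 (h : LLc p G a b c d) (hO : Ori (rs p ((c, d) ::ₘ G)) ((c, d) ::ₘ G) a b)
    (hb : p {b}ᶜ = 1) (hW : p {a, b}ᶜ ≠ 1)
    {e1 e2 : V × V} (m1 : e1 ∈ (c, d) ::ₘ G) (m2 : e2 ∈ (c, d) ::ₘ G)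
    (n1 : NB (rs p ((c, d) ::ₘ G)) a b e1) (n2 : NB (rs p ((c, d) ::ₘ G)) a b e2)
    (p1 : Pt1 (rs p ((c, d) ::ₘ G)) a b e1.1 e1.2 e2.1 e2.2) :
    Out3 (refl p) ((c, d) ::ₘ G) b a := by
  have nW : ∀ X, a ∉ X → b ∉ X → rs p ((c, d) ::ₘ G) X ≤ 0 := fun X x1 x2 => by
    by_contra hc
    exact hW (h.kbar x1 x2 (by omega)).2.2
  have k0 := h.selK1 hO m1 m2 n1 n2 p1
  have f1 := Le.of_not (k := 0) (fun u => k0 (Or.inl u)) rfl
  have f2 := Le.of_not (k := 0) (fun u => k0 (Or.inr (Or.inl u))) rfl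
  have f3 := Le.of_not (k := 0) (fun u => k0 (Or.inr (Or.inr (Or.inl u)))) rfl
  have f4 := Le.of_not (k := 0) (fun u => k0 (Or.inr (Or.inr (Or.inr u)))) rfl
  have fo : ∀ w, Le (rs p ((c, d) ::ₘ G)) [] [a, b, w] 0 :=
    fun w X _ x2 => nW X (x2 a (by simp)) (x2 b (by simp))
  have k1 := LT.dwa h (sub2 m1 m2 (pt1_ne (hO.dir m2 n2) p1)) ⟨f1, fo _⟩ ⟨f2, fo _⟩ ⟨f3, fo _⟩
    ⟨f4, fo _⟩ (fun X _ x2 => nW X (x2 a (by simp)) (x2 b (by simp))) (hO.dir m1 n1) (hO.dir m2 n2)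
    p1
  have inc : ∀ X, TT (rs p ((c, d) ::ₘ G)) a b e1.1 e1.2 X → e2.1 ∈ X := by
    intro X ⟨x1, x2, x3, x4, x5⟩
    by_contra hc
    exact k1 (Or.inl ⟨X, by simp [x1, x3], by simp [x2, x4, hc], x5⟩)
  have fk : ∀ {w : V}, Le (rs p ((c, d) ::ₘ G)) [a, b, w] [] 0 → ∀ K, a ∈ K → b ∈ K → w ∈ K →
      rs p ((c, d) ::ₘ G) K ≤ 0 := fun f K k1 k2 k3 => f K (by simp [k1, k2, k3]) (by simp)
  obtain ⟨l1, l2, l3, l4⟩ := h.lightH e1 m1
  obtain ⟨o1, o2, o3, o4⟩ := h.lightH e2 m2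
  obtain ⟨Z1, a1, a2, a3, a4, a5, a6⟩ := h.ft hO m1 n1 (fk f1)
  obtain ⟨Z2, b1, b2, b3, b4, b5, b6⟩ := h.ft hO m2 n2 (fk f3)
  have t1 : TT (rs p ((c, d) ::ₘ G)) a b e1.1 e1.2 (insert a Z1) :=
    ⟨by simp, by simp [h.ab.symm, a2], by simp [a3], by simp [l2, a4], a5⟩
  have t2 : TT (rs p ((c, d) ::ₘ G)) a b e2.1 e2.2 (insert a Z2) :=
    ⟨by simp, by simp [h.ab.symm, b2], by simp [b3], by simp [o2, b4], b5⟩
  have u1 : e2.1 ∈ Z1 := by simpa [o1] using inc _ t1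
  have u2 : e1.1 ∈ Z2 := by simpa [l1] using (p1.mem t2).1
  have rr : ∀ X, rs (refl p) ((c, d) ::ₘ G) X = rs p ((c, d) ::ₘ G) Xᶜ := rs_refl p _
  refine ⟨by simp [refl, h.pb], by simp [refl, h.pa], by
      simp only [refl, compl_compl]; rw [Finset.pair_comm]; exact h.pab,
    fun X x1 x2 => ?_, fun X x1 x2 x3 => ?_,
    ⟨e1.1, e1.2, e2.1, e2.2, (insert a (insert b Z1))ᶜ, (insert a (insert b Z2))ᶜ, Or.inl m1,
      Or.inl m2, by simp [l2, l4, a3, a4, u1], by simp [o2, o4, b3, b4, u2], ?_, ?_, ?_, ?_, ?_⟩, ?_⟩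
  · rw [rr]
    exact nW _ (by simp [x2]) (by simp [x1])
  · rw [rr]
    by_contra hc
    have ka : a ∈ Xᶜ := Finset.mem_compl.2 x2
    have kb : b ∈ Xᶜ := Finset.mem_compl.2 x1
    obtain ⟨w, w1, w2, w3⟩ : ∃ w ∈ Xᶜ, w ≠ a ∧ w ≠ b := by
      by_contra hn
      push Not at hn
      refine x3 (compl_injective ?_)
      ext t
      simp only [compl_compl, Finset.mem_insert, Finset.mem_singleton]
      constructor
      · intro u
        by_contra v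
        push Not at v
        exact v.1 (hn t u v.2)
      · rintro (rfl | rfl)
        exacts [kb, ka]
    by_cases v1 : w ∈ insert a Z1
    · have := h.kl ka kb (by omega) t1.1 t1.2.1 a5 w1 v1 w2
        (fun u => hc (fk f2 _ ka kb u)) t1.2.2.2.1
      have := fk f1 (Xᶜ ∪ insert a Z1) (Finset.mem_union_left _ ka) (Finset.mem_union_left _ kb)
        (Finset.mem_union_right _ t1.2.2.1)
      omega
    by_cases v2 : w ∈ insert a Z2
    · have := h.kl ka kb (by omega) t2.1 t2.2.1 b5 w1 v2 w2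
        (fun u => hc (fk f4 _ ka kb u)) t2.2.2.2.1
      have := fk f3 (Xᶜ ∪ insert a Z2) (Finset.mem_union_left _ ka) (Finset.mem_union_left _ kb)
        (Finset.mem_union_right _ t2.2.2.1)
      omega
    have s1 := h.sup t1.1 t2.1 t1.2.1 t2.2.1
    have s2 := h.r_anc (X := insert a Z1 ∪ insert a Z2) (Finset.mem_union_left _ t1.1)
      (by simp [h.ab.symm, a2, b2]) (Finset.mem_union_left _ t1.2.2.1) l1 (z := w)
      (by rw [Finset.mem_union]; exact fun u => u.elim v1 v2) w3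
    have s3 := (p1.mem (X := insert a Z1 ∩ insert a Z2) ⟨by simp, by simp [h.ab.symm, a2],
      by simp [u1, b3], by simp [o2, b4], by omega⟩).2
    exact t1.2.2.2.1 (Finset.mem_inter.1 s3).1
  · rw [rr, rr, compl_ins h.ab a2, Finset.insert_comm a b, compl_ins h.ab.symm a1]
    exact ⟨a5, a6⟩
  · rw [rr, rr, compl_ins h.ab b2, Finset.insert_comm a b, compl_ins h.ab.symm b1]
    exact ⟨b5, b6⟩
  · intro X x1 x2 x3 x4 x5 x6
    rw [rr]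
    exact p1.2.1 _ (by simp [x2, x6]) (by simp [x1, x3, x4])
  · intro X x1 x2 x3 x4
    rw [rr]
    exact n1 _ (by simp [x2, x4]) (by simp [x1, x3])
  · intro X x1 x2 x3 x4
    rw [rr]
    exact n2 _ (by simp [x2, x4]) (by simp [x1, x3])
  · have A := h.dualAH hb
    have B : AH.BrT (rs (refl p) ((d, c) ::ₘ G.map Prod.swap)) ((d, c) ::ₘ G.map Prod.swap) b a := by
      have := (h.brT hO).compl (ψ' := rs (refl p) ((d, c) ::ₘ G.map Prod.swap)) rs_dual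
      rw [map_swap_cons] at this
      exact this (fun g hg B B' s1 s2 => (A.opp hg s1 s2).1)
        (fun e he => ⟨(A.off e he).1, (A.off e he).2.1⟩)
    obtain ⟨r, S, r1, r2, s1, s2⟩ := A.exact_any (map_swap_cons G c d ▸ hO.compl rs_dual)
      (map_swap_cons G c d ▸ (h.sel hO m1 m2 n1 n2 p1).compl rs_dual) B h.bc.symm h.ac.symm
    exact ⟨r, S, r1, r2, s1, by simpa using s2⟩

theorem orient (h : LLc p G a b c d)
    (hT : ∀ e ∈ G, ¬ NoT (rs p ((c, d) ::ₘ G)) a b e.1 e.2) :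
    ∃ G', SameG G' G ∧ LLc p G' a b c d ∧ Ori (rs p ((c, d) ::ₘ G')) ((c, d) ::ₘ G') a b := by
  classical
  have s := sameG_map (fun e => if ∃ X, TT (rs p ((c, d) ::ₘ G)) a b e.1 e.2 X then e else e.swap)
    (fun e => by split_ifs <;> simp) G
  refine ⟨_, s, h.congr s.deg s.en s.mem, fun e he => ?_⟩
  rw [(s.cons (c, d)).rs_eq]
  rcases Multiset.mem_cons.1 he with rfl | he
  · exact h.tt_c
  obtain ⟨e', h1, rfl⟩ := Multiset.mem_map.1 he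
  split_ifs with k
  · exact k
  · exact ge_iff_TT.1 (Ge.of_not
      (fun u => hT e' h1 ⟨Le.of_not (fun v => k (ge_iff_TT.1 v)) rfl, u⟩) rfl)

theorem case1 (h : LLc p G a b c d) (hc : p {a}ᶜ ≤ 0) : Out1 p ((c, d) ::ₘ G) a b := by
  obtain ⟨G', s, h', hO⟩ := h.orient fun e he u => LT.u2 h (sub1 he) u (h.nCb hc)
  exact (h'.root hO (h'.noP1_of hO hc)).congr (s.cons _)

theorem case2 (h : LLc p G a b c d) (ha : p {a}ᶜ = 1) (hb : p {b}ᶜ = 1)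
    (hT : ∀ e ∈ G, ¬ NoT (rs p ((c, d) ::ₘ G)) a b e.1 e.2) : Out1 p ((c, d) ::ₘ G) a b ∨
      Out1 (refl p) ((c, d) ::ₘ G) b a ∨ Out3 (refl p) ((c, d) ::ₘ G) b a := by
  obtain ⟨G', s, h', hO⟩ := h.orient hT
  by_cases hN : NoP1 (rs p ((c, d) ::ₘ G')) ((c, d) ::ₘ G') a b
  · exact Or.inl ((h'.root hO hN).congr (s.cons _))
  right
  unfold NoP1 at hN
  push Not at hN
  obtain ⟨e1, m1, e2, m2, n1, n2, p1⟩ := hN
  by_cases hW : p {a, b}ᶜ = 1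
  · left
    have := (h'.dual ha hb hW).root (map_swap_cons G' c d ▸ hO.compl rs_dual)
      (map_swap_cons G' c d ▸ (h'.sel hO m1 m2 n1 n2 p1).compl rs_dual)
    rw [← map_swap_cons] at this
    exact (this.congr (sameG_map Prod.swap (fun _ => Or.inr rfl) _)).congr (s.cons _)
  · exact Or.inr ((h'.out3 hO hb hW m1 m2 n1 n2 p1).congr (s.cons _))

end LLc

/-- **The local step of the light case.** -/
theorem llLocal : LLLocal V := by
  intro p G a b c d h0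
  have h := h0.toLLc
  by_cases ha : p {a}ᶜ ≤ 0
  · exact Or.inl (h.case1 ha)
  by_cases hb : p {b}ᶜ ≤ 0
  · exact Or.inr (Or.inl (h.swap.case1 hb))
  have ha' : p {a}ᶜ = 1 := by have := h.co_le (X := {a}) (by simp); omega
  have hb' : p {b}ᶜ = 1 := by have := h.co_le (X := {b}) (by simp); omega
  by_cases hT : ∀ e ∈ G, ¬ NoT (rs p ((c, d) ::ₘ G)) a b e.1 e.2
  · rcases h.case2 ha' hb' hT with k | k | k
    exacts [Or.inl k, Or.inr (Or.inr ⟨ha', hb', Or.inr (Or.inl k)⟩),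
      Or.inr (Or.inr ⟨ha', hb', Or.inr (Or.inr (Or.inr k))⟩)]
  · push Not at hT
    obtain ⟨e, he, u⟩ := hT
    have hT' : ∀ e' ∈ G, ¬ NoT (rs p ((c, d) ::ₘ G)) b a e'.1 e'.2 := by
      intro e' he' u'
      by_cases q : e = e'
      · subst q
        exact LT.u1s h (sub1 he) u u'
      · exact LT.u1d h (sub2 he he' q) u u'
    rcases h.swap.case2 hb' ha' hT' with k | k | k
    exacts [Or.inr (Or.inl k), Or.inr (Or.inr ⟨ha', hb', Or.inl k⟩),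
      Or.inr (Or.inr ⟨ha', hb', Or.inr (Or.inr (Or.inl k))⟩)]

end Pool.Agent.CSG

end

-- part MP_305420_co.LLMain
section

/-! The light case. -/

set_option linter.unusedSectionVars false

namespace Pool.Agent.CSG

open Finset

variable {V : Type*} [Fintype V] [DecidableEq V]
variable {p : Finset V → ℤ} {G H : Multiset (V × V)} {a b c d : V}

theorem LLc.oa (h : LLc p G a b c d) (X : Finset V) (ha : a ∈ X) (hb : b ∉ X) (h1 : X ≠ {a})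
    (h2 : X ≠ {b}ᶜ) : rs p ((c, d) ::ₘ G) X ≤ 0 := by
  obtain ⟨w, hw, hwa⟩ : ∃ w ∈ X, w ≠ a := by
    by_contra hc
    push Not at hc
    exact h1 (eq_singleton_iff_unique_mem.2 ⟨ha, hc⟩)
  obtain ⟨z, hz, hzb⟩ : ∃ z, z ∉ X ∧ z ≠ b := by
    by_contra hc
    push Not at hc
    refine h2 (ext fun v => ?_)
    rw [mem_compl, mem_singleton]
    exact ⟨fun hv e => hb (e ▸ hv), fun hv => by_contra fun hh => hv (hc v hh)⟩
  exact h.anchor ha hb hw hwa hz hzb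

theorem LLc.hb (h : LLc p G a b c d) : HB p ((c, d) ::ₘ G) a b := by
  refine ⟨h.cs, h.ab, h.lightH, h.pa, h.pb, h.phi_le, h.oa, h.swap.oa, ?_⟩
  have : ends ((c, d) ::ₘ G) + {a, b} = ends G + {a, b, c, d} := by
    rw [ends_cons]
    simp only [Multiset.insert_eq_cons, ← Multiset.singleton_add]
    abel
  rw [this]; exact h.uns

theorem LLc.free (h : LLc p G a b c d) : Free p ((c, d) ::ₘ G) a b (c, d) :=
  ⟨fun _ h1 h2 h3 => h.phi_ab_le h1 h2 h3, fun _ h1 h2 h3 => h.phi_nab_le h1 h2 h3⟩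

theorem HB.refl (h : HB p H a b) (ha : p {a}ᶜ = 1) (hb : p {b}ᶜ = 1) : HB (refl p) H a b := by
  have key : ∀ {a b : V}, HB p H a b → ∀ X, a ∈ X → b ∉ X → X ≠ {a} → X ≠ {b}ᶜ →
      rs (CSG.refl p) H X ≤ 0 := fun h X h1 h2 h3 h4 => by
    rw [rs_refl]
    exact h.ob _ (mem_compl.2 h2) (by simpa using h1) (fun e => h4 (by rw [← e, compl_compl]))
      (fun e => h3 (compl_injective e))
  exact ⟨h.cs.refl, h.ab, h.off, ha, hb, fun X => by rw [rs_refl]; exact h.top _, key h,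
    key h.swap, fun hs => h.uns (solvable_refl.1 hs)⟩

theorem Free.refl {e : V × V} (h : Free p H a b e) : Free (refl p) H a b e := by
  constructor <;> intro X h1 h2 h3 <;> rw [rs_refl]
  · exact h.2 _ (by simpa using h1) (by simpa using h2) (by simpa using h3)
  · exact h.1 _ (mem_compl.2 h1) (mem_compl.2 h2) (by simpa using h3)

theorem llThm : LLThm V := by
  intro p G a b c d h
  have h1 := h.toLLc.hb
  have h2 := h.toLLc.free
  have he : (c, d) ∈ (c, d) ::ₘ G := Multiset.mem_cons_self _ _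
  have key : Obst p (Multiset.card ((c, d) ::ₘ G) + 2) := by
    rcases llLocal p G a b c d h with k | k | ⟨ha, hb, k⟩
    · exact lg1 _ _ _ _ h1 ⟨_, he, h2⟩ k
    · exact lg1 _ _ _ _ h1.swap ⟨_, he, h2.swap⟩ k
    · have h3 := h1.refl ha hb
      rw [← obst_refl]
      rcases k with k | k | k | k
      · exact lg1 _ _ _ _ h3 ⟨_, he, h2.refl⟩ k
      · exact lg1 _ _ _ _ h3.swap ⟨_, he, h2.refl.swap⟩ k
      · exact lg2 _ _ _ _ h3 k
      · exact lg2 _ _ _ _ h3.swap k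
  refine key.mono (fun _ => le_rfl) ?_
  rw [Multiset.card_cons]; push_cast; omega

end Pool.Agent.CSG

end
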