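import Pool.Agent.MP_305420_co.Mg.LGOne
import Pool.Agent.MP_305420_co.Mg.LLBase

/-! Choice of the root and exact local structures from the absence of bad pairs. -/

set_option linter.unusedSectionVars false

namespace Pool.Agent.CSG

open Finset

variable {V : Type*} [Fintype V] [DecidableEq V]

/-- one-letter class: supermodularity on sets containing `a` and avoiding `b` -/
structure AH (q : Finset V → ℤ) (H : Multiset (V × V)) (a b : V) : Prop where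
  sup : ∀ X Y, a ∈ X → a ∈ Y → b ∉ X → b ∉ Y → q X + q Y ≤ q (X ∩ Y) + q (X ∪ Y)
  ab : a ≠ b
  off : ∀ e ∈ H, e.1 ≠ a ∧ e.2 ≠ a ∧ e.1 ≠ b ∧ e.2 ≠ b
  qa : rs q H {a} = 1
  le1 : ∀ X, a ∈ X → b ∉ X → rs q H X ≤ 1
  le0 : ∀ X, a ∈ X → b ∉ X → ∀ w ∈ X, w ≠ a → ∀ z, z ∉ X → z ≠ b → rs q H X ≤ 0

/-- tight set containing `x` and avoiding `y` -/
def TT (ψ : Finset V → ℤ) (a b x y : V) (X : Finset V) : Prop :=
  a ∈ X ∧ b ∉ X ∧ x ∈ X ∧ y ∉ X ∧ 0 ≤ ψ X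

/-- the edge is not cut by a tight set in the reverse direction -/
def NB (ψ : Finset V → ℤ) (a b : V) (e : V × V) : Prop := Le ψ [a, e.2] [b, e.1] (-1)

theorem ge_iff_TT {ψ : Finset V → ℤ} {a b x y : V} :
    Ge ψ [a, x] [b, y] 0 ↔ ∃ X, TT ψ a b x y X := by
  simp only [Ge, TT, List.forall_mem_cons, List.not_mem_nil, IsEmpty.forall_iff, implies_true,
    and_true]
  exact exists_congr fun X => by tauto

theorem NB.mem {ψ : Finset V → ℤ} {a b : V} {e : V × V} (h : NB ψ a b e) {X : Finset V}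
    (ha : a ∈ X) (hb : b ∉ X) (h0 : 0 ≤ ψ X) (h2 : e.2 ∈ X) : e.1 ∈ X := by
  by_contra h1
  have := h X (by simp [ha, h2]) (by simp [hb, h1])
  omega

theorem not_NB {ψ : Finset V → ℤ} {a b : V} {e : V × V} (h : ¬ NB ψ a b e) :
    ∃ Y, TT ψ a b e.2 e.1 Y := ge_iff_TT.1 (Ge.of_not h rfl)

theorem TT.cut {ψ : Finset V → ℤ} {a b : V} {e : V × V} {X : Finset V} (h : TT ψ a b e.1 e.2 X) :
    cut e X = 1 := cut_eq_one.2 (Or.inl ⟨h.2.2.1, h.2.2.2.1⟩)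

theorem TT.cut' {ψ : Finset V → ℤ} {a b : V} {e : V × V} {X : Finset V} (h : TT ψ a b e.2 e.1 X) :
    CSG.cut e X = 1 := cut_eq_one.2 (Or.inr ⟨h.2.2.2.1, h.2.2.1⟩)

/-- exact structure avoiding `r` for the edge set `E` -/
def ExR (q : Finset V → ℤ) (H : Multiset (V × V)) (a b r : V) (E : Multiset (V × V)) : Prop :=
  ∃ S, SubP ({a, b, r}ᶜ) S ∧
    (Multiset.card E : ℤ) ≤ val (zt (fun X => zeta q a X - dG H X) E) S

theorem pair_comm' (e e' : V × V) : ({e, e'} : Multiset (V × V)) = {e', e} :=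
  Multiset.pair_comm _ _

namespace AH

variable {q : Finset V → ℤ} {H : Multiset (V × V)} {a b : V}

theorem bonus (h : AH q H a b) {E : Multiset (V × V)} (hE : E ≤ H) {X Y : Finset V} (h1 : a ∈ X)
    (h2 : a ∈ Y) (h3 : b ∉ X) (h4 : b ∉ Y) :
    rs q H X + dG E X + (rs q H Y + dG E Y) ≤
      rs q H (X ∩ Y) + dG E (X ∩ Y) + (rs q H (X ∪ Y) + dG E (X ∪ Y)) := by
  obtain ⟨R, rfl⟩ := Multiset.le_iff_exists_add.1 hE
  have s1 := h.sup X Y h1 h2 h3 h4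
  have s2 := dG_submod R X Y
  simp only [rs, dG_add]
  omega

theorem sup0 (h : AH q H a b) {X Y : Finset V} (h1 : a ∈ X) (h2 : a ∈ Y) (h3 : b ∉ X)
    (h4 : b ∉ Y) : rs q H X + rs q H Y ≤ rs q H (X ∩ Y) + rs q H (X ∪ Y) := by
  simpa using h.bonus (Multiset.zero_le H) h1 h2 h3 h4

theorem sup2 (h : AH q H a b) {e : V × V} (he : e ∈ H) {X Y : Finset V} (h1 : a ∈ X) (h2 : a ∈ Y)
    (h3 : b ∉ X) (h4 : b ∉ Y) (hop : (e.1 ∈ X ∧ e.2 ∉ X ∧ e.1 ∉ Y ∧ e.2 ∈ Y) ∨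
      (e.1 ∉ X ∧ e.2 ∈ X ∧ e.1 ∈ Y ∧ e.2 ∉ Y)) :
    rs q H X + rs q H Y + 2 ≤ rs q H (X ∩ Y) + rs q H (X ∪ Y) := by
  have := h.bonus (Multiset.singleton_le.2 he) h1 h2 h3 h4
  simp only [dG_singleton] at this
  rcases hop with ⟨u1, u2, u3, u4⟩ | ⟨u1, u2, u3, u4⟩ <;> simp [CSG.cut, u1, u2, u3, u4] at this <;>
    omega

theorem inter_TT (h : AH q H a b) {x y : V} (hx : x ≠ a) (hy : y ≠ b) {X Y : Finset V}
    (hX : TT (rs q H) a b x y X) (hY : TT (rs q H) a b x y Y) : TT (rs q H) a b x y (X ∩ Y) := by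
  obtain ⟨a1, a2, a3, a4, a5⟩ := hX
  obtain ⟨b1, b2, b3, b4, b5⟩ := hY
  have s := h.sup0 a1 b1 a2 b2
  have := h.le0 (X ∪ Y) (by simp [a1]) (by simp [a2, b2]) x (by simp [a3]) hx y (by simp [a4, b4]) hy
  exact ⟨by simp [a1, b1], by simp [a2], by simp [a3, b3], by simp [a4], by omega⟩

theorem exists_min (h : AH q H a b) {x y : V} (hx : x ≠ a) (hy : y ≠ b)
    (hex : ∃ X, TT (rs q H) a b x y X) :
    ∃ Z, TT (rs q H) a b x y Z ∧ ∀ X, TT (rs q H) a b x y X → Z ⊆ X := by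
  classical
  obtain ⟨Z, hZ, hmin⟩ := Finset.exists_min_image
    (univ.filter (fun X : Finset V => TT (rs q H) a b x y X)) Finset.card
    (by obtain ⟨X, hX⟩ := hex; exact ⟨X, by simpa using hX⟩)
  have hZ' := (Finset.mem_filter.1 hZ).2
  refine ⟨Z, hZ', fun X hX => ?_⟩
  have h1 := hmin (Z ∩ X) (by simpa using h.inter_TT hx hy hZ' hX)
  have h2 := Finset.eq_of_subset_of_card_le (Finset.inter_subset_left (s₁ := Z) (s₂ := X)) h1
  exact Finset.inter_eq_left.1 h2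

/-- opposite tight sets are complementary -/
theorem opp (h : AH q H a b) {e : V × V} (he : e ∈ H) {X Y : Finset V}
    (hX : TT (rs q H) a b e.1 e.2 X) (hY : TT (rs q H) a b e.2 e.1 Y) :
    (∀ w ∈ X, w ∈ Y → w = a) ∧ ∀ z, z ≠ b → z ∈ X ∨ z ∈ Y := by
  obtain ⟨a1, a2, a3, a4, a5⟩ := hX
  obtain ⟨b1, b2, b3, b4, b5⟩ := hY
  obtain ⟨o1, o2, o3, o4⟩ := h.off e he
  have s := h.sup2 he a1 b1 a2 b2 (Or.inl ⟨a3, a4, b4, b3⟩)
  have t1 := h.le1 (X ∩ Y) (by simp [a1, b1]) (by simp [a2])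
  have t2 := h.le1 (X ∪ Y) (by simp [a1]) (by simp [a2, b2])
  constructor
  · intro w w1 w2
    by_contra hw
    have := h.le0 (X ∩ Y) (by simp [a1, b1]) (by simp [a2]) w (by simp [w1, w2]) hw e.2
      (by simp [a4]) o4
    omega
  · intro z hz
    by_contra hc
    have := h.le0 (X ∪ Y) (by simp [a1]) (by simp [a2, b2]) e.1 (by simp [a3]) o1 z
      (by simpa using hc) hz
    omega

theorem part (h : AH q H a b) {r : V} {E : Multiset (V × V)} (hE : E ≤ H) {Z : Finset V}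
    (h1 : a ∈ Z) (h2 : b ∉ Z) (h3 : r ∉ Z) : Z.erase a ⊆ ({a, b, r}ᶜ : Finset V) ∧
      1 + zt (fun X => zeta q a X - dG H X) E (Z.erase a) = rs q H Z + dG E Z := by
  constructor
  · intro v hv
    obtain ⟨v1, v2⟩ := Finset.mem_erase.1 hv
    simp only [Finset.mem_compl, Finset.mem_insert, Finset.mem_singleton, not_or]
    exact ⟨v1, fun e => h2 (e ▸ v2), fun e => h3 (e ▸ v2)⟩
  · have k : ∀ K ≤ H, dG K (Z.erase a) = dG K Z := fun K hK => dG_congr fun e he => by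
      obtain ⟨o1, o2, _⟩ := h.off e (Multiset.mem_of_le hK he)
      simp [o1, o2]
    simp only [zt, zeta, rs, Finset.insert_erase h1, k H le_rfl, k E hE]
    ring

theorem one (h : AH q H a b) {r : V} {E : Multiset (V × V)} (hE : E ≤ H) {Z : Finset V}
    (h1 : a ∈ Z) (h2 : b ∉ Z) (h3 : r ∉ Z) {w : V} (hw : w ∈ Z) (hwa : w ≠ a)
    (hv : (Multiset.card E : ℤ) ≤ rs q H Z + dG E Z) : ExR q H a b r E := by
  obtain ⟨p1, p2⟩ := h.part hE h1 h2 h3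
  exact ⟨{Z.erase a}, SubP.single p1 ⟨w, Finset.mem_erase.2 ⟨hwa, hw⟩⟩, by rwa [val_single, p2]⟩

theorem two (h : AH q H a b) {r : V} {E : Multiset (V × V)} (hE : E ≤ H) {X Y : Finset V}
    (h1 : a ∈ X) (h2 : b ∉ X) (h3 : r ∉ X) {w : V} (hw : w ∈ X) (hwa : w ≠ a)
    (k1 : a ∈ Y) (k2 : b ∉ Y) (k3 : r ∉ Y) {z : V} (hz : z ∈ Y) (hza : z ≠ a)
    (hd : ∀ v ∈ X, v ∈ Y → v = a)
    (hv : (Multiset.card E : ℤ) ≤ rs q H X + dG E X + (rs q H Y + dG E Y)) : ExR q H a b r E := by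
  obtain ⟨p1, p2⟩ := h.part hE h1 h2 h3
  obtain ⟨q1, q2⟩ := h.part hE k1 k2 k3
  obtain ⟨s1, s2, _⟩ := SubP.pair p1 q1 ⟨w, Finset.mem_erase.2 ⟨hwa, hw⟩⟩
    ⟨z, Finset.mem_erase.2 ⟨hza, hz⟩⟩ (by
      rw [Finset.disjoint_left]
      intro v v1 v2
      exact (Finset.mem_erase.1 v1).1
        (hd v (Finset.mem_of_mem_erase v1) (Finset.mem_of_mem_erase v2)))
    (zt (fun X => zeta q a X - dG H X) E)
  exact ⟨_, s1, by omega⟩

theorem cut_pt (h : AH q H a b) {e : V × V} (he : e ∈ H) {Z : Finset V} (hc : cut e Z = 1) :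
    ∃ w ∈ Z, w ≠ a := by
  obtain ⟨o1, o2, _⟩ := h.off e he
  rcases cut_eq_one.1 hc with ⟨u, _⟩ | ⟨_, u⟩
  exacts [⟨_, u, o1⟩, ⟨_, u, o2⟩]

theorem both (h : AH q H a b) {r : V} {e e' : V × V} (hE : {e, e'} ≤ H) {Z : Finset V}
    (h1 : a ∈ Z) (h2 : b ∉ Z) (h3 : r ∉ Z) (h0 : 0 ≤ rs q H Z) (c1 : cut e Z = 1)
    (c2 : cut e' Z = 1) : ExR q H a b r {e, e'} := by
  obtain ⟨w, w1, w2⟩ := h.cut_pt (Multiset.mem_of_le hE (by simp)) c1
  refine h.one hE h1 h2 h3 w1 w2 ?_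
  rw [dG_pair, c1, c2]
  simp only [Multiset.insert_eq_cons, Multiset.card_cons, Multiset.card_singleton]
  push_cast; omega

theorem card_pair (e e' : V × V) : (Multiset.card ({e, e'} : Multiset (V × V)) : ℤ) = 2 := by simp

theorem bridge_step (h : AH q H a b) {r : V} {e e' : V × V} (hE : {e, e'} ≤ H)
    {B B' Z : Finset V} (b1 : a ∈ B) (b2 : b ∉ B) (b3 : r ∉ B) (b4 : 0 ≤ rs q H B)
    (b5 : cut e B = 1) (c1 : a ∈ B') (c2 : b ∉ B') (c4 : 0 ≤ rs q H B') (c5 : cut e B' = 1)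
    (hd : ∀ w ∈ B, w ∈ B' → w = a) (hu : ∀ z, z ≠ b → z ∈ B ∨ z ∈ B')
    (z1 : a ∈ Z) (z2 : b ∉ Z) (z3 : r ∉ Z) (z4 : 0 ≤ rs q H Z) (z5 : cut e' Z = 1) :
    ExR q H a b r {e, e'} ∨ Z ⊆ B := by
  have me : e ∈ H := Multiset.mem_of_le hE (by simp)
  have s1 := h.bonus hE z1 b1 z2 b2
  have s2 := h.bonus hE (X := Z ∪ B) (Y := B') (by simp [z1]) c1 (by simp [z2, b2]) c2
  have e1 : (Z ∪ B) ∩ B' = Z ∩ B' := by
    ext v
    simp only [Finset.mem_inter, Finset.mem_union]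
    constructor
    · rintro ⟨u | u, u'⟩
      exacts [⟨u, u'⟩, ⟨hd v u u' ▸ z1, u'⟩]
    · rintro ⟨u, u'⟩
      exact ⟨Or.inl u, u'⟩
  have t1 := h.le1 (Z ∪ B ∪ B') (by simp [z1]) (by simp [z2, b2, c2])
  have t2 : dG {e, e'} (Z ∪ B ∪ B') = 0 := dG_zero_of fun g hg => by
    obtain ⟨_, _, o3, o4⟩ := h.off g (Multiset.mem_of_le hE hg)
    have := hu _ o3
    have := hu _ o4
    simp only [Finset.mem_union]
    tauto
  rw [e1, t2] at s2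
  have n1 := cut_nonneg e' B
  have n2 := cut_nonneg e' B'
  have n3 := cut_nonneg e Z
  have dB := dG_pair e e' B
  have dB' := dG_pair e e' B'
  have dZ := dG_pair e e' Z
  have small : ∀ X : Finset V, a ∈ X → (∀ v ∈ X, v = a) → rs q H X + dG {e, e'} X = 1 := by
    intro X x1 x2
    have : X = {a} := Finset.eq_singleton_iff_unique_mem.2 ⟨x1, x2⟩
    rw [this, h.qa, dG_zero_of]
    · rfl
    · intro g hg
      obtain ⟨o1, o2, _⟩ := h.off g (Multiset.mem_of_le hE hg)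
      simp [o1, o2]
  by_cases k : 2 ≤ rs q H (Z ∩ B) + dG {e, e'} (Z ∩ B)
  · left
    by_cases hw : ∃ w ∈ Z ∩ B, w ≠ a
    · obtain ⟨w, w1, w2⟩ := hw
      exact h.one hE (by simp [z1, b1]) (by simp [z2]) (by simp [z3]) w1 w2
        (by rw [card_pair]; exact k)
    · push Not at hw
      have := small (Z ∩ B) (by simp [z1, b1]) hw
      omega
  · by_cases hw : ∃ w ∈ Z ∩ B', w ≠ a
    · left
      obtain ⟨w, w1, w2⟩ := hw
      obtain ⟨u, u1, u2⟩ := h.cut_pt me b5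
      exact h.two hE b1 b2 b3 u1 u2 (by simp [z1, c1]) (by simp [z2]) (by simp [z3]) w1 w2
        (fun v v1 v2 => hd v v1 (Finset.mem_inter.1 v2).2) (by rw [card_pair]; omega)
    · right
      push Not at hw
      intro v hv
      rcases hu v (fun e => z2 (e ▸ hv)) with u | u
      · exact u
      · exact hw v (Finset.mem_inter.2 ⟨hv, u⟩) ▸ b1

theorem pair_mix (h : AH q H a b) {r : V} (hr : r ≠ b) {e e' : V × V} (hE : {e, e'} ≤ H)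
    {Z Z' : Finset V} (hZ : TT (rs q H) a b e.1 e.2 Z) (z3 : r ∉ Z)
    (hZ' : TT (rs q H) a b e'.1 e'.2 Z') (z3' : r ∉ Z')
    (hN : ¬ Pt1 (rs q H) a b e.1 e.2 e'.1 e'.2)
    (i1 : Le (rs q H) [a, e'.1] [b, e'.2, e.1] (-1))
    (i2 : Le (rs q H) [a, e'.1] [b, e'.2, e.2] (-1)) : ExR q H a b r {e, e'} := by
  have me : e ∈ H := Multiset.mem_of_le hE (by simp)
  have me' : e' ∈ H := Multiset.mem_of_le hE (by simp)
  obtain ⟨o1, o2, o3, o4⟩ := h.off e me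
  obtain ⟨o1', o2', o3', o4'⟩ := h.off e' me'
  obtain ⟨M, m1, m2, m3⟩ : Ge (rs q H) [a, e.2, e'.1] [b, e.1, e'.2] (-1) :=
    Ge.of_not (fun hc => hN ⟨i1, i2, hc⟩) rfl
  simp only [List.forall_mem_cons] at m1 m2
  obtain ⟨ma, my, mx', -⟩ := m1
  obtain ⟨mb, mx, my', -⟩ := m2
  obtain ⟨a1, a2, a3, a4, a5⟩ := hZ
  obtain ⟨b1, b2, b3, b4, b5⟩ := hZ'
  have y1 : e.2 ∈ Z' := by
    by_contra hc
    have := i2 Z' (by simp [b1, b3]) (by simp [b2, b4, hc])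
    omega
  have s1 := h.sup0 ma b1 mb b2
  have s2 := h.le0 (M ∪ Z') (by simp [ma]) (by simp [mb, b2]) e'.1 (by simp [b3]) o1' e'.2
    (by simp [my', b4]) o4'
  rcases cut_zero_or_one e' Z with c0 | c0
  swap
  · exact h.both hE a1 a2 z3 a5 (cut_eq_one.2 (Or.inl ⟨a3, a4⟩)) c0
  by_cases hw : ∃ w ∈ Z, w ∈ M ∩ Z' ∧ w ≠ a
  · exfalso
    obtain ⟨w, w1, w2, w3⟩ := hw
    have s3 := h.sup2 me (X := Z) (Y := M ∩ Z') a1 (by simp [ma, b1]) a2 (by simp [mb])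
      (Or.inl ⟨a3, a4, by simp [mx], by simp [my, y1]⟩)
    have s4 := h.le0 (Z ∩ (M ∩ Z')) (by simp [a1, ma, b1]) (by simp [a2]) w
      (Finset.mem_inter.2 ⟨w1, w2⟩) w3 r (by simp [z3]) hr
    have s5 := h.le0 (Z ∪ (M ∩ Z')) (by simp [a1]) (by simp [a2, mb]) w
      (Finset.mem_union_left _ w1) w3 r (by simp [z3, z3']) hr
    omega
  · push Not at hw
    refine h.two hE (Y := M ∩ Z') a1 a2 z3 a3 o1 (by simp [ma, b1]) (by simp [mb]) (by simp [z3'])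
      (z := e.2) (by simp [my, y1]) o2 hw ?_
    rw [card_pair, dG_pair, dG_pair, c0, cut_eq_one.2 (Or.inl ⟨a3, a4⟩),
      (cut_eq_one (e := e) (X := M ∩ Z')).2 (Or.inr ⟨by simp [mx], by simp [my, y1]⟩),
      (cut_eq_one (e := e') (X := M ∩ Z')).2 (Or.inl ⟨by simp [mx', b3], by simp [my']⟩)]
    omega

theorem pair_nb (h : AH q H a b) {r : V} (hr : r ≠ b) {e e' : V × V} (hE : {e, e'} ≤ H)
    {Z Z' : Finset V} (hZ : TT (rs q H) a b e.1 e.2 Z) (z3 : r ∉ Z)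
    (hZ' : TT (rs q H) a b e'.1 e'.2 Z') (z3' : r ∉ Z')
    (hN : ¬ Pt1 (rs q H) a b e.1 e.2 e'.1 e'.2) (hN' : ¬ Pt1 (rs q H) a b e'.1 e'.2 e.1 e.2) :
    ExR q H a b r {e, e'} := by
  have me : e ∈ H := Multiset.mem_of_le hE (by simp)
  have me' : e' ∈ H := Multiset.mem_of_le hE (by simp)
  have key : ∀ {e e' : V × V} {Z' : Finset V}, e' ∈ H → TT (rs q H) a b e'.1 e'.2 Z' → r ∉ Z' →
      ¬ (Le (rs q H) [a, e'.1] [b, e'.2, e.1] (-1) ∧ Le (rs q H) [a, e'.1] [b, e'.2, e.2] (-1)) →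
      ∃ D, TT (rs q H) a b e'.1 e'.2 D ∧ r ∉ D ∧ (cut e D = 1 ∨ (e.1 ∉ D ∧ e.2 ∉ D)) := by
    intro e e' Z' me' hZ' z3' hn
    obtain ⟨o1, _, _, o4⟩ := h.off e' me'
    obtain ⟨X, hX, hm⟩ : ∃ X, TT (rs q H) a b e'.1 e'.2 X ∧ (e.1 ∉ X ∨ e.2 ∉ X) := by
      rcases not_and_or.1 hn with hn | hn
      all_goals
        obtain ⟨X, x1, x2, x3⟩ := Ge.of_not (k' := 0) hn rfl
        simp only [List.forall_mem_cons] at x1 x2
        exact ⟨X, ⟨x1.1, x2.1, x1.2.1, x2.2.1, x3⟩, by simp [x2.2.2.1]⟩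
    refine ⟨X ∩ Z', h.inter_TT o1 o4 hX hZ', by simp [z3'], ?_⟩
    rw [cut_eq_one]
    simp only [Finset.mem_inter]
    tauto
  by_cases hA : Le (rs q H) [a, e'.1] [b, e'.2, e.1] (-1) ∧ Le (rs q H) [a, e'.1] [b, e'.2, e.2] (-1)
  · exact h.pair_mix hr hE hZ z3 hZ' z3' hN hA.1 hA.2
  by_cases hB : Le (rs q H) [a, e.1] [b, e.2, e'.1] (-1) ∧ Le (rs q H) [a, e.1] [b, e.2, e'.2] (-1)
  · rw [pair_comm']
    exact h.pair_mix hr (pair_comm' e e' ▸ hE) hZ' z3' hZ z3 hN' hB.1 hB.2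
  obtain ⟨D', hD', r', k'⟩ := key me' hZ' z3' hA
  obtain ⟨D, hD, r0, k⟩ := key me hZ z3 hB
  rcases k' with k' | k'
  · exact h.both hE hD'.1 hD'.2.1 r' hD'.2.2.2.2 k' hD'.cut
  rcases k with k | k
  · exact h.both hE hD.1 hD.2.1 r0 hD.2.2.2.2 hD.cut k
  have c1 := hD.cut
  have c2 := hD'.cut
  obtain ⟨a1, a2, a3, a4, a5⟩ := hD
  obtain ⟨b1, b2, b3, b4, b5⟩ := hD'
  by_cases hw : ∃ w ∈ D, w ∈ D' ∧ w ≠ a
  · obtain ⟨w, w1, w2, w3⟩ := hw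
    have s1 := h.sup0 a1 b1 a2 b2
    have s2 := h.le0 (D ∩ D') (by simp [a1, b1]) (by simp [a2]) w (by simp [w1, w2]) w3 r
      (by simp [r0]) hr
    exact h.both hE (Z := D ∪ D') (by simp [a1]) (by simp [a2, b2]) (by simp [r0, r']) (by omega)
      (cut_eq_one.2 (Or.inl ⟨by simp [a3], by simp [a4, k'.2]⟩))
      (cut_eq_one.2 (Or.inl ⟨by simp [b3], by simp [b4, k.2]⟩))
  · push Not at hw
    refine h.two hE a1 a2 r0 a3 (h.off e me).1 b1 b2 r' b3 (h.off e' me').1 hw ?_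
    have := cut_nonneg e' D
    have := cut_nonneg e D'
    rw [card_pair, dG_pair, dG_pair]
    omega

/-- exactness for a good root -/
theorem exact_root (h : AH q H a b) {r : V} (hra : r ≠ a) (hr : r ≠ b)
    (hO : ∀ e ∈ H, ∃ X, TT (rs q H) a b e.1 e.2 X)
    (hN : ∀ e ∈ H, ∀ e' ∈ H, NB (rs q H) a b e → NB (rs q H) a b e' →
      ¬ Pt1 (rs q H) a b e.1 e.2 e'.1 e'.2)
    (hR : ∀ e ∈ H, NB (rs q H) a b e → ∃ Z, TT (rs q H) a b e.1 e.2 Z ∧ r ∉ Z)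
    (hRB : ∀ g ∈ H, ∀ B B', (TT (rs q H) a b g.1 g.2 B ∧ TT (rs q H) a b g.2 g.1 B') ∨
      (TT (rs q H) a b g.2 g.1 B ∧ TT (rs q H) a b g.1 g.2 B') → r ∉ B →
      ∀ e ∈ H, NB (rs q H) a b e → e.1 ∈ B → e.2 ∈ B → False) :
    ∃ S, SubP ({a, b, r}ᶜ) S ∧ (Multiset.card H : ℤ) ≤ val (zeta q a) S := by
  have side : ∀ g ∈ H, ¬ NB (rs q H) a b g → ∃ B B',
      ((TT (rs q H) a b g.1 g.2 B ∧ TT (rs q H) a b g.2 g.1 B') ∨
        (TT (rs q H) a b g.2 g.1 B ∧ TT (rs q H) a b g.1 g.2 B')) ∧ r ∉ B ∧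
      a ∈ B ∧ b ∉ B ∧ 0 ≤ rs q H B ∧ cut g B = 1 ∧ a ∈ B' ∧ b ∉ B' ∧ 0 ≤ rs q H B' ∧
      cut g B' = 1 ∧ (∀ w ∈ B, w ∈ B' → w = a) ∧ ∀ z, z ≠ b → z ∈ B ∨ z ∈ B' := by
    intro g hg hn
    obtain ⟨X, hX⟩ := hO g hg
    obtain ⟨Y, hY⟩ := not_NB hn
    obtain ⟨o1, o2⟩ := h.opp hg hX hY
    by_cases hrX : r ∈ X
    · exact ⟨Y, X, Or.inr ⟨hY, hX⟩, fun hrY => hra (o1 r hrX hrY), hY.1, hY.2.1, hY.2.2.2.2,
        hY.cut', hX.1, hX.2.1, hX.2.2.2.2, hX.cut, fun w u v => o1 w v u,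
        fun z hz => (o2 z hz).symm⟩
    · exact ⟨X, Y, Or.inl ⟨hX, hY⟩, hrX, hX.1, hX.2.1, hX.2.2.2.2, hX.cut, hY.1, hY.2.1,
        hY.2.2.2.2, hY.cut', o1, o2⟩
  have brp : ∀ e e' : V × V, {e, e'} ≤ H → ¬ NB (rs q H) a b e → ExR q H a b r {e, e'} := by
    intro e e' hE hn
    have me : e ∈ H := Multiset.mem_of_le hE (by simp)
    have me' : e' ∈ H := Multiset.mem_of_le hE (by simp)
    obtain ⟨B, B', t0, t1, t2, t3, t4, t5, t6, t7, t8, t9, t10, t11⟩ := side e me hn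
    by_cases hn' : NB (rs q H) a b e'
    · obtain ⟨Z, hZ, z3⟩ := hR e' me' hn'
      rcases h.bridge_step hE t2 t3 t1 t4 t5 t6 t7 t8 t9 t10 t11 hZ.1 hZ.2.1 z3 hZ.2.2.2.2
        hZ.cut with k | k
      · exact k
      · by_cases hy : e'.2 ∈ B
        · exact (hRB e me B B' t0 t1 e' me' hn' (k hZ.2.2.1) hy).elim
        · exact h.both hE t2 t3 t1 t4 t5 (cut_eq_one.2 (Or.inl ⟨k hZ.2.2.1, hy⟩))
    · obtain ⟨D, D', -, u1, u2, u3, u4, u5, u6, u7, u8, u9, u10, u11⟩ := side e' me' hn'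
      rcases h.bridge_step hE t2 t3 t1 t4 t5 t6 t7 t8 t9 t10 t11 u2 u3 u1 u4 u5 with k | k
      · exact k
      rcases h.bridge_step (pair_comm' e e' ▸ hE) u2 u3 u1 u4 u5 u6 u7 u8 u9 u10 u11
        t2 t3 t1 t4 t5 with k' | k'
      · rwa [pair_comm']
      · exact h.both hE t2 t3 t1 t4 t5 (Finset.Subset.antisymm k k' ▸ u5)
  have main := lemmaA_rooted (W := {a, b, r}ᶜ) (φ := fun X => zeta q a X - dG H X) ?_ ?_ 0 H ?_ ?_
  · obtain ⟨S, s1, s2⟩ := main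
    refine ⟨S, s1, ?_⟩
    have : val (zt (fun X => zeta q a X - dG H X) (0 + H)) S = val (zeta q a) S := by
      unfold val zt
      simp
    rw [this] at s2
    simpa using s2
  · have := h.qa
    have k : dG H {a} = 0 := dG_zero_of fun e he => by
      obtain ⟨o1, o2, _⟩ := h.off e he
      simp [o1, o2]
    simp only [rs, k] at this
    simp only [zeta, dG_empty, insert_empty_eq]
    omega
  · intro X hX ⟨w, hw⟩
    have n : ∀ v ∈ X, v ≠ a ∧ v ≠ b ∧ v ≠ r := fun v hv => by simpa [not_or] using hX hv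
    have k := (h.part (r := r) (Multiset.zero_le H) (Z := insert a X) (by simp)
      (by simp only [Finset.mem_insert, not_or]; exact ⟨h.ab.symm, fun u => (n b u).2.1 rfl⟩)
      (by simp only [Finset.mem_insert, not_or]; exact ⟨hra, fun u => (n r u).2.2 rfl⟩)).2
    have l := h.le0 (insert a X) (by simp)
      (by simp only [Finset.mem_insert, not_or]; exact ⟨h.ab.symm, fun u => (n b u).2.1 rfl⟩)
      w (by simp [hw]) (n w hw).1 r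
      (by simp only [Finset.mem_insert, not_or]; exact ⟨hra, fun u => (n r u).2.2 rfl⟩) hr
    rw [Finset.erase_insert (fun u => (n a u).1 rfl)] at k
    simp only [zt, dG_zero] at k
    omega
  · intro X hX Y hY
    have nb : ∀ Z ⊆ ({a, b, r}ᶜ : Finset V), b ∉ insert a Z := fun Z hZ => by
      simp only [Finset.mem_insert, not_or]
      exact ⟨h.ab.symm, fun u => by simpa using hZ u⟩
    have := h.sup (insert a X) (insert a Y) (by simp) (by simp) (nb X hX) (nb Y hY)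
    rw [← Finset.insert_inter_distrib, ← Finset.insert_union_distrib] at this
    simp only [zt, zeta, zero_add]
    omega
  · intro E hE hc
    suffices k : ExR q H a b r E by
      obtain ⟨S, s1, s2⟩ := k
      exact ⟨S, s1, by simpa using s2⟩
    by_cases c0 : Multiset.card E = 0
    · rw [Multiset.card_eq_zero.1 c0]
      exact ⟨∅, SubP.empty _, by simp [val]⟩
    by_cases c1 : Multiset.card E = 1
    · obtain ⟨e, rfl⟩ := Multiset.card_eq_one.1 c1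
      have me : e ∈ H := Multiset.singleton_le.1 hE
      obtain ⟨Z, z1, z2, z3, z4, z5⟩ : ∃ Z, a ∈ Z ∧ b ∉ Z ∧ r ∉ Z ∧ 0 ≤ rs q H Z ∧ cut e Z = 1 := by
        by_cases hn : NB (rs q H) a b e
        · obtain ⟨Z, hZ, z3⟩ := hR e me hn
          exact ⟨Z, hZ.1, hZ.2.1, z3, hZ.2.2.2.2, hZ.cut⟩
        · obtain ⟨B, B', -, t1, t2, t3, t4, t5, -⟩ := side e me hn
          exact ⟨B, t2, t3, t1, t4, t5⟩
      obtain ⟨w, w1, w2⟩ := h.cut_pt me z5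
      exact h.one hE z1 z2 z3 w1 w2 (by simp [z5, z4])
    obtain ⟨e, e', rfl⟩ := Multiset.card_eq_two.1 (show Multiset.card E = 2 by omega)
    have me : e ∈ H := Multiset.mem_of_le hE (by simp)
    have me' : e' ∈ H := Multiset.mem_of_le hE (by simp)
    by_cases n1 : NB (rs q H) a b e
    swap
    · exact brp e e' hE n1
    by_cases n2 : NB (rs q H) a b e'
    swap
    · rw [pair_comm']
      exact brp e' e (pair_comm' e e' ▸ hE) n2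
    obtain ⟨Z, hZ, z3⟩ := hR e me n1
    obtain ⟨Z', hZ', z3'⟩ := hR e' me' n2
    exact h.pair_nb hr hE hZ z3 hZ' z3' (hN e me e' me' n1 n2) (hN e' me' e me n2 n1)

/-- choice of the root -/
theorem choose_root (h : AH q H a b) (hO : ∀ e ∈ H, ∃ X, TT (rs q H) a b e.1 e.2 X)
    (hN : ∀ e ∈ H, ∀ e' ∈ H, NB (rs q H) a b e → NB (rs q H) a b e' →
      ¬ Pt1 (rs q H) a b e.1 e.2 e'.1 e'.2)
    {e1 : V × V} (m1 : e1 ∈ H) (n1 : NB (rs q H) a b e1) :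
    ∃ e0 ∈ H, NB (rs q H) a b e0 ∧ (∀ X, TT (rs q H) a b e0.1 e0.2 X → e1.1 ∈ X) ∧
      ∀ e ∈ H, NB (rs q H) a b e → ∃ Z, TT (rs q H) a b e.1 e.2 Z ∧ e0.2 ∉ Z := by
  classical
  have hmin : ∀ e ∈ H, ∃ Z, TT (rs q H) a b e.1 e.2 Z ∧ ∀ X, TT (rs q H) a b e.1 e.2 X → Z ⊆ X :=
    fun e he => h.exists_min (h.off e he).1 (h.off e he).2.2.2 (hO e he)
  obtain ⟨Z0, hZ0, hmax⟩ := Finset.exists_max_image
    (univ.filter (fun Z : Finset V => ∃ e ∈ H, NB (rs q H) a b e ∧ e1.1 ∈ Z ∧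
      TT (rs q H) a b e.1 e.2 Z ∧ ∀ X, TT (rs q H) a b e.1 e.2 X → Z ⊆ X)) Finset.card
    (by
      obtain ⟨Z, z1, z2⟩ := hmin e1 m1
      exact ⟨Z, Finset.mem_filter.2 ⟨Finset.mem_univ _, e1, m1, n1, z1.2.2.1, z1, z2⟩⟩)
  obtain ⟨e0, m0, n0, k1, k2, k3⟩ := (Finset.mem_filter.1 hZ0).2
  refine ⟨e0, m0, n0, fun X hX => k3 X hX k1, fun e he hn => ?_⟩
  obtain ⟨Z, hZ, hZm⟩ := hmin e he
  refine ⟨Z, hZ, fun y0 => ?_⟩
  have hZ' := hZ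
  obtain ⟨a1, a2, a3, a4, a5⟩ := hZ
  obtain ⟨b1, b2, b3, b4, b5⟩ := k2
  have x0 : e0.1 ∈ Z := n0.mem a1 a2 a5 y0
  by_cases hu : ∃ z, z ≠ b ∧ z ∉ Z ∪ Z0
  · obtain ⟨z, z1, z2⟩ := hu
    have s1 := h.sup0 a1 b1 a2 b2
    have s2 := h.le0 (Z ∪ Z0) (by simp [a1]) (by simp [a2, b2]) e0.1 (by simp [x0])
      (h.off e0 m0).1 z z2 z1
    have s3 : Z0 ⊆ Z := (k3 (Z ∩ Z0)
      ⟨by simp [a1, b1], by simp [a2], by simp [x0, b3], by simp [b4], by omega⟩).trans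
      Finset.inter_subset_left
    have s4 := hmax Z (Finset.mem_filter.2 ⟨Finset.mem_univ _, e, he, hn, s3 k1, hZ', hZm⟩)
    exact b4 (Finset.eq_of_subset_of_card_le s3 s4 ▸ y0)
  · push Not at hu
    have y : e.2 ∈ Z0 := by simpa [a4] using hu e.2 (h.off e he).2.2.2
    have x : e.1 ∈ Z0 := hn.mem b1 b2 b5 y
    have inc : ∀ X, a ∈ X → b ∉ X → e.1 ∈ X → e.2 ∉ X → ∀ v ∈ Z, v ∉ X → rs q H X ≤ -1 := by
      intro X x1 x2 x3 x4 v v1 v2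
      by_contra hc
      exact v2 (hZm X ⟨x1, x2, x3, x4, by omega⟩ v1)
    refine hN e0 m0 e he n0 hn ⟨fun X x1 x2 => ?_, fun X x1 x2 => ?_, fun X x1 x2 => ?_⟩
    all_goals simp only [List.forall_mem_cons] at x1 x2
    · exact inc X x1.1 x2.1 x1.2.1 x2.2.1 _ x0 x2.2.2.1
    · exact inc X x1.1 x2.1 x1.2.1 x2.2.1 _ y0 x2.2.2.1
    · have s1 := h.sup2 m0 x1.1 b1 x2.1 b2 (Or.inr ⟨x2.2.1, x1.2.1, b3, b4⟩)
      have s2 := h.le1 (X ∪ Z0) (by simp [b1]) (by simp [x2.1, b2])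
      have s3 := inc (X ∩ Z0) (by simp [x1.1, b1]) (by simp [b2]) (by simp [x1.2.2.1, x])
        (by simp [x2.2.2.1]) _ x0 (by simp [x2.2.1])
      omega

/-- the bridge hypothesis in trace form -/
def BrT (ψ : Finset V → ℤ) (H : Multiset (V × V)) (a b : V) : Prop :=
  ∀ g ∈ H, ∀ e ∈ H, ∀ e' ∈ H, NB ψ a b e → NB ψ a b e' → ∀ B B', TT ψ a b g.1 g.2 B →
    TT ψ a b g.2 g.1 B' → e.1 ∈ B → e.2 ∈ B → e'.1 ∈ B' → e'.2 ∈ B' → False

theorem exact_nb (h : AH q H a b) (hO : ∀ e ∈ H, ∃ X, TT (rs q H) a b e.1 e.2 X)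
    (hN : ∀ e ∈ H, ∀ e' ∈ H, NB (rs q H) a b e → NB (rs q H) a b e' →
      ¬ Pt1 (rs q H) a b e.1 e.2 e'.1 e'.2) (hB : BrT (rs q H) H a b)
    {e1 : V × V} (m1 : e1 ∈ H) (n1 : NB (rs q H) a b e1) :
    ∃ e0 ∈ H, NB (rs q H) a b e0 ∧ (∀ X, TT (rs q H) a b e0.1 e0.2 X → e1.1 ∈ X) ∧
      ∃ S, SubP ({a, b, e0.2}ᶜ) S ∧ (Multiset.card H : ℤ) ≤ val (zeta q a) S := by
  obtain ⟨e0, m0, n0, k1, k2⟩ := h.choose_root hO hN m1 n1
  refine ⟨e0, m0, n0, k1, h.exact_root (h.off e0 m0).2.1 (h.off e0 m0).2.2.2 hO hN k2 ?_⟩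
  rintro g hg B B' (⟨t1, t2⟩ | ⟨t1, t2⟩) hr e he hn x1 x2
  · have y0 : e0.2 ∈ B' := ((h.opp hg t1 t2).2 _ (h.off e0 m0).2.2.2).resolve_left hr
    exact hB g hg e he e0 m0 hn n0 B B' t1 t2 x1 x2 (n0.mem t2.1 t2.2.1 t2.2.2.2.2 y0) y0
  · have y0 : e0.2 ∈ B' := ((h.opp hg t2 t1).2 _ (h.off e0 m0).2.2.2).resolve_right hr
    exact hB g hg e0 m0 e he n0 hn B' B t2 t1 (n0.mem t2.1 t2.2.1 t2.2.2.2.2 y0) y0 x1 x2

theorem exact_any (h : AH q H a b) (hO : ∀ e ∈ H, ∃ X, TT (rs q H) a b e.1 e.2 X)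
    (hN : ∀ e ∈ H, ∀ e' ∈ H, NB (rs q H) a b e → NB (rs q H) a b e' →
      ¬ Pt1 (rs q H) a b e.1 e.2 e'.1 e'.2) (hB : BrT (rs q H) H a b)
    {r : V} (hra : r ≠ a) (hrb : r ≠ b) :
    ∃ r S, r ≠ a ∧ r ≠ b ∧ SubP ({a, b, r}ᶜ) S ∧ (Multiset.card H : ℤ) ≤ val (zeta q a) S := by
  by_cases hex : ∃ e ∈ H, NB (rs q H) a b e
  · obtain ⟨e1, m1, n1⟩ := hex
    obtain ⟨e0, m0, -, -, S, s1, s2⟩ := h.exact_nb hO hN hB m1 n1
    exact ⟨e0.2, S, (h.off e0 m0).2.1, (h.off e0 m0).2.2.2, s1, s2⟩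
  · obtain ⟨S, s1, s2⟩ := h.exact_root hra hrb hO hN (fun e he hn => absurd ⟨e, he, hn⟩ hex)
      (fun _ _ _ _ _ _ e he hn _ _ => hex ⟨e, he, hn⟩)
    exact ⟨r, S, hra, hrb, s1, s2⟩

end AH

end Pool.Agent.CSG
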